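import Pool.Agent.Lib.MP_b05ae9_pr.Defs

/-!
# Task A: algebra of `F` and `cf`, symmetries of the cube
-/

set_option autoImplicit false

open MeasureTheory Set Filter Topology
open scoped ENNReal MeasureTheory

namespace Pool.Agent.B05

namespace AlgAux

/-- the matrix in the definition of `cf` -/
def cfM {m : ℕ} (I : Fin (m + 2) → P m) (k : Fin (m + 2)) : Matrix (Fin (m + 2)) (Fin (m + 2)) ℝ :=
  Matrix.of fun i j : Fin (m + 2) => (Fin.cons (1 : ℝ) (pr k (I i)) : Fin (m + 2) → ℝ) j

lemma cf_def {m : ℕ} (I : Fin (m + 2) → P m) (k : Fin (m + 2)) :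
    cf I k = (-1) ^ ((k : ℕ) + 1) * (cfM I k).det := rfl

end AlgAux

open AlgAux

theorem F_affine {m : ℕ} (I : Fin (m + 2) → P m) (q : P m) :
    F I q = Matrix.det (Matrix.of I) + ∑ k, cf I k * q k := by
  rw [F, Matrix.det_succ_row_zero, Fin.sum_univ_succ]
  congr 1
  · have h : ((Matrix.of fun i j : Fin (m + 3) =>
      (Fin.cons (1 : ℝ) ((Fin.cons q I : Fin (m + 3) → P m) i) : Fin (m + 3) → ℝ) j).submatrix
        Fin.succ (Fin.succAbove 0)) = Matrix.of I := by
      ext i j
      simp [Matrix.submatrix_apply]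
    rw [h]
    simp
  · refine Finset.sum_congr rfl fun k _ => ?_
    have h : ((Matrix.of fun i j : Fin (m + 3) =>
      (Fin.cons (1 : ℝ) ((Fin.cons q I : Fin (m + 3) → P m) i) : Fin (m + 3) → ℝ) j).submatrix
        Fin.succ (Fin.succAbove k.succ)) = cfM I k := by
      ext i j
      refine Fin.cases ?_ (fun l => ?_) j
      · simp [cfM, Matrix.submatrix_apply]
      · simp [cfM, Matrix.submatrix_apply, pr]
    rw [h, cf_def]
    simp only [Matrix.of_apply, Fin.cons_zero, Fin.cons_succ, Fin.val_succ]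
    ring

theorem F_self {m : ℕ} (I : Fin (m + 2) → P m) (i : Fin (m + 2)) : F I (I i) = 0 := by
  rw [F]
  refine Matrix.det_zero_of_row_eq (i := 0) (j := i.succ) (Fin.succ_ne_zero i).symm ?_
  funext j
  simp [Matrix.of_apply]

theorem cf_perm {m : ℕ} (I : Fin (m + 2) → P m) (π : Equiv.Perm (Fin (m + 2))) (k : Fin (m + 2)) :
    cf (I ∘ π) k = (Equiv.Perm.sign π : ℤ) * cf I k := by
  have h : cfM (I ∘ π) k = (cfM I k).submatrix π id := by
    ext i j; simp [cfM, Matrix.submatrix_apply]
  rw [cf_def, cf_def, h, Matrix.det_permute]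
  ring

theorem F_perm {m : ℕ} (I : Fin (m + 2) → P m) (π : Equiv.Perm (Fin (m + 2))) (q : P m) :
    F (I ∘ π) q = (Equiv.Perm.sign π : ℤ) * F I q := by
  have h : (Matrix.of (I ∘ π) : Matrix (Fin (m + 2)) (Fin (m + 2)) ℝ) =
      (Matrix.of I).submatrix π id := by
    ext i j; simp [Matrix.submatrix_apply]
  rw [F_affine, F_affine, h, Matrix.det_permute, mul_add, Finset.mul_sum]
  simp only [cf_perm, mul_assoc]

theorem cf_diag {m : ℕ} (I : Fin (m + 2) → P m) (d : Fin (m + 2) → ℝ) (k : Fin (m + 2)) :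
    cf (fun i l => d l * I i l) k = (∏ l ∈ Finset.univ.erase k, d l) * cf I k := by
  have h : cfM (fun i l => d l * I i l) k = Matrix.of fun i j =>
      (Fin.cons 1 (fun l => d (k.succAbove l)) : Fin (m + 2) → ℝ) j * cfM I k i j := by
    ext i j
    refine Fin.cases ?_ (fun l => ?_) j
    · simp [cfM]
    · simp [cfM, pr]
  have h2 : ∏ l ∈ Finset.univ.erase k, d l = ∏ l, d (k.succAbove l) := by
    have h3 := Fin.prod_univ_succAbove (fun l => if l = k then 1 else d l) k
    rw [if_pos rfl, one_mul] at h3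
    have h4 : ∀ l, (if k.succAbove l = k then (1 : ℝ) else d (k.succAbove l)) =
        d (k.succAbove l) := fun l => if_neg (Fin.succAbove_ne k l)
    simp only [h4] at h3
    rw [← h3, ← Finset.mul_prod_erase Finset.univ _ (Finset.mem_univ k), if_pos rfl, one_mul]
    refine Finset.prod_congr rfl fun l hl => ?_
    rw [if_neg (Finset.ne_of_mem_erase hl)]
  rw [cf_def, cf_def, h, Matrix.det_mul_row, Fin.prod_univ_succ, h2]
  simp only [Fin.cons_zero, Fin.cons_succ]
  ring

theorem F_diag {m : ℕ} (I : Fin (m + 2) → P m) (d : Fin (m + 2) → ℝ) (q : P m) :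
    F (fun i k => d k * I i k) (fun k => d k * q k) = (∏ k, d k) * F I q := by
  have h : (Matrix.of (fun i k => d k * I i k) : Matrix (Fin (m + 2)) (Fin (m + 2)) ℝ) =
      Matrix.of fun i j => d j * (Matrix.of I) i j := by
    ext i j; simp
  rw [F_affine, F_affine, h, Matrix.det_mul_row, mul_add, Finset.mul_sum]
  congr 1
  refine Finset.sum_congr rfl fun k _ => ?_
  rw [cf_diag, ← Finset.mul_prod_erase Finset.univ d (Finset.mem_univ k)]
  ring

/-- the edge `x₀ = x₁ = 0` -/
def e0 (m : ℕ) : Edge m := ⟨((0, 1), false, false), by simp⟩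

namespace AlgAux

/-- reflect the coordinate if `b` -/
def fl (b : Bool) (x : ℝ) : ℝ := if b then 1 - x else x

lemma fl_fl (b : Bool) (x : ℝ) : fl b (fl b x) = x := by
  cases b <;> simp [fl]

lemma measurable_fl (b : Bool) : Measurable (fl b) := by
  cases b
  · exact measurable_id
  · exact measurable_const.sub measurable_id

lemma mp_fl (b : Bool) : MeasurePreserving (fl b) (volume : Measure ℝ) volume := by
  cases b
  · exact MeasurePreserving.id _
  · exact Measure.measurePreserving_sub_left volume (1 : ℝ)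

/-- slope of `fl` -/
def sl (b : Bool) : ℝ := if b then -1 else 1

/-- constant term of `fl` -/
def ct (b : Bool) : ℝ := if b then 1 else 0

lemma fl_eq (b : Bool) (x : ℝ) : fl b x = ct b + sl b * x := by
  cases b <;> simp [fl, ct, sl]; ring

lemma sl_mul_self (b : Bool) : sl b * sl b = 1 := by
  cases b <;> simp [sl]

lemma sl_eq (b : Bool) : sl b = - sg b := by
  cases b <;> simp [sl, sg]

lemma dst_eq (b : Bool) (x : ℝ) : dst b x = fl b x := by
  cases b <;> simp [dst, fl]

variable {m : ℕ} (π : Equiv.Perm (Fin (m + 2))) (s : Fin (m + 2) → Bool)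

/-- the symmetry: permute the coordinates and reflect some of them -/
def sym : P m ≃ᵐ P m where
  toFun q := fun k => fl (s k) (q (π k))
  invFun p := fun l => fl (s (π.symm l)) (p (π.symm l))
  left_inv q := by funext l; simp [fl_fl]
  right_inv p := by funext k; simp [fl_fl]
  measurable_toFun := measurable_pi_iff.2 fun k => (measurable_fl _).comp (measurable_pi_apply _)
  measurable_invFun := measurable_pi_iff.2 fun k => (measurable_fl _).comp (measurable_pi_apply _)

lemma sym_apply (q : P m) (k : Fin (m + 2)) : sym π s q k = fl (s k) (q (π k)) := rfl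

lemma mp_sym_volume : MeasurePreserving (sym π s) (volume : Measure (P m)) volume := by
  have h1 : MeasurePreserving (fun (q : P m) (k : Fin (m + 2)) => q (π k)) volume volume := by
    have := volume_measurePreserving_piCongrLeft (fun _ : Fin (m + 2) => ℝ) π.symm
    convert this using 1
    funext q k
    have h := MeasurableEquiv.piCongrLeft_apply_apply (β := fun _ : Fin (m + 2) => ℝ) π.symm q (π k)
    rw [Equiv.symm_apply_apply] at h
    exact h.symm
  have h2 : MeasurePreserving (fun (q : P m) (k : Fin (m + 2)) => fl (s k) (q k)) volume volume :=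
    volume_preserving_pi fun k => mp_fl (s k)
  exact h2.comp h1

lemma sym_mem_cube (q : P m) : sym π s q ∈ cube (m + 2) ↔ q ∈ cube (m + 2) := by
  have h1 : ∀ (b : Bool) (x : ℝ), (0 ≤ fl b x ∧ fl b x ≤ 1) ↔ (0 ≤ x ∧ x ≤ 1) := by
    intro b x
    cases b
    · simp [fl]
    · simp only [fl, if_true]
      constructor
      · rintro ⟨h, h'⟩; exact ⟨by linarith, by linarith⟩
      · rintro ⟨h, h'⟩; exact ⟨by linarith, by linarith⟩
  have h2 : ∀ p : P m, p ∈ cube (m + 2) ↔ ∀ k, 0 ≤ p k ∧ p k ≤ 1 := by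
    intro p
    rw [cube, mem_Icc, Pi.le_def, Pi.le_def]
    exact ⟨fun h k => ⟨h.1 k, h.2 k⟩, fun h => ⟨fun k => (h k).1, fun k => (h k).2⟩⟩
  rw [h2, h2]
  simp only [sym_apply, h1]
  exact ⟨fun h l => by simpa using h (π.symm l), fun h k => h (π k)⟩

lemma mp_sym : MeasurePreserving (sym π s) (unif (m + 2)) (unif (m + 2)) := by
  have h := (mp_sym_volume π s).restrict_preimage (s := cube (m + 2)) measurableSet_Icc
  have h2 : sym π s ⁻¹' cube (m + 2) = cube (m + 2) := by
    ext q; exact sym_mem_cube π s q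
  rw [h2] at h
  exact h

/-- the factor of `F` -/
noncomputable def eps : ℝ := (Equiv.Perm.sign π : ℤ) * ∏ k, sl (s k)

lemma eps_mul_self : eps π s * eps π s = 1 := by
  have h1 : (∏ k, sl (s k)) * ∏ k, sl (s k) = 1 := by
    rw [← Finset.prod_mul_distrib]
    exact Finset.prod_eq_one fun k _ => sl_mul_self _
  have h2 : (((Equiv.Perm.sign π : ℤ) : ℝ)) * ((Equiv.Perm.sign π : ℤ) : ℝ) = 1 := by
    rcases Int.units_eq_one_or (Equiv.Perm.sign π) with h | h <;> rw [h] <;> norm_num
  rw [eps]
  calc _ = ((((Equiv.Perm.sign π : ℤ) : ℝ)) * ((Equiv.Perm.sign π : ℤ) : ℝ)) *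
        ((∏ k, sl (s k)) * ∏ k, sl (s k)) := by ring
    _ = 1 := by rw [h1, h2, one_mul]

/-- matrix of the affine map `sym` -/
noncomputable def symB : Matrix (Fin (m + 3)) (Fin (m + 3)) ℝ :=
  Matrix.of fun a j => (Fin.cons (Fin.cons (1 : ℝ) (fun k => ct (s k)) : Fin (m + 3) → ℝ)
    (fun l => (Fin.cons (0 : ℝ) (fun k => sl (s k) * (1 : Matrix (Fin (m + 2)) (Fin (m + 2)) ℝ) l (π k)) :
      Fin (m + 3) → ℝ)) : Fin (m + 3) → Fin (m + 3) → ℝ) a j

lemma det_symB : (symB π s).det = eps π s := by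
  rw [Matrix.det_succ_column_zero, Fin.sum_univ_succ]
  have h1 : ∀ l : Fin (m + 2), symB π s l.succ 0 = 0 := by
    intro l; simp [symB]
  have h2 : symB π s 0 0 = 1 := by simp [symB]
  have h3 : (symB π s).submatrix (Fin.succAbove 0) Fin.succ =
      Matrix.of fun i j => sl (s j) * ((1 : Matrix (Fin (m + 2)) (Fin (m + 2)) ℝ).submatrix id π) i j := by
    ext i j
    simp [symB, Matrix.submatrix_apply, -id_eq]
    left; rfl
  simp only [h1, h2, h3, mul_zero, zero_mul, Finset.sum_const_zero, add_zero, mul_one, one_mul,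
    Fin.val_zero, pow_zero]
  rw [Matrix.det_mul_row, Matrix.det_permute', Matrix.det_one, mul_one, eps, mul_comm]

lemma row_symB (q : P m) : Matrix.vecMul (Fin.cons (1 : ℝ) q : Fin (m + 3) → ℝ) (symB π s) =
    (Fin.cons (1 : ℝ) (sym π s q) : Fin (m + 3) → ℝ) := by
  funext j
  rw [Matrix.vecMul, dotProduct, Fin.sum_univ_succ]
  refine Fin.cases ?_ (fun k => ?_) j
  · simp [symB]
  · simp only [symB, Matrix.of_apply, Fin.cons_zero, Fin.cons_succ, one_mul]
    rw [Finset.sum_eq_single (π k)]
    · rw [Matrix.one_apply_eq, sym_apply, fl_eq]; ring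
    · intro l _ hl
      rw [Matrix.one_apply_ne hl]; ring
    · intro h; exact absurd (Finset.mem_univ _) h

lemma F_sym (I : Fin (m + 2) → P m) (q : P m) :
    F (fun i => sym π s (I i)) (sym π s q) = eps π s * F I q := by
  have h : (Matrix.of fun i j : Fin (m + 3) => (Fin.cons (1 : ℝ)
      ((Fin.cons (sym π s q) (fun i => sym π s (I i)) : Fin (m + 3) → P m) i) : Fin (m + 3) → ℝ) j) =
      (Matrix.of fun i j : Fin (m + 3) =>
        (Fin.cons (1 : ℝ) ((Fin.cons q I : Fin (m + 3) → P m) i) : Fin (m + 3) → ℝ) j) *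
        symB π s := by
    ext i j
    have h1 : (Fin.cons (sym π s q) (fun i => sym π s (I i)) : Fin (m + 3) → P m) i =
        sym π s ((Fin.cons q I : Fin (m + 3) → P m) i) := by
      refine Fin.cases ?_ (fun k => ?_) i <;> simp
    rw [Matrix.of_apply, h1, ← row_symB]
    rfl
  rw [F, F, h, Matrix.det_mul, det_symB, mul_comm]

lemma cf_sym (I : Fin (m + 2) → P m) (k : Fin (m + 2)) :
    cf (fun i => sym π s (I i)) k = eps π s * (sl (s k) * cf I (π k)) := by
  -- compare the values at `0` and at the unit vector of `π k`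
  have h0 := F_sym π s I (0 : P m)
  have h1 := F_sym π s I (Pi.single (π k) 1 : P m)
  have e1 : F I (Pi.single (π k) 1 : P m) - F I (0 : P m) = cf I (π k) := by
    rw [F_affine, F_affine, add_sub_add_left_eq_sub, ← Finset.sum_sub_distrib,
      Finset.sum_eq_single (π k)]
    · simp
    · intro l _ hl
      rw [Pi.single_eq_of_ne hl]; simp
    · intro h; exact absurd (Finset.mem_univ _) h
  have e2 : F (fun i => sym π s (I i)) (sym π s (Pi.single (π k) 1 : P m)) -
      F (fun i => sym π s (I i)) (sym π s (0 : P m)) = cf (fun i => sym π s (I i)) k * sl (s k) := by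
    rw [F_affine, F_affine, add_sub_add_left_eq_sub, ← Finset.sum_sub_distrib,
      Finset.sum_eq_single k]
    · rw [← mul_sub, sym_apply, sym_apply, fl_eq, fl_eq]
      simp
    · intro l _ hl
      rw [← mul_sub, sym_apply, sym_apply, fl_eq, fl_eq]
      have : (Pi.single (π k) (1 : ℝ) : P m) (π l) = 0 :=
        Pi.single_eq_of_ne (fun h => hl (π.injective h)) _
      rw [this]; simp
    · intro h; exact absurd (Finset.mem_univ _) h
  have e3 : cf (fun i => sym π s (I i)) k * sl (s k) = eps π s * cf I (π k) := by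
    rw [← e2, h1, h0, ← e1]; ring
  calc cf (fun i => sym π s (I i)) k
      = cf (fun i => sym π s (I i)) k * sl (s k) * sl (s k) := by
        rw [mul_assoc, sl_mul_self, mul_one]
    _ = eps π s * (sl (s k) * cf I (π k)) := by rw [e3]; ring

lemma abs_eps : |eps π s| = 1 := by
  have h := eps_mul_self π s
  rw [← abs_mul_abs_self] at h
  nlinarith [abs_nonneg (eps π s), h]

lemma abs_sl (b : Bool) : |sl b| = 1 := by
  cases b <;> simp [sl]

lemma abs_cf_sym (I : Fin (m + 2) → P m) (k : Fin (m + 2)) :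
    |cf (fun i => sym π s (I i)) k| = |cf I (π k)| := by
  rw [cf_sym, abs_mul, abs_mul, abs_eps, abs_sl, one_mul, one_mul]

lemma phi_sym (I : Fin (m + 2) → P m) : phi (fun i => sym π s (I i)) = phi I := by
  have h1 : ∑ k, |cf (fun i => sym π s (I i)) k| = ∑ k, |cf I k| := by
    simp only [abs_cf_sym]
    exact Equiv.sum_comp π (fun k => |cf I k|)
  have h2 : nrm (fun i => sym π s (I i)) = nrm I := by
    rw [nrm, nrm]
    congr 1
    have : ∀ k, cf (fun i => sym π s (I i)) k ^ 2 = cf I (π k) ^ 2 := by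
      intro k
      rw [← sq_abs, abs_cf_sym, sq_abs]
    simp only [this]
    exact Equiv.sum_comp π (fun k => cf I k ^ 2)
  rw [phi, phi, h1, h2]

lemma exists_perm {i j : Fin (m + 2)} (h : i ≠ j) :
    ∃ π : Equiv.Perm (Fin (m + 2)), π 0 = i ∧ π 1 = j := by
  refine ⟨Equiv.swap 0 i * Equiv.swap 1 (Equiv.swap 0 i j), ?_, ?_⟩
  · have h3 : Equiv.swap 1 (Equiv.swap 0 i j) (0 : Fin (m + 2)) = 0 := by
      refine Equiv.swap_apply_of_ne_of_ne (by simp) fun h' => ?_
      have h2 : Equiv.swap 0 i j = Equiv.swap 0 i i := by rw [← h', Equiv.swap_apply_right]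
      exact h ((Equiv.swap 0 i).injective h2).symm
    rw [Equiv.Perm.mul_apply, h3, Equiv.swap_apply_left]
  · rw [Equiv.Perm.mul_apply, Equiv.swap_apply_left, Equiv.swap_apply_self]

end AlgAux

/-- symmetries of the cube -/
theorem exists_sym {m : ℕ} (e : Edge m) : ∃ g : P m ≃ᵐ P m,
    MeasurePreserving g (unif (m + 2)) (unif (m + 2)) ∧
    (∀ q, g q ∈ cube (m + 2) ↔ q ∈ cube (m + 2)) ∧
    (∀ (I : Fin (m + 2) → P m) (q : P m), q ∈ U e I ↔ g q ∈ U (e0 m) (fun i => g (I i))) ∧
    (∀ (I : Fin (m + 2) → P m), Dom e I ↔ Dom (e0 m) (fun i => g (I i))) ∧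
    (∀ (I : Fin (m + 2) → P m), phi (fun i => g (I i)) = phi I) ∧
    (∀ (ρ : ℝ) (q : P m), q ∈ win e ρ ↔ g q ∈ win (e0 m) ρ) := by
  obtain ⟨⟨⟨i, j⟩, a, b⟩, hij⟩ := e
  have hij' : i < j := hij
  obtain ⟨π, h0, h1⟩ := exists_perm hij'.ne
  set s : Fin (m + 2) → Bool := fun k => if k = 0 then a else if k = 1 then b else false with hs
  have s0 : s 0 = a := by simp [hs]
  have s1 : s 1 = b := by simp [hs]
  have c0 : ∀ I : Fin (m + 2) → P m, cf (fun i => sym π s (I i)) 0 = eps π s * (sl a * cf I i) := by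
    intro I; rw [cf_sym, s0, h0]
  have c1 : ∀ I : Fin (m + 2) → P m, cf (fun i => sym π s (I i)) 1 = eps π s * (sl b * cf I j) := by
    intro I; rw [cf_sym, s1, h1]
  refine ⟨sym π s, mp_sym π s, sym_mem_cube π s, ?_, ?_, phi_sym π s, ?_⟩
  · intro I q
    have e1 : sg false * (F (fun i => sym π s (I i)) (sym π s q) *
        cf (fun i => sym π s (I i)) 0) = sg a * (F I q * cf I i) := by
      rw [F_sym, c0]
      have := eps_mul_self π s
      have h3 : sg a = - sl a := by rw [sl_eq]; ring
      rw [h3]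
      calc sg false * (eps π s * F I q * (eps π s * (sl a * cf I i)))
          = (eps π s * eps π s) * (sg false * sl a * (F I q * cf I i)) := by ring
        _ = _ := by rw [this]; simp [sg]
    constructor
    · rintro ⟨h2, h3⟩
      refine ⟨(sym_mem_cube π s q).2 h2, ?_⟩
      rw [show sg (e0 m).1.2.1 = sg false from rfl, show (e0 m).1.1.1 = 0 from rfl, e1]
      exact h3
    · rintro ⟨h2, h3⟩
      refine ⟨(sym_mem_cube π s q).1 h2, ?_⟩
      rw [show sg (e0 m).1.2.1 = sg false from rfl, show (e0 m).1.1.1 = 0 from rfl, e1] at h3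
      exact h3
  · intro I
    have e1 : sg false * sg false * (cf (fun i => sym π s (I i)) 0 *
        cf (fun i => sym π s (I i)) 1) = sg a * sg b * (cf I i * cf I j) := by
      rw [c0, c1]
      have := eps_mul_self π s
      have h3 : sg a = - sl a := by rw [sl_eq]; ring
      have h4 : sg b = - sl b := by rw [sl_eq]; ring
      rw [h3, h4]
      calc sg false * sg false * (eps π s * (sl a * cf I i) * (eps π s * (sl b * cf I j)))
          = (eps π s * eps π s) * (sg false * sg false * (sl a * sl b * (cf I i * cf I j))) := by ring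
        _ = _ := by rw [this]; simp [sg]
    have e2 : (∀ l, l ≠ i → l ≠ j → |cf I l| < |cf I i| ∧ |cf I l| < |cf I j|) ↔
        ∀ l, l ≠ 0 → l ≠ 1 → |cf (fun i => sym π s (I i)) l| < |cf (fun i => sym π s (I i)) 0| ∧
          |cf (fun i => sym π s (I i)) l| < |cf (fun i => sym π s (I i)) 1| := by
      simp only [abs_cf_sym, h0, h1]
      constructor
      · intro h l hl0 hl1
        exact h (π l) (fun h' => hl0 (π.injective (h'.trans h0.symm)))
          (fun h' => hl1 (π.injective (h'.trans h1.symm)))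
      · intro h l hl0 hl1
        have := h (π.symm l) (fun h' => hl0 (by rw [← h0, ← h', Equiv.apply_symm_apply]))
          (fun h' => hl1 (by rw [← h1, ← h', Equiv.apply_symm_apply]))
        rwa [Equiv.apply_symm_apply] at this
    constructor
    · rintro ⟨h2, h3⟩
      exact ⟨by rw [show sg (e0 m).1.2.1 = sg false from rfl, show sg (e0 m).1.2.2 = sg false from rfl,
        show (e0 m).1.1.1 = 0 from rfl, show (e0 m).1.1.2 = 1 from rfl, e1]; exact h2, e2.1 h3⟩
    · rintro ⟨h2, h3⟩
      rw [show sg (e0 m).1.2.1 = sg false from rfl, show sg (e0 m).1.2.2 = sg false from rfl,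
        show (e0 m).1.1.1 = 0 from rfl, show (e0 m).1.1.2 = 1 from rfl, e1] at h2
      exact ⟨h2, e2.2 h3⟩
  · intro ρ q
    have e1 : dst false (sym π s q 0) = dst a (q i) := by
      rw [dst_eq, dst_eq, sym_apply, s0, h0]; rfl
    have e2 : dst false (sym π s q 1) = dst b (q j) := by
      rw [dst_eq, dst_eq, sym_apply, s1, h1]; rfl
    constructor
    · rintro ⟨h2, h3, h4⟩
      exact ⟨(sym_mem_cube π s q).2 h2, by
        rw [show (e0 m).1.2.1 = false from rfl, show (e0 m).1.1.1 = 0 from rfl, e1]; exact h3, by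
        rw [show (e0 m).1.2.2 = false from rfl, show (e0 m).1.1.2 = 1 from rfl, e2]; exact h4⟩
    · rintro ⟨h2, h3, h4⟩
      rw [show (e0 m).1.2.1 = false from rfl, show (e0 m).1.1.1 = 0 from rfl, e1] at h3
      rw [show (e0 m).1.2.2 = false from rfl, show (e0 m).1.1.2 = 1 from rfl, e2] at h4
      exact ⟨(sym_mem_cube π s q).1 h2, h3, h4⟩

end Pool.Agent.B05
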