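import Pool.Agent.Lib.MP_b05ae9_pr.Defs

/-!
# MP_b05ae9_pr, task C: area of subsets of hyperplanes
-/

set_option autoImplicit false

open MeasureTheory Set Filter Topology
open scoped ENNReal MeasureTheory

namespace Pool.Agent.B05

namespace C

theorem F_aff {m : ℕ} (I : Fin (m + 2) → P m) (q : P m) :
    F I q = Matrix.det (Matrix.of I) + ∑ k, cf I k * q k := by
  unfold F
  rw [Matrix.det_succ_row_zero, Fin.sum_univ_succ]
  congr 1
  · simp only [Fin.val_zero, pow_zero, one_mul, Matrix.of_apply, Fin.cons_zero]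
    rfl
  · refine Finset.sum_congr rfl fun k _ => ?_
    unfold cf
    have h : (Matrix.of fun i j : Fin (m + 3) =>
        (Fin.cons (1 : ℝ) ((Fin.cons q I : Fin (m + 3) → P m) i) : Fin (m + 3) → ℝ) j).submatrix
          Fin.succ (k.succ).succAbove = Matrix.of fun i j : Fin (m + 2) =>
        (Fin.cons (1 : ℝ) (pr k (I i)) : Fin (m + 2) → ℝ) j := by
      ext i j
      refine Fin.cases ?_ (fun l => ?_) j
      · simp
      · simp [pr]
    rw [h]
    simp
    ring

/-- the parametrization of the hyperplane -/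
noncomputable def L {m : ℕ} (k : Fin (m + 2)) (b : Fin (m + 1) → ℝ) :
    EuclideanSpace ℝ (Fin (m + 1)) →ₗ[ℝ] EuclideanSpace ℝ (Fin (m + 2)) where
  toFun u := WithLp.toLp 2 (k.insertNth (∑ l, b l * u l) (fun l => u l))
  map_add' u v := by
    ext i
    refine Fin.succAboveCases k ?_ (fun l => ?_) i
    · simp [mul_add, Finset.sum_add_distrib]
    · simp
  map_smul' c u := by
    ext i
    refine Fin.succAboveCases k ?_ (fun l => ?_) i
    · simp [Finset.mul_sum, mul_left_comm]
    · simp

theorem normDet_L {m : ℕ} (k : Fin (m + 2)) (b : Fin (m + 1) → ℝ) :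
    (L k b).normDet ^ 2 = 1 + ∑ l, b l ^ 2 := by
  have h := (L k b).normDet_sq_eq_det_gram (EuclideanSpace.basisFun (Fin (m + 1)) ℝ)
  have hL : ∀ i, L k b (EuclideanSpace.basisFun (Fin (m + 1)) ℝ i) =
      WithLp.toLp 2 (k.insertNth (b i) (fun l => if l = i then 1 else 0)) := by
    intro i
    ext j
    refine Fin.succAboveCases k ?_ (fun l => ?_) j
    · simp [L]
    · simp [L, PiLp.single_apply]
  have hG : Matrix.gram ℝ (fun i => L k b (EuclideanSpace.basisFun (Fin (m + 1)) ℝ i)) =
      1 + Matrix.replicateCol Unit b * Matrix.replicateRow Unit b := by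
    ext i j
    rw [Matrix.gram_apply, hL i, hL j, PiLp.inner_apply, Fin.sum_univ_succAbove _ k]
    simp only [Fin.insertNth_apply_same, Fin.insertNth_apply_succAbove, Matrix.add_apply,
      Matrix.one_apply, Matrix.mul_apply, Matrix.replicateCol_apply, Matrix.replicateRow_apply]
    by_cases hij : i = j
    · subst hij
      simp
      ring
    · simp [hij]
      ring
  rw [hG, Matrix.det_one_add_replicateCol_mul_replicateRow] at h
  have h2 : (L k b).normDet ^ 2 = 1 + b ⬝ᵥ b := by exact_mod_cast h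
  rw [h2, dotProduct]
  congr 1
  exact Finset.sum_congr rfl fun l _ => (sq (b l)).symm

end C

theorem area_formula {m : ℕ} (I : Fin (m + 2) → P m) (k : Fin (m + 2)) (hk : cf I k ≠ 0)
    (A : Set (P m)) (hA : ∀ q ∈ A, F I q = 0) :
    (μHE[m + 1] : Measure (EuclideanSpace ℝ (Fin (m + 2))))
      ((WithLp.toLp 2 : P m → EuclideanSpace ℝ (Fin (m + 2))) '' A) =
      ENNReal.ofReal (nrm I / |cf I k|) * volume (pr k '' A) := by
  set b : Fin (m + 1) → ℝ := fun l => -(cf I (k.succAbove l)) / cf I k with hb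
  set c : EuclideanSpace ℝ (Fin (m + 2)) :=
    WithLp.toLp 2 (Pi.single k (-(Matrix.det (Matrix.of I)) / cf I k)) with hc
  -- the norm determinant
  have hN : (C.L k b).normDet = nrm I / |cf I k| := by
    have h1 := C.normDet_L k b
    have h2 : (nrm I / |cf I k|) ^ 2 = 1 + ∑ l, b l ^ 2 := by
      have h3 : nrm I ^ 2 = ∑ k, cf I k ^ 2 := Real.sq_sqrt (Finset.sum_nonneg fun _ _ => sq_nonneg _)
      rw [div_pow, sq_abs, h3, Fin.sum_univ_succAbove _ k, add_div, div_self (pow_ne_zero 2 hk),
        Finset.sum_div]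
      congr 1
      refine Finset.sum_congr rfl fun l _ => ?_
      rw [hb]
      simp only [div_pow, neg_sq]
    have h4 : 0 ≤ nrm I / |cf I k| := div_nonneg (Real.sqrt_nonneg _) (abs_nonneg _)
    exact (sq_eq_sq₀ ((C.L k b).normDet_nonneg) h4).mp (h1.trans h2.symm)
  -- the image
  have himg : (WithLp.toLp 2 : P m → EuclideanSpace ℝ (Fin (m + 2))) '' A =
      (fun v => c + v) '' ((C.L k b) '' ((WithLp.toLp 2 :
        (Fin (m + 1) → ℝ) → EuclideanSpace ℝ (Fin (m + 1))) '' (pr k '' A))) := by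
    rw [image_image, image_image, image_image]
    refine image_congr fun q hq => ?_
    have h0 := hA q hq
    rw [C.F_aff, Fin.sum_univ_succAbove _ k] at h0
    ext i
    refine Fin.succAboveCases k ?_ (fun l => ?_) i
    · simp only [hc, hb, C.L, LinearMap.coe_mk, AddHom.coe_mk, PiLp.add_apply, Pi.single_eq_same,
        Fin.insertNth_apply_same, pr]
      have h5 : ∑ l, -(cf I (k.succAbove l)) / cf I k * q (k.succAbove l) =
          -(∑ l, cf I (k.succAbove l) * q (k.succAbove l)) / cf I k := by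
        rw [← Finset.sum_neg_distrib, Finset.sum_div]
        exact Finset.sum_congr rfl fun l _ => by ring
      rw [h5]
      field_simp
      linarith
    · simp [hc, C.L, pr]
  rw [himg]
  have htr : (μHE[m + 1] : Measure (EuclideanSpace ℝ (Fin (m + 2))))
      ((fun v => c + v) '' ((C.L k b) '' ((WithLp.toLp 2 :
        (Fin (m + 1) → ℝ) → EuclideanSpace ℝ (Fin (m + 1))) '' (pr k '' A)))) =
      (μHE[m + 1] : Measure (EuclideanSpace ℝ (Fin (m + 2))))
      (((C.L k b) '' ((WithLp.toLp 2 :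
        (Fin (m + 1) → ℝ) → EuclideanSpace ℝ (Fin (m + 1))) '' (pr k '' A)))) := by
    rw [Set.image_add_left, measure_preimage_add]
  rw [htr]
  have hfr : Module.finrank ℝ (EuclideanSpace ℝ (Fin (m + 1))) = m + 1 := by simp
  have hmain := (C.L k b).euclideanHausdorffMeasure_image_eq_normDet_mul_volume
    ((WithLp.toLp 2 : (Fin (m + 1) → ℝ) → EuclideanSpace ℝ (Fin (m + 1))) '' (pr k '' A))
  rw [hfr] at hmain
  rw [hmain, hN]
  congr 1
  have hpre : (WithLp.toLp 2 : (Fin (m + 1) → ℝ) → EuclideanSpace ℝ (Fin (m + 1))) '' (pr k '' A) =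
      (MeasurableEquiv.toLp 2 (Fin (m + 1) → ℝ)).symm ⁻¹' (pr k '' A) := by
    rw [← MeasurableEquiv.image_eq_preimage_symm]
    rfl
  rw [hpre]
  exact MeasurePreserving.measure_preimage_equiv
    (f := (MeasurableEquiv.toLp 2 (Fin (m + 1) → ℝ)).symm) (PiLp.volume_preserving_ofLp _) _

end Pool.Agent.B05
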