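import Mathlib

/-!
MP_b05ae9_pr, surface area infrastructure (helper96).

`surf K` is the `(m)`-dimensional Euclidean Hausdorff measure of the frontier of a set `K` of
`EuclideanSpace ℝ (Fin (m+1))`.

* `surf_mono`: monotone on compact convex sets.
* `surf_cube_deficit`: the surface area of a compact convex subset of the unit cube is at least
  `2 (m+1)` minus the sum over the facets of the volumes of the sets of the `q` for which the
  point above `q` at height `h q / 2` is not in `K`.
-/

open MeasureTheory Set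

namespace Pool.Agent.B05.SA

/-- `μHE[m]` of the frontier. -/
noncomputable def surf (m : ℕ) (K : Set (EuclideanSpace ℝ (Fin (m + 1)))) : ENNReal :=
  MeasureTheory.Measure.euclideanHausdorffMeasure m (frontier K)

section Proj

variable {H : Type*} [NormedAddCommGroup H] [InnerProductSpace ℝ H]

theorem exists_proj {K : Set H} (hK : IsComplete K) (hc : Convex ℝ K) (hne : K.Nonempty) (x : H) :
    ∃ y ∈ K, ∀ w ∈ K, inner ℝ (x - y) (w - y) ≤ 0 := by
  obtain ⟨y, hy, h⟩ := exists_norm_eq_iInf_of_complete_convex hne hK hc x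
  exact ⟨y, hy, (norm_eq_iInf_iff_real_inner_le_zero hc hy).1 h⟩

/-- The nearest point projection. -/
noncomputable def proj (K : Set H) (hK : IsComplete K) (hc : Convex ℝ K) (hne : K.Nonempty)
    (x : H) : H := (exists_proj hK hc hne x).choose

variable {K : Set H} (hK : IsComplete K) (hc : Convex ℝ K) (hne : K.Nonempty)

theorem proj_mem (x : H) : proj K hK hc hne x ∈ K := (exists_proj hK hc hne x).choose_spec.1

theorem proj_inner (x : H) {w : H} (hw : w ∈ K) :
    inner ℝ (x - proj K hK hc hne x) (w - proj K hK hc hne x) ≤ 0 :=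
  (exists_proj hK hc hne x).choose_spec.2 w hw

theorem proj_unique {x y : H} (hy : y ∈ K) (h : ∀ w ∈ K, inner ℝ (x - y) (w - y) ≤ 0) :
    proj K hK hc hne x = y := by
  set p := proj K hK hc hne x with hp
  have h1 : inner ℝ (x - p) (y - p) ≤ 0 := proj_inner hK hc hne x hy
  have h2 : inner ℝ (x - y) (p - y) ≤ 0 := h p (proj_mem hK hc hne x)
  have h3 : inner ℝ (p - y) (p - y) ≤ (0 : ℝ) := by
    have e : inner ℝ (p - y) (p - y) = inner ℝ (x - p) (y - p) + inner ℝ (x - y) (p - y) := by
      have e1 : p - y = (x - y) - (x - p) := by abel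
      have e2 : (y - p : H) = -(p - y) := by abel
      rw [e2, inner_neg_right]
      conv_lhs => rw [e1, inner_sub_left]
      rw [← e1]
      ring
    rw [e]; linarith
  have h4 : inner ℝ (p - y) (p - y) = (0 : ℝ) := le_antisymm h3 real_inner_self_nonneg
  exact sub_eq_zero.1 (inner_self_eq_zero.1 h4)

theorem proj_lipschitz : LipschitzWith 1 (proj K hK hc hne) := by
  refine LipschitzWith.of_dist_le_mul fun x y => ?_
  rw [NNReal.coe_one, one_mul, dist_eq_norm, dist_eq_norm]
  set p := proj K hK hc hne x with hp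
  set q := proj K hK hc hne y with hq
  have h1 : inner ℝ (x - p) (q - p) ≤ 0 := proj_inner hK hc hne x (proj_mem hK hc hne y)
  have h2 : inner ℝ (y - q) (p - q) ≤ 0 := proj_inner hK hc hne y (proj_mem hK hc hne x)
  have h3 : ‖p - q‖ * ‖p - q‖ ≤ ‖x - y‖ * ‖p - q‖ := by
    have e : inner ℝ (p - q) (p - q) =
        inner ℝ (x - y) (p - q) + inner ℝ (x - p) (q - p) + inner ℝ (y - q) (p - q) := by
      have e2 : (q - p : H) = -(p - q) := by abel
      rw [e2, inner_neg_right, ← inner_neg_left, ← inner_add_left, ← inner_add_left]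
      congr 1
      abel
    calc ‖p - q‖ * ‖p - q‖ = inner ℝ (p - q) (p - q) := (real_inner_self_eq_norm_mul_norm _).symm
      _ ≤ inner ℝ (x - y) (p - q) := by rw [e]; linarith
      _ ≤ ‖x - y‖ * ‖p - q‖ := real_inner_le_norm _ _
  rcases (norm_nonneg (p - q)).eq_or_lt with h | h
  · rw [← h]; positivity
  · exact le_of_mul_le_mul_right h3 h

theorem proj_self {x : H} (hx : x ∈ K) : proj K hK hc hne x = x :=
  proj_unique hK hc hne hx fun w _ => by simp

theorem proj_mem_image_frontier {L : Set H} (hL : IsCompact L) (hKL : K ⊆ L) {x : H}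
    (hx : x ∉ K) : proj K hK hc hne x ∈ proj K hK hc hne '' frontier L := by
  set p := proj K hK hc hne x with hp
  have hpK : p ∈ K := proj_mem hK hc hne x
  have hu : x - p ≠ 0 := fun h => hx (by rw [sub_eq_zero.1 h]; exact hpK)
  set u := x - p with hudef
  let T : Set ℝ := {t | 0 ≤ t ∧ p + t • u ∈ L}
  have hcont : Continuous fun t : ℝ => p + t • u := by fun_prop
  have hTc : IsClosed T := (isClosed_Ici (a := (0 : ℝ))).inter (hL.isClosed.preimage hcont)
  have hT0 : (0 : ℝ) ∈ T := ⟨le_rfl, by simpa using hKL hpK⟩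
  obtain ⟨R, hR⟩ := hL.isBounded.exists_norm_le
  have hTb : BddAbove T := by
    refine ⟨(R + ‖p‖) / ‖u‖, fun t ht => ?_⟩
    rw [le_div_iff₀ (norm_pos_iff.2 hu)]
    have h1 := hR _ ht.2
    have h2 : ‖t • u‖ ≤ ‖p + t • u‖ + ‖p‖ := by
      calc ‖t • u‖ = ‖(p + t • u) - p‖ := by congr 1; abel
        _ ≤ _ := norm_sub_le _ _
    rw [norm_smul, Real.norm_of_nonneg ht.1] at h2
    linarith
  set t0 := sSup T with ht0
  have hmem : t0 ∈ T := hTc.csSup_mem ⟨0, hT0⟩ hTb
  refine ⟨p + t0 • u, ?_, ?_⟩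
  · refine ⟨subset_closure hmem.2, fun hint => ?_⟩
    have hnhds : {t : ℝ | p + t • u ∈ L} ∈ nhds t0 :=
      hcont.continuousAt.preimage_mem_nhds (mem_interior_iff_mem_nhds.1 hint)
    obtain ⟨ε, hε, hball⟩ := Metric.mem_nhds_iff.1 hnhds
    have h1 : t0 + ε / 2 ∈ T := by
      refine ⟨by have := hmem.1; positivity, hball ?_⟩
      rw [Metric.mem_ball, Real.dist_eq]
      rw [add_sub_cancel_left, abs_of_pos (by positivity)]
      linarith
    have h2 := le_csSup hTb h1
    linarith
  · refine proj_unique hK hc hne hpK fun w hw => ?_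
    rw [add_sub_cancel_left, inner_smul_left]
    have h1 := proj_inner hK hc hne x hw
    have h2 := hmem.1
    simp only [conj_trivial]
    exact mul_nonpos_of_nonneg_of_nonpos h2 h1

theorem frontier_subset_image {L : Set H} (hL : IsCompact L) (hKL : K ⊆ L) :
    frontier K ⊆ proj K hK hc hne '' frontier L := by
  intro x hx
  have hxK : x ∈ K := hK.isClosed.closure_subset hx.1
  have hx2 : x ∈ closure Kᶜ := by
    rw [closure_compl]; exact hx.2
  have hcont : Continuous (proj K hK hc hne) := (proj_lipschitz hK hc hne).continuous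
  have h1 : proj K hK hc hne x ∈ closure (proj K hK hc hne '' Kᶜ) :=
    image_closure_subset_closure_image hcont ⟨x, hx2, rfl⟩
  rw [proj_self hK hc hne hxK] at h1
  have hcomp : IsCompact (proj K hK hc hne '' frontier L) :=
    (hL.of_isClosed_subset isClosed_frontier (hL.isClosed.frontier_subset)).image hcont
  refine closure_minimal ?_ hcomp.isClosed h1
  rintro _ ⟨y, hy, rfl⟩
  exact proj_mem_image_frontier hK hc hne hL hKL hy

end Proj

section HE

variable {X Y : Type*} [EMetricSpace X] [MeasurableSpace X] [BorelSpace X]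
  [EMetricSpace Y] [MeasurableSpace Y] [BorelSpace Y]

theorem muHE_image_le {f : X → Y} {s : Set X} (hf : LipschitzOnWith 1 f s) (d : ℕ) :
    (MeasureTheory.Measure.euclideanHausdorffMeasure d) (f '' s) ≤
      (MeasureTheory.Measure.euclideanHausdorffMeasure d) s := by
  simp_rw [MeasureTheory.Measure.euclideanHausdorffMeasure_def, Measure.smul_apply]
  have h := hf.hausdorffMeasure_image_le (d := (d : ℝ)) (by positivity)
  rw [ENNReal.coe_one, ENNReal.one_rpow, one_mul] at h
  gcongr

end HE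

/-- Surface area is monotone on compact convex sets. -/
theorem surf_mono (m : ℕ) {K L : Set (EuclideanSpace ℝ (Fin (m + 1)))} (hK : IsClosed K)
    (hc : Convex ℝ K) (hL : IsCompact L) (hKL : K ⊆ L) : surf m K ≤ surf m L := by
  rcases K.eq_empty_or_nonempty with rfl | hne
  · simp [surf]
  · unfold surf
    exact (measure_mono (frontier_subset_image hK.isComplete hc hne hL hKL)).trans
      (muHE_image_le (proj_lipschitz _ _ _).lipschitzOnWith m)

/-- The closed unit cube. -/
def cube (n : ℕ) : Set (EuclideanSpace ℝ (Fin n)) := {x | ∀ i, x i ∈ Icc (0 : ℝ) 1}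

/-- The open unit cube. -/
def ocube (n : ℕ) : Set (EuclideanSpace ℝ (Fin n)) := {x | ∀ i, x i ∈ Ioo (0 : ℝ) 1}

/-- The distance of a number to an end of the unit interval. -/
def tau (s : Bool) (a : ℝ) : ℝ := if s then 1 - a else a

theorem tau_tau (s : Bool) (a : ℝ) : tau s (tau s a) = a := by
  cases s <;> simp [tau]

theorem tau_not (s : Bool) (a : ℝ) : tau (!s) a = 1 - tau s a := by
  cases s <;> simp [tau]

theorem continuous_tau (s : Bool) : Continuous (tau s) := by
  cases s
  · have : tau false = fun a => a := by funext a; simp [tau]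
    rw [this]; fun_prop
  · have : tau true = fun a => 1 - a := by funext a; simp [tau]
    rw [this]; fun_prop

/-- The distance to the facet `p`. -/
def fdist {n : ℕ} (p : Fin n × Bool) (x : EuclideanSpace ℝ (Fin n)) : ℝ := tau p.2 (x p.1)

theorem continuous_fdist {n : ℕ} (p : Fin n × Bool) : Continuous (fdist p) :=
  (continuous_tau p.2).comp (by fun_prop)

/-- The open cone over the facet `p`. -/
def fcone {n : ℕ} (p : Fin n × Bool) : Set (EuclideanSpace ℝ (Fin n)) :=
  {x | ∀ p', p' ≠ p → fdist p x < fdist p' x}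

theorem isOpen_fcone {n : ℕ} (p : Fin n × Bool) : IsOpen (fcone p) := by
  have : fcone p = ⋂ p' : Fin n × Bool, ⋂ (_ : p' ≠ p), {x | fdist p x < fdist p' x} := by
    ext x; simp [fcone]
  rw [this]
  refine isOpen_iInter_of_finite fun p' => isOpen_iInter_of_finite fun _ => ?_
  exact isOpen_lt (continuous_fdist p) (continuous_fdist p')

theorem disjoint_fcone {n : ℕ} : Pairwise (Function.onFun Disjoint (fcone (n := n))) := by
  intro p p' hpp'
  refine Set.disjoint_left.2 fun x hx hx' => ?_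
  exact lt_irrefl _ ((hx p' hpp'.symm).trans (hx' p hpp'))

/-- The point over `q` at distance `t` from the facet `p`. -/
noncomputable def fpt {m : ℕ} (p : Fin (m + 1) × Bool) (t : ℝ) (q : EuclideanSpace ℝ (Fin m)) :
    EuclideanSpace ℝ (Fin (m + 1)) :=
  WithLp.toLp 2 (p.1.insertNth (tau p.2 t) (fun j => q j) : Fin (m + 1) → ℝ)

/-- The projection to a facet. -/
noncomputable def fpr {m : ℕ} (i : Fin (m + 1)) (x : EuclideanSpace ℝ (Fin (m + 1))) :
    EuclideanSpace ℝ (Fin m) := WithLp.toLp 2 (fun j => x (i.succAbove j))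

@[simp] theorem fpt_same {m : ℕ} (p : Fin (m + 1) × Bool) (t : ℝ) (q : EuclideanSpace ℝ (Fin m)) :
    (fpt p t q) p.1 = tau p.2 t := by
  simp [fpt]

@[simp] theorem fpt_succAbove {m : ℕ} (p : Fin (m + 1) × Bool) (t : ℝ)
    (q : EuclideanSpace ℝ (Fin m)) (j : Fin m) : (fpt p t q) (p.1.succAbove j) = q j := by
  simp [fpt]

@[simp] theorem fpr_apply {m : ℕ} (i : Fin (m + 1)) (x : EuclideanSpace ℝ (Fin (m + 1)))
    (j : Fin m) : fpr i x j = x (i.succAbove j) := rfl

theorem fpr_fpt {m : ℕ} (p : Fin (m + 1) × Bool) (t : ℝ) (q : EuclideanSpace ℝ (Fin m)) :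
    fpr p.1 (fpt p t q) = q := by
  ext j; simp

theorem continuous_fpt {m : ℕ} (p : Fin (m + 1) × Bool) (q : EuclideanSpace ℝ (Fin m)) :
    Continuous fun t => fpt p t q := by
  unfold fpt
  refine (PiLp.continuous_toLp 2 _).comp ?_
  refine continuous_pi fun k => ?_
  rcases eq_or_ne k p.1 with rfl | hk
  · simpa using continuous_tau p.2
  · obtain ⟨j, rfl⟩ := Fin.exists_succAbove_eq hk
    simpa using continuous_const

theorem fpr_lipschitz {m : ℕ} (i : Fin (m + 1)) : LipschitzWith 1 (fpr i) := by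
  refine LipschitzWith.of_dist_le_mul fun x y => ?_
  rw [NNReal.coe_one, one_mul, EuclideanSpace.dist_eq, EuclideanSpace.dist_eq]
  refine Real.sqrt_le_sqrt ?_
  rw [Fin.sum_univ_succAbove _ i]
  simp only [fpr_apply]
  have : 0 ≤ dist (x i) (y i) ^ 2 := by positivity
  linarith

theorem fdist_fpt_same {m : ℕ} (p : Fin (m + 1) × Bool) (t : ℝ) (q : EuclideanSpace ℝ (Fin m)) :
    fdist p (fpt p t q) = t := by
  rw [fdist, fpt_same, tau_tau]

theorem fpt_mem_image {m : ℕ} {K : Set (EuclideanSpace ℝ (Fin (m + 1)))} (hK : IsClosed K)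
    (hKQ : K ⊆ cube (m + 1)) (p : Fin (m + 1) × Bool) {h : ℝ} {q : EuclideanSpace ℝ (Fin m)}
    (h2 : h < 1 / 2) (h1 : ∀ j, ∀ s, h < tau s (q j)) (hq : fpt p h q ∈ K) :
    q ∈ fpr p.1 '' (frontier K ∩ fcone p) := by
  let T : Set ℝ := {t | t ≤ h ∧ fpt p t q ∈ K}
  have hcont := continuous_fpt p q
  have hTc : IsClosed T := (isClosed_Iic (a := h)).inter (hK.preimage hcont)
  have hT0 : h ∈ T := ⟨le_rfl, hq⟩
  have hnn : ∀ t, fpt p t q ∈ K → 0 ≤ t := by
    intro t ht
    have h3 := hKQ ht p.1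
    rw [fpt_same] at h3
    cases hs : p.2
    · simpa [hs, tau] using h3.1
    · have h4 := h3.2
      rw [hs] at h4
      simp only [tau, if_true] at h4
      linarith
  have hTb : BddBelow T := ⟨0, fun t ht => hnn t ht.2⟩
  set t0 := sInf T with ht0
  have hmem : t0 ∈ T := hTc.csInf_mem ⟨h, hT0⟩ hTb
  refine ⟨fpt p t0 q, ⟨⟨subset_closure hmem.2, fun hint => ?_⟩, ?_⟩, fpr_fpt p t0 q⟩
  · have hnhds : {t : ℝ | fpt p t q ∈ K} ∈ nhds t0 :=
      hcont.continuousAt.preimage_mem_nhds (mem_interior_iff_mem_nhds.1 hint)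
    obtain ⟨ε, hε, hball⟩ := Metric.mem_nhds_iff.1 hnhds
    have h3 : t0 - ε / 2 ∈ T := by
      refine ⟨by have := hmem.1; linarith, hball ?_⟩
      rw [Metric.mem_ball, Real.dist_eq]
      rw [show t0 - ε / 2 - t0 = -(ε / 2) by ring, abs_neg, abs_of_pos (by positivity)]
      linarith
    have h4 := csInf_le hTb h3
    linarith
  · rintro ⟨k, s⟩ hp'
    rw [fdist_fpt_same]
    have h3 := hmem.1
    rcases eq_or_ne k p.1 with rfl | hk
    · have hs : s = !p.2 := by
        rcases Bool.eq_or_eq_not s p.2 with h | h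
        · exact absurd (Prod.ext rfl h : (p.1, s) = p) hp'
        · exact h
      simp only [fdist, fpt_same, hs, tau_not, tau_tau]
      linarith
    · obtain ⟨j, rfl⟩ := Fin.exists_succAbove_eq hk
      simp only [fdist, fpt_succAbove]
      exact h3.trans_lt (h1 j s)

theorem volume_ocube (m : ℕ) : volume (ocube m) = 1 := by
  have h := PiLp.volume_preserving_ofLp (Fin m)
  have h1 : ocube m = (WithLp.ofLp) ⁻¹' (Set.pi univ fun _ : Fin m => Ioo (0 : ℝ) 1) := by
    ext x; simp [ocube, Set.mem_pi]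
  rw [h1, h.measure_preimage (MeasurableSet.univ_pi fun _ => measurableSet_Ioo).nullMeasurableSet,
    Real.volume_pi_Ioo]
  simp

theorem surf_cube_deficit (m : ℕ) {K : Set (EuclideanSpace ℝ (Fin (m + 1)))} (hK : IsClosed K)
    (hKQ : K ⊆ cube (m + 1)) (h : EuclideanSpace ℝ (Fin m) → ℝ)
    (h2 : ∀ q ∈ ocube m, h q < 1 / 2) (h1 : ∀ q ∈ ocube m, ∀ j, ∀ s, h q < tau s (q j)) :
    (2 * (m + 1) : ENNReal) ≤ surf m K +
      ∑ p : Fin (m + 1) × Bool, volume {q | q ∈ ocube m ∧ fpt p (h q) q ∉ K} := by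
  have hA : ∀ p : Fin (m + 1) × Bool, (1 : ENNReal) ≤
      (MeasureTheory.Measure.euclideanHausdorffMeasure m) (frontier K ∩ fcone p) +
        volume {q | q ∈ ocube m ∧ fpt p (h q) q ∉ K} := by
    intro p
    have hsub : ocube m ⊆ (fpr p.1 '' (frontier K ∩ fcone p)) ∪
        {q | q ∈ ocube m ∧ fpt p (h q) q ∉ K} := by
      intro q hq
      by_cases hqK : fpt p (h q) q ∈ K
      · exact Or.inl (fpt_mem_image hK hKQ p (h2 q hq) (h1 q hq) hqK)
      · exact Or.inr ⟨hq, hqK⟩
    calc (1 : ENNReal) = volume (ocube m) := (volume_ocube m).symm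
      _ ≤ volume ((fpr p.1 '' (frontier K ∩ fcone p)) ∪
        {q | q ∈ ocube m ∧ fpt p (h q) q ∉ K}) := measure_mono hsub
      _ ≤ volume (fpr p.1 '' (frontier K ∩ fcone p)) +
        volume {q | q ∈ ocube m ∧ fpt p (h q) q ∉ K} := measure_union_le _ _
      _ ≤ _ := by
        gcongr
        rw [← EuclideanSpace.euclideanHausdorffMeasure_eq_volume]
        exact muHE_image_le (fpr_lipschitz p.1).lipschitzOnWith m
  have hB : ∑ p : Fin (m + 1) × Bool,
      (MeasureTheory.Measure.euclideanHausdorffMeasure m) (frontier K ∩ fcone p) ≤ surf m K := by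
    rw [← tsum_fintype (L := SummationFilter.unconditional _), ← measure_iUnion]
    · exact measure_mono (iUnion_subset fun p => inter_subset_left)
    · intro p p' hpp'
      exact (disjoint_fcone hpp').mono inter_subset_right inter_subset_right
    · intro p
      exact isClosed_frontier.measurableSet.inter (isOpen_fcone p).measurableSet
  calc (2 * (m + 1) : ENNReal) = ∑ p : Fin (m + 1) × Bool, (1 : ENNReal) := by
        simp; ring
    _ ≤ ∑ p : Fin (m + 1) × Bool,
      ((MeasureTheory.Measure.euclideanHausdorffMeasure m) (frontier K ∩ fcone p) +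
        volume {q | q ∈ ocube m ∧ fpt p (h q) q ∉ K}) := Finset.sum_le_sum fun p _ => hA p
    _ ≤ _ := by
      rw [Finset.sum_add_distrib]
      gcongr

/-! ### The prism cut off at an edge -/

theorem isometry_fpt {m : ℕ} (p : Fin (m + 1) × Bool) (t : ℝ) : Isometry (fpt p t) := by
  refine Isometry.of_dist_eq fun x y => ?_
  rw [EuclideanSpace.dist_eq, EuclideanSpace.dist_eq, Fin.sum_univ_succAbove _ p.1]
  simp

theorem fpt_fpr {m : ℕ} (p : Fin (m + 1) × Bool) (x : EuclideanSpace ℝ (Fin (m + 1))) :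
    fpt p (fdist p x) (fpr p.1 x) = x := by
  ext k
  rcases eq_or_ne k p.1 with rfl | hk
  · simp [fdist, tau_tau]
  · obtain ⟨j, rfl⟩ := Fin.exists_succAbove_eq hk
    simp

/-- The box with side lengths `1` except the first one `a ≤ y 0 ≤ b`. -/
def fbox (m : ℕ) (a b : ℝ) : Set (EuclideanSpace ℝ (Fin (m + 1))) :=
  {y | y 0 ∈ Icc a b ∧ ∀ j : Fin m, y j.succ ∈ Icc (0 : ℝ) 1}

theorem volume_fbox (m : ℕ) (a b : ℝ) : volume (fbox m a b) = ENNReal.ofReal (b - a) := by
  have h := PiLp.volume_preserving_ofLp (Fin (m + 1))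
  have h1 : fbox m a b = (WithLp.ofLp) ⁻¹'
      (Icc (Fin.cons a (fun _ => 0) : Fin (m + 1) → ℝ) (Fin.cons b (fun _ => 1))) := by
    ext x
    simp only [fbox, Set.mem_ofPred_eq, mem_preimage, mem_Icc, Pi.le_def, Fin.forall_fin_succ,
      Fin.cons_zero, Fin.cons_succ]
    constructor
    · rintro ⟨⟨h1, h2⟩, h3⟩
      exact ⟨⟨h1, fun j => (h3 j).1⟩, h2, fun j => (h3 j).2⟩
    · rintro ⟨⟨h1, h2⟩, h3, h4⟩
      exact ⟨⟨h1, h3⟩, fun j => ⟨h2 j, h4 j⟩⟩
  rw [h1, h.measure_preimage measurableSet_Icc.nullMeasurableSet, Real.volume_Icc_pi,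
    Fin.prod_univ_succ]
  simp

theorem cube_subset_fbox (m : ℕ) : cube (m + 1) = fbox m 0 1 := by
  ext x
  simp only [cube, fbox, Set.mem_ofPred_eq, Fin.forall_fin_succ]

/-- The cut facet. -/
noncomputable def slant (m : ℕ) (δ : ℝ) (y : EuclideanSpace ℝ (Fin (m + 1))) :
    EuclideanSpace ℝ (Fin (m + 2)) :=
  WithLp.toLp 2 (Fin.cons (y 0 / √2) (Fin.cons (δ - y 0 / √2) (fun j : Fin m => y j.succ)))

theorem isometry_slant (m : ℕ) (δ : ℝ) : Isometry (slant m δ) := by
  refine Isometry.of_dist_eq fun x y => ?_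
  rw [EuclideanSpace.dist_eq, EuclideanSpace.dist_eq, Fin.sum_univ_succ, Fin.sum_univ_succ,
    Fin.sum_univ_succ (f := fun i => dist (x i) (y i) ^ 2)]
  congr 1
  simp only [slant, Real.dist_eq, sq_abs, Fin.cons_zero, Fin.cons_succ]
  have h2 : (√2) ^ 2 = (2 : ℝ) := Real.sq_sqrt (by norm_num)
  have h3 : √2 ≠ (0 : ℝ) := by positivity
  have h4 : (x 0 / √2 - y 0 / √2) ^ 2 = (x 0 - y 0) ^ 2 / 2 := by
    rw [← sub_div, div_pow, h2]
  have h5 : (δ - x 0 / √2 - (δ - y 0 / √2)) ^ 2 = (x 0 - y 0) ^ 2 / 2 := by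
    rw [← h4]; ring
  rw [h4, h5]
  ring

/-- The cube without a prism at the edge `x 0 = x 1 = 0`. -/
def prism (m : ℕ) (δ : ℝ) : Set (EuclideanSpace ℝ (Fin (m + 2))) :=
  {x | x ∈ cube (m + 2) ∧ δ ≤ x 0 + x 1}

theorem isClosed_cube (n : ℕ) : IsClosed (cube n) := by
  have : cube n = ⋂ i, {x : EuclideanSpace ℝ (Fin n) | x i ∈ Icc (0 : ℝ) 1} := by
    ext x; simp [cube]
  rw [this]
  exact isClosed_iInter fun i => isClosed_Icc.preimage (by fun_prop)

theorem isBounded_cube (n : ℕ) : Bornology.IsBounded (cube n) := by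
  refine isBounded_iff_forall_norm_le.2 ⟨√(n : ℝ), fun x hx => ?_⟩
  rw [EuclideanSpace.norm_eq]
  refine Real.sqrt_le_sqrt ?_
  calc ∑ i, ‖x i‖ ^ 2 ≤ ∑ i : Fin n, (1 : ℝ) := by
        refine Finset.sum_le_sum fun i _ => ?_
        have h := hx i
        rw [Real.norm_of_nonneg h.1]
        exact pow_le_one₀ h.1 h.2
    _ = n := by simp

theorem isCompact_cube (n : ℕ) : IsCompact (cube n) :=
  Metric.isCompact_of_isClosed_isBounded (isClosed_cube n) (isBounded_cube n)

theorem convex_cube (n : ℕ) : Convex ℝ (cube n) := by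
  intro x hx y hy a b ha hb hab i
  have h1 := hx i
  have h2 := hy i
  simp only [PiLp.add_apply, PiLp.smul_apply, smul_eq_mul]
  exact (convex_Icc (0 : ℝ) 1) h1 h2 ha hb hab

theorem mem_cube_iff {n : ℕ} {x : EuclideanSpace ℝ (Fin n)} :
    x ∈ cube n ↔ ∀ p, 0 ≤ fdist p x := by
  constructor
  · rintro h ⟨i, s⟩
    have := h i
    cases s
    · simpa [fdist, tau] using this.1
    · simpa [fdist, tau] using this.2
  · intro h i
    have h1 := h (i, false)
    have h2 := h (i, true)
    simp only [fdist, tau, if_true] at h1 h2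
    exact ⟨by simpa using h1, by linarith⟩

theorem isClosed_prism (m : ℕ) (δ : ℝ) : IsClosed (prism m δ) :=
  (isClosed_cube _).inter (isClosed_le
    (f := fun _ : EuclideanSpace ℝ (Fin (m + 2)) => δ)
    (g := fun x : EuclideanSpace ℝ (Fin (m + 2)) => x 0 + x 1) continuous_const (by fun_prop))

theorem isCompact_prism (m : ℕ) (δ : ℝ) : IsCompact (prism m δ) :=
  (isCompact_cube _).of_isClosed_subset (isClosed_prism m δ) fun _ h => h.1

/-- The part of the facet `p` in the prism. -/
def gface (m : ℕ) (δ : ℝ) (p : Fin (m + 2) × Bool) : Set (EuclideanSpace ℝ (Fin (m + 1))) :=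
  fbox m (if p = (0, false) ∨ p = (1, false) then δ else 0) 1

theorem frontier_prism_subset (m : ℕ) (δ : ℝ) :
    frontier (prism m δ) ⊆ (⋃ p, fpt p 0 '' gface m δ p) ∪ slant m δ '' fbox m 0 (√2 * δ) := by
  intro x hx
  have hxm : x ∈ prism m δ := (isClosed_prism m δ).frontier_subset hx
  have hcub := mem_cube_iff.1 hxm.1
  by_cases hf : ∃ p, fdist p x = 0
  · left
    obtain ⟨p, hp⟩ := hf
    refine mem_iUnion.2 ⟨p, fpr p.1 x, ?_, ?_⟩
    · rw [gface]
      have hc : fpr p.1 x ∈ fbox m 0 1 := by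
        rw [← cube_subset_fbox]
        intro j
        exact hxm.1 _
      split_ifs with h
      · refine ⟨⟨?_, hc.1.2⟩, hc.2⟩
        have h3 := hxm.2
        rcases h with rfl | rfl
        · simp only [fdist, tau] at hp
          have e : ((0 : Fin (m + 2)).succAbove (0 : Fin (m + 1))) = 1 := rfl
          simp only [fpr_apply, e]
          simp at hp
          linarith
        · simp only [fdist, tau] at hp
          have e : ((1 : Fin (m + 2)).succAbove (0 : Fin (m + 1))) = 0 := rfl
          simp only [fpr_apply, e]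
          simp at hp
          linarith
      · exact hc
    · conv_rhs => rw [← fpt_fpr p x, hp]
  · right
    push Not at hf
    have hpos : ∀ p, 0 < fdist p x := fun p => lt_of_le_of_ne (hcub p) (hf p).symm
    have heq : x 0 + x 1 = δ := by
      by_contra hne
      have hlt : δ < x 0 + x 1 := lt_of_le_of_ne hxm.2 (Ne.symm hne)
      let O : Set (EuclideanSpace ℝ (Fin (m + 2))) :=
        (⋂ p : Fin (m + 2) × Bool, {y | 0 < fdist p y}) ∩ {y | δ < y 0 + y 1}
      have hO : IsOpen O := by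
        refine IsOpen.inter (isOpen_iInter_of_finite fun p => ?_) ?_
        · exact isOpen_lt continuous_const (continuous_fdist p)
        · exact isOpen_lt continuous_const (by fun_prop)
      have hOs : O ⊆ prism m δ := by
        rintro y ⟨hy1, hy2⟩
        exact ⟨mem_cube_iff.2 fun p => (mem_iInter.1 hy1 p).le, le_of_lt hy2⟩
      have hxO : x ∈ O := ⟨mem_iInter.2 hpos, hlt⟩
      exact hx.2 (interior_maximal hOs hO hxO)
    have h3 : √2 ≠ (0 : ℝ) := by positivity
    refine ⟨WithLp.toLp 2 (Fin.cons (√2 * x 0) (fun j : Fin m => x j.succ.succ)), ?_, ?_⟩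
    · refine ⟨?_, fun j => ?_⟩
      · simp only [Fin.cons_zero]
        have h0 := hxm.1 0
        have h1 := hxm.1 1
        refine ⟨mul_nonneg (Real.sqrt_nonneg _) h0.1,
          mul_le_mul_of_nonneg_left ?_ (Real.sqrt_nonneg _)⟩
        have := h1.1
        linarith
      · simp only [Fin.cons_succ]
        exact hxm.1 _
    · ext k
      refine Fin.cases ?_ (fun k => Fin.cases ?_ (fun k => ?_) k) k
      · simp only [slant, Fin.cons_zero]
        field_simp
      · simp only [slant, Fin.cons_zero, Fin.cons_succ]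
        rw [mul_div_cancel_left₀ _ h3]
        have : x (Fin.succ 0) = x 1 := rfl
        rw [this]
        linarith
      · simp only [slant, Fin.cons_succ]

theorem surf_prism_le (m : ℕ) {δ : ℝ} (h0 : 0 ≤ δ) (h1 : δ ≤ 1) :
    surf (m + 1) (prism m δ) ≤ ENNReal.ofReal (2 * (m + 2) - (2 - √2) * δ) := by
  unfold surf
  have hA : ∀ p : Fin (m + 2) × Bool,
      (MeasureTheory.Measure.euclideanHausdorffMeasure (m + 1)) (fpt p 0 '' gface m δ p) =
        ENNReal.ofReal (1 - (if p = (0, false) ∨ p = (1, false) then δ else 0)) := by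
    intro p
    rw [(isometry_fpt p 0).euclideanHausdorffMeasure_image,
      EuclideanSpace.euclideanHausdorffMeasure_eq_volume, gface, volume_fbox]
  have hB : (MeasureTheory.Measure.euclideanHausdorffMeasure (m + 1))
      (slant m δ '' fbox m 0 (√2 * δ)) = ENNReal.ofReal (√2 * δ) := by
    rw [(isometry_slant m δ).euclideanHausdorffMeasure_image,
      EuclideanSpace.euclideanHausdorffMeasure_eq_volume, volume_fbox, sub_zero]
  calc (MeasureTheory.Measure.euclideanHausdorffMeasure (m + 1)) (frontier (prism m δ))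
      ≤ (MeasureTheory.Measure.euclideanHausdorffMeasure (m + 1))
        ((⋃ p, fpt p 0 '' gface m δ p) ∪ slant m δ '' fbox m 0 (√2 * δ)) :=
        measure_mono (frontier_prism_subset m δ)
    _ ≤ (MeasureTheory.Measure.euclideanHausdorffMeasure (m + 1))
        (⋃ p, fpt p 0 '' gface m δ p) + (MeasureTheory.Measure.euclideanHausdorffMeasure (m + 1))
          (slant m δ '' fbox m 0 (√2 * δ)) := measure_union_le _ _
    _ ≤ (∑ p, (MeasureTheory.Measure.euclideanHausdorffMeasure (m + 1))
        (fpt p 0 '' gface m δ p)) + ENNReal.ofReal (√2 * δ) := by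
        rw [hB]
        gcongr
        exact measure_iUnion_fintype_le _ _
    _ = (∑ p : Fin (m + 2) × Bool, ENNReal.ofReal
          (1 - (if p = (0, false) ∨ p = (1, false) then δ else 0))) +
            ENNReal.ofReal (√2 * δ) := by simp_rw [hA]
    _ = ENNReal.ofReal ((∑ p : Fin (m + 2) × Bool,
          (1 - (if p = (0, false) ∨ p = (1, false) then δ else 0))) + √2 * δ) := by
        rw [ENNReal.ofReal_add, ENNReal.ofReal_sum_of_nonneg]
        · intro p _
          split_ifs <;> linarith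
        · refine Finset.sum_nonneg fun p _ => ?_
          split_ifs <;> linarith
        · positivity
    _ = ENNReal.ofReal (2 * (m + 2) - (2 - √2) * δ) := by
        congr 1
        rw [Finset.sum_sub_distrib]
        have e1 : ∑ p : Fin (m + 2) × Bool, (1 : ℝ) = 2 * (m + 2) := by
          simp; ring
        have e2 : ∑ p : Fin (m + 2) × Bool, (if p = (0, false) ∨ p = (1, false) then δ else 0) =
            2 * δ := by
          rw [← Finset.sum_filter]
          have e3 : (Finset.univ.filter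
              (fun p : Fin (m + 2) × Bool => p = (0, false) ∨ p = (1, false))) =
              {((0 : Fin (m + 2)), false), (1, false)} := by
            ext p; simp
          rw [e3, Finset.sum_pair (by simp)]
          ring
        rw [e1, e2]
        ring

theorem surf_cube_le (m : ℕ) : surf m (cube (m + 1)) ≤ ENNReal.ofReal (2 * (m + 1)) := by
  unfold surf
  have hsub : frontier (cube (m + 1)) ⊆ ⋃ p : Fin (m + 1) × Bool, fpt p 0 '' cube m := by
    intro x hx
    have hxm : x ∈ cube (m + 1) := (isClosed_cube _).frontier_subset hx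
    have hcub := mem_cube_iff.1 hxm
    by_cases hf : ∃ p, fdist p x = 0
    · obtain ⟨p, hp⟩ := hf
      refine mem_iUnion.2 ⟨p, fpr p.1 x, fun j => hxm _, ?_⟩
      conv_rhs => rw [← fpt_fpr p x, hp]
    · push Not at hf
      have hpos : ∀ p, 0 < fdist p x := fun p => lt_of_le_of_ne (hcub p) (hf p).symm
      let O : Set (EuclideanSpace ℝ (Fin (m + 1))) :=
        (⋂ p : Fin (m + 1) × Bool, {y | 0 < fdist p y})
      have hO : IsOpen O :=
        isOpen_iInter_of_finite fun p => isOpen_lt continuous_const (continuous_fdist p)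
      have hOs : O ⊆ cube (m + 1) := fun y hy => mem_cube_iff.2 fun p => (mem_iInter.1 hy p).le
      exact absurd (interior_maximal hOs hO (mem_iInter.2 hpos)) hx.2
  have hv : volume (cube m) = 1 := by
    have h := PiLp.volume_preserving_ofLp (Fin m)
    have h1 : cube m = (WithLp.ofLp) ⁻¹' (Icc (0 : Fin m → ℝ) 1) := by
      ext x
      simp only [cube, Set.mem_ofPred_eq, mem_preimage, mem_Icc, Pi.le_def, Pi.zero_apply,
        Pi.one_apply]
      exact ⟨fun h => ⟨fun i => (h i).1, fun i => (h i).2⟩, fun h i => ⟨h.1 i, h.2 i⟩⟩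
    rw [h1, h.measure_preimage measurableSet_Icc.nullMeasurableSet, Real.volume_Icc_pi]
    simp
  calc (MeasureTheory.Measure.euclideanHausdorffMeasure m) (frontier (cube (m + 1)))
      ≤ ∑ p : Fin (m + 1) × Bool,
        (MeasureTheory.Measure.euclideanHausdorffMeasure m) (fpt p 0 '' cube m) :=
        (measure_mono hsub).trans (measure_iUnion_fintype_le _ _)
    _ = ∑ p : Fin (m + 1) × Bool, (1 : ENNReal) := by
        refine Finset.sum_congr rfl fun p _ => ?_
        rw [(isometry_fpt p 0).euclideanHausdorffMeasure_image,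
          EuclideanSpace.euclideanHausdorffMeasure_eq_volume, hv]
    _ = ENNReal.ofReal (∑ p : Fin (m + 1) × Bool, (1 : ℝ)) := by
        rw [ENNReal.ofReal_sum_of_nonneg (fun _ _ => zero_le_one)]
        simp
    _ = ENNReal.ofReal (2 * (m + 1)) := by
        congr 1
        simp; ring

/-! ### The same for sets of `Fin n → ℝ` and real values -/

/-- The surface area as a real number, for sets of functions. -/
noncomputable def surfR (m : ℕ) (K : Set (Fin (m + 1) → ℝ)) : ℝ :=
  (MeasureTheory.Measure.euclideanHausdorffMeasure m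
    (frontier (WithLp.toLp 2 '' K : Set (EuclideanSpace ℝ (Fin (m + 1)))))).toReal

theorem toLp_image_eq_preimage {n : ℕ} (K : Set (Fin n → ℝ)) :
    (WithLp.toLp 2 '' K : Set (EuclideanSpace ℝ (Fin n))) = WithLp.ofLp ⁻¹' K := by
  ext x
  constructor
  · rintro ⟨y, hy, rfl⟩; exact hy
  · intro h; exact ⟨_, h, rfl⟩

theorem isClosed_toLp_image {n : ℕ} {K : Set (Fin n → ℝ)} (hK : IsClosed K) :
    IsClosed (WithLp.toLp 2 '' K : Set (EuclideanSpace ℝ (Fin n))) := by
  rw [toLp_image_eq_preimage]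
  exact hK.preimage (PiLp.continuous_ofLp 2 _)

theorem isCompact_toLp_image {n : ℕ} {K : Set (Fin n → ℝ)} (hK : IsCompact K) :
    IsCompact (WithLp.toLp 2 '' K : Set (EuclideanSpace ℝ (Fin n))) :=
  hK.image (PiLp.continuous_toLp 2 _)

theorem convex_toLp_image {n : ℕ} {K : Set (Fin n → ℝ)} (hK : Convex ℝ K) :
    Convex ℝ (WithLp.toLp 2 '' K : Set (EuclideanSpace ℝ (Fin n))) := by
  rw [toLp_image_eq_preimage]
  intro x hx y hy a b ha hb hab
  exact hK hx hy ha hb hab

theorem toLp_image_Icc {n : ℕ} :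
    (WithLp.toLp 2 '' Icc (0 : Fin n → ℝ) 1 : Set (EuclideanSpace ℝ (Fin n))) = cube n := by
  rw [toLp_image_eq_preimage]
  ext x
  simp only [cube, Set.mem_ofPred_eq, mem_preimage, mem_Icc, Pi.le_def, Pi.zero_apply,
    Pi.one_apply]
  exact ⟨fun h i => ⟨h.1 i, h.2 i⟩, fun h => ⟨fun i => (h i).1, fun i => (h i).2⟩⟩

theorem surf_lt_top {m : ℕ} {K : Set (EuclideanSpace ℝ (Fin (m + 1)))} (hK : IsClosed K)
    (hc : Convex ℝ K) (hKQ : K ⊆ cube (m + 1)) : surf m K < ⊤ :=
  ((surf_mono m hK hc (isCompact_cube _) hKQ).trans (surf_cube_le m)).trans_lt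
    ENNReal.ofReal_lt_top

theorem surfR_mono {m : ℕ} {K L : Set (Fin (m + 1) → ℝ)} (hK : IsClosed K) (hc : Convex ℝ K)
    (hL : IsClosed L) (hcL : Convex ℝ L) (hKL : K ⊆ L) (hLQ : L ⊆ Icc 0 1) :
    surfR m K ≤ surfR m L := by
  have hLQ' : (WithLp.toLp 2 '' L : Set (EuclideanSpace ℝ (Fin (m + 1)))) ⊆ cube (m + 1) := by
    rw [← toLp_image_Icc]; exact image_mono hLQ
  exact ENNReal.toReal_mono
    (surf_lt_top (isClosed_toLp_image hL) (convex_toLp_image hcL) hLQ').ne
    (surf_mono m (isClosed_toLp_image hK) (convex_toLp_image hc)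
      ((isCompact_cube _).of_isClosed_subset (isClosed_toLp_image hL) hLQ') (image_mono hKL))

theorem surfR_le {m : ℕ} {K : Set (Fin (m + 1) → ℝ)} (hK : IsClosed K) (hc : Convex ℝ K)
    (hKQ : K ⊆ Icc 0 1) : surfR m K ≤ 2 * (m + 1) := by
  have hKQ' : (WithLp.toLp 2 '' K : Set (EuclideanSpace ℝ (Fin (m + 1)))) ⊆ cube (m + 1) := by
    rw [← toLp_image_Icc]; exact image_mono hKQ
  exact ENNReal.toReal_le_of_le_ofReal (by positivity)
    ((surf_mono m (isClosed_toLp_image hK) (convex_toLp_image hc) (isCompact_cube _) hKQ').trans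
      (surf_cube_le m))

/-- The surface area of a convex body in the cube missing the prism `x 0 + x 1 < δ`. -/
theorem surfR_prism_le {m : ℕ} {δ : ℝ} (h0 : 0 ≤ δ) (h1 : δ ≤ 1)
    {K : Set (Fin (m + 2) → ℝ)} (hK : IsClosed K) (hc : Convex ℝ K)
    (hKQ : K ⊆ Icc 0 1) (hKδ : ∀ x ∈ K, δ ≤ x 0 + x 1) :
    surfR (m + 1) K ≤ 2 * (m + 2) - (2 - √2) * δ := by
  have hKQ' : (WithLp.toLp 2 '' K : Set (EuclideanSpace ℝ (Fin (m + 2)))) ⊆ prism m δ := by
    rintro _ ⟨x, hx, rfl⟩
    refine ⟨?_, hKδ x hx⟩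
    rw [← toLp_image_Icc]; exact ⟨x, hKQ hx, rfl⟩
  refine ENNReal.toReal_le_of_le_ofReal ?_
    ((surf_mono (m + 1) (isClosed_toLp_image hK) (convex_toLp_image hc) (isCompact_prism m δ)
      hKQ').trans (surf_prism_le m h0 h1))
  have : (0 : ℝ) ≤ √2 := Real.sqrt_nonneg _
  nlinarith

end Pool.Agent.B05.SA
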