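import Mathlib
import Pool.Agent.Lib.MP_b05ae9_pr.Surf

/-!
MP_b05ae9_pr, orthant boxes (helper96).

* `mem_convexHull_of_obox`: a point all of whose closed orthants contain a sample point is in
  the convex hull.
* `moment_le`: moments of the measure of a random set.
* `missed_sq_le`: second moment of the missed volume.
-/

open MeasureTheory Set

namespace Pool.Agent.B05.SA

/-- The closed orthant at `y` with signs `ε`. -/
def obox {d : ℕ} (ε : Fin d → Bool) (y : Fin d → ℝ) : Set (Fin d → ℝ) :=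
  {z | ∀ i, if ε i then y i ≤ z i else z i ≤ y i}

theorem mem_convexHull_of_obox {d N : ℕ} {x : Fin N → Fin d → ℝ} {y : Fin d → ℝ}
    (h : ∀ ε : Fin d → Bool, ∃ k, x k ∈ obox ε y) : y ∈ convexHull ℝ (range x) := by
  by_contra hy
  have hcl : IsClosed (convexHull ℝ (range x)) :=
    ((finite_range x).isCompact_convexHull (𝕜 := ℝ)).isClosed
  obtain ⟨f, u, h1, h2⟩ := geometric_hahn_banach_closed_point (convex_convexHull ℝ _) hcl hy
  obtain ⟨k, hk⟩ := h fun i => decide (0 ≤ f (Pi.single i 1))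
  have h3 : f (x k) < u := h1 _ (subset_convexHull ℝ _ (mem_range_self k))
  have h4 : ∀ z : Fin d → ℝ, f z = ∑ i, z i * f (Pi.single i 1) := by
    intro z
    have h5 := (f : (Fin d → ℝ) →ₗ[ℝ] ℝ).pi_apply_eq_sum_univ z
    have h6 : ∀ i : Fin d, (fun j => if i = j then (1 : ℝ) else 0) = Pi.single i 1 := by
      intro i
      funext j
      simp [Pi.single_apply, eq_comm]
    simpa [h6] using h5
  have h5 : f y ≤ f (x k) := by
    rw [h4, h4]
    refine Finset.sum_le_sum fun i _ => ?_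
    have h6 := hk i
    by_cases hf : 0 ≤ f (Pi.single i 1)
    · simp only [hf, decide_true, if_true] at h6
      exact mul_le_mul_of_nonneg_right h6 hf
    · simp only [hf, decide_false] at h6
      exact mul_le_mul_of_nonpos_right (by simpa using h6) (not_le.1 hf).le
  linarith

theorem exists_obox_of_notMem {d N : ℕ} {x : Fin N → Fin d → ℝ} {y : Fin d → ℝ}
    (h : y ∉ convexHull ℝ (range x)) : ∃ ε : Fin d → Bool, ∀ k, x k ∉ obox ε y := by
  by_contra h1
  push Not at h1
  exact h (mem_convexHull_of_obox h1)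

theorem obox_inter_Icc {d : ℕ} (ε : Fin d → Bool) {y : Fin d → ℝ} (hy : y ∈ Icc (0 : Fin d → ℝ) 1) :
    obox ε y ∩ Icc 0 1 =
      Icc (fun i => if ε i then y i else 0) (fun i => if ε i then 1 else y i) := by
  ext z
  simp only [obox, mem_inter_iff, Set.mem_ofPred_eq, mem_Icc, Pi.le_def, Pi.zero_apply,
    Pi.one_apply]
  constructor
  · rintro ⟨h1, h2, h3⟩
    refine ⟨fun i => ?_, fun i => ?_⟩
    · have := h1 i; have := h2 i
      split_ifs with h
      · simpa [h] using h1 i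
      · exact h2 i
    · split_ifs with h
      · exact h3 i
      · simpa [h] using h1 i
  · rintro ⟨h1, h2⟩
    refine ⟨fun i => ?_, fun i => ?_, fun i => ?_⟩
    · have h3 := h1 i; have h4 := h2 i
      split_ifs with h
      · simpa [h] using h3
      · simpa [h] using h4
    · have h3 := h1 i
      split_ifs at h3 with h
      · exact (hy.1 i).trans h3
      · exact h3
    · have h4 := h2 i
      split_ifs at h4 with h
      · exact h4
      · exact h4.trans (hy.2 i)

theorem volume_obox {d : ℕ} (ε : Fin d → Bool) {y : Fin d → ℝ} (hy : y ∈ Icc (0 : Fin d → ℝ) 1) :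
    volume (obox ε y ∩ Icc 0 1) = ENNReal.ofReal (∏ i, tau (ε i) (y i)) := by
  rw [obox_inter_Icc ε hy, Real.volume_Icc_pi, ENNReal.ofReal_prod_of_nonneg]
  · refine Finset.prod_congr rfl fun i _ => ?_
    congr 1
    cases h : ε i <;> simp [tau]
  · intro i _
    have h1 := hy.1 i
    have h2 := hy.2 i
    simp only [Pi.zero_apply, Pi.one_apply] at h1 h2
    cases h : ε i
    · simpa [tau] using h1
    · simpa [tau] using h2

/-! ### Moments of the measure of a random set -/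

theorem moment_le {X Q : Type*} [MeasurableSpace X] [MeasurableSpace Q] (μ : Measure X)
    (ν : Measure Q) [SFinite μ] [SFinite ν] {B : Set (X × Q)} (hB : MeasurableSet B)
    {β : Q → ENNReal} (hβ : Measurable β) (hβ0 : ∀ q, β q ≠ 0) (hβt : ∀ q, β q ≠ ⊤) (k : ℕ)
    (hp : ∀ q, μ {x | (x, q) ∈ B} ≤ β q ^ (k + 1)) :
    ∫⁻ x, (ν {q | (x, q) ∈ B}) ^ (k + 1) ∂μ ≤ (∫⁻ q, β q ∂ν) ^ (k + 1) := by
  set g : X × Q → ENNReal := B.indicator (fun z => (β z.2) ^ (-(k : ℝ))) with hg
  have hgm : Measurable g := (by fun_prop : Measurable fun z : X × Q => (β z.2) ^ (-(k : ℝ))).indicator hB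
  have hk : ((k : ℝ) + 1) ≠ 0 := by positivity
  have h1 : ∀ x, (ν {q | (x, q) ∈ B}) ^ (k + 1) ≤
      (∫⁻ q, g (x, q) ∂ν) * (∫⁻ q, β q ∂ν) ^ k := by
    intro x
    have hBx : MeasurableSet {q | (x, q) ∈ B} := measurable_prodMk_left hB
    have e1 : ν {q | (x, q) ∈ B} =
        ∫⁻ q, (g (x, q)) ^ (1 / ((k : ℝ) + 1)) * (β q) ^ ((k : ℝ) / (k + 1)) ∂ν := by
      rw [← lintegral_indicator_one hBx]
      refine lintegral_congr fun q => ?_
      by_cases hq : (x, q) ∈ B
      · rw [indicator_of_mem (show q ∈ {q | (x, q) ∈ B} from hq), hg, indicator_of_mem hq]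
        simp only [Pi.one_apply]
        rw [← ENNReal.rpow_mul, ← ENNReal.rpow_add _ _ (hβ0 q) (hβt q)]
        have : -(k : ℝ) * (1 / ((k : ℝ) + 1)) + (k : ℝ) / (k + 1) = 0 := by
          field_simp
          ring
        rw [this, ENNReal.rpow_zero]
      · rw [indicator_of_notMem (show q ∉ {q | (x, q) ∈ B} from hq), hg, indicator_of_notMem hq]
        rw [ENNReal.zero_rpow_of_pos (by positivity), zero_mul]
    have h2 : ν {q | (x, q) ∈ B} ≤ (∫⁻ q, g (x, q) ∂ν) ^ (1 / ((k : ℝ) + 1)) *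
        (∫⁻ q, β q ∂ν) ^ ((k : ℝ) / (k + 1)) := by
      rw [e1]
      refine ENNReal.lintegral_mul_norm_pow_le (by fun_prop) (by fun_prop) (by positivity)
        (by positivity) ?_
      field_simp
      ring
    calc (ν {q | (x, q) ∈ B}) ^ (k + 1)
        ≤ ((∫⁻ q, g (x, q) ∂ν) ^ (1 / ((k : ℝ) + 1)) *
          (∫⁻ q, β q ∂ν) ^ ((k : ℝ) / (k + 1))) ^ (k + 1) := by gcongr
      _ = (∫⁻ q, g (x, q) ∂ν) * (∫⁻ q, β q ∂ν) ^ k := by
        rw [mul_pow, ← ENNReal.rpow_natCast, ← ENNReal.rpow_mul, ← ENNReal.rpow_natCast,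
          ← ENNReal.rpow_mul, ← ENNReal.rpow_natCast]
        congr 1
        · rw [show 1 / ((k : ℝ) + 1) * ((k + 1 : ℕ) : ℝ) = 1 by push_cast; field_simp,
            ENNReal.rpow_one]
        · congr 1
          push_cast
          field_simp
  calc ∫⁻ x, (ν {q | (x, q) ∈ B}) ^ (k + 1) ∂μ
      ≤ ∫⁻ x, (∫⁻ q, g (x, q) ∂ν) * (∫⁻ q, β q ∂ν) ^ k ∂μ := lintegral_mono h1
    _ = (∫⁻ x, ∫⁻ q, g (x, q) ∂ν ∂μ) * (∫⁻ q, β q ∂ν) ^ k := by
        rw [lintegral_mul_const]
        exact hgm.lintegral_prod_right'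
    _ = (∫⁻ q, ∫⁻ x, g (x, q) ∂μ ∂ν) * (∫⁻ q, β q ∂ν) ^ k := by
        rw [lintegral_lintegral_swap]
        exact hgm.aemeasurable
    _ ≤ (∫⁻ q, β q ∂ν) * (∫⁻ q, β q ∂ν) ^ k := by
        gcongr with q
        have hBq : MeasurableSet {x | (x, q) ∈ B} := measurable_prodMk_right hB
        have e2 : ∫⁻ x, g (x, q) ∂μ = (β q) ^ (-(k : ℝ)) * μ {x | (x, q) ∈ B} := by
          have : (fun x => g (x, q)) = {x | (x, q) ∈ B}.indicator (fun _ => (β q) ^ (-(k : ℝ))) := by
            funext x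
            by_cases hx : (x, q) ∈ B
            · rw [hg, indicator_of_mem hx, indicator_of_mem (show x ∈ {x | (x, q) ∈ B} from hx)]
            · rw [hg, indicator_of_notMem hx,
                indicator_of_notMem (show x ∉ {x | (x, q) ∈ B} from hx)]
          rw [this, lintegral_indicator_const hBq]
        rw [e2]
        calc (β q) ^ (-(k : ℝ)) * μ {x | (x, q) ∈ B}
            ≤ (β q) ^ (-(k : ℝ)) * β q ^ (k + 1) := by gcongr; exact hp q
          _ = β q := by
            rw [← ENNReal.rpow_natCast (β q) (k + 1), ← ENNReal.rpow_add _ _ (hβ0 q) (hβt q)]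
            rw [show -(k : ℝ) + ((k + 1 : ℕ) : ℝ) = 1 by push_cast; ring, ENNReal.rpow_one]
    _ = (∫⁻ q, β q ∂ν) ^ (k + 1) := by rw [pow_succ, mul_comm]

/-! ### One-dimensional and product integrals -/

theorem lintegral_fin_prod {d : ℕ} {f : Fin d → ℝ → ENNReal} (hf : ∀ i, Measurable (f i))
    (μ : Fin d → Measure ℝ) [∀ i, SigmaFinite (μ i)] :
    ∫⁻ x, ∏ i, f i (x i) ∂(Measure.pi μ) = ∏ i, ∫⁻ t, f i t ∂(μ i) := by
  induction d with
  | zero => simp
  | succ n ih =>
    have h1 := (measurePreserving_piFinSuccAbove μ 0).symm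
    rw [← h1.lintegral_comp_emb (MeasurableEquiv.measurableEmbedding _)]
    have h2 : ∀ a : ℝ × (Fin n → ℝ),
        ∏ i, f i ((MeasurableEquiv.piFinSuccAbove (fun _ => ℝ) 0).symm a i) =
          f 0 a.1 * ∏ j : Fin n, f j.succ (a.2 j) := by
      intro a
      rw [Fin.prod_univ_succ]
      rfl
    simp_rw [h2]
    have hm1 : Measurable fun y : Fin n → ℝ => ∏ j : Fin n, f j.succ (y j) :=
      Finset.measurable_fun_prod _ fun j _ => (hf j.succ).comp (measurable_pi_apply j)
    rw [lintegral_prod_mul (hf 0).aemeasurable hm1.aemeasurable, Fin.prod_univ_succ]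
    congr 1
    exact ih (fun j => hf j.succ) _

theorem lintegral_rpow_unit {s : ℝ} (hs1 : s < 1) :
    ∫⁻ t in Icc (0 : ℝ) 1, (ENNReal.ofReal t) ^ (-s) = ENNReal.ofReal (1 / (1 - s)) := by
  rw [← restrict_Ioc_eq_restrict_Icc]
  have h1 : ∀ t ∈ Ioc (0 : ℝ) 1, (ENNReal.ofReal t) ^ (-s) = ENNReal.ofReal (t ^ (-s)) :=
    fun t ht => ENNReal.ofReal_rpow_of_pos ht.1
  rw [setLIntegral_congr_fun measurableSet_Ioc h1, ← ofReal_integral_eq_lintegral_ofReal]
  · congr 1
    rw [← intervalIntegral.integral_of_le zero_le_one, integral_rpow (Or.inl (by linarith))]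
    rw [Real.one_rpow, Real.zero_rpow (by linarith)]
    congr 1 <;> ring
  · have := intervalIntegral.intervalIntegrable_rpow' (a := 0) (b := 1) (r := -s) (by linarith)
    rwa [intervalIntegrable_iff_integrableOn_Ioc_of_le zero_le_one] at this
  · exact (ae_restrict_iff' measurableSet_Ioc).2 (Filter.Eventually.of_forall fun t ht =>
      Real.rpow_nonneg ht.1.le _)

theorem lintegral_tau_rpow_unit {s : ℝ} (hs1 : s < 1) (b : Bool) :
    ∫⁻ t in Icc (0 : ℝ) 1, (ENNReal.ofReal (tau b t)) ^ (-s) = ENNReal.ofReal (1 / (1 - s)) := by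
  cases b
  · simpa [tau] using lintegral_rpow_unit hs1
  · have hmp : MeasurePreserving (fun t : ℝ => 1 - t) := Measure.measurePreserving_sub_left volume 1
    have hpre : (fun t : ℝ => 1 - t) ⁻¹' Icc (0 : ℝ) 1 = Icc 0 1 := by
      ext t
      simp only [mem_preimage, mem_Icc]
      constructor <;> rintro ⟨h1, h2⟩ <;> constructor <;> linarith
    have h1 := hmp.setLIntegral_comp_preimage_emb
      ((Homeomorph.subLeft (1 : ℝ)).measurableEmbedding) (fun t => (ENNReal.ofReal t) ^ (-s))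
      (Icc (0 : ℝ) 1)
    rw [hpre] at h1
    simpa [tau] using h1.trans (lintegral_rpow_unit hs1)

/-- `e^{-y} ≤ y^{-s}`. -/
theorem ofReal_exp_neg_le {s y : ℝ} (hs0 : 0 ≤ s) (hs1 : s ≤ 1) (hy : 0 ≤ y) :
    ENNReal.ofReal (Real.exp (-y)) ≤ (ENNReal.ofReal y) ^ (-s) := by
  rcases hy.eq_or_lt with rfl | hy
  · rcases hs0.eq_or_lt with rfl | hs
    · simp
    · rw [ENNReal.ofReal_zero, ENNReal.zero_rpow_of_neg (by linarith)]
      exact le_top
  · rw [ENNReal.ofReal_rpow_of_pos hy]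
    refine ENNReal.ofReal_le_ofReal ?_
    rw [Real.rpow_neg hy.le, Real.exp_neg]
    refine inv_anti₀ (Real.rpow_pos_of_pos hy s) ?_
    calc y ^ s ≤ (1 + y) ^ s := Real.rpow_le_rpow hy.le (by linarith) hs0
      _ ≤ (1 + y) ^ (1 : ℝ) := Real.rpow_le_rpow_of_exponent_le (by linarith) hs1
      _ = y + 1 := by rw [Real.rpow_one, add_comm]
      _ ≤ Real.exp y := Real.add_one_le_exp y

theorem lintegral_exp_prod_le {d : ℕ} (ε : Fin d → Bool) {lam : ℝ} (hl : 0 < lam) :
    ∫⁻ q in Icc (0 : Fin d → ℝ) 1, ENNReal.ofReal (Real.exp (-(lam * ∏ i, tau (ε i) (q i)))) ≤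
      ENNReal.ofReal (4 ^ d * lam ^ (-(3 / 4 : ℝ))) := by
  have hs : (0 : ℝ) ≤ 3 / 4 := by norm_num
  have hs1 : (3 / 4 : ℝ) < 1 := by norm_num
  have hnn : ∀ q ∈ Icc (0 : Fin d → ℝ) 1, ∀ i, 0 ≤ tau (ε i) (q i) := by
    intro q hq i
    have h1 := hq.1 i
    have h2 := hq.2 i
    simp only [Pi.zero_apply, Pi.one_apply] at h1 h2
    cases h : ε i
    · simpa [tau] using h1
    · simpa [tau] using h2
  have hpi : (volume : Measure (Fin d → ℝ)).restrict (Icc 0 1) =
      Measure.pi (fun _ => volume.restrict (Icc (0 : ℝ) 1)) := by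
    rw [← Set.pi_univ_Icc, volume_pi, Measure.restrict_pi_pi]
    rfl
  calc ∫⁻ q in Icc (0 : Fin d → ℝ) 1, ENNReal.ofReal (Real.exp (-(lam * ∏ i, tau (ε i) (q i))))
      ≤ ∫⁻ q in Icc (0 : Fin d → ℝ) 1, (ENNReal.ofReal lam) ^ (-(3 / 4 : ℝ)) *
        ∏ i, (ENNReal.ofReal (tau (ε i) (q i))) ^ (-(3 / 4 : ℝ)) := by
        refine setLIntegral_mono' measurableSet_Icc fun q hq => ?_
        have h1 := hnn q hq
        refine (ofReal_exp_neg_le hs hs1.le
          (mul_nonneg hl.le (Finset.prod_nonneg fun i _ => h1 i))).trans ?_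
        rw [ENNReal.ofReal_mul hl.le, ENNReal.ofReal_prod_of_nonneg fun i _ => h1 i,
          ENNReal.mul_rpow_of_ne_top ENNReal.ofReal_ne_top
            (ENNReal.prod_ne_top fun i _ => ENNReal.ofReal_ne_top),
          ENNReal.prod_rpow_of_ne_top fun i _ => ENNReal.ofReal_ne_top]
    _ = (ENNReal.ofReal lam) ^ (-(3 / 4 : ℝ)) * ∏ i : Fin d, ∫⁻ t in Icc (0 : ℝ) 1,
        (ENNReal.ofReal (tau (ε i) t)) ^ (-(3 / 4 : ℝ)) := by
        have hm : ∀ i : Fin d, Measurable fun t : ℝ =>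
            (ENNReal.ofReal (tau (ε i) t)) ^ (-(3 / 4 : ℝ)) := fun i =>
          ((continuous_tau (ε i)).measurable.ennreal_ofReal).pow_const _
        have hm1 : Measurable fun q : Fin d → ℝ =>
            ∏ i, (ENNReal.ofReal (tau (ε i) (q i))) ^ (-(3 / 4 : ℝ)) :=
          Finset.measurable_fun_prod _ fun j _ => (hm j).comp (measurable_pi_apply j)
        rw [lintegral_const_mul _ hm1, hpi, lintegral_fin_prod hm]
    _ = ENNReal.ofReal (4 ^ d * lam ^ (-(3 / 4 : ℝ))) := by
        simp_rw [lintegral_tau_rpow_unit hs1]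
        rw [Finset.prod_const, Finset.card_univ, Fintype.card_fin, ENNReal.ofReal_rpow_of_pos hl,
          ← ENNReal.ofReal_pow (by norm_num), ← ENNReal.ofReal_mul (Real.rpow_nonneg hl.le _)]
        congr 1
        rw [show (1 / (1 - 3 / 4) : ℝ) = 4 by norm_num]
        ring

/-! ### The missed volume -/

/-- The law of `N` independent uniform points of the cube. -/
noncomputable def ulaw (d N : ℕ) : Measure (Fin N → Fin d → ℝ) :=
  Measure.pi fun _ => (volume : Measure (Fin d → ℝ)).restrict (Icc 0 1)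

instance (d : ℕ) : IsProbabilityMeasure ((volume : Measure (Fin d → ℝ)).restrict (Icc 0 1)) := by
  refine ⟨?_⟩
  rw [Measure.restrict_apply_univ, Real.volume_Icc_pi]
  simp

instance (d N : ℕ) : IsProbabilityMeasure (ulaw d N) := by
  unfold ulaw; infer_instance

theorem measurableSet_obox {d : ℕ} (ε : Fin d → Bool) (y : Fin d → ℝ) :
    MeasurableSet (obox ε y) := by
  have : obox ε y = ⋂ i, {z : Fin d → ℝ | if ε i then y i ≤ z i else z i ≤ y i} := by
    ext z; simp [obox]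
  rw [this]
  refine MeasurableSet.iInter fun i => ?_
  cases ε i
  · simpa using measurableSet_le (measurable_pi_apply i) measurable_const
  · simpa using measurableSet_le measurable_const (measurable_pi_apply i)

theorem ulaw_missed {d N : ℕ} (ε : Fin d → Bool) {q : Fin d → ℝ}
    (hq : q ∈ Icc (0 : Fin d → ℝ) 1) :
    ulaw d N {x | ∀ k, x k ∉ obox ε q} ≤
      ENNReal.ofReal (Real.exp (-(N * ∏ i, tau (ε i) (q i)))) := by
  have h1 : {x : Fin N → Fin d → ℝ | ∀ k, x k ∉ obox ε q} = Set.pi univ fun _ => (obox ε q)ᶜ := by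
    ext x; simp [Set.mem_pi]
  have hnn : 0 ≤ ∏ i, tau (ε i) (q i) := by
    refine Finset.prod_nonneg fun i _ => ?_
    have h1 := hq.1 i
    have h2 := hq.2 i
    simp only [Pi.zero_apply, Pi.one_apply] at h1 h2
    cases h : ε i
    · simpa [tau] using h1
    · simpa [tau] using h2
  have hle : ∏ i, tau (ε i) (q i) ≤ 1 := by
    refine Finset.prod_le_one (fun i _ => ?_) (fun i _ => ?_)
    all_goals
      have h1 := hq.1 i
      have h2 := hq.2 i
      simp only [Pi.zero_apply, Pi.one_apply] at h1 h2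
      cases h : ε i
    · simpa [tau] using h1
    · simpa [tau] using h2
    · simpa [tau] using h2
    · simpa [tau] using h1
  rw [h1, ulaw, Measure.pi_pi, Finset.prod_const, Finset.card_univ, Fintype.card_fin,
    prob_compl_eq_one_sub (measurableSet_obox ε q), Measure.restrict_apply (measurableSet_obox ε q),
    volume_obox ε hq, ← ENNReal.ofReal_one, ← ENNReal.ofReal_sub _ hnn,
    ← ENNReal.ofReal_pow (by linarith)]
  refine ENNReal.ofReal_le_ofReal ?_
  calc (1 - ∏ i, tau (ε i) (q i)) ^ N ≤ (Real.exp (-(∏ i, tau (ε i) (q i)))) ^ N :=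
        pow_le_pow_left₀ (by linarith) (Real.one_sub_le_exp_neg _) _
    _ = Real.exp (-(N * ∏ i, tau (ε i) (q i))) := by
        rw [← Real.exp_nat_mul]
        congr 1
        ring

theorem missed_one {d N : ℕ} (hN : 1 ≤ N) (ε : Fin d → Bool) (k : ℕ) :
    ∫⁻ x, (volume {q | q ∈ Icc (0 : Fin d → ℝ) 1 ∧ ∀ j, x j ∉ obox ε q}) ^ (k + 1)
      ∂(ulaw d N) ≤ (ENNReal.ofReal (4 ^ d * (N / (k + 1)) ^ (-(3 / 4 : ℝ)))) ^ (k + 1) := by
  have hN0 : (0 : ℝ) < N := by exact_mod_cast hN
  let B : Set ((Fin N → Fin d → ℝ) × (Fin d → ℝ)) :=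
    {z | z.2 ∈ Icc (0 : Fin d → ℝ) 1 ∧ ∀ j, z.1 j ∉ obox ε z.2}
  have hB : MeasurableSet B := by
    have : B = (Prod.snd ⁻¹' Icc (0 : Fin d → ℝ) 1) ∩ ⋂ j : Fin N,
        (⋂ i, {z : (Fin N → Fin d → ℝ) × (Fin d → ℝ) |
          if ε i then z.2 i ≤ z.1 j i else z.1 j i ≤ z.2 i})ᶜ := by
      ext z; simp [B, obox]
    rw [this]
    refine (measurable_snd measurableSet_Icc).inter (MeasurableSet.iInter fun j =>
      (MeasurableSet.iInter fun i => ?_).compl)
    have m1 : Measurable fun z : (Fin N → Fin d → ℝ) × (Fin d → ℝ) => z.1 j i := by fun_prop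
    have m2 : Measurable fun z : (Fin N → Fin d → ℝ) × (Fin d → ℝ) => z.2 i := by fun_prop
    cases ε i
    · simpa using measurableSet_le m1 m2
    · simpa using measurableSet_le m2 m1
  let β : (Fin d → ℝ) → ENNReal := fun q =>
    ENNReal.ofReal (Real.exp (-((N / (k + 1)) * ∏ i, tau (ε i) (q i))))
  have hβ : Measurable β := by
    refine Measurable.ennreal_ofReal (Real.measurable_exp.comp (Measurable.neg
      (Measurable.const_mul (Finset.measurable_prod _ fun i _ => ?_) _)))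
    exact (continuous_tau (ε i)).measurable.comp (measurable_pi_apply i)
  have h1 := moment_le (ulaw d N) ((volume : Measure (Fin d → ℝ)).restrict (Icc 0 1)) hB hβ
    (fun q => by simp only [β, ne_eq, ENNReal.ofReal_eq_zero, not_le]; positivity)
    (fun q => ENNReal.ofReal_ne_top) k ?_
  · calc ∫⁻ x, (volume {q | q ∈ Icc (0 : Fin d → ℝ) 1 ∧ ∀ j, x j ∉ obox ε q}) ^ (k + 1)
          ∂(ulaw d N)
        = ∫⁻ x, (((volume : Measure (Fin d → ℝ)).restrict (Icc 0 1)) {q | (x, q) ∈ B}) ^ (k + 1)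
          ∂(ulaw d N) := by
          refine lintegral_congr fun x => ?_
          congr 1
          rw [Measure.restrict_apply' measurableSet_Icc]
          congr 1
          ext q
          simp only [B, Set.mem_ofPred_eq, mem_inter_iff]
          tauto
      _ ≤ _ := h1
      _ ≤ _ := by
          gcongr
          exact lintegral_exp_prod_le ε (by positivity)
  · intro q
    by_cases hq : q ∈ Icc (0 : Fin d → ℝ) 1
    · have e1 : {x | (x, q) ∈ B} = {x : Fin N → Fin d → ℝ | ∀ j, x j ∉ obox ε q} := by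
        ext x; simp only [B, Set.mem_ofPred_eq]; exact ⟨fun h => h.2, fun h => ⟨hq, h⟩⟩
      rw [e1]
      refine (ulaw_missed ε hq).trans (le_of_eq ?_)
      rw [← ENNReal.ofReal_pow (Real.exp_pos _).le, ← Real.exp_nat_mul]
      congr 2
      push_cast
      field_simp
    · have e1 : {x | (x, q) ∈ B} = (∅ : Set (Fin N → Fin d → ℝ)) := by
        ext x
        simp only [B, Set.mem_ofPred_eq, mem_empty_iff_false, iff_false]
        exact fun h => hq h.1
      rw [e1]
      simp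

/-- The powers of the volume missed by the convex hull are dominated by a measurable function. -/
theorem missed_dom {d N : ℕ} (hN : 1 ≤ N) (k : ℕ) :
    ∃ G : (Fin N → Fin d → ℝ) → ENNReal, Measurable G ∧
      (∀ x, (volume (Icc (0 : Fin d → ℝ) 1 \ convexHull ℝ (range x))) ^ (k + 1) ≤ G x) ∧
      ∫⁻ x, G x ∂(ulaw d N) ≤
        (ENNReal.ofReal (8 ^ d * (N / (k + 1)) ^ (-(3 / 4 : ℝ)))) ^ (k + 1) := by
  have hN0 : (0 : ℝ) < N := by exact_mod_cast hN
  have h1 : ∀ x : Fin N → Fin d → ℝ,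
      (volume (Icc (0 : Fin d → ℝ) 1 \ convexHull ℝ (range x))) ^ (k + 1) ≤
        ((2 : ENNReal) ^ d) ^ k * ∑ ε : Fin d → Bool,
          (volume {q | q ∈ Icc (0 : Fin d → ℝ) 1 ∧ ∀ j, x j ∉ obox ε q}) ^ (k + 1) := by
    intro x
    have e1 : volume (Icc (0 : Fin d → ℝ) 1 \ convexHull ℝ (range x)) ≤
        ∑ ε : Fin d → Bool, volume {q | q ∈ Icc (0 : Fin d → ℝ) 1 ∧ ∀ j, x j ∉ obox ε q} := by
      refine (measure_mono ?_).trans (measure_iUnion_fintype_le _ _)
      rintro q ⟨hq1, hq2⟩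
      obtain ⟨ε, hε⟩ := exists_obox_of_notMem hq2
      exact mem_iUnion.2 ⟨ε, hq1, hε⟩
    have e2 := ENNReal.rpow_sum_le_const_mul_sum_rpow (Finset.univ : Finset (Fin d → Bool))
      (fun ε => volume {q | q ∈ Icc (0 : Fin d → ℝ) 1 ∧ ∀ j, x j ∉ obox ε q})
      (p := ((k + 1 : ℕ) : ℝ)) (by push_cast; linarith [(Nat.cast_nonneg k : (0 : ℝ) ≤ k)])
    simp only [ENNReal.rpow_natCast] at e2
    calc (volume (Icc (0 : Fin d → ℝ) 1 \ convexHull ℝ (range x))) ^ (k + 1)
        ≤ (∑ ε : Fin d → Bool,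
          volume {q | q ∈ Icc (0 : Fin d → ℝ) 1 ∧ ∀ j, x j ∉ obox ε q}) ^ (k + 1) := by
          gcongr
      _ ≤ _ := e2
      _ = _ := by
        congr 1
        have : (((k + 1 : ℕ) : ℝ) - 1) = (k : ℕ) := by push_cast; ring
        rw [this, ENNReal.rpow_natCast]
        simp
  have hm : ∀ ε : Fin d → Bool, Measurable fun x : Fin N → Fin d → ℝ =>
      (volume {q | q ∈ Icc (0 : Fin d → ℝ) 1 ∧ ∀ j, x j ∉ obox ε q}) ^ (k + 1) := by
    intro ε
    refine Measurable.pow_const ?_ _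
    have hB : MeasurableSet {z : (Fin N → Fin d → ℝ) × (Fin d → ℝ) |
        z.2 ∈ Icc (0 : Fin d → ℝ) 1 ∧ ∀ j, z.1 j ∉ obox ε z.2} := by
      have : {z : (Fin N → Fin d → ℝ) × (Fin d → ℝ) |
          z.2 ∈ Icc (0 : Fin d → ℝ) 1 ∧ ∀ j, z.1 j ∉ obox ε z.2} =
          (Prod.snd ⁻¹' Icc (0 : Fin d → ℝ) 1) ∩ ⋂ j : Fin N,
          (⋂ i, {z : (Fin N → Fin d → ℝ) × (Fin d → ℝ) |
            if ε i then z.2 i ≤ z.1 j i else z.1 j i ≤ z.2 i})ᶜ := by
        ext z; simp [obox]
      rw [this]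
      refine (measurable_snd measurableSet_Icc).inter (MeasurableSet.iInter fun j =>
        (MeasurableSet.iInter fun i => ?_).compl)
      have m1 : Measurable fun z : (Fin N → Fin d → ℝ) × (Fin d → ℝ) => z.1 j i := by fun_prop
      have m2 : Measurable fun z : (Fin N → Fin d → ℝ) × (Fin d → ℝ) => z.2 i := by fun_prop
      cases ε i
      · simpa using measurableSet_le m1 m2
      · simpa using measurableSet_le m2 m1
    exact measurable_measure_prodMk_left hB
  refine ⟨_, (Finset.measurable_fun_sum Finset.univ fun ε _ => hm ε).const_mul _, h1, ?_⟩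
  calc ∫⁻ x, ((2 : ENNReal) ^ d) ^ k * ∑ ε : Fin d → Bool,
          (volume {q | q ∈ Icc (0 : Fin d → ℝ) 1 ∧ ∀ j, x j ∉ obox ε q}) ^ (k + 1)
            ∂(ulaw d N)
      = ((2 : ENNReal) ^ d) ^ k * ∑ ε : Fin d → Bool,
          ∫⁻ x, (volume {q | q ∈ Icc (0 : Fin d → ℝ) 1 ∧ ∀ j, x j ∉ obox ε q}) ^ (k + 1)
            ∂(ulaw d N) := by
        rw [lintegral_const_mul _ (Finset.measurable_fun_sum _ fun ε _ => hm ε),
          lintegral_finsetSum _ fun ε _ => hm ε]
    _ ≤ ((2 : ENNReal) ^ d) ^ k * ∑ ε : Fin d → Bool,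
          (ENNReal.ofReal (4 ^ d * (N / (k + 1)) ^ (-(3 / 4 : ℝ)))) ^ (k + 1) := by
        gcongr with ε
        exact missed_one hN ε k
    _ = (ENNReal.ofReal (8 ^ d * (N / (k + 1)) ^ (-(3 / 4 : ℝ)))) ^ (k + 1) := by
        rw [Finset.sum_const, Finset.card_univ]
        have e3 : (8 : ℝ) ^ d * (N / (k + 1)) ^ (-(3 / 4 : ℝ)) =
            2 ^ d * (4 ^ d * (N / (k + 1)) ^ (-(3 / 4 : ℝ))) := by
          rw [← mul_assoc, ← mul_pow]; norm_num
        have e4 : ENNReal.ofReal (2 ^ d * (4 ^ d * ((N : ℝ) / (k + 1)) ^ (-(3 / 4 : ℝ)))) =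
            2 ^ d * ENNReal.ofReal (4 ^ d * (N / (k + 1)) ^ (-(3 / 4 : ℝ))) := by
          rw [ENNReal.ofReal_mul (by positivity), ENNReal.ofReal_pow (by norm_num),
            ENNReal.ofReal_ofNat]
        rw [e3, e4]
        generalize ENNReal.ofReal (4 ^ d * ((N : ℝ) / (k + 1)) ^ (-(3 / 4 : ℝ))) = A
        simp only [Fintype.card_fun, Fintype.card_bool, Fintype.card_fin, nsmul_eq_mul,
          Nat.cast_pow, Nat.cast_ofNat]
        rw [mul_pow, pow_succ ((2 : ENNReal) ^ d) k]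
        ring

/-- Moments of the volume missed by the convex hull. -/
theorem missed_pow_le {d N : ℕ} (hN : 1 ≤ N) (k : ℕ) :
    ∫⁻ x, (volume (Icc (0 : Fin d → ℝ) 1 \ convexHull ℝ (range x))) ^ (k + 1) ∂(ulaw d N) ≤
      (ENNReal.ofReal (8 ^ d * (N / (k + 1)) ^ (-(3 / 4 : ℝ)))) ^ (k + 1) := by
  obtain ⟨G, _, hG, hG2⟩ := missed_dom (d := d) hN k
  exact (lintegral_mono hG).trans hG2

/-- The missed volume of a convex set in the cube. -/
theorem one_sub_le_missed {d : ℕ} {K : Set (Fin d → ℝ)} (hK : IsClosed K) (hKQ : K ⊆ Icc 0 1) :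
    ENNReal.ofReal ((1 - (volume K).toReal) ^ 2) = (volume (Icc (0 : Fin d → ℝ) 1 \ K)) ^ (1 + 1) := by
  have hv1 : volume (Icc (0 : Fin d → ℝ) 1) = 1 := by
    rw [Real.volume_Icc_pi]; simp
  have hfin : volume K ≠ ⊤ :=
    ((measure_mono hKQ).trans_lt (by rw [hv1]; exact ENNReal.one_lt_top)).ne
  have e1 : volume (Icc (0 : Fin d → ℝ) 1 \ K) = ENNReal.ofReal (1 - (volume K).toReal) := by
    rw [measure_sdiff hKQ hK.measurableSet.nullMeasurableSet hfin, hv1,
      ENNReal.ofReal_sub _ ENNReal.toReal_nonneg, ENNReal.ofReal_one, ENNReal.ofReal_toReal hfin]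
  have hle : (volume K).toReal ≤ 1 := by
    have := ENNReal.toReal_mono (by rw [hv1]; exact ENNReal.one_ne_top)
      (measure_mono hKQ : volume _ ≤ volume (Icc (0 : Fin d → ℝ) 1))
    rwa [hv1, ENNReal.toReal_one] at this
  rw [e1, ← ENNReal.ofReal_pow (by linarith)]

/-- Second moment of the missed volume, real form. -/
theorem integral_missed_sq_le {d N : ℕ} (hN : 1 ≤ N) :
    ∫ x, (1 - (volume (convexHull ℝ (range x))).toReal) ^ 2 ∂(ulaw d N) ≤
      64 ^ d * (N / 2 : ℝ) ^ (-(3 / 2 : ℝ)) := by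
  have hN0 : (0 : ℝ) < N := by exact_mod_cast hN
  have hnn : (0 : ℝ) ≤ 64 ^ d * (N / 2 : ℝ) ^ (-(3 / 2 : ℝ)) := by positivity
  by_cases hmeas : AEStronglyMeasurable
      (fun x : Fin N → Fin d → ℝ => (1 - (volume (convexHull ℝ (range x))).toReal) ^ 2)
      (ulaw d N)
  · rw [integral_eq_lintegral_of_nonneg_ae (Filter.Eventually.of_forall fun x => sq_nonneg _) hmeas]
    refine ENNReal.toReal_le_of_le_ofReal hnn ?_
    have hae : ∀ᵐ x ∂(ulaw d N), ∀ k, x k ∈ Icc (0 : Fin d → ℝ) 1 := by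
      rw [ae_all_iff]
      intro k
      have h1 := (measurePreserving_eval
        (fun _ : Fin N => (volume : Measure (Fin d → ℝ)).restrict (Icc 0 1)) k).quasiMeasurePreserving
      exact h1.ae (ae_restrict_mem measurableSet_Icc)
    calc ∫⁻ x, ENNReal.ofReal ((1 - (volume (convexHull ℝ (range x))).toReal) ^ 2) ∂(ulaw d N)
        ≤ ∫⁻ x, (volume (Icc (0 : Fin d → ℝ) 1 \ convexHull ℝ (range x))) ^ (1 + 1)
          ∂(ulaw d N) := by
          refine lintegral_mono_ae ?_
          filter_upwards [hae] with x hx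
          have hsub : convexHull ℝ (range x) ⊆ Icc 0 1 :=
            convexHull_min (by rintro _ ⟨k, rfl⟩; exact hx k) (convex_Icc 0 1)
          have hcl : MeasurableSet (convexHull ℝ (range x)) :=
            ((finite_range x).isCompact_convexHull (𝕜 := ℝ)).isClosed.measurableSet
          have hv1 : volume (Icc (0 : Fin d → ℝ) 1) = 1 := by
            rw [Real.volume_Icc_pi]; simp
          have hfin : volume (convexHull ℝ (range x)) ≠ ⊤ :=
            ((measure_mono hsub).trans_lt (by rw [hv1]; exact ENNReal.one_lt_top)).ne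
          have e1 : volume (Icc (0 : Fin d → ℝ) 1 \ convexHull ℝ (range x)) =
              ENNReal.ofReal (1 - (volume (convexHull ℝ (range x))).toReal) := by
            rw [measure_sdiff hsub hcl.nullMeasurableSet hfin, hv1,
              ENNReal.ofReal_sub _ ENNReal.toReal_nonneg, ENNReal.ofReal_one,
              ENNReal.ofReal_toReal hfin]
          have hle : (volume (convexHull ℝ (range x))).toReal ≤ 1 := by
            have := ENNReal.toReal_mono (by rw [hv1]; exact ENNReal.one_ne_top)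
              (measure_mono hsub : volume _ ≤ volume (Icc (0 : Fin d → ℝ) 1))
            rwa [hv1, ENNReal.toReal_one] at this
          rw [e1, ← ENNReal.ofReal_pow (by linarith)]
      _ ≤ _ := missed_pow_le hN 1
      _ = ENNReal.ofReal (64 ^ d * (N / 2 : ℝ) ^ (-(3 / 2 : ℝ))) := by
          rw [← ENNReal.ofReal_pow (by positivity)]
          congr 1
          have e2 : ((N : ℝ) / ((1 : ℕ) + 1)) = N / 2 := by norm_num
          rw [e2, mul_pow, ← pow_mul, mul_comm d, pow_mul, ← Real.rpow_natCast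
            (((N : ℝ) / 2) ^ (-(3 / 4 : ℝ))), ← Real.rpow_mul (by positivity)]
          norm_num
  · rw [integral_non_aestronglyMeasurable hmeas]
    exact hnn

end Pool.Agent.B05.SA
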