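import Mathlib
import Pool.Agent.Lib.MP_b05ae9_pr.Surf
import Pool.Agent.Lib.MP_b05ae9_pr.Box

/-!
MP_b05ae9_pr, continuity of the surface area of the hull and general position (helper96).
-/

open MeasureTheory Set

namespace Pool.Agent.B05.SA

section Sandwich

variable {H : Type*} [NormedAddCommGroup H] [InnerProductSpace ℝ H]

theorem exists_inner_ge {N : ℕ} {x : Fin N → H} {w : H} (hw : w ∈ convexHull ℝ (range x)) (u : H) :
    ∃ k, inner ℝ u w ≤ inner ℝ u (x k) := by
  by_contra hcon
  push Not at hcon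
  have h1 : convexHull ℝ (range x) ⊆ {z | inner ℝ u z < inner ℝ u w} := by
    refine convexHull_min ?_ ?_
    · rintro _ ⟨k, rfl⟩; exact hcon k
    · intro a ha b hb s t hs ht hst
      simp only [Set.mem_ofPred_eq, inner_add_right, inner_smul_right] at ha hb ⊢
      rcases hs.eq_or_lt with rfl | hs
      · have : t = 1 := by linarith
        subst this; simpa using hb
      · calc s * inner ℝ u a + t * inner ℝ u b < s * inner ℝ u w + t * inner ℝ u w := by
              have := mul_lt_mul_of_pos_left ha hs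
              have := mul_le_mul_of_nonneg_left hb.le ht
              linarith
          _ = inner ℝ u w := by rw [← add_mul, hst, one_mul]
  have h2 : inner ℝ u w < inner ℝ u w := h1 hw
  exact lt_irrefl _ h2

theorem mem_hull_of_near [CompleteSpace H] {N : ℕ} {x y : Fin N → H} {z : H} {ρ : ℝ}
    (hρ : 0 ≤ ρ) (hz : Metric.closedBall z ρ ⊆ convexHull ℝ (range x))
    (hy : ∀ k, ‖y k - x k‖ ≤ ρ) : z ∈ convexHull ℝ (range y) := by
  by_contra hzy
  have hne : (convexHull ℝ (range y)).Nonempty := by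
    rcases N.eq_zero_or_pos with h | h
    · subst h
      have := hz (Metric.mem_closedBall_self hρ)
      simp at this
    · exact ⟨y ⟨0, h⟩, subset_convexHull ℝ _ (mem_range_self _)⟩
  have hcomp : IsComplete (convexHull ℝ (range y)) :=
    ((finite_range y).isCompact_convexHull (𝕜 := ℝ)).isComplete
  obtain ⟨p, hp, h1⟩ := exists_proj hcomp (convex_convexHull ℝ _) hne z
  have hu : z - p ≠ 0 := fun h => hzy (by rw [sub_eq_zero.1 h]; exact hp)
  set u := z - p with hudef
  have hun : 0 < ‖u‖ := norm_pos_iff.2 hu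
  have h2 : z + (ρ / ‖u‖) • u ∈ convexHull ℝ (range x) := by
    refine hz ?_
    rw [Metric.mem_closedBall, dist_eq_norm, add_sub_cancel_left, norm_smul, norm_div,
      Real.norm_of_nonneg hρ, norm_norm, div_mul_cancel₀ _ hun.ne']
  obtain ⟨k, hk⟩ := exists_inner_ge h2 u
  rw [inner_add_right, inner_smul_right, real_inner_self_eq_norm_mul_norm] at hk
  have h3 : inner ℝ u (y k) ≥ inner ℝ u (x k) - ρ * ‖u‖ := by
    have e : inner ℝ u (y k) = inner ℝ u (x k) + inner ℝ u (y k - x k) := by
      rw [← inner_add_right]; congr 1; abel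
    have h4 : |inner ℝ u (y k - x k)| ≤ ‖u‖ * ‖y k - x k‖ := abs_real_inner_le_norm _ _
    have h5 : ‖u‖ * ‖y k - x k‖ ≤ ‖u‖ * ρ := mul_le_mul_of_nonneg_left (hy k) hun.le
    have h6 := (abs_le.1 h4).1
    rw [e]; linarith
  have h7 := h1 (y k) (subset_convexHull ℝ _ (mem_range_self k))
  have h8 : inner ℝ u (y k - p) = inner ℝ u (y k) - inner ℝ u z + ‖u‖ * ‖u‖ := by
    rw [← real_inner_self_eq_norm_mul_norm]
    rw [← inner_sub_right, ← inner_add_right]
    congr 1
    rw [hudef]; abel
  rw [h8] at h7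
  have h9 : ρ / ‖u‖ * (‖u‖ * ‖u‖) = ρ * ‖u‖ := by field_simp
  rw [h9] at hk
  nlinarith [mul_pos hun hun]

/-- The homothety as a function. -/
def hmt (c : H) (s : ℝ) (z : H) : H := c + s • (z - c)

theorem hmt_image_subset [CompleteSpace H] {N : ℕ} {x y : Fin N → H} {c : H} {r δ : ℝ}
    (hr : 0 ≤ r) (hδ0 : 0 ≤ δ) (hδ1 : δ ≤ 1)
    (hc : Metric.closedBall c r ⊆ convexHull ℝ (range x)) (hy : ∀ k, ‖y k - x k‖ ≤ δ * r) :
    hmt c (1 - δ) '' convexHull ℝ (range x) ⊆ convexHull ℝ (range y) := by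
  rintro _ ⟨w, hw, rfl⟩
  refine mem_hull_of_near (x := x) (ρ := δ * r) (by positivity) ?_ hy
  intro e he
  rw [Metric.mem_closedBall, dist_eq_norm] at he
  rcases hδ0.eq_or_lt with h | hδ
  · subst h
    rw [zero_mul, norm_le_zero_iff, sub_eq_zero] at he
    rw [he]
    simpa [hmt] using hw
  · have h1 : c + (1 / δ) • (e - hmt c (1 - δ) w) ∈ Metric.closedBall c r := by
      rw [Metric.mem_closedBall, dist_eq_norm, add_sub_cancel_left, norm_smul,
        Real.norm_of_nonneg (by positivity), one_div, inv_mul_le_iff₀ hδ]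
      exact he
    have h2 := (convex_convexHull ℝ (range x)) hw (hc h1) (by linarith : 0 ≤ 1 - δ) hδ0 (by ring)
    have h3 : (1 - δ) • w + δ • (c + (1 / δ) • (e - hmt c (1 - δ) w)) = e := by
      rw [smul_add, smul_smul, mul_one_div_cancel hδ.ne', one_smul, hmt]
      module
    rwa [h3] at h2

theorem hull_subset_hmt {N : ℕ} {x y : Fin N → H} {c : H} {r δ : ℝ}
    (hδ0 : 0 ≤ δ)
    (hc : Metric.closedBall c r ⊆ convexHull ℝ (range x)) (hy : ∀ k, ‖y k - x k‖ ≤ δ * r) :
    convexHull ℝ (range y) ⊆ hmt c (1 + δ) '' convexHull ℝ (range x) := by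
  have hconv : Convex ℝ (hmt c (1 + δ) '' convexHull ℝ (range x)) := by
    rintro _ ⟨a, ha, rfl⟩ _ ⟨b, hb, rfl⟩ s t hs ht hst
    refine ⟨s • a + t • b, (convex_convexHull ℝ _) ha hb hs ht hst, ?_⟩
    simp only [hmt]
    have : t = 1 - s := by linarith
    subst this
    module
  refine convexHull_min ?_ hconv
  rintro _ ⟨k, rfl⟩
  have h1δ : (1 + δ) ≠ 0 := by positivity
  rcases hδ0.eq_or_lt with h | hδ
  · subst h
    have := hy k
    rw [zero_mul, norm_le_zero_iff, sub_eq_zero] at this
    refine ⟨x k, subset_convexHull ℝ _ (mem_range_self k), ?_⟩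
    rw [this]; simp [hmt]
  · have h1 : c + (1 / δ) • (y k - x k) ∈ Metric.closedBall c r := by
      rw [Metric.mem_closedBall, dist_eq_norm, add_sub_cancel_left, norm_smul,
        Real.norm_of_nonneg (by positivity), one_div, inv_mul_le_iff₀ hδ]
      exact hy k
    refine ⟨(1 / (1 + δ)) • x k + (δ / (1 + δ)) • (c + (1 / δ) • (y k - x k)), ?_, ?_⟩
    · refine (convex_convexHull ℝ (range x)) (subset_convexHull ℝ _ (mem_range_self k)) (hc h1)
        (by positivity) (by positivity) ?_
      field_simp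
    · simp only [hmt]
      have e1 : (1 + δ) • ((1 / (1 + δ)) • x k + (δ / (1 + δ)) • (c + (1 / δ) • (y k - x k)) - c)
          = x k + δ • c + (y k - x k) - (1 + δ) • c := by
        have a1 : (1 + δ) * (1 / (1 + δ)) = 1 := mul_one_div_cancel h1δ
        have a2 : (1 + δ) * (δ / (1 + δ)) = δ := by field_simp
        have a3 : δ * (1 / δ) = 1 := mul_one_div_cancel hδ.ne'
        rw [smul_sub, smul_add, smul_smul, smul_smul, smul_add, smul_smul, a1, a2, a3]
        module
      rw [e1]
      module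

theorem hmt_homeo (c : H) {s : ℝ} (hs : s ≠ 0) : ∃ e : H ≃ₜ H, ∀ z, e z = hmt c s z := by
  refine ⟨⟨⟨hmt c s, hmt c s⁻¹, fun z => ?_, fun z => ?_⟩, ?_, ?_⟩, fun z => rfl⟩
  · simp [hmt, smul_smul, hs]
  · simp [hmt, smul_smul, hs]
  · unfold hmt; fun_prop
  · unfold hmt; fun_prop

end Sandwich

theorem surf_hmt (m : ℕ) (K : Set (EuclideanSpace ℝ (Fin (m + 1))))
    (c : EuclideanSpace ℝ (Fin (m + 1))) {s : ℝ} (hs : 0 < s) :
    surf m (hmt c s '' K) = ENNReal.ofReal (s ^ m) * surf m K := by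
  unfold surf
  obtain ⟨e, he⟩ := hmt_homeo c hs.ne'
  have h1 : hmt c s '' K = e '' K := by
    ext z; simp [he]
  have h2 : e '' frontier K = AffineMap.homothety c s '' frontier K := by
    ext z
    simp [he, hmt, AffineMap.homothety_apply, add_comm]
  rw [h1, ← e.image_frontier, h2, euclideanHausdorffMeasure_homothety_image _ _ hs.ne',
    ENNReal.smul_def, smul_eq_mul]
  congr 1
  rw [ENNReal.coe_pow, ENNReal.ofReal_pow hs.le]
  congr 1
  rw [← enorm_eq_nnnorm, Real.enorm_eq_ofReal hs.le]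

/-- The surface area of the hull is continuous at nondegenerate configurations. -/
theorem continuousAt_surf (m N : ℕ) {x : Fin N → EuclideanSpace ℝ (Fin (m + 1))}
    (hx : (interior (convexHull ℝ (range x))).Nonempty) :
    ContinuousAt (fun y : Fin N → EuclideanSpace ℝ (Fin (m + 1)) =>
      surf m (convexHull ℝ (range y))) x := by
  obtain ⟨c, hc⟩ := hx
  obtain ⟨r0, hr0, hball⟩ := Metric.mem_nhds_iff.1 (mem_interior_iff_mem_nhds.1 hc)
  set r := r0 / 2 with hr
  have hrpos : 0 < r := by positivity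
  have hcb : Metric.closedBall c r ⊆ convexHull ℝ (range x) :=
    (Metric.closedBall_subset_ball (by linarith)).trans hball
  have hcl : ∀ y : Fin N → EuclideanSpace ℝ (Fin (m + 1)), IsClosed (convexHull ℝ (range y)) :=
    fun y => ((finite_range y).isCompact_convexHull (𝕜 := ℝ)).isClosed
  set S := surf m (convexHull ℝ (range x)) with hS
  have hδ : Filter.Tendsto (fun y => ‖y - x‖ / r) (nhds x) (nhds 0) := by
    have : ContinuousAt (fun y : Fin N → EuclideanSpace ℝ (Fin (m + 1)) => ‖y - x‖ / r) x := by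
      fun_prop
    simpa [ContinuousAt] using this
  have hlow : Filter.Tendsto (fun y => ENNReal.ofReal ((1 - ‖y - x‖ / r) ^ m) * S) (nhds x)
      (nhds S) := by
    have h1 : Filter.Tendsto (fun y => ENNReal.ofReal ((1 - ‖y - x‖ / r) ^ m)) (nhds x)
        (nhds 1) := by
      have := ENNReal.tendsto_ofReal (((tendsto_const_nhds (x := (1 : ℝ))).sub hδ).pow m)
      simpa using this
    simpa using ENNReal.Tendsto.mul_const (b := S) h1 (Or.inl one_ne_zero)
  have hup : Filter.Tendsto (fun y => ENNReal.ofReal ((1 + ‖y - x‖ / r) ^ m) * S) (nhds x)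
      (nhds S) := by
    have h1 : Filter.Tendsto (fun y => ENNReal.ofReal ((1 + ‖y - x‖ / r) ^ m)) (nhds x)
        (nhds 1) := by
      have := ENNReal.tendsto_ofReal (((tendsto_const_nhds (x := (1 : ℝ))).add hδ).pow m)
      simpa using this
    simpa using ENNReal.Tendsto.mul_const (b := S) h1 (Or.inl one_ne_zero)
  have hlt : ∀ᶠ y in nhds x, ‖y - x‖ / r < 1 := hδ.eventually_lt_const zero_lt_one
  have hyk : ∀ y : Fin N → EuclideanSpace ℝ (Fin (m + 1)), ∀ k,
      ‖y k - x k‖ ≤ ‖y - x‖ / r * r := by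
    intro y k
    rw [div_mul_cancel₀ _ hrpos.ne']
    exact norm_le_pi_norm (y - x) k
  refine tendsto_of_tendsto_of_tendsto_of_le_of_le' hlow hup ?_ ?_
  · filter_upwards [hlt] with y hy
    rw [hS, ← surf_hmt m _ c (by linarith : 0 < 1 - ‖y - x‖ / r)]
    refine surf_mono m ?_ ?_ ((finite_range y).isCompact_convexHull (𝕜 := ℝ))
      (hmt_image_subset hrpos.le (by positivity) hy.le hcb (hyk y))
    · obtain ⟨e, he⟩ := hmt_homeo c (by linarith : 1 - ‖y - x‖ / r ≠ 0)
      have : hmt c (1 - ‖y - x‖ / r) '' convexHull ℝ (range x) = e '' convexHull ℝ (range x) := by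
        ext z; simp [he]
      rw [this]
      exact e.isClosedMap _ (hcl x)
    · rintro _ ⟨a, ha, rfl⟩ _ ⟨b, hb, rfl⟩ s t hs ht hst
      refine ⟨s • a + t • b, (convex_convexHull ℝ _) ha hb hs ht hst, ?_⟩
      simp only [hmt]
      have : t = 1 - s := by linarith
      subst this
      module
  · filter_upwards with y
    have h0 : 0 ≤ ‖y - x‖ / r := by positivity
    rw [hS, ← surf_hmt m _ c (by linarith : 0 < 1 + ‖y - x‖ / r)]
    refine surf_mono m (hcl y) (convex_convexHull ℝ _) ?_ (hull_subset_hmt h0 hcb (hyk y))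
    obtain ⟨e, he⟩ := hmt_homeo c (by linarith : 1 + ‖y - x‖ / r ≠ 0)
    have : hmt c (1 + ‖y - x‖ / r) '' convexHull ℝ (range x) = e '' convexHull ℝ (range x) := by
      ext z; simp [he]
    rw [this]
    exact ((finite_range x).isCompact_convexHull (𝕜 := ℝ)).image e.continuous

/-! ### General position -/

/-- The matrix of the differences. -/
def dmat {n N : ℕ} (e : Fin (n + 1) → Fin N) (x : Fin N → Fin n → ℝ) : Matrix (Fin n) (Fin n) ℝ :=
  Matrix.of fun i j => x (e i.succ) j - x (e 0) j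

theorem ae_det_ne_zero {n N : ℕ} {e : Fin (n + 1) → Fin N} (he : Function.Injective e) :
    ∀ᵐ x : Fin N → Fin n → ℝ, (dmat e x).det ≠ 0 := by
  classical
  let w : Fin N → Fin n → ℝ := fun k j => if k = e j.succ then 1 else 0
  have hw0 : ∀ j, w (e 0) j = 0 := by
    intro j
    simp only [w]
    rw [if_neg]
    intro h
    exact (Fin.succ_ne_zero j) (he h).symm
  have hw1 : ∀ i j : Fin n, w (e i.succ) j = if i = j then 1 else 0 := by
    intro i j
    simp only [w]
    congr 1
    simp [he.eq_iff]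
  have hcont : Continuous fun x : Fin N → Fin n → ℝ => (dmat e x).det := by
    refine Continuous.matrix_det ?_
    refine continuous_matrix fun i j => ?_
    simp only [dmat, Matrix.of_apply]
    fun_prop
  have hs : MeasurableSet {x : Fin N → Fin n → ℝ | (dmat e x).det ≠ 0} :=
    (isOpen_ne_fun hcont continuous_const).measurableSet
  let L : ℝ →ₗ[ℝ] (Fin N → Fin n → ℝ) := LinearMap.toSpanSingleton ℝ _ w
  refine ae_mem_of_ae_add_linearMap_mem L volume volume hs fun y => ?_
  have h1 : ∀ t : ℝ, (dmat e (y + L t)) = Matrix.scalar (Fin n) t - (-(dmat e y)) := by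
    intro t
    ext i j
    simp only [dmat, L, LinearMap.toSpanSingleton_apply, Matrix.of_apply, Pi.add_apply,
      Pi.smul_apply, smul_eq_mul, hw0, hw1, Matrix.scalar_apply, Matrix.sub_apply,
      Matrix.neg_apply, Matrix.diagonal_apply]
    split_ifs <;> ring
  have h2 : {t : ℝ | (y + L t) ∉ {x : Fin N → Fin n → ℝ | (dmat e x).det ≠ 0}} ⊆
      {t | (-(dmat e y)).charpoly.IsRoot t} := by
    intro t ht
    simp only [Set.mem_ofPred_eq, not_not] at ht
    simp only [Set.mem_ofPred_eq, Polynomial.IsRoot.def, Matrix.eval_charpoly]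
    rw [← h1]; exact ht
  have h3 : {t | (-(dmat e y)).charpoly.IsRoot t}.Finite :=
    Polynomial.finite_setOfPred_isRoot (Matrix.charpoly_monic _).ne_zero
  rw [ae_iff]
  exact measure_mono_null h2 (h3.measure_zero volume)

theorem affineSpan_eq_top_of_det {n N : ℕ} {e : Fin (n + 1) → Fin N} {x : Fin N → Fin n → ℝ}
    (h : (dmat e x).det ≠ 0) : affineSpan ℝ (range x) = ⊤ := by
  have h1 : LinearIndependent ℝ (fun i => (dmat e x) i) :=
    Matrix.linearIndependent_rows_of_det_ne_zero h
  have h2 : Submodule.span ℝ (range fun i => (dmat e x) i) = ⊤ :=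
    h1.span_eq_top_of_card_eq_finrank' (by simp)
  have hne : (range x).Nonempty := ⟨x (e 0), mem_range_self _⟩
  rw [AffineSubspace.affineSpan_eq_top_iff_vectorSpan_eq_top_of_nonempty ℝ _ _ hne]
  rw [eq_top_iff, ← h2, Submodule.span_le]
  rintro _ ⟨i, rfl⟩
  have h3 : (dmat e x) i = x (e i.succ) -ᵥ x (e 0) := by
    funext j; simp [dmat]
  simp only [h3]
  exact vsub_mem_vectorSpan ℝ (mem_range_self _) (mem_range_self _)

theorem interior_nonempty_of_det {n N : ℕ} {e : Fin (n + 1) → Fin N} {x : Fin N → Fin n → ℝ}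
    (h : (dmat e x).det ≠ 0) : (interior (convexHull ℝ (range x))).Nonempty :=
  interior_convexHull_nonempty_iff_affineSpan_eq_top.2 (affineSpan_eq_top_of_det h)

theorem ulaw_ac (d N : ℕ) : ulaw d N ≪ (volume : Measure (Fin N → Fin d → ℝ)) := by
  have : ulaw d N = (volume : Measure (Fin N → Fin d → ℝ)).restrict
      (Set.pi univ fun _ => Icc (0 : Fin d → ℝ) 1) := by
    exact (Measure.restrict_pi_pi (fun _ : Fin N => (volume : Measure (Fin d → ℝ))) _).symm
  rw [this]
  exact Measure.absolutelyContinuous_of_le Measure.restrict_le_self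

theorem ae_ulaw_mem (d N : ℕ) : ∀ᵐ x ∂(ulaw d N), ∀ k, x k ∈ Icc (0 : Fin d → ℝ) 1 := by
  rw [ae_all_iff]
  intro k
  have h1 := (measurePreserving_eval
    (fun _ : Fin N => (volume : Measure (Fin d → ℝ)).restrict (Icc 0 1)) k).quasiMeasurePreserving
  exact h1.ae (ae_restrict_mem measurableSet_Icc)

theorem toLp_image_convexHull {n N : ℕ} (x : Fin N → Fin n → ℝ) :
    (WithLp.toLp 2 '' convexHull ℝ (range x) : Set (EuclideanSpace ℝ (Fin n))) =
      convexHull ℝ (range fun k => (WithLp.toLp 2 (x k) : EuclideanSpace ℝ (Fin n))) := by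
  have h := ((WithLp.linearEquiv 2 ℝ (Fin n → ℝ)).symm : (Fin n → ℝ) →ₗ[ℝ]
    EuclideanSpace ℝ (Fin n)).image_convexHull (range x)
  rw [← range_comp] at h
  exact h

theorem aemeasurable_surf (m N : ℕ) (hN : m + 2 ≤ N) :
    AEMeasurable (fun x : Fin N → Fin (m + 1) → ℝ => surf m
      (WithLp.toLp 2 '' convexHull ℝ (range x) : Set (EuclideanSpace ℝ (Fin (m + 1)))))
      (ulaw (m + 1) N) := by
  let e : Fin (m + 2) → Fin N := Fin.castLE hN
  have he : Function.Injective e := Fin.castLE_injective hN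
  let G : Set (Fin N → Fin (m + 1) → ℝ) := {x | (dmat e x).det ≠ 0}
  have hcont : Continuous fun x : Fin N → Fin (m + 1) → ℝ => (dmat e x).det := by
    refine Continuous.matrix_det ?_
    refine continuous_matrix fun i j => ?_
    simp only [dmat, Matrix.of_apply]
    fun_prop
  have hG : MeasurableSet G := (isOpen_ne_fun hcont continuous_const).measurableSet
  have hGae : ∀ᵐ x ∂(ulaw (m + 1) N), x ∈ G := (ulaw_ac _ _).ae_le (ae_det_ne_zero he)
  have hres : (ulaw (m + 1) N).restrict G = ulaw (m + 1) N :=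
    Measure.restrict_eq_self_of_ae_mem hGae
  rw [← hres]
  refine ContinuousOn.aemeasurable (fun x hx => ?_) hG
  refine ContinuousAt.continuousWithinAt ?_
  have h1 : ContinuousAt (fun y : Fin N → EuclideanSpace ℝ (Fin (m + 1)) =>
      surf m (convexHull ℝ (range y))) (fun k => WithLp.toLp 2 (x k)) := by
    refine continuousAt_surf m N ?_
    rw [← toLp_image_convexHull]
    obtain ⟨c, hc⟩ := interior_nonempty_of_det hx
    refine ⟨WithLp.toLp 2 c, ?_⟩
    rw [toLp_image_eq_preimage]
    exact preimage_interior_subset_interior_preimage (PiLp.continuous_ofLp 2 _) hc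
  have h2 : Continuous (fun (x : Fin N → Fin (m + 1) → ℝ) (k : Fin N) =>
      (WithLp.toLp 2 (x k) : EuclideanSpace ℝ (Fin (m + 1)))) :=
    continuous_pi fun k => (PiLp.continuous_toLp 2 _).comp (continuous_apply k)
  have h3 := ContinuousAt.comp (f := fun (x : Fin N → Fin (m + 1) → ℝ) (k : Fin N) =>
      (WithLp.toLp 2 (x k) : EuclideanSpace ℝ (Fin (m + 1)))) (x := x) h1 h2.continuousAt
  refine h3.congr (Filter.Eventually.of_forall fun y => ?_)
  simp only [Function.comp, toLp_image_convexHull]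

theorem aemeasurable_surfR (m N : ℕ) (hN : m + 2 ≤ N) :
    AEMeasurable (fun x : Fin N → Fin (m + 1) → ℝ => surfR m (convexHull ℝ (range x)))
      (ulaw (m + 1) N) :=
  (aemeasurable_surf m N hN).ennreal_toReal

end Pool.Agent.B05.SA
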