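import Pool.Agent.Lib.MP_b05ae9_pr.Defs
import Pool.Agent.Lib.MP_b05ae9_pr.Cont

/-!
MP_b05ae9_pr, Task G (helper96): monotonicity of the surface area, the prism, and the projections
of the hull are almost full.
-/

set_option autoImplicit false

open MeasureTheory Set Filter Topology
open scoped ENNReal MeasureTheory

namespace Pool.Agent.B05

theorem surf_eq_surfR {m : ℕ} (K : Set (P m)) : surf K = SA.surfR (m + 1) K := rfl

theorem surf_lt_top_of_compact {m : ℕ} {L : Set (EuclideanSpace ℝ (Fin (m + 1)))}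
    (hL : Convex ℝ L) (hLc : IsCompact L) : SA.surf m L < ⊤ := by
  let h : EuclideanSpace ℝ (Fin (m + 1)) := WithLp.toLp 2 fun _ => 1 / 2
  obtain ⟨B, hB⟩ := hLc.isBounded.exists_norm_le
  have hB0 : 0 ≤ max B 0 := le_max_right _ _
  set s : ℝ := 2 * (max B 0 + ‖h‖) + 1 with hs
  have hspos : 0 < s := by have := norm_nonneg h; positivity
  have hsub : L ⊆ SA.hmt h s '' SA.cube (m + 1) := by
    intro z hz
    refine ⟨h + (1 / s) • (z - h), fun i => ?_, ?_⟩
    · have h1 : |(z - h) i| ≤ ‖z - h‖ := by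
        rw [← Real.norm_eq_abs]; exact PiLp.norm_apply_le _ i
      have h2 : ‖z - h‖ ≤ max B 0 + ‖h‖ :=
        (norm_sub_le _ _).trans (by gcongr; exact (hB z hz).trans (le_max_left _ _))
      have h3 : |(1 / s) * (z - h) i| ≤ 1 / 2 := by
        rw [abs_mul, abs_of_pos (by positivity), one_div, inv_mul_le_iff₀ hspos]
        rw [hs]; linarith
      have h4 : (h + (1 / s) • (z - h)) i = 1 / 2 + (1 / s) * (z - h) i := rfl
      rw [h4]
      obtain ⟨h5, h6⟩ := abs_le.1 h3
      constructor <;> linarith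
    · simp [SA.hmt, hspos.ne']
  have hcomp : IsCompact (SA.hmt h s '' SA.cube (m + 1)) :=
    (SA.isCompact_cube _).image (by unfold SA.hmt; fun_prop)
  refine (SA.surf_mono m hLc.isClosed hL hcomp hsub).trans_lt ?_
  rw [SA.surf_hmt m _ h hspos]
  exact ENNReal.mul_lt_top ENNReal.ofReal_lt_top
    ((SA.surf_cube_le m).trans_lt ENNReal.ofReal_lt_top)

theorem surf_mono {m : ℕ} {K L : Set (P m)} (hK : Convex ℝ K) (hKc : IsCompact K)
    (_hKn : K.Nonempty) (hL : Convex ℝ L) (hLc : IsCompact L) (hKL : K ⊆ L) :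
    surf K ≤ surf L :=
  ENNReal.toReal_mono
    (surf_lt_top_of_compact (SA.convex_toLp_image hL) (SA.isCompact_toLp_image hLc)).ne
    (SA.surf_mono (m + 1) (SA.isClosed_toLp_image hKc.isClosed) (SA.convex_toLp_image hK)
      (SA.isCompact_toLp_image hLc) (image_mono hKL))

theorem surf_prism {m : ℕ} {K : Set (P m)} (hK : Convex ℝ K) (hKc : IsCompact K) {δ : ℝ}
    (hδ : 0 < δ) (hδ' : δ ≤ 1 / 2) (hKδ : K ⊆ {q | q ∈ cube (m + 2) ∧ δ ≤ q 0 + q 1}) :
    surf K ≤ 2 * (m + 2) - (2 - √2) * δ :=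
  SA.surfR_prism_le hδ.le (by linarith) hKc.isClosed hK (fun _ hq => (hKδ hq).1)
    (fun _ hq => (hKδ hq).2)

theorem surf_le_cube {m : ℕ} {K : Set (P m)} (hK : Convex ℝ K) (hKc : IsCompact K)
    (hKδ : K ⊆ cube (m + 2)) : surf K ≤ 2 * (m + 2) := by
  have := SA.surfR_le hKc.isClosed hK hKδ
  rw [surf_eq_surfR]
  push_cast at this
  linarith

theorem measurePreserving_pr {m : ℕ} (k : Fin (m + 2)) :
    MeasurePreserving (pr k : P m → Fin (m + 1) → ℝ) (unif (m + 2))
      ((volume : Measure (Fin (m + 1) → ℝ)).restrict (Icc 0 1)) := by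
  have h1 := volume_preserving_piFinSuccAbove (fun _ : Fin (m + 2) => ℝ) k
  have h2 : (MeasurableEquiv.piFinSuccAbove (fun _ : Fin (m + 2) => ℝ) k) ⁻¹'
      (Icc (0 : ℝ) 1 ×ˢ Icc (0 : Fin (m + 1) → ℝ) 1) = cube (m + 2) := by
    ext x
    simp only [mem_preimage, mem_prod, cube, mem_Icc, Pi.le_def, Pi.zero_apply, Pi.one_apply]
    constructor
    · rintro ⟨⟨a1, a2⟩, a3, a4⟩
      refine ⟨fun i => ?_, fun i => ?_⟩
      · rcases eq_or_ne i k with rfl | hi
        · exact a1
        · obtain ⟨j, rfl⟩ := Fin.exists_succAbove_eq hi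
          exact a3 j
      · rcases eq_or_ne i k with rfl | hi
        · exact a2
        · obtain ⟨j, rfl⟩ := Fin.exists_succAbove_eq hi
          exact a4 j
    · rintro ⟨a1, a2⟩
      exact ⟨⟨a1 k, a2 k⟩, fun j => a1 _, fun j => a2 _⟩
  have h3 := h1.restrict_preimage
    (measurableSet_Icc.prod measurableSet_Icc : MeasurableSet
      (Icc (0 : ℝ) 1 ×ˢ Icc (0 : Fin (m + 1) → ℝ) 1))
  rw [h2, Measure.volume_eq_prod, ← Measure.prod_restrict] at h3
  have : IsProbabilityMeasure ((volume : Measure ℝ).restrict (Icc 0 1)) := by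
    refine ⟨?_⟩
    rw [Measure.restrict_apply_univ, Real.volume_Icc]; simp
  exact (measurePreserving_snd (μ := (volume : Measure ℝ).restrict (Icc 0 1))
    (ν := (volume : Measure (Fin (m + 1) → ℝ)).restrict (Icc 0 1))).comp h3

theorem pr_image_convexHull {m N : ℕ} (k : Fin (m + 2)) (X : Fin N → P m) :
    pr k '' convexHull ℝ (range X) = convexHull ℝ (range fun j => pr k (X j)) := by
  let L : P m →ₗ[ℝ] (Fin (m + 1) → ℝ) :=
    { toFun := pr k, map_add' := fun _ _ => rfl, map_smul' := fun _ _ => rfl }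
  have h := L.image_convexHull (range X)
  rw [← range_comp] at h
  exact h

theorem ae_law_mem (m N : ℕ) : ∀ᵐ X ∂(law m N), ∀ k, X k ∈ cube (m + 2) :=
  SA.ae_ulaw_mem (m + 2) N

/-- The surface area of the hull is a.e. measurable. -/
theorem aemeasurable_surf_hull (m N : ℕ) (hN : m + 3 ≤ N) :
    AEMeasurable (fun X : Fin N → P m => surf (convexHull ℝ (range X))) (law m N) :=
  SA.aemeasurable_surfR (m + 1) N hN

theorem surf_nonneg {m : ℕ} (K : Set (P m)) : 0 ≤ surf K := ENNReal.toReal_nonneg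

/-- Almost surely the surface area of the hull is at most that of the cube. -/
theorem ae_surf_hull_le (m N : ℕ) :
    ∀ᵐ X ∂(law m N), surf (convexHull ℝ (range X)) ≤ 2 * (m + 2) := by
  filter_upwards [ae_law_mem m N] with X hX
  refine surf_le_cube (convex_convexHull ℝ _) ((finite_range _).isCompact_convexHull (𝕜 := ℝ)) ?_
  exact convexHull_min (by rintro _ ⟨j, rfl⟩; exact hX j) (convex_Icc 0 1)

instance (d : ℕ) : IsProbabilityMeasure (unif d) := by
  unfold unif cube
  infer_instance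

instance (m N : ℕ) : IsProbabilityMeasure (law m N) := by
  unfold law
  infer_instance

/-- The surface area of the hull is square integrable. -/
theorem memLp_surf_hull (m N : ℕ) (hN : m + 3 ≤ N) (p : ℝ≥0∞) :
    MemLp (fun X : Fin N → P m => surf (convexHull ℝ (range X))) p (law m N) := by
  refine MemLp.of_bound (aemeasurable_surf_hull m N hN).aestronglyMeasurable (2 * (m + 2)) ?_
  filter_upwards [ae_surf_hull_le m N] with X hX
  rw [Real.norm_of_nonneg (surf_nonneg _)]
  exact hX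

theorem proj_small (m : ℕ) : ∃ C : ℝ, 0 < C ∧ ∀ N : ℕ, 1 ≤ N → ∀ k : Fin (m + 2),
    ∫⁻ X, ENNReal.ofReal ((1 - (volume (pr k '' convexHull ℝ (range X))).toReal) ^ 2) ∂(law m N) ≤
      ENNReal.ofReal (C / (N : ℝ) ^ ((3 : ℝ) / 2)) := by
  refine ⟨64 ^ (m + 1) * 2 ^ ((3 : ℝ) / 2), by positivity, fun N hN k => ?_⟩
  have hN0 : (0 : ℝ) < N := by exact_mod_cast hN
  obtain ⟨G, hGm, hG, hG2⟩ := SA.missed_dom (d := m + 1) hN 1
  have hmp : MeasurePreserving (fun (X : Fin N → P m) (j : Fin N) => pr k (X j)) (law m N)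
      (SA.ulaw (m + 1) N) := by
    exact measurePreserving_pi (fun _ => unif (m + 2)) _ fun _ => measurePreserving_pr k
  calc ∫⁻ X, ENNReal.ofReal ((1 - (volume (pr k '' convexHull ℝ (range X))).toReal) ^ 2) ∂(law m N)
      ≤ ∫⁻ X, G (fun j => pr k (X j)) ∂(law m N) := by
        refine lintegral_mono_ae ?_
        filter_upwards [ae_law_mem m N] with X hX
        rw [pr_image_convexHull]
        refine le_trans (le_of_eq ?_) (hG _)
        refine SA.one_sub_le_missed ((finite_range _).isCompact_convexHull (𝕜 := ℝ)).isClosed ?_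
        refine convexHull_min ?_ (convex_Icc 0 1)
        rintro _ ⟨j, rfl⟩
        exact ⟨fun i => (hX j).1 _, fun i => (hX j).2 _⟩
    _ = ∫⁻ Y, G Y ∂(SA.ulaw (m + 1) N) := hmp.lintegral_comp hGm
    _ ≤ _ := hG2
    _ = ENNReal.ofReal (64 ^ (m + 1) * 2 ^ ((3 : ℝ) / 2) / (N : ℝ) ^ ((3 : ℝ) / 2)) := by
        rw [← ENNReal.ofReal_pow (by positivity)]
        congr 1
        have e2 : ((N : ℝ) / ((1 : ℕ) + 1)) = N / 2 := by norm_num
        rw [e2, mul_pow, ← pow_mul, mul_comm (m + 1), pow_mul, ← Real.rpow_natCast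
          (((N : ℝ) / 2) ^ (-(3 / 4 : ℝ))), ← Real.rpow_mul (by positivity)]
        have e3 : ((N : ℝ) / 2) ^ (-(3 / 4 : ℝ) * ((1 + 1 : ℕ) : ℝ)) =
            2 ^ ((3 : ℝ) / 2) / (N : ℝ) ^ ((3 : ℝ) / 2) := by
          rw [show (-(3 / 4 : ℝ) * ((1 + 1 : ℕ) : ℝ)) = -((3 : ℝ) / 2) by norm_num,
            Real.div_rpow hN0.le (by norm_num), Real.rpow_neg hN0.le, Real.rpow_neg (by norm_num)]
          field_simp
        rw [e3]
        norm_num
        ring

end Pool.Agent.B05
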