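import Pool.Agent.Lib.MP_b05ae9_pr.Defs

/-!
# MP_b05ae9_pr, task E: almost every sample is in general position

The zero set of a continuous function which is polynomial on all lines and does not vanish
identically is a null set.
-/

set_option autoImplicit false

open MeasureTheory Set Filter Topology
open scoped ENNReal MeasureTheory

namespace Pool.Agent.B05

namespace GenPos

/-- Continuous, and polynomial on all lines. -/
def Good {E : Type*} [TopologicalSpace E] [AddCommGroup E] [Module ℝ E] (f : E → ℝ) : Prop :=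
  Continuous f ∧ ∀ x y : E, ∃ q : Polynomial ℝ, ∀ s : ℝ, f (x + s • y) = q.eval s

section
variable {E : Type*} [NormedAddCommGroup E] [NormedSpace ℝ E]

theorem good_const (c : ℝ) : Good (fun _ : E => c) :=
  ⟨continuous_const, fun _ _ => ⟨Polynomial.C c, fun s => by simp⟩⟩

theorem good_add {f g : E → ℝ} (hf : Good f) (hg : Good g) : Good (fun x => f x + g x) := by
  refine ⟨hf.1.add hg.1, fun x y => ?_⟩
  obtain ⟨p, hp⟩ := hf.2 x y
  obtain ⟨q, hq⟩ := hg.2 x y
  exact ⟨p + q, fun s => by simp [hp, hq]⟩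

theorem good_sub {f g : E → ℝ} (hf : Good f) (hg : Good g) : Good (fun x => f x - g x) := by
  refine ⟨hf.1.sub hg.1, fun x y => ?_⟩
  obtain ⟨p, hp⟩ := hf.2 x y
  obtain ⟨q, hq⟩ := hg.2 x y
  exact ⟨p - q, fun s => by simp [hp, hq]⟩

theorem good_mul {f g : E → ℝ} (hf : Good f) (hg : Good g) : Good (fun x => f x * g x) := by
  refine ⟨hf.1.mul hg.1, fun x y => ?_⟩
  obtain ⟨p, hp⟩ := hf.2 x y
  obtain ⟨q, hq⟩ := hg.2 x y
  exact ⟨p * q, fun s => by simp [hp, hq]⟩

theorem good_det {d : ℕ} {f : Fin d → Fin d → E → ℝ} (hf : ∀ i j, Good (f i j)) :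
    Good (fun x => Matrix.det (Matrix.of fun i j => f i j x)) := by
  refine ⟨?_, fun x y => ?_⟩
  · apply Continuous.matrix_det
    exact continuous_matrix fun i j => (hf i j).1
  · choose q hq using fun i j => (hf i j).2 x y
    refine ⟨Matrix.det (Matrix.of fun i j => q i j), fun s => ?_⟩
    have h := RingHom.map_det (Polynomial.evalRingHom s) (Matrix.of fun i j => q i j)
    rw [Polynomial.coe_evalRingHom] at h
    rw [h]
    refine congrArg Matrix.det ?_
    ext i j
    simp [hq]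

theorem ae_ne [FiniteDimensional ℝ E] [MeasurableSpace E] [BorelSpace E] (μ : Measure E)
    [μ.IsAddHaarMeasure] {f : E → ℝ} (hf : Good f) (h0 : ∃ x, f x ≠ 0) : ∀ᵐ x ∂μ, f x ≠ 0 := by
  obtain ⟨x0, hx0⟩ := h0
  have h1 : ∀ᵐ x ∂μ, ∀ᵐ s : ℝ, f (x0 + s • x) ≠ 0 := by
    refine Eventually.of_forall fun x => ?_
    obtain ⟨q, hq⟩ := hf.2 x0 x
    have hq0 : q ≠ 0 := by
      rintro rfl
      apply hx0
      simpa using hq 0
    have : {s : ℝ | f (x0 + s • x) = 0} ⊆ (q.roots.toFinset : Set ℝ) := by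
      intro s hs
      have hs' : f (x0 + s • x) = 0 := hs
      rw [hq] at hs'
      simp [hq0, hs']
    have hn : volume {s : ℝ | f (x0 + s • x) = 0} = 0 :=
      measure_mono_null this (Finset.measure_zero _ _)
    rw [ae_iff]
    simpa using hn
  have hmeas : MeasurableSet {p : E × ℝ | f (x0 + p.2 • p.1) ≠ 0} := by
    have hc : Continuous fun p : E × ℝ => f (x0 + p.2 • p.1) :=
      hf.1.comp (continuous_const.add (continuous_snd.smul continuous_fst))
    exact (isOpen_ne_fun hc continuous_const).measurableSet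
  have h2 : ∀ᵐ s : ℝ, ∀ᵐ x ∂μ, f (x0 + s • x) ≠ 0 := (Measure.ae_ae_comm hmeas).1 h1
  have h3 : ∀ᵐ s : ℝ, s ≠ 0 := by
    rw [ae_iff]
    simp
  obtain ⟨s, hs, hs0⟩ := (h2.and h3).exists
  rw [ae_iff] at hs ⊢
  have e1 : {x : E | ¬ f (x0 + s • x) ≠ 0} =
      (s • ·) ⁻¹' ((x0 + ·) ⁻¹' {x : E | ¬ f x ≠ 0}) := rfl
  rw [e1, Measure.addHaar_preimage_smul μ hs0, measure_preimage_add] at hs
  rcases mul_eq_zero.1 hs with h | h
  · exfalso
    rw [ENNReal.ofReal_eq_zero] at h
    have : 0 < |(s ^ Module.finrank ℝ E)⁻¹| := abs_pos.2 (inv_ne_zero (pow_ne_zero _ hs0))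
    linarith
  · exact h

end

/-- `0` and the unit vectors. -/
def vtx (d : ℕ) : Fin (d + 1) → (Fin d → ℝ) := Fin.cons 0 (fun i => Pi.single i 1)

theorem det_vtx (d : ℕ) : Matrix.det (Matrix.of fun i j : Fin (d + 1) =>
    (Fin.cons (1 : ℝ) (vtx d i) : Fin (d + 1) → ℝ) j) = 1 := by
  rw [Matrix.det_of_isLowerTriangular]
  · apply Finset.prod_eq_one
    intro i _
    refine Fin.cases ?_ (fun i => ?_) i
    · simp
    · simp [vtx]
  · intro i j hij
    have hij' : i < j := by simpa using hij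
    revert hij'
    refine Fin.cases ?_ (fun j => ?_) j
    · intro h; exact absurd h (Fin.not_lt_zero _)
    · refine Fin.cases ?_ (fun i => ?_) i
      · intro _; simp [vtx]
      · intro h
        have : i < j := by simpa using h
        simp [vtx, this.ne']

variable {m N : ℕ}

theorem good_coord (k : Fin N) (l : Fin (m + 2)) : Good (fun X : Fin N → P m => X k l) := by
  refine ⟨(continuous_apply l).comp (continuous_apply k), fun x y => ?_⟩
  refine ⟨Polynomial.C (x k l) + Polynomial.X * Polynomial.C (y k l), fun s => ?_⟩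
  simp only [Pi.add_apply, Pi.smul_apply, smul_eq_mul, Polynomial.eval_add, Polynomial.eval_C,
    Polynomial.eval_mul, Polynomial.eval_X]

theorem good_F (ι : Fin (m + 2) → Fin N) (k : Fin N) :
    Good (fun X : Fin N → P m => F (X ∘ ι) (X k)) := by
  unfold F
  refine good_det (f := fun i j (X : Fin N → P m) =>
    (Fin.cons (1 : ℝ) ((Fin.cons (X k) (X ∘ ι) : Fin (m + 3) → P m) i) : Fin (m + 3) → ℝ) j) ?_
  intro i j
  refine Fin.cases ?_ (fun j => ?_) j
  · simpa using good_const 1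
  · refine Fin.cases ?_ (fun i => ?_) i
    · simpa using good_coord k j
    · simpa using good_coord (ι i) j

theorem good_cf (ι : Fin (m + 2) → Fin N) (k : Fin (m + 2)) :
    Good (fun X : Fin N → P m => cf (X ∘ ι) k) := by
  unfold cf
  refine good_mul (good_const _) ?_
  refine good_det (f := fun i j (X : Fin N → P m) =>
    (Fin.cons (1 : ℝ) (pr k ((X ∘ ι) i)) : Fin (m + 2) → ℝ) j) ?_
  intro i j
  refine Fin.cases ?_ (fun j => ?_) j
  · simpa using good_const 1
  · simpa [pr] using good_coord (ι i) (k.succAbove j)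

theorem ex_F (ι : Fin (m + 2) → Fin N) (hι : Function.Injective ι) (k : Fin N)
    (hk : k ∉ range ι) : ∃ X : Fin N → P m, F (X ∘ ι) (X k) ≠ 0 := by
  have hσ : Function.Injective (Fin.cons k ι : Fin (m + 3) → Fin N) :=
    Fin.cons_injective_iff.2 ⟨hk, hι⟩
  refine ⟨Function.extend (Fin.cons k ι : Fin (m + 3) → Fin N) (vtx (m + 2)) 0, ?_⟩
  have h1 : ∀ i : Fin (m + 3), Function.extend (Fin.cons k ι : Fin (m + 3) → Fin N)
      (vtx (m + 2)) 0 ((Fin.cons k ι : Fin (m + 3) → Fin N) i) = vtx (m + 2) i :=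
    fun i => hσ.extend_apply _ _ i
  have h2 : (Fin.cons (Function.extend (Fin.cons k ι : Fin (m + 3) → Fin N) (vtx (m + 2)) 0 k)
      (Function.extend (Fin.cons k ι : Fin (m + 3) → Fin N) (vtx (m + 2)) 0 ∘ ι) :
        Fin (m + 3) → P m) = vtx (m + 2) := by
    funext i
    refine Fin.cases ?_ (fun i => ?_) i
    · simpa using h1 0
    · simpa using h1 i.succ
  unfold F
  rw [h2, det_vtx]
  norm_num

/-- `n` points with `q k = 0`, whose projections along `k` are `0` and the unit vectors -/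
def pts (m : ℕ) (k : Fin (m + 2)) : Fin (m + 2) → P m :=
  fun i => Fin.insertNth (α := fun _ => ℝ) k 0 (vtx (m + 1) i)

theorem cf_pts_self (k : Fin (m + 2)) : cf (pts m k) k ≠ 0 := by
  have h : ∀ i, pr k (pts m k i) = vtx (m + 1) i := by
    intro i
    funext l
    simp [pr, pts]
  unfold cf
  simp only [h]
  rw [det_vtx]
  simp

theorem cf_pts_ne (k l : Fin (m + 2)) (h : l ≠ k) : cf (pts m k) l = 0 := by
  unfold cf
  obtain ⟨j, hj⟩ := Fin.exists_succAbove_eq h.symm
  have : Matrix.det (Matrix.of fun i j : Fin (m + 2) =>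
    (Fin.cons (1 : ℝ) (pr l (pts m k i)) : Fin (m + 2) → ℝ) j) = 0 := by
    apply Matrix.det_eq_zero_of_column_eq_zero j.succ
    intro i
    simp [pr, hj, pts]
  rw [this, mul_zero]

theorem ex_ext (ι : Fin (m + 2) → Fin N) (hι : Function.Injective ι) (I : Fin (m + 2) → P m) :
    ∃ X : Fin N → P m, X ∘ ι = I :=
  ⟨Function.extend ι I 0, funext fun i => hι.extend_apply _ _ i⟩

theorem law_eq (m N : ℕ) : law m N =
    (volume : Measure (Fin N → P m)).restrict (Set.univ.pi fun _ => cube (m + 2)) := by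
  unfold law unif
  rw [volume_pi (α := fun _ : Fin N => P m), Measure.restrict_pi_pi]

end GenPos

open GenPos in
theorem ae_GP (m N : ℕ) : ∀ᵐ X ∂(law m N), GP X := by
  rw [law_eq]
  apply ae_restrict_of_ae
  have A : ∀ᵐ X : Fin N → P m, ∀ ι : Fin (m + 2) → Fin N, Function.Injective ι →
      ∀ k ∉ range ι, F (X ∘ ι) (X k) ≠ 0 := by
    rw [ae_all_iff]; intro ι
    rw [eventually_imp_distrib_left]; intro hι
    rw [ae_all_iff]; intro k
    rw [eventually_imp_distrib_left]; intro hk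
    exact ae_ne volume (good_F ι k) (ex_F ι hι k hk)
  have B : ∀ᵐ X : Fin N → P m, ∀ ι : Fin (m + 2) → Fin N, Function.Injective ι →
      ∀ k, cf (X ∘ ι) k ≠ 0 := by
    rw [ae_all_iff]; intro ι
    rw [eventually_imp_distrib_left]; intro hι
    rw [ae_all_iff]; intro k
    obtain ⟨X, hX⟩ := ex_ext ι hι (pts m k)
    exact ae_ne volume (good_cf ι k) ⟨X, by rw [hX]; exact cf_pts_self k⟩
  have C : ∀ᵐ X : Fin N → P m, ∀ ι : Fin (m + 2) → Fin N, Function.Injective ι →
      ∀ k l, k ≠ l → cf (X ∘ ι) k - cf (X ∘ ι) l ≠ 0 := by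
    rw [ae_all_iff]; intro ι
    rw [eventually_imp_distrib_left]; intro hι
    rw [ae_all_iff]; intro k
    rw [ae_all_iff]; intro l
    rw [eventually_imp_distrib_left]; intro hkl
    obtain ⟨X, hX⟩ := ex_ext ι hι (pts m k)
    exact ae_ne volume (good_sub (good_cf ι k) (good_cf ι l))
      ⟨X, by rw [hX, cf_pts_ne k l hkl.symm, sub_zero]; exact cf_pts_self k⟩
  have D : ∀ᵐ X : Fin N → P m, ∀ ι : Fin (m + 2) → Fin N, Function.Injective ι →
      ∀ k l, k ≠ l → cf (X ∘ ι) k + cf (X ∘ ι) l ≠ 0 := by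
    rw [ae_all_iff]; intro ι
    rw [eventually_imp_distrib_left]; intro hι
    rw [ae_all_iff]; intro k
    rw [ae_all_iff]; intro l
    rw [eventually_imp_distrib_left]; intro hkl
    obtain ⟨X, hX⟩ := ex_ext ι hι (pts m k)
    exact ae_ne volume (good_add (good_cf ι k) (good_cf ι l))
      ⟨X, by rw [hX, cf_pts_ne k l hkl.symm, add_zero]; exact cf_pts_self k⟩
  filter_upwards [A, B, C, D] with X hA hB hC hD
  refine ⟨hA, fun ι hι => ⟨hB ι hι, fun k l hkl habs => ?_⟩⟩
  rcases abs_eq_abs.1 habs with h | h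
  · exact hC ι hι k l hkl (sub_eq_zero.2 h)
  · exact hD ι hι k l hkl (by rw [h]; ring)

end Pool.Agent.B05
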