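import Pool.Agent.Lib.MP_b05ae9_pr.Alg
import Pool.Agent.Lib.MP_b05ae9_pr.Area
import Pool.Agent.Lib.MP_b05ae9_pr.GenPos
import Pool.Agent.Lib.MP_b05ae9_pr.G

/-!
# The remainder: empty boxes below a steep facet
-/

set_option autoImplicit false

open MeasureTheory Set Filter Topology
open scoped ENNReal MeasureTheory

namespace Pool.Agent.B05.Bad

/-- distance to the side `τ` -/
def ln (τ : Bool) (t : ℝ) : ℝ := if τ then 1 - t else t

/-- volume of the orthant box -/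
noncomputable def Dz {m : ℕ} (τ : Fin m → Bool) (z : Fin m → ℝ) : ℝ := ∏ l, ln (τ l) (z l)

/-- the coordinate along which we project -/
def kk {m : ℕ} (b : Bool) : Fin (m + 2) := if b then 0 else 1

/-- the other coordinate -/
def ii {m : ℕ} (b : Bool) : Fin (m + 2) := if b then 1 else 0

def Box {m : ℕ} (b : Bool) (A t : ℝ) (J : Fin m → Set ℝ) : Set (P m) :=
  {y | y (kk b) ∈ Ico 0 A ∧ y (ii b) ∈ Icc 0 (t / 2) ∧ ∀ l : Fin m, y l.succ.succ ∈ J l}

def J1 {m : ℕ} (τ : Fin m → Bool) (z : Fin m → ℝ) (l : Fin m) : Set ℝ :=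
  if τ l then Icc (z l) 1 else Icc 0 (z l)

def J2 {m : ℕ} (τ : Fin m → Bool) (z : Fin m → ℝ) (l : Fin m) : Set ℝ :=
  if τ l then Icc ((1 + z l) / 2) 1 else Icc 0 (z l / 2)

/-- The two boxes that must be empty. -/
def Rg {m : ℕ} (b : Bool) (τ : Fin m → Bool) (ρ : ℝ) (q : Fin (m + 1) → ℝ) : Set (P m) :=
  Box b (q 0 / 2) (q 0) (J1 τ fun l => q l.succ) ∪
  Box b (ρ * Dz τ (fun l : Fin m => q l.succ) / 4) (q 0) (J2 τ fun l => q l.succ)

theorem ln_nonneg {τ : Bool} {t : ℝ} (ht : 0 ≤ t ∧ t ≤ 1) : 0 ≤ ln τ t := by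
  cases τ <;> simp [ln] <;> linarith [ht.1, ht.2]

theorem ln_le_one {τ : Bool} {t : ℝ} (ht : 0 ≤ t ∧ t ≤ 1) : ln τ t ≤ 1 := by
  cases τ <;> simp [ln] <;> linarith [ht.1, ht.2]

theorem Dz_nonneg {m : ℕ} (τ : Fin m → Bool) {z : Fin m → ℝ} (hz : ∀ l, 0 ≤ z l ∧ z l ≤ 1) :
    0 ≤ Dz τ z :=
  Finset.prod_nonneg fun l _ => ln_nonneg (hz l)

theorem Dz_le_one {m : ℕ} (τ : Fin m → Bool) {z : Fin m → ℝ} (hz : ∀ l, 0 ≤ z l ∧ z l ≤ 1) :
    Dz τ z ≤ 1 :=
  Finset.prod_le_one (fun l _ => ln_nonneg (hz l)) fun l _ => ln_le_one (hz l)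

theorem Dz_le {m : ℕ} (τ : Fin m → Bool) {z : Fin m → ℝ} (hz : ∀ l, 0 ≤ z l ∧ z l ≤ 1)
    (l : Fin m) : Dz τ z ≤ ln (τ l) (z l) := by
  unfold Dz
  rw [← Finset.mul_prod_erase _ _ (Finset.mem_univ l)]
  refine mul_le_of_le_one_right (ln_nonneg (hz l)) ?_
  exact Finset.prod_le_one (fun l _ => ln_nonneg (hz l)) fun l _ => ln_le_one (hz l)

/-- the core inequality -/
theorem core {m : ℕ} (ak ai xk xi yk yi ρ D : ℝ) (γ : Fin m → ℝ) (x y : Fin m → ℝ)
    (hak : 0 < ak) (hai : ak ≤ ai) (hxk : 0 ≤ xk) (hxi : 0 ≤ xi)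
    (hx : ∀ l, 0 ≤ x l ∧ x l ≤ 1) (hD : D = Dz (fun l => decide (γ l ≤ 0)) x) (hρ : 0 ≤ ρ)
    (hbad : ak * ρ < ak * xk + ai * xi + ∑ l, |γ l|)
    (hy : (yk < xi / 2 ∧ yi ≤ xi / 2 ∧ ∀ l, y l ∈ J1 (fun l => decide (γ l ≤ 0)) x l) ∨
      (yk < ρ * D / 4 ∧ yi ≤ xi / 2 ∧ ∀ l, y l ∈ J2 (fun l => decide (γ l ≤ 0)) x l)) :
    ak * (yk - xk) + ai * (yi - xi) + ∑ l, γ l * (y l - x l) < 0 := by
  have hai0 : 0 < ai := hak.trans_le hai
  rcases hy with ⟨h1, h2, h3⟩ | ⟨h1, h2, h3⟩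
  · have hs : ∑ l, γ l * (y l - x l) ≤ 0 := by
      refine Finset.sum_nonpos fun l _ => ?_
      have := h3 l
      unfold J1 at this
      by_cases hγ : γ l ≤ 0
      · rw [if_pos (by simpa using hγ)] at this
        nlinarith [this.1]
      · rw [if_neg (by simpa using hγ)] at this
        nlinarith [this.2]
    nlinarith
  · have hD0 : 0 ≤ D := hD ▸ Dz_nonneg _ hx
    have hD1 : D ≤ 1 := hD ▸ Dz_le_one _ hx
    have hs : ∑ l, γ l * (y l - x l) ≤ - (D / 2) * ∑ l, |γ l| := by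
      rw [Finset.mul_sum]
      refine Finset.sum_le_sum fun l _ => ?_
      have h4 := h3 l
      have h5 : D ≤ ln (decide (γ l ≤ 0)) (x l) := hD ▸ Dz_le _ hx l
      unfold J2 at h4
      unfold ln at h5
      by_cases hγ : γ l ≤ 0
      · rw [if_pos (by simpa using hγ)] at h4 h5
        rw [abs_of_nonpos hγ]
        nlinarith [h4.1]
      · rw [if_neg (by simpa using hγ)] at h4 h5
        rw [abs_of_pos (not_le.mp hγ)]
        nlinarith [h4.2, not_le.mp hγ]
    have hΓ : 0 ≤ ∑ l, |γ l| := Finset.sum_nonneg fun l _ => abs_nonneg _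
    have h8 : ak * yk < ak * (ρ * D / 4) := mul_lt_mul_of_pos_left h1 hak
    have h9 : ai * (yi - xi) ≤ - (ai * xi / 2) := by nlinarith
    have h10 : (D / 2) * (ak * ρ) ≤ (D / 2) * (ak * xk + ai * xi + ∑ l, |γ l|) :=
      mul_le_mul_of_nonneg_left hbad.le (by linarith)
    have h11 : (D / 2) * (ak * xk) ≤ ak * xk := by
      have : 0 ≤ ak * xk := by positivity
      nlinarith
    have h12 : (D / 2) * (ai * xi) ≤ ai * xi / 2 := by
      have : 0 ≤ ai * xi := by positivity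
      nlinarith
    have h13 : 0 ≤ ak * (ρ * D) := by positivity
    nlinarith

theorem sum_split {m : ℕ} (b : Bool) (f : Fin (m + 2) → ℝ) :
    ∑ k, f k = f (kk b) + f (ii b) + ∑ l : Fin m, f l.succ.succ := by
  rw [Fin.sum_univ_succ, Fin.sum_univ_succ]
  cases b
  · simp only [kk, ii, Bool.false_eq_true, if_false]
    have : (Fin.succ (0 : Fin (m + 1))) = (1 : Fin (m + 2)) := rfl
    rw [this]; ring
  · simp only [kk, ii, if_true]
    have : (Fin.succ (0 : Fin (m + 1))) = (1 : Fin (m + 2)) := rfl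
    rw [this]; ring

theorem pr_zero {m : ℕ} (b : Bool) (x : P m) : pr (kk b) x 0 = x (ii b) := by
  cases b <;> rfl

theorem pr_succ {m : ℕ} (b : Bool) (x : P m) (l : Fin m) :
    pr (kk b) x l.succ = x l.succ.succ := by
  cases b
  · show x ((1 : Fin (m + 2)).succAbove l.succ) = _
    have h1 : (1 : Fin (m + 2)).succAbove l.succ = l.succ.succ := by
      have : (1 : Fin (m + 2)) = Fin.succ 0 := rfl
      rw [this, Fin.succ_succAbove_succ, Fin.zero_succAbove]
    rw [h1]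
  · show x ((0 : Fin (m + 2)).succAbove l.succ) = _
    rw [Fin.zero_succAbove]

/-- `F I` in terms of a point of the hyperplane -/
theorem F_sub {m : ℕ} (I : Fin (m + 2) → P m) (x y : P m) :
    F I y = F I x + ∑ k, cf I k * (y k - x k) := by
  rw [F_affine, F_affine]
  simp only [mul_sub, Finset.sum_sub_distrib]
  ring

theorem F_hull {m : ℕ} (I : Fin (m + 2) → P m) {x : P m} (hx : x ∈ convexHull ℝ (range I)) :
    F I x = 0 := by
  have hconv : Convex ℝ {x : P m | F I x = 0} := by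
    intro x hx y hy s t _ _ hst
    simp only [mem_ofPred_eq, F_affine] at hx hy ⊢
    have : ∑ k, cf I k * (s • x + t • y) k = s * (∑ k, cf I k * x k) + t * ∑ k, cf I k * y k := by
      rw [Finset.mul_sum, Finset.mul_sum, ← Finset.sum_add_distrib]
      refine Finset.sum_congr rfl fun k _ => ?_
      simp only [Pi.add_apply, Pi.smul_apply, smul_eq_mul]
      ring
    rw [this]
    have h1 : (Matrix.of I).det = (s + t) * (Matrix.of I).det := by rw [hst, one_mul]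
    rw [h1]
    linear_combination s * hx + t * hy
  have : convexHull ℝ (range I) ⊆ {x : P m | F I x = 0} :=
    convexHull_min (by rintro _ ⟨i, rfl⟩; exact F_self I i) hconv
  exact this hx

theorem geom {m : ℕ} (I : Fin (m + 2) → P m) (b : Bool) (hD : Dom (e0 m) I)
    (hb : |cf I (kk b)| ≤ |cf I (ii b)|) {x : P m} (hx : x ∈ convexHull ℝ (range I))
    (hxc : x ∈ cube (m + 2)) {ρ : ℝ} (hρ : 0 ≤ ρ) (hbad : ¬ U (e0 m) I ⊆ win (e0 m) ρ) :
    ∃ τ : Fin m → Bool, ∀ y ∈ cube (m + 2), y ∈ Rg b τ ρ (pr (kk b) x) → y ∈ U (e0 m) I := by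
  have hFx := F_hull I hx
  have hD1 : 0 < cf I 0 * cf I 1 := by
    have := hD.1
    simpa [e0, sg] using this
  have hD2 : ∀ l : Fin m, |cf I l.succ.succ| < |cf I 0| ∧ |cf I l.succ.succ| < |cf I 1| := by
    intro l
    exact hD.2 l.succ.succ (Fin.succ_ne_zero _) (by
      intro h
      have h' : (l.succ : Fin (m + 1)) = 0 := Fin.succ_injective _ h
      exact Fin.succ_ne_zero _ h')
  -- the sign
  obtain ⟨s, hs, hs0, hs1⟩ : ∃ s : ℝ, s * s = 1 ∧ s * cf I 0 = |cf I 0| ∧ s * cf I 1 = |cf I 1| := by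
    rcases pos_and_pos_or_neg_and_neg_of_mul_pos hD1 with ⟨h1, h2⟩ | ⟨h1, h2⟩
    · exact ⟨1, by norm_num, by rw [abs_of_pos h1, one_mul], by rw [abs_of_pos h2, one_mul]⟩
    · exact ⟨-1, by norm_num, by rw [abs_of_neg h1]; ring, by rw [abs_of_neg h2]; ring⟩
  have hc0 : cf I 0 ≠ 0 := left_ne_zero_of_mul hD1.ne'
  have hc1 : cf I 1 ≠ 0 := right_ne_zero_of_mul hD1.ne'
  have hsk : s * cf I (kk b) = |cf I (kk b)| := by cases b <;> simp [kk, hs0, hs1]
  have hsi : s * cf I (ii b) = |cf I (ii b)| := by cases b <;> simp [ii, hs0, hs1]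
  have hk0 : 0 < |cf I (kk b)| := by cases b <;> simp [kk, hc0, hc1]
  have hkl : ∀ l : Fin m, |cf I l.succ.succ| ≤ |cf I (kk b)| := by
    intro l; cases b <;> simp [kk, (hD2 l).1.le, (hD2 l).2.le]
  set γ : Fin m → ℝ := fun l => s * cf I l.succ.succ with hγ
  have habs : |s| = 1 := by
    have : |s| * |s| = 1 := by rw [← abs_mul, hs, abs_one]
    nlinarith [abs_nonneg s]
  have hγa : ∀ l, |γ l| = |cf I l.succ.succ| := fun l => by rw [hγ]; simp [abs_mul, habs]
  have hexp : ∀ y, s * F I y = |cf I (kk b)| * (y (kk b) - x (kk b)) +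
      |cf I (ii b)| * (y (ii b) - x (ii b)) +
      ∑ l : Fin m, γ l * (y l.succ.succ - x l.succ.succ) := by
    intro y
    rw [F_sub I x y, hFx, zero_add, sum_split b, mul_add, mul_add, Finset.mul_sum, ← hsk, ← hsi]
    simp only [hγ, mul_assoc]
  have hU : ∀ y, y ∈ U (e0 m) I ↔ y ∈ cube (m + 2) ∧ s * F I y < 0 := by
    intro y
    have h1 : F I y * cf I 0 = (s * F I y) * |cf I 0| := by
      rw [← hs0]
      calc F I y * cf I 0 = (s * s) * (F I y * cf I 0) := by rw [hs, one_mul]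
        _ = _ := by ring
    have h2 : 0 < |cf I 0| := abs_pos.mpr hc0
    have h3 : (0 < sg (e0 m).1.2.1 * (F I y * cf I (e0 m).1.1.1)) ↔ s * F I y < 0 := by
      show (0 < sg false * (F I y * cf I 0)) ↔ _
      rw [h1]
      simp only [sg, Bool.false_eq_true, if_false]
      constructor
      · intro h
        by_contra hcon
        have := mul_nonneg (not_lt.mp hcon) h2.le
        linarith
      · intro h
        have := mul_neg_of_neg_of_pos h h2
        linarith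
    simp only [U, mem_ofPred_eq]
    exact and_congr_right fun _ => h3
  have hcx : ∀ k, 0 ≤ x k ∧ x k ≤ 1 := fun k => ⟨hxc.1 k, hxc.2 k⟩
  -- badness
  obtain ⟨w, hwU, hw⟩ := not_subset.mp hbad
  obtain ⟨hwc, hwF⟩ := (hU w).mp hwU
  have hcw : ∀ k, 0 ≤ w k ∧ w k ≤ 1 := fun k => ⟨hwc.1 k, hwc.2 k⟩
  have hw' : ρ < w (kk b) ∨ ρ < w (ii b) := by
    by_contra hcon
    rw [not_or, not_lt, not_lt] at hcon
    apply hw
    refine ⟨hwc, ?_, ?_⟩
    · show dst false (w 0) ≤ ρ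
      cases b <;> simpa [dst, kk, ii] using (by first | exact hcon.1 | exact hcon.2)
    · show dst false (w 1) ≤ ρ
      cases b <;> simpa [dst, kk, ii] using (by first | exact hcon.1 | exact hcon.2)
  have hρw : |cf I (kk b)| * ρ ≤ |cf I (kk b)| * w (kk b) + |cf I (ii b)| * w (ii b) := by
    have h1 : 0 ≤ w (kk b) := (hcw _).1
    have h2 : 0 ≤ w (ii b) := (hcw _).1
    rcases hw' with h | h
    · nlinarith [mul_nonneg (abs_nonneg (cf I (ii b))) h2]
    · have h3 : |cf I (kk b)| * ρ ≤ |cf I (ii b)| * w (ii b) :=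
        mul_le_mul hb h.le hρ (abs_nonneg _)
      nlinarith [mul_nonneg hk0.le h1]
  have hbad' : |cf I (kk b)| * ρ <
      |cf I (kk b)| * x (kk b) + |cf I (ii b)| * x (ii b) + ∑ l, |γ l| := by
    have h1 : ∑ l : Fin m, γ l * (w l.succ.succ - x l.succ.succ) ≥ - ∑ l, |γ l| := by
      rw [ge_iff_le, ← Finset.sum_neg_distrib]
      refine Finset.sum_le_sum fun l _ => ?_
      have h2 : |γ l * (w l.succ.succ - x l.succ.succ)| ≤ |γ l| := by
        rw [abs_mul]
        refine mul_le_of_le_one_right (abs_nonneg _) ?_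
        rw [abs_le]
        constructor <;> linarith [(hcw l.succ.succ).1, (hcw l.succ.succ).2,
          (hcx l.succ.succ).1, (hcx l.succ.succ).2]
      linarith [neg_abs_le (γ l * (w l.succ.succ - x l.succ.succ))]
    rw [hexp w] at hwF
    nlinarith
  refine ⟨fun l => decide (γ l ≤ 0), fun y hyc hy => (hU y).mpr ⟨hyc, ?_⟩⟩
  rw [hexp y]
  have hz : ∀ l : Fin m, pr (kk b) x l.succ = x l.succ.succ := pr_succ b x
  refine core _ _ _ _ _ _ ρ (Dz _ fun l : Fin m => x l.succ.succ) γ (fun l => x l.succ.succ)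
    (fun l => y l.succ.succ) hk0 hb (hcx _).1 (hcx _).1 (fun l => hcx _) rfl hρ hbad' ?_
  rcases hy with ⟨h1, h2, h3⟩ | ⟨h1, h2, h3⟩
  · left
    simp only [pr_zero, hz] at h1 h2 h3
    exact ⟨h1.2, h2.2, h3⟩
  · right
    simp only [pr_zero, hz] at h1 h2 h3
    exact ⟨h1.2, h2.2, h3⟩

end Pool.Agent.B05.Bad
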