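import Pool.Agent.Lib.MP_b05ae9_pr.HullAux

/-! # MP_b05ae9_pr, task D2, part 1: lower facets have almost disjoint projections -/

set_option autoImplicit false

open MeasureTheory Set Filter Topology
open scoped ENNReal MeasureTheory

namespace Pool.Agent.B05

namespace SurfHull

/-- the facet functional vanishes on the facet -/
theorem F_zero_range {m N : ℕ} (X : Fin N → P m) (ι : Fin (m + 2) → Fin N) (x : P m)
    (hx : x ∈ convexHull ℝ (range (X ∘ ι))) : F (X ∘ ι) x = 0 := by
  refine F_zero_of_mem X ι (Finset.univ.image ι) subset_rfl x ?_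
  rw [image_range]
  exact hx

/-- along the direction `k` -/
theorem F_diff {m : ℕ} (I : Fin (m + 2) → P m) (k : Fin (m + 2)) (x y : P m)
    (h : pr k x = pr k y) : F I y - F I x = cf I k * (y k - x k) := by
  obtain ⟨c, hc⟩ := F_aff I
  rw [hc, hc, add_sub_add_left_eq_sub, ← Finset.sum_sub_distrib]
  rw [Finset.sum_eq_single k]
  · ring
  · intro l _ hl
    obtain ⟨l', rfl⟩ := Fin.exists_succAbove_eq hl
    have : x (k.succAbove l') = y (k.succAbove l') := congrFun h l'
    rw [this, sub_self]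
  · simp

/-- sign of the facet functional on the hull -/
theorem sign_on_hull {m N : ℕ} (X : Fin N → P m) (ι : Fin (m + 2) → Fin N) (s : ℝ)
    (h1 : ∀ p ∉ range ι, 0 < F (X ∘ ι) (X p) * s) (y : P m)
    (hy : y ∈ convexHull ℝ (range X)) : 0 ≤ F (X ∘ ι) y * s := by
  have hy' : y ∈ convexHull ℝ (X '' ((Finset.univ : Finset (Fin N)) : Set (Fin N))) := by
    rwa [Finset.coe_univ, image_univ]
  obtain ⟨w, hw1, -, hw3, rfl⟩ := (mem_hull X _ y).1 hy'
  rw [F_comb _ _ _ hw3, Finset.sum_mul]
  refine Finset.sum_nonneg fun i _ => ?_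
  rw [mul_assoc]
  refine mul_nonneg (hw1 i) ?_
  by_cases hi : i ∈ range ι
  · obtain ⟨l, rfl⟩ := hi
    have : F (X ∘ ι) (X (ι l)) = 0 := F_self' (X ∘ ι) l
    rw [this, zero_mul]
  · exact (h1 i hi).le

/-- a lower facet is below the hull -/
theorem lower_le {m N : ℕ} (X : Fin N → P m) (hX : GP X) (k : Fin (m + 2))
    (ι : Fin (m + 2) → Fin N) (hι : StrictMono ι)
    (h1 : ∀ p ∉ range ι, 0 < F (X ∘ ι) (X p) * cf (X ∘ ι) k) (x y : P m)
    (hx : x ∈ convexHull ℝ (range (X ∘ ι))) (hy : y ∈ convexHull ℝ (range X))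
    (h : pr k x = pr k y) : x k ≤ y k := by
  have h2 := sign_on_hull X ι _ h1 y hy
  have h3 := F_diff (X ∘ ι) k x y h
  rw [F_zero_range X ι x hx, sub_zero] at h3
  rw [h3] at h2
  have hcf := (hX.2 ι hι.injective).1 k
  have hpos : 0 < cf (X ∘ ι) k ^ 2 := by positivity
  by_contra hlt
  push Not at hlt
  have : cf (X ∘ ι) k * (y k - x k) * cf (X ∘ ι) k = cf (X ∘ ι) k ^ 2 * (y k - x k) := by ring
  rw [this] at h2
  have h4 := mul_neg_of_pos_of_neg hpos (sub_neg.2 hlt)
  linarith

theorem eq_of_pr {m : ℕ} (k : Fin (m + 2)) (x y : P m) (h : pr k x = pr k y) (hk : x k = y k) :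
    x = y := by
  ext l
  by_cases hl : l = k
  · rw [hl, hk]
  · obtain ⟨l', rfl⟩ := Fin.exists_succAbove_eq hl
    exact congrFun h l'

/-- the projection of a hull -/
theorem pr_image_hull {m N : ℕ} (X : Fin N → P m) (k : Fin (m + 2)) (J : Set (Fin N)) :
    pr k '' convexHull ℝ (X '' J) = convexHull ℝ ((pr k ∘ X) '' J) := by
  have := (prL (m := m) k).image_convexHull (X '' J)
  rw [image_comp]
  exact this

/-- the intersection of two different tuples -/
theorem card_inter {m N : ℕ} (ι κ : Fin (m + 2) → Fin N) (hι : StrictMono ι) (hκ : StrictMono κ)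
    (hne : ι ≠ κ) :
    ((Finset.univ.image ι ∩ Finset.univ.image κ : Finset (Fin N))).card ≤ m + 1 := by
  classical
  by_contra hc
  push Not at hc
  have h1 : (Finset.univ.image ι ∩ Finset.univ.image κ : Finset (Fin N)) =
      Finset.univ.image ι := by
    refine Finset.eq_of_subset_of_card_le Finset.inter_subset_left ?_
    rw [card_image hι]
    omega
  have h2 : (Finset.univ.image ι ∩ Finset.univ.image κ : Finset (Fin N)) =
      Finset.univ.image κ := by
    refine Finset.eq_of_subset_of_card_le Finset.inter_subset_right ?_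
    rw [card_image hκ]
    omega
  apply hne
  have h3 : range ι = range κ := by
    have := h1.symm.trans h2
    have h4 := congrArg (fun s : Finset (Fin N) => (s : Set (Fin N))) this
    simpa using h4
  exact (StrictMono.range_inj hι hκ).1 h3

end SurfHull

open SurfHull in
/-- lower facets have almost disjoint projections -/
theorem lower_disjoint {m N : ℕ} (X : Fin N → P m) (hX : GP X) (k : Fin (m + 2))
    (ι κ : Fin (m + 2) → Fin N) (hι : StrictMono ι) (hκ : StrictMono κ) (hne : ι ≠ κ)
    (h1 : ∀ p ∉ range ι, 0 < F (X ∘ ι) (X p) * cf (X ∘ ι) k)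
    (h2 : ∀ p ∉ range κ, 0 < F (X ∘ κ) (X p) * cf (X ∘ κ) k) :
    volume ((pr k '' convexHull ℝ (range (X ∘ ι))) ∩ (pr k '' convexHull ℝ (range (X ∘ κ)))) = 0 := by
  classical
  have hsub : (pr k '' convexHull ℝ (range (X ∘ ι))) ∩ (pr k '' convexHull ℝ (range (X ∘ κ))) ⊆
      convexHull ℝ ((pr k ∘ X) ''
        ((Finset.univ.image ι ∩ Finset.univ.image κ : Finset (Fin N)) : Set (Fin N))) := by
    rintro _ ⟨⟨x, hx, rfl⟩, ⟨y, hy, hxy⟩⟩
    have hxX : x ∈ convexHull ℝ (range X) := convexHull_mono (range_comp_subset_range ι X) hx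
    have hyX : y ∈ convexHull ℝ (range X) := convexHull_mono (range_comp_subset_range κ X) hy
    have e1 := lower_le X hX k ι hι h1 x y hx hyX hxy.symm
    have e2 := lower_le X hX k κ hκ h2 y x hy hxX hxy
    have hEq : x = y := eq_of_pr k x y hxy.symm (le_antisymm e1 e2)
    subst hEq
    rw [← pr_image_hull]
    refine ⟨x, ?_, rfl⟩
    rw [← image_range] at hy
    refine mem_face X (Finset.univ.image κ) (fun q => -(F (X ∘ ι) q * cf (X ∘ ι) k))
      (fun w hw => ?_) (fun i _ => ?_) x hy ?_ _ (fun i hi hi0 => ?_)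
    · rw [F_comb _ _ _ hw, Finset.sum_mul, ← Finset.sum_neg_distrib]
      exact Finset.sum_congr rfl fun i _ => by ring
    · have := sign_on_hull X ι _ h1 (X i) (subset_convexHull ℝ _ ⟨i, rfl⟩)
      linarith
    · rw [F_zero_range X ι x hx, zero_mul, neg_zero]
    · refine Finset.mem_inter.2 ⟨?_, hi⟩
      by_contra hni
      have hni' : i ∉ range ι := by
        rintro ⟨l, rfl⟩
        exact hni (Finset.mem_image_of_mem ι (Finset.mem_univ l))
      have := h1 i hni'
      linarith
  refine measure_mono_null hsub ?_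
  exact volume_hull_few _ _ (card_inter ι κ hι hκ hne)

end Pool.Agent.B05
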