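import Pool.Agent.Lib.MP_b05ae9_pr.GenPos

/-!
# MP_b05ae9_pr, task B: the volume of a simplex
-/

set_option autoImplicit false

open MeasureTheory Set Filter Topology
open scoped ENNReal MeasureTheory Pointwise

namespace Pool.Agent.B05

namespace Vol

/-- The standard corner simplex of size `s`. -/
def T (d : ℕ) (s : ℝ) : Set (Fin d → ℝ) := {x | (∀ i, 0 ≤ x i) ∧ ∑ i, x i ≤ s}

theorem isClosed_T (d : ℕ) (s : ℝ) : IsClosed (T d s) := by
  have h1 : IsClosed {x : Fin d → ℝ | ∀ i, 0 ≤ x i} := by
    simp only [Set.ofPred_forall]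
    exact isClosed_iInter fun i => isClosed_le continuous_const (continuous_apply i)
  exact h1.inter (isClosed_le (continuous_finsetSum _ fun i _ => continuous_apply i)
    continuous_const)

theorem volume_T (d : ℕ) : ∀ s : ℝ, 0 ≤ s → volume (T d s) = ENNReal.ofReal (s ^ d / d.factorial) := by
  induction d with
  | zero =>
    intro s hs
    have : T 0 s = univ := by
      ext x; simp [T, hs]
    rw [this]
    simp [volume_pi]
  | succ d ih =>
    intro s hs
    have hmp := volume_preserving_piFinSuccAbove (fun _ : Fin (d + 1) => ℝ) 0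
    let S : Set (ℝ × (Fin d → ℝ)) := {p | 0 ≤ p.1 ∧ (∀ i, 0 ≤ p.2 i) ∧ p.1 + ∑ i, p.2 i ≤ s}
    have hS : MeasurableSet S := by
      refine IsClosed.measurableSet ?_
      have h1 : IsClosed {p : ℝ × (Fin d → ℝ) | ∀ i, 0 ≤ p.2 i} := by
        simp only [Set.ofPred_forall]
        exact isClosed_iInter fun i => isClosed_le continuous_const
          ((continuous_apply i).comp continuous_snd)
      exact (isClosed_le continuous_const continuous_fst).inter (h1.inter
        (isClosed_le (continuous_fst.add (continuous_finsetSum _ fun i _ =>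
          (continuous_apply i).comp continuous_snd)) continuous_const))
    have h1 : T (d + 1) s = (MeasurableEquiv.piFinSuccAbove (fun _ : Fin (d + 1) => ℝ) 0) ⁻¹' S := by
      ext x
      simp only [T, S, mem_preimage, Set.mem_ofPred_eq, Fin.forall_fin_succ, Fin.sum_univ_succ]
      simp [MeasurableEquiv.piFinSuccAbove, Fin.insertNthEquiv, Fin.tail, and_assoc]
    rw [h1, hmp.measure_preimage hS.nullMeasurableSet, Measure.volume_eq_prod,
      Measure.prod_apply hS]
    have h2 : ∀ t : ℝ, volume (Prod.mk t ⁻¹' S) =
        (Icc 0 s).indicator (fun t => ENNReal.ofReal ((s - t) ^ d / d.factorial)) t := by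
      intro t
      by_cases ht : t ∈ Icc 0 s
      · rw [indicator_of_mem ht, ← ih (s - t) (by linarith [ht.2])]
        congr 1
        ext y
        simp only [S, T, mem_preimage, Set.mem_ofPred_eq]
        constructor
        · rintro ⟨-, h, h'⟩; exact ⟨h, by linarith⟩
        · rintro ⟨h, h'⟩; exact ⟨ht.1, h, by linarith⟩
      · rw [indicator_of_notMem ht]
        have : Prod.mk t ⁻¹' S = ∅ := by
          ext y
          simp only [S, mem_preimage, Set.mem_ofPred_eq, mem_empty_iff_false, iff_false]
          rintro ⟨h, h', h''⟩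
          apply ht
          have := Finset.sum_nonneg fun i (_ : i ∈ Finset.univ) => h' i
          exact ⟨h, by linarith⟩
        rw [this, measure_empty]
    simp only [h2]
    rw [lintegral_indicator measurableSet_Icc, ← ofReal_integral_eq_lintegral_ofReal]
    · congr 1
      rw [integral_Icc_eq_integral_Ioc, ← intervalIntegral.integral_of_le hs,
        intervalIntegral.integral_comp_sub_left (fun x => x ^ d / (d.factorial : ℝ)) s]
      rw [intervalIntegral.integral_div, integral_pow, Nat.factorial_succ]
      have : (d.factorial : ℝ) ≠ 0 := by exact_mod_cast d.factorial_ne_zero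
      have h3 : ((d : ℝ) + 1) ≠ 0 := by positivity
      push_cast
      field_simp
      simp
    · refine ContinuousOn.integrableOn_Icc ?_
      fun_prop
    · refine (ae_restrict_iff' measurableSet_Icc).2 (Eventually.of_forall fun t ht => ?_)
      have : 0 ≤ s - t := by linarith [ht.2]
      simp only [Pi.zero_apply]
      positivity

theorem convexHull_vtx (d : ℕ) : convexHull ℝ (range (GenPos.vtx d)) = T d 1 := by
  apply Subset.antisymm
  · refine convexHull_min ?_ ?_
    · rintro _ ⟨i, rfl⟩
      refine Fin.cases ?_ (fun i => ?_) i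
      · simp [T, GenPos.vtx]
      · refine ⟨fun j => ?_, ?_⟩
        · simp only [GenPos.vtx, Fin.cons_succ, Pi.single_apply]
          split_ifs <;> norm_num
        · simp [GenPos.vtx]
    · intro x hx y hy a b ha hb hab
      refine ⟨fun i => ?_, ?_⟩
      · have := hx.1 i
        have := hy.1 i
        simp only [Pi.add_apply, Pi.smul_apply, smul_eq_mul]
        positivity
      · simp only [Pi.add_apply, Pi.smul_apply, smul_eq_mul, Finset.sum_add_distrib,
          ← Finset.mul_sum]
        nlinarith [hx.2, hy.2]
  · intro x hx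
    have h := (convex_convexHull ℝ (range (GenPos.vtx d))).sum_mem
      (t := Finset.univ) (w := (Fin.cons (1 - ∑ i, x i) x : Fin (d + 1) → ℝ))
      (z := GenPos.vtx d) ?_ ?_ ?_
    · convert h using 1
      rw [Fin.sum_univ_succ]
      funext j
      simp [GenPos.vtx, Finset.sum_apply, Pi.single_apply]
    · intro i _
      refine Fin.cases ?_ (fun i => ?_) i
      · have := hx.2
        simp only [Fin.cons_zero]; linarith
      · simpa using hx.1 i
    · rw [Fin.sum_univ_succ]; simp
    · intro i _
      exact subset_convexHull _ _ (mem_range_self i)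

theorem det_sub (d : ℕ) (a : Fin (d + 1) → (Fin d → ℝ)) :
    Matrix.det (Matrix.of fun i j : Fin (d + 1) => (Fin.cons (1 : ℝ) (a i) : Fin (d + 1) → ℝ) j) =
      Matrix.det (Matrix.of fun i j : Fin d => a i.succ j - a 0 j) := by
  rw [Matrix.det_eq_of_forall_row_eq_smul_add_const
    (B := Matrix.of fun i j : Fin (d + 1) => (Fin.cons (Fin.cons (1 : ℝ) (a 0) : Fin (d + 1) → ℝ)
      (fun i => (Fin.cons (0 : ℝ) (fun j => a i.succ j - a 0 j) : Fin (d + 1) → ℝ)) :
        Fin (d + 1) → Fin (d + 1) → ℝ) i j)
    (Fin.cons 0 (fun _ => 1)) 0 rfl]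
  · rw [Matrix.det_succ_column_zero, Fin.sum_univ_succ]
    simp only [Matrix.of_apply, Fin.cons_succ, Fin.cons_zero, mul_zero, zero_mul,
      Finset.sum_const_zero, add_zero]
    simp only [Fin.val_zero, pow_zero, one_mul]
    rfl
  · intro i j
    refine Fin.cases ?_ (fun i => ?_) i
    · simp
    · refine Fin.cases ?_ (fun j => ?_) j
      · simp
      · simp

end Vol

open Vol

theorem volume_simplex (d : ℕ) (a : Fin (d + 1) → (Fin d → ℝ)) :
    volume (convexHull ℝ (range a)) = ENNReal.ofReal (|Matrix.det (Matrix.of fun i j : Fin (d + 1) =>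
      (Fin.cons (1 : ℝ) (a i) : Fin (d + 1) → ℝ) j)| / d.factorial) := by
  set A : Matrix (Fin d) (Fin d) ℝ := Matrix.of fun i j => a i.succ j - a 0 j with hA
  set L : (Fin d → ℝ) →ₗ[ℝ] (Fin d → ℝ) := Matrix.toLin' A.transpose with hL
  have hLi : ∀ i, L (Pi.single i 1) = a i.succ - a 0 := by
    intro i
    funext j
    simp [hL, hA, Matrix.toLin'_apply, Matrix.mulVec_single]
  have h1 : range a = a 0 +ᵥ (L '' range (GenPos.vtx d)) := by
    rw [← image_vadd, ← range_comp, ← range_comp]
    congr 1
    funext i
    refine Fin.cases ?_ (fun i => ?_) i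
    · simp [GenPos.vtx]
    · simp [GenPos.vtx, hLi]
  have h2 : convexHull ℝ (range a) = a 0 +ᵥ (L '' T d 1) := by
    rw [h1, ← convexHull_vtx, L.image_convexHull, convexHull_vadd]
  rw [h2, measure_vadd, Measure.addHaar_image_linearMap, volume_T d 1 zero_le_one,
    hL, LinearMap.det_toLin', Matrix.det_transpose, det_sub,
    ← ENNReal.ofReal_mul (abs_nonneg _), one_pow]
  congr 1
  ring

theorem volume_pr {m : ℕ} (I : Fin (m + 2) → P m) (k : Fin (m + 2)) :
    volume (pr k '' convexHull ℝ (range I)) = ENNReal.ofReal (|cf I k| / (m + 1).factorial) := by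
  let L : P m →ₗ[ℝ] (Fin (m + 1) → ℝ) := LinearMap.funLeft ℝ ℝ k.succAbove
  have h : pr k '' convexHull ℝ (range I) = convexHull ℝ (range fun i => pr k (I i)) := by
    have := L.image_convexHull (range I)
    rw [← range_comp] at this
    exact this
  rw [h, volume_simplex]
  congr 2
  unfold cf
  rw [abs_mul, abs_pow, abs_neg, abs_one, one_pow, one_mul]

end Pool.Agent.B05
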