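import Pool.Agent.Lib.MP_b05ae9_pr.Bad1
import Pool.Agent.Lib.MP_b05ae9_pr.Vol
import Pool.Agent.Lib.MP_b05ae9_pr.LowerDisjoint

/-!
# The remainder: the bad part is bounded by the measure of a random set
-/

set_option autoImplicit false

open MeasureTheory Set Filter Topology
open scoped ENNReal MeasureTheory

namespace Pool.Agent.B05.Bad

theorem phi_nonneg {m : ℕ} (I : Fin (m + 2) → P m) : 0 ≤ phi I := by
  unfold phi nrm
  refine div_nonneg (sub_nonneg.mpr ?_) (Nat.cast_nonneg _)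
  rw [Real.sqrt_le_left (Finset.sum_nonneg fun k _ => abs_nonneg _)]
  calc ∑ k, cf I k ^ 2 = ∑ k, |cf I k| * |cf I k| := by
        refine Finset.sum_congr rfl fun k _ => ?_
        rw [← sq, sq_abs]
    _ ≤ ∑ k, |cf I k| * ∑ l, |cf I l| := by
        refine Finset.sum_le_sum fun k _ => mul_le_mul_of_nonneg_left ?_ (abs_nonneg _)
        exact Finset.single_le_sum (f := fun l => |cf I l|) (fun l _ => abs_nonneg _)
          (Finset.mem_univ k)
    _ = (∑ k, |cf I k|) ^ 2 := by rw [← Finset.sum_mul, sq]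

theorem abs_le_nrm {m : ℕ} (I : Fin (m + 2) → P m) (k : Fin (m + 2)) : |cf I k| ≤ nrm I := by
  unfold nrm
  apply Real.abs_le_sqrt
  exact Finset.single_le_sum (f := fun l => cf I l ^ 2) (fun l _ => sq_nonneg _)
    (Finset.mem_univ k)

theorem phi_le {m : ℕ} (I : Fin (m + 2) → P m) (b : Bool) (hD : Dom (e0 m) I) :
    phi I ≤ (m + 1) * (|cf I (kk b)| / (m + 1).factorial) := by
  have hD2 : ∀ l : Fin m, |cf I l.succ.succ| ≤ |cf I (kk b)| := by
    intro l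
    have := hD.2 l.succ.succ (Fin.succ_ne_zero _) (by
      intro h
      have h' : (l.succ : Fin (m + 1)) = 0 := Fin.succ_injective _ h
      exact Fin.succ_ne_zero _ h')
    cases b
    · exact this.2.le
    · exact this.1.le
  unfold phi
  rw [← mul_div_assoc]
  refine div_le_div_of_nonneg_right ?_ (Nat.cast_nonneg _)
  rw [sum_split b]
  have h1 : ∑ l : Fin m, |cf I l.succ.succ| ≤ m * |cf I (kk b)| := by
    calc ∑ l : Fin m, |cf I l.succ.succ| ≤ ∑ _l : Fin m, |cf I (kk b)| :=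
          Finset.sum_le_sum fun l _ => hD2 l
      _ = m * |cf I (kk b)| := by simp
  have h2 := abs_le_nrm I (ii b)
  nlinarith

/-- the random set -/
def Eb {m N : ℕ} (b : Bool) (ρ : ℝ) (X : Fin N → P m) : Set (Fin (m + 1) → ℝ) :=
  {q | q ∈ cube (m + 1) ∧ ∃ τ : Fin m → Bool, ∀ p, X p ∉ Rg b τ ρ q}

theorem pr_cube {m : ℕ} (k : Fin (m + 2)) {x : P m} (hx : x ∈ cube (m + 2)) :
    pr k x ∈ cube (m + 1) := ⟨fun l => hx.1 _, fun l => hx.2 _⟩

theorem hull_cube {m N : ℕ} {X : Fin N → P m} (hc : ∀ k, X k ∈ cube (m + 2)) :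
    convexHull ℝ (range X) ⊆ cube (m + 2) :=
  convexHull_min (by rintro _ ⟨k, rfl⟩; exact hc k) (convex_Icc _ _)

theorem not_U_of_mem {m : ℕ} (e : Edge m) (I : Fin (m + 2) → P m) (i : Fin (m + 2)) :
    I i ∉ U e I := by
  rintro ⟨-, h⟩
  rw [F_self] at h
  simp at h

open Classical in
theorem DB_le {m N : ℕ} (X : Fin N → P m) (hX : GP X) (hc : ∀ k, X k ∈ cube (m + 2)) {ρ : ℝ}
    (hρ : 0 ≤ ρ) : ENNReal.ofReal (DB (e0 m) ρ X) ≤
      (m + 1) * ∑ b : Bool, volume (Eb b ρ X) := by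
  set S : Finset (Fin (m + 2) → Fin N) := Finset.univ.filter
    (fun ι => StrictMono ι ∧ (∀ k ∉ range ι, X k ∉ U (e0 m) (X ∘ ι)) ∧ Dom (e0 m) (X ∘ ι) ∧
      ¬ U (e0 m) (X ∘ ι) ⊆ win (e0 m) ρ) with hS
  have hmemS : ∀ ι, ι ∈ S ↔ StrictMono ι ∧ (∀ k ∉ range ι, X k ∉ U (e0 m) (X ∘ ι)) ∧
      Dom (e0 m) (X ∘ ι) ∧ ¬ U (e0 m) (X ∘ ι) ⊆ win (e0 m) ρ := by
    intro ι; simp [hS]
  have hDB : DB (e0 m) ρ X = ∑ ι ∈ S, phi (X ∘ ι) := by
    unfold DB Sm gB
    rw [hS, Finset.sum_filter, Finset.sum_filter]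
    refine Finset.sum_congr rfl fun ι _ => ?_
    by_cases h1 : StrictMono ι
    · by_cases h2 : ∀ k ∉ range ι, X k ∉ U (e0 m) (X ∘ ι)
      · by_cases h3 : Dom (e0 m) (X ∘ ι) ∧ ¬ U (e0 m) (X ∘ ι) ⊆ win (e0 m) ρ
        · rw [if_pos h1, if_pos h2, if_pos h3, if_pos ⟨h1, h2, h3.1, h3.2⟩]
        · rw [if_pos h1, if_pos h2, if_neg h3, if_neg (fun h => h3 h.2.2)]
      · rw [if_pos h1, if_neg h2, if_neg (fun h => h2 h.2.1)]
    · rw [if_neg h1, if_neg (fun h => h1 h.1)]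
  -- the sign condition
  have hpos : ∀ ι ∈ S, ∀ b : Bool, ∀ p ∉ range ι, 0 < F (X ∘ ι) (X p) * cf (X ∘ ι) (kk b) := by
    intro ι hι b p hp
    obtain ⟨h1, h2, h3, -⟩ := (hmemS ι).mp hι
    have hF := hX.1 ι h1.injective p hp
    have hD1 : 0 < cf (X ∘ ι) 0 * cf (X ∘ ι) 1 := by
      have := h3.1
      simpa [e0, sg] using this
    have h4 : 0 ≤ F (X ∘ ι) (X p) * cf (X ∘ ι) 0 := by
      by_contra hcon
      refine h2 p hp ⟨hc p, ?_⟩
      show 0 < sg false * (F (X ∘ ι) (X p) * cf (X ∘ ι) 0)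
      simp only [sg, Bool.false_eq_true, if_false]
      linarith [not_le.mp hcon]
    have hc0 : cf (X ∘ ι) 0 ≠ 0 := left_ne_zero_of_mul hD1.ne'
    have hc1 : cf (X ∘ ι) 1 ≠ 0 := right_ne_zero_of_mul hD1.ne'
    have h5 : 0 < F (X ∘ ι) (X p) * cf (X ∘ ι) 0 := lt_of_le_of_ne h4 (mul_ne_zero hF hc0).symm
    cases b
    · show 0 < F (X ∘ ι) (X p) * cf (X ∘ ι) 1
      by_contra hcon
      have h6 := not_lt.mp hcon
      have h7 : (F (X ∘ ι) (X p) * cf (X ∘ ι) 0) * (F (X ∘ ι) (X p) * cf (X ∘ ι) 1) ≤ 0 :=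
        mul_nonpos_of_nonneg_of_nonpos h4 h6
      have h8 : 0 < (F (X ∘ ι) (X p)) ^ 2 * (cf (X ∘ ι) 0 * cf (X ∘ ι) 1) := by positivity
      nlinarith
    · exact h5
  -- the choice of the coordinate
  set bb : (Fin (m + 2) → Fin N) → Bool := fun ι =>
    decide (|cf (X ∘ ι) 0| ≤ |cf (X ∘ ι) 1|) with hbb
  have hbb' : ∀ ι, |cf (X ∘ ι) (kk (bb ι))| ≤ |cf (X ∘ ι) (ii (bb ι))| := by
    intro ι
    by_cases h : |cf (X ∘ ι) 0| ≤ |cf (X ∘ ι) 1|
    · have : bb ι = true := by simp [hbb, h]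
      rw [this]; exact h
    · have : bb ι = false := by simp [hbb, h]
      rw [this]; exact (not_le.mp h).le
  set A : Bool → (Fin (m + 2) → Fin N) → Set (Fin (m + 1) → ℝ) := fun b ι =>
    pr (kk b) '' convexHull ℝ (range (X ∘ ι)) with hA
  have hphi : ∀ ι ∈ S, ENNReal.ofReal (phi (X ∘ ι)) ≤ (m + 1) * volume (A (bb ι) ι) := by
    intro ι hι
    obtain ⟨-, -, h3, -⟩ := (hmemS ι).mp hι
    rw [hA]
    simp only
    rw [volume_pr]
    have h4 : ((m : ℝ≥0∞) + 1) = ENNReal.ofReal ((m : ℝ) + 1) := by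
      rw [ENNReal.ofReal_add (Nat.cast_nonneg _) zero_le_one]; simp
    rw [h4, ← ENNReal.ofReal_mul (by positivity)]
    exact ENNReal.ofReal_le_ofReal (phi_le _ _ h3)
  have hmeas : ∀ b ι, MeasurableSet (A b ι) := by
    intro b ι
    have h1 : IsCompact (convexHull ℝ (range (X ∘ ι))) :=
      (Set.finite_range _).isCompact_convexHull ℝ
    have h2 : Continuous (pr (m := m) (kk b)) := continuous_pi fun l => continuous_apply _
    exact (h1.image h2).isClosed.measurableSet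
  have hsub : ∀ b, ∀ ι ∈ S, bb ι = b → A b ι ⊆ Eb b ρ X := by
    rintro b ι hι hb _ ⟨x, hx, rfl⟩
    obtain ⟨h1, h2, h3, h4⟩ := (hmemS ι).mp hι
    have hxc : x ∈ cube (m + 2) := hull_cube (X := X ∘ ι) (fun k => hc _) hx
    obtain ⟨τ, hτ⟩ := geom (X ∘ ι) b h3 (hb ▸ hbb' ι) hx hxc hρ h4
    refine ⟨pr_cube _ hxc, τ, fun p hp => ?_⟩
    have hU := hτ (X p) (hc p) hp
    by_cases hpr : p ∈ range ι
    · obtain ⟨i, rfl⟩ := hpr
      exact not_U_of_mem _ _ i hU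
    · exact h2 p hpr hU
  have hb : ∀ b, ∑ ι ∈ S.filter (fun ι => bb ι = b), volume (A b ι) ≤ volume (Eb b ρ X) := by
    intro b
    rw [← measure_biUnion_finset₀]
    · refine measure_mono (iUnion₂_subset fun ι hι => ?_)
      rw [Finset.mem_filter] at hι
      exact hsub b ι hι.1 hι.2
    · intro ι hι κ hκ hne
      have hι' := (Finset.mem_filter.mp (Finset.mem_coe.mp hι)).1
      have hκ' := (Finset.mem_filter.mp (Finset.mem_coe.mp hκ)).1
      exact lower_disjoint X hX (kk b) ι κ ((hmemS ι).mp hι').1 ((hmemS κ).mp hκ').1 hne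
        (hpos ι hι' b) (hpos κ hκ' b)
    · exact fun ι _ => (hmeas b ι).nullMeasurableSet
  calc ENNReal.ofReal (DB (e0 m) ρ X) = ∑ ι ∈ S, ENNReal.ofReal (phi (X ∘ ι)) := by
        rw [hDB, ENNReal.ofReal_sum_of_nonneg fun ι _ => phi_nonneg _]
    _ ≤ ∑ ι ∈ S, (m + 1) * volume (A (bb ι) ι) := Finset.sum_le_sum hphi
    _ = (m + 1) * ∑ ι ∈ S, volume (A (bb ι) ι) := by rw [Finset.mul_sum]
    _ = (m + 1) * ∑ b : Bool, ∑ ι ∈ S.filter (fun ι => bb ι = b), volume (A (bb ι) ι) := by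
        rw [Finset.sum_fiberwise]
    _ = (m + 1) * ∑ b : Bool, ∑ ι ∈ S.filter (fun ι => bb ι = b), volume (A b ι) := by
        congr 1
        refine Finset.sum_congr rfl fun b _ => Finset.sum_congr rfl fun ι hι => ?_
        rw [(Finset.mem_filter.mp hι).2]
    _ ≤ (m + 1) * ∑ b : Bool, volume (Eb b ρ X) := by
        gcongr with b _
        exact hb b

end Pool.Agent.B05.Bad
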