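import Pool.Agent.Lib.MP_b05ae9_pr.Bad2
import Pool.Agent.Lib.MP_b05ae9_pr.G

/-!
# The remainder: probability and integral estimates
-/

set_option autoImplicit false

open MeasureTheory Set Filter Topology
open scoped ENNReal MeasureTheory

namespace Pool.Agent.B05.Bad

/-! ## Volumes of the boxes -/

theorem Box_eq {m : ℕ} (b : Bool) (A t : ℝ) (J : Fin m → Set ℝ) :
    Box b A t J = Set.pi univ (Fin.cons (if b then Ico 0 A else Icc 0 (t / 2))
      (Fin.cons (if b then Icc 0 (t / 2) else Ico 0 A) J : Fin (m + 1) → Set ℝ) :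
        Fin (m + 2) → Set ℝ) := by
  ext y
  simp only [Box, mem_ofPred_eq, Set.mem_univ_pi]
  rw [Fin.forall_fin_succ, Fin.forall_fin_succ]
  simp only [Fin.cons_zero, Fin.cons_succ]
  have h1 : (Fin.succ (0 : Fin (m + 1))) = (1 : Fin (m + 2)) := rfl
  rw [h1]
  cases b
  · simp only [kk, ii, Bool.false_eq_true, if_false]
    tauto
  · simp only [kk, ii, if_true]

theorem volume_Box {m : ℕ} (b : Bool) (A t : ℝ) (J : Fin m → Set ℝ) :
    volume (Box b A t J) = ENNReal.ofReal A * ENNReal.ofReal (t / 2) * ∏ l, volume (J l) := by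
  rw [Box_eq, volume_pi_pi, Fin.prod_univ_succ, Fin.prod_univ_succ]
  simp only [Fin.cons_zero, Fin.cons_succ]
  cases b
  · simp only [Bool.false_eq_true, if_false, Real.volume_Icc, Real.volume_Ico, sub_zero]
    ring
  · simp only [if_true, Real.volume_Icc, Real.volume_Ico, sub_zero]
    ring

theorem Box_subset {m : ℕ} (b : Bool) {A t : ℝ} {J : Fin m → Set ℝ} (hA : A ≤ 1) (ht : t ≤ 1)
    (hJ : ∀ l, J l ⊆ Icc 0 1) : Box b A t J ⊆ cube (m + 2) := by
  rintro y ⟨h1, h2, h3⟩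
  have hy : ∀ k, 0 ≤ y k ∧ y k ≤ 1 := by
    have hk : 0 ≤ y (kk b) ∧ y (kk b) ≤ 1 := ⟨h1.1, h1.2.le.trans hA⟩
    have hi : 0 ≤ y (ii b) ∧ y (ii b) ≤ 1 := by
      refine ⟨h2.1, h2.2.trans ?_⟩
      rcases le_total 0 t with h | h <;> linarith
    refine Fin.cases ?_ (Fin.cases ?_ fun l => ?_)
    · cases b
      · exact hi
      · exact hk
    · cases b
      · exact hk
      · exact hi
    · exact hJ l (h3 l)
  exact ⟨fun k => (hy k).1, fun k => (hy k).2⟩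

theorem measurableSet_Box {m : ℕ} (b : Bool) (A t : ℝ) {J : Fin m → Set ℝ}
    (hJ : ∀ l, MeasurableSet (J l)) : MeasurableSet (Box b A t J) := by
  have h : Box b A t J = {y | y (kk b) ∈ Ico 0 A} ∩ {y | y (ii b) ∈ Icc 0 (t / 2)} ∩
      ⋂ l : Fin m, {y : P m | y l.succ.succ ∈ J l} := by
    ext y
    simp [Box, and_assoc]
  rw [h]
  refine ((measurable_pi_apply _ measurableSet_Ico).inter
    (measurable_pi_apply _ measurableSet_Icc)).inter (MeasurableSet.iInter fun l => ?_)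
  exact measurable_pi_apply _ (hJ l)

theorem unif_Box {m : ℕ} (b : Bool) {A t : ℝ} {J : Fin m → Set ℝ} (hA : A ≤ 1) (ht : t ≤ 1)
    (hJ : ∀ l, J l ⊆ Icc 0 1) (hJm : ∀ l, MeasurableSet (J l)) :
    unif (m + 2) (Box b A t J) =
      ENNReal.ofReal A * ENNReal.ofReal (t / 2) * ∏ l, volume (J l) := by
  rw [unif, Measure.restrict_apply (measurableSet_Box b A t hJm),
    inter_eq_left.mpr (Box_subset b hA ht hJ), volume_Box]

theorem J1_sub {m : ℕ} {τ : Fin m → Bool} {z : Fin m → ℝ} (hz : ∀ l, 0 ≤ z l ∧ z l ≤ 1)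
    (l : Fin m) : J1 τ z l ⊆ Icc 0 1 := by
  unfold J1
  cases τ l
  · simp only [Bool.false_eq_true, if_false]
    exact Icc_subset_Icc le_rfl (hz l).2
  · simp only [if_true]
    exact Icc_subset_Icc (hz l).1 le_rfl

theorem J2_sub {m : ℕ} {τ : Fin m → Bool} {z : Fin m → ℝ} (hz : ∀ l, 0 ≤ z l ∧ z l ≤ 1)
    (l : Fin m) : J2 τ z l ⊆ Icc 0 1 := by
  unfold J2
  cases τ l
  · simp only [Bool.false_eq_true, if_false]
    exact Icc_subset_Icc le_rfl (by linarith [(hz l).2, (hz l).1])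
  · simp only [if_true]
    exact Icc_subset_Icc (by linarith [(hz l).1]) le_rfl

theorem J1_meas {m : ℕ} (τ : Fin m → Bool) (z : Fin m → ℝ) (l : Fin m) :
    MeasurableSet (J1 τ z l) := by
  unfold J1; split_ifs <;> exact measurableSet_Icc

theorem J2_meas {m : ℕ} (τ : Fin m → Bool) (z : Fin m → ℝ) (l : Fin m) :
    MeasurableSet (J2 τ z l) := by
  unfold J2; split_ifs <;> exact measurableSet_Icc

theorem J1_vol {m : ℕ} (τ : Fin m → Bool) (z : Fin m → ℝ) (l : Fin m) :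
    volume (J1 τ z l) = ENNReal.ofReal (ln (τ l) (z l)) := by
  unfold J1 ln
  cases τ l
  · simp
  · simp

theorem J2_vol {m : ℕ} (τ : Fin m → Bool) (z : Fin m → ℝ) (l : Fin m) :
    volume (J2 τ z l) = ENNReal.ofReal (ln (τ l) (z l) / 2) := by
  unfold J2 ln
  cases τ l
  · simp
  · simp only [if_true, Real.volume_Icc]
    congr 1
    ring

theorem unif_Box1 {m : ℕ} (b : Bool) (τ : Fin m → Bool) {t : ℝ} {z : Fin m → ℝ}
    (ht0 : 0 ≤ t) (ht : t ≤ 1) (hz : ∀ l, 0 ≤ z l ∧ z l ≤ 1) :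
    unif (m + 2) (Box b (t / 2) t (J1 τ z)) = ENNReal.ofReal (t ^ 2 * Dz τ z / 4) := by
  rw [unif_Box b (by linarith) ht (J1_sub hz) (J1_meas τ z)]
  simp only [J1_vol]
  rw [← ENNReal.ofReal_prod_of_nonneg fun l _ => ln_nonneg (hz l),
    ← ENNReal.ofReal_mul (by linarith), ← ENNReal.ofReal_mul (by positivity)]
  congr 1
  unfold Dz
  ring

theorem unif_Box2 {m : ℕ} (b : Bool) (τ : Fin m → Bool) {t ρ : ℝ} {z : Fin m → ℝ}
    (ht0 : 0 ≤ t) (ht : t ≤ 1) (hz : ∀ l, 0 ≤ z l ∧ z l ≤ 1) (hρ : 0 ≤ ρ) (hρ1 : ρ ≤ 1) :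
    unif (m + 2) (Box b (ρ * Dz τ z / 4) t (J2 τ z)) =
      ENNReal.ofReal (ρ * t * Dz τ z ^ 2 / 2 ^ (m + 3)) := by
  have hD0 := Dz_nonneg τ hz
  have hD1 := Dz_le_one τ hz
  have hA : ρ * Dz τ z / 4 ≤ 1 := by nlinarith
  rw [unif_Box b hA ht (J2_sub hz) (J2_meas τ z)]
  simp only [J2_vol]
  rw [← ENNReal.ofReal_prod_of_nonneg fun l _ => by
      have := ln_nonneg (τ := τ l) (hz l); positivity,
    ← ENNReal.ofReal_mul (by positivity), ← ENNReal.ofReal_mul (by positivity)]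
  congr 1
  rw [Finset.prod_div_distrib, Finset.prod_const, Finset.card_univ, Fintype.card_fin]
  unfold Dz
  rw [pow_add]
  field_simp
  ring

/-! ## Probabilities -/

theorem law_empty_le {m N : ℕ} {A : Set (P m)} (hA : MeasurableSet A) {v : ℝ} (hv : 0 ≤ v)
    (h : ENNReal.ofReal v ≤ unif (m + 2) A) :
    law m N {X | ∀ p, X p ∉ A} ≤ ENNReal.ofReal (Real.exp (-(N * v))) := by
  have h1 : {X : Fin N → P m | ∀ p, X p ∉ A} = Set.pi univ fun _ => Aᶜ := by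
    ext x; simp [Set.mem_pi]
  have hv1 : v ≤ 1 := by
    have h2 := h.trans prob_le_one
    rwa [ENNReal.ofReal_le_one] at h2
  rw [h1, law, Measure.pi_pi, Finset.prod_const, Finset.card_univ, Fintype.card_fin,
    prob_compl_eq_one_sub hA]
  calc (1 - unif (m + 2) A) ^ N ≤ (ENNReal.ofReal (Real.exp (-v))) ^ N := by
        refine pow_le_pow_left₀ bot_le ?_ N
        calc 1 - unif (m + 2) A ≤ 1 - ENNReal.ofReal v := tsub_le_tsub_left h 1
          _ = ENNReal.ofReal (1 - v) := by rw [ENNReal.ofReal_sub _ hv, ENNReal.ofReal_one]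
          _ ≤ ENNReal.ofReal (Real.exp (-v)) :=
              ENNReal.ofReal_le_ofReal (Real.one_sub_le_exp_neg v)
    _ = ENNReal.ofReal (Real.exp (-(N * v))) := by
        rw [← ENNReal.ofReal_pow (Real.exp_pos _).le, ← Real.exp_nat_mul]
        congr 2
        ring

/-- the exponent -/
noncomputable def ex {m : ℕ} (N : ℕ) (R : ℝ) (τ : Fin m → Bool) (t : ℝ) (z : Fin m → ℝ) : ℝ :=
  N * Dz τ z / 16 * t ^ 2 + √N * R * Dz τ z ^ 2 / 2 ^ (m + 5) * t

theorem law_region {m N : ℕ} (b : Bool) (τ : Fin m → Bool) {R : ℝ} (hR : 0 < R) (hN : 1 ≤ N)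
    (hRN : R / √N ≤ 1) {q : Fin (m + 1) → ℝ} (hq : q ∈ cube (m + 1)) :
    law m N {X | ∀ p, X p ∉ Rg b τ (R / √N) q} ≤
      ENNReal.ofReal (Real.exp (-(ex N R τ (q 0) fun l => q l.succ))) ^ 2 := by
  have hN0 : (0 : ℝ) < N := by exact_mod_cast hN
  have hs : 0 < √(N : ℝ) := Real.sqrt_pos.mpr hN0
  have hz : ∀ l : Fin m, 0 ≤ q l.succ ∧ q l.succ ≤ 1 := fun l => ⟨hq.1 _, hq.2 _⟩
  have ht0 : 0 ≤ q 0 := hq.1 _
  have ht1 : q 0 ≤ 1 := hq.2 _
  set t := q 0
  set z : Fin m → ℝ := fun l => q l.succ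
  have hD0 := Dz_nonneg τ hz
  have hρ : 0 ≤ R / √N := by positivity
  have h1 : law m N {X | ∀ p, X p ∉ Rg b τ (R / √N) q} ≤
      ENNReal.ofReal (Real.exp (-(N * (t ^ 2 * Dz τ z / 4)))) := by
    refine (measure_mono ?_).trans (law_empty_le (N := N)
      (measurableSet_Box b (t / 2) t (J1_meas τ z)) (by positivity)
      (unif_Box1 b τ ht0 ht1 hz).ge)
    intro X hX p hp
    exact hX p (Or.inl hp)
  have h2 : law m N {X | ∀ p, X p ∉ Rg b τ (R / √N) q} ≤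
      ENNReal.ofReal (Real.exp (-(N * (R / √N * t * Dz τ z ^ 2 / 2 ^ (m + 3))))) := by
    refine (measure_mono ?_).trans (law_empty_le (N := N)
      (measurableSet_Box b (R / √N * Dz τ z / 4) t (J2_meas τ z)) (by positivity)
      (unif_Box2 b τ ht0 ht1 hz hρ hRN).ge)
    intro X hX p hp
    exact hX p (Or.inr hp)
  have h3 : (N : ℝ) * (R / √N * t * Dz τ z ^ 2 / 2 ^ (m + 3)) =
      √N * R * t * Dz τ z ^ 2 / 2 ^ (m + 3) := by
    have : (N : ℝ) = √N * √N := (Real.mul_self_sqrt hN0.le).symm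
    rw [this, Real.sqrt_mul_self hs.le]
    field_simp
  rw [← ENNReal.ofReal_pow (Real.exp_pos _).le, ← Real.exp_nat_mul]
  rcases le_total (N * (t ^ 2 * Dz τ z / 4)) ((N : ℝ) * (R / √N * t * Dz τ z ^ 2 / 2 ^ (m + 3)))
    with h | h
  · refine h2.trans (ENNReal.ofReal_le_ofReal (Real.exp_le_exp.mpr ?_))
    rw [h3] at h ⊢
    unfold ex
    have e5 : (2 : ℝ) ^ (m + 5) = 4 * 2 ^ (m + 3) := by rw [pow_succ, pow_succ]; ring
    rw [e5]
    have e6 : √(N : ℝ) * R * Dz τ z ^ 2 / (4 * 2 ^ (m + 3)) * t =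
      (√N * R * t * Dz τ z ^ 2 / 2 ^ (m + 3)) / 4 := by field_simp
    rw [e6]
    have e7 : (N : ℝ) * Dz τ z / 16 * t ^ 2 = (N * (t ^ 2 * Dz τ z / 4)) / 4 := by ring
    rw [e7]
    push_cast
    have : 0 ≤ √(N : ℝ) * R * t * Dz τ z ^ 2 / 2 ^ (m + 3) := by positivity
    linarith
  · refine h1.trans (ENNReal.ofReal_le_ofReal (Real.exp_le_exp.mpr ?_))
    rw [h3] at h
    unfold ex
    have e5 : (2 : ℝ) ^ (m + 5) = 4 * 2 ^ (m + 3) := by rw [pow_succ, pow_succ]; ring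
    rw [e5]
    have e6 : √(N : ℝ) * R * Dz τ z ^ 2 / (4 * 2 ^ (m + 3)) * t =
      (√N * R * t * Dz τ z ^ 2 / 2 ^ (m + 3)) / 4 := by field_simp
    rw [e6]
    have e7 : (N : ℝ) * Dz τ z / 16 * t ^ 2 = (N * (t ^ 2 * Dz τ z / 4)) / 4 := by ring
    rw [e7]
    push_cast
    have : 0 ≤ (N : ℝ) * (t ^ 2 * Dz τ z / 4) := by positivity
    linarith

/-! ## One-dimensional integrals -/

theorem one_gauss {a b : ℝ} (ha : 0 < a) (hb : 0 ≤ b) :
    ∫⁻ t in Icc (0 : ℝ) 1, ENNReal.ofReal (Real.exp (-(a * t ^ 2 + b * t))) ≤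
      ENNReal.ofReal (1 / √a) := by
  have h1 : ∫⁻ t in Icc (0 : ℝ) 1, ENNReal.ofReal (Real.exp (-(a * t ^ 2 + b * t))) ≤
      ∫⁻ t in Ioi (0 : ℝ), ENNReal.ofReal (Real.exp (-a * t ^ 2)) := by
    rw [← restrict_Ioc_eq_restrict_Icc]
    refine (setLIntegral_mono' measurableSet_Ioc fun t ht => ?_).trans
      (lintegral_mono_set (Ioc_subset_Ioi_self))
    refine ENNReal.ofReal_le_ofReal (Real.exp_le_exp.mpr ?_)
    have : 0 ≤ b * t := mul_nonneg hb ht.1.le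
    linarith
  refine h1.trans ?_
  rw [← ofReal_integral_eq_lintegral_ofReal, integral_gaussian_Ioi]
  · refine ENNReal.ofReal_le_ofReal ?_
    rw [Real.sqrt_div Real.pi_pos.le]
    have hpi : √Real.pi ≤ 2 := by
      rw [Real.sqrt_le_left (by norm_num)]
      linarith [Real.pi_le_four]
    have hsa : 0 < √a := Real.sqrt_pos.mpr ha
    rw [div_div, div_le_div_iff₀ (by positivity) hsa]
    nlinarith
  · exact (integrable_exp_neg_mul_sq ha).integrableOn
  · exact Filter.Eventually.of_forall fun t => (Real.exp_pos _).le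

theorem one_exp {a b : ℝ} (ha : 0 ≤ a) (hb : 0 < b) :
    ∫⁻ t in Icc (0 : ℝ) 1, ENNReal.ofReal (Real.exp (-(a * t ^ 2 + b * t))) ≤
      ENNReal.ofReal (1 / b) := by
  have h1 : ∫⁻ t in Icc (0 : ℝ) 1, ENNReal.ofReal (Real.exp (-(a * t ^ 2 + b * t))) ≤
      ∫⁻ t in Ioi (0 : ℝ), ENNReal.ofReal (Real.exp (-b * t)) := by
    rw [← restrict_Ioc_eq_restrict_Icc]
    refine (setLIntegral_mono' measurableSet_Ioc fun t ht => ?_).trans
      (lintegral_mono_set (Ioc_subset_Ioi_self))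
    refine ENNReal.ofReal_le_ofReal (Real.exp_le_exp.mpr ?_)
    have : 0 ≤ a * t ^ 2 := mul_nonneg ha (sq_nonneg _)
    linarith
  refine h1.trans ?_
  rw [← ofReal_integral_eq_lintegral_ofReal]
  · refine ENNReal.ofReal_le_ofReal ?_
    have h2 := integral_exp_mul_Ioi (show -b < 0 by linarith) 0
    rw [h2]
    simp [neg_div_neg_eq]
  · exact integrableOn_exp_mul_Ioi (show -b < 0 by linarith) 0
  · exact Filter.Eventually.of_forall fun t => (Real.exp_pos _).le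

theorem one_both {a b : ℝ} (ha : 0 < a) (hb : 0 < b) :
    ∫⁻ t in Icc (0 : ℝ) 1, ENNReal.ofReal (Real.exp (-(a * t ^ 2 + b * t))) ≤
      ENNReal.ofReal (a ^ (-(3 / 8 : ℝ)) * b ^ (-(1 / 4 : ℝ))) := by
  set x := ∫⁻ t in Icc (0 : ℝ) 1, ENNReal.ofReal (Real.exp (-(a * t ^ 2 + b * t))) with hx
  have h1 := one_gauss ha hb.le
  have h2 := one_exp ha.le hb
  rw [← hx] at h1 h2
  have h3 : x = x ^ (3 / 4 : ℝ) * x ^ (1 / 4 : ℝ) := by
    rw [← ENNReal.rpow_add_of_nonneg _ _ (by norm_num) (by norm_num)]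
    norm_num
  rw [h3]
  calc x ^ (3 / 4 : ℝ) * x ^ (1 / 4 : ℝ)
      ≤ ENNReal.ofReal (1 / √a) ^ (3 / 4 : ℝ) * ENNReal.ofReal (1 / b) ^ (1 / 4 : ℝ) := by
        gcongr
    _ = ENNReal.ofReal (a ^ (-(3 / 8 : ℝ)) * b ^ (-(1 / 4 : ℝ))) := by
        have hsa : 0 < √a := Real.sqrt_pos.mpr ha
        rw [ENNReal.ofReal_rpow_of_pos (by positivity), ENNReal.ofReal_rpow_of_pos (by positivity),
          ← ENNReal.ofReal_mul (by positivity)]
        congr 2
        · rw [Real.sqrt_eq_rpow, one_div, ← Real.rpow_neg ha.le, ← Real.rpow_mul ha.le]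
          norm_num
        · rw [one_div, ← Real.rpow_neg_one, ← Real.rpow_mul hb.le]
          norm_num

end Pool.Agent.B05.Bad
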