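import Pool.Agent.Lib.MP_b05ae9_pr.Bad3

/-!
# The remainder: conclusion
-/

set_option autoImplicit false

open MeasureTheory Set Filter Topology
open scoped ENNReal MeasureTheory

namespace Pool.Agent.B05.Bad

theorem continuous_ln (τ : Bool) : Continuous (ln τ) := by
  unfold ln
  cases τ
  · simp only [Bool.false_eq_true, if_false]
    exact continuous_id'
  · simp only [if_true]
    exact continuous_const.sub continuous_id'

theorem continuous_Dz {m : ℕ} (τ : Fin m → Bool) : Continuous (Dz τ) := by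
  unfold Dz
  exact continuous_finsetProd _ fun l _ => (continuous_ln _).comp (continuous_apply l)

/-- the constant in the integral estimate -/
noncomputable def KK (m N : ℕ) (R : ℝ) : ℝ :=
  ((N : ℝ) / 16) ^ (-(3 / 8 : ℝ)) * (√N * R / 2 ^ (m + 5)) ^ (-(1 / 4 : ℝ))

theorem KK_pos {m N : ℕ} {R : ℝ} (hN : 1 ≤ N) (hR : 0 < R) : 0 < KK m N R := by
  have hN0 : (0 : ℝ) < N := by exact_mod_cast hN
  have hs : 0 < √(N : ℝ) := Real.sqrt_pos.mpr hN0
  unfold KK
  positivity

theorem inner {m N : ℕ} {R : ℝ} (hN : 1 ≤ N) (hR : 0 < R) (τ : Fin m → Bool) {z : Fin m → ℝ}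
    (hz : ∀ l, 0 ≤ z l ∧ z l ≤ 1) :
    ∫⁻ t in Icc (0 : ℝ) 1, ENNReal.ofReal (Real.exp (-(ex N R τ t z))) ≤
      ENNReal.ofReal (KK m N R) * ∏ l, (ENNReal.ofReal (ln (τ l) (z l))) ^ (-(7 / 8 : ℝ)) := by
  have hN0 : (0 : ℝ) < N := by exact_mod_cast hN
  have hs : 0 < √(N : ℝ) := Real.sqrt_pos.mpr hN0
  have hprod : ∏ l, (ENNReal.ofReal (ln (τ l) (z l))) ^ (-(7 / 8 : ℝ)) =
      (ENNReal.ofReal (Dz τ z)) ^ (-(7 / 8 : ℝ)) := by
    rw [ENNReal.prod_rpow_of_ne_top fun i _ => ENNReal.ofReal_ne_top,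
      ← ENNReal.ofReal_prod_of_nonneg fun l _ => ln_nonneg (hz l)]
    rfl
  rw [hprod]
  have hD0 := Dz_nonneg τ hz
  rcases hD0.eq_or_lt with h0 | hpos
  · rw [← h0, ENNReal.ofReal_zero, ENNReal.zero_rpow_of_neg (by norm_num), ENNReal.mul_top]
    · exact le_top
    · exact (ENNReal.ofReal_pos.mpr (KK_pos hN hR)).ne'
  · have ha : 0 < N * Dz τ z / 16 := by positivity
    have hb : 0 < √N * R * Dz τ z ^ 2 / 2 ^ (m + 5) := by positivity
    refine (one_both ha hb).trans ?_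
    rw [ENNReal.ofReal_rpow_of_pos hpos, ← ENNReal.ofReal_mul (KK_pos hN hR).le]
    refine ENNReal.ofReal_le_ofReal (le_of_eq ?_)
    have e1 : (N : ℝ) * Dz τ z / 16 = (N / 16) * Dz τ z := by ring
    have e2 : √(N : ℝ) * R * Dz τ z ^ 2 / 2 ^ (m + 5) = (√N * R / 2 ^ (m + 5)) * Dz τ z ^ 2 := by
      ring
    rw [e1, e2, Real.mul_rpow (by positivity) hpos.le, Real.mul_rpow (by positivity) (by positivity),
      ← Real.rpow_natCast (Dz τ z) 2, ← Real.rpow_mul hpos.le]
    have e3 : (-(7 / 8 : ℝ)) = -(3 / 8) + ((2 : ℕ) : ℝ) * (-(1 / 4)) := by norm_num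
    rw [e3, Real.rpow_add hpos]
    unfold KK
    ring

theorem restrict_cube_eq (d : ℕ) : (volume : Measure (Fin d → ℝ)).restrict (cube d) =
    Measure.pi (fun _ => volume.restrict (Icc (0 : ℝ) 1)) := by
  rw [cube, ← Set.pi_univ_Icc, volume_pi, Measure.restrict_pi_pi]
  rfl

theorem continuous_ex {m N : ℕ} (R : ℝ) (τ : Fin m → Bool) :
    Continuous fun q : Fin (m + 1) → ℝ => ex N R τ (q 0) fun l => q l.succ := by
  unfold ex
  have h1 : Continuous fun q : Fin (m + 1) → ℝ => Dz τ fun l => q l.succ :=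
    (continuous_Dz τ).comp (continuous_pi fun l => continuous_apply _)
  have h2 : Continuous fun q : Fin (m + 1) → ℝ => q 0 := continuous_apply 0
  fun_prop

theorem outer {m N : ℕ} {R : ℝ} (hN : 1 ≤ N) (hR : 0 < R) (τ : Fin m → Bool) :
    ∫⁻ q in cube (m + 1), ENNReal.ofReal (Real.exp (-(ex N R τ (q 0) fun l => q l.succ))) ≤
      ENNReal.ofReal (KK m N R * 8 ^ m) := by
  rw [restrict_cube_eq]
  have hmeas : Measurable fun q : Fin (m + 1) → ℝ =>
      ENNReal.ofReal (Real.exp (-(ex N R τ (q 0) fun l => q l.succ))) :=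
    (Real.continuous_exp.comp (continuous_ex R τ).neg).measurable.ennreal_ofReal
  have h1 := (measurePreserving_piFinSuccAbove
    (fun _ : Fin (m + 1) => volume.restrict (Icc (0 : ℝ) 1)) 0).symm
  rw [← h1.lintegral_comp_emb (MeasurableEquiv.measurableEmbedding _)]
  refine (lintegral_prod_symm _ (hmeas.comp (MeasurableEquiv.measurable
    (MeasurableEquiv.piFinSuccAbove (fun _ => ℝ) 0).symm)).aemeasurable).le.trans ?_
  have hz : ∀ᵐ z : Fin m → ℝ ∂(Measure.pi fun _ : Fin m => volume.restrict (Icc (0 : ℝ) 1)),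
      ∀ l, 0 ≤ z l ∧ z l ≤ 1 := by
    rw [← restrict_cube_eq, ae_restrict_iff' (show MeasurableSet (cube m) from measurableSet_Icc)]
    exact Filter.Eventually.of_forall fun z hz l => ⟨hz.1 l, hz.2 l⟩
  have hm : ∀ i : Fin m, Measurable fun t : ℝ =>
      (ENNReal.ofReal (ln (τ i) t)) ^ (-(7 / 8 : ℝ)) := fun i =>
    ((continuous_ln (τ i)).measurable.ennreal_ofReal).pow_const _
  have hm1 : Measurable fun q : Fin m → ℝ =>
      ∏ i, (ENNReal.ofReal (ln (τ i) (q i))) ^ (-(7 / 8 : ℝ)) :=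
    Finset.measurable_fun_prod _ fun j _ => (hm j).comp (measurable_pi_apply j)
  calc _ ≤ ∫⁻ z : Fin m → ℝ, ENNReal.ofReal (KK m N R) *
        ∏ l, (ENNReal.ofReal (ln (τ l) (z l))) ^ (-(7 / 8 : ℝ))
          ∂(Measure.pi fun _ : Fin m => volume.restrict (Icc (0 : ℝ) 1)) := by
        refine lintegral_mono_ae ?_
        filter_upwards [hz] with z hz
        exact inner hN hR τ hz
    _ = ENNReal.ofReal (KK m N R) * ∏ l : Fin m, ∫⁻ t in Icc (0 : ℝ) 1,
        (ENNReal.ofReal (ln (τ l) t)) ^ (-(7 / 8 : ℝ)) := by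
        rw [lintegral_const_mul _ hm1, SA.lintegral_fin_prod hm]
    _ = ENNReal.ofReal (KK m N R * 8 ^ m) := by
        have h8 : ∀ l : Fin m, ∫⁻ t in Icc (0 : ℝ) 1,
            (ENNReal.ofReal (ln (τ l) t)) ^ (-(7 / 8 : ℝ)) = ENNReal.ofReal 8 := by
          intro l
          have := SA.lintegral_tau_rpow_unit (s := 7 / 8) (by norm_num) (τ l)
          rw [show (1 / (1 - 7 / 8) : ℝ) = 8 by norm_num] at this
          exact this
        simp_rw [h8]
        rw [Finset.prod_const, Finset.card_univ, Fintype.card_fin,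
          ← ENNReal.ofReal_pow (by norm_num), ← ENNReal.ofReal_mul (KK_pos hN hR).le]

/-! ## Second moment of the random set -/

theorem measurableSet_RgSet {m : ℕ} (b : Bool) (τ : Fin m → Bool) (ρ : ℝ) :
    MeasurableSet {w : P m × (Fin (m + 1) → ℝ) | w.1 ∈ Rg b τ ρ w.2} := by
  have hy : ∀ k : Fin (m + 2), Measurable fun w : P m × (Fin (m + 1) → ℝ) => w.1 k := fun k =>
    (measurable_pi_apply k).comp measurable_fst
  have hq : ∀ k : Fin (m + 1), Measurable fun w : P m × (Fin (m + 1) → ℝ) => w.2 k := fun k =>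
    (measurable_pi_apply k).comp measurable_snd
  have hD : Measurable fun w : P m × (Fin (m + 1) → ℝ) => Dz τ fun l : Fin m => w.2 l.succ :=
    (continuous_Dz τ).measurable.comp (measurable_pi_lambda _ fun l => hq _)
  have hJ1 : ∀ l : Fin m, MeasurableSet {w : P m × (Fin (m + 1) → ℝ) |
      w.1 l.succ.succ ∈ J1 τ (fun l => w.2 l.succ) l} := by
    intro l
    unfold J1
    cases τ l
    · simp only [Bool.false_eq_true, if_false, mem_Icc]
      exact (measurableSet_le measurable_const (hy _)).inter (measurableSet_le (hy _) (hq _))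
    · simp only [if_true, mem_Icc]
      exact (measurableSet_le (hq _) (hy _)).inter (measurableSet_le (hy _) measurable_const)
  have hJ2 : ∀ l : Fin m, MeasurableSet {w : P m × (Fin (m + 1) → ℝ) |
      w.1 l.succ.succ ∈ J2 τ (fun l => w.2 l.succ) l} := by
    intro l
    unfold J2
    cases τ l
    · simp only [Bool.false_eq_true, if_false, mem_Icc]
      exact (measurableSet_le measurable_const (hy _)).inter
        (measurableSet_le (hy _) ((hq _).div_const _))
    · simp only [if_true, mem_Icc]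
      exact (measurableSet_le (((hq _).const_add _).div_const _) (hy _)).inter
        (measurableSet_le (hy _) measurable_const)
  have h : {w : P m × (Fin (m + 1) → ℝ) | w.1 ∈ Rg b τ ρ w.2} =
      (({w | 0 ≤ w.1 (kk b)} ∩ {w | w.1 (kk b) < w.2 0 / 2}) ∩
        ({w | 0 ≤ w.1 (ii b)} ∩ {w | w.1 (ii b) ≤ w.2 0 / 2}) ∩
        ⋂ l : Fin m, {w | w.1 l.succ.succ ∈ J1 τ (fun l => w.2 l.succ) l}) ∪
      (({w | 0 ≤ w.1 (kk b)} ∩ {w | w.1 (kk b) < ρ * Dz τ (fun l : Fin m => w.2 l.succ) / 4}) ∩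
        ({w | 0 ≤ w.1 (ii b)} ∩ {w | w.1 (ii b) ≤ w.2 0 / 2}) ∩
        ⋂ l : Fin m, {w | w.1 l.succ.succ ∈ J2 τ (fun l => w.2 l.succ) l}) := by
    ext w
    simp [Rg, Box, and_assoc]
  rw [h]
  refine MeasurableSet.union ?_ ?_
  · refine (((measurableSet_le measurable_const (hy _)).inter
      (measurableSet_lt (hy _) ((hq _).div_const _))).inter
      ((measurableSet_le measurable_const (hy _)).inter
      (measurableSet_le (hy _) ((hq _).div_const _)))).inter (MeasurableSet.iInter hJ1)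
  · refine (((measurableSet_le measurable_const (hy _)).inter
      (measurableSet_lt (hy _) ((hD.const_mul _).div_const _))).inter
      ((measurableSet_le measurable_const (hy _)).inter
      (measurableSet_le (hy _) ((hq _).div_const _)))).inter (MeasurableSet.iInter hJ2)

theorem measurableSet_EbSet {m N : ℕ} (b : Bool) (ρ : ℝ) :
    MeasurableSet {w : (Fin N → P m) × (Fin (m + 1) → ℝ) | w.2 ∈ Eb b ρ w.1} := by
  have h : {w : (Fin N → P m) × (Fin (m + 1) → ℝ) | w.2 ∈ Eb b ρ w.1} =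
      {w | w.2 ∈ cube (m + 1)} ∩ ⋃ τ : Fin m → Bool, ⋂ p : Fin N,
        {w | w.1 p ∈ Rg b τ ρ w.2}ᶜ := by
    ext w
    simp [Eb]
  rw [h]
  refine (measurable_snd measurableSet_Icc).inter (MeasurableSet.iUnion fun τ =>
    MeasurableSet.iInter fun p => MeasurableSet.compl ?_)
  have : Measurable fun w : (Fin N → P m) × (Fin (m + 1) → ℝ) => (w.1 p, w.2) :=
    ((measurable_pi_apply p).comp measurable_fst).prodMk measurable_snd
  exact this (measurableSet_RgSet b τ ρ)

theorem moment_Eb {m N : ℕ} (b : Bool) {R : ℝ} (hR : 0 < R) (hN : 1 ≤ N) (hRN : R / √N ≤ 1) :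
    ∫⁻ X, volume (Eb b (R / √N) X) ^ 2 ∂(law m N) ≤
      (ENNReal.ofReal (16 ^ m * KK m N R)) ^ 2 := by
  classical
  set ν : Measure (Fin (m + 1) → ℝ) := volume.restrict (cube (m + 1)) with hν
  set β : (Fin (m + 1) → ℝ) → ℝ≥0∞ := fun q => ∑ τ : Fin m → Bool,
    ENNReal.ofReal (Real.exp (-(ex N R τ (q 0) fun l => q l.succ))) with hβ
  have hβm : Measurable β := Finset.measurable_fun_sum _ fun τ _ =>
    (Real.continuous_exp.comp (continuous_ex R τ).neg).measurable.ennreal_ofReal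
  have h1 := SA.moment_le (law m N) ν (B := {w | w.2 ∈ Eb b (R / √N) w.1})
    (measurableSet_EbSet b (R / √N)) (β := β) hβm
    (fun q => by
      rw [hβ]
      have h2 : 0 < ENNReal.ofReal (Real.exp (-(ex N R (fun _ => true) (q 0) fun l => q l.succ))) :=
        ENNReal.ofReal_pos.mpr (Real.exp_pos _)
      refine (h2.trans_le ?_).ne'
      exact Finset.single_le_sum (f := fun τ : Fin m → Bool =>
        ENNReal.ofReal (Real.exp (-(ex N R τ (q 0) fun l => q l.succ))))
        (fun _ _ => bot_le) (Finset.mem_univ _))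
    (fun q => ENNReal.sum_ne_top.mpr fun τ _ => ENNReal.ofReal_ne_top) 1
    (fun q => by
      by_cases hq : q ∈ cube (m + 1)
      · have h3 : {X : Fin N → P m | (X, q) ∈ {w : (Fin N → P m) × (Fin (m + 1) → ℝ) |
            w.2 ∈ Eb b (R / √N) w.1}} ⊆ ⋃ τ ∈ (Finset.univ : Finset (Fin m → Bool)),
            {X | ∀ p, X p ∉ Rg b τ (R / √N) q} := by
          intro X hX
          obtain ⟨-, τ, hτ⟩ := (show q ∈ Eb b (R / √N) X from hX)
          simp only [mem_iUnion]
          exact ⟨τ, Finset.mem_univ _, hτ⟩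
        refine (measure_mono h3).trans ((measure_biUnion_finset_le _ _).trans ?_)
        calc _ ≤ ∑ τ : Fin m → Bool,
              ENNReal.ofReal (Real.exp (-(ex N R τ (q 0) fun l => q l.succ))) ^ 2 :=
              Finset.sum_le_sum fun τ _ => law_region b τ hR hN hRN hq
          _ ≤ ∑ τ : Fin m → Bool,
              ENNReal.ofReal (Real.exp (-(ex N R τ (q 0) fun l => q l.succ))) * β q := by
              refine Finset.sum_le_sum fun τ _ => ?_
              rw [sq]
              refine mul_le_mul_right ?_ _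
              exact Finset.single_le_sum (f := fun τ : Fin m → Bool =>
                ENNReal.ofReal (Real.exp (-(ex N R τ (q 0) fun l => q l.succ))))
                (fun _ _ => bot_le) (Finset.mem_univ _)
          _ = β q ^ (1 + 1) := by rw [← Finset.sum_mul, pow_succ, pow_one]
      · have h3 : {X : Fin N → P m | (X, q) ∈ {w : (Fin N → P m) × (Fin (m + 1) → ℝ) |
            w.2 ∈ Eb b (R / √N) w.1}} = ∅ := by
          ext X
          simp only [mem_ofPred_eq, mem_empty_iff_false, iff_false]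
          exact fun h => hq h.1
        rw [h3, measure_empty]
        exact bot_le)
  have h2 : ∀ X : Fin N → P m, ν {q | (X, q) ∈ {w : (Fin N → P m) × (Fin (m + 1) → ℝ) |
      w.2 ∈ Eb b (R / √N) w.1}} = volume (Eb b (R / √N) X) := by
    intro X
    have h3 : {q | (X, q) ∈ {w : (Fin N → P m) × (Fin (m + 1) → ℝ) |
      w.2 ∈ Eb b (R / √N) w.1}} = Eb b (R / √N) X := rfl
    rw [h3, hν, Measure.restrict_apply' (show MeasurableSet (cube (m + 1)) from measurableSet_Icc)]
    congr 1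
    exact inter_eq_left.mpr fun q hq => hq.1
  simp only [h2] at h1
  refine h1.trans ?_
  refine pow_le_pow_left₀ bot_le ?_ _
  have hm : ∀ τ : Fin m → Bool, Measurable fun q : Fin (m + 1) → ℝ =>
      ENNReal.ofReal (Real.exp (-(ex N R τ (q 0) fun l => q l.succ))) := fun τ =>
    (Real.continuous_exp.comp (continuous_ex R τ).neg).measurable.ennreal_ofReal
  show ∫⁻ q, ∑ τ : Fin m → Bool,
    ENNReal.ofReal (Real.exp (-(ex N R τ (q 0) fun l => q l.succ))) ∂ν ≤ _
  rw [lintegral_finsetSum _ fun τ _ => hm τ]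
  calc _ ≤ ∑ _τ : Fin m → Bool, ENNReal.ofReal (KK m N R * 8 ^ m) :=
        Finset.sum_le_sum fun τ _ => outer hN hR τ
    _ = ENNReal.ofReal (16 ^ m * KK m N R) := by
        rw [Finset.sum_const, Finset.card_univ, nsmul_eq_mul]
        have : Fintype.card (Fin m → Bool) = 2 ^ m := by simp
        rw [this]
        have h4 : ((2 ^ m : ℕ) : ℝ≥0∞) = ENNReal.ofReal (2 ^ m) := by
          rw [ENNReal.ofReal_pow (by norm_num)]; simp
        rw [h4, ← ENNReal.ofReal_mul (by positivity)]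
        congr 1
        rw [show (16 : ℝ) = 2 * 8 by norm_num, mul_pow]
        ring

/-! ## The main estimate for the edge `e0` -/

theorem gB_eq_zero {m : ℕ} {ρ : ℝ} (hρ : 1 ≤ ρ) (I : Fin (m + 2) → P m) : gB (e0 m) ρ I = 0 := by
  unfold gB
  rw [if_neg]
  rintro ⟨-, h⟩
  apply h
  intro q hq
  refine ⟨hq.1, ?_, ?_⟩
  · show dst false (q 0) ≤ ρ
    simp only [dst, Bool.false_eq_true, if_false]
    exact (hq.1.2 0).trans hρ
  · show dst false (q 1) ≤ ρ
    simp only [dst, Bool.false_eq_true, if_false]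
    exact (hq.1.2 1).trans hρ

theorem DB_eq_zero {m N : ℕ} {ρ : ℝ} (hρ : 1 ≤ ρ) (X : Fin N → P m) : DB (e0 m) ρ X = 0 := by
  unfold DB Sm
  refine Finset.sum_eq_zero fun ι _ => ?_
  rw [gB_eq_zero hρ]
  simp

theorem DB_nonneg {m N : ℕ} (e : Edge m) (ρ : ℝ) (X : Fin N → P m) : 0 ≤ DB e ρ X := by
  unfold DB Sm gB
  refine Finset.sum_nonneg fun ι _ => ?_
  split_ifs
  · exact phi_nonneg _
  · exact le_rfl
  · exact le_rfl

theorem bad_e0 {m N : ℕ} {R : ℝ} (hR : 0 < R) (hN : 1 ≤ N) :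
    ∫⁻ X, ENNReal.ofReal ((DB (e0 m) (R / √N) X) ^ 2) ∂(law m N) ≤
      ENNReal.ofReal (8 * ((m + 1) * 16 ^ m * KK m N R) ^ 2) := by
  rcases le_total (R / √N) 1 with hRN | hRN
  · have hρ : 0 ≤ R / √N := by positivity
    have h1 : ∀ᵐ X ∂(law m N), ENNReal.ofReal ((DB (e0 m) (R / √N) X) ^ 2) ≤
        ((m : ℝ≥0∞) + 1) ^ 2 * (4 * ∑ b : Bool, volume (Eb b (R / √N) X) ^ 2) := by
      filter_upwards [ae_GP m N, ae_law_mem m N] with X hX hc
      have h2 := DB_le X hX hc hρ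
      rw [ENNReal.ofReal_pow (DB_nonneg _ _ _)]
      refine (pow_le_pow_left₀ bot_le h2 2).trans ?_
      rw [mul_pow]
      refine mul_le_mul_right ?_ _
      rw [Fintype.sum_bool, Fintype.sum_bool]
      have h3 : ∀ x y : ℝ≥0∞, (x + y) ^ 2 ≤ 4 * (x ^ 2 + y ^ 2) := by
        intro x y
        rcases le_total x y with h | h
        · calc (x + y) ^ 2 ≤ (2 * y) ^ 2 := by
                refine pow_le_pow_left₀ bot_le ?_ 2
                rw [two_mul]; exact add_le_add_left h y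
            _ = 4 * y ^ 2 := by rw [mul_pow]; norm_num
            _ ≤ 4 * (x ^ 2 + y ^ 2) := mul_le_mul_right le_add_self _
        · calc (x + y) ^ 2 ≤ (2 * x) ^ 2 := by
                refine pow_le_pow_left₀ bot_le ?_ 2
                rw [two_mul]; exact add_le_add_right h x
            _ = 4 * x ^ 2 := by rw [mul_pow]; norm_num
            _ ≤ 4 * (x ^ 2 + y ^ 2) := mul_le_mul_right le_self_add _
      exact h3 _ _
    refine (lintegral_mono_ae h1).trans ?_
    have hm : ∀ b : Bool, Measurable fun X : Fin N → P m => volume (Eb b (R / √N) X) ^ 2 :=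
      fun b => (measurable_measure_prodMk_left (measurableSet_EbSet b (R / √N))).pow_const 2
    rw [lintegral_const_mul _ ((Finset.measurable_fun_sum _ fun b _ => hm b).const_mul _),
      lintegral_const_mul _ (Finset.measurable_fun_sum _ fun b _ => hm b),
      lintegral_finsetSum _ fun b _ => hm b, Fintype.sum_bool]
    have h4 := moment_Eb (m := m) true hR hN hRN
    have h5 := moment_Eb (m := m) false hR hN hRN
    have hK := (KK_pos (m := m) hN hR).le
    calc _ ≤ ((m : ℝ≥0∞) + 1) ^ 2 * (4 * ((ENNReal.ofReal (16 ^ m * KK m N R)) ^ 2 +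
          (ENNReal.ofReal (16 ^ m * KK m N R)) ^ 2)) := by gcongr
      _ = ENNReal.ofReal (8 * ((m + 1) * 16 ^ m * KK m N R) ^ 2) := by
          have h6 : ((m : ℝ≥0∞) + 1) = ENNReal.ofReal ((m : ℝ) + 1) := by
            rw [ENNReal.ofReal_add (Nat.cast_nonneg _) zero_le_one]; simp
          have h7 : (4 : ℝ≥0∞) = ENNReal.ofReal 4 := by norm_num
          rw [h6, h7, ← ENNReal.ofReal_pow (by positivity), ← ENNReal.ofReal_pow (by positivity),
            ← ENNReal.ofReal_add (by positivity) (by positivity),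
            ← ENNReal.ofReal_mul (by norm_num), ← ENNReal.ofReal_mul (by positivity)]
          congr 1
          ring
  · have : ∀ X : Fin N → P m, ENNReal.ofReal ((DB (e0 m) (R / √N) X) ^ 2) = 0 := by
      intro X
      rw [DB_eq_zero hRN]; simp
    simp only [this, lintegral_zero]
    exact bot_le

theorem KK_sq {m N : ℕ} {R : ℝ} (hN : 1 ≤ N) (hR : 0 < R) :
    KK m N R ^ 2 = (16 : ℝ) ^ (3 / 4 : ℝ) * (2 ^ (m + 5)) ^ (1 / 2 : ℝ) * R ^ (-(1 / 2 : ℝ)) / N := by
  have hN0 : (0 : ℝ) < N := by exact_mod_cast hN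
  have hs : 0 < √(N : ℝ) := Real.sqrt_pos.mpr hN0
  unfold KK
  rw [mul_pow, ← Real.rpow_natCast, ← Real.rpow_natCast, ← Real.rpow_mul (by positivity),
    ← Real.rpow_mul (by positivity)]
  have e1 : (-(3 / 8 : ℝ)) * ((2 : ℕ) : ℝ) = -(3 / 4) := by norm_num
  have e2 : (-(1 / 4 : ℝ)) * ((2 : ℕ) : ℝ) = -(1 / 2) := by norm_num
  rw [e1, e2, Real.div_rpow hN0.le (by norm_num), Real.div_rpow (by positivity) (by positivity),
    Real.mul_rpow hs.le hR.le, Real.sqrt_eq_rpow, ← Real.rpow_mul hN0.le]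
  have e3 : (16 : ℝ) ^ (-(3 / 4 : ℝ)) = ((16 : ℝ) ^ (3 / 4 : ℝ))⁻¹ := Real.rpow_neg (by norm_num) _
  have e4 : ((2 : ℝ) ^ (m + 5)) ^ (-(1 / 2 : ℝ)) = (((2 : ℝ) ^ (m + 5)) ^ (1 / 2 : ℝ))⁻¹ :=
    Real.rpow_neg (by positivity) _
  have e5 : (N : ℝ) ^ (-(3 / 4 : ℝ)) * (N : ℝ) ^ ((1 / 2 : ℝ) * (-(1 / 2))) = (N : ℝ)⁻¹ := by
    rw [← Real.rpow_add hN0, ← Real.rpow_neg_one]
    congr 1
    norm_num
  rw [e3, e4, div_inv_eq_mul, div_inv_eq_mul, div_eq_mul_inv _ (N : ℝ), ← e5]
  ring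

/-- invariance under the symmetries -/
theorem DB_sym {m N : ℕ} (e : Edge m) (g : P m ≃ᵐ P m)
    (hU : ∀ (I : Fin (m + 2) → P m) (q : P m), q ∈ U e I ↔ g q ∈ U (e0 m) (fun i => g (I i)))
    (hD : ∀ (I : Fin (m + 2) → P m), Dom e I ↔ Dom (e0 m) (fun i => g (I i)))
    (hphi : ∀ (I : Fin (m + 2) → P m), phi (fun i => g (I i)) = phi I)
    (hw : ∀ (ρ : ℝ) (q : P m), q ∈ win e ρ ↔ g q ∈ win (e0 m) ρ) (ρ : ℝ) (X : Fin N → P m) :
    DB e ρ X = DB (e0 m) ρ (fun k => g (X k)) := by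
  have hsub : ∀ I : Fin (m + 2) → P m, U e I ⊆ win e ρ ↔
      U (e0 m) (fun i => g (I i)) ⊆ win (e0 m) ρ := by
    intro I
    constructor
    · intro h q hq
      obtain ⟨q', rfl⟩ := g.surjective q
      exact (hw ρ q').mp (h ((hU I q').mpr hq))
    · intro h q hq
      exact (hw ρ q).mpr (h ((hU I q).mp hq))
  have hg : ∀ I : Fin (m + 2) → P m, gB e ρ I = gB (e0 m) ρ (fun i => g (I i)) := by
    intro I
    unfold gB
    have hiff := and_congr (hD I) (not_congr (hsub I))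
    by_cases h : Dom e I ∧ ¬ U e I ⊆ win e ρ
    · rw [if_pos h, if_pos (hiff.mp h), hphi]
    · rw [if_neg h, if_neg (fun h' => h (hiff.mpr h'))]
  unfold DB Sm
  refine Finset.sum_congr rfl fun ι _ => ?_
  have h1 : ((fun k => g (X k)) ∘ ι) = fun i => g ((X ∘ ι) i) := rfl
  rw [h1, hg]
  have h2 : (∀ k ∉ range ι, X k ∉ U e (X ∘ ι)) ↔
      (∀ k ∉ range ι, g (X k) ∉ U (e0 m) (fun i => g ((X ∘ ι) i))) :=
    forall_congr' fun k => forall_congr' fun _ => not_congr (hU _ _)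
  by_cases h : ∀ k ∉ range ι, X k ∉ U e (X ∘ ι)
  · rw [if_pos h, if_pos (h2.mp h)]
  · rw [if_neg h, if_neg (fun h' => h (h2.mpr h'))]

end Pool.Agent.B05.Bad

namespace Pool.Agent.B05

open Bad in
theorem bad_small (m : ℕ) : ∃ ε : ℝ → ℝ, Tendsto ε atTop (𝓝 0) ∧ (∀ R, 0 ≤ ε R) ∧
    ∀ (e : Edge m) (R : ℝ), 0 < R → ∀ N : ℕ, m + 3 ≤ N →
      ∫⁻ X, ENNReal.ofReal ((DB e (R / √N) X) ^ 2) ∂(law m N) ≤ ENNReal.ofReal (ε R / N) := by
  set C : ℝ := 8 * ((m + 1) * 16 ^ m) ^ 2 *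
    ((16 : ℝ) ^ (3 / 4 : ℝ) * (2 ^ (m + 5)) ^ (1 / 2 : ℝ)) with hC
  have hC0 : 0 ≤ C := by positivity
  refine ⟨fun R => C * |R| ^ (-(1 / 2 : ℝ)), ?_, fun R => by positivity, ?_⟩
  · have h1 : Tendsto (fun R : ℝ => |R| ^ (-(1 / 2 : ℝ))) atTop (𝓝 0) :=
      (tendsto_rpow_neg_atTop (by norm_num : (0 : ℝ) < 1 / 2)).comp tendsto_abs_atTop_atTop
    simpa using h1.const_mul C
  · intro e R hR N hN
    obtain ⟨g, hg, -, hU, hD, hphi, hw⟩ := exists_sym e
    have h1 : ∫⁻ X, ENNReal.ofReal ((DB e (R / √N) X) ^ 2) ∂(law m N) =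
        ∫⁻ X, ENNReal.ofReal ((DB (e0 m) (R / √N) X) ^ 2) ∂(law m N) := by
      have hmp : MeasurePreserving (MeasurableEquiv.piCongrRight fun _ : Fin N => g)
          (law m N) (law m N) := by
        unfold law
        exact measurePreserving_pi _ _ fun _ => hg
      have h3 := hmp.lintegral_comp_emb (MeasurableEquiv.measurableEmbedding _)
        (fun X => ENNReal.ofReal ((DB (e0 m) (R / √N) X) ^ 2))
      rw [← h3]
      refine lintegral_congr fun X => ?_
      rw [DB_sym e g hU hD hphi hw]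
      rfl
    rw [h1]
    have hN1 : 1 ≤ N := by omega
    refine (bad_e0 hR hN1).trans (ENNReal.ofReal_le_ofReal (le_of_eq ?_))
    have h2 : 8 * ((m + 1 : ℝ) * 16 ^ m * KK m N R) ^ 2 =
        8 * ((m + 1 : ℝ) * 16 ^ m) ^ 2 * KK m N R ^ 2 := by ring
    show _ = C * |R| ^ (-(1 / 2 : ℝ)) / N
    rw [h2, KK_sq hN1 hR, abs_of_pos hR, hC]
    ring

end Pool.Agent.B05
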