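import Mathlib

/-!
# Closed formula for the volume of a box cut by one or two half-spaces

A sum over the vertices of the box; for two half-spaces, each summand is a divided difference
of a truncated power.
-/

set_option autoImplicit false

open MeasureTheory Set Filter Topology
open scoped ENNReal MeasureTheory

namespace Pool.Agent.B05.Closed

/-- truncated power -/
noncomputable def pp (k : ℕ) (x : ℝ) : ℝ := if 0 < x then x ^ k / k.factorial else 0

theorem pp_succ_eq (k : ℕ) (x : ℝ) : pp (k + 1) x = (max x 0) ^ (k + 1) / (k + 1).factorial := by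
  unfold pp
  split_ifs with h
  · rw [max_eq_left h.le]
  · rw [max_eq_right (not_lt.1 h)]
    simp

theorem continuous_pp_succ (k : ℕ) : Continuous (pp (k + 1)) := by
  have : pp (k + 1) = fun x : ℝ => (max x 0) ^ (k + 1) / ((k + 1).factorial : ℝ) :=
    funext (pp_succ_eq k)
  rw [this]
  exact ((continuous_id.max continuous_const).pow _).div_const _

theorem measurable_pp (k : ℕ) : Measurable (pp k) := by
  unfold pp
  refine Measurable.ite measurableSet_Ioi ?_ measurable_const
  fun_prop

theorem abs_pp_le (k : ℕ) (x : ℝ) : |pp k x| ≤ |x| ^ k := by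
  unfold pp
  split_ifs with h
  · rw [abs_div, abs_pow, abs_of_pos (by positivity : (0 : ℝ) < k.factorial)]
    apply div_le_self (by positivity)
    exact_mod_cast Nat.factorial_pos k
  · simp

theorem hasDerivAt_pp (k : ℕ) {x : ℝ} (hx : x ≠ 0) : HasDerivAt (pp (k + 1)) (pp k x) x := by
  rcases lt_or_gt_of_ne hx with h | h
  · have e : pp (k + 1) =ᶠ[𝓝 x] fun _ => 0 := by
      filter_upwards [eventually_lt_nhds h] with y hy
      rw [pp, if_neg (not_lt.2 hy.le)]
    rw [pp, if_neg (not_lt.2 h.le)]
    exact (hasDerivAt_const x (0 : ℝ)).congr_of_eventuallyEq e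
  · have e : pp (k + 1) =ᶠ[𝓝 x] fun y => y ^ (k + 1) / (k + 1).factorial := by
      filter_upwards [eventually_gt_nhds h] with y hy
      rw [pp, if_pos hy]
    rw [pp, if_pos h]
    refine HasDerivAt.congr_of_eventuallyEq ?_ e
    have := (hasDerivAt_pow (k + 1) x).div_const ((k + 1).factorial : ℝ)
    refine this.congr_deriv ?_
    rw [Nat.factorial_succ]
    have h1 : ((k.factorial : ℕ) : ℝ) ≠ 0 := by positivity
    push_cast
    field_simp

/-- sum of the reciprocals -/
theorem sum_inv_prod (s : Finset ℝ) (hs : s.Nonempty) (ρ : ℝ) (hρ : ρ ∉ s) :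
    ∑ σ ∈ insert ρ s, (∏ τ ∈ (insert ρ s).erase σ, (τ - σ))⁻¹ = 0 := by
  have h := Lagrange.sum_basis (s := s) (v := (id : ℝ → ℝ)) (injOn_id _) hs
  have h2 := congrArg (Polynomial.eval ρ) h
  rw [Polynomial.eval_finsetSum, Polynomial.eval_one] at h2
  have hne : ∀ τ ∈ s, τ - ρ ≠ 0 := fun τ hτ => sub_ne_zero.2 fun h => hρ (h ▸ hτ)
  have hprod : ∏ τ ∈ s, (τ - ρ) ≠ 0 := Finset.prod_ne_zero_iff.2 hne
  rw [Finset.sum_insert hρ, Finset.erase_insert hρ]
  have key : ∀ σ ∈ s, (∏ τ ∈ (insert ρ s).erase σ, (τ - σ))⁻¹ =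
      -(Polynomial.eval ρ (Lagrange.basis s id σ)) * (∏ τ ∈ s, (τ - ρ))⁻¹ := by
    intro σ hσ
    have hσρ : ρ ≠ σ := fun h => hρ (h ▸ hσ)
    rw [Finset.erase_insert_of_ne hσρ, Finset.prod_insert (fun h => hρ (Finset.mem_of_mem_erase h)),
      Lagrange.basis, Polynomial.eval_prod]
    have e1 : ∏ τ ∈ s, (τ - ρ) = (σ - ρ) * ∏ τ ∈ s.erase σ, (τ - ρ) :=
      (Finset.mul_prod_erase s (fun τ => τ - ρ) hσ).symm
    rw [e1]
    have e2 : ∏ τ ∈ s.erase σ, Polynomial.eval ρ (Lagrange.basisDivisor (id σ) (id τ)) =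
        (∏ τ ∈ s.erase σ, (τ - ρ)) * (∏ τ ∈ s.erase σ, (τ - σ))⁻¹ := by
      rw [← Finset.prod_inv_distrib, ← Finset.prod_mul_distrib]
      refine Finset.prod_congr rfl fun τ hτ => ?_
      have hτσ : τ ≠ σ := Finset.ne_of_mem_erase hτ
      simp only [Lagrange.basisDivisor, id, Polynomial.eval_mul, Polynomial.eval_C,
        Polynomial.eval_sub, Polynomial.eval_X]
      have a1 : σ - τ ≠ 0 := sub_ne_zero.2 hτσ.symm
      have a2 : τ - σ ≠ 0 := sub_ne_zero.2 hτσ
      field_simp
      ring
    rw [e2]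
    have b1 : ∏ τ ∈ s.erase σ, (τ - ρ) ≠ 0 :=
      Finset.prod_ne_zero_iff.2 fun τ hτ => hne τ (Finset.mem_of_mem_erase hτ)
    have b2 : ∏ τ ∈ s.erase σ, (τ - σ) ≠ 0 :=
      Finset.prod_ne_zero_iff.2 fun τ hτ => sub_ne_zero.2 (Finset.ne_of_mem_erase hτ)
    have b3 : ρ - σ ≠ 0 := sub_ne_zero.2 hσρ
    have b4 : σ - ρ ≠ 0 := sub_ne_zero.2 hσρ.symm
    rw [mul_inv, mul_inv]
    field_simp
    ring
  rw [Finset.sum_congr rfl key, ← Finset.sum_mul]
  rw [Finset.sum_neg_distrib]
  have h3 : ∑ σ ∈ s, Polynomial.eval ρ (Lagrange.basis s id σ) = 1 := h2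
  rw [h3]
  ring

/-- divided difference -/
noncomputable def T (s : Finset ℝ) (k : ℕ) (β β' : ℝ) : ℝ :=
  ∑ σ ∈ s, pp k (β' - σ * β) * (∏ τ ∈ s.erase σ, (τ - σ))⁻¹

/-- Volume of the part of an orthant cut off by two half-spaces -/
noncomputable def Phi (s : Finset ℝ) (k : ℕ) (β β' : ℝ) : ℝ := if 0 < β then T s k β β' else 0

theorem T_zero (s : Finset ℝ) (hs : s.Nonempty) (ρ : ℝ) (hρ : ρ ∉ s) (k : ℕ) (β' : ℝ) :
    T (insert ρ s) k 0 β' = 0 := by
  unfold T
  simp only [mul_zero, sub_zero]
  rw [← Finset.mul_sum, sum_inv_prod s hs ρ hρ, mul_zero]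

theorem continuous_T_line (s : Finset ℝ) (k : ℕ) (β β' α α' : ℝ) :
    Continuous fun q : ℝ => T s (k + 1) (β - α * q) (β' - α' * q) := by
  unfold T
  refine continuous_finsetSum _ fun σ _ => ?_
  refine Continuous.mul ?_ continuous_const
  exact (continuous_pp_succ k).comp (by fun_prop)

theorem continuous_Phi_line (s : Finset ℝ) (hs : s.Nonempty) (ρ : ℝ) (hρ : ρ ∉ s) (k : ℕ)
    (β β' α α' : ℝ) :
    Continuous fun q : ℝ => Phi (insert ρ s) (k + 1) (β - α * q) (β' - α' * q) := by
  have e : (fun q : ℝ => Phi (insert ρ s) (k + 1) (β - α * q) (β' - α' * q)) = fun q =>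
      if β - α * q ≤ 0 then 0 else T (insert ρ s) (k + 1) (β - α * q) (β' - α' * q) := by
    funext q
    unfold Phi
    by_cases h : 0 < β - α * q
    · rw [if_pos h, if_neg (not_le.2 h)]
    · rw [if_neg h, if_pos (not_lt.1 h)]
  rw [e]
  refine Continuous.if_le continuous_const (continuous_T_line _ k β β' α α') (by fun_prop)
    continuous_const ?_
  intro q hq
  rw [hq, T_zero s hs ρ hρ]

theorem measurable_Phi (s : Finset ℝ) (k : ℕ) :
    Measurable fun p : ℝ × ℝ => Phi s k p.1 p.2 := by
  unfold Phi T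
  refine Measurable.ite (measurableSet_lt measurable_const measurable_fst) ?_ measurable_const
  refine Finset.measurable_fun_sum _ fun σ _ => ?_
  refine Measurable.mul ?_ measurable_const
  exact (measurable_pp k).comp (by fun_prop)

theorem bdd_Phi (s : Finset ℝ) (k : ℕ) (R : ℝ) :
    ∃ C, ∀ p : ℝ × ℝ, ‖p‖ ≤ R → |Phi s k p.1 p.2| ≤ C := by
  refine ⟨∑ σ ∈ s, (R + |σ| * R) ^ k * |(∏ τ ∈ s.erase σ, (τ - σ))⁻¹|, fun p hp => ?_⟩
  have h1 : |p.1| ≤ R := (norm_fst_le p).trans hp
  have h2 : |p.2| ≤ R := (norm_snd_le p).trans hp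
  have hR : 0 ≤ R := (abs_nonneg _).trans h1
  have h0 : (0 : ℝ) ≤ ∑ σ ∈ s, (R + |σ| * R) ^ k * |(∏ τ ∈ s.erase σ, (τ - σ))⁻¹| :=
    Finset.sum_nonneg fun σ _ => by positivity
  unfold Phi
  split_ifs with h
  · unfold T
    refine (Finset.abs_sum_le_sum_abs _ _).trans (Finset.sum_le_sum fun σ _ => ?_)
    rw [abs_mul]
    refine mul_le_mul_of_nonneg_right ?_ (abs_nonneg _)
    refine (abs_pp_le k _).trans (pow_le_pow_left₀ (abs_nonneg _) ?_ k)
    calc |p.2 - σ * p.1| ≤ |p.2| + |σ * p.1| := abs_sub _ _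
      _ ≤ R + |σ| * R := by
        rw [abs_mul]
        have := mul_le_mul_of_nonneg_left h1 (abs_nonneg σ)
        linarith
  · simpa using h0

/-- The step of the induction. -/
theorem step_Phi (s : Finset ℝ) (hs : s.Nonempty) (k : ℕ) (β β' α α' b : ℝ) (hα : α ≠ 0)
    (hρ : α' / α ∉ s) :
    ∫ q in (0 : ℝ)..b, Phi s k (β - α * q) (β' - α' * q) =
      α⁻¹ * (Phi (insert (α' / α) s) (k + 1) β β' -
        Phi (insert (α' / α) s) (k + 1) (β - α * b) (β' - α' * b)) := by
  set ρ := α' / α with hρd
  have hαρ : α' = α * ρ := by rw [hρd]; field_simp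
  set H : ℝ → ℝ := fun q => -(α⁻¹ * Phi (insert ρ s) (k + 1) (β - α * q) (β' - α' * q)) with hH
  have hcont : Continuous H :=
    ((continuous_Phi_line s hs ρ hρ k β β' α α').const_mul _ |> fun h => (h.neg))
  set bad : Set ℝ := {β / α} ∪ ⋃ σ ∈ s, {(β' - σ * β) / (α' - σ * α)} with hbad
  have hbadc : bad.Countable := by
    refine (countable_singleton _).union ?_
    exact Set.Countable.biUnion s.countable_toSet fun σ _ => countable_singleton _
  have hint : IntervalIntegrable (fun q => Phi s k (β - α * q) (β' - α' * q)) volume 0 b := by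
    have hmeas : Measurable fun q : ℝ => Phi s k (β - α * q) (β' - α' * q) :=
      (measurable_Phi s k).comp (f := fun q : ℝ => ((β - α * q, β' - α' * q) : ℝ × ℝ))
        (by fun_prop)
    set R := |β| + |β'| + (|α| + |α'|) * (|b| + 1) with hR
    obtain ⟨C, hC⟩ := bdd_Phi s k R
    have hb : ∀ q ∈ uIcc 0 b, |Phi s k (β - α * q) (β' - α' * q)| ≤ C := by
      intro q hq
      apply hC (β - α * q, β' - α' * q)
      have hqb : |q| ≤ |b| + 1 := by
        rcases mem_uIcc.1 hq with ⟨h1, h2⟩ | ⟨h1, h2⟩
        · rw [abs_of_nonneg h1]; exact h2.trans ((le_abs_self b).trans (by linarith))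
        · rw [abs_of_nonpos h2]; linarith [neg_abs_le b]
      rw [Prod.norm_def]
      refine max_le ?_ ?_
      · rw [Real.norm_eq_abs]
        calc |β - α * q| ≤ |β| + |α * q| := abs_sub _ _
          _ = |β| + |α| * |q| := by rw [abs_mul]
          _ ≤ |β| + |α| * (|b| + 1) := by
            have := mul_le_mul_of_nonneg_left hqb (abs_nonneg α); linarith
          _ ≤ R := by
            rw [hR]
            have := mul_nonneg (abs_nonneg α') (by positivity : (0 : ℝ) ≤ |b| + 1)
            have := abs_nonneg β'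
            linarith
      · rw [Real.norm_eq_abs]
        calc |β' - α' * q| ≤ |β'| + |α' * q| := abs_sub _ _
          _ = |β'| + |α'| * |q| := by rw [abs_mul]
          _ ≤ |β'| + |α'| * (|b| + 1) := by
            have := mul_le_mul_of_nonneg_left hqb (abs_nonneg α'); linarith
          _ ≤ R := by
            rw [hR]
            have := mul_nonneg (abs_nonneg α) (by positivity : (0 : ℝ) ≤ |b| + 1)
            have := abs_nonneg β
            linarith
    refine IntervalIntegrable.mono_fun' (g := fun _ => C) intervalIntegrable_const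
      hmeas.aestronglyMeasurable ?_
    refine (ae_restrict_iff' measurableSet_uIoc).2 (Filter.Eventually.of_forall fun q hq => ?_)
    exact hb q (uIoc_subset_uIcc hq)
  have hderiv : ∀ q ∈ Ioo (min 0 b) (max 0 b) \ bad,
      HasDerivAt H (Phi s k (β - α * q) (β' - α' * q)) q := by
    rintro q ⟨_, hq⟩
    have hq1 : β - α * q ≠ 0 := by
      intro h
      apply hq
      left
      rw [mem_singleton_iff, eq_div_iff hα]
      linarith
    have hq2 : ∀ σ ∈ s, (β' - α' * q) - σ * (β - α * q) ≠ 0 := by
      intro σ hσ h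
      apply hq
      right
      simp only [mem_iUnion]
      refine ⟨σ, hσ, ?_⟩
      have hne : α' - σ * α ≠ 0 := by
        rw [hαρ]
        intro h2
        apply hρ
        have : ρ = σ := by
          have h3 : α * (ρ - σ) = 0 := by linarith
          rcases mul_eq_zero.1 h3 with h4 | h4
          · exact absurd h4 hα
          · linarith
        rw [this]; exact hσ
      rw [mem_singleton_iff, eq_div_iff hne]
      linarith
    rcases lt_or_gt_of_ne hq1 with h | h
    · have e : H =ᶠ[𝓝 q] fun _ => 0 := by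
        have hc : ContinuousAt (fun q => β - α * q) q := by fun_prop
        filter_upwards [hc.eventually (eventually_lt_nhds h)] with y hy
        rw [hH]
        simp only [Phi]
        rw [if_neg (not_lt.2 hy.le)]
        simp
      rw [Phi, if_neg (not_lt.2 h.le)]
      exact (hasDerivAt_const q (0 : ℝ)).congr_of_eventuallyEq e
    · have e : H =ᶠ[𝓝 q] fun q => -(α⁻¹ * T (insert ρ s) (k + 1) (β - α * q) (β' - α' * q)) := by
        have hc : ContinuousAt (fun q => β - α * q) q := by fun_prop
        filter_upwards [hc.eventually (eventually_gt_nhds h)] with y hy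
        rw [hH]
        simp only [Phi]
        rw [if_pos hy]
      rw [Phi, if_pos h]
      refine HasDerivAt.congr_of_eventuallyEq ?_ e
      -- derivative of each term
      have hterm : ∀ σ ∈ insert ρ s, HasDerivAt
          (fun q => pp (k + 1) ((β' - α' * q) - σ * (β - α * q)) *
            (∏ τ ∈ (insert ρ s).erase σ, (τ - σ))⁻¹)
          ((if σ = ρ then 0 else -(α' - σ * α) * pp k ((β' - α' * q) - σ * (β - α * q))) *
            (∏ τ ∈ (insert ρ s).erase σ, (τ - σ))⁻¹) q := by
        intro σ hσ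
        refine HasDerivAt.mul_const ?_ _
        have hlin : HasDerivAt (fun q => (β' - α' * q) - σ * (β - α * q)) (-(α' - σ * α)) q := by
          have h1 := ((hasDerivAt_id q).const_mul α').const_sub β'
          have h2 := (((hasDerivAt_id q).const_mul α).const_sub β).const_mul σ
          have h3 := h1.sub h2
          refine h3.congr_deriv ?_
          ring
        by_cases hσρ : σ = ρ
        · rw [if_pos hσρ]
          have e2 : (fun q => pp (k + 1) ((β' - α' * q) - σ * (β - α * q))) =
              fun _ => pp (k + 1) (β' - ρ * β) := by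
            funext y
            congr 1
            rw [hσρ, hαρ]
            ring
          rw [e2]
          exact hasDerivAt_const q _
        · rw [if_neg hσρ]
          have hσs : σ ∈ s := by
            rcases Finset.mem_insert.1 hσ with h5 | h5
            · exact absurd h5 hσρ
            · exact h5
          have h4 := (hasDerivAt_pp k (hq2 σ hσs)).comp q hlin
          refine h4.congr_deriv ?_
          ring
      have hsum := HasDerivAt.fun_sum (u := insert ρ s) hterm
      have h6 := (hsum.const_mul α⁻¹).neg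
      refine h6.congr_deriv ?_
      unfold T
      rw [Finset.sum_insert hρ, if_pos rfl, zero_mul, zero_add, Finset.mul_sum,
        ← Finset.sum_neg_distrib]
      refine Finset.sum_congr rfl fun σ hσ => ?_
      have hσρ : σ ≠ ρ := fun h => hρ (h ▸ hσ)
      rw [if_neg hσρ, Finset.erase_insert_of_ne hσρ.symm,
        Finset.prod_insert (fun h => hρ (Finset.mem_of_mem_erase h)), mul_inv, hαρ]
      have b3 : ρ - σ ≠ 0 := sub_ne_zero.2 hσρ.symm
      field_simp
  have hfin := MeasureTheory.integral_eq_of_hasDerivAt_off_countable H _ hbadc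
    hcont.continuousOn hderiv hint
  rw [hfin, hH]
  simp only [mul_zero, sub_zero]
  ring

theorem step_pp (k : ℕ) (β α b : ℝ) (hα : α ≠ 0) :
    ∫ q in (0 : ℝ)..b, pp k (β - α * q) = α⁻¹ * (pp (k + 1) β - pp (k + 1) (β - α * b)) := by
  have h1 : ∫ q in (0 : ℝ)..b, pp k (β - α * q) =
      α⁻¹ • ∫ x in (β - α * b)..(β - α * 0), pp k x :=
    intervalIntegral.integral_comp_sub_mul (fun x => pp k x) hα β
  have hint : IntervalIntegrable (pp k) volume (β - α * b) (β - α * 0) := by
    refine IntervalIntegrable.mono_fun' (g := fun x => |x| ^ k)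
      (by apply Continuous.intervalIntegrable; fun_prop)
      (measurable_pp k).aestronglyMeasurable ?_
    exact Filter.Eventually.of_forall fun x => abs_pp_le k x
  have h2 := MeasureTheory.integral_eq_of_hasDerivAt_off_countable (pp (k + 1)) (pp k)
    (a := β - α * b) (b := β - α * 0) (s := {0}) (countable_singleton _)
    (continuous_pp_succ k).continuousOn (fun x hx => hasDerivAt_pp k fun h => hx.2 h) hint
  rw [h1, h2, smul_eq_mul, mul_zero, sub_zero]

end Pool.Agent.B05.Closed
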