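import Pool.Agent.Lib.MP_b05ae9_pr.Closed1

/-!
# Closed formula for the volume of a box cut by one or two half-spaces: the induction
-/

set_option autoImplicit false

open MeasureTheory Set Filter Topology
open scoped ENNReal MeasureTheory

namespace Pool.Agent.B05.Closed

variable {E : Type*} [NormedAddCommGroup E] [NormedSpace ℝ E] [MeasurableSpace E] [BorelSpace E]

/-- measurable and locally bounded -/
def LB (g : E → ℝ) : Prop := Measurable g ∧ ∀ R : ℝ, ∃ C, ∀ y, ‖y‖ ≤ R → |g y| ≤ C

omit [NormedSpace ℝ E] in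
theorem LB.integrableOn {F : Type*} [TopologicalSpace F] [MeasurableSpace F]
    [OpensMeasurableSpace F] [T2Space F] {μ : Measure F} [IsFiniteMeasureOnCompacts μ] {g : E → ℝ}
    (hg : LB g) {φ : F → E} (hφ : Continuous φ) {K : Set F} (hK : IsCompact K) :
    IntegrableOn (fun z => g (φ z)) K μ := by
  obtain ⟨R, hR⟩ := hK.exists_bound_of_continuousOn hφ.continuousOn
  obtain ⟨C, hC⟩ := hg.2 R
  refine Measure.integrableOn_of_bounded (M := C) hK.measure_lt_top.ne
    (hg.1.comp hφ.measurable).aestronglyMeasurable ?_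
  exact (ae_restrict_iff' hK.measurableSet).2
    (Filter.Eventually.of_forall fun z hz => hC _ (hR z hz))

theorem box_induction (n : ℕ) : ∀ (G : ℕ → E → ℝ) (w : Fin n → E) (b c : Fin n → ℝ),
    (∀ i, 0 ≤ b i) → (∀ i, LB (G i)) →
    (∀ (i : Fin n) (x : E), ∫ q in (0 : ℝ)..(b i), G i (x - q • w i) =
      c i * (G (i + 1) x - G (i + 1) (x - b i • w i))) → ∀ x : E,
    ∫ q in Icc (0 : Fin n → ℝ) b, G 0 (x - ∑ i, q i • w i) =
      (∏ i, c i) * ∑ v : Fin n → Fin 2, (-1) ^ (∑ i, (v i : ℕ)) *
        G n (x - ∑ i, (((v i : ℕ) : ℝ) * b i) • w i) := by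
  induction n with
  | zero =>
    intro G w b c _ _ _ x
    simp only [Finset.univ_eq_empty, Finset.sum_empty, Finset.prod_empty, sub_zero, pow_zero,
      one_mul, Finset.sum_const]
    rw [integral_const]
    have e : Icc (0 : Fin 0 → ℝ) b = univ := by
      ext y
      simp only [mem_Icc, mem_univ, iff_true]
      exact ⟨fun i => i.elim0, fun i => i.elim0⟩
    have hv : (volume : Measure (Fin 0 → ℝ)) univ = 1 := by
      rw [volume_pi, Measure.pi_of_empty]
      simp
    rw [e, Measure.restrict_univ, Measure.real, hv]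
    simp
  | succ n ih =>
    intro G w b c hb hG step x
    set b' : Fin n → ℝ := fun i => b i.succ with hb'
    set w' : Fin n → E := fun i => w i.succ with hw'
    have hmp := (volume_preserving_piFinSuccAbove (fun _ : Fin (n + 1) => ℝ) 0).symm
    have hpre : (MeasurableEquiv.piFinSuccAbove (fun _ : Fin (n + 1) => ℝ) 0).symm ⁻¹'
        Icc (0 : Fin (n + 1) → ℝ) b = Icc (0 : ℝ) (b 0) ×ˢ Icc (0 : Fin n → ℝ) b' := by
      ext ⟨s, z⟩
      have e1 : ∀ i : Fin (n + 1), (MeasurableEquiv.piFinSuccAbove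
        (fun _ : Fin (n + 1) => ℝ) 0).symm (s, z) i = (Fin.cons s z : Fin (n + 1) → ℝ) i :=
        fun i => by refine Fin.cases ?_ (fun j => ?_) i <;> rfl
      simp only [mem_preimage, mem_Icc, mem_prod, Pi.le_def, Pi.zero_apply]
      constructor
      · rintro ⟨h1, h2⟩
        exact ⟨⟨by simpa [e1] using h1 0, by simpa [e1] using h2 0⟩,
          fun i => by simpa [e1] using h1 i.succ, fun i => by simpa [e1] using h2 i.succ⟩
      · rintro ⟨⟨h1, h2⟩, h3, h4⟩
        refine ⟨fun i => ?_, fun i => ?_⟩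
        · rw [e1]
          refine Fin.cases ?_ (fun i => ?_) i
          · simpa using h1
          · simpa using h3 i
        · rw [e1]
          refine Fin.cases ?_ (fun i => ?_) i
          · simpa using h2
          · simpa using h4 i
    have h1 : ∫ q in Icc (0 : Fin (n + 1) → ℝ) b, G 0 (x - ∑ i, q i • w i) =
        ∫ p in Icc (0 : ℝ) (b 0) ×ˢ Icc (0 : Fin n → ℝ) b',
          G 0 (x - p.1 • w 0 - ∑ i, p.2 i • w' i) := by
      rw [← hmp.setIntegral_preimage_emb (MeasurableEquiv.measurableEmbedding _) _ _, hpre]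
      refine setIntegral_congr_fun (measurableSet_Icc.prod measurableSet_Icc) fun p _ => ?_
      have e1 : ∀ i : Fin (n + 1), (MeasurableEquiv.piFinSuccAbove
        (fun _ : Fin (n + 1) => ℝ) 0).symm p i = (Fin.cons p.1 p.2 : Fin (n + 1) → ℝ) i :=
        fun i => by refine Fin.cases ?_ (fun j => ?_) i <;> rfl
      simp only [e1]
      rw [Fin.sum_univ_succ]
      simp only [Fin.cons_zero, Fin.cons_succ]
      congr 1
      rw [sub_sub]
    have hcont : Continuous fun p : ℝ × (Fin n → ℝ) => x - p.1 • w 0 - ∑ i, p.2 i • w' i := by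
      fun_prop
    have hint : IntegrableOn (fun p : ℝ × (Fin n → ℝ) =>
        G 0 (x - p.1 • w 0 - ∑ i, p.2 i • w' i)) (Icc (0 : ℝ) (b 0) ×ˢ Icc (0 : Fin n → ℝ) b')
        ((volume : Measure ℝ).prod volume) :=
      (hG 0).integrableOn hcont (isCompact_Icc.prod isCompact_Icc)
    have h2 : ∫ p in Icc (0 : ℝ) (b 0) ×ˢ Icc (0 : Fin n → ℝ) b',
          G 0 (x - p.1 • w 0 - ∑ i, p.2 i • w' i) =
        ∫ z in Icc (0 : Fin n → ℝ) b', ∫ s in Icc (0 : ℝ) (b 0),
          G 0 (x - s • w 0 - ∑ i, z i • w' i) := by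
      rw [Measure.volume_eq_prod, ← Measure.prod_restrict]
      rw [integral_prod_symm]
      rw [Measure.prod_restrict]
      exact hint
    have h3 : ∀ z : Fin n → ℝ, ∫ s in Icc (0 : ℝ) (b 0), G 0 (x - s • w 0 - ∑ i, z i • w' i) =
        c 0 * (G 1 (x - ∑ i, z i • w' i) - G 1 ((x - b 0 • w 0) - ∑ i, z i • w' i)) := by
      intro z
      rw [integral_Icc_eq_integral_Ioc, ← intervalIntegral.integral_of_le (hb 0)]
      have h4 := step 0 (x - ∑ i, z i • w' i)
      simp only [Fin.val_zero, zero_add] at h4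
      rw [sub_right_comm x (b 0 • w 0), ← h4]
      refine intervalIntegral.integral_congr fun s _ => ?_
      rw [sub_right_comm]
    have hi : ∀ y : E, IntegrableOn (fun z : Fin n → ℝ => G 1 (y - ∑ i, z i • w' i))
        (Icc (0 : Fin n → ℝ) b') := fun y => (hG 1).integrableOn (by fun_prop) isCompact_Icc
    have h5 : ∀ y : E, ∫ z in Icc (0 : Fin n → ℝ) b', G 1 (y - ∑ i, z i • w' i) =
        (∏ i : Fin n, c i.succ) * ∑ v : Fin n → Fin 2, (-1) ^ (∑ i, (v i : ℕ)) *
        G (n + 1) (y - ∑ i, (((v i : ℕ) : ℝ) * b' i) • w' i) := by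
      intro y
      have := ih (fun i => G (i + 1)) w' b' (fun i => c i.succ) (fun i => hb i.succ)
        (fun i => hG (i + 1)) (fun i y => by
          have := step i.succ y
          simpa using this) y
      exact this
    rw [h1, h2]
    simp only [h3]
    rw [integral_const_mul, integral_sub (hi x) (hi (x - b 0 • w 0)), h5, h5,
      Fin.prod_univ_succ, ← mul_sub, mul_assoc, ← mul_assoc]
    rw [mul_assoc]
    congr 1
    congr 1
    rw [← (Fin.consEquiv (fun _ : Fin (n + 1) => Fin 2)).sum_comp, Fintype.sum_prod_type,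
      Fin.sum_univ_two, sub_eq_add_neg, ← Finset.sum_neg_distrib]
    congr 1
    · refine Finset.sum_congr rfl fun v _ => ?_
      simp only [Fin.consEquiv_apply, Fin.sum_univ_succ, Fin.cons_zero, Fin.cons_succ,
        Fin.val_zero, zero_add, Nat.cast_zero, zero_mul, zero_smul, hb', hw']
    · refine Finset.sum_congr rfl fun v _ => ?_
      simp only [Fin.consEquiv_apply, Fin.sum_univ_succ, Fin.cons_zero, Fin.cons_succ,
        Fin.val_one, Nat.cast_one, one_mul, hb', hw', pow_add, pow_one, sub_sub]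
      ring

end Pool.Agent.B05.Closed
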