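import Pool.Agent.Lib.MP_b05ae9_pr.Closed2

/-!
# Closed formula for the volume of a box cut by one or two half-spaces: boxes
-/

set_option autoImplicit false

open MeasureTheory Set Filter Topology
open scoped ENNReal MeasureTheory

namespace Pool.Agent.B05.Closed

/-- nodes -/
noncomputable def nodes (ρ : ℕ → ℝ) (i : ℕ) : Finset ℝ := insert 0 ((Finset.range i).image ρ)

theorem nodes_succ (ρ : ℕ → ℝ) (i : ℕ) : nodes ρ (i + 1) = insert (ρ i) (nodes ρ i) := by
  unfold nodes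
  rw [Finset.range_add_one, Finset.image_insert, Finset.insert_comm]

theorem LB_Phi (s : Finset ℝ) (k : ℕ) : LB (fun p : ℝ × ℝ => Phi s k p.1 p.2) :=
  ⟨measurable_Phi s k, bdd_Phi s k⟩

theorem LB_pp (k : ℕ) : LB (pp k) := by
  refine ⟨measurable_pp k, fun R => ⟨R ^ k, fun y hy => ?_⟩⟩
  exact (abs_pp_le k y).trans (pow_le_pow_left₀ (abs_nonneg _) hy k)

theorem box_Phi (n : ℕ) (b α α' : Fin n → ℝ) (hb : ∀ i, 0 ≤ b i) (hα : ∀ i, α i ≠ 0)
    (h0 : ∀ i, α' i / α i ≠ 0) (hinj : Function.Injective fun i => α' i / α i) (β β' : ℝ) :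
    ∫ q in Icc (0 : Fin n → ℝ) b, Phi {0} 0 (β - ∑ i, α i * q i) (β' - ∑ i, α' i * q i) =
      (∏ i, α i)⁻¹ * ∑ v : Fin n → Fin 2, (-1) ^ (∑ i, (v i : ℕ)) *
        Phi (insert 0 (Finset.univ.image fun i => α' i / α i)) n
          (β - ∑ i, α i * (((v i : ℕ) : ℝ) * b i)) (β' - ∑ i, α' i * (((v i : ℕ) : ℝ) * b i)) := by
  set ρ : ℕ → ℝ := fun i => if h : i < n then α' ⟨i, h⟩ / α ⟨i, h⟩ else 0 with hρ
  have hρi : ∀ i : Fin n, ρ i = α' i / α i := fun i => by
    rw [hρ]
    simp only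
    rw [dif_pos i.2]
  have hmem : ∀ i : Fin n, α' i / α i ∉ nodes ρ i := by
    intro i hi
    rcases Finset.mem_insert.1 hi with h | h
    · exact h0 i h
    · obtain ⟨j, hj, hj2⟩ := Finset.mem_image.1 h
      have hji : j < i := Finset.mem_range.1 hj
      have hjn : j < n := hji.trans i.2
      have h3 := hρi ⟨j, hjn⟩
      simp only at h3
      rw [h3] at hj2
      have h4 : (⟨j, hjn⟩ : Fin n) = i := hinj hj2
      rw [← h4] at hji
      exact lt_irrefl _ hji
  have key := box_induction (E := ℝ × ℝ) n (fun i p => Phi (nodes ρ i) i p.1 p.2)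
    (fun i => (α i, α' i)) b (fun i => (α i)⁻¹) hb (fun i => LB_Phi _ _) (by
      intro i x
      have h1 := step_Phi (nodes ρ i) ⟨0, Finset.mem_insert_self _ _⟩ i x.1 x.2 (α i) (α' i) (b i)
        (hα i) (hmem i)
      have h2 : nodes ρ (i + 1) = insert (α' i / α i) (nodes ρ i) := by
        rw [nodes_succ, hρi]
      simp only [Prod.fst_sub, Prod.snd_sub, Prod.smul_fst, Prod.smul_snd, smul_eq_mul]
      rw [h2, mul_comm (b i) (α i), mul_comm (b i) (α' i), ← h1]
      refine intervalIntegral.integral_congr fun q _ => ?_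
      simp only [mul_comm q]) (β, β')
  have hn0 : nodes ρ 0 = {0} := by
    unfold nodes
    simp
  have hnn : nodes ρ n = insert 0 (Finset.univ.image fun i => α' i / α i) := by
    unfold nodes
    congr 1
    ext x
    simp only [Finset.mem_image, Finset.mem_range, Finset.mem_univ, true_and]
    constructor
    · rintro ⟨j, hj, rfl⟩
      exact ⟨⟨j, hj⟩, (hρi ⟨j, hj⟩).symm⟩
    · rintro ⟨j, rfl⟩
      exact ⟨j, j.2, hρi j⟩
  simp only [Prod.fst_sub, Prod.snd_sub, Prod.fst_sum, Prod.snd_sum, Prod.smul_fst, Prod.smul_snd,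
    smul_eq_mul, hn0, hnn] at key
  rw [Finset.prod_inv_distrib] at key
  have e1 : ∀ (f g : Fin n → ℝ), ∑ i, f i * g i = ∑ i, g i * f i := fun f g =>
    Finset.sum_congr rfl fun i _ => mul_comm _ _
  have k2 := key
  simp only [e1 _ α, e1 _ α'] at k2
  exact k2

theorem box_pp (n : ℕ) (b α : Fin n → ℝ) (hb : ∀ i, 0 ≤ b i) (hα : ∀ i, α i ≠ 0) (β : ℝ) :
    ∫ q in Icc (0 : Fin n → ℝ) b, pp 0 (β - ∑ i, α i * q i) =
      (∏ i, α i)⁻¹ * ∑ v : Fin n → Fin 2, (-1) ^ (∑ i, (v i : ℕ)) *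
        pp n (β - ∑ i, α i * (((v i : ℕ) : ℝ) * b i)) := by
  have key := box_induction (E := ℝ) n pp α b (fun i => (α i)⁻¹) hb LB_pp (by
      intro i x
      have h1 := step_pp i x (α i) (b i) (hα i)
      simp only [smul_eq_mul]
      rw [mul_comm (b i) (α i), ← h1]
      refine intervalIntegral.integral_congr fun q _ => ?_
      simp only [mul_comm q]) β
  rw [Finset.prod_inv_distrib] at key
  simp only [smul_eq_mul] at key
  have e1 : ∀ (f g : Fin n → ℝ), ∑ i, f i * g i = ∑ i, g i * f i := fun f g =>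
    Finset.sum_congr rfl fun i _ => mul_comm _ _
  have k2 := key
  simp only [e1 _ α] at k2
  exact k2

/-- The divided difference written as a sum over an index set. -/
theorem T_image {n : ℕ} (r : Fin n → ℝ) (hr : Function.Injective r) (k : ℕ) (β β' : ℝ) :
    T (Finset.univ.image r) k β β' =
      ∑ l, pp k (β' - r l * β) * (∏ j ∈ Finset.univ.erase l, (r j - r l))⁻¹ := by
  unfold T
  rw [Finset.sum_image fun x _ y _ h => hr h]
  refine Finset.sum_congr rfl fun l _ => ?_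
  rw [← Finset.image_erase hr, Finset.prod_image fun x _ y _ h => hr h]

theorem insert_image {n : ℕ} (ρ : Fin n → ℝ) :
    insert 0 (Finset.univ.image ρ) = Finset.univ.image (Fin.cons 0 ρ : Fin (n + 1) → ℝ) := by
  ext x
  simp only [Finset.mem_insert, Finset.mem_image, Finset.mem_univ, true_and]
  constructor
  · rintro (rfl | ⟨j, rfl⟩)
    · exact ⟨0, rfl⟩
    · exact ⟨j.succ, rfl⟩
  · rintro ⟨j, rfl⟩
    refine Fin.cases ?_ (fun j => ?_) j
    · exact Or.inl rfl
    · exact Or.inr ⟨j, rfl⟩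

theorem injective_cons {n : ℕ} {ρ : Fin n → ℝ} (h0 : ∀ i, ρ i ≠ 0) (h : Function.Injective ρ) :
    Function.Injective (Fin.cons 0 ρ : Fin (n + 1) → ℝ) := by
  rw [Fin.cons_injective_iff]
  refine ⟨?_, h⟩
  rintro ⟨i, hi⟩
  exact h0 i hi

theorem Phi_zero (x y : ℝ) : Phi {0} 0 x y = if 0 < x ∧ 0 < y then 1 else 0 := by
  unfold Phi T
  simp only [Finset.sum_singleton, Finset.erase_singleton, Finset.prod_empty, zero_mul, sub_zero,
    inv_one, mul_one]
  by_cases h1 : 0 < x <;> by_cases h2 : 0 < y <;> simp [pp, h1, h2]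

theorem pp_zero (x : ℝ) : pp 0 x = if 0 < x then 1 else 0 := by
  unfold pp
  simp

end Pool.Agent.B05.Closed
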