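import Pool.Agent.Lib.MP_b05ae9_pr.LimAux

/-!
# MP_b05ae9_pr: limits of the integrands and of the prefactors (tasks J)
-/

set_option autoImplicit false

open MeasureTheory Set Filter Topology
open scoped ENNReal MeasureTheory

namespace Pool.Agent.B05

namespace Lim

variable {m : ℕ}

theorem tendsto_sqrt : Tendsto (fun N : ℕ => √(N : ℝ)) atTop atTop :=
  Real.tendsto_sqrt_atTop.comp tendsto_natCast_atTop_atTop

theorem tendsto_sqrt_mul_phi (I : Fin (m + 2) → P m) :
    Tendsto (fun N : ℕ => √N * phi (fun i => sc N (I i))) atTop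
      (𝓝 ((|cf I 0| + |cf I 1| - √(cf I 0 ^ 2 + cf I 1 ^ 2)) / (m + 1).factorial)) := by
  have h1 : Tendsto (fun N : ℕ => (√(N : ℝ))⁻¹) atTop (𝓝 0) :=
    tendsto_inv_atTop_zero.comp tendsto_sqrt
  have h2 : Tendsto (fun N : ℕ => ((N : ℝ))⁻¹) atTop (𝓝 0) :=
    tendsto_inv_atTop_zero.comp tendsto_natCast_atTop_atTop
  have h3 : Tendsto (fun N : ℕ =>
      (|cf I 0| + |cf I 1| + (√N)⁻¹ * ∑ l : Fin m, |cf I l.succ.succ| -
        √(cf I 0 ^ 2 + cf I 1 ^ 2 + (N : ℝ)⁻¹ * ∑ l : Fin m, cf I l.succ.succ ^ 2)) /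
        (m + 1).factorial) atTop
      (𝓝 ((|cf I 0| + |cf I 1| + 0 * ∑ l : Fin m, |cf I l.succ.succ| -
        √(cf I 0 ^ 2 + cf I 1 ^ 2 + 0 * ∑ l : Fin m, cf I l.succ.succ ^ 2)) /
        (m + 1).factorial)) := by
    refine Tendsto.div_const (Tendsto.sub (Tendsto.add tendsto_const_nhds (h1.mul_const _)) ?_) _
    exact (Real.continuous_sqrt.tendsto _).comp (tendsto_const_nhds.add (h2.mul_const _))
  simp only [zero_mul, add_zero] at h3
  refine h3.congr' ?_
  filter_upwards [eventually_ge_atTop 1] with N hN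
  rw [sqrt_mul_phi hN]

open Classical in
theorem gG_sc {N : ℕ} {R : ℝ} (hR : 0 < R) (hN : R < √N) (I : Fin (m + 2) → P m) :
    gG (e0 m) (R / √N) (fun i => sc N (I i)) =
      if (Dom (e0 m) (fun i => sc N (I i)) ∧ I ∈ fitR R) then phi (fun i => sc N (I i)) else 0 := by
  have hs : (0 : ℝ) < √N := hR.trans hN
  have hN1 : 1 ≤ N := by
    rcases Nat.eq_zero_or_pos N with h | h
    · subst h; simp at hs
    · exact h
  unfold gG
  by_cases hD : Dom (e0 m) (fun i => sc N (I i))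
  · have h1 := ((Dom_sc hN1 I).1 hD).1
    simp only [hD, true_and, fit_iff hR hN h1]
  · simp only [hD, false_and]

open Classical in
theorem tendsto_gG {R : ℝ} (hR : 0 < R) (I : Fin (m + 2) → P m) :
    Tendsto (fun N : ℕ => √N * gG (e0 m) (R / √N) (fun i => sc N (I i))) atTop
      (𝓝 (if I ∈ fitR R then psi I else 0)) := by
  have hev : ∀ᶠ N : ℕ in atTop, R < √(N : ℝ) := tendsto_sqrt.eventually_gt_atTop R
  by_cases hf : I ∈ fitR R
  · by_cases hc : 0 < cf I 0 * cf I 1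
    · simp only [hf, if_true, psi, hc]
      refine (tendsto_sqrt_mul_phi I).congr' ?_
      have hc0 : 0 < |cf I 0| := abs_pos.2 fun h => by rw [h] at hc; simp at hc
      have hc1 : 0 < |cf I 1| := abs_pos.2 fun h => by rw [h] at hc; simp at hc
      have hev2 : ∀ᶠ N : ℕ in atTop, ∀ l : Fin m,
          |cf I l.succ.succ| < √N * |cf I 0| ∧ |cf I l.succ.succ| < √N * |cf I 1| := by
        rw [eventually_all]
        intro l
        exact ((tendsto_sqrt.atTop_mul_const hc0).eventually_gt_atTop _).and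
          ((tendsto_sqrt.atTop_mul_const hc1).eventually_gt_atTop _)
      filter_upwards [hev, hev2, eventually_ge_atTop 1] with N h1 h2 h3
      rw [gG_sc hR h1, if_pos ⟨(Dom_sc h3 I).2 ⟨hc, h2⟩, hf⟩]
    · simp only [hf, if_true, psi, hc, if_false]
      refine tendsto_const_nhds.congr' ?_
      filter_upwards [hev, eventually_ge_atTop 1] with N h1 h3
      rw [gG_sc hR h1, if_neg fun h => hc ((Dom_sc h3 I).1 h.1).1, mul_zero]
  · simp only [hf, if_false]
    refine tendsto_const_nhds.congr' ?_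
    filter_upwards [hev] with N h1
    rw [gG_sc hR h1, if_neg fun h => hf h.2, mul_zero]

theorem gG_nonneg (e : Edge m) (ρ : ℝ) (I : Fin (m + 2) → P m) : 0 ≤ gG e ρ I := by
  unfold gG; split_ifs
  · exact phi_nonneg I
  · exact le_rfl

theorem gG_le (e : Edge m) (ρ : ℝ) (I : Fin (m + 2) → P m) : gG e ρ I ≤ phi I := by
  unfold gG; split_ifs
  · exact le_rfl
  · exact phi_nonneg I

theorem sqrt_gG_le {N : ℕ} (ρ : ℝ) (I : Fin (m + 2) → P m) :
    √N * gG (e0 m) ρ (fun i => sc N (I i)) ≤ ∑ k, |cf I k| :=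
  (mul_le_mul_of_nonneg_left (gG_le _ _ _) (Real.sqrt_nonneg _)).trans (sqrt_phi_le I)

theorem psi_nonneg (I : Fin (m + 2) → P m) : 0 ≤ psi I := by
  unfold psi
  split_ifs
  · refine div_nonneg ?_ (Nat.cast_nonneg _)
    rw [sub_nonneg, Real.sqrt_le_left (by positivity)]
    nlinarith [abs_nonneg (cf I 0), abs_nonneg (cf I 1), sq_abs (cf I 0), sq_abs (cf I 1)]
  · exact le_rfl

/-- the window of size `R` -/
def WR (m : ℕ) (R : ℝ) : Set (P m) := Icc 0 (fun k => if (k : ℕ) < 2 then R else 1)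

theorem mem_WR {R : ℝ} {q : P m} : q ∈ WR m R ↔ (0 ≤ q 0 ∧ q 0 ≤ R) ∧ (0 ≤ q 1 ∧ q 1 ≤ R) ∧
    ∀ l : Fin m, 0 ≤ q l.succ.succ ∧ q l.succ.succ ≤ 1 := by
  have : q ∈ WR m R ↔ ∀ k, 0 ≤ q k ∧ q k ≤ (if (k : ℕ) < 2 then R else 1) := by
    simp only [WR, mem_Icc, Pi.le_def, Pi.zero_apply]
    exact ⟨fun h k => ⟨h.1 k, h.2 k⟩, fun h => ⟨fun k => (h k).1, fun k => (h k).2⟩⟩
  rw [this, forall_fin2]
  simp

theorem WR_subset_W (R : ℝ) : WR m R ⊆ W m := by
  intro q hq
  rw [mem_WR] at hq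
  exact ⟨hq.1.1, hq.2.1.1, hq.2.2⟩

theorem WR_subset_QN {R : ℝ} {N : ℕ} (hN : 1 ≤ N) (h : R ≤ √N) : WR m R ⊆ QN m N := by
  intro q hq
  rw [mem_WR] at hq
  rw [mem_QN hN]
  exact ⟨⟨hq.1.1, hq.1.2.trans h⟩, ⟨hq.2.1.1, hq.2.1.2.trans h⟩, hq.2.2⟩

theorem isCompact_WR (R : ℝ) : IsCompact (WR m R) := isCompact_Icc

theorem measurableSet_WR (R : ℝ) : MeasurableSet (WR m R) := measurableSet_Icc

theorem cap_subset_WR {R : ℝ} {I : Fin (m + 2) → P m} (h : I ∈ fitR R) : cap I ⊆ WR m R := by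
  intro q hq
  rw [mem_WR]
  have := h hq
  exact ⟨⟨hq.1.1, this.1⟩, ⟨hq.1.2.1, this.2⟩, hq.1.2.2⟩

theorem volume_WR_lt_top (R : ℝ) : volume (WR m R) < ∞ := (isCompact_WR R).measure_lt_top

theorem measurableSet_W : MeasurableSet (W m) := by
  have h0 : MeasurableSet {p : P m | 0 ≤ p 0} := measurableSet_le measurable_const (measurable_pi_apply 0)
  have h1 : MeasurableSet {p : P m | 0 ≤ p 1} := measurableSet_le measurable_const (measurable_pi_apply 1)
  have h2 : MeasurableSet {p : P m | ∀ l : Fin m, 0 ≤ p l.succ.succ ∧ p l.succ.succ ≤ 1} := by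
    simp only [Set.ofPred_forall]
    exact MeasurableSet.iInter fun l =>
      (measurableSet_le measurable_const (measurable_pi_apply _)).inter
      (measurableSet_le (measurable_pi_apply _) measurable_const)
  exact h0.inter (h1.inter h2)

theorem measurableSet_capset :
    MeasurableSet {p : (Fin (m + 2) → P m) × P m | p.2 ∈ cap p.1} := by
  have h2 : MeasurableSet {p : (Fin (m + 2) → P m) × P m | F p.1 p.2 * cf p.1 0 < 0} :=
    measurableSet_lt (continuous_F.mul ((continuous_cf _).comp continuous_fst)).measurable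
      measurable_const
  exact (measurable_snd measurableSet_W).inter h2

theorem measurableSet_cap (I : Fin (m + 2) → P m) : MeasurableSet (cap I) :=
  (measurable_prodMk_left : Measurable (fun q : P m => (I, q))) measurableSet_capset

theorem measurableSet_U' (e : Edge m) (I : Fin (m + 2) → P m) : MeasurableSet (U e I) :=
  (measurable_prodMk_left : Measurable (fun q : P m => (I, q))) (measurableSet_U e)

/-- union of two caps -/
theorem unif_U_union {N : ℕ} {R : ℝ} (hN : 1 ≤ N) (hRN : R ≤ √N) {I I' : Fin (m + 2) → P m}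
    (hI : I ∈ fitR R) (hI' : I' ∈ fitR R) :
    unif (m + 2) (U (e0 m) (fun i => sc N (I i)) ∪ U (e0 m) (fun i => sc N (I' i))) =
      ENNReal.ofReal (N : ℝ)⁻¹ * volume (cap I ∪ cap I') := by
  rw [unif_sc hN ((measurableSet_U' _ _).union (measurableSet_U' _ _))]
  congr 2
  ext q
  simp only [mem_inter_iff, mem_preimage, mem_union, sc_mem_U hN]
  constructor
  · rintro ⟨h | h, h'⟩
    · exact Or.inl h.1
    · exact Or.inr h.1
  · rintro (h | h)
    · have := WR_subset_QN hN hRN (cap_subset_WR hI h)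
      exact ⟨Or.inl ⟨h, this⟩, this⟩
    · have := WR_subset_QN hN hRN (cap_subset_WR hI' h)
      exact ⟨Or.inr ⟨h, this⟩, this⟩

theorem volume_cap_union_lt_top {R : ℝ} {I I' : Fin (m + 2) → P m}
    (hI : I ∈ fitR R) (hI' : I' ∈ fitR R) : volume (cap I ∪ cap I') < ∞ :=
  (measure_mono (union_subset (cap_subset_WR hI) (cap_subset_WR hI'))).trans_lt
    (volume_WR_lt_top R)

/-- `(1 - v / N) ^ (N - k) → e^{-v}` -/
theorem tendsto_pow_sub (v : ℝ) (k : ℕ) :
    Tendsto (fun N : ℕ => (1 - v / N) ^ (N - k)) atTop (𝓝 (Real.exp (-v))) := by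
  have h1 : Tendsto (fun N : ℕ => (1 + -v / (N : ℝ)) ^ N) atTop (𝓝 (Real.exp (-v))) :=
    Real.tendsto_one_add_div_pow_exp (-v)
  have h0 : Tendsto (fun N : ℕ => v / (N : ℝ)) atTop (𝓝 0) :=
    tendsto_const_nhds.div_atTop tendsto_natCast_atTop_atTop
  have h2 : Tendsto (fun N : ℕ => (1 - v / (N : ℝ))) atTop (𝓝 1) := by
    simpa using (tendsto_const_nhds (x := (1 : ℝ))).sub h0
  have h3 : Tendsto (fun N : ℕ => (1 - v / (N : ℝ)) ^ k) atTop (𝓝 1) := by
    simpa using h2.pow k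
  have h4 := h1.div h3 one_ne_zero
  rw [div_one] at h4
  refine h4.congr' ?_
  have hev : ∀ᶠ N : ℕ in atTop, 0 < 1 - v / (N : ℝ) := h2.eventually (lt_mem_nhds one_pos)
  filter_upwards [hev, eventually_ge_atTop k] with N h5 h6
  have h7 : (1 + -v / (N : ℝ)) = 1 - v / N := by ring
  simp only [Pi.div_apply]
  rw [h7, div_eq_iff (pow_ne_zero _ h5.ne'), ← pow_add, Nat.sub_add_cancel h6]

theorem tendsto_unif_pow {A : ℕ → Set (P m)} (hA : ∀ N, MeasurableSet (A N)) {V : ℝ≥0∞}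
    (hV : V ≠ ∞) (h : ∀ᶠ N : ℕ in atTop, unif (m + 2) (A N) = ENNReal.ofReal (N : ℝ)⁻¹ * V)
    (k : ℕ) :
    Tendsto (fun N : ℕ => (unif (m + 2) (A N)ᶜ) ^ (N - k)) atTop
      (𝓝 (ENNReal.ofReal (Real.exp (-V.toReal)))) := by
  have h1 := (ENNReal.continuous_ofReal.tendsto _).comp (tendsto_pow_sub V.toReal k)
  refine h1.congr' ?_
  have h0 : Tendsto (fun N : ℕ => V.toReal / (N : ℝ)) atTop (𝓝 0) :=
    tendsto_const_nhds.div_atTop tendsto_natCast_atTop_atTop
  have hev : ∀ᶠ N : ℕ in atTop, V.toReal / (N : ℝ) < 1 := h0.eventually (gt_mem_nhds one_pos)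
  filter_upwards [h, hev] with N h2 h3
  have h4 : unif (m + 2) (A N) = ENNReal.ofReal (V.toReal / N) := by
    rw [h2]
    conv_lhs => rw [← ENNReal.ofReal_toReal hV]
    rw [← ENNReal.ofReal_mul (by positivity)]
    congr 1
    ring
  rw [Function.comp_apply, prob_compl_eq_one_sub (hA N), h4, ← ENNReal.ofReal_one,
    ← ENNReal.ofReal_sub _ (by positivity), ENNReal.ofReal_pow (by linarith)]

/-- prefactor of the first moment -/
theorem tendsto_choose (k : ℕ) :
    Tendsto (fun N : ℕ => ((N.choose k : ℕ) : ℝ≥0∞) * (ENNReal.ofReal (N : ℝ)⁻¹) ^ k) atTop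
      (𝓝 (((k.factorial : ℕ) : ℝ≥0∞)⁻¹)) := by
  have h1 : Tendsto (fun N : ℕ => ((N.choose k : ℕ) : ℝ) * ((N : ℝ)⁻¹) ^ k) atTop
      (𝓝 (1 / k.factorial)) := by
    have h0 : Tendsto (fun n : ℕ => (n : ℝ) * ((n : ℝ)⁻¹)) atTop (𝓝 1) := by
      refine tendsto_const_nhds.congr' ?_
      filter_upwards [eventually_ge_atTop 1] with N hN
      rw [mul_inv_cancel₀]
      exact_mod_cast (Nat.one_le_iff_ne_zero.1 hN)
    have := ProbabilityTheory.tendsto_choose_mul_pow_atTop k h0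
    simpa using this
  have h2 := (ENNReal.continuous_ofReal.tendsto _).comp h1
  have h3 : ENNReal.ofReal (1 / (k.factorial : ℝ)) = ((k.factorial : ℕ) : ℝ≥0∞)⁻¹ := by
    rw [one_div, ENNReal.ofReal_inv_of_pos (by exact_mod_cast Nat.factorial_pos k),
      ENNReal.ofReal_natCast]
  rw [h3] at h2
  refine h2.congr fun N => ?_
  rw [Function.comp_apply, ENNReal.ofReal_mul (by positivity), ENNReal.ofReal_natCast,
    ENNReal.ofReal_pow (by positivity)]

end Lim

end Pool.Agent.B05
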