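import Pool.Agent.Lib.MP_b05ae9_pr.Closed3
import Pool.Agent.Lib.MP_b05ae9_pr.LimB

/-!
# Closed formulas for the volumes of the caps
-/

set_option autoImplicit false

open MeasureTheory Set Filter Topology
open scoped ENNReal MeasureTheory

namespace Pool.Agent.B05

/-- The numbers `a_l` in the equation `a_0 q_0 + … + a_{n-1} q_{n-1} = b` of the hyperplane
through `I`. -/
noncomputable def al {m : ℕ} (I : Fin (m + 2) → P m) (l : Fin (m + 2)) : ℝ := cf I 0 * cf I l

/-- `b - ∑ a_l v_l`, the value of the equation at the point `(0, 0, v)`, a vertex of `W m`. -/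
noncomputable def bv {m : ℕ} (I : Fin (m + 2) → P m) (v : Fin m → Fin 2) : ℝ :=
  -(cf I 0 * Matrix.det (Matrix.of I)) - ∑ l : Fin m, al I l.succ.succ * ((v l : ℕ) : ℝ)

/-- Volume of the cap cut off by one hyperplane. -/
noncomputable def capVol {m : ℕ} (I : Fin (m + 2) → P m) : ℝ :=
  (∑ v : Fin m → Fin 2, (-1) ^ (∑ l, (v l : ℕ)) * (max (bv I v) 0) ^ (m + 2)) /
    ((m + 2).factorial * ∏ l, al I l)

/-- `0` and the ratios of the coefficients. -/
noncomputable def rt {m : ℕ} (I J : Fin (m + 2) → P m) : Fin (m + 3) → ℝ :=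
  Fin.cons 0 (fun l => al J l / al I l)

/-- Volume of the intersection of two caps. -/
noncomputable def capInt {m : ℕ} (I J : Fin (m + 2) → P m) : ℝ :=
  (∑ v : Fin m → Fin 2, (-1) ^ (∑ l, (v l : ℕ)) *
    if 0 < bv I v then ∑ l : Fin (m + 3), (max (bv J v - rt I J l * bv I v) 0) ^ (m + 2) /
      ∏ j ∈ Finset.univ.erase l, (rt I J j - rt I J l) else 0) /
    ((m + 2).factorial * ∏ l, al I l)

namespace Closed

variable {m : ℕ}

/-- value of the equation -/
noncomputable def val (I : Fin (m + 2) → P m) (q : P m) : ℝ :=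
  -(cf I 0 * Matrix.det (Matrix.of I)) - ∑ l, al I l * q l

theorem val_eq (I : Fin (m + 2) → P m) (q : P m) : val I q = -(F I q * cf I 0) := by
  unfold val al
  rw [F_affine]
  have : ∑ l, cf I 0 * cf I l * q l = cf I 0 * ∑ l, cf I l * q l := by
    rw [Finset.mul_sum]
    exact Finset.sum_congr rfl fun l _ => by ring
  rw [this]
  ring

theorem mem_cap_iff (I : Fin (m + 2) → P m) (q : P m) : q ∈ cap I ↔ q ∈ W m ∧ 0 < val I q := by
  rw [val_eq]
  simp only [cap, Set.mem_ofPred_eq]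
  constructor <;> rintro ⟨h1, h2⟩ <;> exact ⟨h1, by linarith⟩

/-- a large number -/
noncomputable def SS (I : Fin (m + 2) → P m) : ℝ :=
  |cf I 0 * Matrix.det (Matrix.of I)| + ∑ l : Fin m, |al I l.succ.succ|

theorem SS_nonneg (I : Fin (m + 2) → P m) : 0 ≤ SS I :=
  add_nonneg (abs_nonneg _) (Finset.sum_nonneg fun _ _ => abs_nonneg _)

theorem val_le (I : Fin (m + 2) → P m) {q : P m} (hq : q ∈ W m) :
    val I q ≤ SS I - al I 0 * q 0 - al I 1 * q 1 := by
  unfold val SS
  rw [Lim.sum_fin2]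
  have h1 : -(cf I 0 * Matrix.det (Matrix.of I)) ≤ |cf I 0 * Matrix.det (Matrix.of I)| :=
    neg_le_abs _
  have h2 : -∑ l : Fin m, al I l.succ.succ * q l.succ.succ ≤ ∑ l : Fin m, |al I l.succ.succ| := by
    rw [← Finset.sum_neg_distrib]
    refine Finset.sum_le_sum fun l _ => ?_
    obtain ⟨h3, h4⟩ := hq.2.2 l
    have h5 : |al I l.succ.succ * q l.succ.succ| ≤ |al I l.succ.succ| := by
      rw [abs_mul, abs_of_nonneg h3]
      exact mul_le_of_le_one_right (abs_nonneg _) h4
    exact (neg_le_abs _).trans h5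
  linarith

theorem al_pos {I : Fin (m + 2) → P m} (h : 0 < cf I 0 * cf I 1) : 0 < al I 0 ∧ 0 < al I 1 := by
  refine ⟨?_, h⟩
  have : cf I 0 ≠ 0 := left_ne_zero_of_mul h.ne'
  unfold al
  exact mul_self_pos.2 this

/-- a side length -/
noncomputable def BB (I : Fin (m + 2) → P m) : ℝ := SS I / al I 0 + SS I / al I 1

theorem BB_nonneg {I : Fin (m + 2) → P m} (h : 0 < cf I 0 * cf I 1) : 0 ≤ BB I := by
  obtain ⟨h1, h2⟩ := al_pos h
  have := SS_nonneg I
  unfold BB
  positivity

theorem val_nonpos {I : Fin (m + 2) → P m} (h : 0 < cf I 0 * cf I 1) {q : P m} (hq : q ∈ W m)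
    (hB : BB I ≤ q 0 ∨ BB I ≤ q 1) : val I q ≤ 0 := by
  obtain ⟨h1, h2⟩ := al_pos h
  have hS := SS_nonneg I
  have h3 := val_le I hq
  have h01 : 0 ≤ q 0 := hq.1
  have h11 : 0 ≤ q 1 := hq.2.1
  have e1 : SS I / al I 0 ≤ BB I := by unfold BB; linarith [div_nonneg hS h2.le]
  have e2 : SS I / al I 1 ≤ BB I := by unfold BB; linarith [div_nonneg hS h1.le]
  rcases hB with hB | hB
  · have h4 : SS I ≤ al I 0 * q 0 := by
      rw [mul_comm, ← div_le_iff₀ h1]
      exact e1.trans hB
    have h5 := mul_nonneg h2.le h11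
    linarith
  · have h4 : SS I ≤ al I 1 * q 1 := by
      rw [mul_comm, ← div_le_iff₀ h2]
      exact e2.trans hB
    have h5 := mul_nonneg h1.le h01
    linarith

/-- side lengths of the box -/
noncomputable def bx (B : ℝ) : P m := Fin.cons B (Fin.cons B (fun _ => 1) : Fin (m + 1) → ℝ)

@[simp] theorem bx_zero (B : ℝ) : (bx B : P m) 0 = B := rfl
@[simp] theorem bx_one (B : ℝ) : (bx B : P m) 1 = B := rfl
@[simp] theorem bx_ss (B : ℝ) (l : Fin m) : (bx B : P m) l.succ.succ = 1 := rfl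

theorem bx_nonneg {B : ℝ} (hB : 0 ≤ B) (i : Fin (m + 2)) : 0 ≤ (bx B : P m) i := by
  refine Fin.cases ?_ (fun i => Fin.cases ?_ (fun i => ?_) i) i
  · exact hB
  · exact hB
  · exact zero_le_one

theorem mem_box_iff (B : ℝ) (q : P m) :
    q ∈ Icc (0 : P m) (bx B) ↔ q ∈ W m ∧ q 0 ≤ B ∧ q 1 ≤ B := by
  constructor
  · rintro ⟨h1, h2⟩
    exact ⟨⟨h1 0, h1 1, fun l => ⟨h1 l.succ.succ, h2 l.succ.succ⟩⟩, h2 0, h2 1⟩
  · rintro ⟨⟨h1, h2, h3⟩, h4, h5⟩
    refine ⟨fun i => ?_, fun i => ?_⟩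
    · refine Fin.cases ?_ (fun i => Fin.cases ?_ (fun i => ?_) i) i
      · exact h1
      · exact h2
      · exact (h3 i).1
    · refine Fin.cases ?_ (fun i => Fin.cases ?_ (fun i => ?_) i) i
      · exact h4
      · exact h5
      · exact (h3 i).2

/-- vertices of the box -/
theorem vert_mem {B : ℝ} (hB : 0 ≤ B) (v : Fin (m + 2) → Fin 2) :
    (fun i => ((v i : ℕ) : ℝ) * (bx B : P m) i) ∈ W m := by
  have hv : ∀ i, ((v i : ℕ) : ℝ) ≤ 1 := fun i => by
    have : (v i : ℕ) ≤ 1 := by omega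
    exact_mod_cast this
  refine ⟨?_, ?_, fun l => ⟨?_, ?_⟩⟩
  · simp only [bx_zero]; positivity
  · simp only [bx_one]; positivity
  · simp only [bx_ss]; positivity
  · simp only [bx_ss, mul_one]; exact hv _

/-- Sums over the vertices, when only those with the first two coordinates `0` count. -/
theorem sum_vert (f : (Fin (m + 2) → Fin 2) → ℝ) (hf : ∀ v, v 0 = 1 ∨ v 1 = 1 → f v = 0) :
    ∑ v, f v = ∑ v : Fin m → Fin 2, f (Fin.cons 0 (Fin.cons 0 v : Fin (m + 1) → Fin 2)) := by
  rw [← (Fin.consEquiv (fun _ : Fin (m + 2) => Fin 2)).sum_comp, Fintype.sum_prod_type,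
    Fin.sum_univ_two]
  have h1 : ∑ y : Fin (m + 1) → Fin 2, f ((Fin.consEquiv fun _ : Fin (m + 2) => Fin 2) (1, y)) =
      0 := by
    refine Finset.sum_eq_zero fun y _ => hf _ (Or.inl ?_)
    simp
  have e1 : (∑ i : Fin (m + 1) → Fin 2, f ((Fin.consEquiv fun _ : Fin (m + 2) => Fin 2) (1, i))) =
    0 := h1
  rw [e1, add_zero, ← (Fin.consEquiv (fun _ : Fin (m + 1) => Fin 2)).sum_comp,
    Fintype.sum_prod_type, Fin.sum_univ_two]
  have h2 : ∑ y : Fin m → Fin 2, f ((Fin.consEquiv fun _ : Fin (m + 2) => Fin 2)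
      (0, (Fin.consEquiv fun _ : Fin (m + 1) => Fin 2) (1, y))) = 0 := by
    refine Finset.sum_eq_zero fun y _ => hf _ (Or.inr ?_)
    rfl
  rw [h2, add_zero]
  rfl

theorem val_vert (I : Fin (m + 2) → P m) (B : ℝ) (v : Fin m → Fin 2) :
    -(cf I 0 * Matrix.det (Matrix.of I)) - ∑ i, al I i *
      ((((Fin.cons 0 (Fin.cons 0 v : Fin (m + 1) → Fin 2) : Fin (m + 2) → Fin 2) i : ℕ) : ℝ) *
        (bx B : P m) i) = bv I v := by
  unfold bv
  rw [Lim.sum_fin2]
  have e0 : ((Fin.cons 0 (Fin.cons 0 v : Fin (m + 1) → Fin 2) : Fin (m + 2) → Fin 2) 0) = 0 := rfl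
  have e1 : ((Fin.cons 0 (Fin.cons 0 v : Fin (m + 1) → Fin 2) : Fin (m + 2) → Fin 2) 1) = 0 := rfl
  have e2 : ∀ l : Fin m, ((Fin.cons 0 (Fin.cons 0 v : Fin (m + 1) → Fin 2) :
    Fin (m + 2) → Fin 2) l.succ.succ) = v l := fun l => rfl
  rw [e0, e1]
  simp only [e2, bx_ss, Fin.val_zero, Nat.cast_zero, zero_mul, mul_zero, add_zero, zero_add,
    mul_one]

theorem sign_vert (v : Fin m → Fin 2) :
    ∑ i, ((Fin.cons 0 (Fin.cons 0 v : Fin (m + 1) → Fin 2) : Fin (m + 2) → Fin 2) i : ℕ) =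
      ∑ l, (v l : ℕ) := by
  rw [Fin.sum_univ_succ, Fin.sum_univ_succ]
  simp

theorem cap_eq_box {I : Fin (m + 2) → P m} (h : 0 < cf I 0 * cf I 1) :
    cap I = Icc (0 : P m) (bx (BB I)) ∩ {q | 0 < val I q} := by
  ext q
  rw [mem_cap_iff, mem_inter_iff, mem_box_iff]
  constructor
  · rintro ⟨h1, h2⟩
    refine ⟨⟨h1, ?_, ?_⟩, h2⟩
    · by_contra hc
      exact absurd (val_nonpos h h1 (Or.inl (not_le.1 hc).le)) (not_le.2 h2)
    · by_contra hc
      exact absurd (val_nonpos h h1 (Or.inr (not_le.1 hc).le)) (not_le.2 h2)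
  · rintro ⟨⟨h1, _⟩, h2⟩
    exact ⟨h1, h2⟩

theorem isFinite_cap {I : Fin (m + 2) → P m} (h : 0 < cf I 0 * cf I 1) :
    volume (cap I) ≠ ∞ := by
  rw [cap_eq_box h]
  exact ((measure_mono inter_subset_left).trans_lt isCompact_Icc.measure_lt_top).ne

theorem capVol_eq {I : Fin (m + 2) → P m} (h : 0 < cf I 0 * cf I 1) (hg : ∀ l, cf I l ≠ 0) :
    (volume (cap I)).toReal = capVol I := by
  have hB := BB_nonneg h
  have hα : ∀ i, al I i ≠ 0 := fun i => mul_ne_zero (hg 0) (hg i)
  have key := box_pp (m + 2) (bx (BB I)) (al I) (bx_nonneg hB) hα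
    (-(cf I 0 * Matrix.det (Matrix.of I)))
  have hset := cap_eq_box h
  have hcont : Continuous (val I) := by unfold val; fun_prop
  have hm : MeasurableSet {q | 0 < val I q} := measurableSet_lt measurable_const hcont.measurable
  have e1 : ∫ q in Icc (0 : P m) (bx (BB I)),
      pp 0 (-(cf I 0 * Matrix.det (Matrix.of I)) - ∑ i, al I i * q i) =
      (volume (cap I)).toReal := by
    have : ∀ q : P m, pp 0 (-(cf I 0 * Matrix.det (Matrix.of I)) - ∑ i, al I i * q i) =
        ({q | 0 < val I q} : Set (P m)).indicator (fun _ => (1 : ℝ)) q := by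
      intro q
      rw [pp_zero, indicator]
      rfl
    simp only [this]
    rw [setIntegral_indicator hm, setIntegral_const, hset]
    simp [Measure.real]
  rw [← e1, key, sum_vert]
  · simp only [val_vert, sign_vert]
    unfold capVol
    simp only [pp_succ_eq]
    rw [div_eq_mul_inv, mul_inv, mul_comm, Finset.sum_mul, Finset.sum_mul]
    refine Finset.sum_congr rfl fun v _ => ?_
    ring
  · rintro v hv
    have h1 := val_nonpos h (vert_mem hB v) (by
      rcases hv with hv | hv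
      · left; simp [hv]
      · right; simp [hv])
    unfold val at h1
    rw [pp, if_neg (not_lt.2 h1), mul_zero]

theorem al_div (I J : Fin (m + 2) → P m) (l : Fin (m + 2)) :
    al J l / al I l = (cf J 0 / cf I 0) * (cf J l / cf I l) := by
  unfold al
  rw [mul_div_mul_comm]

theorem capInt_eq {I J : Fin (m + 2) → P m} (h : 0 < cf I 0 * cf I 1)
    (hgI : ∀ l, cf I l ≠ 0) (hgJ : ∀ l, cf J l ≠ 0)
    (hIJ : ∀ l k, l ≠ k → cf I l * cf J k ≠ cf I k * cf J l) :
    (volume (cap I ∩ cap J)).toReal = capInt I J := by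
  have hB := BB_nonneg h
  have hα : ∀ i, al I i ≠ 0 := fun i => mul_ne_zero (hgI 0) (hgI i)
  have hα' : ∀ i, al J i ≠ 0 := fun i => mul_ne_zero (hgJ 0) (hgJ i)
  have h0 : ∀ i, al J i / al I i ≠ 0 := fun i => div_ne_zero (hα' i) (hα i)
  have hinj : Function.Injective fun i => al J i / al I i := by
    intro l k hlk
    by_contra hne
    apply hIJ l k hne
    simp only [al_div] at hlk
    have h1 := mul_left_cancel₀ (div_ne_zero (hgJ 0) (hgI 0)) hlk
    rw [div_eq_div_iff (hgI l) (hgI k)] at h1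
    linarith
  have key := box_Phi (m + 2) (bx (BB I)) (al I) (al J) (bx_nonneg hB) hα h0 hinj
    (-(cf I 0 * Matrix.det (Matrix.of I))) (-(cf J 0 * Matrix.det (Matrix.of J)))
  have hset : cap I ∩ cap J = Icc (0 : P m) (bx (BB I)) ∩ {q | 0 < val I q ∧ 0 < val J q} := by
    rw [cap_eq_box h]
    ext q
    rw [mem_inter_iff, mem_cap_iff J, mem_inter_iff, mem_box_iff, mem_inter_iff, mem_box_iff]
    simp only [Set.mem_ofPred_eq]
    tauto
  have hcI : Continuous (val I) := by unfold val; fun_prop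
  have hcJ : Continuous (val J) := by unfold val; fun_prop
  have hm : MeasurableSet {q | 0 < val I q ∧ 0 < val J q} :=
    (measurableSet_lt measurable_const hcI.measurable).inter
      (measurableSet_lt measurable_const hcJ.measurable)
  have e1 : ∫ q in Icc (0 : P m) (bx (BB I)),
      Phi {0} 0 (-(cf I 0 * Matrix.det (Matrix.of I)) - ∑ i, al I i * q i)
        (-(cf J 0 * Matrix.det (Matrix.of J)) - ∑ i, al J i * q i) =
      (volume (cap I ∩ cap J)).toReal := by
    have : ∀ q : P m, Phi {0} 0 (-(cf I 0 * Matrix.det (Matrix.of I)) - ∑ i, al I i * q i)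
        (-(cf J 0 * Matrix.det (Matrix.of J)) - ∑ i, al J i * q i) =
        ({q | 0 < val I q ∧ 0 < val J q} : Set (P m)).indicator (fun _ => (1 : ℝ)) q := by
      intro q
      rw [Phi_zero]
      by_cases hh : 0 < val I q ∧ 0 < val J q
      · rw [indicator_of_mem (show q ∈ {q | 0 < val I q ∧ 0 < val J q} from hh)]
        exact if_pos hh
      · rw [indicator_of_notMem (show q ∉ {q | 0 < val I q ∧ 0 < val J q} from hh)]
        exact if_neg hh
    simp only [this]
    rw [setIntegral_indicator hm, setIntegral_const, hset]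
    simp [Measure.real]
  rw [← e1, key, sum_vert]
  · simp only [val_vert, sign_vert]
    unfold capInt
    rw [insert_image]
    have hr := injective_cons h0 hinj
    rw [div_eq_mul_inv, mul_inv, mul_comm, Finset.sum_mul, Finset.sum_mul]
    refine Finset.sum_congr rfl fun v _ => ?_
    unfold Phi
    split_ifs with hv
    · rw [T_image _ hr]
      simp only [pp_succ_eq]
      have e3 : ∑ l : Fin (m + 2 + 1), max (bv J v - (Fin.cons 0 fun i => al J i / al I i :
            Fin (m + 2 + 1) → ℝ) l * bv I v) 0 ^ (m + 1 + 1) / ((m + 1 + 1).factorial : ℝ) *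
          (∏ j ∈ Finset.univ.erase l, ((Fin.cons 0 fun i => al J i / al I i :
            Fin (m + 2 + 1) → ℝ) j - (Fin.cons 0 fun i => al J i / al I i :
            Fin (m + 2 + 1) → ℝ) l))⁻¹ =
          (∑ l : Fin (m + 3), (max (bv J v - rt I J l * bv I v) 0) ^ (m + 2) /
            ∏ j ∈ Finset.univ.erase l, (rt I J j - rt I J l)) * (((m + 2).factorial : ℝ))⁻¹ := by
        rw [Finset.sum_mul]
        refine Finset.sum_congr rfl fun l _ => ?_
        unfold rt
        ring
      rw [e3]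
      ring
    · ring
  · rintro v hv
    have h1 := val_nonpos h (vert_mem hB v) (by
      rcases hv with hv | hv
      · left; simp [hv]
      · right; simp [hv])
    unfold val at h1
    rw [Phi, if_neg (not_lt.2 h1), mul_zero]

/-- The volume of the union. -/
theorem capUnion_eq {I J : Fin (m + 2) → P m} (h : 0 < cf I 0 * cf I 1)
    (h' : 0 < cf J 0 * cf J 1) (hgI : ∀ l, cf I l ≠ 0) (hgJ : ∀ l, cf J l ≠ 0)
    (hIJ : ∀ l k, l ≠ k → cf I l * cf J k ≠ cf I k * cf J l) :
    (volume (cap I ∪ cap J)).toReal = capVol I + capVol J - capInt I J := by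
  have h1 := measureReal_union_add_inter (μ := volume) (s := cap I) (t := cap J)
    (Lim.measurableSet_cap J) (isFinite_cap h) (isFinite_cap h')
  simp only [Measure.real] at h1
  rw [capVol_eq h hgI, capVol_eq h' hgJ, capInt_eq h hgI hgJ hIJ] at h1
  linarith

end Closed

end Pool.Agent.B05
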