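import Pool.Agent.Lib.MP_b05ae9_pr.Defs
import Pool.Agent.Lib.MP_b05ae9_pr.Alg
import Pool.Agent.Lib.MP_b05ae9_pr.G

/-!
MP_b05ae9_pr, Task J2, part A (helper96): windows and the size of `gG`.
-/

set_option autoImplicit false

open MeasureTheory Set Filter Topology
open scoped ENNReal MeasureTheory

namespace Pool.Agent.B05

/-! ### Boxes near faces -/

/-- The points of the cube whose coordinates in `S` are within `ρ` of the given sides. -/
def bx {d : ℕ} (S : Finset (Fin d)) (σ : Fin d → Bool) (ρ : ℝ) : Set (Fin d → ℝ) :=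
  {q | q ∈ cube d ∧ ∀ a ∈ S, dst (σ a) (q a) ≤ ρ}

theorem volume_bx_le {d : ℕ} (S : Finset (Fin d)) (σ : Fin d → Bool) {ρ : ℝ} (h0 : 0 ≤ ρ) :
    volume (bx S σ ρ) ≤ ENNReal.ofReal (ρ ^ S.card) := by
  classical
  have hsub : bx S σ ρ ⊆ Icc (fun a => if a ∈ S then (if σ a then 1 - ρ else 0) else 0)
      (fun a => if a ∈ S then (if σ a then 1 else ρ) else 1) := by
    rintro q ⟨hq, hS⟩
    refine ⟨fun a => ?_, fun a => ?_⟩
    · have h1 : (0 : ℝ) ≤ q a := hq.1 a
      have h2 : q a ≤ 1 := hq.2 a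
      by_cases ha : a ∈ S
      · have h3 := hS a ha
        cases hs : σ a
        · simpa [ha, hs] using h1
        · simp only [hs, dst, if_true] at h3
          simp only [ha, hs, if_true]
          linarith
      · simpa [ha] using h1
    · have h1 : (0 : ℝ) ≤ q a := hq.1 a
      have h2 : q a ≤ 1 := hq.2 a
      by_cases ha : a ∈ S
      · have h3 := hS a ha
        cases hs : σ a
        · simp only [hs, dst] at h3
          simpa [ha, hs] using h3
        · simpa [ha, hs] using h2
      · simpa [ha] using h2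
  refine (measure_mono hsub).trans (le_of_eq ?_)
  rw [Real.volume_Icc_pi]
  have h1 : ∀ a : Fin d, ENNReal.ofReal ((if a ∈ S then (if σ a then 1 else ρ) else 1) -
      (if a ∈ S then (if σ a then 1 - ρ else 0) else 0)) =
      if a ∈ S then ENNReal.ofReal ρ else 1 := by
    intro a
    by_cases ha : a ∈ S
    · cases hs : σ a <;> simp [ha]
    · simp [ha]
  simp_rw [h1]
  rw [Finset.prod_ite_mem, Finset.univ_inter, Finset.prod_const, ENNReal.ofReal_pow h0]

theorem unif_le {d : ℕ} (s : Set (Fin d → ℝ)) : unif d s ≤ volume s :=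
  Measure.restrict_apply_le _ _

theorem win_subset {m : ℕ} (e : Edge m) (ρ : ℝ) :
    win e ρ ⊆ bx {e.1.1.1, e.1.1.2} (fun k => if k = e.1.1.1 then e.1.2.1 else e.1.2.2) ρ := by
  rintro q ⟨hq, h1, h2⟩
  refine ⟨hq, fun a ha => ?_⟩
  rcases Finset.mem_insert.1 ha with h | h
  · rw [h]; simpa using h1
  · rw [Finset.mem_singleton.1 h]
    have hne : e.1.1.2 ≠ e.1.1.1 := (ne_of_lt e.2).symm
    simpa [hne] using h2

theorem unif_win_le {m : ℕ} (e : Edge m) {ρ : ℝ} (h0 : 0 ≤ ρ) :
    unif (m + 2) (win e ρ) ≤ ENNReal.ofReal (ρ ^ 2) := by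
  refine (unif_le _).trans ((measure_mono (win_subset e ρ)).trans ?_)
  have := volume_bx_le {e.1.1.1, e.1.1.2} (fun k => if k = e.1.1.1 then e.1.2.1 else e.1.2.2) h0
  rwa [Finset.card_pair (ne_of_lt e.2)] at this

theorem dst_add (s t : Bool) (hst : s ≠ t) (x : ℝ) : dst s x + dst t x = 1 := by
  cases s <;> cases t <;> simp_all [dst]

theorem unif_win_inter_le {m : ℕ} {e e' : Edge m} (hee : e ≠ e') {ρ : ℝ} (h0 : 0 ≤ ρ)
    (h1 : ρ < 1 / 2) : unif (m + 2) (win e ρ ∩ win e' ρ) ≤ ENNReal.ofReal (ρ ^ 3) := by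
  obtain ⟨⟨⟨a, b⟩, s, t⟩, hab⟩ := e
  obtain ⟨⟨⟨a', b'⟩, s', t'⟩, hab'⟩ := e'
  simp only at hab hab'
  by_cases hsame : a = a' ∧ b = b'
  · obtain ⟨rfl, rfl⟩ := hsame
    have hemp : win (⟨((a, b), s, t), hab⟩ : Edge m) ρ ∩ win (⟨((a, b), s', t'), hab'⟩ : Edge m) ρ
        = ∅ := by
      rw [eq_empty_iff_forall_notMem]
      rintro q ⟨⟨_, p1, p2⟩, _, p3, p4⟩
      simp only at p1 p2 p3 p4
      have hst : s ≠ s' ∨ t ≠ t' := by
        by_contra hcon
        push Not at hcon
        obtain ⟨rfl, rfl⟩ := hcon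
        exact hee rfl
      rcases hst with h | h
      · have := dst_add s s' h (q a); linarith
      · have := dst_add t t' h (q b); linarith
    rw [hemp, measure_empty]
    exact zero_le
  · have hex : (∃ σ : Fin (m + 2) → Bool, ∃ S : Finset (Fin (m + 2)), S.card = 3 ∧
        win (⟨((a, b), s, t), hab⟩ : Edge m) ρ ∩ win (⟨((a', b'), s', t'), hab'⟩ : Edge m) ρ ⊆
          bx S σ ρ) := by
      by_cases ha' : a' ≠ a ∧ a' ≠ b
      · refine ⟨fun k => if k = a then s else if k = b then t else s', {a, b, a'}, ?_, ?_⟩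
        · rw [Finset.card_insert_of_notMem, Finset.card_insert_of_notMem, Finset.card_singleton]
          · simpa using ha'.2.symm
          · simp only [Finset.mem_insert, Finset.mem_singleton, not_or]
            exact ⟨ne_of_lt hab, ha'.1.symm⟩
        · rintro q ⟨⟨hq, p1, p2⟩, _, p3, p4⟩
          refine ⟨hq, fun k hk => ?_⟩
          simp only [Finset.mem_insert, Finset.mem_singleton] at hk
          simp only at p1 p2 p3 p4
          rcases hk with rfl | rfl | rfl
          · simpa using p1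
          · simpa [(ne_of_lt hab).symm] using p2
          · simpa [ha'.1, ha'.2] using p3
      · by_cases hb' : b' ≠ a ∧ b' ≠ b
        · refine ⟨fun k => if k = a then s else if k = b then t else t', {a, b, b'}, ?_, ?_⟩
          · rw [Finset.card_insert_of_notMem, Finset.card_insert_of_notMem, Finset.card_singleton]
            · simpa using hb'.2.symm
            · simp only [Finset.mem_insert, Finset.mem_singleton, not_or]
              exact ⟨ne_of_lt hab, hb'.1.symm⟩
          · rintro q ⟨⟨hq, p1, p2⟩, _, p3, p4⟩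
            refine ⟨hq, fun k hk => ?_⟩
            simp only [Finset.mem_insert, Finset.mem_singleton] at hk
            simp only at p1 p2 p3 p4
            rcases hk with rfl | rfl | rfl
            · simpa using p1
            · simpa [(ne_of_lt hab).symm] using p2
            · simpa [hb'.1, hb'.2] using p4
        · exfalso
          apply hsame
          have h2 : a' = a ∨ a' = b := by
            by_contra h; push Not at h; exact ha' h
          have h3 : b' = a ∨ b' = b := by
            by_contra h; push Not at h; exact hb' h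
          rcases h2 with rfl | rfl <;> rcases h3 with rfl | rfl
          · exact absurd hab' (lt_irrefl _)
          · exact ⟨rfl, rfl⟩
          · exact absurd (hab.trans hab') (lt_irrefl _)
          · exact absurd hab' (lt_irrefl _)
    obtain ⟨σ, S, hS, hsub⟩ := hex
    refine (unif_le _).trans ((measure_mono hsub).trans ?_)
    have := volume_bx_le S σ h0
    rwa [hS] at this

/-- product of windows -/
theorem law_pi_le {m K : ℕ} (s : Fin K → Set (P m)) {ρ : ℝ} (h0 : 0 ≤ ρ)
    (h2 : ∀ k, unif (m + 2) (s k) ≤ ENNReal.ofReal (ρ ^ 2)) (k0 : Fin K)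
    (h3 : unif (m + 2) (s k0) ≤ ENNReal.ofReal (ρ ^ 3)) :
    law m K (Set.pi univ s) ≤ ENNReal.ofReal (ρ ^ (2 * K + 1)) := by
  rw [law, Measure.pi_pi, ← Finset.mul_prod_erase _ _ (Finset.mem_univ k0)]
  calc unif (m + 2) (s k0) * ∏ k ∈ Finset.univ.erase k0, unif (m + 2) (s k)
      ≤ ENNReal.ofReal (ρ ^ 3) * ∏ k ∈ Finset.univ.erase k0, ENNReal.ofReal (ρ ^ 2) := by
        gcongr with k hk
        exact h2 k
    _ = ENNReal.ofReal (ρ ^ (2 * K + 1)) := by
        rw [Finset.prod_const, Finset.card_erase_of_mem (Finset.mem_univ _), Finset.card_univ,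
          Fintype.card_fin, ← ENNReal.ofReal_pow (by positivity),
          ← ENNReal.ofReal_mul (by positivity), ← pow_mul, ← pow_add]
        congr 2
        have := k0.pos
        omega

theorem law_pi_le' {m K : ℕ} (s : Fin K → Set (P m)) {ρ : ℝ}
    (h2 : ∀ k, unif (m + 2) (s k) ≤ ENNReal.ofReal (ρ ^ 2)) :
    law m K (Set.pi univ s) ≤ ENNReal.ofReal (ρ ^ (2 * K)) := by
  rw [law, Measure.pi_pi]
  calc ∏ k, unif (m + 2) (s k) ≤ ∏ _k : Fin K, ENNReal.ofReal (ρ ^ 2) :=
        Finset.prod_le_prod' fun k _ => h2 k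
    _ = ENNReal.ofReal (ρ ^ (2 * K)) := by
        rw [Finset.prod_const, Finset.card_univ, Fintype.card_fin,
          ← ENNReal.ofReal_pow (by positivity), ← pow_mul]

/-! ### The good part -/

theorem F_diff {m : ℕ} (I : Fin (m + 2) → P m) (q q' : P m) :
    F I q' = F I q + ∑ k, cf I k * (q' k - q k) := by
  rw [F_affine, F_affine, add_assoc, ← Finset.sum_add_distrib]
  congr 2
  funext k
  ring

theorem dst_nonneg {b : Bool} {x : ℝ} (h0 : 0 ≤ x) (h1 : x ≤ 1) : 0 ≤ dst b x := by
  cases b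
  · simpa [dst] using h0
  · simpa [dst] using h1

/-- If the cap of a dominated tuple is in the window, all its points are. -/
theorem mem_win_of {m : ℕ} {e : Edge m} {ρ : ℝ} (hρ : 0 ≤ ρ) {I : Fin (m + 2) → P m}
    (hD : Dom e I) (hU : U e I ⊆ win e ρ) (i : Fin (m + 2)) (hI : I i ∈ cube (m + 2)) :
    I i ∈ win e ρ := by
  classical
  by_contra hcon
  have hab : e.1.1.1 ≠ e.1.1.2 := ne_of_lt e.2
  set a := e.1.1.1 with ha
  set b := e.1.1.2 with hb
  set s := e.1.2.1 with hs
  set t := e.1.2.2 with ht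
  set p := I i with hp
  have hpa0 : 0 ≤ p a := hI.1 a
  have hpa1 : p a ≤ 1 := hI.2 a
  have hpb0 : 0 ≤ p b := hI.1 b
  have hpb1 : p b ≤ 1 := hI.2 b
  have hda := dst_nonneg (b := s) hpa0 hpa1
  have hdb := dst_nonneg (b := t) hpb0 hpb1
  have hor : ρ < dst s (p a) ∨ ρ < dst t (p b) := by
    by_contra h
    push Not at h
    exact hcon ⟨hI, h.1, h.2⟩
  -- the moved point
  have key : ∀ τ : ℝ, 0 < τ → τ ≤ 1 → (1 - τ) * dst s (p a) ≤ ρ ∧ (1 - τ) * dst t (p b) ≤ ρ := by
    intro τ hτ0 hτ1
    let p' : P m := fun k => if k = a then p a + sg s * (τ * dst s (p a)) else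
      if k = b then p b + sg t * (τ * dst t (p b)) else p k
    have e1 : p' a = p a + sg s * (τ * dst s (p a)) := by simp [p']
    have e2 : p' b = p b + sg t * (τ * dst t (p b)) := by simp [p', hab.symm]
    have e3 : ∀ k, k ≠ a → k ≠ b → p' k = p k := by
      intro k h1 h2; simp [p', h1, h2]
    have d1 : dst s (p' a) = (1 - τ) * dst s (p a) := by
      rw [e1]; cases s <;> simp only [dst, sg] <;> simp <;> ring
    have d2 : dst t (p' b) = (1 - τ) * dst t (p b) := by
      rw [e2]; cases t <;> simp only [dst, sg] <;> simp <;> ring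
    have hc : p' ∈ cube (m + 2) := by
      have h1τ : 0 ≤ 1 - τ := by linarith
      have c1 : 0 ≤ p' a ∧ p' a ≤ 1 := by
        rw [e1]
        cases s
        · simp only [dst, sg] at *
          simp only [Bool.false_eq_true, if_false] at *
          constructor <;> nlinarith
        · simp only [dst, sg, if_true] at *
          constructor <;> nlinarith
      have c2 : 0 ≤ p' b ∧ p' b ≤ 1 := by
        rw [e2]
        cases t
        · simp only [dst, sg] at *
          simp only [Bool.false_eq_true, if_false] at *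
          constructor <;> nlinarith
        · simp only [dst, sg, if_true] at *
          constructor <;> nlinarith
      refine ⟨fun k => ?_, fun k => ?_⟩
      · rcases eq_or_ne k a with rfl | h1
        · exact c1.1
        · rcases eq_or_ne k b with rfl | h2
          · exact c2.1
          · rw [e3 k h1 h2]; exact hI.1 k
      · rcases eq_or_ne k a with rfl | h1
        · exact c1.2
        · rcases eq_or_ne k b with rfl | h2
          · exact c2.2
          · rw [e3 k h1 h2]; exact hI.2 k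
    have hF : F I p' = cf I a * (sg s * (τ * dst s (p a))) +
        cf I b * (sg t * (τ * dst t (p b))) := by
      rw [F_diff I p p', hp, F_self, zero_add, ← hp]
      rw [← Finset.add_sum_erase _ _ (Finset.mem_univ a),
        ← Finset.add_sum_erase _ _ (Finset.mem_erase.2 ⟨hab.symm, Finset.mem_univ b⟩),
        Finset.sum_eq_zero, e1, e2]
      · ring
      · intro k hk
        simp only [Finset.mem_erase] at hk
        rw [e3 k hk.2.1 hk.1]; ring
    have hsg : ∀ c : Bool, sg c * sg c = 1 := by intro c; cases c <;> simp [sg]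
    have hD1 := hD.1
    have hpos : 0 < sg s * (F I p' * cf I a) := by
      have hca : cf I a ≠ 0 := by
        intro h0
        rw [← ha, h0] at hD1
        simp at hD1
      have e4 : sg s * (F I p' * cf I a) = (cf I a) ^ 2 * (τ * dst s (p a)) +
          (sg s * sg t * (cf I a * cf I b)) * (τ * dst t (p b)) := by
        rw [hF]
        calc _ = (sg s * sg s) * ((cf I a) ^ 2 * (τ * dst s (p a))) +
            (sg s * sg t * (cf I a * cf I b)) * (τ * dst t (p b)) := by ring
          _ = _ := by rw [hsg]; ring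
      rw [e4]
      rcases hor with h | h
      · have h1 : 0 < dst s (p a) := hρ.trans_lt h
        have h2 : 0 < (cf I a) ^ 2 * (τ * dst s (p a)) := by positivity
        have h3 : 0 ≤ (sg s * sg t * (cf I a * cf I b)) * (τ * dst t (p b)) :=
          mul_nonneg hD1.le (by positivity)
        linarith
      · have h1 : 0 < dst t (p b) := hρ.trans_lt h
        have h2 : 0 ≤ (cf I a) ^ 2 * (τ * dst s (p a)) := by positivity
        have h3 : 0 < (sg s * sg t * (cf I a * cf I b)) * (τ * dst t (p b)) :=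
          mul_pos hD1 (by positivity)
        linarith
    have hw := hU (⟨hc, hpos⟩ : p' ∈ U e I)
    have h1 := hw.2.1
    have h2 := hw.2.2
    rw [← ha, ← hs] at h1
    rw [← hb, ← ht] at h2
    exact ⟨d1 ▸ h1, d2 ▸ h2⟩
  rcases hor with h | h
  · have h1 : 0 < dst s (p a) := hρ.trans_lt h
    have h2 := (key ((dst s (p a) - ρ) / (2 * dst s (p a))) (by
      apply div_pos <;> linarith) (by rw [div_le_one (by positivity)]; linarith)).1
    have h3 : (1 - (dst s (p a) - ρ) / (2 * dst s (p a))) * dst s (p a) =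
        (dst s (p a) + ρ) / 2 := by field_simp; ring
    rw [h3] at h2; linarith
  · have h1 : 0 < dst t (p b) := hρ.trans_lt h
    have h2 := (key ((dst t (p b) - ρ) / (2 * dst t (p b))) (by
      apply div_pos <;> linarith) (by rw [div_le_one (by positivity)]; linarith)).2
    have h3 : (1 - (dst t (p b) - ρ) / (2 * dst t (p b))) * dst t (p b) =
        (dst t (p b) + ρ) / 2 := by field_simp; ring
    rw [h3] at h2; linarith

theorem abs_cf_le {m : ℕ} {J : Fin (m + 2) → P m} (hJ : ∀ i, J i ∈ cube (m + 2))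
    (k : Fin (m + 2)) : |cf J k| ≤ (m + 2).factorial := by
  rw [cf, abs_mul, abs_pow, abs_neg, abs_one, one_pow, one_mul]
  have h := Matrix.det_le (A := Matrix.of fun i j : Fin (m + 2) =>
    (Fin.cons (1 : ℝ) (pr k (J i)) : Fin (m + 2) → ℝ) j) (abv := AbsoluteValue.abs) (x := 1) ?_
  · simpa using h
  · intro i j
    refine Fin.cases ?_ (fun j => ?_) j
    · simp
    · simp only [Matrix.of_apply, Fin.cons_succ, pr, AbsoluteValue.abs_apply]
      rw [abs_of_nonneg ((hJ i).1 _)]
      exact (hJ i).2 _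

theorem nrm_le_sum {m : ℕ} (I : Fin (m + 2) → P m) : nrm I ≤ ∑ k, |cf I k| := by
  rw [nrm]
  refine Real.sqrt_le_iff.2 ⟨Finset.sum_nonneg fun k _ => abs_nonneg _, ?_⟩
  rw [sq, Finset.sum_mul]
  refine Finset.sum_le_sum fun k _ => ?_
  rw [← sq_abs, sq]
  exact mul_le_mul_of_nonneg_left
    (Finset.single_le_sum (f := fun k => |cf I k|) (fun i _ => abs_nonneg _) (Finset.mem_univ k))
    (abs_nonneg _)

theorem phi_nonneg' {m : ℕ} (I : Fin (m + 2) → P m) : 0 ≤ phi I :=
  div_nonneg (sub_nonneg.2 (nrm_le_sum I)) (by positivity)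

theorem phi_le_sum {m : ℕ} (I : Fin (m + 2) → P m) : phi I ≤ ∑ k, |cf I k| := by
  have h1 : 0 ≤ ∑ k, |cf I k| := Finset.sum_nonneg fun k _ => abs_nonneg _
  have h2 : 0 ≤ nrm I := Real.sqrt_nonneg _
  have h3 : (1 : ℝ) ≤ (m + 1).factorial := by exact_mod_cast (m + 1).factorial_pos
  rw [phi, div_le_iff₀ (by positivity)]
  nlinarith

/-- the constant -/
noncomputable def Cph (m : ℕ) : ℝ := (m + 2) * (m + 2).factorial

theorem Cph_pos (m : ℕ) : 0 < Cph m := by unfold Cph; positivity

theorem phi_le_e0 {m : ℕ} {I : Fin (m + 2) → P m} {ρ : ℝ} (h0 : 0 < ρ) (h1 : ρ ≤ 1)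
    (hI : ∀ i, I i ∈ win (e0 m) ρ) : phi I ≤ Cph m * ρ := by
  classical
  let d : Fin (m + 2) → ℝ := fun k => if k = 0 ∨ k = 1 then ρ else 1
  have hd0 : ∀ k, 0 < d k := by intro k; simp only [d]; split_ifs <;> positivity
  have hd1 : ∀ k, d k ≤ 1 := by intro k; simp only [d]; split_ifs <;> linarith
  let J : Fin (m + 2) → P m := fun i k => I i k / d k
  have hIJ : (fun i l => d l * J i l) = I := by
    funext i l; simp only [J]; rw [mul_div_cancel₀ _ (hd0 l).ne']
  have hJ : ∀ i, J i ∈ cube (m + 2) := by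
    intro i
    refine ⟨fun k => div_nonneg ((hI i).1.1 k) (hd0 k).le, fun k => ?_⟩
    show I i k / d k ≤ 1
    rw [div_le_one (hd0 k)]
    simp only [d]
    split_ifs with h
    · have h2 := (hI i).2
      simp only [e0, dst] at h2
      rcases h with rfl | rfl
      · simpa using h2.1
      · simpa using h2.2
    · exact (hI i).1.2 k
  have hcf : ∀ k, |cf I k| ≤ (m + 2).factorial * ρ := by
    intro k
    rw [← hIJ, cf_diag, abs_mul]
    have hp : |∏ l ∈ Finset.univ.erase k, d l| ≤ ρ := by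
      rw [abs_of_nonneg (Finset.prod_nonneg fun l _ => (hd0 l).le)]
      obtain ⟨l, hl, hlk⟩ : ∃ l : Fin (m + 2), (l = 0 ∨ l = 1) ∧ l ≠ k := by
        by_cases hk : k = 0
        · exact ⟨1, Or.inr rfl, by rw [hk]; simp⟩
        · exact ⟨0, Or.inl rfl, fun h => hk h.symm⟩
      rw [← Finset.mul_prod_erase _ _ (Finset.mem_erase.2 ⟨hlk, Finset.mem_univ l⟩)]
      have hdl : d l = ρ := by simp only [d]; rw [if_pos hl]
      rw [hdl]
      have := Finset.prod_le_one (s := (Finset.univ.erase k).erase l) (f := d)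
        (fun i _ => (hd0 i).le) (fun i _ => hd1 i)
      nlinarith
    have h2 := abs_cf_le hJ k
    calc |∏ l ∈ Finset.univ.erase k, d l| * |cf J k| ≤ ρ * (m + 2).factorial := by
          gcongr
      _ = (m + 2).factorial * ρ := mul_comm _ _
  calc phi I ≤ ∑ k, |cf I k| := phi_le_sum I
    _ ≤ ∑ _k : Fin (m + 2), ((m + 2).factorial * ρ : ℝ) := Finset.sum_le_sum fun k _ => hcf k
    _ = Cph m * ρ := by
        rw [Finset.sum_const, Finset.card_univ, Fintype.card_fin, nsmul_eq_mul, Cph]
        push_cast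
        ring

theorem phi_le_of_win {m : ℕ} (e : Edge m) {I : Fin (m + 2) → P m} {ρ : ℝ} (h0 : 0 < ρ)
    (h1 : ρ ≤ 1) (hI : ∀ i, I i ∈ win e ρ) : phi I ≤ Cph m * ρ := by
  obtain ⟨g, _, _, _, _, hphi, hwin⟩ := exists_sym e
  rw [← hphi I]
  exact phi_le_e0 h0 h1 fun i => (hwin ρ (I i)).1 (hI i)

theorem gG_nonneg {m : ℕ} (e : Edge m) (ρ : ℝ) (I : Fin (m + 2) → P m) : 0 ≤ gG e ρ I := by
  classical
  rw [gG]
  split_ifs
  · exact phi_nonneg' I
  · exact le_rfl

theorem gG_ne_zero {m : ℕ} {e : Edge m} {ρ : ℝ} {I : Fin (m + 2) → P m} (h : gG e ρ I ≠ 0) :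
    Dom e I ∧ U e I ⊆ win e ρ := by
  classical
  by_contra hcon
  rw [gG, if_neg hcon] at h
  exact h rfl

theorem mem_win_of_gG {m : ℕ} {e : Edge m} {ρ : ℝ} (hρ : 0 ≤ ρ) {I : Fin (m + 2) → P m}
    (h : gG e ρ I ≠ 0) (i : Fin (m + 2)) (hI : I i ∈ cube (m + 2)) : I i ∈ win e ρ :=
  mem_win_of hρ (gG_ne_zero h).1 (gG_ne_zero h).2 i hI

theorem gG_le {m : ℕ} (e : Edge m) {ρ : ℝ} (h0 : 0 < ρ) (h1 : ρ ≤ 1) {I : Fin (m + 2) → P m}
    (hI : ∀ i, I i ∈ cube (m + 2)) : gG e ρ I ≤ Cph m * ρ := by
  by_cases h : gG e ρ I = 0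
  · rw [h]; exact mul_nonneg (Cph_pos m).le h0.le
  · have h2 : gG e ρ I = phi I := by
      classical
      rw [gG, if_pos (gG_ne_zero h)]
    rw [h2]
    exact phi_le_of_win e h0 h1 fun i => mem_win_of_gG h0.le h i (hI i)

theorem unif_U_le {m : ℕ} {e : Edge m} {ρ : ℝ} (hρ : 0 ≤ ρ) {I : Fin (m + 2) → P m}
    (h : gG e ρ I ≠ 0) : unif (m + 2) (U e I) ≤ ENNReal.ofReal (ρ ^ 2) :=
  (measure_mono (gG_ne_zero h).2).trans (unif_win_le e hρ)

end Pool.Agent.B05
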