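import Pool.Agent.Lib.MP_b05ae9_pr.G

/-!
# MP_b05ae9_pr, task I: expectations of sums over tuples
-/

set_option autoImplicit false

open MeasureTheory Set Filter Topology
open scoped ENNReal MeasureTheory

namespace Pool.Agent.B05

open Classical in
/-- `ℝ≥0∞` version of `Sm`. -/
noncomputable def SmE {m N : ℕ} (G : (Fin (m + 2) → P m) → ℝ≥0∞)
    (V : (Fin (m + 2) → P m) → Set (P m)) (X : Fin N → P m) : ℝ≥0∞ :=
  ∑ ι ∈ Finset.univ.filter (fun ι : Fin (m + 2) → Fin N => StrictMono ι),
    if ∀ k ∉ range ι, X k ∉ V (X ∘ ι) then G (X ∘ ι) else 0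

namespace TI

/-- reassembling a sample from two parts -/
def glue {m N a b : ℕ} (e : Fin N ≃ Fin a ⊕ Fin b) (p : (Fin a → P m) × (Fin b → P m)) :
    Fin N → P m := fun k => Sum.elim p.1 p.2 (e k)

theorem measurable_glue {m N a b : ℕ} (e : Fin N ≃ Fin a ⊕ Fin b) :
    Measurable (glue (m := m) e) := by
  rw [measurable_pi_iff]
  intro k
  unfold glue
  rcases e k with i | j
  · exact (measurable_pi_apply i).comp measurable_fst
  · exact (measurable_pi_apply j).comp measurable_snd

theorem map_glue {m N a b : ℕ} (e : Fin N ≃ Fin a ⊕ Fin b) :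
    ((law m a).prod (law m b)).map (glue e) = law m N := by
  symm
  unfold law
  apply Measure.pi_eq
  intro s hs
  rw [Measure.map_apply (measurable_glue e) (MeasurableSet.univ_pi hs)]
  have h1 : glue (m := m) e ⁻¹' (Set.pi univ s) =
      (Set.pi univ fun i => s (e.symm (Sum.inl i))) ×ˢ
        (Set.pi univ fun j => s (e.symm (Sum.inr j))) := by
    ext p
    simp only [mem_preimage, Set.mem_pi, mem_univ, forall_const, mem_prod, glue]
    constructor
    · intro h
      refine ⟨fun i => ?_, fun j => ?_⟩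
      · simpa using h (e.symm (Sum.inl i))
      · simpa using h (e.symm (Sum.inr j))
    · rintro ⟨h1, h2⟩ k
      rcases hk : e k with i | j
      · have := h1 i
        rw [← hk, Equiv.symm_apply_apply] at this
        simpa using this
      · have := h2 j
        rw [← hk, Equiv.symm_apply_apply] at this
        simpa using this
  rw [h1, Measure.prod_prod, Measure.pi_pi, Measure.pi_pi]
  rw [← e.symm.prod_comp (fun k => unif (m + 2) (s k)), Fintype.prod_sum_type]

theorem lintegral_split {m N a b : ℕ} (e : Fin N ≃ Fin a ⊕ Fin b) {f : (Fin N → P m) → ℝ≥0∞}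
    (hf : Measurable f) :
    ∫⁻ X, f X ∂(law m N) = ∫⁻ Y, ∫⁻ Z, f (glue e (Y, Z)) ∂(law m b) ∂(law m a) := by
  rw [← map_glue e, lintegral_map hf (measurable_glue e)]
  exact lintegral_prod _ (hf.comp (measurable_glue e)).aemeasurable

theorem lintegral_missing {m b : ℕ} {U : Set (P m)} (hU : MeasurableSet U) (h : ℝ≥0∞)
    [∀ Z : Fin b → P m, Decidable (∀ z : Fin b, Z z ∉ U)] :
    ∫⁻ Z, (if ∀ z : Fin b, Z z ∉ U then h else 0) ∂(law m b) = h * (unif (m + 2) Uᶜ) ^ b := by
  have h1 : (fun Z : Fin b → P m => if ∀ z : Fin b, Z z ∉ U then h else 0) =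
      (Set.pi univ fun _ => Uᶜ).indicator (fun _ => h) := by
    classical
    ext Z
    simp only [Set.indicator, Set.mem_pi, mem_univ, forall_const, mem_compl_iff]
  rw [h1, lintegral_indicator (MeasurableSet.univ_pi fun _ => hU.compl), lintegral_const,
    Measure.restrict_apply_univ]
  unfold law
  rw [Measure.pi_pi, Finset.prod_const, Finset.card_univ, Fintype.card_fin]

theorem exists_e1 {n N : ℕ} (ι : Fin n → Fin N) (hι : Function.Injective ι) :
    ∃ e : Fin N ≃ Fin n ⊕ Fin (N - n), ∀ i, e (ι i) = Sum.inl i := by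
  classical
  have hc : Fintype.card {x // x ∉ range ι} = N - n := by
    have h2 : Fintype.card {x // x ∉ range ι} = Fintype.card ((range ι)ᶜ : Set (Fin N)) :=
      Fintype.card_congr (Equiv.refl _)
    rw [h2, Fintype.card_compl_set, Fintype.card_fin, Set.card_range_of_injective hι,
      Fintype.card_fin]
  let e1 : {x // x ∈ range ι} ≃ Fin n := (Equiv.ofInjective ι hι).symm
  let e2 : {x // x ∉ range ι} ≃ Fin (N - n) := Fintype.equivFinOfCardEq hc
  refine ⟨(Equiv.sumCompl (fun x => x ∈ range ι)).symm.trans (Equiv.sumCongr e1 e2), ?_⟩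
  intro i
  rw [Equiv.trans_apply, Equiv.sumCompl_symm_apply_of_pos (p := fun x => x ∈ range ι)
    (a := ι i) ⟨i, rfl⟩]
  simp only [Equiv.sumCongr_apply, Sum.map_inl, Sum.inl.injEq, e1]
  exact Equiv.ofInjective_symm_apply hι i

theorem measurableSet_cond {m N : ℕ} (ι : Fin (m + 2) → Fin N)
    {V : (Fin (m + 2) → P m) → Set (P m)}
    (hV : MeasurableSet {p : (Fin (m + 2) → P m) × P m | p.2 ∈ V p.1}) :
    MeasurableSet {X : Fin N → P m | ∀ k ∉ range ι, X k ∉ V (X ∘ ι)} := by
  have e : {X : Fin N → P m | ∀ k ∉ range ι, X k ∉ V (X ∘ ι)} =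
      ⋂ k, ⋂ (_ : k ∉ range ι), (fun X : Fin N → P m => ((X ∘ ι, X k) :
        (Fin (m + 2) → P m) × P m)) ⁻¹' {p | p.2 ∈ V p.1}ᶜ := by
    ext X
    simp only [mem_ofPred_eq, mem_iInter, mem_preimage, mem_compl_iff]
  rw [e]
  refine MeasurableSet.iInter fun k => MeasurableSet.iInter fun _ => ?_
  have hm : Measurable (fun X : Fin N → P m => ((X ∘ ι, X k) : (Fin (m + 2) → P m) × P m)) := by
    apply Measurable.prodMk
    · rw [measurable_pi_iff]
      intro i
      exact measurable_pi_apply (ι i)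
    · exact measurable_pi_apply k
  exact hm hV.compl

open Classical in
theorem measurable_term {m N : ℕ} (ι : Fin (m + 2) → Fin N) {G : (Fin (m + 2) → P m) → ℝ≥0∞}
    {V : (Fin (m + 2) → P m) → Set (P m)} (hG : Measurable G)
    (hV : MeasurableSet {p : (Fin (m + 2) → P m) × P m | p.2 ∈ V p.1}) :
    Measurable (fun X : Fin N → P m => if ∀ k ∉ range ι, X k ∉ V (X ∘ ι) then G (X ∘ ι) else 0) := by
  apply Measurable.ite (measurableSet_cond ι hV) _ measurable_const
  apply hG.comp
  rw [measurable_pi_iff]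
  intro i
  exact measurable_pi_apply (ι i)

/-- Strictly increasing tuples are the same as subsets. -/
theorem sum_strictMono {n N : ℕ} {β : Type*} [AddCommMonoid β] (f : Finset (Fin N) → β) :
    ∑ ι ∈ Finset.univ.filter (fun ι : Fin n → Fin N => StrictMono ι), f (Finset.univ.image ι) =
      ∑ A ∈ Finset.powersetCard n (Finset.univ : Finset (Fin N)), f A := by
  apply Finset.sum_nbij (fun ι => Finset.univ.image ι)
  · intro ι hι
    rw [Finset.mem_filter] at hι
    rw [Finset.mem_powersetCard]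
    refine ⟨Finset.subset_univ _, ?_⟩
    rw [Finset.card_image_of_injective _ hι.2.injective, Finset.card_univ, Fintype.card_fin]
  · intro ι hι κ hκ h
    simp only [Finset.coe_filter, Finset.mem_univ, true_and, mem_ofPred_eq] at hι hκ
    apply (StrictMono.range_inj hι hκ).1
    have h2 := congrArg (fun s : Finset (Fin N) => (s : Set (Fin N))) h
    simpa using h2
  · intro A hA
    rw [Finset.mem_coe, Finset.mem_powersetCard] at hA
    refine ⟨A.orderEmbOfFin hA.2, ?_, ?_⟩
    · simp only [Finset.coe_filter, Finset.mem_univ, true_and, mem_ofPred_eq]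
      exact (A.orderEmbOfFin hA.2).strictMono
    · exact Finset.image_orderEmbOfFin_univ A hA.2
  · intro ι _
    rfl

theorem card_strictMono (n N : ℕ) :
    (Finset.univ.filter (fun ι : Fin n → Fin N => StrictMono ι)).card = N.choose n := by
  have h := sum_strictMono (n := n) (N := N) (fun _ => 1)
  rw [Finset.sum_const, Finset.sum_const, Finset.card_powersetCard, Finset.card_univ,
    Fintype.card_fin] at h
  simpa using h

theorem exists_g {n N t : ℕ} (A B : Finset (Fin N)) (hA : A.card = n) (hB : B.card = n)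
    (ht : (A \ B).card = t) : ∃ g : Fin (n + t) → Fin N, Function.Injective g ∧
      (∀ i : Fin n, g (Fin.castAdd t i) ∈ A) ∧
      (∀ i : Fin n, g (Fin.cast (Nat.add_comm t n) (Fin.natAdd t i)) ∈ B) := by
  classical
  have htn : t ≤ n := by
    rw [← ht, ← hA]
    exact Finset.card_le_card Finset.sdiff_subset
  have h1 : (A ∩ B).card = n - t := by
    have := Finset.card_sdiff_add_card_inter A B
    omega
  have h2 : (B \ A).card = t := by
    rw [← ht]
    exact Finset.card_sdiff_comm (by rw [hA, hB])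
  let e1 := (Finset.equivFinOfCardEq ht).symm
  let e2 := (Finset.equivFinOfCardEq h1).symm
  let e3 := (Finset.equivFinOfCardEq h2).symm
  let g : Fin (n + t) → Fin N := fun j =>
    if h : (j : ℕ) < t then (e1 ⟨j, h⟩ : Fin N)
    else if h' : (j : ℕ) < n then (e2 ⟨j - t, by omega⟩ : Fin N)
    else (e3 ⟨j - n, by have := j.2; omega⟩ : Fin N)
  have g1 : ∀ j : Fin (n + t), ∀ h : (j : ℕ) < t, g j = (e1 ⟨j, h⟩ : Fin N) := by
    intro j h
    simp only [g, h, dite_true]
  have g2 : ∀ j : Fin (n + t), ∀ (_ : ¬ (j : ℕ) < t) (_ : (j : ℕ) < n),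
      g j = (e2 ⟨j - t, by omega⟩ : Fin N) := by
    intro j h h'
    simp only [g, h, h', dite_true, dite_false]
  have g3 : ∀ j : Fin (n + t), ∀ (_ : ¬ (j : ℕ) < t) (_ : ¬ (j : ℕ) < n),
      g j = (e3 ⟨j - n, by have := j.2; omega⟩ : Fin N) := by
    intro j h h'
    simp only [g, h, h', dite_false]
  have m1 : ∀ j : Fin (n + t), (j : ℕ) < t → g j ∈ A ∧ g j ∉ B := by
    intro j h
    rw [g1 j h]
    exact Finset.mem_sdiff.1 (e1 ⟨j, h⟩).2
  have m2 : ∀ j : Fin (n + t), ¬ (j : ℕ) < t → (j : ℕ) < n → g j ∈ A ∧ g j ∈ B := by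
    intro j h h'
    rw [g2 j h h']
    exact Finset.mem_inter.1 (e2 ⟨j - t, by omega⟩).2
  have m3 : ∀ j : Fin (n + t), ¬ (j : ℕ) < t → ¬ (j : ℕ) < n → g j ∈ B ∧ g j ∉ A := by
    intro j h h'
    rw [g3 j h h']
    exact Finset.mem_sdiff.1 (e3 ⟨j - n, by have := j.2; omega⟩).2
  refine ⟨g, ?_, ?_, ?_⟩
  · intro j j' hjj
    by_cases a1 : (j : ℕ) < t
    · by_cases b1 : (j' : ℕ) < t
      · rw [g1 j a1, g1 j' b1] at hjj
        have h3 := e1.injective (Subtype.ext hjj)
        have h4 := Fin.mk.inj h3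
        exact Fin.ext h4
      · exfalso
        have h3 := m1 j a1
        rw [hjj] at h3
        by_cases b2 : (j' : ℕ) < n
        · exact h3.2 (m2 j' b1 b2).2
        · exact (m3 j' b1 b2).2 h3.1
    · by_cases a2 : (j : ℕ) < n
      · have h3 := m2 j a1 a2
        by_cases b1 : (j' : ℕ) < t
        · rw [hjj] at h3
          exact absurd h3.2 (m1 j' b1).2
        · by_cases b2 : (j' : ℕ) < n
          · rw [g2 j a1 a2, g2 j' b1 b2] at hjj
            have h4 := Fin.mk.inj (e2.injective (Subtype.ext hjj))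
            apply Fin.ext
            omega
          · rw [hjj] at h3
            exact absurd h3.1 (m3 j' b1 b2).2
      · have h3 := m3 j a1 a2
        by_cases b1 : (j' : ℕ) < t
        · rw [hjj] at h3
          exact absurd h3.1 (m1 j' b1).2
        · by_cases b2 : (j' : ℕ) < n
          · rw [hjj] at h3
            exact absurd (m2 j' b1 b2).1 h3.2
          · rw [g3 j a1 a2, g3 j' b1 b2] at hjj
            have h4 := Fin.mk.inj (e3.injective (Subtype.ext hjj))
            apply Fin.ext
            omega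
  · intro i
    by_cases h : ((Fin.castAdd t i : Fin (n + t)) : ℕ) < t
    · exact (m1 _ h).1
    · exact (m2 _ h (by simp)).1
  · intro i
    have hj : ¬ ((Fin.cast (Nat.add_comm t n) (Fin.natAdd t i) : Fin (n + t)) : ℕ) < t := by simp
    by_cases h : ((Fin.cast (Nat.add_comm t n) (Fin.natAdd t i) : Fin (n + t)) : ℕ) < n
    · exact (m2 _ hj h).2
    · exact (m3 _ hj h).1

theorem exists_perm {n N : ℕ} (ι h : Fin n → Fin N) (hι : Function.Injective ι)
    (hh : Function.Injective h) (hm : ∀ i, h i ∈ Finset.univ.image ι) :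
    ∃ π : Equiv.Perm (Fin n), ∀ i, ι i = h (π i) := by
  classical
  have hm' : ∀ i, ∃ j, ι j = h i := by
    intro i
    have := hm i
    simpa using this
  choose σ hσ using hm'
  have hσi : Function.Injective σ := by
    intro i i' hii
    apply hh
    rw [← hσ, ← hσ, hii]
  have hσb : Function.Bijective σ := Finite.injective_iff_bijective.1 hσi
  refine ⟨(Equiv.ofBijective σ hσb).symm, ?_⟩
  intro i
  rw [← hσ]
  congr 1
  exact ((Equiv.ofBijective σ hσb).apply_symm_apply i).symm

theorem card_fibre {n N : ℕ} (A : Finset (Fin N)) (hA : A.card = n) (t : ℕ) :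
    ((Finset.powersetCard n (Finset.univ : Finset (Fin N))).filter
      (fun B => (A \ B).card = t)).card = n.choose t * (N - n).choose t := by
  classical
  have hAc : Aᶜ.card = N - n := by
    rw [Finset.card_compl, Fintype.card_fin, hA]
  rw [← hAc, ← hA, ← Finset.card_powersetCard t A, ← Finset.card_powersetCard t Aᶜ,
    ← Finset.card_product]
  rw [hA]
  apply Finset.card_nbij' (fun B => (A \ B, B \ A)) (fun p => (A \ p.1) ∪ p.2)
  · intro B hB
    simp only [Finset.coe_filter, Finset.mem_powersetCard, mem_ofPred_eq] at hB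
    simp only [Finset.coe_product, Set.mem_prod, Finset.mem_coe, Finset.mem_powersetCard]
    refine ⟨⟨Finset.sdiff_subset, hB.2⟩, ?_, ?_⟩
    · intro x hx
      rw [Finset.mem_sdiff] at hx
      rw [Finset.mem_compl]
      exact hx.2
    · rw [← hB.2]
      exact Finset.card_sdiff_comm (by rw [hA, hB.1.2])
  · intro p hp
    simp only [Finset.coe_product, Set.mem_prod, Finset.mem_coe, Finset.mem_powersetCard] at hp
    simp only [Finset.coe_filter, Finset.mem_powersetCard, mem_ofPred_eq]
    obtain ⟨⟨h1, h2⟩, h3, h4⟩ := hp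
    have hd : Disjoint (A \ p.1) p.2 := by
      rw [Finset.disjoint_left]
      intro x hx hx'
      rw [Finset.mem_sdiff] at hx
      exact (Finset.mem_compl.1 (h3 hx')) hx.1
    have htn : t ≤ n := by rw [← h2, ← hA]; exact Finset.card_le_card h1
    refine ⟨⟨Finset.subset_univ _, ?_⟩, ?_⟩
    · rw [Finset.card_union_of_disjoint hd, Finset.card_sdiff_of_subset h1, hA, h2, h4]
      omega
    · rw [← h2]
      congr 1
      ext x
      simp only [Finset.mem_sdiff, Finset.mem_union, not_or, not_and, not_not]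
      constructor
      · rintro ⟨hx, h5, -⟩
        exact h5 hx
      · intro hx
        exact ⟨h1 hx, fun _ => hx, fun hx' => (Finset.mem_compl.1 (h3 hx')) (h1 hx)⟩
  · intro B hB
    ext x
    simp only [Finset.mem_union, Finset.mem_sdiff, not_and, not_not]
    tauto
  · intro p hp
    simp only [Finset.coe_product, Set.mem_prod, Finset.mem_coe, Finset.mem_powersetCard] at hp
    obtain ⟨⟨h1, h2⟩, h3, h4⟩ := hp
    apply Prod.ext
    · ext x
      simp only [Finset.mem_sdiff, Finset.mem_union, not_or, not_and, not_not]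
      constructor
      · rintro ⟨hx, h5, -⟩
        exact h5 hx
      · intro hx
        exact ⟨h1 hx, fun _ => hx, fun hx' => (Finset.mem_compl.1 (h3 hx')) (h1 hx)⟩
    · ext x
      simp only [Finset.mem_sdiff, Finset.mem_union]
      constructor
      · rintro ⟨h5 | h5, h6⟩
        · exact absurd h5.1 h6
        · exact h5
      · intro hx
        exact ⟨Or.inr hx, Finset.mem_compl.1 (h3 hx)⟩

theorem sum_pairs {n N : ℕ} (J : ℕ → ℝ≥0∞) :
    ∑ ι ∈ Finset.univ.filter (fun ι : Fin n → Fin N => StrictMono ι),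
      ∑ κ ∈ Finset.univ.filter (fun κ : Fin n → Fin N => StrictMono κ),
        J (Finset.univ.image ι \ Finset.univ.image κ).card =
      ∑ t ∈ Finset.range (n + 1),
        ((N.choose n * n.choose t * (N - n).choose t : ℕ) : ℝ≥0∞) * J t := by
  classical
  have h1 : ∀ A : Finset (Fin N), A.card = n →
      ∑ κ ∈ Finset.univ.filter (fun κ : Fin n → Fin N => StrictMono κ),
        J (A \ Finset.univ.image κ).card =
      ∑ t ∈ Finset.range (n + 1), ((n.choose t * (N - n).choose t : ℕ) : ℝ≥0∞) * J t := by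
    intro A hA
    rw [sum_strictMono (fun B => J (A \ B).card)]
    rw [← Finset.sum_fiberwise_of_maps_to (s := Finset.powersetCard n Finset.univ)
      (t := Finset.range (n + 1)) (g := fun B => (A \ B).card)]
    · apply Finset.sum_congr rfl
      intro t _
      rw [Finset.sum_congr rfl (g := fun _ => J t)]
      · rw [Finset.sum_const, card_fibre A hA t, nsmul_eq_mul]
      · intro B hB
        rw [Finset.mem_filter] at hB
        rw [hB.2]
    · intro B _
      rw [Finset.mem_range, ← hA]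
      exact Nat.lt_succ_of_le (Finset.card_le_card Finset.sdiff_subset)
  have h2 : ∀ ι ∈ Finset.univ.filter (fun ι : Fin n → Fin N => StrictMono ι),
      ∑ κ ∈ Finset.univ.filter (fun κ : Fin n → Fin N => StrictMono κ),
        J (Finset.univ.image ι \ Finset.univ.image κ).card =
      ∑ t ∈ Finset.range (n + 1), ((n.choose t * (N - n).choose t : ℕ) : ℝ≥0∞) * J t := by
    intro ι hι
    rw [Finset.mem_filter] at hι
    apply h1
    rw [Finset.card_image_of_injective _ hι.2.injective, Finset.card_univ, Fintype.card_fin]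
  rw [Finset.sum_congr rfl h2, Finset.sum_const, card_strictMono, nsmul_eq_mul, Finset.mul_sum]
  apply Finset.sum_congr rfl
  intro t _
  rw [← mul_assoc, ← Nat.cast_mul, mul_assoc]

end TI

open TI

theorem first_moment {m N : ℕ} (hN : m + 2 ≤ N) (G : (Fin (m + 2) → P m) → ℝ≥0∞)
    (V : (Fin (m + 2) → P m) → Set (P m)) (hG : Measurable G)
    (hV : MeasurableSet {p : (Fin (m + 2) → P m) × P m | p.2 ∈ V p.1}) :
    ∫⁻ X, SmE G V X ∂(law m N) = (N.choose (m + 2)) *
      ∫⁻ I, G I * (unif (m + 2) (V I)ᶜ) ^ (N - (m + 2)) ∂(law m (m + 2)) := by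
  classical
  unfold SmE
  rw [lintegral_finsetSum _ (fun ι _ => by
    convert measurable_term ι hG hV)]
  rw [← card_strictMono (m + 2) N, ← nsmul_eq_mul, ← Finset.sum_const]
  apply Finset.sum_congr rfl
  intro ι hι
  rw [Finset.mem_filter] at hι
  obtain ⟨e, he⟩ := exists_e1 ι hι.2.injective
  have h1 := lintegral_split (m := m) e (measurable_term ι hG hV)
  have h2 : ∀ (Y : Fin (m + 2) → P m) (Z : Fin (N - (m + 2)) → P m), glue e (Y, Z) ∘ ι = Y := by
    intro Y Z
    ext i : 1
    simp [glue, he]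
  have h3 : ∀ (Y : Fin (m + 2) → P m) (Z : Fin (N - (m + 2)) → P m),
      (∀ k ∉ range ι, glue e (Y, Z) k ∉ V (glue e (Y, Z) ∘ ι)) ↔ ∀ z, Z z ∉ V Y := by
    intro Y Z
    rw [h2]
    constructor
    · intro h z
      have h4 : e.symm (Sum.inr z) ∉ range ι := by
        rintro ⟨i, hi⟩
        have := he i
        rw [hi, Equiv.apply_symm_apply] at this
        exact absurd this (by simp)
      simpa [glue] using h _ h4
    · intro h k hk
      rcases hek : e k with i | z
      · exfalso
        apply hk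
        refine ⟨i, ?_⟩
        apply e.injective
        rw [he, hek]
      · have := h z
        simpa [glue, hek] using this
  calc ∫⁻ X, (if ∀ k ∉ range ι, X k ∉ V (X ∘ ι) then G (X ∘ ι) else 0) ∂(law m N)
      = ∫⁻ Y, ∫⁻ Z, (if ∀ k ∉ range ι, glue e (Y, Z) k ∉ V (glue e (Y, Z) ∘ ι) then
          G (glue e (Y, Z) ∘ ι) else 0) ∂(law m (N - (m + 2))) ∂(law m (m + 2)) := by
        convert h1
    _ = ∫⁻ I, G I * (unif (m + 2) (V I)ᶜ) ^ (N - (m + 2)) ∂(law m (m + 2)) := by
        apply lintegral_congr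
        intro Y
        rw [← lintegral_missing (U := V Y) (measurable_prodMk_left hV)]
        apply lintegral_congr
        intro Z
        rw [h2]
        have := h3 Y Z
        rw [h2] at this
        simp only [this]

open Classical in
theorem second_moment {m N : ℕ} (hN : 2 * (m + 2) ≤ N) (G G' : (Fin (m + 2) → P m) → ℝ≥0∞)
    (V V' : (Fin (m + 2) → P m) → Set (P m)) (hG : Measurable G) (hG' : Measurable G')
    (hV : MeasurableSet {p : (Fin (m + 2) → P m) × P m | p.2 ∈ V p.1})
    (hV' : MeasurableSet {p : (Fin (m + 2) → P m) × P m | p.2 ∈ V' p.1})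
    (hGs : ∀ (I : Fin (m + 2) → P m) (π : Equiv.Perm (Fin (m + 2))), G (I ∘ π) = G I)
    (hGs' : ∀ (I : Fin (m + 2) → P m) (π : Equiv.Perm (Fin (m + 2))), G' (I ∘ π) = G' I)
    (hVs : ∀ (I : Fin (m + 2) → P m) (π : Equiv.Perm (Fin (m + 2))), V (I ∘ π) = V I)
    (hVs' : ∀ (I : Fin (m + 2) → P m) (π : Equiv.Perm (Fin (m + 2))), V' (I ∘ π) = V' I)
    (hVI : ∀ (I : Fin (m + 2) → P m) (i : Fin (m + 2)), I i ∉ V I)
    (hVI' : ∀ (I : Fin (m + 2) → P m) (i : Fin (m + 2)), I i ∉ V' I) :
    ∫⁻ X, SmE G V X * SmE G' V' X ∂(law m N) =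
      ∑ t ∈ Finset.range (m + 3),
        ((N.choose (m + 2) * (m + 2).choose t * (N - (m + 2)).choose t : ℕ) : ℝ≥0∞) *
        ∫⁻ Y, (if ∀ k, Y k ∉ V (fst' t Y) ∪ V' (lst' t Y) then
            G (fst' t Y) * G' (lst' t Y) *
              (unif (m + 2) (V (fst' t Y) ∪ V' (lst' t Y))ᶜ) ^ (N - (m + 2) - t) else 0)
          ∂(law m (m + 2 + t)) := by
  rw [← sum_pairs (n := m + 2) (N := N) (fun t => ∫⁻ Y, (if ∀ k, Y k ∉ V (fst' t Y) ∪ V' (lst' t Y)
    then G (fst' t Y) * G' (lst' t Y) *
      (unif (m + 2) (V (fst' t Y) ∪ V' (lst' t Y))ᶜ) ^ (N - (m + 2) - t) else 0)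
        ∂(law m (m + 2 + t)))]
  unfold SmE
  simp only [Finset.sum_mul_sum]
  have hmeas : ∀ ι κ : Fin (m + 2) → Fin N, Measurable (fun X : Fin N → P m =>
      (if ∀ k ∉ range ι, X k ∉ V (X ∘ ι) then G (X ∘ ι) else 0) *
      (if ∀ k ∉ range κ, X k ∉ V' (X ∘ κ) then G' (X ∘ κ) else 0)) := by
    intro ι κ
    apply Measurable.mul
    · convert measurable_term ι hG hV
    · convert measurable_term κ hG' hV'
  rw [lintegral_finsetSum _ (fun ι _ => Finset.measurable_sum _ fun κ _ => hmeas ι κ)]
  apply Finset.sum_congr rfl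
  intro ι hι
  rw [lintegral_finsetSum _ (fun κ _ => hmeas ι κ)]
  apply Finset.sum_congr rfl
  intro κ hκ
  rw [Finset.mem_filter] at hι hκ
  have hιi := hι.2.injective
  have hκi := hκ.2.injective
  set A := Finset.univ.image ι with hA
  set B := Finset.univ.image κ with hB
  have hAc : A.card = m + 2 := by
    rw [hA, Finset.card_image_of_injective _ hιi, Finset.card_univ, Fintype.card_fin]
  have hBc : B.card = m + 2 := by
    rw [hB, Finset.card_image_of_injective _ hκi, Finset.card_univ, Fintype.card_fin]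
  set t := (A \ B).card with ht
  obtain ⟨g, hg, hgA, hgB⟩ := exists_g A B hAc hBc ht.symm
  obtain ⟨π, hπ⟩ := exists_perm ι (fun i => g (Fin.castAdd t i)) hιi
    (fun i j hij => Fin.castAdd_injective _ _ (hg hij)) hgA
  obtain ⟨π', hπ'⟩ := exists_perm κ (fun i => g (Fin.cast (Nat.add_comm t (m + 2))
    (Fin.natAdd t i))) hκi (fun i j hij => by
      have := hg hij
      simpa using this) hgB
  obtain ⟨e, he⟩ := exists_e1 g hg
  rw [lintegral_split (m := m) e (hmeas ι κ)]
  apply lintegral_congr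
  intro Y
  have hι' : ∀ Z : Fin (N - (m + 2 + t)) → P m, glue e (Y, Z) ∘ ι = fst' t Y ∘ π := by
    intro Z
    ext i : 1
    simp only [Function.comp, glue]
    rw [hπ i]
    simp only [he, Sum.elim_inl, fst']
  have hκ' : ∀ Z : Fin (N - (m + 2 + t)) → P m, glue e (Y, Z) ∘ κ = lst' t Y ∘ π' := by
    intro Z
    ext i : 1
    simp only [Function.comp, glue]
    rw [hπ' i]
    simp only [he, Sum.elim_inl, lst']
  set L := lst' t Y with hL
  set F' := fst' t Y with hF
  -- conditions
  have cond : ∀ (W : Set (P m)) (Z : Fin (N - (m + 2 + t)) → P m) (τ : Fin (m + 2) → Fin N)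
      (T : Fin (m + 2) → P m) (σ : Equiv.Perm (Fin (m + 2))), glue e (Y, Z) ∘ τ = T ∘ σ →
      (∀ i, T i ∉ W) → ((∀ k ∉ range τ, glue e (Y, Z) k ∉ W) ↔
        (∀ j, Y j ∉ W) ∧ ∀ z, Z z ∉ W) := by
    intro W Z τ T σ h1 h2
    constructor
    · intro h
      have h3 : ∀ k, glue e (Y, Z) k ∉ W := by
        intro k
        by_cases hk : k ∈ range τ
        · obtain ⟨i, rfl⟩ := hk
          have := congrFun h1 i
          simp only [Function.comp] at this
          rw [this]
          exact h2 _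
        · exact h k hk
      constructor
      · intro j
        have := h3 (e.symm (Sum.inl j))
        simpa [glue] using this
      · intro z
        have := h3 (e.symm (Sum.inr z))
        simpa [glue] using this
    · rintro ⟨h3, h4⟩ k _
      unfold glue
      rcases hek : e k with j | z
      · simpa [hek] using h3 j
      · simpa [hek] using h4 z
  have hterm : ∀ Z : Fin (N - (m + 2 + t)) → P m,
      (if ∀ k ∉ range ι, glue e (Y, Z) k ∉ V (glue e (Y, Z) ∘ ι) then G (glue e (Y, Z) ∘ ι)
        else 0) *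
      (if ∀ k ∉ range κ, glue e (Y, Z) k ∉ V' (glue e (Y, Z) ∘ κ) then G' (glue e (Y, Z) ∘ κ)
        else 0) =
      if ∀ z, Z z ∉ V F' ∪ V' L then (if ∀ k, Y k ∉ V F' ∪ V' L then G F' * G' L else 0)
        else 0 := by
    intro Z
    rw [hι' Z, hκ' Z, hVs, hVs', hGs, hGs']
    have c1 := cond (V F') Z ι F' π (hι' Z) (hVI F')
    have c2 := cond (V' L) Z κ L π' (hκ' Z) (hVI' L)
    simp only [c1, c2, mem_union, not_or, forall_and]
    by_cases b1 : (∀ j, Y j ∉ V F') ∧ ∀ z, Z z ∉ V F'
    · by_cases b2 : (∀ j, Y j ∉ V' L) ∧ ∀ z, Z z ∉ V' L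
      · rw [if_pos b1, if_pos b2, if_pos ⟨b1.2, b2.2⟩, if_pos ⟨b1.1, b2.1⟩]
      · rw [if_pos b1, if_neg b2, mul_zero]
        symm
        by_cases b3 : (∀ z, Z z ∉ V F') ∧ ∀ z, Z z ∉ V' L
        · rw [if_pos b3, if_neg (fun h => b2 ⟨h.2, b3.2⟩)]
        · rw [if_neg b3]
    · rw [if_neg b1, zero_mul]
      symm
      by_cases b3 : (∀ z, Z z ∉ V F') ∧ ∀ z, Z z ∉ V' L
      · rw [if_pos b3, if_neg (fun h => b1 ⟨h.1, b3.1⟩)]
      · rw [if_neg b3]
  rw [lintegral_congr hterm, lintegral_missing]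
  · by_cases hY : ∀ k, Y k ∉ V F' ∪ V' L
    · rw [if_pos hY, if_pos hY, Nat.sub_sub]
    · rw [if_neg hY, if_neg hY, zero_mul]
  · exact (measurable_prodMk_left hV).union (measurable_prodMk_left hV')

end Pool.Agent.B05
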