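import Pool.Agent.Lib.MP_b05ae9_pr.Alg

/-!
# MP_b05ae9_pr: scaling by `N^{-1/2}` in the first two coordinates (tasks J)
-/

set_option autoImplicit false

open MeasureTheory Set Filter Topology
open scoped ENNReal MeasureTheory

namespace Pool.Agent.B05

namespace Lim

/-- scaling factors -/
noncomputable def dl (m N : ℕ) (k : Fin (m + 2)) : ℝ := if (k : ℕ) < 2 then (√N)⁻¹ else 1

/-- scaling -/
noncomputable def sc {m : ℕ} (N : ℕ) (q : P m) : P m := fun k => dl m N k * q k

/-- the scaled cube -/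
def QN (m N : ℕ) : Set (P m) := sc N ⁻¹' cube (m + 2)

variable {m : ℕ}

@[simp] theorem dl_zero (N : ℕ) : dl m N 0 = (√N)⁻¹ := by simp [dl]

@[simp] theorem dl_one (N : ℕ) : dl m N 1 = (√N)⁻¹ := by simp [dl]

@[simp] theorem dl_ss (N : ℕ) (l : Fin m) : dl m N l.succ.succ = 1 := by
  simp [dl]

theorem dl_pos {N : ℕ} (hN : 1 ≤ N) (k : Fin (m + 2)) : 0 < dl m N k := by
  have : (0 : ℝ) < N := by exact_mod_cast hN
  unfold dl; split_ifs <;> positivity

theorem prod_dl {N : ℕ} : ∏ k, dl m N k = (N : ℝ)⁻¹ := by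
  rw [Fin.prod_univ_succ, Fin.prod_univ_succ]
  have h1 : dl m N (Fin.succ 0) = (√N)⁻¹ := dl_one N
  rw [h1, dl_zero]
  simp only [dl_ss, Finset.prod_const_one, mul_one]
  rw [← mul_inv, Real.mul_self_sqrt (Nat.cast_nonneg N)]

theorem prod_erase {N : ℕ} (hN : 1 ≤ N) (k : Fin (m + 2)) :
    ∏ l ∈ Finset.univ.erase k, dl m N l = (N : ℝ)⁻¹ / dl m N k := by
  rw [eq_div_iff (dl_pos hN k).ne', mul_comm, Finset.mul_prod_erase _ _ (Finset.mem_univ k),
    prod_dl]

theorem F_sc (N : ℕ) (I : Fin (m + 2) → P m) (q : P m) :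
    F (fun i => sc N (I i)) (sc N q) = (N : ℝ)⁻¹ * F I q := by
  have := F_diag I (dl m N) q
  rw [prod_dl] at this
  exact this

theorem cf_sc {N : ℕ} (hN : 1 ≤ N) (I : Fin (m + 2) → P m) (k : Fin (m + 2)) :
    cf (fun i => sc N (I i)) k = ((N : ℝ)⁻¹ / dl m N k) * cf I k := by
  have := cf_diag I (dl m N) k
  rw [prod_erase hN] at this
  exact this

theorem inv_div_sqrt {N : ℕ} (hN : 1 ≤ N) : (N : ℝ)⁻¹ / (√N)⁻¹ = (√N)⁻¹ := by
  have h : (0 : ℝ) < N := by exact_mod_cast hN
  have h2 : √(N : ℝ) ≠ 0 := (Real.sqrt_pos.2 h).ne'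
  have h3 : (N : ℝ) = √N * √N := (Real.mul_self_sqrt h.le).symm
  field_simp
  nlinarith [h3]

theorem cf_sc0 {N : ℕ} (hN : 1 ≤ N) (I : Fin (m + 2) → P m) :
    cf (fun i => sc N (I i)) 0 = (√N)⁻¹ * cf I 0 := by
  rw [cf_sc hN, dl_zero, inv_div_sqrt hN]

theorem cf_sc1 {N : ℕ} (hN : 1 ≤ N) (I : Fin (m + 2) → P m) :
    cf (fun i => sc N (I i)) 1 = (√N)⁻¹ * cf I 1 := by
  rw [cf_sc hN, dl_one, inv_div_sqrt hN]

theorem cf_scss {N : ℕ} (hN : 1 ≤ N) (I : Fin (m + 2) → P m) (l : Fin m) :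
    cf (fun i => sc N (I i)) l.succ.succ = (N : ℝ)⁻¹ * cf I l.succ.succ := by
  rw [cf_sc hN, dl_ss, div_one]

theorem forall_fin2 {p : Fin (m + 2) → Prop} :
    (∀ k, p k) ↔ p 0 ∧ p 1 ∧ ∀ l : Fin m, p l.succ.succ := by
  constructor
  · exact fun h => ⟨h 0, h 1, fun l => h _⟩
  · rintro ⟨h0, h1, h2⟩ k
    refine Fin.cases h0 (fun k => ?_) k
    refine Fin.cases ?_ (fun k => h2 k) k
    exact h1

theorem mem_cube {d : ℕ} {q : Fin d → ℝ} : q ∈ cube d ↔ ∀ k, 0 ≤ q k ∧ q k ≤ 1 := by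
  simp only [cube, mem_Icc, Pi.le_def, Pi.zero_apply, Pi.one_apply]
  exact ⟨fun h k => ⟨h.1 k, h.2 k⟩, fun h => ⟨fun k => (h k).1, fun k => (h k).2⟩⟩

theorem mem_QN {N : ℕ} (hN : 1 ≤ N) {q : P m} :
    q ∈ QN m N ↔ (0 ≤ q 0 ∧ q 0 ≤ √N) ∧ (0 ≤ q 1 ∧ q 1 ≤ √N) ∧
      ∀ l : Fin m, 0 ≤ q l.succ.succ ∧ q l.succ.succ ≤ 1 := by
  have h : (0 : ℝ) < √N := Real.sqrt_pos.2 (by exact_mod_cast hN)
  have h1 : (0 : ℝ) < (√N)⁻¹ := by positivity
  have key : ∀ t : ℝ, (0 ≤ (√N)⁻¹ * t ∧ (√N)⁻¹ * t ≤ 1) ↔ (0 ≤ t ∧ t ≤ √N) := by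
    intro t
    rw [inv_mul_le_iff₀ h, mul_one, mul_nonneg_iff_of_pos_left h1]
  rw [QN, mem_preimage, mem_cube, forall_fin2]
  simp only [sc, dl_zero, dl_one, dl_ss, one_mul, key]

theorem QN_subset_W {N : ℕ} (hN : 1 ≤ N) : QN m N ⊆ W m := by
  intro q hq
  rw [mem_QN hN] at hq
  exact ⟨hq.1.1, hq.2.1.1, hq.2.2⟩

theorem mem_U_e0 {I : Fin (m + 2) → P m} {q : P m} :
    q ∈ U (e0 m) I ↔ q ∈ cube (m + 2) ∧ F I q * cf I 0 < 0 := by
  simp only [U, e0, sg, Set.mem_ofPred_eq, Bool.false_eq_true, if_false]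
  constructor
  · rintro ⟨h1, h2⟩; exact ⟨h1, by linarith⟩
  · rintro ⟨h1, h2⟩; exact ⟨h1, by linarith⟩

theorem mem_win_e0 {ρ : ℝ} {q : P m} :
    q ∈ win (e0 m) ρ ↔ q ∈ cube (m + 2) ∧ q 0 ≤ ρ ∧ q 1 ≤ ρ := by
  simp only [win, e0, dst, Bool.false_eq_true, if_false]
  exact Iff.rfl

/-- scaled version of `U` -/
theorem sc_mem_U {N : ℕ} (hN : 1 ≤ N) {I : Fin (m + 2) → P m} {q : P m} :
    sc N q ∈ U (e0 m) (fun i => sc N (I i)) ↔ q ∈ cap I ∧ q ∈ QN m N := by
  have h : (0 : ℝ) < N := by exact_mod_cast hN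
  have h' : (0 : ℝ) < √N := Real.sqrt_pos.2 h
  rw [mem_U_e0, F_sc, cf_sc0 hN]
  have : (N : ℝ)⁻¹ * F I q * ((√N)⁻¹ * cf I 0) = ((N : ℝ)⁻¹ * (√N)⁻¹) * (F I q * cf I 0) := by ring
  rw [this]
  have hp : 0 < (N : ℝ)⁻¹ * (√N)⁻¹ := by positivity
  have h2 : (N : ℝ)⁻¹ * (√N)⁻¹ * (F I q * cf I 0) < 0 ↔ F I q * cf I 0 < 0 := by
    constructor
    · intro h3; by_contra h4; push Not at h4
      have := mul_nonneg hp.le h4; linarith
    · intro h3; exact mul_neg_of_pos_of_neg hp h3
  rw [h2]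
  constructor
  · rintro ⟨h3, h4⟩
    exact ⟨⟨QN_subset_W hN h3, h4⟩, h3⟩
  · rintro ⟨h3, h4⟩
    exact ⟨h4, h3.2⟩

theorem measurable_sc (N : ℕ) : Measurable (sc N : P m → P m) := by
  unfold sc; fun_prop

theorem measurableSet_cube (d : ℕ) : MeasurableSet (cube d) := measurableSet_Icc

theorem measurableSet_QN (N : ℕ) : MeasurableSet (QN m N) :=
  measurable_sc N (measurableSet_cube _)

/-- volume of a preimage -/
theorem volume_sc {N : ℕ} (hN : 1 ≤ N) {s : Set (P m)} (hs : MeasurableSet s) :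
    volume s = ENNReal.ofReal (N : ℝ)⁻¹ * volume (sc N ⁻¹' s) := by
  have hdet : Matrix.det (Matrix.diagonal (dl m N)) = (N : ℝ)⁻¹ := by
    rw [Matrix.det_diagonal, prod_dl]
  have h : (0 : ℝ) < N := by exact_mod_cast hN
  have key := Real.smul_map_diagonal_volume_pi (D := dl m N) (by rw [hdet]; positivity)
  rw [hdet, abs_of_pos (by positivity)] at key
  have hfun : (⇑(Matrix.toLin' (Matrix.diagonal (dl m N))) : P m → P m) = sc N := by
    funext q k
    simp [Matrix.toLin'_apply, Matrix.mulVec_diagonal, sc]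
  rw [hfun] at key
  conv_lhs => rw [← key]
  rw [Measure.smul_apply, Measure.map_apply (measurable_sc N) hs, smul_eq_mul]

theorem unif_sc {N : ℕ} (hN : 1 ≤ N) {s : Set (P m)} (hs : MeasurableSet s) :
    unif (m + 2) s = ENNReal.ofReal (N : ℝ)⁻¹ * volume (sc N ⁻¹' s ∩ QN m N) := by
  rw [unif, Measure.restrict_apply hs, volume_sc hN (hs.inter (measurableSet_cube _))]
  rfl

instance isProbabilityMeasure_unif (d : ℕ) : IsProbabilityMeasure (unif d) := by
  constructor
  rw [unif, Measure.restrict_apply_univ, cube, Real.volume_Icc_pi]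
  simp

instance isProbabilityMeasure_law (N : ℕ) : IsProbabilityMeasure (law m N) := by
  unfold law; infer_instance

/-- The law of `r` points as a scaled Lebesgue measure. -/
theorem law_eq {N : ℕ} (hN : 1 ≤ N) (r : ℕ) :
    law m r = (ENNReal.ofReal (N : ℝ)⁻¹) ^ r •
      Measure.map (fun (Y : Fin r → P m) i => sc N (Y i))
        (volume.restrict (Set.pi univ fun _ : Fin r => QN m N)) := by
  unfold law
  apply Measure.pi_eq
  intro s hs
  have hmeas : Measurable (fun (Y : Fin r → P m) i => sc N (Y i)) :=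
    measurable_pi_lambda _ fun i => (measurable_sc N).comp (measurable_pi_apply i)
  rw [Measure.smul_apply, Measure.map_apply hmeas (MeasurableSet.univ_pi hs),
    Measure.restrict_apply (hmeas (MeasurableSet.univ_pi hs))]
  have hset : (fun (Y : Fin r → P m) i => sc N (Y i)) ⁻¹' (Set.pi univ s) ∩
      (Set.pi univ fun _ : Fin r => QN m N) = Set.pi univ fun i => sc N ⁻¹' s i ∩ QN m N := by
    ext Y
    simp only [mem_inter_iff, mem_preimage, Set.mem_pi, mem_univ, true_implies]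
    exact ⟨fun h i => ⟨h.1 i, h.2 i⟩, fun h => ⟨fun i => (h i).1, fun i => (h i).2⟩⟩
  rw [hset, volume_pi, Measure.pi_pi, smul_eq_mul]
  simp only [unif_sc hN (hs _)]
  rw [Finset.prod_mul_distrib, Finset.prod_const, Finset.card_univ, Fintype.card_fin]

theorem lintegral_law {N : ℕ} (hN : 1 ≤ N) {r : ℕ} {G : (Fin r → P m) → ℝ≥0∞}
    (hG : Measurable G) :
    ∫⁻ Y, G Y ∂(law m r) = (ENNReal.ofReal (N : ℝ)⁻¹) ^ r *
      ∫⁻ Y in Set.pi univ (fun _ : Fin r => QN m N), G (fun i => sc N (Y i)) := by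
  have hmeas : Measurable (fun (Y : Fin r → P m) i => sc N (Y i)) :=
    measurable_pi_lambda _ fun i => (measurable_sc N).comp (measurable_pi_apply i)
  rw [law_eq hN r, lintegral_smul_measure, lintegral_map hG hmeas, smul_eq_mul]

/-! ### Continuity and measurability -/

theorem continuous_F : Continuous (fun p : (Fin (m + 2) → P m) × P m => F p.1 p.2) := by
  unfold F
  refine Continuous.matrix_det ?_
  refine continuous_pi fun i => continuous_pi fun j => ?_
  refine Fin.cases ?_ (fun i => ?_) i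
  · refine Fin.cases ?_ (fun j => ?_) j
    · simp only [Matrix.of_apply, Fin.cons_zero]; exact continuous_const
    · simp only [Matrix.of_apply, Fin.cons_zero, Fin.cons_succ]; fun_prop
  · refine Fin.cases ?_ (fun j => ?_) j
    · simp only [Matrix.of_apply, Fin.cons_zero]; exact continuous_const
    · simp only [Matrix.of_apply, Fin.cons_succ]; fun_prop

theorem continuous_cf (k : Fin (m + 2)) :
    Continuous (fun I : Fin (m + 2) → P m => cf I k) := by
  unfold cf
  refine Continuous.mul continuous_const (Continuous.matrix_det ?_)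
  refine continuous_pi fun i => continuous_pi fun j => ?_
  refine Fin.cases ?_ (fun j => ?_) j
  · simp only [Matrix.of_apply, Fin.cons_zero]; exact continuous_const
  · simp only [Matrix.of_apply, Fin.cons_succ, pr]; fun_prop

theorem continuous_phi : Continuous (phi : (Fin (m + 2) → P m) → ℝ) := by
  unfold phi nrm
  have h := fun k => continuous_cf (m := m) k
  fun_prop

theorem nrm_le (I : Fin (m + 2) → P m) : nrm I ≤ ∑ k, |cf I k| := by
  unfold nrm
  rw [Real.sqrt_le_left (Finset.sum_nonneg fun k _ => abs_nonneg _)]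
  calc ∑ k, cf I k ^ 2 = ∑ k, |cf I k| * |cf I k| :=
        Finset.sum_congr rfl fun k _ => by rw [abs_mul_abs_self, sq]
    _ ≤ ∑ k, |cf I k| * ∑ l, |cf I l| := by
        refine Finset.sum_le_sum fun k _ => mul_le_mul_of_nonneg_left ?_ (abs_nonneg _)
        exact Finset.single_le_sum (f := fun l => |cf I l|) (fun l _ => abs_nonneg _)
          (Finset.mem_univ k)
    _ = (∑ k, |cf I k|) ^ 2 := by rw [← Finset.sum_mul, sq]

theorem phi_nonneg (I : Fin (m + 2) → P m) : 0 ≤ phi I := by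
  unfold phi
  have := nrm_le I
  have h : (0 : ℝ) < ((m + 1).factorial : ℝ) := by exact_mod_cast Nat.factorial_pos _
  exact div_nonneg (by linarith) h.le

theorem phi_le (I : Fin (m + 2) → P m) : phi I ≤ ∑ k, |cf I k| := by
  unfold phi
  have h0 : 0 ≤ nrm I := Real.sqrt_nonneg _
  have h : (1 : ℝ) ≤ ((m + 1).factorial : ℝ) := by exact_mod_cast Nat.factorial_pos _
  have h1 : 0 ≤ ∑ k, |cf I k| := Finset.sum_nonneg fun k _ => abs_nonneg _
  have h2 : (∑ k, |cf I k|) - nrm I ≤ ∑ k, |cf I k| := by linarith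
  have h3 : 0 ≤ (∑ k, |cf I k|) - nrm I := by have := nrm_le I; linarith
  calc ((∑ k, |cf I k|) - nrm I) / ((m + 1).factorial : ℝ) ≤ ((∑ k, |cf I k|) - nrm I) :=
        div_le_self h3 h
    _ ≤ _ := h2

theorem measurableSet_U (e : Edge m) :
    MeasurableSet {p : (Fin (m + 2) → P m) × P m | p.2 ∈ U e p.1} := by
  have h1 : MeasurableSet {p : (Fin (m + 2) → P m) × P m | p.2 ∈ cube (m + 2)} :=
    measurable_snd (measurableSet_cube _)
  have h2 : MeasurableSet {p : (Fin (m + 2) → P m) × P m |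
      0 < sg e.1.2.1 * (F p.1 p.2 * cf p.1 e.1.1.1)} := by
    refine measurableSet_lt measurable_const ?_
    exact (continuous_const.mul (continuous_F.mul
      ((continuous_cf _).comp continuous_fst))).measurable
  exact h1.inter h2

theorem isClosed_fit (e : Edge m) (ρ : ℝ) :
    IsClosed {I : Fin (m + 2) → P m | U e I ⊆ win e ρ} := by
  have : {I : Fin (m + 2) → P m | U e I ⊆ win e ρ} =
      ⋂ q ∈ {q : P m | q ∈ cube (m + 2) ∧ q ∉ win e ρ},
        {I | sg e.1.2.1 * (F I q * cf I e.1.1.1) ≤ 0} := by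
    ext I
    simp only [Set.mem_ofPred_eq, mem_iInter]
    constructor
    · rintro h q ⟨hq1, hq2⟩
      by_contra h3
      push Not at h3
      exact hq2 (h ⟨hq1, h3⟩)
    · rintro h q ⟨hq1, hq2⟩
      by_contra h3
      exact absurd (h q ⟨hq1, h3⟩) (not_le.2 hq2)
  rw [this]
  refine isClosed_biInter fun q _ => isClosed_le ?_ continuous_const
  refine continuous_const.mul (Continuous.mul ?_ (continuous_cf _))
  exact continuous_F.comp (continuous_id.prodMk continuous_const)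

theorem measurableSet_Dom (e : Edge m) : MeasurableSet {I : Fin (m + 2) → P m | Dom e I} := by
  have hm := fun k => (continuous_cf (m := m) k).measurable
  have h1 : MeasurableSet {I : Fin (m + 2) → P m |
      0 < sg e.1.2.1 * sg e.1.2.2 * (cf I e.1.1.1 * cf I e.1.1.2)} :=
    measurableSet_lt measurable_const (((hm _).mul (hm _)).const_mul _)
  have h2 : MeasurableSet {I : Fin (m + 2) → P m |
      ∀ l, l ≠ e.1.1.1 → l ≠ e.1.1.2 → |cf I l| < |cf I e.1.1.1| ∧ |cf I l| < |cf I e.1.1.2|} := by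
    simp only [Set.ofPred_forall]
    refine MeasurableSet.iInter fun l => MeasurableSet.iInter fun _ => MeasurableSet.iInter
      fun _ => ?_
    exact (measurableSet_lt (hm l).abs (hm _).abs).inter (measurableSet_lt (hm l).abs (hm _).abs)
  exact h1.inter h2

theorem measurable_gG (e : Edge m) (ρ : ℝ) : Measurable (gG e ρ) := by
  unfold gG
  refine Measurable.ite ?_ continuous_phi.measurable measurable_const
  exact (measurableSet_Dom e).inter (isClosed_fit e ρ).measurableSet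

theorem measurable_gB (e : Edge m) (ρ : ℝ) : Measurable (gB e ρ) := by
  unfold gB
  refine Measurable.ite ?_ continuous_phi.measurable measurable_const
  exact (measurableSet_Dom e).inter (isClosed_fit e ρ).measurableSet.compl

theorem measurable_Sm {N : ℕ} {g : (Fin (m + 2) → P m) → ℝ} (hg : Measurable g)
    {V : (Fin (m + 2) → P m) → Set (P m)}
    (hV : MeasurableSet {p : (Fin (m + 2) → P m) × P m | p.2 ∈ V p.1}) :
    Measurable (fun X : Fin N → P m => Sm g V X) := by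
  unfold Sm
  refine Finset.measurable_sum _ fun ι _ => ?_
  have hc : Measurable (fun X : Fin N → P m => X ∘ ι) :=
    measurable_pi_lambda _ fun i => measurable_pi_apply _
  refine Measurable.ite ?_ (hg.comp hc) measurable_const
  simp only [Set.ofPred_forall]
  refine MeasurableSet.iInter fun k => MeasurableSet.iInter fun _ => ?_
  have : Measurable (fun X : Fin N → P m => (X ∘ ι, X k)) := hc.prodMk (measurable_pi_apply k)
  exact (this hV).compl

theorem measurable_DG' {N : ℕ} (e : Edge m) (ρ : ℝ) :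
    Measurable (fun X : Fin N → P m => DG e ρ X) :=
  measurable_Sm (measurable_gG e ρ) (measurableSet_U e)

end Lim

end Pool.Agent.B05
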