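import Pool.Agent.Lib.MP_b05ae9_pr.CrossA
import Pool.Agent.Lib.MP_b05ae9_pr.Scaling
import Pool.Agent.Lib.MP_b05ae9_pr.Moments

/-!
MP_b05ae9_pr, Task J2, part B (helper96): the cross terms.
-/

set_option autoImplicit false

open MeasureTheory Set Filter Topology
open scoped ENNReal MeasureTheory

namespace Pool.Agent.B05

namespace Cross

variable {m : ℕ}

/-- `ofReal ∘ gG` -/
noncomputable def GE (e : Edge m) (ρ : ℝ) (I : Fin (m + 2) → P m) : ℝ≥0∞ :=
  ENNReal.ofReal (gG e ρ I)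

theorem measurable_GE (e : Edge m) (ρ : ℝ) : Measurable (GE e ρ) :=
  (Lim.measurable_gG e ρ).ennreal_ofReal

theorem ofReal_DG {N : ℕ} (e : Edge m) (ρ : ℝ) (X : Fin N → P m) :
    ENNReal.ofReal (DG e ρ X) = SmE (GE e ρ) (U e) X := by
  classical
  rw [DG, Sm, SmE, ENNReal.ofReal_sum_of_nonneg]
  · refine Finset.sum_congr rfl fun ι _ => ?_
    split_ifs
    · rfl
    · exact ENNReal.ofReal_zero
  · intro ι _
    split_ifs
    · exact gG_nonneg e ρ _
    · exact le_rfl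

theorem DG_nonneg {N : ℕ} (e : Edge m) (ρ : ℝ) (X : Fin N → P m) : 0 ≤ DG e ρ X := by
  classical
  rw [DG, Sm]
  refine Finset.sum_nonneg fun ι _ => ?_
  split_ifs
  · exact gG_nonneg e ρ _
  · exact le_rfl

theorem sgn_sq (π : Equiv.Perm (Fin (m + 2))) :
    (((Equiv.Perm.sign π : ℤˣ) : ℤ) : ℝ) * (((Equiv.Perm.sign π : ℤˣ) : ℤ) : ℝ) = 1 := by
  rcases Int.units_eq_one_or (Equiv.Perm.sign π) with h | h <;> rw [h] <;> simp

theorem abs_sgn (π : Equiv.Perm (Fin (m + 2))) :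
    |(((Equiv.Perm.sign π : ℤˣ) : ℤ) : ℝ)| = 1 := by
  rcases Int.units_eq_one_or (Equiv.Perm.sign π) with h | h <;> rw [h] <;> simp

theorem abs_cf_perm (I : Fin (m + 2) → P m) (π : Equiv.Perm (Fin (m + 2))) (k : Fin (m + 2)) :
    |cf (I ∘ π) k| = |cf I k| := by
  rw [cf_perm, abs_mul, abs_sgn, one_mul]

theorem U_perm (e : Edge m) (I : Fin (m + 2) → P m) (π : Equiv.Perm (Fin (m + 2))) :
    U e (I ∘ π) = U e I := by
  ext q
  simp only [U, Set.mem_ofPred_eq]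
  have h : F (I ∘ π) q * cf (I ∘ π) e.1.1.1 = F I q * cf I e.1.1.1 := by
    rw [F_perm, cf_perm]
    calc _ = ((((Equiv.Perm.sign π : ℤˣ) : ℤ) : ℝ) * (((Equiv.Perm.sign π : ℤˣ) : ℤ) : ℝ)) *
        (F I q * cf I e.1.1.1) := by ring
      _ = _ := by rw [sgn_sq, one_mul]
  rw [h]

theorem Dom_perm (e : Edge m) (I : Fin (m + 2) → P m) (π : Equiv.Perm (Fin (m + 2))) :
    Dom e (I ∘ π) ↔ Dom e I := by
  have h : cf (I ∘ π) e.1.1.1 * cf (I ∘ π) e.1.1.2 = cf I e.1.1.1 * cf I e.1.1.2 := by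
    rw [cf_perm, cf_perm]
    calc _ = ((((Equiv.Perm.sign π : ℤˣ) : ℤ) : ℝ) * (((Equiv.Perm.sign π : ℤˣ) : ℤ) : ℝ)) *
        (cf I e.1.1.1 * cf I e.1.1.2) := by ring
      _ = _ := by rw [sgn_sq, one_mul]
  simp only [Dom, h, abs_cf_perm]

theorem phi_perm (I : Fin (m + 2) → P m) (π : Equiv.Perm (Fin (m + 2))) :
    phi (I ∘ π) = phi I := by
  have h : nrm (I ∘ π) = nrm I := by
    simp only [nrm]
    congr 1
    refine Finset.sum_congr rfl fun k _ => ?_
    rw [← sq_abs, abs_cf_perm, sq_abs]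
  simp only [phi, h, abs_cf_perm]

theorem GE_perm (e : Edge m) (ρ : ℝ) (I : Fin (m + 2) → P m) (π : Equiv.Perm (Fin (m + 2))) :
    GE e ρ (I ∘ π) = GE e ρ I := by
  classical
  simp only [GE, gG, U_perm, Dom_perm, phi_perm]

theorem notMem_U (e : Edge m) (I : Fin (m + 2) → P m) (i : Fin (m + 2)) : I i ∉ U e I := by
  rintro ⟨_, h⟩
  rw [F_self] at h
  simp at h

/-- The windows of the points of a pair of tuples with a point in both windows. -/
def sw (e e' : Edge m) (ρ : ℝ) (t : ℕ) (k0 : Fin (m + 2 + t)) (k : Fin (m + 2 + t)) :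
    Set (P m) :=
  if k = k0 then win e ρ ∩ win e' ρ else if (k : ℕ) < m + 2 then win e ρ else win e' ρ

theorem law_sw_le {e e' : Edge m} (hee : e ≠ e') {ρ : ℝ} (h0 : 0 ≤ ρ) (h1 : ρ < 1 / 2) (t : ℕ)
    (k0 : Fin (m + 2 + t)) : law m (m + 2 + t) (Set.pi univ (sw e e' ρ t k0)) ≤
      ENNReal.ofReal (ρ ^ (2 * (m + 2 + t) + 1)) := by
  refine law_pi_le _ h0 (fun k => ?_) k0 ?_
  · unfold sw
    split_ifs
    · exact (measure_mono inter_subset_left).trans (unif_win_le e h0)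
    · exact unif_win_le e h0
    · exact unif_win_le e' h0
  · unfold sw
    rw [if_pos rfl]
    exact unif_win_inter_le hee h0 h1

/-- index of the first tuple -/
def fi (t : ℕ) (i : Fin (m + 2)) : Fin (m + 2 + t) := Fin.castAdd t i

/-- index of the second tuple -/
def li (t : ℕ) (i : Fin (m + 2)) : Fin (m + 2 + t) :=
  Fin.cast (Nat.add_comm t (m + 2)) (Fin.natAdd t i)

theorem fst'_apply (t : ℕ) (Y : Fin (m + 2 + t) → P m) (i : Fin (m + 2)) :
    fst' t Y i = Y (fi t i) := rfl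

theorem lst'_apply (t : ℕ) (Y : Fin (m + 2 + t) → P m) (i : Fin (m + 2)) :
    lst' t Y i = Y (li t i) := rfl

theorem exists_fi {t : ℕ} {k : Fin (m + 2 + t)} (hk : (k : ℕ) < m + 2) :
    ∃ i, k = fi t i := ⟨⟨k, hk⟩, by ext; simp [fi]⟩

theorem exists_li {t : ℕ} {k : Fin (m + 2 + t)} (hk : t ≤ (k : ℕ)) :
    ∃ i, k = li t i := by
  refine ⟨⟨k - t, by have := k.2; omega⟩, ?_⟩
  ext
  simp [li]
  omega

theorem measurable_fst' (t : ℕ) : Measurable (fst' t : (Fin (m + 2 + t) → P m) → _) :=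
  measurable_pi_lambda _ fun _ => measurable_pi_apply _

theorem measurable_lst' (t : ℕ) : Measurable (lst' t : (Fin (m + 2 + t) → P m) → _) :=
  measurable_pi_lambda _ fun _ => measurable_pi_apply _

/-- If both tuples are good and one of the points is in both windows, all points are in the
windows. -/
theorem mem_sw {e e' : Edge m} {ρ : ℝ} (hρ : 0 ≤ ρ) {t : ℕ} (ht : t ≤ m + 2)
    {Y : Fin (m + 2 + t) → P m}
    (hY : ∀ k, Y k ∈ cube (m + 2)) (h1 : gG e ρ (fst' t Y) ≠ 0) (h2 : gG e' ρ (lst' t Y) ≠ 0)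
    (k0 : Fin (m + 2 + t)) (hk0 : Y k0 ∈ win e ρ ∩ win e' ρ) :
    Y ∈ Set.pi univ (sw e e' ρ t k0) := by
  intro k _
  unfold sw
  split_ifs with ha hb
  · rw [ha]; exact hk0
  · obtain ⟨i, rfl⟩ := exists_fi hb
    exact mem_win_of_gG hρ h1 i (hY _)
  · obtain ⟨i, rfl⟩ := exists_li (ht.trans (not_lt.1 hb))
    exact mem_win_of_gG hρ h2 i (hY _)

theorem GE_le (e : Edge m) {ρ : ℝ} (h0 : 0 < ρ) (h1 : ρ ≤ 1) {I : Fin (m + 2) → P m}
    (hI : ∀ i, I i ∈ cube (m + 2)) : GE e ρ I ≤ ENNReal.ofReal (Cph m * ρ) :=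
  ENNReal.ofReal_le_ofReal (gG_le e h0 h1 hI)

theorem GE_ne_zero {e : Edge m} {ρ : ℝ} {I : Fin (m + 2) → P m} (h : GE e ρ I ≠ 0) :
    gG e ρ I ≠ 0 := by
  intro h0
  rw [GE, h0, ENNReal.ofReal_zero] at h
  exact h rfl

open Classical in
/-- The terms of the second moment. -/
noncomputable def T (e e' : Edge m) (ρ : ℝ) (N t : ℕ) : ℝ≥0∞ :=
  ∫⁻ Y, (if ∀ k, Y k ∉ U e (fst' t Y) ∪ U e' (lst' t Y) then
    GE e ρ (fst' t Y) * GE e' ρ (lst' t Y) *
      (unif (m + 2) (U e (fst' t Y) ∪ U e' (lst' t Y))ᶜ) ^ (N - (m + 2) - t) else 0)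
    ∂(law m (m + 2 + t))

/-- The integral of the first moment. -/
noncomputable def A (e : Edge m) (ρ : ℝ) (N : ℕ) : ℝ≥0∞ :=
  ∫⁻ I, GE e ρ I * (unif (m + 2) (U e I)ᶜ) ^ (N - (m + 2)) ∂(law m (m + 2))

theorem measurable_unif_compl (e : Edge m) :
    Measurable fun I : Fin (m + 2) → P m => unif (m + 2) (U e I)ᶜ :=
  measurable_measure_prodMk_left (Lim.measurableSet_U e).compl

theorem T_lt_le {e e' : Edge m} (hee : e ≠ e') {ρ : ℝ} (h0 : 0 < ρ) (h1 : ρ < 1 / 2) (N : ℕ)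
    {t : ℕ} (ht : t < m + 2) :
    T e e' ρ N t ≤ ENNReal.ofReal ((Cph m * ρ) ^ 2 * ρ ^ (2 * (m + 2 + t) + 1)) := by
  classical
  let k0 : Fin (m + 2 + t) := ⟨t, by omega⟩
  have hae : ∀ᵐ Y ∂(law m (m + 2 + t)),
      (if ∀ k, Y k ∉ U e (fst' t Y) ∪ U e' (lst' t Y) then
      GE e ρ (fst' t Y) * GE e' ρ (lst' t Y) *
      (unif (m + 2) (U e (fst' t Y) ∪ U e' (lst' t Y))ᶜ) ^ (N - (m + 2) - t) else 0) ≤
      (Set.pi univ (sw e e' ρ t k0)).indicator (fun _ => ENNReal.ofReal ((Cph m * ρ) ^ 2)) Y := by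
    filter_upwards [ae_law_mem m (m + 2 + t)] with Y hY
    split_ifs with hc
    swap
    · exact zero_le
    by_cases hz : GE e ρ (fst' t Y) * GE e' ρ (lst' t Y) = 0
    · rw [hz, zero_mul]; exact zero_le
    have hz1 : GE e ρ (fst' t Y) ≠ 0 := left_ne_zero_of_mul hz
    have hz2 : GE e' ρ (lst' t Y) ≠ 0 := right_ne_zero_of_mul hz
    have hk0 : Y k0 ∈ win e ρ ∩ win e' ρ := by
      constructor
      · obtain ⟨i, hi⟩ := exists_fi (t := t) (k := k0) ht
        rw [hi]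
        exact mem_win_of_gG h0.le (GE_ne_zero hz1) i (hY _)
      · obtain ⟨i, hi⟩ := exists_li (t := t) (k := k0) le_rfl
        rw [hi]
        exact mem_win_of_gG h0.le (GE_ne_zero hz2) i (hY _)
    rw [indicator_of_mem (mem_sw h0.le ht.le hY (GE_ne_zero hz1) (GE_ne_zero hz2) k0 hk0)]
    calc GE e ρ (fst' t Y) * GE e' ρ (lst' t Y) *
        (unif (m + 2) (U e (fst' t Y) ∪ U e' (lst' t Y))ᶜ) ^ (N - (m + 2) - t)
        ≤ ENNReal.ofReal (Cph m * ρ) * ENNReal.ofReal (Cph m * ρ) * 1 := by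
          gcongr
          · exact GE_le e h0 (by linarith) fun i => hY _
          · exact GE_le e' h0 (by linarith) fun i => hY _
          · exact pow_le_one₀ zero_le prob_le_one
      _ = ENNReal.ofReal ((Cph m * ρ) ^ 2) := by
          have := Cph_pos m
          rw [mul_one, ← ENNReal.ofReal_mul (by positivity), sq]
  calc T e e' ρ N t ≤ ∫⁻ Y, (Set.pi univ (sw e e' ρ t k0)).indicator
        (fun _ => ENNReal.ofReal ((Cph m * ρ) ^ 2)) Y ∂(law m (m + 2 + t)) :=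
        lintegral_mono_ae hae
    _ ≤ ENNReal.ofReal ((Cph m * ρ) ^ 2) * law m (m + 2 + t) (Set.pi univ (sw e e' ρ t k0)) :=
        lintegral_indicator_const_le _ _
    _ ≤ ENNReal.ofReal ((Cph m * ρ) ^ 2) * ENNReal.ofReal (ρ ^ (2 * (m + 2 + t) + 1)) := by
        gcongr
        exact law_sw_le hee h0.le h1 t k0
    _ = _ := by rw [← ENNReal.ofReal_mul (by positivity)]

theorem mp_split (m : ℕ) : MeasurePreserving
    (fun Y : Fin (m + 2 + (m + 2)) → P m => (fst' (m + 2) Y, lst' (m + 2) Y))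
    (law m (m + 2 + (m + 2))) ((law m (m + 2)).prod (law m (m + 2))) := by
  have h1 := (measurePreserving_piCongrLeft (fun _ : Fin (m + 2 + (m + 2)) => unif (m + 2))
    (finSumFinEquiv (m := m + 2) (n := m + 2))).symm
  have h2 := measurePreserving_sumPiEquivProdPi
    (fun _ : Fin (m + 2) ⊕ Fin (m + 2) => unif (m + 2))
  have h3 := h2.comp h1
  exact h3

theorem lintegral_split {f g : (Fin (m + 2) → P m) → ℝ≥0∞} (hf : Measurable f)
    (hg : Measurable g) :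
    ∫⁻ Y, f (fst' (m + 2) Y) * g (lst' (m + 2) Y) ∂(law m (m + 2 + (m + 2))) =
      (∫⁻ I, f I ∂(law m (m + 2))) * ∫⁻ I, g I ∂(law m (m + 2)) := by
  have h := (mp_split m).lintegral_comp
    (f := fun p : (Fin (m + 2) → P m) × (Fin (m + 2) → P m) => f p.1 * g p.2)
    ((hf.comp measurable_fst).mul (hg.comp measurable_snd))
  rw [h, lintegral_prod_mul hf.aemeasurable hg.aemeasurable]

theorem ineq_base {u u' w ρ : ℝ} (h0 : 0 < ρ) (h1 : ρ < 1 / 2) (hu : 0 ≤ u) (hu' : 0 ≤ u')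
    (hu2 : u ≤ ρ ^ 2) (hu2' : u' ≤ ρ ^ 2) (hw1 : u + u' - ρ ^ 3 ≤ w) (hw2 : w ≤ u + u') :
    (1 - w ≤ (1 - u) * (1 - u') * (1 + 4 * ρ ^ 3)) ∧
    ((1 - u) * (1 - u') * (1 - 4 * ρ ^ 4) ≤ 1 - w) ∧ (1 - ρ ^ 2) ^ 2 ≤ (1 - u) * (1 - u') ∧
    (1 - u) * (1 - u') ≤ 1 := by
  have hr2 : ρ ^ 2 < 1 / 4 := by nlinarith
  have hr3 : 0 < ρ ^ 3 := by positivity
  have hr4 : 0 < ρ ^ 4 := by positivity
  have e1 : (1 - ρ ^ 2) * (1 - ρ ^ 2) ≤ (1 - u) * (1 - u') :=
    mul_le_mul (by linarith) (by linarith) (by linarith) (by linarith)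
  have e2 : 1 / 4 ≤ (1 - u) * (1 - u') := by nlinarith
  have e3 : u * u' ≤ ρ ^ 4 := by
    calc u * u' ≤ ρ ^ 2 * ρ ^ 2 := mul_le_mul hu2 hu2' hu' (by positivity)
      _ = ρ ^ 4 := by ring
  have e4 : 0 ≤ u * u' := mul_nonneg hu hu'
  refine ⟨?_, ?_, ?_, ?_⟩
  · nlinarith
  · nlinarith
  · nlinarith
  · nlinarith

theorem ineq_upper {u u' w ρ : ℝ} (h0 : 0 < ρ) (h1 : ρ < 1 / 2) (hu : 0 ≤ u) (hu' : 0 ≤ u')
    (hu2 : u ≤ ρ ^ 2) (hu2' : u' ≤ ρ ^ 2) (hw1 : u + u' - ρ ^ 3 ≤ w) (hw2 : w ≤ u + u')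
    (M n : ℕ) :
    (1 - w) ^ M ≤ (1 + 4 * ρ ^ 3) ^ M / (1 - ρ ^ 2) ^ (2 * n) *
      ((1 - u) ^ (M + n) * (1 - u') ^ (M + n)) := by
  obtain ⟨b1, b2, b3, b4⟩ := ineq_base h0 h1 hu hu' hu2 hu2' hw1 hw2
  have hr2 : ρ ^ 2 < 1 / 4 := by nlinarith
  set X := (1 - u) * (1 - u') with hX
  have hX0 : 0 < X := by nlinarith
  have hw : 0 ≤ 1 - w := by linarith
  have h2 : 0 < (1 - ρ ^ 2) ^ (2 * n) := by
    apply pow_pos; linarith
  rw [← mul_pow, ← hX, div_mul_eq_mul_div, le_div_iff₀ h2]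
  calc (1 - w) ^ M * (1 - ρ ^ 2) ^ (2 * n)
      ≤ (X * (1 + 4 * ρ ^ 3)) ^ M * X ^ n := by
        rw [pow_mul]
        gcongr
    _ = (1 + 4 * ρ ^ 3) ^ M * X ^ (M + n) := by rw [mul_pow, pow_add]; ring

theorem ineq_lower {u u' w ρ : ℝ} (h0 : 0 < ρ) (h1 : ρ < 1 / 2) (hu : 0 ≤ u) (hu' : 0 ≤ u')
    (hu2 : u ≤ ρ ^ 2) (hu2' : u' ≤ ρ ^ 2) (hw1 : u + u' - ρ ^ 3 ≤ w) (hw2 : w ≤ u + u')
    (M n : ℕ) :
    (1 - 4 * ρ ^ 4) ^ M * ((1 - u) ^ (M + n) * (1 - u') ^ (M + n)) ≤ (1 - w) ^ M := by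
  obtain ⟨b1, b2, b3, b4⟩ := ineq_base h0 h1 hu hu' hu2 hu2' hw1 hw2
  have hr2 : ρ ^ 2 < 1 / 4 := by nlinarith
  have hr4 : 0 ≤ 1 - 4 * ρ ^ 4 := by nlinarith [sq_nonneg (ρ ^ 2)]
  set X := (1 - u) * (1 - u') with hX
  have hX0 : 0 < X := by nlinarith
  rw [← mul_pow, ← hX]
  clear_value X
  calc (1 - 4 * ρ ^ 4) ^ M * X ^ (M + n) ≤ (1 - 4 * ρ ^ 4) ^ M * X ^ M := by
        gcongr ?_ * ?_
        exact pow_le_pow_of_le_one hX0.le b4 (Nat.le_add_right _ _)
    _ = (X * (1 - 4 * ρ ^ 4)) ^ M := by rw [mul_comm X, mul_pow]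
    _ ≤ (1 - w) ^ M := by gcongr

theorem measurableSet_UI (e : Edge m) (I : Fin (m + 2) → P m) : MeasurableSet (U e I) :=
  measurable_prodMk_left (Lim.measurableSet_U e)

theorem unif_compl {s : Set (P m)} (hs : MeasurableSet s) :
    unif (m + 2) sᶜ = ENNReal.ofReal (1 - (unif (m + 2)).real s) := by
  rw [← probReal_compl_eq_one_sub hs, ofReal_measureReal]

/-- the facts about the caps of two good tuples -/
theorem cap_facts {e e' : Edge m} (hee : e ≠ e') {ρ : ℝ} (h0 : 0 < ρ) (h1 : ρ < 1 / 2)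
    {I I' : Fin (m + 2) → P m} (hI : gG e ρ I ≠ 0) (hI' : gG e' ρ I' ≠ 0) :
    (unif (m + 2)).real (U e I) ≤ ρ ^ 2 ∧ (unif (m + 2)).real (U e' I') ≤ ρ ^ 2 ∧
    (unif (m + 2)).real (U e I) + (unif (m + 2)).real (U e' I') - ρ ^ 3 ≤
      (unif (m + 2)).real (U e I ∪ U e' I') ∧
    (unif (m + 2)).real (U e I ∪ U e' I') ≤
      (unif (m + 2)).real (U e I) + (unif (m + 2)).real (U e' I') := by
  have hint : (unif (m + 2)).real (U e I ∩ U e' I') ≤ ρ ^ 3 := by
    refine ENNReal.toReal_le_of_le_ofReal (by positivity) ?_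
    exact (measure_mono (inter_subset_inter (gG_ne_zero hI).2 (gG_ne_zero hI').2)).trans
      (unif_win_inter_le hee h0.le h1)
  have hun := measureReal_union_add_inter (μ := unif (m + 2)) (s := U e I) (t := U e' I')
    (measurableSet_UI e' I')
  refine ⟨ENNReal.toReal_le_of_le_ofReal (by positivity) (unif_U_le h0.le hI),
    ENNReal.toReal_le_of_le_ofReal (by positivity) (unif_U_le h0.le hI'), ?_, ?_⟩
  · linarith
  · have : 0 ≤ (unif (m + 2)).real (U e I ∩ U e' I') := measureReal_nonneg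
    linarith

/-- the upper factor -/
noncomputable def kap (m : ℕ) (ρ : ℝ) (M : ℕ) : ℝ := (1 + 4 * ρ ^ 3) ^ M / (1 - ρ ^ 2) ^ (2 * (m + 2))

theorem kap_nonneg (m : ℕ) {ρ : ℝ} (h0 : 0 < ρ) (h1 : ρ < 1 / 2) (M : ℕ) : 0 ≤ kap m ρ M := by
  have hr2 : ρ ^ 2 < 1 / 4 := by nlinarith
  unfold kap
  have : 0 < 1 - ρ ^ 2 := by linarith
  positivity

/-- the first moment integrand -/
noncomputable def fA (e : Edge m) (ρ : ℝ) (K : ℕ) (I : Fin (m + 2) → P m) : ℝ≥0∞ :=
  GE e ρ I * (unif (m + 2) (U e I)ᶜ) ^ K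

theorem measurable_fA (e : Edge m) (ρ : ℝ) (K : ℕ) : Measurable (fA e ρ K) :=
  (measurable_GE e ρ).mul ((measurable_unif_compl e).pow_const K)

theorem T_eq_le {e e' : Edge m} (hee : e ≠ e') {ρ : ℝ} (h0 : 0 < ρ) (h1 : ρ < 1 / 2) {N : ℕ}
    (hN : 2 * (m + 2) ≤ N) :
    T e e' ρ N (m + 2) ≤ ENNReal.ofReal (kap m ρ (N - (m + 2) - (m + 2))) *
      (A e ρ N * A e' ρ N) := by
  classical
  set M := N - (m + 2) - (m + 2) with hM
  have hMn : N - (m + 2) = M + (m + 2) := by omega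
  have hpt : ∀ Y : Fin (m + 2 + (m + 2)) → P m,
      (if ∀ k, Y k ∉ U e (fst' (m + 2) Y) ∪ U e' (lst' (m + 2) Y) then
      GE e ρ (fst' (m + 2) Y) * GE e' ρ (lst' (m + 2) Y) *
      (unif (m + 2) (U e (fst' (m + 2) Y) ∪ U e' (lst' (m + 2) Y))ᶜ) ^ M else 0) ≤
      ENNReal.ofReal (kap m ρ M) * (fA e ρ (M + (m + 2)) (fst' (m + 2) Y) *
        fA e' ρ (M + (m + 2)) (lst' (m + 2) Y)) := by
    intro Y
    split_ifs
    swap
    · exact zero_le
    by_cases hz : GE e ρ (fst' (m + 2) Y) * GE e' ρ (lst' (m + 2) Y) = 0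
    · rw [hz, zero_mul]; exact zero_le
    have hz1 := GE_ne_zero (left_ne_zero_of_mul hz)
    have hz2 := GE_ne_zero (right_ne_zero_of_mul hz)
    obtain ⟨c1, c2, c3, c4⟩ := cap_facts hee h0 h1 hz1 hz2
    have h2 := ineq_upper h0 h1 measureReal_nonneg measureReal_nonneg c1 c2 c3 c4 M (m + 2)
    have d1 : 0 ≤ 1 - (unif (m + 2)).real (U e (fst' (m + 2) Y)) := by
      have := measureReal_le_one (μ := unif (m + 2)) (s := U e (fst' (m + 2) Y)); linarith
    have d2 : 0 ≤ 1 - (unif (m + 2)).real (U e' (lst' (m + 2) Y)) := by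
      have := measureReal_le_one (μ := unif (m + 2)) (s := U e' (lst' (m + 2) Y)); linarith
    have d3 : 0 ≤ 1 - (unif (m + 2)).real (U e (fst' (m + 2) Y) ∪ U e' (lst' (m + 2) Y)) := by
      have := measureReal_le_one (μ := unif (m + 2))
        (s := U e (fst' (m + 2) Y) ∪ U e' (lst' (m + 2) Y)); linarith
    have h3 : (unif (m + 2) (U e (fst' (m + 2) Y) ∪ U e' (lst' (m + 2) Y))ᶜ) ^ M ≤
        ENNReal.ofReal (kap m ρ M) * ((unif (m + 2) (U e (fst' (m + 2) Y))ᶜ) ^ (M + (m + 2)) *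
          (unif (m + 2) (U e' (lst' (m + 2) Y))ᶜ) ^ (M + (m + 2))) := by
      rw [unif_compl ((measurableSet_UI _ _).union (measurableSet_UI _ _)),
        unif_compl (measurableSet_UI _ _), unif_compl (measurableSet_UI _ _),
        ← ENNReal.ofReal_pow d1, ← ENNReal.ofReal_pow d2, ← ENNReal.ofReal_pow d3,
        ← ENNReal.ofReal_mul (by positivity), ← ENNReal.ofReal_mul (kap_nonneg m h0 h1 M)]
      exact ENNReal.ofReal_le_ofReal h2
    calc _ ≤ GE e ρ (fst' (m + 2) Y) * GE e' ρ (lst' (m + 2) Y) *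
        (ENNReal.ofReal (kap m ρ M) * ((unif (m + 2) (U e (fst' (m + 2) Y))ᶜ) ^ (M + (m + 2)) *
          (unif (m + 2) (U e' (lst' (m + 2) Y))ᶜ) ^ (M + (m + 2)))) := by gcongr
      _ = _ := by simp only [fA]; ring
  calc T e e' ρ N (m + 2) ≤ ∫⁻ Y, ENNReal.ofReal (kap m ρ M) *
        (fA e ρ (M + (m + 2)) (fst' (m + 2) Y) * fA e' ρ (M + (m + 2)) (lst' (m + 2) Y))
          ∂(law m (m + 2 + (m + 2))) := lintegral_mono hpt
    _ = ENNReal.ofReal (kap m ρ M) * (A e ρ N * A e' ρ N) := by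
        have hmm : Measurable fun Y : Fin (m + 2 + (m + 2)) → P m =>
            fA e ρ (M + (m + 2)) (fst' (m + 2) Y) * fA e' ρ (M + (m + 2)) (lst' (m + 2) Y) :=
          ((measurable_fA e ρ _).comp (measurable_fst' _)).mul
            ((measurable_fA e' ρ _).comp (measurable_lst' _))
        rw [lintegral_const_mul _ hmm,
          lintegral_split (measurable_fA e ρ _) (measurable_fA e' ρ _), A, A, hMn]
        rfl

theorem measurableSet_win (e : Edge m) (ρ : ℝ) : MeasurableSet (win e ρ) := by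
  have hd : ∀ (b : Bool) (k : Fin (m + 2)), Measurable fun q : P m => dst b (q k) := by
    intro b k
    cases b
    · have : (fun q : P m => dst false (q k)) = fun q => q k := by funext q; simp [dst]
      rw [this]; exact measurable_pi_apply k
    · have : (fun q : P m => dst true (q k)) = fun q => 1 - q k := by funext q; simp [dst]
      rw [this]; exact (measurable_pi_apply k).const_sub 1
  exact (Lim.measurableSet_cube _).inter
    ((measurableSet_le (hd _ _) measurable_const).inter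
      (measurableSet_le (hd _ _) measurable_const))

theorem measurableSet_sw (e e' : Edge m) (ρ : ℝ) (t : ℕ) (k0 : Fin (m + 2 + t)) :
    MeasurableSet (Set.pi univ (sw e e' ρ t k0)) := by
  refine MeasurableSet.univ_pi fun k => ?_
  unfold sw
  split_ifs
  · exact (measurableSet_win e ρ).inter (measurableSet_win e' ρ)
  · exact measurableSet_win e ρ
  · exact measurableSet_win e' ρ

/-- the bad part -/
noncomputable def bad (m : ℕ) (ρ : ℝ) : ℝ :=
  (m + 2 + (m + 2)) * ((Cph m * ρ) ^ 2 * ρ ^ (2 * (m + 2 + (m + 2)) + 1))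

theorem le_T_eq {e e' : Edge m} (hee : e ≠ e') {ρ : ℝ} (h0 : 0 < ρ) (h1 : ρ < 1 / 2) {N : ℕ}
    (hN : 2 * (m + 2) ≤ N) :
    ENNReal.ofReal ((1 - 4 * ρ ^ 4) ^ (N - (m + 2) - (m + 2))) * (A e ρ N * A e' ρ N) ≤
      T e e' ρ N (m + 2) + ENNReal.ofReal (bad m ρ) := by
  classical
  set M := N - (m + 2) - (m + 2) with hM
  have hMn : N - (m + 2) = M + (m + 2) := by omega
  have hr4 : 0 ≤ 1 - 4 * ρ ^ 4 := by
    have hr2 : ρ ^ 2 < 1 / 4 := by nlinarith
    nlinarith [sq_nonneg (ρ ^ 2)]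
  have hCph := Cph_pos m
  have hpt : ∀ᵐ Y ∂(law m (m + 2 + (m + 2))),
      ENNReal.ofReal ((1 - 4 * ρ ^ 4) ^ M) * (fA e ρ (M + (m + 2)) (fst' (m + 2) Y) *
        fA e' ρ (M + (m + 2)) (lst' (m + 2) Y)) ≤
      (if ∀ k, Y k ∉ U e (fst' (m + 2) Y) ∪ U e' (lst' (m + 2) Y) then
      GE e ρ (fst' (m + 2) Y) * GE e' ρ (lst' (m + 2) Y) *
      (unif (m + 2) (U e (fst' (m + 2) Y) ∪ U e' (lst' (m + 2) Y))ᶜ) ^ M else 0) +
      ∑ k0, (Set.pi univ (sw e e' ρ (m + 2) k0)).indicator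
        (fun _ => ENNReal.ofReal ((Cph m * ρ) ^ 2)) Y := by
    filter_upwards [ae_law_mem m (m + 2 + (m + 2))] with Y hY
    by_cases hz : GE e ρ (fst' (m + 2) Y) * GE e' ρ (lst' (m + 2) Y) = 0
    · have : fA e ρ (M + (m + 2)) (fst' (m + 2) Y) * fA e' ρ (M + (m + 2)) (lst' (m + 2) Y) = 0 := by
        simp only [fA]
        rw [mul_mul_mul_comm, hz, zero_mul]
      rw [this, mul_zero]; exact zero_le
    have hz1 := GE_ne_zero (left_ne_zero_of_mul hz)
    have hz2 := GE_ne_zero (right_ne_zero_of_mul hz)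
    by_cases hc : ∀ k, Y k ∉ U e (fst' (m + 2) Y) ∪ U e' (lst' (m + 2) Y)
    · rw [if_pos hc]
      refine le_trans ?_ le_self_add
      obtain ⟨c1, c2, c3, c4⟩ := cap_facts hee h0 h1 hz1 hz2
      have h2 := ineq_lower h0 h1 measureReal_nonneg measureReal_nonneg c1 c2 c3 c4 M (m + 2)
      have d1 : 0 ≤ 1 - (unif (m + 2)).real (U e (fst' (m + 2) Y)) := by
        have := measureReal_le_one (μ := unif (m + 2)) (s := U e (fst' (m + 2) Y)); linarith
      have d2 : 0 ≤ 1 - (unif (m + 2)).real (U e' (lst' (m + 2) Y)) := by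
        have := measureReal_le_one (μ := unif (m + 2)) (s := U e' (lst' (m + 2) Y)); linarith
      have d3 : 0 ≤ 1 - (unif (m + 2)).real (U e (fst' (m + 2) Y) ∪ U e' (lst' (m + 2) Y)) := by
        have := measureReal_le_one (μ := unif (m + 2))
          (s := U e (fst' (m + 2) Y) ∪ U e' (lst' (m + 2) Y)); linarith
      have h3 : ENNReal.ofReal ((1 - 4 * ρ ^ 4) ^ M) *
          ((unif (m + 2) (U e (fst' (m + 2) Y))ᶜ) ^ (M + (m + 2)) *
          (unif (m + 2) (U e' (lst' (m + 2) Y))ᶜ) ^ (M + (m + 2))) ≤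
          (unif (m + 2) (U e (fst' (m + 2) Y) ∪ U e' (lst' (m + 2) Y))ᶜ) ^ M := by
        rw [unif_compl ((measurableSet_UI _ _).union (measurableSet_UI _ _)),
          unif_compl (measurableSet_UI _ _), unif_compl (measurableSet_UI _ _),
          ← ENNReal.ofReal_pow d1, ← ENNReal.ofReal_pow d2, ← ENNReal.ofReal_pow d3,
          ← ENNReal.ofReal_mul (by positivity), ← ENNReal.ofReal_mul (by positivity)]
        exact ENNReal.ofReal_le_ofReal h2
      calc _ = GE e ρ (fst' (m + 2) Y) * GE e' ρ (lst' (m + 2) Y) *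
          (ENNReal.ofReal ((1 - 4 * ρ ^ 4) ^ M) *
            ((unif (m + 2) (U e (fst' (m + 2) Y))ᶜ) ^ (M + (m + 2)) *
            (unif (m + 2) (U e' (lst' (m + 2) Y))ᶜ) ^ (M + (m + 2)))) := by
            simp only [fA]; ring
        _ ≤ _ := by gcongr
    · rw [if_neg hc, zero_add]
      push Not at hc
      obtain ⟨k0, hk0⟩ := hc
      have hwin : Y k0 ∈ win e ρ ∩ win e' ρ := by
        rcases hk0 with hk | hk
        · refine ⟨(gG_ne_zero hz1).2 hk, ?_⟩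
          by_cases hlt : (k0 : ℕ) < m + 2
          · obtain ⟨i, rfl⟩ := exists_fi hlt
            exact absurd hk (notMem_U e _ i)
          · obtain ⟨i, rfl⟩ := exists_li (not_lt.1 hlt)
            exact mem_win_of_gG h0.le hz2 i (hY _)
        · refine ⟨?_, (gG_ne_zero hz2).2 hk⟩
          by_cases hlt : (k0 : ℕ) < m + 2
          · obtain ⟨i, rfl⟩ := exists_fi hlt
            exact mem_win_of_gG h0.le hz1 i (hY _)
          · obtain ⟨i, rfl⟩ := exists_li (not_lt.1 hlt)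
            exact absurd hk (notMem_U e' _ i)
      have hmem := mem_sw h0.le le_rfl hY hz1 hz2 k0 hwin
      calc ENNReal.ofReal ((1 - 4 * ρ ^ 4) ^ M) * (fA e ρ (M + (m + 2)) (fst' (m + 2) Y) *
            fA e' ρ (M + (m + 2)) (lst' (m + 2) Y))
          ≤ 1 * ((ENNReal.ofReal (Cph m * ρ) * 1) * (ENNReal.ofReal (Cph m * ρ) * 1)) := by
            have q1 : ENNReal.ofReal ((1 - 4 * ρ ^ 4) ^ M) ≤ 1 := by
              rw [← ENNReal.ofReal_one]
              refine ENNReal.ofReal_le_ofReal (pow_le_one₀ hr4 ?_)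
              have : 0 < ρ ^ 4 := by positivity
              linarith
            have q2 : fA e ρ (M + (m + 2)) (fst' (m + 2) Y) ≤ ENNReal.ofReal (Cph m * ρ) * 1 := by
              unfold fA
              gcongr
              · exact GE_le e h0 (by linarith) fun i => hY _
              · exact pow_le_one₀ zero_le prob_le_one
            have q3 : fA e' ρ (M + (m + 2)) (lst' (m + 2) Y) ≤ ENNReal.ofReal (Cph m * ρ) * 1 := by
              unfold fA
              gcongr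
              · exact GE_le e' h0 (by linarith) fun i => hY _
              · exact pow_le_one₀ zero_le prob_le_one
            gcongr
        _ = ENNReal.ofReal ((Cph m * ρ) ^ 2) := by
            rw [mul_one, one_mul, ← ENNReal.ofReal_mul (by positivity), sq]
        _ = (Set.pi univ (sw e e' ρ (m + 2) k0)).indicator
            (fun _ => ENNReal.ofReal ((Cph m * ρ) ^ 2)) Y := by
            rw [indicator_of_mem hmem]
        _ ≤ _ := Finset.single_le_sum (f := fun k0 =>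
            (Set.pi univ (sw e e' ρ (m + 2) k0)).indicator
              (fun _ => ENNReal.ofReal ((Cph m * ρ) ^ 2)) Y) (fun _ _ => zero_le)
              (Finset.mem_univ k0)
  have hmeas : Measurable fun Y : Fin (m + 2 + (m + 2)) → P m =>
      ∑ k0, (Set.pi univ (sw e e' ρ (m + 2) k0)).indicator
        (fun _ => ENNReal.ofReal ((Cph m * ρ) ^ 2)) Y :=
    Finset.measurable_fun_sum _ fun k0 _ =>
      measurable_const.indicator (measurableSet_sw e e' ρ (m + 2) k0)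
  calc ENNReal.ofReal ((1 - 4 * ρ ^ 4) ^ M) * (A e ρ N * A e' ρ N)
      = ∫⁻ Y, ENNReal.ofReal ((1 - 4 * ρ ^ 4) ^ M) *
        (fA e ρ (M + (m + 2)) (fst' (m + 2) Y) * fA e' ρ (M + (m + 2)) (lst' (m + 2) Y))
          ∂(law m (m + 2 + (m + 2))) := by
        have hmm : Measurable fun Y : Fin (m + 2 + (m + 2)) → P m =>
            fA e ρ (M + (m + 2)) (fst' (m + 2) Y) * fA e' ρ (M + (m + 2)) (lst' (m + 2) Y) :=
          ((measurable_fA e ρ _).comp (measurable_fst' _)).mul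
            ((measurable_fA e' ρ _).comp (measurable_lst' _))
        rw [lintegral_const_mul _ hmm,
          lintegral_split (measurable_fA e ρ _) (measurable_fA e' ρ _), A, A, hMn]
        rfl
    _ ≤ _ := lintegral_mono_ae hpt
    _ = T e e' ρ N (m + 2) + ∑ k0, ENNReal.ofReal ((Cph m * ρ) ^ 2) *
        law m (m + 2 + (m + 2)) (Set.pi univ (sw e e' ρ (m + 2) k0)) := by
        rw [lintegral_add_right _ hmeas, lintegral_finsetSum _ fun k0 _ =>
          measurable_const.indicator (measurableSet_sw e e' ρ (m + 2) k0)]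
        congr 1
        refine Finset.sum_congr rfl fun k0 _ => ?_
        rw [lintegral_indicator_const (measurableSet_sw e e' ρ (m + 2) k0)]
    _ ≤ T e e' ρ N (m + 2) + ∑ _k0 : Fin (m + 2 + (m + 2)), ENNReal.ofReal ((Cph m * ρ) ^ 2) *
        ENNReal.ofReal (ρ ^ (2 * (m + 2 + (m + 2)) + 1)) := by
        gcongr with k0
        exact law_sw_le hee h0.le h1 (m + 2) k0
    _ = T e e' ρ N (m + 2) + ENNReal.ofReal (bad m ρ) := by
        congr 1
        rw [Finset.sum_const, Finset.card_univ, Fintype.card_fin, nsmul_eq_mul, bad,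
          ENNReal.ofReal_mul (by positivity), ENNReal.ofReal_mul (by positivity)]
        congr 1
        rw [← ENNReal.ofReal_natCast]
        congr 1
        push_cast
        ring

end Cross

end Pool.Agent.B05
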