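import Pool.Agent.Lib.MP_b05ae9_pr.LimOne

/-!
# MP_b05ae9_pr: limit of the second moment of the good part (task J1)
-/

set_option autoImplicit false

open MeasureTheory Set Filter Topology
open scoped ENNReal MeasureTheory

namespace Pool.Agent.B05

namespace Lim

variable {m : ℕ}

/-! ### Reduction to the edge `e0` -/

theorem gG_sym (e : Edge m) (ρ : ℝ) (g : P m ≃ᵐ P m)
    (hU : ∀ (I : Fin (m + 2) → P m) (q : P m), q ∈ U e I ↔ g q ∈ U (e0 m) (fun i => g (I i)))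
    (hD : ∀ (I : Fin (m + 2) → P m), Dom e I ↔ Dom (e0 m) (fun i => g (I i)))
    (hp : ∀ (I : Fin (m + 2) → P m), phi (fun i => g (I i)) = phi I)
    (hw : ∀ (ρ : ℝ) (q : P m), q ∈ win e ρ ↔ g q ∈ win (e0 m) ρ) (I : Fin (m + 2) → P m) :
    gG e ρ I = gG (e0 m) ρ (fun i => g (I i)) := by
  have h1 : U e I ⊆ win e ρ ↔ U (e0 m) (fun i => g (I i)) ⊆ win (e0 m) ρ := by
    constructor
    · intro h p hp
      obtain ⟨q, rfl⟩ := g.surjective p
      exact (hw ρ q).1 (h ((hU I q).2 hp))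
    · intro h q hq
      exact (hw ρ q).2 (h ((hU I q).1 hq))
  classical
  unfold gG
  exact if_congr (and_congr (hD I) h1) (hp I).symm rfl

theorem DG_sym (e : Edge m) (ρ : ℝ) (g : P m ≃ᵐ P m)
    (hU : ∀ (I : Fin (m + 2) → P m) (q : P m), q ∈ U e I ↔ g q ∈ U (e0 m) (fun i => g (I i)))
    (hD : ∀ (I : Fin (m + 2) → P m), Dom e I ↔ Dom (e0 m) (fun i => g (I i)))
    (hp : ∀ (I : Fin (m + 2) → P m), phi (fun i => g (I i)) = phi I)
    (hw : ∀ (ρ : ℝ) (q : P m), q ∈ win e ρ ↔ g q ∈ win (e0 m) ρ) {N : ℕ} (X : Fin N → P m) :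
    DG e ρ X = DG (e0 m) ρ (fun k => g (X k)) := by
  unfold DG Sm
  refine Finset.sum_congr rfl fun ι _ => ?_
  have h1 : (∀ k ∉ range ι, X k ∉ U e (X ∘ ι)) ↔
      (∀ k ∉ range ι, g (X k) ∉ U (e0 m) ((fun k => g (X k)) ∘ ι)) := by
    refine forall_congr' fun k => imp_congr_right fun _ => not_congr ?_
    exact hU (X ∘ ι) (X k)
  have h2 : gG e ρ (X ∘ ι) = gG (e0 m) ρ ((fun k => g (X k)) ∘ ι) :=
    gG_sym e ρ g hU hD hp hw (X ∘ ι)
  classical
  exact if_congr h1 h2 rfl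

theorem lintegral_DG_sym (e : Edge m) (ρ : ℝ) (N : ℕ) (f : ℝ → ℝ≥0∞) (hf : Measurable f) :
    ∫⁻ X, f (DG e ρ X) ∂(law m N) = ∫⁻ X, f (DG (e0 m) ρ X) ∂(law m N) := by
  obtain ⟨g, hg, -, hU, hD, hp, hw⟩ := exists_sym e
  have hmp : MeasurePreserving (fun (X : Fin N → P m) k => g (X k)) (law m N) (law m N) :=
    measurePreserving_pi _ _ fun _ => hg
  have h1 : ∀ X : Fin N → P m, DG e ρ X = DG (e0 m) ρ (fun k => g (X k)) :=
    fun X => DG_sym e ρ g hU hD hp hw X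
  simp only [h1]
  exact hmp.lintegral_comp (f := fun X => f (DG (e0 m) ρ X))
    (hf.comp (measurable_DG' (e0 m) ρ))

theorem DG_nonneg (e : Edge m) (ρ : ℝ) {N : ℕ} (X : Fin N → P m) : 0 ≤ DG e ρ X :=
  Sm_nonneg (gG_nonneg e ρ) _ X

theorem integral_DG (e : Edge m) (ρ : ℝ) (N : ℕ) :
    ∫ X, DG e ρ X ∂(law m N) = (∫⁻ X, ENNReal.ofReal (DG (e0 m) ρ X) ∂(law m N)).toReal := by
  rw [integral_eq_lintegral_of_nonneg_ae (Eventually.of_forall fun X => DG_nonneg e ρ X)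
    (measurable_DG' e ρ).aestronglyMeasurable,
    lintegral_DG_sym e ρ N ENNReal.ofReal ENNReal.measurable_ofReal]

theorem integral_DG_sq (e : Edge m) (ρ : ℝ) (N : ℕ) :
    ∫ X, (DG e ρ X) ^ 2 ∂(law m N) =
      (∫⁻ X, ENNReal.ofReal ((DG (e0 m) ρ X) ^ 2) ∂(law m N)).toReal := by
  rw [integral_eq_lintegral_of_nonneg_ae (Eventually.of_forall fun X => sq_nonneg _)
    ((measurable_DG' e ρ).pow_const 2).aestronglyMeasurable,
    lintegral_DG_sym e ρ N (fun x => ENNReal.ofReal (x ^ 2))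
      (ENNReal.measurable_ofReal.comp (measurable_id.pow_const 2))]

end Lim

open Lim in
theorem lim_one {m : ℕ} (e : Edge m) (R : ℝ) (hR : 0 < R) : M1 m (fitR R) ≠ ∞ ∧
    Tendsto (fun N : ℕ => √N * ∫ X, DG e (R / √N) X ∂(law m N)) atTop
      (𝓝 (M1 m (fitR R)).toReal) := by
  obtain ⟨h1, h2⟩ := lim_one0 (m := m) hR
  refine ⟨h1, ?_⟩
  refine ((ENNReal.tendsto_toReal h1).comp h2).congr fun N => ?_
  rw [Function.comp_apply, integral_DG, ENNReal.toReal_mul,
    ENNReal.toReal_ofReal (Real.sqrt_nonneg _)]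

namespace Lim

variable {m : ℕ}

/-! ### Symmetry under permutations of the points -/

theorem sign_sq (π : Equiv.Perm (Fin (m + 2))) :
    ((Equiv.Perm.sign π : ℤ) : ℝ) * ((Equiv.Perm.sign π : ℤ) : ℝ) = 1 := by
  rcases Int.units_eq_one_or (Equiv.Perm.sign π) with h | h <;> rw [h] <;> simp

theorem abs_sign (π : Equiv.Perm (Fin (m + 2))) :
    |((Equiv.Perm.sign π : ℤ) : ℝ)| = 1 := by
  rcases Int.units_eq_one_or (Equiv.Perm.sign π) with h | h <;> rw [h] <;> simp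

theorem abs_cf_perm (I : Fin (m + 2) → P m) (π : Equiv.Perm (Fin (m + 2))) (k : Fin (m + 2)) :
    |cf (I ∘ π) k| = |cf I k| := by
  rw [cf_perm, abs_mul, abs_sign, one_mul]

theorem cf_mul_perm (I : Fin (m + 2) → P m) (π : Equiv.Perm (Fin (m + 2))) (k l : Fin (m + 2)) :
    cf (I ∘ π) k * cf (I ∘ π) l = cf I k * cf I l := by
  rw [cf_perm, cf_perm]
  have := sign_sq π
  calc _ = (((Equiv.Perm.sign π : ℤ) : ℝ) * ((Equiv.Perm.sign π : ℤ) : ℝ)) * (cf I k * cf I l) := by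
        ring
    _ = _ := by rw [this, one_mul]

theorem F_mul_perm (I : Fin (m + 2) → P m) (π : Equiv.Perm (Fin (m + 2))) (q : P m)
    (l : Fin (m + 2)) : F (I ∘ π) q * cf (I ∘ π) l = F I q * cf I l := by
  rw [F_perm, cf_perm]
  have := sign_sq π
  calc _ = (((Equiv.Perm.sign π : ℤ) : ℝ) * ((Equiv.Perm.sign π : ℤ) : ℝ)) * (F I q * cf I l) := by
        ring
    _ = _ := by rw [this, one_mul]

theorem phi_perm (I : Fin (m + 2) → P m) (π : Equiv.Perm (Fin (m + 2))) :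
    phi (I ∘ π) = phi I := by
  unfold phi nrm
  simp only [abs_cf_perm]
  have : ∀ k, cf (I ∘ π) k ^ 2 = cf I k ^ 2 := fun k => by rw [← sq_abs, abs_cf_perm, sq_abs]
  simp only [this]

theorem U_perm (e : Edge m) (I : Fin (m + 2) → P m) (π : Equiv.Perm (Fin (m + 2))) :
    U e (I ∘ π) = U e I := by
  unfold U
  simp only [F_mul_perm]

theorem Dom_perm (e : Edge m) (I : Fin (m + 2) → P m) (π : Equiv.Perm (Fin (m + 2))) :
    Dom e (I ∘ π) ↔ Dom e I := by
  unfold Dom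
  simp only [cf_mul_perm, abs_cf_perm]

theorem gG_perm (e : Edge m) (ρ : ℝ) (I : Fin (m + 2) → P m) (π : Equiv.Perm (Fin (m + 2))) :
    gG e ρ (I ∘ π) = gG e ρ I := by
  classical
  unfold gG
  exact if_congr (and_congr (Dom_perm e I π) (by rw [U_perm])) (phi_perm I π) rfl

theorem not_mem_U_self (e : Edge m) (I : Fin (m + 2) → P m) (i : Fin (m + 2)) :
    I i ∉ U e I := by
  intro h
  have := h.2
  rw [F_self, zero_mul, mul_zero] at this
  exact lt_irrefl _ this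

/-! ### The second moment -/

open Classical in
/-- the integrand of the second moment -/
noncomputable def hN2 (R : ℝ) (t N : ℕ) (Y : Fin (m + 2 + t) → P m) : ℝ≥0∞ :=
  if ∀ k, sc N (Y k) ∉ U (e0 m) (fun i => sc N (fst' t Y i)) ∪
      U (e0 m) (fun i => sc N (lst' t Y i)) then
    ENNReal.ofReal (√N * gG (e0 m) (R / √N) (fun i => sc N (fst' t Y i))) *
      ENNReal.ofReal (√N * gG (e0 m) (R / √N) (fun i => sc N (lst' t Y i))) *
      (unif (m + 2) (U (e0 m) (fun i => sc N (fst' t Y i)) ∪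
        U (e0 m) (fun i => sc N (lst' t Y i)))ᶜ) ^ (N - (m + 2) - t) else 0

open Classical in
/-- its limit -/
noncomputable def hlim2 (R : ℝ) (t : ℕ) (Y : Fin (m + 2 + t) → P m) : ℝ≥0∞ :=
  if ∀ k, Y k ∉ cap (fst' t Y) ∪ cap (lst' t Y) then
    ENNReal.ofReal (hlim R (fst' t Y)) * ENNReal.ofReal (hlim R (lst' t Y)) *
      ENNReal.ofReal (Real.exp (-(volume (cap (fst' t Y) ∪ cap (lst' t Y))).toReal)) else 0

theorem measurable_fst' (t : ℕ) : Measurable (fst' t : (Fin (m + 2 + t) → P m) → _) :=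
  measurable_pi_lambda _ fun _ => measurable_pi_apply _

theorem measurable_lst' (t : ℕ) : Measurable (lst' t : (Fin (m + 2 + t) → P m) → _) :=
  measurable_pi_lambda _ fun _ => measurable_pi_apply _

theorem hN2_le (R : ℝ) (t N : ℕ) (Y : Fin (m + 2 + t) → P m) :
    hN2 R t N Y ≤ ENNReal.ofReal (√N * gG (e0 m) (R / √N) (fun i => sc N (fst' t Y i))) *
      ENNReal.ofReal (√N * gG (e0 m) (R / √N) (fun i => sc N (lst' t Y i))) := by
  unfold hN2
  split_ifs
  · exact mul_le_of_le_one_right zero_le (pow_le_one₀ zero_le prob_le_one)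
  · exact zero_le

/-- the integrand before scaling -/
theorem measurable_int2 {V : (Fin (m + 2) → P m) → Set (P m)}
    (hV : MeasurableSet {p : (Fin (m + 2) → P m) × P m | p.2 ∈ V p.1}) (t : ℕ) :
    MeasurableSet {Y : Fin (m + 2 + t) → P m | ∀ k, Y k ∉ V (fst' t Y) ∪ V (lst' t Y)} := by
  simp only [Set.ofPred_forall]
  refine MeasurableSet.iInter fun k => ?_
  have h1 : Measurable (fun Y : Fin (m + 2 + t) → P m => (fst' t Y, Y k)) :=
    (measurable_fst' t).prodMk (measurable_pi_apply k)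
  have h2 : Measurable (fun Y : Fin (m + 2 + t) → P m => (lst' t Y, Y k)) :=
    (measurable_lst' t).prodMk (measurable_pi_apply k)
  exact ((h1 hV).union (h2 hV)).compl

theorem measurable_unif_union {V : (Fin (m + 2) → P m) → Set (P m)}
    (hV : MeasurableSet {p : (Fin (m + 2) → P m) × P m | p.2 ∈ V p.1}) (t : ℕ) :
    Measurable (fun Y : Fin (m + 2 + t) → P m =>
      unif (m + 2) (V (fst' t Y) ∪ V (lst' t Y))ᶜ) := by
  have h1 : Measurable (fun p : (Fin (m + 2 + t) → P m) × P m => (fst' t p.1, p.2)) :=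
    ((measurable_fst' t).comp measurable_fst).prodMk measurable_snd
  have h2 : Measurable (fun p : (Fin (m + 2 + t) → P m) × P m => (lst' t p.1, p.2)) :=
    ((measurable_lst' t).comp measurable_fst).prodMk measurable_snd
  exact measurable_measure_prodMk_left (ν := unif (m + 2)) ((h1 hV).union (h2 hV)).compl

open Classical in
/-- integrand of the second moment before scaling -/
noncomputable def int2 (ρ : ℝ) (t k : ℕ) (Y : Fin (m + 2 + t) → P m) : ℝ≥0∞ :=
  if ∀ k, Y k ∉ U (e0 m) (fst' t Y) ∪ U (e0 m) (lst' t Y) then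
    ENNReal.ofReal (gG (e0 m) ρ (fst' t Y)) * ENNReal.ofReal (gG (e0 m) ρ (lst' t Y)) *
      (unif (m + 2) (U (e0 m) (fst' t Y) ∪ U (e0 m) (lst' t Y))ᶜ) ^ k else 0

theorem measurable_int2' (ρ : ℝ) (t k : ℕ) :
    Measurable (int2 ρ t k : (Fin (m + 2 + t) → P m) → ℝ≥0∞) := by
  unfold int2
  refine Measurable.ite (measurable_int2 (measurableSet_U (e0 m)) t) ?_ measurable_const
  have h1 : Measurable (fun Y : Fin (m + 2 + t) → P m =>
      ENNReal.ofReal (gG (e0 m) ρ (fst' t Y))) :=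
    ((measurable_gG _ _).comp (measurable_fst' t)).ennreal_ofReal
  have h2 : Measurable (fun Y : Fin (m + 2 + t) → P m =>
      ENNReal.ofReal (gG (e0 m) ρ (lst' t Y))) :=
    ((measurable_gG _ _).comp (measurable_lst' t)).ennreal_ofReal
  exact (h1.mul h2).mul ((measurable_unif_union (measurableSet_U _) t).pow_const _)

theorem hN2_eq (R : ℝ) (t N : ℕ) (Y : Fin (m + 2 + t) → P m) :
    hN2 R t N Y = (N : ℝ≥0∞) * int2 (R / √N) t (N - (m + 2) - t) (fun k => sc N (Y k)) := by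
  have hN : (N : ℝ≥0∞) = ENNReal.ofReal √N * ENNReal.ofReal √N := by
    rw [← ENNReal.ofReal_mul (Real.sqrt_nonneg _), Real.mul_self_sqrt (Nat.cast_nonneg _),
      ENNReal.ofReal_natCast]
  unfold hN2 int2
  have h1 : fst' t (fun k => sc N (Y k)) = fun i => sc N (fst' t Y i) := rfl
  have h2 : lst' t (fun k => sc N (Y k)) = fun i => sc N (lst' t Y i) := rfl
  rw [h1, h2]
  split_ifs
  · rw [ENNReal.ofReal_mul (Real.sqrt_nonneg _), ENNReal.ofReal_mul (Real.sqrt_nonneg _), hN]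
    ring
  · rw [mul_zero]

theorem measurable_hN2 (R : ℝ) (t N : ℕ) :
    Measurable (hN2 R t N : (Fin (m + 2 + t) → P m) → ℝ≥0∞) := by
  have : (hN2 R t N : (Fin (m + 2 + t) → P m) → ℝ≥0∞) =
      fun Y => (N : ℝ≥0∞) * int2 (R / √N) t (N - (m + 2) - t) (fun k => sc N (Y k)) :=
    funext (hN2_eq R t N)
  rw [this]
  exact ((measurable_int2' _ _ _).comp (measurable_scI N _)).const_mul _

theorem fst_lst_cover {t : ℕ} (ht : t ≤ m + 2) (k : Fin (m + 2 + t)) :
    (∃ i : Fin (m + 2), Fin.castAdd t i = k) ∨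
    (∃ i : Fin (m + 2), Fin.cast (Nat.add_comm t (m + 2)) (Fin.natAdd t i) = k) := by
  by_cases h : (k : ℕ) < m + 2
  · exact Or.inl ⟨⟨k, h⟩, by ext; simp⟩
  · refine Or.inr ⟨⟨(k : ℕ) - t, by have := k.2; omega⟩, ?_⟩
    ext
    simp
    omega

theorem mem_piWR_of_fst_lst {R : ℝ} {t : ℕ} (ht : t ≤ m + 2) {Y : Fin (m + 2 + t) → P m}
    (h1 : ∀ i, fst' t Y i ∈ WR m R) (h2 : ∀ i, lst' t Y i ∈ WR m R) :
    Y ∈ Set.pi univ (fun _ : Fin (m + 2 + t) => WR m R) := by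
  intro k _
  rcases fst_lst_cover ht k with ⟨i, rfl⟩ | ⟨i, rfl⟩
  · exact h1 i
  · exact h2 i

theorem tendsto_hN2 {R : ℝ} (hR : 0 < R) (t : ℕ) {Y : Fin (m + 2 + t) → P m}
    (hY : Y ∈ Set.pi univ (fun _ : Fin (m + 2 + t) => WR m R)) :
    Tendsto (fun N : ℕ => hN2 R t N Y) atTop (𝓝 (hlim2 R t Y)) := by
  have hcond : ∀ᶠ N : ℕ in atTop, ((∀ k, sc N (Y k) ∉ U (e0 m) (fun i => sc N (fst' t Y i)) ∪
      U (e0 m) (fun i => sc N (lst' t Y i))) ↔ (∀ k, Y k ∉ cap (fst' t Y) ∪ cap (lst' t Y))) := by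
    filter_upwards [eventually_ge_atTop 1, tendsto_sqrt.eventually_gt_atTop R] with N h1 h2
    refine forall_congr' fun k => not_congr ?_
    have h3 : Y k ∈ QN m N := WR_subset_QN h1 h2.le (hY k (mem_univ k))
    simp only [mem_union, sc_mem_U h1, h3, and_true]
  have hprod := ENNReal.Tendsto.mul (tendsto_gG' hR (fst' t Y)) (Or.inr ENNReal.ofReal_ne_top)
    (tendsto_gG' hR (lst' t Y)) (Or.inr ENNReal.ofReal_ne_top)
  by_cases hc : ∀ k, Y k ∉ cap (fst' t Y) ∪ cap (lst' t Y)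
  · by_cases hf : fst' t Y ∈ fitR R ∧ lst' t Y ∈ fitR R
    · have hev : ∀ᶠ N : ℕ in atTop,
          unif (m + 2) (U (e0 m) (fun i => sc N (fst' t Y i)) ∪
            U (e0 m) (fun i => sc N (lst' t Y i))) =
            ENNReal.ofReal (N : ℝ)⁻¹ * volume (cap (fst' t Y) ∪ cap (lst' t Y)) := by
        filter_upwards [eventually_ge_atTop 1, tendsto_sqrt.eventually_gt_atTop R] with N h1 h2
        exact unif_U_union h1 h2.le hf.1 hf.2
      have hpow := tendsto_unif_pow (fun N => (measurableSet_U' (e0 m)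
        (fun i => sc N (fst' t Y i))).union (measurableSet_U' (e0 m)
        (fun i => sc N (lst' t Y i)))) (volume_cap_union_lt_top hf.1 hf.2).ne hev (m + 2 + t)
      have h4 := ENNReal.Tendsto.mul hprod (Or.inr ENNReal.ofReal_ne_top) hpow
        (Or.inr (ENNReal.mul_ne_top ENNReal.ofReal_ne_top ENNReal.ofReal_ne_top))
      unfold hlim2
      rw [if_pos hc]
      refine h4.congr' ?_
      filter_upwards [hcond] with N h5
      unfold hN2
      rw [if_pos (h5.2 hc), Nat.sub_sub]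
    · have h0 : ENNReal.ofReal (hlim R (fst' t Y)) * ENNReal.ofReal (hlim R (lst' t Y)) = 0 := by
        rw [not_and_or] at hf
        rcases hf with hf | hf
        · rw [hlim, if_neg hf, ENNReal.ofReal_zero, zero_mul]
        · rw [mul_comm, hlim, if_neg hf, ENNReal.ofReal_zero, zero_mul]
      have h1 : hlim2 R t Y = 0 := by
        unfold hlim2
        rw [if_pos hc, h0, zero_mul]
      rw [h1]
      rw [h0] at hprod
      exact tendsto_of_tendsto_of_tendsto_of_le_of_le tendsto_const_nhds hprod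
        (fun N => zero_le) (fun N => hN2_le R t N Y)
  · have h1 : hlim2 R t Y = 0 := by
      unfold hlim2
      rw [if_neg hc]
    rw [h1]
    refine tendsto_const_nhds.congr' ?_
    filter_upwards [hcond] with N h5
    unfold hN2
    rw [if_neg fun h => hc (h5.1 h)]

theorem J2_eq {R : ℝ} (hR : 0 < R) {t : ℕ} (ht : t ≤ m + 2) :
    J2 m t (fitR R) = ∫⁻ Y in Set.pi univ (fun _ : Fin (m + 2 + t) => WR m R), hlim2 R t Y := by
  unfold J2
  have hms : MeasurableSet ((Set.pi univ (fun _ : Fin (m + 2 + t) => W m)) ∩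
      {Y | fst' t Y ∈ fitR R ∧ lst' t Y ∈ fitR R ∧
        ∀ k, Y k ∉ cap (fst' t Y) ∪ cap (lst' t Y)}) := by
    refine (measurableSet_piW _).inter ?_
    exact (measurable_fst' t (isClosed_fitR R).measurableSet).inter
      ((measurable_lst' t (isClosed_fitR R).measurableSet).inter
      (measurable_int2 measurableSet_capset t))
  refine lintegral_pi_restrict hms (measurableSet_piWR R _) _ _ fun Y => ?_
  by_cases h1 : Y ∈ (Set.pi univ (fun _ : Fin (m + 2 + t) => W m)) ∩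
      {Y | fst' t Y ∈ fitR R ∧ lst' t Y ∈ fitR R ∧
        ∀ k, Y k ∉ cap (fst' t Y) ∪ cap (lst' t Y)}
  · rw [indicator_of_mem h1]
    have hexp : ENNReal.ofReal (psi (fst' t Y) * psi (lst' t Y) *
        Real.exp (-(volume (cap (fst' t Y) ∪ cap (lst' t Y))).toReal)) = hlim2 R t Y := by
      unfold hlim2
      rw [if_pos h1.2.2.2, hlim, hlim, if_pos h1.2.1, if_pos h1.2.2.1,
        ENNReal.ofReal_mul (mul_nonneg (psi_nonneg _) (psi_nonneg _)),
        ENNReal.ofReal_mul (psi_nonneg _)]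
    by_cases h2 : 0 < cf (fst' t Y) 0 * cf (fst' t Y) 1 ∧ 0 < cf (lst' t Y) 0 * cf (lst' t Y) 1
    · have h3 : Y ∈ Set.pi univ (fun _ : Fin (m + 2 + t) => WR m R) :=
        mem_piWR_of_fst_lst ht
          (fun i => mem_piWR_of_fit hR (fun i => h1.1 _ (mem_univ _)) h2.1 h1.2.1 i)
          (fun i => mem_piWR_of_fit hR (fun i => h1.1 _ (mem_univ _)) h2.2 h1.2.2.1 i)
      rw [indicator_of_mem h3, hexp]
    · have h4 : psi (fst' t Y) * psi (lst' t Y) = 0 := by
        rw [not_and_or] at h2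
        rcases h2 with h2 | h2
        · unfold psi; rw [if_neg h2, zero_mul]
        · rw [mul_comm]; unfold psi; rw [if_neg h2, zero_mul]
      have h5 : hlim2 R t Y = 0 := by
        rw [← hexp, h4, zero_mul, ENNReal.ofReal_zero]
      rw [hexp, h5]
      by_cases h3 : Y ∈ Set.pi univ (fun _ : Fin (m + 2 + t) => WR m R)
      · rw [indicator_of_mem h3, h5]
      · rw [indicator_of_notMem h3]
  · rw [indicator_of_notMem h1]
    by_cases h3 : Y ∈ Set.pi univ (fun _ : Fin (m + 2 + t) => WR m R)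
    · rw [indicator_of_mem h3]
      have h4 : ¬ (fst' t Y ∈ fitR R ∧ lst' t Y ∈ fitR R ∧
          ∀ k, Y k ∉ cap (fst' t Y) ∪ cap (lst' t Y)) :=
        fun h => h1 ⟨fun i hi => WR_subset_W R (h3 i hi), h⟩
      unfold hlim2
      split_ifs with h5
      · have h6 : ¬ (fst' t Y ∈ fitR R ∧ lst' t Y ∈ fitR R) := fun h => h4 ⟨h.1, h.2, h5⟩
        rw [not_and_or] at h6
        rcases h6 with h6 | h6
        · rw [hlim, if_neg h6, ENNReal.ofReal_zero, zero_mul, zero_mul]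
        · rw [mul_comm (ENNReal.ofReal (hlim R (fst' t Y))), hlim, if_neg h6, ENNReal.ofReal_zero,
            zero_mul, zero_mul]
      · rfl
    · rw [indicator_of_notMem h3]

/-- prefactors -/
theorem tendsto_choose_sub (n t : ℕ) :
    Tendsto (fun N : ℕ => (((N - n).choose t : ℕ) : ℝ≥0∞) * (ENNReal.ofReal (N : ℝ)⁻¹) ^ t) atTop
      (𝓝 (((t.factorial : ℕ) : ℝ≥0∞)⁻¹)) := by
  have h1 : Tendsto (fun N : ℕ => ((N.choose t : ℕ) : ℝ) * (((N + n : ℕ) : ℝ)⁻¹) ^ t) atTop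
      (𝓝 (1 / t.factorial)) := by
    have h0 : Tendsto (fun k : ℕ => (k : ℝ) * (((k + n : ℕ) : ℝ)⁻¹)) atTop (𝓝 1) := by
      have h2 : Tendsto (fun k : ℕ => (n : ℝ) / ((k + n : ℕ) : ℝ)) atTop (𝓝 0) :=
        tendsto_const_nhds.div_atTop
          (tendsto_natCast_atTop_atTop.comp (tendsto_add_atTop_nat n))
      have h3 : Tendsto (fun k : ℕ => 1 - (n : ℝ) / ((k + n : ℕ) : ℝ)) atTop (𝓝 1) := by
        simpa using (tendsto_const_nhds (x := (1 : ℝ))).sub h2
      refine h3.congr' ?_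
      filter_upwards [eventually_ge_atTop 1] with N hN
      have : ((N + n : ℕ) : ℝ) ≠ 0 := by positivity
      field_simp
      push_cast
      ring
    have := ProbabilityTheory.tendsto_choose_mul_pow_atTop t h0
    simpa using this
  have h2 := (ENNReal.continuous_ofReal.tendsto _).comp h1
  have h3 : ENNReal.ofReal (1 / (t.factorial : ℝ)) = ((t.factorial : ℕ) : ℝ≥0∞)⁻¹ := by
    rw [one_div, ENNReal.ofReal_inv_of_pos (by exact_mod_cast Nat.factorial_pos t),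
      ENNReal.ofReal_natCast]
  rw [h3] at h2
  have h4 := h2.comp (tendsto_sub_atTop_nat n)
  refine h4.congr' ?_
  filter_upwards [eventually_ge_atTop n] with N hN
  rw [Function.comp_apply, Function.comp_apply, ENNReal.ofReal_mul (by positivity),
    ENNReal.ofReal_natCast, ENNReal.ofReal_pow (by positivity), Nat.sub_add_cancel hN]

theorem tendsto_prefactor {t : ℕ} (ht : t ≤ m + 2) :
    Tendsto (fun N : ℕ => ((N.choose (m + 2) * (m + 2).choose t * (N - (m + 2)).choose t : ℕ) :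
      ℝ≥0∞) * (ENNReal.ofReal (N : ℝ)⁻¹) ^ (m + 2 + t)) atTop
      (𝓝 ((((m + 2 - t).factorial : ℕ) : ℝ≥0∞) * ((t.factorial : ℕ) : ℝ≥0∞) ^ 2)⁻¹) := by
  have hf : ∀ k : ℕ, (((k.factorial : ℕ) : ℝ≥0∞)) ≠ 0 := fun k => by
    exact_mod_cast (Nat.factorial_pos k).ne'
  have hf' : ∀ k : ℕ, (((k.factorial : ℕ) : ℝ≥0∞)) ≠ ∞ := fun k => ENNReal.natCast_ne_top _
  have hinv : ∀ k : ℕ, (((k.factorial : ℕ) : ℝ≥0∞))⁻¹ ≠ ∞ := fun k => ENNReal.inv_ne_top.2 (hf k)
  have h1 := ENNReal.Tendsto.mul (tendsto_choose (m + 2)) (Or.inr (hinv t))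
    (tendsto_choose_sub (m + 2) t) (Or.inr (hinv _))
  have h2 := ENNReal.Tendsto.const_mul (a := (((m + 2).choose t : ℕ) : ℝ≥0∞)) h1
    (Or.inr (ENNReal.natCast_ne_top _))
  have h3 : (((m + 2).choose t : ℕ) : ℝ≥0∞) * ((((m + 2).factorial : ℕ) : ℝ≥0∞)⁻¹ *
      ((t.factorial : ℕ) : ℝ≥0∞)⁻¹) =
      ((((m + 2 - t).factorial : ℕ) : ℝ≥0∞) * ((t.factorial : ℕ) : ℝ≥0∞) ^ 2)⁻¹ := by
    have hid : ((m + 2).choose t : ℝ≥0∞) * ((t.factorial : ℕ) : ℝ≥0∞) *
        (((m + 2 - t).factorial : ℕ) : ℝ≥0∞) = (((m + 2).factorial : ℕ) : ℝ≥0∞) := by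
      exact_mod_cast Nat.choose_mul_factorial_mul_factorial ht
    have hC : ((m + 2).choose t : ℝ≥0∞) ≠ 0 := by
      exact_mod_cast (Nat.choose_pos ht).ne'
    rw [← hid]
    rw [ENNReal.mul_inv (Or.inl (mul_ne_zero hC (hf t))) (Or.inl
      (ENNReal.mul_ne_top (ENNReal.natCast_ne_top _) (hf' t))),
      ENNReal.mul_inv (Or.inl hC) (Or.inl (ENNReal.natCast_ne_top _)),
      ENNReal.mul_inv (Or.inl (hf _)) (Or.inl (hf' _)), sq,
      ENNReal.mul_inv (Or.inl (hf _)) (Or.inl (hf' _))]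
    calc ((m + 2).choose t : ℝ≥0∞) * (((m + 2).choose t : ℝ≥0∞)⁻¹ *
          ((t.factorial : ℕ) : ℝ≥0∞)⁻¹ * (((m + 2 - t).factorial : ℕ) : ℝ≥0∞)⁻¹ *
          ((t.factorial : ℕ) : ℝ≥0∞)⁻¹) =
        (((m + 2).choose t : ℝ≥0∞) * (((m + 2).choose t : ℝ≥0∞)⁻¹)) *
          ((((m + 2 - t).factorial : ℕ) : ℝ≥0∞)⁻¹ * (((t.factorial : ℕ) : ℝ≥0∞)⁻¹ *
          ((t.factorial : ℕ) : ℝ≥0∞)⁻¹)) := by ring
      _ = _ := by rw [ENNReal.mul_inv_cancel hC (ENNReal.natCast_ne_top _), one_mul]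
  rw [h3] at h2
  refine h2.congr fun N => ?_
  push_cast
  rw [pow_add]
  ring

theorem second_eq {R : ℝ} (hR : 0 < R) {N : ℕ} (hN : 2 * (m + 2) ≤ N) (hRN : R < √N) :
    (N : ℝ≥0∞) * ∫⁻ X, ENNReal.ofReal ((DG (e0 m) (R / √N) X) ^ 2) ∂(law m N) =
      ∑ t ∈ Finset.range (m + 3),
        (((N.choose (m + 2) * (m + 2).choose t * (N - (m + 2)).choose t : ℕ) : ℝ≥0∞) *
          (ENNReal.ofReal (N : ℝ)⁻¹) ^ (m + 2 + t)) *
        ∫⁻ Y in Set.pi univ (fun _ : Fin (m + 2 + t) => WR m R), hN2 R t N Y := by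
  classical
  have hN1' : 1 ≤ N := by omega
  have h1 : ∀ X : Fin N → P m, ENNReal.ofReal ((DG (e0 m) (R / √N) X) ^ 2) =
      SmE (fun I => ENNReal.ofReal (gG (e0 m) (R / √N) I)) (U (e0 m)) X *
      SmE (fun I => ENNReal.ofReal (gG (e0 m) (R / √N) I)) (U (e0 m)) X := by
    intro X
    rw [sq, ENNReal.ofReal_mul (DG_nonneg _ _ X)]
    have := ofReal_Sm (gG_nonneg (e0 m) (R / √N)) (U (e0 m)) X
    unfold DG
    rw [this]
  simp only [h1]
  rw [second_moment hN _ _ _ _ (measurable_gG _ _).ennreal_ofReal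
    (measurable_gG _ _).ennreal_ofReal (measurableSet_U _) (measurableSet_U _)
    (fun I π => by rw [gG_perm]) (fun I π => by rw [gG_perm]) (fun I π => U_perm _ I π)
    (fun I π => U_perm _ I π) (fun I i => not_mem_U_self _ I i)
    (fun I i => not_mem_U_self _ I i), Finset.mul_sum]
  refine Finset.sum_congr rfl fun t ht => ?_
  have ht' : t ≤ m + 2 := by have := Finset.mem_range.1 ht; omega
  have h5 : ∫⁻ Y, int2 (R / √N) t (N - (m + 2) - t) Y ∂(law m (m + 2 + t)) =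
      (ENNReal.ofReal (N : ℝ)⁻¹) ^ (m + 2 + t) *
      ∫⁻ Y in Set.pi univ (fun _ : Fin (m + 2 + t) => QN m N),
        int2 (R / √N) t (N - (m + 2) - t) (fun k => sc N (Y k)) :=
    lintegral_law hN1' (measurable_int2' _ _ _)
  have h6 : ∫⁻ Y in Set.pi univ (fun _ : Fin (m + 2 + t) => WR m R), hN2 R t N Y =
      (N : ℝ≥0∞) * ∫⁻ Y in Set.pi univ (fun _ : Fin (m + 2 + t) => QN m N),
        int2 (R / √N) t (N - (m + 2) - t) (fun k => sc N (Y k)) := by
    rw [← lintegral_const_mul' _ _ (ENNReal.natCast_ne_top N)]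
    refine (lintegral_pi_restrict (measurableSet_piQN N _) (measurableSet_piWR R _) _ _
      fun Y => ?_).symm
    by_cases h4 : Y ∈ Set.pi univ (fun _ : Fin (m + 2 + t) => WR m R)
    · have h5 : Y ∈ Set.pi univ (fun _ : Fin (m + 2 + t) => QN m N) :=
        fun i hi => WR_subset_QN hN1' hRN.le (h4 i hi)
      rw [indicator_of_mem h4, indicator_of_mem h5, hN2_eq]
    · rw [indicator_of_notMem h4]
      by_cases h5 : Y ∈ Set.pi univ (fun _ : Fin (m + 2 + t) => QN m N)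
      · rw [indicator_of_mem h5, ← hN2_eq]
        have hle := hN2_le R t N Y
        have hz : ENNReal.ofReal (√N * gG (e0 m) (R / √N) (fun i => sc N (fst' t Y i))) *
            ENNReal.ofReal (√N * gG (e0 m) (R / √N) (fun i => sc N (lst' t Y i))) = 0 := by
          rw [gG_sc hR hRN, gG_sc hR hRN]
          by_contra hne
          rw [mul_eq_zero, not_or] at hne
          obtain ⟨ha, hb⟩ := hne
          have ha' : Dom (e0 m) (fun i => sc N (fst' t Y i)) ∧ fst' t Y ∈ fitR R := by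
            by_contra hc; rw [if_neg hc, mul_zero, ENNReal.ofReal_zero] at ha; exact ha rfl
          have hb' : Dom (e0 m) (fun i => sc N (lst' t Y i)) ∧ lst' t Y ∈ fitR R := by
            by_contra hc; rw [if_neg hc, mul_zero, ENNReal.ofReal_zero] at hb; exact hb rfl
          refine h4 (mem_piWR_of_fst_lst ht' (fun i => mem_piWR_of_fit hR
            (fun i => QN_subset_W hN1' (h5 _ (mem_univ _))) ((Dom_sc hN1' _).1 ha'.1).1 ha'.2 i)
            (fun i => mem_piWR_of_fit hR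
            (fun i => QN_subset_W hN1' (h5 _ (mem_univ _))) ((Dom_sc hN1' _).1 hb'.1).1 hb'.2 i))
        rw [hz] at hle
        exact le_antisymm hle zero_le
      · rw [indicator_of_notMem h5]
  have h7 : ∀ Y : Fin (m + 2 + t) → P m, (if ∀ k, Y k ∉ U (e0 m) (fst' t Y) ∪
      U (e0 m) (lst' t Y) then
            ENNReal.ofReal (gG (e0 m) (R / √N) (fst' t Y)) *
            ENNReal.ofReal (gG (e0 m) (R / √N) (lst' t Y)) *
              (unif (m + 2) (U (e0 m) (fst' t Y) ∪ U (e0 m) (lst' t Y))ᶜ) ^ (N - (m + 2) - t)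
            else 0) = int2 (R / √N) t (N - (m + 2) - t) Y := fun Y => rfl
  simp only [h7]
  rw [h5, h6]
  ring

theorem lim_two0 {R : ℝ} (hR : 0 < R) : M2 m (fitR R) ≠ ∞ ∧
    Tendsto (fun N : ℕ => (N : ℝ≥0∞) *
      ∫⁻ X, ENNReal.ofReal ((DG (e0 m) (R / √N) X) ^ 2) ∂(law m N)) atTop
      (𝓝 (M2 m (fitR R))) := by
  obtain ⟨B, hB0, hB⟩ := exists_bound (m := m) R
  have hvol : ∀ r : ℕ, volume (Set.pi univ (fun _ : Fin r => WR m R)) < ∞ :=
    fun r => (isCompact_piWR R _).measure_lt_top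
  have hbfin : ∀ r : ℕ, ∫⁻ _ in Set.pi univ (fun _ : Fin r => WR m R),
      (ENNReal.ofReal B * ENNReal.ofReal B) ≠ ∞ := by
    intro r
    rw [lintegral_const, Measure.restrict_apply_univ]
    exact (ENNReal.mul_lt_top (ENNReal.mul_lt_top ENNReal.ofReal_lt_top ENNReal.ofReal_lt_top)
      (hvol r)).ne
  have hbd : ∀ (t N : ℕ), hN2 R t N ≤ᵐ[volume.restrict (Set.pi univ
      (fun _ : Fin (m + 2 + t) => WR m R))] fun _ => (ENNReal.ofReal B * ENNReal.ofReal B) := by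
    intro t N
    rw [EventuallyLE, ae_restrict_iff' (measurableSet_piWR R _)]
    refine Eventually.of_forall fun Y hY => ?_
    refine (hN2_le R t N Y).trans (mul_le_mul' ?_ ?_)
    · exact ENNReal.ofReal_le_ofReal ((sqrt_gG_le _ _).trans (hB _ fun i _ => hY _ (mem_univ _)))
    · exact ENNReal.ofReal_le_ofReal ((sqrt_gG_le _ _).trans (hB _ fun i _ => hY _ (mem_univ _)))
  have hlim_int : ∀ t : ℕ, Tendsto (fun N : ℕ => ∫⁻ Y in Set.pi univ
      (fun _ : Fin (m + 2 + t) => WR m R), hN2 R t N Y) atTop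
      (𝓝 (∫⁻ Y in Set.pi univ (fun _ : Fin (m + 2 + t) => WR m R), hlim2 R t Y)) := by
    intro t
    refine tendsto_lintegral_of_dominated_convergence
      (fun _ => ENNReal.ofReal B * ENNReal.ofReal B)
      (fun N => measurable_hN2 R t N) (fun N => hbd t N) (hbfin _) ?_
    rw [ae_restrict_iff' (measurableSet_piWR R _)]
    exact Eventually.of_forall fun Y hY => tendsto_hN2 hR t hY
  have hfin2 : ∀ t : ℕ,
      ∫⁻ Y in Set.pi univ (fun _ : Fin (m + 2 + t) => WR m R), hlim2 R t Y ≠ ∞ := by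
    intro t
    refine ne_top_of_le_ne_top (hbfin (m + 2 + t)) (le_of_tendsto (hlim_int t)
      (Eventually.of_forall fun N => ?_))
    exact lintegral_mono_ae (hbd t N)
  have hfac : ∀ t : ℕ, ((((m + 2 - t).factorial : ℕ) : ℝ≥0∞) *
      ((t.factorial : ℕ) : ℝ≥0∞) ^ 2)⁻¹ ≠ ∞ := by
    intro t
    rw [ENNReal.inv_ne_top]
    refine mul_ne_zero (by exact_mod_cast (Nat.factorial_pos _).ne')
      (pow_ne_zero _ (by exact_mod_cast (Nat.factorial_pos _).ne'))
  have hM2 : M2 m (fitR R) = ∑ t ∈ Finset.range (m + 3),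
      ((((m + 2 - t).factorial : ℕ) : ℝ≥0∞) * ((t.factorial : ℕ) : ℝ≥0∞) ^ 2)⁻¹ *
        ∫⁻ Y in Set.pi univ (fun _ : Fin (m + 2 + t) => WR m R), hlim2 R t Y := by
    unfold M2
    refine Finset.sum_congr rfl fun t ht => ?_
    have ht' : t ≤ m + 2 := by have := Finset.mem_range.1 ht; omega
    rw [J2_eq hR ht', div_eq_mul_inv, mul_comm]
  rw [hM2]
  refine ⟨?_, ?_⟩
  · rw [ENNReal.sum_ne_top]
    exact fun t _ => ENNReal.mul_ne_top (hfac t) (hfin2 t)
  · have h1 : Tendsto (fun N : ℕ => ∑ t ∈ Finset.range (m + 3),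
        (((N.choose (m + 2) * (m + 2).choose t * (N - (m + 2)).choose t : ℕ) : ℝ≥0∞) *
          (ENNReal.ofReal (N : ℝ)⁻¹) ^ (m + 2 + t)) *
        ∫⁻ Y in Set.pi univ (fun _ : Fin (m + 2 + t) => WR m R), hN2 R t N Y) atTop
        (𝓝 (∑ t ∈ Finset.range (m + 3),
      ((((m + 2 - t).factorial : ℕ) : ℝ≥0∞) * ((t.factorial : ℕ) : ℝ≥0∞) ^ 2)⁻¹ *
        ∫⁻ Y in Set.pi univ (fun _ : Fin (m + 2 + t) => WR m R), hlim2 R t Y)) := by
      refine tendsto_finsetSum _ fun t ht => ?_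
      have ht' : t ≤ m + 2 := by have := Finset.mem_range.1 ht; omega
      exact ENNReal.Tendsto.mul (tendsto_prefactor ht') (Or.inr (hfin2 t)) (hlim_int t)
        (Or.inr (hfac t))
    refine h1.congr' ?_
    filter_upwards [eventually_ge_atTop (2 * (m + 2)), tendsto_sqrt.eventually_gt_atTop R]
      with N h2 h3
    rw [second_eq hR h2 h3]

end Lim

open Lim in
theorem lim_two {m : ℕ} (e : Edge m) (R : ℝ) (hR : 0 < R) : M2 m (fitR R) ≠ ∞ ∧
    Tendsto (fun N : ℕ => N * ∫ X, (DG e (R / √N) X) ^ 2 ∂(law m N)) atTop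
      (𝓝 (M2 m (fitR R)).toReal) := by
  obtain ⟨h1, h2⟩ := lim_two0 (m := m) hR
  refine ⟨h1, ?_⟩
  refine ((ENNReal.tendsto_toReal h1).comp h2).congr fun N => ?_
  rw [Function.comp_apply, integral_DG_sq, ENNReal.toReal_mul, ENNReal.toReal_natCast]

end Pool.Agent.B05
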