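import Pool.Agent.Lib.MP_b05ae9_pr.CrossB
import Pool.Agent.Lib.MP_b05ae9_pr.LimTwo

/-!
MP_b05ae9_pr, Task J2, part C (helper96): the limit of the cross terms.
-/

set_option autoImplicit false

open MeasureTheory Set Filter Topology
open scoped ENNReal MeasureTheory

namespace Pool.Agent.B05

namespace Cross

variable {m : ℕ}

theorem num_bound {C R : ℝ} (hR : 0 < R) {N : ℕ} (hN : 1 ≤ N) (K : ℕ) :
    (N : ℝ) * (N : ℝ) ^ K * ((C * (R / √N)) ^ 2 * (R / √N) ^ (2 * K + 1)) =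
      C ^ 2 * R ^ (2 * K + 2) * (R / √N) := by
  have hs : 0 < √(N : ℝ) := Real.sqrt_pos.2 (by exact_mod_cast hN)
  have hs2 : √(N : ℝ) ^ 2 = N := Real.sq_sqrt (Nat.cast_nonneg N)
  have e1 : (N : ℝ) * (N : ℝ) ^ K = √(N : ℝ) ^ (2 * K + 2) := by
    rw [← pow_succ', ← hs2, ← pow_mul]
    simp only [Real.sqrt_sq hs.le]
    congr 1
  rw [e1, div_pow, mul_pow, div_pow]
  have e2 : √(N : ℝ) ^ (2 * K + 2) * (C ^ 2 * (R ^ 2 / √(N : ℝ) ^ 2) *
      (R ^ (2 * K + 1) / √(N : ℝ) ^ (2 * K + 1))) =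
      C ^ 2 * R ^ (2 * K + 2) * (R / √N) := by
    have : √(N : ℝ) ^ (2 * K + 2) = √(N : ℝ) ^ (2 * K + 1) * √(N : ℝ) := by rw [← pow_succ]
    rw [this]
    field_simp
    ring
  exact e2

theorem choose_prod_le (N t : ℕ) : ((N.choose (m + 2) * (m + 2).choose t *
    (N - (m + 2)).choose t : ℕ) : ℝ) ≤ 2 ^ (m + 2) * (N : ℝ) ^ (m + 2 + t) := by
  have h1 : N.choose (m + 2) ≤ N ^ (m + 2) := Nat.choose_le_pow _ _
  have h2 : (m + 2).choose t ≤ 2 ^ (m + 2) := Nat.choose_le_two_pow _ _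
  have h3 : (N - (m + 2)).choose t ≤ N ^ t :=
    (Nat.choose_le_pow _ _).trans (Nat.pow_le_pow_left (Nat.sub_le _ _) _)
  have h4 : N.choose (m + 2) * (m + 2).choose t * (N - (m + 2)).choose t ≤
      N ^ (m + 2) * 2 ^ (m + 2) * N ^ t := Nat.mul_le_mul (Nat.mul_le_mul h1 h2) h3
  calc ((N.choose (m + 2) * (m + 2).choose t * (N - (m + 2)).choose t : ℕ) : ℝ)
      ≤ ((N ^ (m + 2) * 2 ^ (m + 2) * N ^ t : ℕ) : ℝ) := by exact_mod_cast h4
    _ = 2 ^ (m + 2) * (N : ℝ) ^ (m + 2 + t) := by push_cast; ring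

theorem choose_lower {N : ℕ} (hN : 2 * (m + 2) ≤ N) (hN0 : 1 ≤ N) :
    (1 - 2 * (m + 2) / (N : ℝ)) ^ (m + 2) * (N.choose (m + 2) : ℝ) ≤
      ((N - (m + 2)).choose (m + 2) : ℝ) := by
  have hNr : (0 : ℝ) < N := by exact_mod_cast hN0
  have hf : (0 : ℝ) < (m + 2).factorial := by positivity
  have h1 : (N.descFactorial (m + 2) : ℝ) = (m + 2).factorial * (N.choose (m + 2) : ℝ) := by
    exact_mod_cast Nat.descFactorial_eq_factorial_mul_choose N (m + 2)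
  have h2 : ((N - (m + 2)).descFactorial (m + 2) : ℝ) =
      (m + 2).factorial * ((N - (m + 2)).choose (m + 2) : ℝ) := by
    exact_mod_cast Nat.descFactorial_eq_factorial_mul_choose (N - (m + 2)) (m + 2)
  have h3 : (N.descFactorial (m + 2) : ℝ) ≤ (N : ℝ) ^ (m + 2) := by
    exact_mod_cast Nat.descFactorial_le_pow N (m + 2)
  have h4 : ((N : ℝ) - 2 * (m + 2)) ^ (m + 2) ≤ ((N - (m + 2)).descFactorial (m + 2) : ℝ) := by
    have h5 := Nat.pow_sub_le_descFactorial (N - (m + 2)) (m + 2)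
    have h6 : ((N : ℝ) - 2 * (m + 2)) ≤ ((N - (m + 2) + 1 - (m + 2) : ℕ) : ℝ) := by
      have : N - (m + 2) + 1 - (m + 2) = N - 2 * (m + 2) + 1 := by omega
      rw [this]
      push_cast [Nat.cast_sub hN]
      linarith
    have h7 : (0 : ℝ) ≤ (N : ℝ) - 2 * (m + 2) := by
      have : ((2 * (m + 2) : ℕ) : ℝ) ≤ N := by exact_mod_cast hN
      push_cast at this
      linarith
    calc ((N : ℝ) - 2 * (m + 2)) ^ (m + 2) ≤ ((N - (m + 2) + 1 - (m + 2) : ℕ) : ℝ) ^ (m + 2) :=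
          pow_le_pow_left₀ h7 h6 _
      _ ≤ _ := by exact_mod_cast h5
  have h8 : (1 - 2 * (m + 2) / (N : ℝ)) ^ (m + 2) * (N : ℝ) ^ (m + 2) =
      ((N : ℝ) - 2 * (m + 2)) ^ (m + 2) := by
    rw [← mul_pow]
    congr 1
    field_simp
  have h9 : 0 ≤ (1 - 2 * (m + 2) / (N : ℝ)) ^ (m + 2) := by
    apply pow_nonneg
    have : ((2 * (m + 2) : ℕ) : ℝ) ≤ N := by exact_mod_cast hN
    push_cast at this
    rw [sub_nonneg, div_le_one hNr]
    exact this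
  have h10 : (m + 2).factorial * ((1 - 2 * (m + 2) / (N : ℝ)) ^ (m + 2) *
      (N.choose (m + 2) : ℝ)) ≤ (m + 2).factorial * ((N - (m + 2)).choose (m + 2) : ℝ) := by
    calc (m + 2).factorial * ((1 - 2 * (m + 2) / (N : ℝ)) ^ (m + 2) * (N.choose (m + 2) : ℝ))
        = (1 - 2 * (m + 2) / (N : ℝ)) ^ (m + 2) * (N.descFactorial (m + 2) : ℝ) := by
          rw [h1]; ring
      _ ≤ (1 - 2 * (m + 2) / (N : ℝ)) ^ (m + 2) * (N : ℝ) ^ (m + 2) := by gcongr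
      _ ≤ _ := by rw [h8, ← h2]; exact h4
  exact le_of_mul_le_mul_left h10 hf

/-- The first moment. -/
theorem integral_DG {N : ℕ} (hN : m + 2 ≤ N) (e : Edge m) {ρ : ℝ} (h0 : 0 < ρ) (h1 : ρ ≤ 1) :
    ((N.choose (m + 2) : ℕ) : ℝ≥0∞) * A e ρ N = ENNReal.ofReal (∫ X, DG e ρ X ∂(law m N)) := by
  have hA : A e ρ N ≤ ENNReal.ofReal (Cph m * ρ) := by
    calc A e ρ N ≤ ∫⁻ _I, ENNReal.ofReal (Cph m * ρ) ∂(law m (m + 2)) := by
          refine lintegral_mono_ae ?_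
          filter_upwards [ae_law_mem m (m + 2)] with I hI
          calc GE e ρ I * (unif (m + 2) (U e I)ᶜ) ^ (N - (m + 2))
              ≤ ENNReal.ofReal (Cph m * ρ) * 1 := by
                gcongr
                · exact GE_le e h0 h1 hI
                · exact pow_le_one₀ zero_le prob_le_one
            _ = _ := mul_one _
      _ = _ := by simp
  have h2 := first_moment hN (GE e ρ) (U e) (measurable_GE e ρ) (Lim.measurableSet_U e)
  have h3 : ∫ X, DG e ρ X ∂(law m N) = (∫⁻ X, SmE (GE e ρ) (U e) X ∂(law m N)).toReal := by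
    rw [integral_eq_lintegral_of_nonneg_ae (Filter.Eventually.of_forall fun X => DG_nonneg e ρ X)
      (Lim.measurable_DG' e ρ).aestronglyMeasurable]
    congr 1
    exact lintegral_congr fun X => ofReal_DG e ρ X
  rw [h3, h2, ENNReal.ofReal_toReal]
  · rfl
  · exact ENNReal.mul_ne_top (ENNReal.natCast_ne_top _) (hA.trans_lt ENNReal.ofReal_lt_top).ne

theorem second_DG {N : ℕ} (hN : 2 * (m + 2) ≤ N) (e e' : Edge m) (ρ : ℝ) :
    ∫⁻ X, SmE (GE e ρ) (U e) X * SmE (GE e' ρ) (U e') X ∂(law m N) =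
      (∑ t ∈ Finset.range (m + 2),
        ((N.choose (m + 2) * (m + 2).choose t * (N - (m + 2)).choose t : ℕ) : ℝ≥0∞) *
        T e e' ρ N t) +
      ((N.choose (m + 2) * (m + 2).choose (m + 2) * (N - (m + 2)).choose (m + 2) : ℕ) : ℝ≥0∞) *
        T e e' ρ N (m + 2) := by
  rw [second_moment hN (GE e ρ) (GE e' ρ) (U e) (U e') (measurable_GE e ρ) (measurable_GE e' ρ)
    (Lim.measurableSet_U e) (Lim.measurableSet_U e') (GE_perm e ρ) (GE_perm e' ρ)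
    (U_perm e) (U_perm e') (notMem_U e) (notMem_U e'), Finset.sum_range_succ]
  rfl

/-- upper bound -/
theorem upper {e e' : Edge m} (hee : e ≠ e') {ρ : ℝ} (h0 : 0 < ρ) (h1 : ρ < 1 / 2) {N : ℕ}
    (hN : 2 * (m + 2) ≤ N) :
    ∫⁻ X, SmE (GE e ρ) (U e) X * SmE (GE e' ρ) (U e') X ∂(law m N) ≤
      ENNReal.ofReal ((∑ t ∈ Finset.range (m + 2), 2 ^ (m + 2) * (N : ℝ) ^ (m + 2 + t) *
        ((Cph m * ρ) ^ 2 * ρ ^ (2 * (m + 2 + t) + 1))) + kap m ρ (N - (m + 2) - (m + 2)) *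
        ((∫ X, DG e ρ X ∂(law m N)) * ∫ X, DG e' ρ X ∂(law m N))) := by
  have hCph := Cph_pos m
  have hk := kap_nonneg m h0 h1 (N - (m + 2) - (m + 2))
  have ha : 0 ≤ ∫ X, DG e ρ X ∂(law m N) := integral_nonneg fun X => DG_nonneg e ρ X
  have ha' : 0 ≤ ∫ X, DG e' ρ X ∂(law m N) := integral_nonneg fun X => DG_nonneg e' ρ X
  rw [second_DG hN, ENNReal.ofReal_add (Finset.sum_nonneg fun t _ => by positivity)
    (by positivity), ENNReal.ofReal_sum_of_nonneg fun t _ => by positivity]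
  refine add_le_add (Finset.sum_le_sum fun t ht => ?_) ?_
  · rw [ENNReal.ofReal_mul (by positivity)]
    refine mul_le_mul' ?_ (T_lt_le hee h0 h1 N (Finset.mem_range.1 ht))
    rw [← ENNReal.ofReal_natCast]
    exact ENNReal.ofReal_le_ofReal (choose_prod_le N t)
  · calc ((N.choose (m + 2) * (m + 2).choose (m + 2) * (N - (m + 2)).choose (m + 2) : ℕ) : ℝ≥0∞) *
        T e e' ρ N (m + 2)
        ≤ ((N.choose (m + 2) * 1 * N.choose (m + 2) : ℕ) : ℝ≥0∞) *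
          (ENNReal.ofReal (kap m ρ (N - (m + 2) - (m + 2))) * (A e ρ N * A e' ρ N)) := by
          refine mul_le_mul' ?_ (T_eq_le hee h0 h1 hN)
          rw [Nat.choose_self]
          exact_mod_cast Nat.mul_le_mul le_rfl (Nat.choose_le_choose _ (Nat.sub_le _ _))
      _ = ENNReal.ofReal (kap m ρ (N - (m + 2) - (m + 2))) *
          ((((N.choose (m + 2) : ℕ) : ℝ≥0∞) * A e ρ N) *
            (((N.choose (m + 2) : ℕ) : ℝ≥0∞) * A e' ρ N)) := by
          push_cast; ring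
      _ = _ := by
          rw [integral_DG (by omega) e h0 (by linarith), integral_DG (by omega) e' h0 (by linarith),
            ← ENNReal.ofReal_mul ha, ← ENNReal.ofReal_mul hk]

/-- lower bound -/
theorem lower {e e' : Edge m} (hee : e ≠ e') {ρ : ℝ} (h0 : 0 < ρ) (h1 : ρ < 1 / 2) {N : ℕ}
    (hN : 2 * (m + 2) ≤ N) :
    ENNReal.ofReal ((1 - 2 * (m + 2) / (N : ℝ)) ^ (m + 2) *
      (1 - 4 * ρ ^ 4) ^ (N - (m + 2) - (m + 2)) *
        ((∫ X, DG e ρ X ∂(law m N)) * ∫ X, DG e' ρ X ∂(law m N))) ≤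
    ∫⁻ X, SmE (GE e ρ) (U e) X * SmE (GE e' ρ) (U e') X ∂(law m N) +
      ENNReal.ofReal ((N : ℝ) ^ (m + 2 + (m + 2)) * bad m ρ) := by
  have hCph := Cph_pos m
  have hN0 : 1 ≤ N := by omega
  have hNr : (0 : ℝ) < N := by exact_mod_cast hN0
  have ha : 0 ≤ ∫ X, DG e ρ X ∂(law m N) := integral_nonneg fun X => DG_nonneg e ρ X
  have ha' : 0 ≤ ∫ X, DG e' ρ X ∂(law m N) := integral_nonneg fun X => DG_nonneg e' ρ X
  have hr4 : 0 ≤ 1 - 4 * ρ ^ 4 := by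
    have hr2 : ρ ^ 2 < 1 / 4 := by nlinarith
    nlinarith [sq_nonneg (ρ ^ 2)]
  have h9 : 0 ≤ (1 - 2 * (m + 2) / (N : ℝ)) ^ (m + 2) := by
    apply pow_nonneg
    have : ((2 * (m + 2) : ℕ) : ℝ) ≤ N := by exact_mod_cast hN
    push_cast at this
    rw [sub_nonneg, div_le_one hNr]
    exact this
  have hbad : 0 ≤ bad m ρ := by unfold bad; positivity
  have hc : ENNReal.ofReal ((1 - 2 * (m + 2) / (N : ℝ)) ^ (m + 2)) *
      ((N.choose (m + 2) : ℕ) : ℝ≥0∞) ≤ (((N - (m + 2)).choose (m + 2) : ℕ) : ℝ≥0∞) := by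
    rw [← ENNReal.ofReal_natCast, ← ENNReal.ofReal_natCast, ← ENNReal.ofReal_mul h9]
    exact ENNReal.ofReal_le_ofReal (choose_lower hN hN0)
  have h2 := le_T_eq hee h0 h1 hN
  calc ENNReal.ofReal ((1 - 2 * (m + 2) / (N : ℝ)) ^ (m + 2) *
      (1 - 4 * ρ ^ 4) ^ (N - (m + 2) - (m + 2)) *
        ((∫ X, DG e ρ X ∂(law m N)) * ∫ X, DG e' ρ X ∂(law m N)))
      = ENNReal.ofReal ((1 - 2 * (m + 2) / (N : ℝ)) ^ (m + 2)) *
        ENNReal.ofReal ((1 - 4 * ρ ^ 4) ^ (N - (m + 2) - (m + 2))) *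
        ((((N.choose (m + 2) : ℕ) : ℝ≥0∞) * A e ρ N) *
            (((N.choose (m + 2) : ℕ) : ℝ≥0∞) * A e' ρ N)) := by
        rw [integral_DG (by omega) e h0 (by linarith), integral_DG (by omega) e' h0 (by linarith),
          ← ENNReal.ofReal_mul ha, ← ENNReal.ofReal_mul h9, ← ENNReal.ofReal_mul (by positivity)]
    _ = ((N.choose (m + 2) : ℕ) : ℝ≥0∞) *
        (ENNReal.ofReal ((1 - 2 * (m + 2) / (N : ℝ)) ^ (m + 2)) *
        ((N.choose (m + 2) : ℕ) : ℝ≥0∞)) *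
        (ENNReal.ofReal ((1 - 4 * ρ ^ 4) ^ (N - (m + 2) - (m + 2))) *
          (A e ρ N * A e' ρ N)) := by ring
    _ ≤ ((N.choose (m + 2) : ℕ) : ℝ≥0∞) * (((N - (m + 2)).choose (m + 2) : ℕ) : ℝ≥0∞) *
        (T e e' ρ N (m + 2) + ENNReal.ofReal (bad m ρ)) := by gcongr
    _ = ((N.choose (m + 2) * (m + 2).choose (m + 2) * (N - (m + 2)).choose (m + 2) : ℕ) : ℝ≥0∞) *
          T e e' ρ N (m + 2) + ((N.choose (m + 2) : ℕ) : ℝ≥0∞) *
          (((N - (m + 2)).choose (m + 2) : ℕ) : ℝ≥0∞) * ENNReal.ofReal (bad m ρ) := by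
        rw [Nat.choose_self]; push_cast; ring
    _ ≤ _ := by
        rw [second_DG hN]
        refine add_le_add le_add_self ?_
        rw [ENNReal.ofReal_mul (by positivity)]
        refine mul_le_mul' ?_ le_rfl
        rw [← Nat.cast_mul, ← ENNReal.ofReal_natCast]
        refine ENNReal.ofReal_le_ofReal ?_
        have h5 : N.choose (m + 2) * (N - (m + 2)).choose (m + 2) ≤ N ^ (m + 2) * N ^ (m + 2) :=
          Nat.mul_le_mul (Nat.choose_le_pow _ _)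
            ((Nat.choose_le_pow _ _).trans (Nat.pow_le_pow_left (Nat.sub_le _ _) _))
        rw [pow_add]
        exact_mod_cast h5

theorem integral_mul_DG {N : ℕ} (e e' : Edge m) (ρ : ℝ) :
    ∫ X, DG e ρ X * DG e' ρ X ∂(law m N) =
      (∫⁻ X, SmE (GE e ρ) (U e) X * SmE (GE e' ρ) (U e') X ∂(law m N)).toReal := by
  rw [integral_eq_lintegral_of_nonneg_ae
    (Filter.Eventually.of_forall fun X => mul_nonneg (DG_nonneg e ρ X) (DG_nonneg e' ρ X))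
    ((Lim.measurable_DG' e ρ).mul (Lim.measurable_DG' e' ρ)).aestronglyMeasurable]
  congr 1
  refine lintegral_congr fun X => ?_
  rw [ENNReal.ofReal_mul (DG_nonneg e ρ X), ofReal_DG, ofReal_DG]

theorem kap_le {R : ℝ} {N M : ℕ} (hM : M ≤ N) {ρ : ℝ} (h0 : 0 < ρ) (h1 : ρ < 1 / 2)
    (hρ : N * ρ ^ 2 = R ^ 2) :
    kap m ρ M ≤ Real.exp (4 * R ^ 2 * ρ) / (1 - ρ ^ 2) ^ (2 * (m + 2)) := by
  have hr2 : ρ ^ 2 < 1 / 4 := by nlinarith
  unfold kap
  have h2 : 0 < (1 - ρ ^ 2) ^ (2 * (m + 2)) := by apply pow_pos; linarith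
  refine div_le_div_of_nonneg_right ?_ h2.le
  calc (1 + 4 * ρ ^ 3) ^ M ≤ (Real.exp (4 * ρ ^ 3)) ^ M := by
        refine pow_le_pow_left₀ (by positivity) ?_ _
        have := Real.add_one_le_exp (4 * ρ ^ 3)
        linarith
    _ = Real.exp (M * (4 * ρ ^ 3)) := by rw [← Real.exp_nat_mul]
    _ ≤ Real.exp (4 * R ^ 2 * ρ) := by
        refine Real.exp_le_exp.2 ?_
        calc (M : ℝ) * (4 * ρ ^ 3) ≤ N * (4 * ρ ^ 3) := by gcongr
          _ = 4 * (N * ρ ^ 2) * ρ := by ring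
          _ = 4 * R ^ 2 * ρ := by rw [hρ]

theorem mu_ge {R : ℝ} {N M : ℕ} (hM : M ≤ N) {ρ : ℝ} (h0 : 0 < ρ) (h1 : ρ < 1 / 2)
    (hρ : N * ρ ^ 2 = R ^ 2) : 1 - 4 * R ^ 2 * ρ ^ 2 ≤ (1 - 4 * ρ ^ 4) ^ M := by
  have hr2 : ρ ^ 2 < 1 / 4 := by nlinarith
  have hr4 : 0 ≤ 1 - 4 * ρ ^ 4 := by nlinarith [sq_nonneg (ρ ^ 2)]
  have h4 : 0 < ρ ^ 4 := by positivity
  have h2 := one_add_mul_le_pow (a := -(4 * ρ ^ 4)) (by linarith) N
  calc 1 - 4 * R ^ 2 * ρ ^ 2 = 1 + N * (-(4 * ρ ^ 4)) := by rw [← hρ]; ring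
    _ ≤ (1 + -(4 * ρ ^ 4)) ^ N := h2
    _ = (1 - 4 * ρ ^ 4) ^ N := by ring_nf
    _ ≤ (1 - 4 * ρ ^ 4) ^ M := pow_le_pow_of_le_one hr4 (by linarith) hM

end Cross

open Pool.Agent.B05.Cross in
theorem lim_cross {m : ℕ} (e e' : Edge m) (hee : e ≠ e') (R : ℝ) (hR : 0 < R) :
    Tendsto (fun N : ℕ => N * ∫ X, DG e (R / √N) X * DG e' (R / √N) X ∂(law m N)) atTop
      (𝓝 ((M1 m (fitR R)).toReal ^ 2)) := by
  have hCph := Cph_pos m
  set M := (M1 m (fitR R)).toReal with hMdef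
  have hx := (lim_one e R hR).2
  have hy := (lim_one e' R hR).2
  set x : ℕ → ℝ := fun N => √N * ∫ X, DG e (R / √N) X ∂(law m N) with hxdef
  set y : ℕ → ℝ := fun N => √N * ∫ X, DG e' (R / √N) X ∂(law m N) with hydef
  have hxy : Tendsto (fun N => x N * y N) atTop (𝓝 (M ^ 2)) := by
    rw [sq]; exact hx.mul hy
  have hsq : Tendsto (fun N : ℕ => √(N : ℝ)) atTop atTop :=
    Real.tendsto_sqrt_atTop.comp tendsto_natCast_atTop_atTop
  have hρ0 : Tendsto (fun N : ℕ => R / √(N : ℝ)) atTop (𝓝 0) :=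
    tendsto_const_nhds.div_atTop hsq
  have hN0 : Tendsto (fun N : ℕ => 2 * ((m : ℝ) + 2) / (N : ℝ)) atTop (𝓝 0) :=
    tendsto_const_nhds.div_atTop tendsto_natCast_atTop_atTop
  set K1 : ℝ := ∑ t ∈ Finset.range (m + 2), 2 ^ (m + 2) * (Cph m ^ 2 *
    R ^ (2 * (m + 2 + t) + 2)) with hK1
  set K2 : ℝ := (m + 2 + (m + 2)) * (Cph m ^ 2 * R ^ (2 * (m + 2 + (m + 2)) + 2)) with hK2
  have hup : Tendsto (fun N : ℕ => Real.exp (4 * R ^ 2 * (R / √N)) /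
      (1 - (R / √N) ^ 2) ^ (2 * (m + 2)) * (x N * y N) + K1 * (R / √N)) atTop (𝓝 (M ^ 2)) := by
    have h1 : Tendsto (fun N : ℕ => Real.exp (4 * R ^ 2 * (R / √(N : ℝ))) /
        (1 - (R / √(N : ℝ)) ^ 2) ^ (2 * (m + 2))) atTop (𝓝 1) := by
      have h2 : Tendsto (fun z : ℝ => Real.exp (4 * R ^ 2 * z) / (1 - z ^ 2) ^ (2 * (m + 2)))
          (𝓝 0) (𝓝 1) := by
        have : ContinuousAt (fun z : ℝ => Real.exp (4 * R ^ 2 * z) /
            (1 - z ^ 2) ^ (2 * (m + 2))) 0 := by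
          refine ContinuousAt.div (by fun_prop) (by fun_prop) (by simp)
        simpa [ContinuousAt] using this
      exact h2.comp hρ0
    have h3 := (h1.mul hxy).add (hρ0.const_mul K1)
    simpa using h3
  have hlo : Tendsto (fun N : ℕ => (1 - 2 * ((m : ℝ) + 2) / (N : ℝ)) ^ (m + 2) *
      (1 - 4 * R ^ 2 * (R / √N) ^ 2) * (x N * y N) - K2 * (R / √N)) atTop (𝓝 (M ^ 2)) := by
    have h1 : Tendsto (fun N : ℕ => (1 - 2 * ((m : ℝ) + 2) / (N : ℝ)) ^ (m + 2)) atTop (𝓝 1) := by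
      have := ((tendsto_const_nhds (x := (1 : ℝ))).sub hN0).pow (m + 2)
      simpa using this
    have h2 : Tendsto (fun N : ℕ => (1 - 4 * R ^ 2 * (R / √(N : ℝ)) ^ 2)) atTop (𝓝 1) := by
      have := (tendsto_const_nhds (x := (1 : ℝ))).sub ((hρ0.pow 2).const_mul (4 * R ^ 2))
      simpa using this
    have h3 := ((h1.mul h2).mul hxy).sub (hρ0.const_mul K2)
    simpa using h3
  have hev : ∀ᶠ N : ℕ in atTop, 2 * (m + 2) ≤ N ∧ R / √(N : ℝ) < 1 / 2 :=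
    (eventually_ge_atTop _).and (hρ0.eventually_lt_const (by norm_num))
  refine tendsto_of_tendsto_of_tendsto_of_le_of_le' hlo hup ?_ ?_
  · filter_upwards [hev] with N hN
    obtain ⟨hN, hρ1⟩ := hN
    have hN1 : 1 ≤ N := by omega
    have hNr : (0 : ℝ) < N := by exact_mod_cast hN1
    have hs : 0 < √(N : ℝ) := Real.sqrt_pos.2 hNr
    have hs2 : √(N : ℝ) ^ 2 = N := Real.sq_sqrt hNr.le
    set ρ := R / √(N : ℝ) with hρdef
    have hρpos : 0 < ρ := by positivity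
    have hρR : N * ρ ^ 2 = R ^ 2 := by
      rw [hρdef, div_pow, hs2]; field_simp
    have ha : 0 ≤ ∫ X, DG e ρ X ∂(law m N) := integral_nonneg fun X => DG_nonneg e ρ X
    have ha' : 0 ≤ ∫ X, DG e' ρ X ∂(law m N) := integral_nonneg fun X => DG_nonneg e' ρ X
    have hb : 0 ≤ ∫ X, DG e ρ X * DG e' ρ X ∂(law m N) :=
      integral_nonneg fun X => mul_nonneg (DG_nonneg e ρ X) (DG_nonneg e' ρ X)
    have hbad : 0 ≤ bad m ρ := by unfold bad; positivity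
    have hfin : ∫⁻ X, SmE (GE e ρ) (U e) X * SmE (GE e' ρ) (U e') X ∂(law m N) ≠ ∞ :=
      ((upper hee hρpos hρ1 hN).trans_lt ENNReal.ofReal_lt_top).ne
    have h1 := lower hee hρpos hρ1 hN
    have h2 : ∫⁻ X, SmE (GE e ρ) (U e) X * SmE (GE e' ρ) (U e') X ∂(law m N) =
        ENNReal.ofReal (∫ X, DG e ρ X * DG e' ρ X ∂(law m N)) := by
      rw [integral_mul_DG, ENNReal.ofReal_toReal hfin]
    rw [h2, ← ENNReal.ofReal_add hb (by positivity),
      ENNReal.ofReal_le_ofReal_iff (by positivity)] at h1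
    have h3 := mu_ge (R := R) (N := N) (M := N - (m + 2) - (m + 2)) (by omega) hρpos hρ1 hρR
    have h9 : 0 ≤ (1 - 2 * ((m : ℝ) + 2) / (N : ℝ)) ^ (m + 2) := by
      apply pow_nonneg
      have : ((2 * (m + 2) : ℕ) : ℝ) ≤ N := by exact_mod_cast hN
      push_cast at this
      rw [sub_nonneg, div_le_one hNr]
      exact this
    have h4 : (1 - 2 * ((m : ℝ) + 2) / (N : ℝ)) ^ (m + 2) * (1 - 4 * R ^ 2 * ρ ^ 2) *
        ((∫ X, DG e ρ X ∂(law m N)) * ∫ X, DG e' ρ X ∂(law m N)) ≤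
        (∫ X, DG e ρ X * DG e' ρ X ∂(law m N)) + (N : ℝ) ^ (m + 2 + (m + 2)) * bad m ρ := by
      refine le_trans ?_ h1
      gcongr
    have h5 : x N * y N = N * ((∫ X, DG e ρ X ∂(law m N)) * ∫ X, DG e' ρ X ∂(law m N)) := by
      simp only [hxdef, hydef]
      rw [← hρdef]
      calc _ = √(N : ℝ) ^ 2 * ((∫ X, DG e ρ X ∂(law m N)) * ∫ X, DG e' ρ X ∂(law m N)) := by ring
        _ = _ := by rw [hs2]
    have h6 : N * ((N : ℝ) ^ (m + 2 + (m + 2)) * bad m ρ) = K2 * ρ := by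
      have := num_bound (C := Cph m) hR hN1 (m + 2 + (m + 2))
      rw [← hρdef] at this
      rw [bad, hK2]
      calc _ = ((m : ℝ) + 2 + (m + 2)) * ((N : ℝ) * (N : ℝ) ^ (m + 2 + (m + 2)) *
          ((Cph m * ρ) ^ 2 * ρ ^ (2 * (m + 2 + (m + 2)) + 1))) := by ring
        _ = _ := by rw [this]; ring
    rw [h5, sub_le_iff_le_add, ← h6, ← mul_add]
    calc _ = (N : ℝ) * ((1 - 2 * ((m : ℝ) + 2) / (N : ℝ)) ^ (m + 2) * (1 - 4 * R ^ 2 * ρ ^ 2) *
        ((∫ X, DG e ρ X ∂(law m N)) * ∫ X, DG e' ρ X ∂(law m N))) := by ring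
      _ ≤ _ := mul_le_mul_of_nonneg_left h4 hNr.le
  · filter_upwards [hev] with N hN
    obtain ⟨hN, hρ1⟩ := hN
    have hN1 : 1 ≤ N := by omega
    have hNr : (0 : ℝ) < N := by exact_mod_cast hN1
    have hs : 0 < √(N : ℝ) := Real.sqrt_pos.2 hNr
    have hs2 : √(N : ℝ) ^ 2 = N := Real.sq_sqrt hNr.le
    set ρ := R / √(N : ℝ) with hρdef
    have hρpos : 0 < ρ := by positivity
    have hρR : N * ρ ^ 2 = R ^ 2 := by
      rw [hρdef, div_pow, hs2]; field_simp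
    have ha : 0 ≤ ∫ X, DG e ρ X ∂(law m N) := integral_nonneg fun X => DG_nonneg e ρ X
    have ha' : 0 ≤ ∫ X, DG e' ρ X ∂(law m N) := integral_nonneg fun X => DG_nonneg e' ρ X
    have hk := kap_nonneg m hρpos hρ1 (N - (m + 2) - (m + 2))
    have h1 := upper hee hρpos hρ1 hN
    have h2 : ∫ X, DG e ρ X * DG e' ρ X ∂(law m N) ≤
        (∑ t ∈ Finset.range (m + 2), 2 ^ (m + 2) * (N : ℝ) ^ (m + 2 + t) *
        ((Cph m * ρ) ^ 2 * ρ ^ (2 * (m + 2 + t) + 1))) + kap m ρ (N - (m + 2) - (m + 2)) *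
        ((∫ X, DG e ρ X ∂(law m N)) * ∫ X, DG e' ρ X ∂(law m N)) := by
      rw [integral_mul_DG]
      exact ENNReal.toReal_le_of_le_ofReal
        (add_nonneg (Finset.sum_nonneg fun t _ => by positivity) (by positivity)) h1
    have h3 := kap_le (m := m) (R := R) (N := N) (M := N - (m + 2) - (m + 2)) (by omega)
      hρpos hρ1 hρR
    have h5 : x N * y N = N * ((∫ X, DG e ρ X ∂(law m N)) * ∫ X, DG e' ρ X ∂(law m N)) := by
      simp only [hxdef, hydef]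
      rw [← hρdef]
      calc _ = √(N : ℝ) ^ 2 * ((∫ X, DG e ρ X ∂(law m N)) * ∫ X, DG e' ρ X ∂(law m N)) := by ring
        _ = _ := by rw [hs2]
    have h6 : N * (∑ t ∈ Finset.range (m + 2), 2 ^ (m + 2) * (N : ℝ) ^ (m + 2 + t) *
        ((Cph m * ρ) ^ 2 * ρ ^ (2 * (m + 2 + t) + 1))) = K1 * ρ := by
      rw [hK1, Finset.mul_sum, Finset.sum_mul]
      refine Finset.sum_congr rfl fun t _ => ?_
      have := num_bound (C := Cph m) hR hN1 (m + 2 + t)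
      rw [← hρdef] at this
      calc _ = 2 ^ (m + 2) * ((N : ℝ) * (N : ℝ) ^ (m + 2 + t) *
          ((Cph m * ρ) ^ 2 * ρ ^ (2 * (m + 2 + t) + 1))) := by ring
        _ = _ := by rw [this]; ring
    calc (N : ℝ) * ∫ X, DG e ρ X * DG e' ρ X ∂(law m N)
        ≤ N * ((∑ t ∈ Finset.range (m + 2), 2 ^ (m + 2) * (N : ℝ) ^ (m + 2 + t) *
        ((Cph m * ρ) ^ 2 * ρ ^ (2 * (m + 2 + t) + 1))) + kap m ρ (N - (m + 2) - (m + 2)) *
        ((∫ X, DG e ρ X ∂(law m N)) * ∫ X, DG e' ρ X ∂(law m N))) :=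
          mul_le_mul_of_nonneg_left h2 hNr.le
      _ = K1 * ρ + kap m ρ (N - (m + 2) - (m + 2)) * (x N * y N) := by
          rw [mul_add, h6, h5]; ring
      _ ≤ K1 * ρ + Real.exp (4 * R ^ 2 * ρ) / (1 - ρ ^ 2) ^ (2 * (m + 2)) * (x N * y N) := by
          have hxy0 : 0 ≤ x N * y N := by rw [h5]; positivity
          gcongr
      _ = _ := by rw [add_comm]

end Pool.Agent.B05
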