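import Pool.Agent.Lib.MP_b05ae9_pr.LowerDisjoint
import Pool.Agent.Lib.MP_b05ae9_pr.Alg
import Pool.Agent.Lib.MP_b05ae9_pr.Vol

/-! # MP_b05ae9_pr, task D2, part 2: volumes of the coordinate projections of the hull -/

set_option autoImplicit false

open MeasureTheory Set Filter Topology
open scoped ENNReal MeasureTheory

namespace Pool.Agent.B05

namespace SurfHull

theorem continuous_pr {m : ℕ} (k : Fin (m + 2)) : Continuous (pr k : P m → (Fin (m + 1) → ℝ)) := by
  unfold pr
  fun_prop

/-- moving along the direction `k` inside a neighbourhood -/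
theorem exists_move {m : ℕ} (k : Fin (m + 2)) (K : Set (P m)) (x : P m) (hx : x ∈ interior K) :
    ∃ t : ℝ, 0 < t ∧ x + t • Pi.single k 1 ∈ K ∧ x - t • Pi.single k 1 ∈ K := by
  have h1 : Filter.Tendsto (fun t : ℝ => x + t • (Pi.single k 1 : P m)) (𝓝 0) (𝓝 x) := by
    have : Continuous fun t : ℝ => x + t • (Pi.single k 1 : P m) := by fun_prop
    simpa using this.tendsto 0
  have h2 : Filter.Tendsto (fun t : ℝ => x - t • (Pi.single k 1 : P m)) (𝓝 0) (𝓝 x) := by
    have : Continuous fun t : ℝ => x - t • (Pi.single k 1 : P m) := by fun_prop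
    simpa using this.tendsto 0
  have hn := mem_interior_iff_mem_nhds.1 hx
  have e1 : ∀ᶠ t in 𝓝[>] (0 : ℝ), x + t • (Pi.single k 1 : P m) ∈ K :=
    (h1.eventually_mem hn).filter_mono nhdsWithin_le_nhds
  have e2 : ∀ᶠ t in 𝓝[>] (0 : ℝ), x - t • (Pi.single k 1 : P m) ∈ K :=
    (h2.eventually_mem hn).filter_mono nhdsWithin_le_nhds
  obtain ⟨t, ⟨h3, h4⟩, h5⟩ := ((e1.and e2).and self_mem_nhdsWithin).exists
  exact ⟨t, h5, h3, h4⟩

theorem pr_single {m : ℕ} (k : Fin (m + 2)) (x : P m) (t : ℝ) :
    pr k (x + t • Pi.single k 1) = pr k x := by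
  ext l
  simp [pr]

/-- interior points over interior points of the projection -/
theorem exists_interior_over {m : ℕ} (k : Fin (m + 2)) (K : Set (P m)) (hK : Convex ℝ K)
    (hne : (interior K).Nonempty) (z : Fin (m + 1) → ℝ) (hz : z ∈ interior (pr k '' K)) :
    ∃ x ∈ interior K, pr k x = z := by
  obtain ⟨q, hq⟩ := hne
  have h1 : Filter.Tendsto (fun t : ℝ => z + t • (z - pr k q)) (𝓝 0) (𝓝 z) := by
    have : Continuous fun t : ℝ => z + t • (z - pr k q) := by fun_prop
    simpa using this.tendsto 0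
  have e1 : ∀ᶠ t in 𝓝[>] (0 : ℝ), z + t • (z - pr k q) ∈ pr k '' K :=
    (h1.eventually_mem (mem_interior_iff_mem_nhds.1 hz)).filter_mono nhdsWithin_le_nhds
  obtain ⟨t, ⟨y, hy, hyz⟩, ht⟩ := (e1.and self_mem_nhdsWithin).exists
  have ht' : 0 < t := ht
  refine ⟨(1 / (1 + t)) • y + (t / (1 + t)) • q, ?_, ?_⟩
  · refine hK.combo_self_interior_mem_interior hy hq (by positivity) (by positivity) ?_
    field_simp
  · ext l
    have hl := congrFun hyz l
    simp only [pr, Pi.add_apply, Pi.smul_apply, smul_eq_mul, Pi.sub_apply] at hl ⊢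
    rw [hl]
    field_simp
    ring

/-- the lower facets cover the projection -/
theorem lower_cover {m N : ℕ} (hN : m + 3 ≤ N) (X : Fin N → P m) (hX : GP X) (k : Fin (m + 2))
    (z : Fin (m + 1) → ℝ) (hz : z ∈ interior (pr k '' convexHull ℝ (range X)))
    (hz' : ∀ J : Finset (Fin N), J.card ≤ m + 1 →
      z ∉ pr k '' convexHull ℝ (X '' (J : Set (Fin N)))) :
    ∃ ι : Fin (m + 2) → Fin N, StrictMono ι ∧
      (∀ p ∉ range ι, 0 < F (X ∘ ι) (X p) * cf (X ∘ ι) k) ∧
      z ∈ pr k '' convexHull ℝ (range (X ∘ ι)) := by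
  set K := convexHull ℝ (range X) with hK
  have hKc : IsCompact K := (finite_range X).isCompact_convexHull ℝ
  obtain ⟨x₀, hx₀, hx₀z⟩ := exists_interior_over k K (convex_convexHull ℝ _)
    (interior_nonempty hN X hX) z hz
  have hfib : IsCompact (K ∩ pr k ⁻¹' {z}) :=
    hKc.inter_right (isClosed_singleton.preimage (continuous_pr k))
  obtain ⟨x, ⟨hxK, hxz⟩, hxmin⟩ := hfib.exists_isMinOn (f := fun x : P m => x k)
    ⟨x₀, interior_subset hx₀, hx₀z⟩ (continuous_apply k).continuousOn
  have hmin : ∀ y ∈ K, pr k y = z → x k ≤ y k := fun y hy hyz => hxmin ⟨hy, hyz⟩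
  have hxf : x ∈ frontier K := by
    rw [hKc.isClosed.frontier_eq]
    refine ⟨hxK, fun hint => ?_⟩
    obtain ⟨t, ht, -, h2⟩ := exists_move k K x hint
    have h3 : pr k (x - t • Pi.single k 1) = z := by
      have := pr_single k x (-t)
      rw [neg_smul, ← sub_eq_add_neg] at this
      rw [this]
      exact hxz
    have h4 := hmin _ h2 h3
    simp at h4
    linarith
  rcases frontier_sub hN X hX x hxf with ⟨ι, hι, hfac, hxι⟩ | ⟨J, hJ, hxJ⟩
  · refine ⟨ι, hι, ?_, x, hxι, hxz⟩
    have hcf := (hX.2 ι hι.injective).1 k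
    by_contra hlow
    have hup : ∀ p ∉ range ι, 0 < F (X ∘ ι) (X p) * (-cf (X ∘ ι) k) := by
      rcases lt_or_gt_of_ne hcf with hc | hc
      · rcases hfac with h | h
        · intro p hp
          have := h p hp
          have h5 : 0 < -cf (X ∘ ι) k := by linarith
          positivity
        · exfalso
          apply hlow
          intro p hp
          exact mul_pos_of_neg_of_neg (h p hp) hc
      · rcases hfac with h | h
        · exfalso
          apply hlow
          intro p hp
          exact mul_pos (h p hp) hc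
        · intro p hp
          exact mul_pos_of_neg_of_neg (h p hp) (by linarith)
    have hmax : ∀ y ∈ K, pr k y = z → y k ≤ x k := by
      intro y hy hyz
      have h2 := sign_on_hull X ι _ hup y hy
      have h3 := F_diff (X ∘ ι) k x y (by rw [hyz]; exact hxz)
      rw [F_zero_range X ι x hxι, sub_zero] at h3
      rw [h3] at h2
      have hpos : 0 < cf (X ∘ ι) k ^ 2 := by positivity
      by_contra hlt
      push Not at hlt
      have h6 : cf (X ∘ ι) k * (y k - x k) * (-cf (X ∘ ι) k) =
          -(cf (X ∘ ι) k ^ 2 * (y k - x k)) := by ring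
      rw [h6] at h2
      have h4 := mul_pos hpos (sub_pos.2 hlt)
      linarith
    obtain ⟨t, ht, h1, h2⟩ := exists_move k K x₀ hx₀
    have h3 := hmax _ h1 (by rw [pr_single]; exact hx₀z)
    have h4 := hmin x₀ (interior_subset hx₀) hx₀z
    simp at h3
    linarith
  · exact absurd ⟨x, hxJ, hxz⟩ (hz' J hJ)

open Classical in
/-- volume of the projection as a sum over lower facets -/
theorem volume_lower {m N : ℕ} (hN : m + 3 ≤ N) (X : Fin N → P m) (hX : GP X) (k : Fin (m + 2)) :
    volume (pr k '' convexHull ℝ (range X)) =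
      ∑ ι ∈ Finset.univ.filter (fun ι : Fin (m + 2) → Fin N => StrictMono ι ∧
        ∀ p ∉ range ι, 0 < F (X ∘ ι) (X p) * cf (X ∘ ι) k),
        ENNReal.ofReal (|cf (X ∘ ι) k| / (m + 1).factorial) := by
  set S := Finset.univ.filter (fun ι : Fin (m + 2) → Fin N => StrictMono ι ∧
        ∀ p ∉ range ι, 0 < F (X ∘ ι) (X p) * cf (X ∘ ι) k) with hSdef
  have hS : ∀ ι, ι ∈ S ↔ StrictMono ι ∧ ∀ p ∉ range ι, 0 < F (X ∘ ι) (X p) * cf (X ∘ ι) k := by
    intro ι
    simp [S]
  have hmeas : volume (pr k '' convexHull ℝ (range X)) =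
      volume (⋃ ι ∈ S, pr k '' convexHull ℝ (range (X ∘ ι))) := by
    apply le_antisymm
    · have hsub : pr k '' convexHull ℝ (range X) ⊆
          ((⋃ ι ∈ S, pr k '' convexHull ℝ (range (X ∘ ι))) ∪
            ⋃ J ∈ (Finset.univ.filter fun J : Finset (Fin N) => J.card ≤ m + 1),
              pr k '' convexHull ℝ (X '' (J : Set (Fin N)))) ∪
            frontier (pr k '' convexHull ℝ (range X)) := by
        intro z hz
        by_cases hzi : z ∈ interior (pr k '' convexHull ℝ (range X))
        · left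
          by_cases hzJ : ∀ J : Finset (Fin N), J.card ≤ m + 1 →
              z ∉ pr k '' convexHull ℝ (X '' (J : Set (Fin N)))
          · left
            obtain ⟨ι, h1, h2, h3⟩ := lower_cover hN X hX k z hzi hzJ
            exact mem_biUnion ((hS ι).2 ⟨h1, h2⟩) h3
          · right
            push Not at hzJ
            obtain ⟨J, h1, h2⟩ := hzJ
            exact mem_biUnion (x := J) (by simpa using h1) h2
        · right
          exact ⟨subset_closure hz, hzi⟩
      refine (measure_mono hsub).trans ((measure_union_le _ _).trans ?_)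
      have hconv : Convex ℝ (pr k '' convexHull ℝ (range X)) :=
        (convex_convexHull ℝ (range X)).linear_image (prL k)
      rw [hconv.addHaar_frontier volume, add_zero]
      refine (measure_union_le _ _).trans ?_
      have h0 : volume (⋃ J ∈ (Finset.univ.filter fun J : Finset (Fin N) => J.card ≤ m + 1),
          pr k '' convexHull ℝ (X '' (J : Set (Fin N)))) = 0 := by
        refine (measure_biUnion_null_iff (Finset.countable_toSet
          (Finset.univ.filter fun J : Finset (Fin N) => J.card ≤ m + 1))).2 fun J hJ => ?_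
        rw [pr_image_hull]
        exact volume_hull_few _ _ (by simpa using hJ)
      rw [h0, add_zero]
    · refine measure_mono ?_
      refine iUnion₂_subset fun ι _ => image_mono (convexHull_mono (range_comp_subset_range ι X))
  rw [hmeas, measure_biUnion_finset₀ (fun ι hι κ hκ hne => ?_) (fun ι _ => ?_)]
  · exact Finset.sum_congr rfl fun ι _ => volume_pr (X ∘ ι) k
  · exact lower_disjoint X hX k ι κ ((hS ι).1 hι).1 ((hS κ).1 hκ).1 hne ((hS ι).1 hι).2
      ((hS κ).1 hκ).2
  · refine MeasurableSet.nullMeasurableSet (IsClosed.measurableSet (IsCompact.isClosed ?_))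
    exact ((finite_range (X ∘ ι)).isCompact_convexHull ℝ).image (continuous_pr k)

/-- reflection of the coordinate `k` -/
def refl {m N : ℕ} (k : Fin (m + 2)) (X : Fin N → P m) : Fin N → P m :=
  fun i l => (if l = k then -1 else 1) * X i l

theorem prod_d {m : ℕ} (k : Fin (m + 2)) : (∏ l : Fin (m + 2), if l = k then (-1 : ℝ) else 1) = -1 := by
  rw [Finset.prod_ite_eq' Finset.univ k (fun _ => (-1 : ℝ))]
  simp

theorem F_refl {m N : ℕ} (k : Fin (m + 2)) (X : Fin N → P m) (ι : Fin (m + 2) → Fin N)
    (p : Fin N) : F (refl k X ∘ ι) (refl k X p) = - F (X ∘ ι) (X p) := by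
  have := F_diag (X ∘ ι) (fun l => if l = k then (-1 : ℝ) else 1) (X p)
  rw [prod_d, neg_one_mul] at this
  exact this

theorem cf_refl {m N : ℕ} (k : Fin (m + 2)) (X : Fin N → P m) (ι : Fin (m + 2) → Fin N)
    (l : Fin (m + 2)) : cf (refl k X ∘ ι) l = (if l = k then 1 else -1) * cf (X ∘ ι) l := by
  have := cf_diag (X ∘ ι) (fun l => if l = k then (-1 : ℝ) else 1) l
  have h2 : (∏ j ∈ Finset.univ.erase l, if j = k then (-1 : ℝ) else 1) =
      if l = k then 1 else -1 := by
    by_cases h : l = k
    · subst h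
      rw [if_pos rfl]
      refine Finset.prod_eq_one fun j hj => ?_
      rw [if_neg (Finset.ne_of_mem_erase hj)]
    · rw [if_neg h, Finset.prod_ite_eq' (Finset.univ.erase l) k (fun _ => (-1 : ℝ)), if_pos]
      exact Finset.mem_erase.2 ⟨fun h' => h h'.symm, Finset.mem_univ _⟩
  rw [h2] at this
  exact this

theorem GP_refl {m N : ℕ} (k : Fin (m + 2)) (X : Fin N → P m) (hX : GP X) : GP (refl k X) := by
  refine ⟨fun ι hι p hp => ?_, fun ι hι => ⟨fun l => ?_, fun l l' hl => ?_⟩⟩
  · rw [F_refl]
    exact neg_ne_zero.2 (hX.1 ι hι p hp)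
  · rw [cf_refl]
    refine mul_ne_zero ?_ ((hX.2 ι hι).1 l)
    split_ifs <;> norm_num
  · have habs : ∀ j, |cf (refl k X ∘ ι) j| = |cf (X ∘ ι) j| := by
      intro j
      rw [cf_refl, abs_mul]
      split_ifs <;> simp
    rw [habs, habs]
    exact (hX.2 ι hι).2 l l' hl

theorem pr_refl {m N : ℕ} (k : Fin (m + 2)) (X : Fin N → P m) :
    pr k '' convexHull ℝ (range (refl k X)) = pr k '' convexHull ℝ (range X) := by
  rw [← image_univ, ← image_univ, pr_image_hull, pr_image_hull]
  congr 2
  ext i l
  simp [pr, refl, Fin.succAbove_ne]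

open Classical in
/-- volume of the projection as a sum over upper facets -/
theorem volume_upper {m N : ℕ} (hN : m + 3 ≤ N) (X : Fin N → P m) (hX : GP X) (k : Fin (m + 2)) :
    volume (pr k '' convexHull ℝ (range X)) =
      ∑ ι ∈ Finset.univ.filter (fun ι : Fin (m + 2) → Fin N => StrictMono ι ∧
        ∀ p ∉ range ι, F (X ∘ ι) (X p) * cf (X ∘ ι) k < 0),
        ENNReal.ofReal (|cf (X ∘ ι) k| / (m + 1).factorial) := by
  have h := volume_lower hN (refl k X) (GP_refl k X hX) k
  rw [pr_refl] at h
  rw [h]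
  have hcf : ∀ ι : Fin (m + 2) → Fin N, cf (refl k X ∘ ι) k = cf (X ∘ ι) k := by
    intro ι
    rw [cf_refl, if_pos rfl, one_mul]
  refine Finset.sum_congr ?_ fun ι _ => by rw [hcf]
  ext ι
  simp only [Finset.mem_filter, Finset.mem_univ, true_and, hcf, F_refl, neg_mul,
    Left.neg_pos_iff]

end SurfHull

open SurfHull in
open Classical in
theorem proj_hull {m N : ℕ} (hN : m + 3 ≤ N) (X : Fin N → P m) (hX : GP X) (k : Fin (m + 2)) :
    2 * (volume (pr k '' convexHull ℝ (range X))).toReal =
      ∑ ι ∈ Finset.univ.filter (fun ι : Fin (m + 2) → Fin N => StrictMono ι),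
        if facet X ι then |cf (X ∘ ι) k| / (m + 1).factorial else 0 := by
  have hnn : ∀ ι : Fin (m + 2) → Fin N, 0 ≤ |cf (X ∘ ι) k| / ((m + 1).factorial : ℝ) :=
    fun ι => div_nonneg (abs_nonneg _) (Nat.cast_nonneg _)
  have hL : (volume (pr k '' convexHull ℝ (range X))).toReal =
      ∑ ι ∈ Finset.univ.filter (fun ι : Fin (m + 2) → Fin N => StrictMono ι),
        if (∀ p ∉ range ι, 0 < F (X ∘ ι) (X p) * cf (X ∘ ι) k) then
          |cf (X ∘ ι) k| / (m + 1).factorial else 0 := by
    rw [volume_lower hN X hX k, ENNReal.toReal_sum (fun ι _ => ENNReal.ofReal_ne_top),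
      ← Finset.sum_filter, Finset.filter_filter]
    exact Finset.sum_congr rfl fun ι _ => ENNReal.toReal_ofReal (hnn ι)
  have hU : (volume (pr k '' convexHull ℝ (range X))).toReal =
      ∑ ι ∈ Finset.univ.filter (fun ι : Fin (m + 2) → Fin N => StrictMono ι),
        if (∀ p ∉ range ι, F (X ∘ ι) (X p) * cf (X ∘ ι) k < 0) then
          |cf (X ∘ ι) k| / (m + 1).factorial else 0 := by
    rw [volume_upper hN X hX k, ENNReal.toReal_sum (fun ι _ => ENNReal.ofReal_ne_top),
      ← Finset.sum_filter, Finset.filter_filter]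
    exact Finset.sum_congr rfl fun ι _ => ENNReal.toReal_ofReal (hnn ι)
  rw [two_mul]
  nth_rewrite 1 [hL]
  rw [hU, ← Finset.sum_add_distrib]
  refine Finset.sum_congr rfl fun ι hι => ?_
  have hmono : StrictMono ι := (Finset.mem_filter.1 hι).2
  have hcf := (hX.2 ι hmono.injective).1 k
  obtain ⟨p, hp⟩ : ∃ p, p ∉ range ι := by
    by_contra hall
    push Not at hall
    have hsurj : Function.Surjective ι := hall
    have := Fintype.card_le_of_surjective ι hsurj
    simp at this
    omega
  have e1 : facet X ι ↔ (∀ p ∉ range ι, 0 < F (X ∘ ι) (X p) * cf (X ∘ ι) k) ∨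
      (∀ p ∉ range ι, F (X ∘ ι) (X p) * cf (X ∘ ι) k < 0) := by
    rcases lt_or_gt_of_ne hcf with hc | hc
    · constructor
      · rintro (h | h)
        · exact Or.inr fun q hq => mul_neg_of_pos_of_neg (h q hq) hc
        · exact Or.inl fun q hq => mul_pos_of_neg_of_neg (h q hq) hc
      · rintro (h | h)
        · refine Or.inr fun q hq => ?_
          have := h q hq
          by_contra h'
          push Not at h'
          exact absurd this (not_lt.2 (mul_nonpos_of_nonneg_of_nonpos h' hc.le))
        · refine Or.inl fun q hq => ?_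
          have := h q hq
          by_contra h'
          push Not at h'
          exact absurd this (not_lt.2 (mul_nonneg_of_nonpos_of_nonpos h' hc.le))
    · constructor
      · rintro (h | h)
        · exact Or.inl fun q hq => mul_pos (h q hq) hc
        · exact Or.inr fun q hq => mul_neg_of_neg_of_pos (h q hq) hc
      · rintro (h | h)
        · refine Or.inl fun q hq => ?_
          have := h q hq
          by_contra h'
          push Not at h'
          exact absurd this (not_lt.2 (mul_nonpos_of_nonpos_of_nonneg h' hc.le))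
        · refine Or.inr fun q hq => ?_
          have := h q hq
          by_contra h'
          push Not at h'
          exact absurd this (not_lt.2 (mul_nonneg h' hc.le))
  by_cases hlow : ∀ p ∉ range ι, 0 < F (X ∘ ι) (X p) * cf (X ∘ ι) k
  · have hup : ¬ ∀ p ∉ range ι, F (X ∘ ι) (X p) * cf (X ∘ ι) k < 0 := by
      intro h
      have h1 := hlow p hp
      have h2 := h p hp
      linarith
    rw [if_pos hlow, if_neg hup, if_pos (e1.2 (Or.inl hlow)), add_zero]
  · by_cases hup : ∀ p ∉ range ι, F (X ∘ ι) (X p) * cf (X ∘ ι) k < 0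
    · rw [if_neg hlow, if_pos hup, if_pos (e1.2 (Or.inr hup)), zero_add]
    · rw [if_neg hlow, if_neg hup, if_neg (fun h => (e1.1 h).elim hlow hup), add_zero]

end Pool.Agent.B05
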