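import Pool.Agent.Lib.MP_b05ae9_pr.HullAux
import Pool.Agent.Lib.MP_b05ae9_pr.Vol

/-! # MP_b05ae9_pr, task D1: surface area of the hull of points in general position -/

set_option autoImplicit false

open MeasureTheory Set Filter Topology
open scoped ENNReal MeasureTheory

namespace Pool.Agent.B05

namespace SurfHull

theorem area_facet {m N : ℕ} (X : Fin N → P m) (hX : GP X) (ι : Fin (m + 2) → Fin N)
    (hι : StrictMono ι) :
    (μHE[m + 1] : Measure (EuclideanSpace ℝ (Fin (m + 2))))
      ((WithLp.toLp 2 : P m → EuclideanSpace ℝ (Fin (m + 2))) ''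
        convexHull ℝ (range (X ∘ ι))) = ENNReal.ofReal (nrm (X ∘ ι) / (m + 1).factorial) := by
  have hcf := (hX.2 ι hι.injective).1 0
  rw [area_formula (X ∘ ι) 0 hcf _ (fun q hq => ?_), volume_pr, ← ENNReal.ofReal_mul]
  · congr 1
    have : |cf (X ∘ ι) 0| ≠ 0 := abs_ne_zero.2 hcf
    field_simp
  · exact div_nonneg (Real.sqrt_nonneg _) (abs_nonneg _)
  · refine F_zero_of_mem X ι (Finset.univ.image ι) subset_rfl q ?_
    rw [image_range]
    exact hq

end SurfHull

open SurfHull in
open Classical in
theorem surf_hull {m N : ℕ} (hN : m + 3 ≤ N) (X : Fin N → P m) (hX : GP X) :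
    surf (convexHull ℝ (range X)) =
      ∑ ι ∈ Finset.univ.filter (fun ι : Fin (m + 2) → Fin N => StrictMono ι),
        if facet X ι then nrm (X ∘ ι) / (m + 1).factorial else 0 := by
  set μ : Measure (EuclideanSpace ℝ (Fin (m + 2))) := μHE[m + 1] with hμ
  let T : P m → EuclideanSpace ℝ (Fin (m + 2)) := WithLp.toLp 2
  let S : Finset (Fin (m + 2) → Fin N) := (Finset.univ.filter fun ι => StrictMono ι).filter
    fun ι => facet X ι
  have hS : ∀ ι, ι ∈ S ↔ StrictMono ι ∧ facet X ι := by
    intro ι
    simp [S]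
  have hTinj : Function.Injective T := WithLp.toLp_injective 2
  have hTcont : Continuous T := PiLp.continuous_toLp 2 _
  let Thom : P m ≃ₜ EuclideanSpace ℝ (Fin (m + 2)) := (PiLp.homeomorph 2 _).symm
  have hThom : ∀ A : Set (P m), Thom '' A = T '' A := fun A => rfl
  have hfront : frontier (T '' convexHull ℝ (range X)) = T '' frontier (convexHull ℝ (range X)) := by
    rw [← hThom, ← hThom, Thom.image_frontier]
  have hmeas : μ (T '' frontier (convexHull ℝ (range X))) =
      μ (⋃ ι ∈ S, T '' convexHull ℝ (range (X ∘ ι))) := by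
    apply le_antisymm
    · have hsub : T '' frontier (convexHull ℝ (range X)) ⊆
          (⋃ ι ∈ S, T '' convexHull ℝ (range (X ∘ ι))) ∪
            ⋃ J ∈ (Finset.univ.filter fun J : Finset (Fin N) => J.card ≤ m + 1),
              T '' convexHull ℝ (X '' (J : Set (Fin N))) := by
        rintro _ ⟨x, hx, rfl⟩
        rcases frontier_sub hN X hX x hx with ⟨ι, h1, h2, h3⟩ | ⟨J, h1, h2⟩
        · left
          exact mem_biUnion ((hS ι).2 ⟨h1, h2⟩) ⟨x, h3, rfl⟩
        · right
          exact mem_biUnion (x := J) (by simpa using h1) ⟨x, h2, rfl⟩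
      refine (measure_mono hsub).trans ((measure_union_le _ _).trans ?_)
      have h0 : μ (⋃ J ∈ (Finset.univ.filter fun J : Finset (Fin N) => J.card ≤ m + 1),
          T '' convexHull ℝ (X '' (J : Set (Fin N)))) = 0 := by
        refine (measure_biUnion_null_iff (Finset.countable_toSet
          (Finset.univ.filter fun J : Finset (Fin N) => J.card ≤ m + 1))).2 fun J hJ => ?_
        exact area_hull_few (by omega) X hX J (by simpa using hJ)
      rw [h0, add_zero]
    · refine measure_mono ?_
      refine iUnion₂_subset fun ι hι => image_mono ?_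
      exact facet_sub X hX ι ((hS ι).1 hι).1 ((hS ι).1 hι).2
  have hunion : μ (⋃ ι ∈ S, T '' convexHull ℝ (range (X ∘ ι))) =
      ∑ ι ∈ S, μ (T '' convexHull ℝ (range (X ∘ ι))) := by
    refine measure_biUnion_finset₀ (fun ι hι κ hκ hne => ?_) (fun ι _ => ?_)
    · have := facet_inter (by omega) X hX ι κ ((hS ι).1 hι).1 ((hS κ).1 hκ).1 hne ((hS ι).1 hι).2
      change μ (_ ∩ _) = 0
      rw [← image_inter hTinj]
      exact this
    · refine MeasurableSet.nullMeasurableSet ?_
      refine IsClosed.measurableSet (IsCompact.isClosed ?_)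
      exact ((finite_range (X ∘ ι)).isCompact_convexHull ℝ).image hTcont
  have hsurf : surf (convexHull ℝ (range X)) =
      (μ (frontier (T '' convexHull ℝ (range X)))).toReal := rfl
  rw [hsurf, hfront, hmeas, hunion, ← Finset.sum_filter, ENNReal.toReal_sum]
  · refine Finset.sum_congr rfl fun ι hι => ?_
    rw [area_facet X hX ι ((hS ι).1 hι).1, ENNReal.toReal_ofReal]
    exact div_nonneg (Real.sqrt_nonneg _) (Nat.cast_nonneg _)
  · intro ι hι
    rw [area_facet X hX ι ((hS ι).1 hι).1]
    exact ENNReal.ofReal_ne_top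

end Pool.Agent.B05
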