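import Pool.Agent.Lib.MP_b05ae9_pr.DeficitCore
import Pool.Agent.Lib.MP_b05ae9_pr.SurfHull
import Pool.Agent.Lib.MP_b05ae9_pr.ProjHull

set_option autoImplicit false

open MeasureTheory Set Filter Topology
open scoped ENNReal MeasureTheory

namespace Pool.Agent.B05

theorem deficit (m N : ℕ) (hN : m + 3 ≤ N) (X : Fin N → P m) (hX : GP X)
    (hc : ∀ k, X k ∈ cube (m + 2)) (ρ : ℝ) :
    2 * (m + 2) - surf (convexHull ℝ (range X)) =
      (∑ k : Fin (m + 2), 2 * (1 - (volume (pr k '' convexHull ℝ (range X))).toReal)) +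
      ∑ e : Edge m, (DG e ρ X + DB e ρ X) :=
  DefAux.deficit_of hN X hX hc ρ (surf_hull hN X hX) (fun k => proj_hull hN X hX k)

end Pool.Agent.B05
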