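import Pool.Agent.Lib.MP_b05ae9_pr.Defs

/-!
# Task F, combinatorial core: every facet belongs to exactly one face of codimension two
-/

set_option autoImplicit false

open MeasureTheory Set Filter Topology
open scoped ENNReal MeasureTheory

namespace Pool.Agent.B05

namespace DefAux

lemma sg_pos_iff (b : Bool) (x : ℝ) (hx : x ≠ 0) : 0 < sg b * x ↔ (b = decide (0 < x)) := by
  rcases lt_or_gt_of_ne hx with h | h
  · cases b
    · simp [sg, h, not_lt.2 h.le]
    · simp [sg, not_lt.2 h.le]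
  · cases b
    · simp [sg, h, h.le]
    · simp [sg, h]

/-- the two largest entries -/
lemma exists_top {m : ℕ} (c : Fin (m + 2) → ℝ) (habs : ∀ k l, k ≠ l → |c k| ≠ |c l|) :
    ∃ i j : Fin (m + 2), i < j ∧ ∀ l, l ≠ i → l ≠ j → |c l| < |c i| ∧ |c l| < |c j| := by
  classical
  obtain ⟨i, -, hi⟩ := Finset.exists_max_image (Finset.univ : Finset (Fin (m + 2))) (fun k => |c k|)
    Finset.univ_nonempty
  have hne : (Finset.univ.erase i : Finset (Fin (m + 2))).Nonempty := by
    rw [← Finset.card_pos, Finset.card_erase_of_mem (Finset.mem_univ i)]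
    simp
  obtain ⟨j, hj, hj'⟩ := Finset.exists_max_image (Finset.univ.erase i) (fun k => |c k|) hne
  have hji : j ≠ i := Finset.ne_of_mem_erase hj
  have h1 : ∀ l, l ≠ i → l ≠ j → |c l| < |c i| ∧ |c l| < |c j| := by
    intro l hli hlj
    exact ⟨lt_of_le_of_ne (hi l (Finset.mem_univ l)) (habs l i hli),
      lt_of_le_of_ne (hj' l (Finset.mem_erase.2 ⟨hli, Finset.mem_univ l⟩)) (habs l j hlj)⟩
  rcases lt_or_gt_of_ne hji with h | h
  · exact ⟨j, i, h, fun l hl hl' => ⟨(h1 l hl' hl).2, (h1 l hl' hl).1⟩⟩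
  · exact ⟨i, j, h, h1⟩

lemma top_unique {m : ℕ} (c : Fin (m + 2) → ℝ) {i j i' j' : Fin (m + 2)} (hij : i < j)
    (hij' : i' < j') (h : ∀ l, l ≠ i → l ≠ j → |c l| < |c i| ∧ |c l| < |c j|)
    (h' : ∀ l, l ≠ i' → l ≠ j' → |c l| < |c i'| ∧ |c l| < |c j'|) : i = i' ∧ j = j' := by
  -- if `i` is not among `i', j'`, one of `i', j'` is not among `i, j`
  have key : ∀ {a b a' b' : Fin (m + 2)}, a ≠ b → a' ≠ b' →
      (∀ l, l ≠ a → l ≠ b → |c l| < |c a| ∧ |c l| < |c b|) →
      (∀ l, l ≠ a' → l ≠ b' → |c l| < |c a'| ∧ |c l| < |c b'|) → a = a' ∨ a = b' := by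
    intro a b a' b' hab hab' H H'
    by_contra hcon
    push Not at hcon
    have h1 := H' a hcon.1 hcon.2
    by_cases hb : a' = b
    · -- then `b' ≠ a, b`
      have hb' : b' ≠ b := fun h => hab' (hb.trans h.symm)
      have h2 := H b' hcon.2.symm hb'
      exact absurd h1.2 (not_lt.2 h2.1.le)
    · have h2 := H a' hcon.1.symm hb
      exact absurd h1.1 (not_lt.2 h2.1.le)
  have k1 : i = i' ∨ i = j' := key hij.ne hij'.ne h h'
  have k2 : j = i' ∨ j = j' := key hij.ne' hij'.ne (fun l hl hl' => ⟨(h l hl' hl).2, (h l hl' hl).1⟩) h'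
  rcases k1 with rfl | rfl
  · rcases k2 with rfl | rfl
    · exact absurd hij (lt_irrefl _)
    · exact ⟨rfl, rfl⟩
  · rcases k2 with rfl | rfl
    · exact absurd (hij.trans hij') (lt_irrefl _)
    · exact absurd hij (lt_irrefl _)

lemma exists_edge {m : ℕ} (c : Fin (m + 2) → ℝ) (hne : ∀ k, c k ≠ 0)
    (habs : ∀ k l, k ≠ l → |c k| ≠ |c l|) (τ : ℝ) (hτ : τ ≠ 0) :
    ∃ e₁ : Edge m, ∀ e : Edge m, ((0 < sg e.1.2.1 * sg e.1.2.2 * (c e.1.1.1 * c e.1.1.2) ∧
      ∀ l, l ≠ e.1.1.1 → l ≠ e.1.1.2 → |c l| < |c e.1.1.1| ∧ |c l| < |c e.1.1.2|) ∧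
      0 < sg e.1.2.1 * (τ * c e.1.1.1)) ↔ e = e₁ := by
  obtain ⟨i, j, hij, htop⟩ := exists_top c habs
  have hsg : ∀ b, sg b ≠ 0 := by intro b; cases b <;> simp [sg]
  refine ⟨⟨((i, j), decide (0 < τ * c i), decide (0 < sg (decide (0 < τ * c i)) * (c i * c j))), hij⟩, ?_⟩
  rintro ⟨⟨⟨i', j'⟩, a, b⟩, hij'⟩
  have hij'' : i' < j' := hij'
  simp only
  constructor
  · rintro ⟨⟨h1, h2⟩, h3⟩
    obtain ⟨rfl, rfl⟩ := top_unique c hij hij'' htop h2
    have ha : a = decide (0 < τ * c i) := (sg_pos_iff _ _ (mul_ne_zero hτ (hne i))).1 h3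
    have hb : b = decide (0 < sg a * (c i * c j)) := by
      refine (sg_pos_iff _ _ (mul_ne_zero (hsg a) (mul_ne_zero (hne i) (hne j)))).1 ?_
      calc (0 : ℝ) < sg a * sg b * (c i * c j) := h1
        _ = sg b * (sg a * (c i * c j)) := by ring
    rw [← ha]
    apply Subtype.ext
    simp only [Prod.mk.injEq, true_and]
    exact hb
  · intro h
    have h' := congrArg Subtype.val h
    simp only [Prod.mk.injEq] at h'
    obtain ⟨⟨rfl, rfl⟩, ha, hb⟩ := h'
    have h3 : 0 < sg a * (τ * c i') := (sg_pos_iff _ _ (mul_ne_zero hτ (hne i'))).2 ha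
    refine ⟨⟨?_, htop⟩, h3⟩
    rw [← ha] at hb
    have := (sg_pos_iff b _ (mul_ne_zero (hsg a) (mul_ne_zero (hne i') (hne j')))).2 hb
    calc (0 : ℝ) < sg b * (sg a * (c i' * c j')) := this
      _ = _ := by ring

open Classical in
/-- number of faces of codimension two to which a tuple belongs -/
lemma card_edges {m N : ℕ} (hN : m + 3 ≤ N) (X : Fin N → P m) (hX : GP X)
    (hc : ∀ k, X k ∈ cube (m + 2)) (ι : Fin (m + 2) → Fin N) (hι : Function.Injective ι) :
    (∑ e : Edge m, if (∀ k ∉ range ι, X k ∉ U e (X ∘ ι)) then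
        (if Dom e (X ∘ ι) then phi (X ∘ ι) else 0) else 0) =
      if facet X ι then phi (X ∘ ι) else 0 := by
  obtain ⟨hX1, hX2⟩ := hX
  have hF : ∀ k ∉ range ι, F (X ∘ ι) (X k) ≠ 0 := hX1 ι hι
  obtain ⟨hne, habs⟩ := hX2 ι hι
  have hU : ∀ e : Edge m, (∀ k ∉ range ι, X k ∉ U e (X ∘ ι)) ↔
      ∀ k ∉ range ι, ¬ 0 < sg e.1.2.1 * (F (X ∘ ι) (X k) * cf (X ∘ ι) e.1.1.1) := by
    intro e
    refine forall₂_congr fun k _ => ?_
    simp only [U, mem_ofPred_eq, not_and, not_lt]
    exact ⟨fun h => h (hc k), fun h _ => h⟩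
  have hk0 : ∃ k, k ∉ range ι := by
    by_contra hcon
    push Not at hcon
    have h1 : Fintype.card (Fin N) ≤ Fintype.card (Fin (m + 2)) :=
      Fintype.card_le_of_surjective ι hcon
    simp only [Fintype.card_fin] at h1
    omega
  have hsg : ∀ b, sg b ≠ 0 := by intro b; cases b <;> simp [sg]
  -- the sign case
  have main : ∀ τ : ℝ, τ ≠ 0 → (∀ k ∉ range ι, τ * F (X ∘ ι) (X k) < 0) →
      (∑ e : Edge m, if (∀ k ∉ range ι, X k ∉ U e (X ∘ ι)) then
        (if Dom e (X ∘ ι) then phi (X ∘ ι) else 0) else 0) = phi (X ∘ ι) := by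
    intro τ hτ hs
    obtain ⟨e₁, he₁⟩ := exists_edge (fun k => cf (X ∘ ι) k) hne habs τ hτ
    have h1 : ∀ e : Edge m, (if (∀ k ∉ range ι, X k ∉ U e (X ∘ ι)) then
        (if Dom e (X ∘ ι) then phi (X ∘ ι) else 0) else 0) = if e = e₁ then phi (X ∘ ι) else 0 := by
      intro e
      have h2 : (∀ k ∉ range ι, X k ∉ U e (X ∘ ι)) ↔
          0 < sg e.1.2.1 * (τ * cf (X ∘ ι) e.1.1.1) := by
        rw [hU]
        have h4 : ∀ k ∉ range ι, (¬ 0 < sg e.1.2.1 * (F (X ∘ ι) (X k) * cf (X ∘ ι) e.1.1.1)) ↔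
            0 < sg e.1.2.1 * (τ * cf (X ∘ ι) e.1.1.1) := by
          intro k hk
          have h5 : sg e.1.2.1 * (F (X ∘ ι) (X k) * cf (X ∘ ι) e.1.1.1) *
              (sg e.1.2.1 * (τ * cf (X ∘ ι) e.1.1.1)) < 0 := by
            have h6 : 0 < (sg e.1.2.1 * cf (X ∘ ι) e.1.1.1) ^ 2 :=
              (sq_pos_iff (a := sg e.1.2.1 * cf (X ∘ ι) e.1.1.1)).2 (mul_ne_zero (hsg _) (hne _))
            calc _ = (sg e.1.2.1 * cf (X ∘ ι) e.1.1.1) ^ 2 * (τ * F (X ∘ ι) (X k)) := by ring
              _ < 0 := mul_neg_of_pos_of_neg h6 (hs k hk)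
          constructor
          · intro h7
            by_contra h8
            push Not at h7 h8
            have := mul_nonneg_of_nonpos_of_nonpos h7 h8
            linarith
          · intro h7 h8
            have := mul_pos h8 h7
            linarith
        constructor
        · intro h
          obtain ⟨k, hk⟩ := hk0
          exact (h4 k hk).1 (h k hk)
        · intro h k hk
          exact (h4 k hk).2 h
      by_cases he : e = e₁
      · obtain ⟨h3, h4⟩ := (he₁ e).2 he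
        rw [if_pos (h2.2 h4), if_pos he]
        exact if_pos h3
      · rw [if_neg he]
        by_cases h5 : (∀ k ∉ range ι, X k ∉ U e (X ∘ ι))
        · rw [if_pos h5, if_neg]
          intro h6
          exact he ((he₁ e).1 ⟨h6, h2.1 h5⟩)
        · rw [if_neg h5]
    rw [Finset.sum_congr rfl fun e _ => h1 e, Finset.sum_ite_eq' Finset.univ e₁,
      if_pos (Finset.mem_univ _)]
  by_cases hf : facet X ι
  · rw [if_pos hf]
    rcases hf with hf | hf
    · exact main (-1) (by norm_num) fun k hk => by have := hf k hk; linarith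
    · exact main 1 one_ne_zero fun k hk => by have := hf k hk; linarith
  · rw [if_neg hf]
    refine Finset.sum_eq_zero fun e _ => ?_
    rw [if_neg]
    intro h
    rw [hU] at h
    apply hf
    have hz : sg e.1.2.1 * cf (X ∘ ι) e.1.1.1 ≠ 0 := mul_ne_zero (hsg _) (hne _)
    rcases lt_or_gt_of_ne hz with h1 | h1
    · left
      intro k hk
      have h2 := h k hk
      have h3 := hF k hk
      by_contra h4
      push Not at h4
      have h5 : F (X ∘ ι) (X k) < 0 := lt_of_le_of_ne h4 h3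
      apply h2
      calc (0 : ℝ) < (sg e.1.2.1 * cf (X ∘ ι) e.1.1.1) * F (X ∘ ι) (X k) := mul_pos_of_neg_of_neg h1 h5
        _ = _ := by ring
    · right
      intro k hk
      have h2 := h k hk
      have h3 := hF k hk
      by_contra h4
      push Not at h4
      have h5 : 0 < F (X ∘ ι) (X k) := lt_of_le_of_ne h4 h3.symm
      apply h2
      calc (0 : ℝ) < (sg e.1.2.1 * cf (X ∘ ι) e.1.1.1) * F (X ∘ ι) (X k) := mul_pos h1 h5
        _ = _ := by ring

open Classical in
lemma sum_edges {m N : ℕ} (hN : m + 3 ≤ N) (X : Fin N → P m) (hX : GP X)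
    (hc : ∀ k, X k ∈ cube (m + 2)) (ρ : ℝ) :
    ∑ e : Edge m, (DG e ρ X + DB e ρ X) =
      ∑ ι ∈ Finset.univ.filter (fun ι : Fin (m + 2) → Fin N => StrictMono ι),
        if facet X ι then phi (X ∘ ι) else 0 := by
  have h1 : ∀ e : Edge m, DG e ρ X + DB e ρ X =
      ∑ ι ∈ Finset.univ.filter (fun ι : Fin (m + 2) → Fin N => StrictMono ι),
        if (∀ k ∉ range ι, X k ∉ U e (X ∘ ι)) then
          (if Dom e (X ∘ ι) then phi (X ∘ ι) else 0) else 0 := by
    intro e
    rw [DG, DB, Sm, Sm, ← Finset.sum_add_distrib]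
    refine Finset.sum_congr rfl fun ι _ => ?_
    by_cases h : ∀ k ∉ range ι, X k ∉ U e (X ∘ ι)
    · rw [if_pos h, if_pos h, if_pos h, gG, gB]
      by_cases hD : Dom e (X ∘ ι)
      · by_cases hw : U e (X ∘ ι) ⊆ win e ρ
        · rw [if_pos ⟨hD, hw⟩, if_neg (fun h' => h'.2 hw), if_pos hD, add_zero]
        · rw [if_neg (fun h' => hw h'.2), if_pos ⟨hD, hw⟩, if_pos hD, zero_add]
      · rw [if_neg (fun h' => hD h'.1), if_neg (fun h' => hD h'.1), if_neg hD, add_zero]
    · rw [if_neg h, if_neg h, if_neg h, add_zero]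
  rw [Finset.sum_congr rfl fun e _ => h1 e, Finset.sum_comm]
  refine Finset.sum_congr rfl fun ι hι => ?_
  rw [Finset.mem_filter] at hι
  exact card_edges hN X hX hc ι hι.2.injective

open Classical in
/-- `deficit` from `surf_hull` and `proj_hull` -/
lemma deficit_of {m N : ℕ} (hN : m + 3 ≤ N) (X : Fin N → P m) (hX : GP X)
    (hc : ∀ k, X k ∈ cube (m + 2)) (ρ : ℝ)
    (hsurf : surf (convexHull ℝ (range X)) =
      ∑ ι ∈ Finset.univ.filter (fun ι : Fin (m + 2) → Fin N => StrictMono ι),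
        if facet X ι then nrm (X ∘ ι) / (m + 1).factorial else 0)
    (hproj : ∀ k : Fin (m + 2), 2 * (volume (pr k '' convexHull ℝ (range X))).toReal =
      ∑ ι ∈ Finset.univ.filter (fun ι : Fin (m + 2) → Fin N => StrictMono ι),
        if facet X ι then |cf (X ∘ ι) k| / (m + 1).factorial else 0) :
    2 * (m + 2) - surf (convexHull ℝ (range X)) =
      (∑ k : Fin (m + 2), 2 * (1 - (volume (pr k '' convexHull ℝ (range X))).toReal)) +
      ∑ e : Edge m, (DG e ρ X + DB e ρ X) := by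
  rw [sum_edges hN X hX hc ρ, hsurf]
  have h1 : (∑ k : Fin (m + 2), 2 * (1 - (volume (pr k '' convexHull ℝ (range X))).toReal)) =
      2 * (m + 2) - ∑ ι ∈ Finset.univ.filter (fun ι : Fin (m + 2) → Fin N => StrictMono ι),
        if facet X ι then (∑ k, |cf (X ∘ ι) k|) / (m + 1).factorial else 0 := by
    have h2 : ∀ k : Fin (m + 2), 2 * (1 - (volume (pr k '' convexHull ℝ (range X))).toReal) =
        2 - ∑ ι ∈ Finset.univ.filter (fun ι : Fin (m + 2) → Fin N => StrictMono ι),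
          if facet X ι then |cf (X ∘ ι) k| / (m + 1).factorial else 0 := by
      intro k
      rw [← hproj k]; ring
    rw [Finset.sum_congr rfl fun k _ => h2 k, Finset.sum_sub_distrib, Finset.sum_comm]
    congr 1
    · simp [mul_comm]
    · refine Finset.sum_congr rfl fun ι _ => ?_
      by_cases hf : facet X ι
      · simp only [if_pos hf]
        rw [Finset.sum_div]
      · simp [if_neg hf]
  rw [h1]
  have h4 : (∑ ι ∈ Finset.univ.filter (fun ι : Fin (m + 2) → Fin N => StrictMono ι),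
      if facet X ι then (∑ k, |cf (X ∘ ι) k|) / (m + 1).factorial else 0) -
      (∑ ι ∈ Finset.univ.filter (fun ι : Fin (m + 2) → Fin N => StrictMono ι),
        if facet X ι then nrm (X ∘ ι) / (m + 1).factorial else 0) =
      ∑ ι ∈ Finset.univ.filter (fun ι : Fin (m + 2) → Fin N => StrictMono ι),
        if facet X ι then phi (X ∘ ι) else 0 := by
    rw [← Finset.sum_sub_distrib]
    refine Finset.sum_congr rfl fun ι _ => ?_
    by_cases hf : facet X ι
    · simp only [if_pos hf, phi]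
      ring
    · simp [if_neg hf]
  linarith

end DefAux

end Pool.Agent.B05
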