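import Mathlib

/-!
# MP_b05ae9_pr: surface area of random convex hulls in the cube: definitions

Dimension `n = m + 2`. Points are elements of `Fin (m + 2) → ℝ`.
-/

set_option autoImplicit false

open MeasureTheory Set Filter Topology
open scoped ENNReal MeasureTheory

namespace Pool.Agent.B05

/-- Points of `ℝⁿ`, `n = m + 2`. -/
abbrev P (m : ℕ) := Fin (m + 2) → ℝ

/-- The unit cube of `ℝ^d`. -/
def cube (d : ℕ) : Set (Fin d → ℝ) := Icc 0 1

/-- The uniform law on the cube of `ℝ^d`. -/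
noncomputable def unif (d : ℕ) : Measure (Fin d → ℝ) := volume.restrict (cube d)

/-- The law of `N` independent uniform points of the cube. -/
noncomputable def law (m N : ℕ) : Measure (Fin N → P m) := Measure.pi fun _ => unif (m + 2)

/-- The affine function of `q` that vanishes on the hyperplane through the `n` points of `I`. -/
def F {m : ℕ} (I : Fin (m + 2) → P m) (q : P m) : ℝ :=
  Matrix.det (Matrix.of fun i j : Fin (m + 3) =>
    (Fin.cons (1 : ℝ) ((Fin.cons q I : Fin (m + 3) → P m) i) : Fin (m + 3) → ℝ) j)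

/-- Dropping the coordinate `k`. -/
def pr {m : ℕ} (k : Fin (m + 2)) (p : P m) : Fin (m + 1) → ℝ := fun l => p (k.succAbove l)

/-- The coefficient of `q k` in `F I q`. -/
def cf {m : ℕ} (I : Fin (m + 2) → P m) (k : Fin (m + 2)) : ℝ :=
  (-1) ^ ((k : ℕ) + 1) * Matrix.det (Matrix.of fun i j : Fin (m + 2) =>
    (Fin.cons (1 : ℝ) (pr k (I i)) : Fin (m + 2) → ℝ) j)

/-- Euclidean norm of the vector of coefficients; `nrm I / (m+1)!` is the area of the simplex
with vertices `I`. -/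
noncomputable def nrm {m : ℕ} (I : Fin (m + 2) → P m) : ℝ := √(∑ k, cf I k ^ 2)

/-- Sum of the areas of the coordinate projections of the simplex minus its area. -/
noncomputable def phi {m : ℕ} (I : Fin (m + 2) → P m) : ℝ :=
  ((∑ k, |cf I k|) - nrm I) / (m + 1).factorial

/-- Surface area: the `(n-1)`-dimensional (Euclidean) Hausdorff measure of the boundary. -/
noncomputable def surf {m : ℕ} (K : Set (P m)) : ℝ :=
  ((μHE[m + 1] : Measure (EuclideanSpace ℝ (Fin (m + 2))))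
    (frontier ((WithLp.toLp 2 : P m → EuclideanSpace ℝ (Fin (m + 2))) '' K))).toReal

/-! ## Facets -/

/-- `ι` selects a facet of the convex hull of the points `X`. -/
def facet {m N : ℕ} (X : Fin N → P m) (ι : Fin (m + 2) → Fin N) : Prop :=
  (∀ k ∉ range ι, 0 < F (X ∘ ι) (X k)) ∨ (∀ k ∉ range ι, F (X ∘ ι) (X k) < 0)

/-- General position. -/
def GP {m N : ℕ} (X : Fin N → P m) : Prop :=
  (∀ ι : Fin (m + 2) → Fin N, Function.Injective ι → ∀ k ∉ range ι, F (X ∘ ι) (X k) ≠ 0) ∧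
  (∀ ι : Fin (m + 2) → Fin N, Function.Injective ι → (∀ k, cf (X ∘ ι) k ≠ 0) ∧
    ∀ k l, k ≠ l → |cf (X ∘ ι) k| ≠ |cf (X ∘ ι) l|)

open Classical in
/-- Sum of `g` over the `n`-tuples of points (in increasing order) that leave no other point
of the sample in the region `V`. -/
noncomputable def Sm {m N : ℕ} (g : (Fin (m + 2) → P m) → ℝ)
    (V : (Fin (m + 2) → P m) → Set (P m)) (X : Fin N → P m) : ℝ :=
  ∑ ι ∈ Finset.univ.filter (fun ι : Fin (m + 2) → Fin N => StrictMono ι),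
    if ∀ k ∉ range ι, X k ∉ V (X ∘ ι) then g (X ∘ ι) else 0

/-! ## The `2 n (n - 1)` faces of codimension two -/

/-- Faces of codimension two: two coordinates `i < j` and two sides (`false`: side `0`,
`true`: side `1`). -/
abbrev Edge (m : ℕ) := {e : (Fin (m + 2) × Fin (m + 2)) × Bool × Bool // e.1.1 < e.1.2}

/-- sign of the outward normal -/
def sg (b : Bool) : ℝ := if b then 1 else -1

/-- distance to the side -/
def dst (b : Bool) (t : ℝ) : ℝ := if b then 1 - t else t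

/-- The part of the cube cut off, on the side of the face `e`, by the hyperplane through `I`. -/
def U {m : ℕ} (e : Edge m) (I : Fin (m + 2) → P m) : Set (P m) :=
  {q | q ∈ cube (m + 2) ∧ 0 < sg e.1.2.1 * (F I q * cf I e.1.1.1)}

/-- Neighbourhood of the face `e`. -/
def win {m : ℕ} (e : Edge m) (ρ : ℝ) : Set (P m) :=
  {q | q ∈ cube (m + 2) ∧ dst e.1.2.1 (q e.1.1.1) ≤ ρ ∧ dst e.1.2.2 (q e.1.1.2) ≤ ρ}

/-- The hyperplane through `I` belongs to the face `e`. -/
def Dom {m : ℕ} (e : Edge m) (I : Fin (m + 2) → P m) : Prop :=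
  0 < sg e.1.2.1 * sg e.1.2.2 * (cf I e.1.1.1 * cf I e.1.1.2) ∧
  ∀ l, l ≠ e.1.1.1 → l ≠ e.1.1.2 → |cf I l| < |cf I e.1.1.1| ∧ |cf I l| < |cf I e.1.1.2|

open Classical in
/-- good part of the deficit at the face `e` -/
noncomputable def gG {m : ℕ} (e : Edge m) (ρ : ℝ) (I : Fin (m + 2) → P m) : ℝ :=
  if Dom e I ∧ U e I ⊆ win e ρ then phi I else 0

open Classical in
/-- bad part of the deficit at the face `e` -/
noncomputable def gB {m : ℕ} (e : Edge m) (ρ : ℝ) (I : Fin (m + 2) → P m) : ℝ :=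
  if Dom e I ∧ ¬ U e I ⊆ win e ρ then phi I else 0

/-- good part -/
noncomputable def DG {m N : ℕ} (e : Edge m) (ρ : ℝ) (X : Fin N → P m) : ℝ := Sm (gG e ρ) (U e) X

/-- bad part -/
noncomputable def DB {m N : ℕ} (e : Edge m) (ρ : ℝ) (X : Fin N → P m) : ℝ := Sm (gB e ρ) (U e) X

/-! ## The constants -/

/-- Quadrant times cube. -/
def W (m : ℕ) : Set (P m) :=
  {p | 0 ≤ p 0 ∧ 0 ≤ p 1 ∧ ∀ l : Fin m, 0 ≤ p l.succ.succ ∧ p l.succ.succ ≤ 1}

/-- The part of `W` cut off by the hyperplane through `I`. -/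
def cap {m : ℕ} (I : Fin (m + 2) → P m) : Set (P m) := {q | q ∈ W m ∧ F I q * cf I 0 < 0}

/-- The limit of `phi`. -/
noncomputable def psi {m : ℕ} (I : Fin (m + 2) → P m) : ℝ :=
  if 0 < cf I 0 * cf I 1 then
    (|cf I 0| + |cf I 1| - √(cf I 0 ^ 2 + cf I 1 ^ 2)) / (m + 1).factorial else 0

/-- The cap is contained in the window of size `R`. -/
def fitR {m : ℕ} (R : ℝ) : Set (Fin (m + 2) → P m) := {I | cap I ⊆ {q | q 0 ≤ R ∧ q 1 ≤ R}}

/-- the first `n` points among `n + t` -/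
def fst' {m : ℕ} (t : ℕ) (Y : Fin (m + 2 + t) → P m) : Fin (m + 2) → P m :=
  fun i => Y (Fin.castAdd t i)

/-- the last `n` points among `n + t` -/
def lst' {m : ℕ} (t : ℕ) (Y : Fin (m + 2 + t) → P m) : Fin (m + 2) → P m :=
  fun i => Y (Fin.cast (Nat.add_comm t (m + 2)) (Fin.natAdd t i))

/-- First moment, restricted to tuples in `s`. -/
noncomputable def M1 (m : ℕ) (s : Set (Fin (m + 2) → P m)) : ℝ≥0∞ :=
  (∫⁻ I in (Set.univ.pi fun _ : Fin (m + 2) => W m) ∩ s,
    ENNReal.ofReal (psi I * Real.exp (-(volume (cap I)).toReal))) / (m + 2).factorial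

/-- Pairs of tuples with `n - t` common points. -/
noncomputable def J2 (m t : ℕ) (s : Set (Fin (m + 2) → P m)) : ℝ≥0∞ :=
  ∫⁻ Y in (Set.univ.pi fun _ : Fin (m + 2 + t) => W m) ∩
      {Y | fst' t Y ∈ s ∧ lst' t Y ∈ s ∧ ∀ k, Y k ∉ cap (fst' t Y) ∪ cap (lst' t Y)},
    ENNReal.ofReal (psi (fst' t Y) * psi (lst' t Y) *
      Real.exp (-(volume (cap (fst' t Y) ∪ cap (lst' t Y))).toReal))

/-- Second moment, restricted. -/
noncomputable def M2 (m : ℕ) (s : Set (Fin (m + 2) → P m)) : ℝ≥0∞ :=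
  ∑ t ∈ Finset.range (m + 3), J2 m t s / ((m + 2 - t).factorial * (t.factorial) ^ 2)

end Pool.Agent.B05
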