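import Pool.Agent.Lib.MP_b05ae9_pr.LimB

/-!
MP_b05ae9_pr, Task L (helper96): the volumes of the caps as integrals of elementary functions.
-/

set_option autoImplicit false

open MeasureTheory Set Filter Topology
open scoped ENNReal MeasureTheory

namespace Pool.Agent.B05

namespace Expl

/-! ### Areas of (unions of) right triangles -/

/-- The right triangle with legs `p` (horizontal) and `q` (vertical). -/
def T2 (p q : ℝ) : Set (ℝ × ℝ) := {v | 0 ≤ v.1 ∧ 0 ≤ v.2 ∧ q * v.1 + p * v.2 < p * q}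

theorem measurableSet_T2 (p q : ℝ) : MeasurableSet (T2 p q) := by
  exact (measurableSet_le measurable_const measurable_fst).inter
    ((measurableSet_le measurable_const measurable_snd).inter
      (measurableSet_lt (f := fun v : ℝ × ℝ => q * v.1 + p * v.2) (g := fun _ => p * q)
        (by fun_prop) measurable_const))

theorem lin_int {a b α β : ℝ} (hab : a ≤ b) (h : ∀ x ∈ Icc a b, 0 ≤ α - β * x) :
    ∫⁻ x in Icc a b, ENNReal.ofReal (α - β * x) =
      ENNReal.ofReal (α * (b - a) - β * (b ^ 2 - a ^ 2) / 2) := by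
  rw [← ofReal_integral_eq_lintegral_ofReal]
  · congr 1
    rw [integral_Icc_eq_integral_Ioc, ← intervalIntegral.integral_of_le hab,
      intervalIntegral.integral_sub (by simp) (by
        apply Continuous.intervalIntegrable; fun_prop)]
    rw [intervalIntegral.integral_const, intervalIntegral.integral_const_mul, integral_id,
      smul_eq_mul]
    ring
  · exact (by fun_prop : Continuous fun x : ℝ => α - β * x).continuousOn.integrableOn_Icc
  · exact (ae_restrict_iff' measurableSet_Icc).2 (Filter.Eventually.of_forall h)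

/-- Area under a piecewise linear function. -/
theorem volume_eq_two {S : Set (ℝ × ℝ)} (hS : MeasurableSet S) {c d α β α' β' : ℝ}
    (hc : 0 ≤ c) (hcd : c ≤ d)
    (h1 : ∀ x ∈ Icc 0 c, {y | (x, y) ∈ S} = Ico 0 (α - β * x))
    (h2 : ∀ x ∈ Ioc c d, {y | (x, y) ∈ S} = Ico 0 (α' - β' * x))
    (h3 : ∀ x, x < 0 ∨ d < x → {y | (x, y) ∈ S} = ∅)
    (h4 : ∀ x ∈ Icc 0 c, 0 ≤ α - β * x) (h5 : ∀ x ∈ Icc c d, 0 ≤ α' - β' * x) :
    volume S = ENNReal.ofReal ((α * c - β * c ^ 2 / 2) +
      (α' * (d - c) - β' * (d ^ 2 - c ^ 2) / 2)) := by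
  have e0 : volume S = ∫⁻ x, volume {y | (x, y) ∈ S} := by
    rw [Measure.volume_eq_prod, Measure.prod_apply hS]
    rfl
  have e1 : ∫⁻ x, volume {y | (x, y) ∈ S} = ∫⁻ x in Icc 0 d, volume {y | (x, y) ∈ S} := by
    rw [← lintegral_indicator measurableSet_Icc]
    refine lintegral_congr fun x => ?_
    by_cases hx : x ∈ Icc 0 d
    · rw [indicator_of_mem hx]
    · rw [indicator_of_notMem hx, h3 x, measure_empty]
      simp only [mem_Icc, not_and_or, not_le] at hx
      exact hx
  have e2 : Icc 0 d = Icc 0 c ∪ Ioc c d := (Icc_union_Ioc_eq_Icc hc hcd).symm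
  have hdis : Disjoint (Icc 0 c) (Ioc c d) := by
    rw [Set.disjoint_left]
    rintro x ⟨_, hx⟩ ⟨hx2, _⟩
    linarith
  rw [e0, e1, e2, lintegral_union measurableSet_Ioc hdis]
  have e3 : ∫⁻ x in Icc 0 c, volume {y | (x, y) ∈ S} =
      ENNReal.ofReal (α * c - β * c ^ 2 / 2) := by
    have := lin_int hc h4
    rw [show α * (c - 0) - β * (c ^ 2 - 0 ^ 2) / 2 = α * c - β * c ^ 2 / 2 by ring] at this
    rw [← this]
    refine setLIntegral_congr_fun measurableSet_Icc fun x hx => ?_
    simp only [h1 x hx, Real.volume_Ico, sub_zero]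
  have e4 : ∫⁻ x in Ioc c d, volume {y | (x, y) ∈ S} =
      ENNReal.ofReal (α' * (d - c) - β' * (d ^ 2 - c ^ 2) / 2) := by
    rw [← lin_int hcd h5, ← restrict_Ioc_eq_restrict_Icc]
    refine setLIntegral_congr_fun measurableSet_Ioc fun x hx => ?_
    simp only [h2 x hx, Real.volume_Ico, sub_zero]
  rw [e3, e4, ← ENNReal.ofReal_add]
  · have h6 := h4 0 ⟨le_rfl, hc⟩
    have h7 := h4 c ⟨hc, le_rfl⟩
    have : α * c - β * c ^ 2 / 2 = c * ((α - β * 0) + (α - β * c)) / 2 := by ring
    rw [this]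
    have := mul_nonneg hc (add_nonneg h6 h7)
    linarith
  · have h6 := h5 c ⟨le_rfl, hcd⟩
    have h7 := h5 d ⟨hcd, le_rfl⟩
    have : α' * (d - c) - β' * (d ^ 2 - c ^ 2) / 2 =
        (d - c) * ((α' - β' * c) + (α' - β' * d)) / 2 := by ring
    rw [this]
    have := mul_nonneg (sub_nonneg.2 hcd) (add_nonneg h6 h7)
    linarith

theorem mem_T2_iff {p q x y : ℝ} (hp : 0 < p) :
    (x, y) ∈ T2 p q ↔ 0 ≤ x ∧ 0 ≤ y ∧ y < q - q / p * x := by
  simp only [T2, Set.mem_ofPred_eq]
  have : q * x + p * y < p * q ↔ y < q - q / p * x := by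
    have e : q - q / p * x = (p * q - q * x) / p := by field_simp
    rw [e, lt_div_iff₀ hp]
    constructor <;> intro h <;> linarith
  rw [this]

theorem volume_T2 {p q : ℝ} (hp : 0 < p) (hq : 0 < q) :
    volume (T2 p q) = ENNReal.ofReal (p * q / 2) := by
  have hqp : 0 < q / p := by positivity
  have h := volume_eq_two (measurableSet_T2 p q) (c := p) (d := p) (α := q) (β := q / p)
    (α' := 0) (β' := 0) hp.le le_rfl ?_ ?_ ?_ ?_ ?_
  · rw [h]
    congr 1
    field_simp
    ring
  · rintro x ⟨hx0, _⟩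
    ext y
    simp only [Set.mem_ofPred_eq, mem_T2_iff hp, mem_Ico]
    tauto
  · rintro x ⟨h1, h2⟩; linarith
  · rintro x hx
    ext y
    simp only [Set.mem_ofPred_eq, mem_T2_iff hp, mem_empty_iff_false, iff_false]
    rintro ⟨h1, h2, h3⟩
    rcases hx with hx | hx
    · linarith
    · have : q / p * p < q / p * x := mul_lt_mul_of_pos_left hx hqp
      rw [div_mul_cancel₀ _ hp.ne'] at this
      linarith
  · rintro x ⟨_, hx⟩
    have : q / p * x ≤ q / p * p := mul_le_mul_of_nonneg_left hx hqp.le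
    rw [div_mul_cancel₀ _ hp.ne'] at this
    linarith
  · intro x _; simp

/-- Area of the union of two right triangles (with legs `p, q` and `p', q'`). -/
noncomputable def tri (p q p' q' : ℝ) : ℝ :=
  if 0 ≤ (p - p') * (q - q') then max (p * q) (p' * q') / 2
  else (max q q' * (p * p' * (q - q') / (p' * q - p * q')) +
    max p p' * (q * q' * (p' - p) / (p' * q - p * q'))) / 2

theorem volume_cross {p q p' q' : ℝ} (hp : 0 < p) (hpp : p < p') (hq' : 0 < q') (hqq : q' < q) :
    volume (T2 p q ∪ T2 p' q') = ENNReal.ofReal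
      ((q * (p * p' * (q - q') / (p' * q - p * q')) +
        p' * (q * q' * (p' - p) / (p' * q - p * q'))) / 2) := by
  have hp' : 0 < p' := hp.trans hpp
  have hq : 0 < q := hq'.trans hqq
  set D := p' * q - p * q' with hD
  have hDpos : 0 < D := by
    have : p * q' < p' * q := mul_lt_mul'' hpp hqq hp.le hq'.le
    linarith
  set xs := p * p' * (q - q') / D with hxs
  have hxs0 : 0 < xs := by
    have : 0 < q - q' := by linarith
    positivity
  have hxsp : xs < p := by
    rw [hxs, div_lt_iff₀ hDpos, hD]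
    have : p * (p * q') < p * (p' * q') := by
      apply mul_lt_mul_of_pos_left _ hp
      exact mul_lt_mul_of_pos_right hpp hq'
    nlinarith
  have hqp : 0 < q / p := by positivity
  have hqp' : 0 < q' / p' := by positivity
  -- the difference of the two lines
  have hdiff : ∀ x, (q - q / p * x) - (q' - q' / p' * x) = (D / (p * p')) * (xs - x) := by
    intro x
    have a1 : D / (p * p') * xs = q - q' := by rw [hxs]; field_simp
    have a2 : D / (p * p') = q / p - q' / p' := by rw [hD]; field_simp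
    rw [mul_sub, a1, a2]
    ring
  have hDp : 0 < D / (p * p') := by positivity
  have h := volume_eq_two ((measurableSet_T2 p q).union (measurableSet_T2 p' q')) (c := xs)
    (d := p') (α := q) (β := q / p) (α' := q') (β' := q' / p') hxs0.le (hxsp.trans hpp).le
    ?_ ?_ ?_ ?_ ?_
  · rw [h]
    congr 1
    set ys := q * q' * (p' - p) / D with hys
    have b1 : q - q / p * xs = ys := by
      rw [hxs, hys, hD]
      have : p' * q - p * q' ≠ 0 := by rw [← hD]; exact hDpos.ne'
      have e : q / p * (p * p' * (q - q') / (p' * q - p * q')) =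
          q * p' * (q - q') / (p' * q - p * q') := by field_simp
      rw [e, eq_div_iff this, sub_mul, div_mul_cancel₀ _ this]
      ring
    have b2 : q' - q' / p' * xs = ys := by
      have := hdiff xs
      rw [sub_self, mul_zero] at this
      linarith
    have b3 : q' / p' * p' = q' := div_mul_cancel₀ _ hp'.ne'
    linear_combination (xs / 2) * b1 + ((p' - xs) / 2) * b2 - ((p' - xs) / 2) * b3
  · rintro x ⟨hx0, hx1⟩
    ext y
    simp only [Set.mem_ofPred_eq, mem_union, mem_T2_iff hp, mem_T2_iff hp', mem_Ico]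
    have h1 := hdiff x
    have h2 : 0 ≤ (D / (p * p')) * (xs - x) := mul_nonneg hDp.le (by linarith)
    constructor
    · rintro (⟨_, h3, h4⟩ | ⟨_, h3, h4⟩)
      · exact ⟨h3, h4⟩
      · exact ⟨h3, by linarith⟩
    · rintro ⟨h3, h4⟩
      exact Or.inl ⟨hx0, h3, h4⟩
  · rintro x ⟨hx0, hx1⟩
    ext y
    simp only [Set.mem_ofPred_eq, mem_union, mem_T2_iff hp, mem_T2_iff hp', mem_Ico]
    have h1 := hdiff x
    have h2 : (D / (p * p')) * (xs - x) ≤ 0 :=
      mul_nonpos_of_nonneg_of_nonpos hDp.le (by linarith)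
    constructor
    · rintro (⟨_, h3, h4⟩ | ⟨_, h3, h4⟩)
      · exact ⟨h3, by linarith⟩
      · exact ⟨h3, h4⟩
    · rintro ⟨h3, h4⟩
      exact Or.inr ⟨by linarith, h3, h4⟩
  · rintro x hx
    ext y
    simp only [Set.mem_ofPred_eq, mem_union, mem_T2_iff hp, mem_T2_iff hp', mem_empty_iff_false,
      iff_false]
    rintro (⟨h1, h2, h3⟩ | ⟨h1, h2, h3⟩)
    · rcases hx with hx | hx
      · linarith
      · have : q / p * p < q / p * x := mul_lt_mul_of_pos_left (hpp.trans hx) hqp
        rw [div_mul_cancel₀ _ hp.ne'] at this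
        linarith
    · rcases hx with hx | hx
      · linarith
      · have : q' / p' * p' < q' / p' * x := mul_lt_mul_of_pos_left hx hqp'
        rw [div_mul_cancel₀ _ hp'.ne'] at this
        linarith
  · rintro x ⟨hx0, hx1⟩
    have : q / p * x ≤ q / p * p := mul_le_mul_of_nonneg_left (hx1.trans hxsp.le) hqp.le
    rw [div_mul_cancel₀ _ hp.ne'] at this
    linarith
  · rintro x ⟨_, hx⟩
    have : q' / p' * x ≤ q' / p' * p' := mul_le_mul_of_nonneg_left hx hqp'.le
    rw [div_mul_cancel₀ _ hp'.ne'] at this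
    linarith

theorem T2_subset {p q p' q' : ℝ} (hp : 0 < p) (hq : 0 < q) (hpp : p ≤ p') (hqq : q ≤ q') :
    T2 p q ⊆ T2 p' q' := by
  rintro ⟨x, y⟩ h
  have hp' : 0 < p' := hp.trans_le hpp
  have hq' : 0 < q' := hq.trans_le hqq
  simp only [T2, Set.mem_ofPred_eq] at h ⊢
  obtain ⟨hx, hy, h⟩ := h
  refine ⟨hx, hy, ?_⟩
  -- x / p + y / q < 1
  have h1 : x / p + y / q < 1 := by
    rw [div_add_div _ _ hp.ne' hq.ne', div_lt_one (by positivity)]
    linarith
  have h2 : x / p' + y / q' < 1 := by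
    have a1 : x / p' ≤ x / p := div_le_div_of_nonneg_left hx hp hpp
    have a2 : y / q' ≤ y / q := div_le_div_of_nonneg_left hy hq hqq
    linarith
  rw [div_add_div _ _ hp'.ne' hq'.ne', div_lt_one (by positivity)] at h2
  linarith

theorem T2_zero : T2 0 0 = ∅ := by
  ext v; simp [T2]

theorem volume_T2' {p q : ℝ} (h : (0 < p ∧ 0 < q) ∨ (p = 0 ∧ q = 0)) :
    volume (T2 p q) = ENNReal.ofReal (p * q / 2) := by
  rcases h with ⟨h1, h2⟩ | ⟨rfl, rfl⟩
  · exact volume_T2 h1 h2
  · simp [T2_zero]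

theorem volume_union {p q p' q' : ℝ} (h : (0 < p ∧ 0 < q) ∨ (p = 0 ∧ q = 0))
    (h' : (0 < p' ∧ 0 < q') ∨ (p' = 0 ∧ q' = 0)) :
    volume (T2 p q ∪ T2 p' q') = ENNReal.ofReal (tri p q p' q') := by
  rcases h with ⟨hp, hq⟩ | ⟨rfl, rfl⟩
  swap
  · have hnn : 0 ≤ p' * q' := by
      rcases h' with ⟨a, b⟩ | ⟨rfl, rfl⟩
      · positivity
      · simp
    rw [T2_zero, empty_union, volume_T2' h', tri, if_pos (by nlinarith)]
    rw [zero_mul, max_eq_right hnn]
  rcases h' with ⟨hp', hq'⟩ | ⟨rfl, rfl⟩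
  swap
  · have hnn : 0 ≤ p * q := by positivity
    rw [T2_zero, union_empty, volume_T2 hp hq, tri, if_pos (by nlinarith)]
    rw [zero_mul, max_eq_left hnn]
  unfold tri
  split_ifs with hc
  · rcases mul_nonneg_iff.1 hc with ⟨a, b⟩ | ⟨a, b⟩
    · rw [union_eq_self_of_subset_right (T2_subset hp' hq' (by linarith) (by linarith)),
        volume_T2 hp hq, max_eq_left]
      exact mul_le_mul (by linarith) (by linarith) hq'.le hp.le
    · rw [union_eq_self_of_subset_left (T2_subset hp hq (by linarith) (by linarith)),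
        volume_T2 hp' hq', max_eq_right]
      exact mul_le_mul (by linarith) (by linarith) hq.le hp'.le
  · push Not at hc
    rcases mul_neg_iff.1 hc with ⟨a, b⟩ | ⟨a, b⟩
    · -- p > p', q < q'
      rw [union_comm, volume_cross hp' (by linarith) hq (by linarith), max_eq_right (by linarith),
        max_eq_left (by linarith : p' ≤ p)]
      congr 2
      have e1 : p' * p * (q' - q) / (p * q' - p' * q) = p * p' * (q - q') / (p' * q - p * q') := by
        rw [← neg_div_neg_eq]; congr 1 <;> ring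
      have e2 : q' * q * (p - p') / (p * q' - p' * q) = q * q' * (p' - p) / (p' * q - p * q') := by
        rw [← neg_div_neg_eq]; congr 1 <;> ring
      rw [e1, e2]
    · rw [volume_cross hp (by linarith) hq' (by linarith), max_eq_left (by linarith),
        max_eq_right (by linarith)]

/-! ### Fubini -/

variable {m : ℕ}

/-- A point of `ℝⁿ` from its last `n - 2` coordinates and the first two. -/
def mk (z : Fin m → ℝ) (v : ℝ × ℝ) : P m := Fin.cons v.1 (Fin.cons v.2 z : Fin (m + 1) → ℝ)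

@[simp] theorem mk_zero (z : Fin m → ℝ) (v : ℝ × ℝ) : mk z v 0 = v.1 := rfl
@[simp] theorem mk_one (z : Fin m → ℝ) (v : ℝ × ℝ) : mk z v 1 = v.2 := rfl
@[simp] theorem mk_ss (z : Fin m → ℝ) (v : ℝ × ℝ) (l : Fin m) : mk z v l.succ.succ = z l := rfl

theorem mp_mk (m : ℕ) : MeasurePreserving (fun p : (Fin m → ℝ) × (ℝ × ℝ) => mk p.1 p.2)
    ((volume : Measure (Fin m → ℝ)).prod (volume : Measure (ℝ × ℝ))) (volume : Measure (P m)) := by
  have h1 := (volume_preserving_piFinSuccAbove (fun _ : Fin (m + 2) => ℝ) 0).symm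
  have h2 := (volume_preserving_piFinSuccAbove (fun _ : Fin (m + 1) => ℝ) 0).symm
  have h3 : MeasurePreserving (fun p : (Fin m → ℝ) × (ℝ × ℝ) => (p.2, p.1))
      ((volume : Measure (Fin m → ℝ)).prod (volume : Measure (ℝ × ℝ)))
      ((volume : Measure (ℝ × ℝ)).prod (volume : Measure (Fin m → ℝ))) :=
    Measure.measurePreserving_swap
  have h4 : MeasurePreserving (MeasurableEquiv.prodAssoc : (ℝ × ℝ) × (Fin m → ℝ) ≃ᵐ _)
      (((volume : Measure ℝ).prod (volume : Measure ℝ)).prod (volume : Measure (Fin m → ℝ)))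
      ((volume : Measure ℝ).prod ((volume : Measure ℝ).prod (volume : Measure (Fin m → ℝ)))) :=
    measurePreserving_prodAssoc _ _ _
  have h5 := (MeasurePreserving.id (volume : Measure ℝ)).prod h2
  have h6 := h1.comp (h5.comp (h4.comp h3))
  have e : (fun p : (Fin m → ℝ) × (ℝ × ℝ) => mk p.1 p.2) =
      (⇑(MeasurableEquiv.piFinSuccAbove (fun _ : Fin (m + 2) => ℝ) 0).symm ∘
      Prod.map id ⇑(MeasurableEquiv.piFinSuccAbove (fun _ : Fin (m + 1) => ℝ) 0).symm ∘
        ⇑(MeasurableEquiv.prodAssoc : (ℝ × ℝ) × (Fin m → ℝ) ≃ᵐ _) ∘ fun p => (p.2, p.1)) := by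
    funext p
    funext k
    refine Fin.cases ?_ (fun k => Fin.cases ?_ (fun k => ?_) k) k
    · rfl
    · rfl
    · rfl
  rw [e]
  exact h6

theorem volume_slices {S : Set (P m)} (hS : MeasurableSet S) :
    volume S = ∫⁻ z : Fin m → ℝ, volume {v : ℝ × ℝ | mk z v ∈ S} := by
  rw [← (mp_mk m).measure_preimage hS.nullMeasurableSet,
    Measure.prod_apply ((mp_mk m).measurable hS)]
  rfl

/-! ### The caps -/

/-- The constant part of `F I` over `z`. -/
noncomputable def zc (I : Fin (m + 2) → P m) (z : Fin m → ℝ) : ℝ :=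
  Matrix.det (Matrix.of I) + ∑ l : Fin m, cf I l.succ.succ * z l

/-- The intercepts of the hyperplane through `I` over `z` (positive parts). -/
noncomputable def icx (I : Fin (m + 2) → P m) (z : Fin m → ℝ) : ℝ := max (-zc I z / cf I 0) 0

/-- The intercepts of the hyperplane through `I` over `z` (positive parts). -/
noncomputable def icy (I : Fin (m + 2) → P m) (z : Fin m → ℝ) : ℝ := max (-zc I z / cf I 1) 0

theorem F_mk (I : Fin (m + 2) → P m) (z : Fin m → ℝ) (v : ℝ × ℝ) :
    F I (mk z v) = zc I z + cf I 0 * v.1 + cf I 1 * v.2 := by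
  rw [F_affine, Lim.sum_fin2, zc]
  simp only [mk_zero, mk_one, mk_ss]
  ring

theorem ic_pos_or (I : Fin (m + 2) → P m) (h : 0 < cf I 0 * cf I 1) (z : Fin m → ℝ) :
    (0 < icx I z ∧ 0 < icy I z) ∨ (icx I z = 0 ∧ icy I z = 0) := by
  have h0 : cf I 0 ≠ 0 := left_ne_zero_of_mul h.ne'
  have h1 : cf I 1 ≠ 0 := right_ne_zero_of_mul h.ne'
  have e : -zc I z / cf I 1 = (-zc I z / cf I 0) * (cf I 0 * cf I 1) / (cf I 1) ^ 2 := by
    field_simp
  have hsq : 0 < (cf I 1) ^ 2 := by positivity
  by_cases hx : 0 < -zc I z / cf I 0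
  · left
    have hy : 0 < -zc I z / cf I 1 := by rw [e]; positivity
    exact ⟨lt_max_of_lt_left hx, lt_max_of_lt_left hy⟩
  · right
    have hy : -zc I z / cf I 1 ≤ 0 := by
      rw [e]
      exact div_nonpos_of_nonpos_of_nonneg
        (mul_nonpos_of_nonpos_of_nonneg (not_lt.1 hx) h.le) hsq.le
    exact ⟨max_eq_right (not_lt.1 hx), max_eq_right hy⟩

theorem slice_cap (I : Fin (m + 2) → P m) (h : 0 < cf I 0 * cf I 1) {z : Fin m → ℝ}
    (hz : z ∈ Icc (0 : Fin m → ℝ) 1) :
    {v : ℝ × ℝ | mk z v ∈ cap I} = T2 (icx I z) (icy I z) := by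
  have h0 : cf I 0 ≠ 0 := left_ne_zero_of_mul h.ne'
  have h1 : cf I 1 ≠ 0 := right_ne_zero_of_mul h.ne'
  ext v
  simp only [Set.mem_ofPred_eq, cap, W, mk_zero, mk_one, mk_ss, F_mk, T2]
  have hz' : ∀ l : Fin m, 0 ≤ z l ∧ z l ≤ 1 := fun l => ⟨hz.1 l, hz.2 l⟩
  have key : 0 ≤ v.1 → 0 ≤ v.2 → ((zc I z + cf I 0 * v.1 + cf I 1 * v.2) * cf I 0 < 0 ↔
      icy I z * v.1 + icx I z * v.2 < icx I z * icy I z) := by
    intro hv1 hv2
    have hsq : 0 < (cf I 0) ^ 2 := by positivity
    by_cases hx : 0 < -zc I z / cf I 0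
    · have e : -zc I z / cf I 1 = (-zc I z / cf I 0) * (cf I 0 * cf I 1) / (cf I 1) ^ 2 := by
        field_simp
      have hy : 0 < -zc I z / cf I 1 := by rw [e]; positivity
      rw [icx, icy, max_eq_left hx.le, max_eq_left hy.le]
      have e2 : -zc I z / cf I 0 * (-zc I z / cf I 1) - (-zc I z / cf I 1 * v.1 +
          -zc I z / cf I 0 * v.2) =
          (-((zc I z + cf I 0 * v.1 + cf I 1 * v.2) * cf I 0)) *
            ((-zc I z / cf I 0) / (cf I 0 * cf I 1)) := by
        field_simp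
        ring
      have hp : 0 < (-zc I z / cf I 0) / (cf I 0 * cf I 1) := by positivity
      constructor
      · intro h3
        have : 0 < (-((zc I z + cf I 0 * v.1 + cf I 1 * v.2) * cf I 0)) *
            ((-zc I z / cf I 0) / (cf I 0 * cf I 1)) := mul_pos (by linarith) hp
        linarith
      · intro h3
        have h4 : 0 < (-((zc I z + cf I 0 * v.1 + cf I 1 * v.2) * cf I 0)) *
            ((-zc I z / cf I 0) / (cf I 0 * cf I 1)) := by linarith
        have := (pos_iff_pos_of_mul_pos h4).2 hp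
        linarith
    · have hx' := not_lt.1 hx
      rcases ic_pos_or I h z with ⟨h3, _⟩ | ⟨h3, h4⟩
      · exfalso
        rw [icx, max_eq_right hx'] at h3
        exact lt_irrefl _ h3
      · rw [h3, h4]
        simp only [zero_mul, add_zero, lt_self_iff_false, iff_false, not_lt]
        have h5 : 0 ≤ zc I z * cf I 0 := by
          have : zc I z * cf I 0 = -(-zc I z / cf I 0) * (cf I 0) ^ 2 := by field_simp
          rw [this]
          exact mul_nonneg (by linarith) hsq.le
        have h6 : (zc I z + cf I 0 * v.1 + cf I 1 * v.2) * cf I 0 =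
            zc I z * cf I 0 + (cf I 0) ^ 2 * v.1 + (cf I 0 * cf I 1) * v.2 := by ring
        rw [h6]
        positivity
  constructor
  · rintro ⟨⟨a1, a2, _⟩, a3⟩
    exact ⟨a1, a2, (key a1 a2).1 a3⟩
  · rintro ⟨a1, a2, a3⟩
    exact ⟨⟨a1, a2, hz'⟩, (key a1 a2).2 a3⟩

theorem slice_cap_out (I : Fin (m + 2) → P m) {z : Fin m → ℝ}
    (hz : z ∉ Icc (0 : Fin m → ℝ) 1) : {v : ℝ × ℝ | mk z v ∈ cap I} = ∅ := by
  ext v
  simp only [Set.mem_ofPred_eq, cap, W, mk_zero, mk_one, mk_ss, mem_empty_iff_false, iff_false]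
  rintro ⟨⟨_, _, h⟩, _⟩
  exact hz ⟨fun l => (h l).1, fun l => (h l).2⟩

theorem continuous_zc (I : Fin (m + 2) → P m) : Continuous (zc I) := by
  unfold zc; fun_prop

theorem continuous_icx (I : Fin (m + 2) → P m) : Continuous (icx I) := by
  unfold icx
  exact ((continuous_zc I).neg.div_const _).max continuous_const

theorem continuous_icy (I : Fin (m + 2) → P m) : Continuous (icy I) := by
  unfold icy
  exact ((continuous_zc I).neg.div_const _).max continuous_const

/-- The volume of the cap. -/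
noncomputable def v1 (I : Fin (m + 2) → P m) : ℝ :=
  ∫ z in Icc (0 : Fin m → ℝ) 1, icx I z * icy I z / 2

/-- The volume of the union of two caps. -/
noncomputable def v2 (I I' : Fin (m + 2) → P m) : ℝ :=
  ∫ z in Icc (0 : Fin m → ℝ) 1, tri (icx I z) (icy I z) (icx I' z) (icy I' z)

theorem measurable_tri {Ω : Type*} [MeasurableSpace Ω] {f g f' g' : Ω → ℝ} (hf : Measurable f)
    (hg : Measurable g) (hf' : Measurable f') (hg' : Measurable g') :
    Measurable fun x => tri (f x) (g x) (f' x) (g' x) := by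
  unfold tri
  refine Measurable.ite ?_ ?_ ?_
  · exact measurableSet_le measurable_const ((hf.sub hf').mul (hg.sub hg'))
  · exact ((hf.mul hg).max (hf'.mul hg')).div_const 2
  · exact (((hg.max hg').mul (((hf.mul hf').mul (hg.sub hg')).div
      ((hf'.mul hg).sub (hf.mul hg')))).add ((hf.max hf').mul (((hg.mul hg').mul (hf'.sub hf)).div
      ((hf'.mul hg).sub (hf.mul hg'))))).div_const 2

theorem tri_nonneg {p q p' q' : ℝ} (h : (0 < p ∧ 0 < q) ∨ (p = 0 ∧ q = 0))
    (h' : (0 < p' ∧ 0 < q') ∨ (p' = 0 ∧ q' = 0)) : 0 ≤ tri p q p' q' := by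
  have hp : 0 ≤ p := by rcases h with h | h <;> linarith [h.1]
  have hq : 0 ≤ q := by rcases h with h | h <;> linarith [h.2]
  have hp' : 0 ≤ p' := by rcases h' with h | h <;> linarith [h.1]
  have hq' : 0 ≤ q' := by rcases h' with h | h <;> linarith [h.2]
  unfold tri
  split_ifs with hc
  · have : 0 ≤ max (p * q) (p' * q') := le_max_of_le_left (mul_nonneg hp hq)
    linarith
  · push Not at hc
    rcases mul_neg_iff.1 hc with ⟨a, b⟩ | ⟨a, b⟩
    · have hD : p' * q - p * q' ≤ 0 := by nlinarith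
      have e1 : 0 ≤ p * p' * (q - q') / (p' * q - p * q') :=
        div_nonneg_of_nonpos (mul_nonpos_of_nonneg_of_nonpos (mul_nonneg hp hp') (by linarith)) hD
      have e2 : 0 ≤ q * q' * (p' - p) / (p' * q - p * q') :=
        div_nonneg_of_nonpos (mul_nonpos_of_nonneg_of_nonpos (mul_nonneg hq hq') (by linarith)) hD
      have m1 : 0 ≤ max q q' := le_max_of_le_left hq
      have m2 : 0 ≤ max p p' := le_max_of_le_left hp
      positivity
    · have hD : 0 ≤ p' * q - p * q' := by nlinarith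
      have e1 : 0 ≤ p * p' * (q - q') / (p' * q - p * q') :=
        div_nonneg (mul_nonneg (mul_nonneg hp hp') (by linarith)) hD
      have e2 : 0 ≤ q * q' * (p' - p) / (p' * q - p * q') :=
        div_nonneg (mul_nonneg (mul_nonneg hq hq') (by linarith)) hD
      have m1 : 0 ≤ max q q' := le_max_of_le_left hq
      have m2 : 0 ≤ max p p' := le_max_of_le_left hp
      positivity

theorem volume_cap_union (I I' : Fin (m + 2) → P m) (h : 0 < cf I 0 * cf I 1)
    (h' : 0 < cf I' 0 * cf I' 1) : (volume (cap I ∪ cap I')).toReal = v2 I I' := by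
  have hm := (Lim.measurableSet_cap I).union (Lim.measurableSet_cap I')
  have e1 : volume (cap I ∪ cap I') = ∫⁻ z in Icc (0 : Fin m → ℝ) 1,
      ENNReal.ofReal (tri (icx I z) (icy I z) (icx I' z) (icy I' z)) := by
    rw [volume_slices hm, ← lintegral_indicator measurableSet_Icc]
    refine lintegral_congr fun z => ?_
    have e : {v : ℝ × ℝ | mk z v ∈ cap I ∪ cap I'} =
      {v : ℝ × ℝ | mk z v ∈ cap I} ∪ {v : ℝ × ℝ | mk z v ∈ cap I'} := rfl
    by_cases hz : z ∈ Icc (0 : Fin m → ℝ) 1
    · rw [indicator_of_mem hz, e, slice_cap I h hz, slice_cap I' h' hz,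
        volume_union (ic_pos_or I h z) (ic_pos_or I' h' z)]
    · rw [indicator_of_notMem hz, e, slice_cap_out I hz, slice_cap_out I' hz, union_empty,
        measure_empty]
  rw [e1, v2, integral_eq_lintegral_of_nonneg_ae]
  · exact Filter.Eventually.of_forall fun z => tri_nonneg (ic_pos_or I h z) (ic_pos_or I' h' z)
  · exact (measurable_tri (continuous_icx I).measurable (continuous_icy I).measurable
      (continuous_icx I').measurable (continuous_icy I').measurable).aestronglyMeasurable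

theorem volume_cap (I : Fin (m + 2) → P m) (h : 0 < cf I 0 * cf I 1) :
    (volume (cap I)).toReal = v1 I := by
  have hm := Lim.measurableSet_cap I
  have e1 : volume (cap I) = ∫⁻ z in Icc (0 : Fin m → ℝ) 1,
      ENNReal.ofReal (icx I z * icy I z / 2) := by
    rw [volume_slices hm, ← lintegral_indicator measurableSet_Icc]
    refine lintegral_congr fun z => ?_
    by_cases hz : z ∈ Icc (0 : Fin m → ℝ) 1
    · rw [indicator_of_mem hz, slice_cap I h hz, volume_T2' (ic_pos_or I h z)]
    · rw [indicator_of_notMem hz, slice_cap_out I hz, measure_empty]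
  rw [e1, v1, integral_eq_lintegral_of_nonneg_ae]
  · refine Filter.Eventually.of_forall fun z => ?_
    have a1 : 0 ≤ icx I z := le_max_right _ _
    have a2 : 0 ≤ icy I z := le_max_right _ _
    have : 0 ≤ icx I z * icy I z / 2 := by positivity
    exact this
  · exact (((continuous_icx I).mul (continuous_icy I)).div_const 2).aestronglyMeasurable

/-- Explicit form of the first constant. -/
theorem M1_explicit (m : ℕ) : M1 m univ =
    (∫⁻ I in (Set.univ.pi fun _ : Fin (m + 2) => W m),
      ENNReal.ofReal (psi I * Real.exp (-v1 I))) / (m + 2).factorial := by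
  rw [M1, inter_univ]
  congr 1
  refine lintegral_congr fun I => ?_
  by_cases h : 0 < cf I 0 * cf I 1
  · rw [volume_cap I h]
  · rw [psi, if_neg h, zero_mul, zero_mul]

/-- Explicit form of the second constants. -/
theorem J2_explicit (m t : ℕ) : J2 m t univ =
    ∫⁻ Y in (Set.univ.pi fun _ : Fin (m + 2 + t) => W m) ∩
      {Y | ∀ k, 0 ≤ F (fst' t Y) (Y k) * cf (fst' t Y) 0 ∧
        0 ≤ F (lst' t Y) (Y k) * cf (lst' t Y) 0},
    ENNReal.ofReal (psi (fst' t Y) * psi (lst' t Y) *
      Real.exp (-v2 (fst' t Y) (lst' t Y))) := by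
  rw [J2]
  have e1 : (Set.univ.pi fun _ : Fin (m + 2 + t) => W m) ∩
      {Y : Fin (m + 2 + t) → P m | fst' t Y ∈ (univ : Set (Fin (m + 2) → P m)) ∧
        lst' t Y ∈ (univ : Set (Fin (m + 2) → P m)) ∧
        ∀ k, Y k ∉ cap (fst' t Y) ∪ cap (lst' t Y)} =
      (Set.univ.pi fun _ : Fin (m + 2 + t) => W m) ∩
      {Y | ∀ k, 0 ≤ F (fst' t Y) (Y k) * cf (fst' t Y) 0 ∧
        0 ≤ F (lst' t Y) (Y k) * cf (lst' t Y) 0} := by
    ext Y
    simp only [mem_inter_iff, Set.mem_pi, mem_univ, Set.mem_ofPred_eq, true_and,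
      mem_union, not_or, cap, not_and, not_lt]
    constructor
    · rintro ⟨h1, h2⟩
      exact ⟨h1, fun k => ⟨(h2 k).1 (h1 k trivial), (h2 k).2 (h1 k trivial)⟩⟩
    · rintro ⟨h1, h2⟩
      exact ⟨h1, fun k => ⟨fun _ => (h2 k).1, fun _ => (h2 k).2⟩⟩
  rw [e1]
  refine lintegral_congr fun Y => ?_
  by_cases h : 0 < cf (fst' t Y) 0 * cf (fst' t Y) 1
  · by_cases h' : 0 < cf (lst' t Y) 0 * cf (lst' t Y) 1
    · rw [volume_cap_union _ _ h h']
    · simp only [psi, if_neg h', mul_zero, zero_mul]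
  · simp only [psi, if_neg h, zero_mul]

end Expl

end Pool.Agent.B05
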