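import Pool.Agent.Lib.MP_b05ae9_pr.GenPos
import Pool.Agent.Lib.MP_b05ae9_pr.Alg

/-!
# MP_b05ae9_pr, task M: almost every pair of facets is generic
-/

set_option autoImplicit false

open MeasureTheory Set Filter Topology
open scoped ENNReal MeasureTheory

namespace Pool.Agent.B05

namespace GenPair

open GenPos

variable {m : ℕ}

/-- Two `n`-tuples differing only in the point of index `0`, whose hyperplanes are coordinate
hyperplanes for `k` and `l`. -/
theorem exists_config (l k : Fin (m + 2)) (hlk : l ≠ k) : ∃ I I' : Fin (m + 2) → P m,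
    (∀ i, i ≠ 0 → I' i = I i) ∧ cf I l = 0 ∧ cf I k ≠ 0 ∧ cf I' l ≠ 0 := by
  obtain ⟨j0, hj0⟩ := Fin.exists_succAbove_eq hlk
  set σ : Equiv.Perm (Fin (m + 2)) := Equiv.swap 0 j0.succ with hσ
  set I : Fin (m + 2) → P m := pts m k ∘ σ with hI
  refine ⟨I, fun i => AlgAux.sym (Equiv.swap k l) (fun _ => false) (I i), ?_, ?_, ?_, ?_⟩
  · intro i hi
    have h1 : I i k = 0 := by simp [hI, pts]
    have h2 : I i l = 0 := by
      have hne : σ i ≠ j0.succ := by
        intro h
        apply hi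
        have : σ i = σ 0 := by rw [h, hσ, Equiv.swap_apply_left]
        exact σ.injective this
      have e1 : I i l = vtx (m + 1) (σ i) j0 := by
        rw [← hj0]
        simp [hI, pts]
      rw [e1]
      revert hne
      generalize σ i = a
      refine Fin.cases ?_ (fun j => ?_) a
      · intro _
        simp [vtx]
      · intro h
        have hj : j ≠ j0 := fun h2 => h (by rw [h2])
        simp [vtx, hj.symm]
    funext q
    change AlgAux.sym (Equiv.swap k l) (fun _ => false) (I i) q = I i q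
    rw [AlgAux.sym_apply]
    have e2 : ∀ x : ℝ, AlgAux.fl false x = x := fun x => by simp [AlgAux.fl]
    rw [e2]
    by_cases hq1 : q = k
    · rw [hq1, Equiv.swap_apply_left, h1, h2]
    · by_cases hq2 : q = l
      · rw [hq2, Equiv.swap_apply_right, h1, h2]
      · rw [Equiv.swap_apply_of_ne_of_ne hq1 hq2]
  · rw [hI, cf_perm, cf_pts_ne k l hlk, mul_zero]
  · rw [hI, cf_perm]
    refine mul_ne_zero ?_ (cf_pts_self k)
    rcases Int.units_eq_one_or (Equiv.Perm.sign σ) with h | h <;> rw [h] <;> norm_num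
  · rw [← abs_pos, AlgAux.abs_cf_sym, Equiv.swap_apply_right, abs_pos, hI, cf_perm]
    refine mul_ne_zero ?_ (cf_pts_self k)
    rcases Int.units_eq_one_or (Equiv.Perm.sign σ) with h | h <;> rw [h] <;> norm_num

theorem exists_pair (t : ℕ) (h1 : 1 ≤ t) (h2 : t ≤ m + 2) (I I' : Fin (m + 2) → P m)
    (hII : ∀ i, i ≠ 0 → I' i = I i) : ∃ (Y : Fin (m + 2 + t) → P m)
      (σ : Equiv.Perm (Fin (m + 2))), fst' t Y = I ∧ lst' t Y = I' ∘ σ := by
  refine ⟨fun a => if h : (a : ℕ) < m + 2 then I ⟨a, h⟩ else I' ⟨a - (m + 2), by omega⟩,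
    Equiv.addLeft (Fin.ofNat (m + 2) t), ?_, ?_⟩
  · funext i
    have hi : ((Fin.castAdd t i : Fin (m + 2 + t)) : ℕ) < m + 2 := by simp
    simp only [fst', dif_pos hi]
    congr 1
  · funext i
    have hval : ((Fin.cast (Nat.add_comm t (m + 2)) (Fin.natAdd t i) : Fin (m + 2 + t)) : ℕ) =
        t + i := by simp; omega
    have hs : ((Equiv.addLeft (Fin.ofNat (m + 2) t) i : Fin (m + 2)) : ℕ) =
        (t + i) % (m + 2) := by
      rw [Equiv.coe_addLeft, Fin.val_add, Fin.val_ofNat, Nat.mod_add_mod]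
    unfold lst'
    simp only [Function.comp]
    by_cases h : t + (i : ℕ) < m + 2
    · have h3 : ((Fin.cast (Nat.add_comm t (m + 2)) (Fin.natAdd t i) : Fin (m + 2 + t)) : ℕ) <
        m + 2 := by rw [hval]; exact h
      rw [dif_pos h3]
      have e : Equiv.addLeft (Fin.ofNat (m + 2) t) i =
          ⟨((Fin.cast (Nat.add_comm t (m + 2)) (Fin.natAdd t i) : Fin (m + 2 + t)) : ℕ), h3⟩ := by
        ext
        rw [hs, Nat.mod_eq_of_lt h]
        exact hval.symm
      rw [e, hII]
      intro h4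
      have h5 := congrArg Fin.val h4
      simp only [Fin.val_zero] at h5
      rw [hval] at h5
      omega
    · have h3 : ¬ ((Fin.cast (Nat.add_comm t (m + 2)) (Fin.natAdd t i) : Fin (m + 2 + t)) : ℕ) <
        m + 2 := by rw [hval]; exact h
      rw [dif_neg h3]
      congr 1
      ext
      rw [hs]
      simp only [hval]
      rw [Nat.mod_eq_sub_mod (by omega), Nat.mod_eq_of_lt (by omega)]

theorem good_fst (t : ℕ) (k : Fin (m + 2)) :
    Good (fun Y : Fin (m + 2 + t) → P m => cf (fst' t Y) k) :=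
  good_cf (Fin.castAdd t) k

theorem good_lst (t : ℕ) (k : Fin (m + 2)) :
    Good (fun Y : Fin (m + 2 + t) → P m => cf (lst' t Y) k) :=
  good_cf (fun i => Fin.cast (Nat.add_comm t (m + 2)) (Fin.natAdd t i)) k

end GenPair

open GenPos GenPair

theorem ae_generic (m : ℕ) : ∀ᵐ I : Fin (m + 2) → P m, ∀ l, cf I l ≠ 0 := by
  rw [ae_all_iff]
  intro l
  exact ae_ne volume (good_cf (fun i => i) l) ⟨pts m l, cf_pts_self l⟩

theorem ae_genericPair (m t : ℕ) (h1 : 1 ≤ t) (h2 : t ≤ m + 2) :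
    ∀ᵐ Y : Fin (m + 2 + t) → P m, (∀ l, cf (fst' t Y) l ≠ 0) ∧ (∀ l, cf (lst' t Y) l ≠ 0) ∧
      ∀ l k, l ≠ k → cf (fst' t Y) l * cf (lst' t Y) k ≠ cf (fst' t Y) k * cf (lst' t Y) l := by
  have A : ∀ᵐ Y : Fin (m + 2 + t) → P m, ∀ l, cf (fst' t Y) l ≠ 0 := by
    rw [ae_all_iff]
    intro l
    obtain ⟨Y, hY⟩ := ex_ext (N := m + 2 + t) (Fin.castAdd t) (Fin.castAdd_injective _ _) (pts m l)
    refine ae_ne volume (good_fst t l) ⟨Y, ?_⟩
    have : fst' t Y = pts m l := hY
    rw [this]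
    exact cf_pts_self l
  have B : ∀ᵐ Y : Fin (m + 2 + t) → P m, ∀ l, cf (lst' t Y) l ≠ 0 := by
    rw [ae_all_iff]
    intro l
    have hinj : Function.Injective (fun i : Fin (m + 2) =>
        Fin.cast (Nat.add_comm t (m + 2)) (Fin.natAdd t i)) := by
      intro a b hab
      have := congrArg Fin.val hab
      simp only [Fin.val_cast, Fin.val_natAdd] at this
      ext
      omega
    obtain ⟨Y, hY⟩ := ex_ext (N := m + 2 + t) _ hinj (pts m l)
    refine ae_ne volume (good_lst t l) ⟨Y, ?_⟩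
    have : lst' t Y = pts m l := hY
    rw [this]
    exact cf_pts_self l
  have C : ∀ᵐ Y : Fin (m + 2 + t) → P m, ∀ l k, l ≠ k →
      cf (fst' t Y) l * cf (lst' t Y) k - cf (fst' t Y) k * cf (lst' t Y) l ≠ 0 := by
    rw [ae_all_iff]; intro l
    rw [ae_all_iff]; intro k
    rw [eventually_imp_distrib_left]; intro hlk
    obtain ⟨I, I', hII, c1, c2, c3⟩ := exists_config l k hlk
    obtain ⟨Y, σ, hY1, hY2⟩ := exists_pair t h1 h2 I I' hII
    refine ae_ne volume (good_sub (good_mul (good_fst t l) (good_lst t k))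
      (good_mul (good_fst t k) (good_lst t l))) ⟨Y, ?_⟩
    rw [hY1, hY2, c1, zero_mul, zero_sub, cf_perm]
    refine neg_ne_zero.2 (mul_ne_zero c2 (mul_ne_zero ?_ c3))
    rcases Int.units_eq_one_or (Equiv.Perm.sign σ) with h | h <;> rw [h] <;> norm_num
  filter_upwards [A, B, C] with Y hA hB hC
  exact ⟨hA, hB, fun l k hlk h => hC l k hlk (sub_eq_zero.2 h)⟩

end Pool.Agent.B05
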