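import Pool.Agent.Lib.MP_b05ae9_pr.Main
import Pool.Agent.Lib.MP_b05ae9_pr.Explicit
import Pool.Agent.Lib.MP_b05ae9_pr.Closed4
import Pool.Agent.Lib.MP_b05ae9_pr.GenPair

/-!
# MP_b05ae9_pr: final form
-/

set_option autoImplicit false

open MeasureTheory Set Filter Topology ProbabilityTheory
open scoped ENNReal MeasureTheory

namespace Pool.Agent.B05

/-- The integral `m₁(n)`, `n = m + 2`. -/
noncomputable def m1 (m : ℕ) : ℝ :=
  (∫ I in (Set.univ.pi fun _ : Fin (m + 2) => W m), psi I * Real.exp (-capVol I)) /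
    (m + 2).factorial

/-- The integral over single facets. -/
noncomputable def j0 (m : ℕ) : ℝ :=
  ∫ I in (Set.univ.pi fun _ : Fin (m + 2) => W m), psi I ^ 2 * Real.exp (-capVol I)

/-- The domain of integration for pairs of facets with `n - t` common vertices. -/
def dom2 (m t : ℕ) : Set (Fin (m + 2 + t) → P m) :=
  (Set.univ.pi fun _ : Fin (m + 2 + t) => W m) ∩
      {Y | ∀ k, 0 ≤ F (fst' t Y) (Y k) * cf (fst' t Y) 0 ∧
        0 ≤ F (lst' t Y) (Y k) * cf (lst' t Y) 0}

/-- The integral over pairs of facets with `n - t` common vertices. -/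
noncomputable def j2 (m t : ℕ) : ℝ :=
  ∫ Y in dom2 m t, psi (fst' t Y) * psi (lst' t Y) *
    Real.exp (-(capVol (fst' t Y) + capVol (lst' t Y) - capInt (fst' t Y) (lst' t Y)))

/-- The sum `m₂(n)`, `n = m + 2`. -/
noncomputable def m2 (m : ℕ) : ℝ :=
  j0 m / (m + 2).factorial +
    ∑ t ∈ Finset.Icc 1 (m + 2), j2 m t / ((m + 2 - t).factorial * (t.factorial) ^ 2)

/-- The constant `c_n = 2 n (n - 1) (m₂(n) - m₁(n)²)`, `n = m + 2`. -/
noncomputable def cn (m : ℕ) : ℝ := 2 * (m + 2) * (m + 1) * (m2 m - m1 m ^ 2)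

/-- The uniform law on the unit cube of `ℝⁿ`. -/
noncomputable def unifE (n : ℕ) : Measure (EuclideanSpace ℝ (Fin n)) :=
  volume.restrict {x | ∀ i, 0 ≤ x i ∧ x i ≤ 1}

/-- Surface area in `ℝⁿ`: the `(n-1)`-dimensional Hausdorff measure of the boundary. -/
noncomputable def surfE {n : ℕ} (K : Set (EuclideanSpace ℝ (Fin n))) : ℝ :=
  ((μHE[n - 1] : Measure (EuclideanSpace ℝ (Fin n))) (frontier K)).toReal

namespace Fnl

variable {m : ℕ}

theorem measurable_psi : Measurable (psi : (Fin (m + 2) → P m) → ℝ) := by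
  unfold psi
  refine Measurable.ite ?_ ?_ measurable_const
  · exact measurableSet_lt measurable_const
      ((Lim.continuous_cf 0).mul (Lim.continuous_cf 1)).measurable
  · have h0 := Lim.continuous_cf (m := m) 0
    have h1 := Lim.continuous_cf (m := m) 1
    exact (((h0.abs.add h1.abs).sub
      (((h0.pow 2).add (h1.pow 2)).sqrt)).div_const _).measurable

theorem measurable_f1 : Measurable fun I : Fin (m + 2) → P m =>
    psi I * Real.exp (-(volume (cap I)).toReal) := by
  have h : Measurable fun I : Fin (m + 2) → P m => volume (cap I) :=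
    measurable_measure_prodMk_left Lim.measurableSet_capset
  exact measurable_psi.mul (Real.measurable_exp.comp h.ennreal_toReal.neg)

theorem measurable_fst' (t : ℕ) : Measurable (fst' (m := m) t) :=
  measurable_pi_lambda _ fun _ => measurable_pi_apply _

theorem measurable_lst' (t : ℕ) : Measurable (lst' (m := m) t) :=
  measurable_pi_lambda _ fun _ => measurable_pi_apply _

theorem measurable_f2 (t : ℕ) : Measurable fun Y : Fin (m + 2 + t) → P m =>
    psi (fst' t Y) * psi (lst' t Y) *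
      Real.exp (-(volume (cap (fst' t Y) ∪ cap (lst' t Y))).toReal) := by
  have hs : MeasurableSet {p : (Fin (m + 2 + t) → P m) × P m |
      p.2 ∈ cap (fst' t p.1) ∪ cap (lst' t p.1)} := by
    have h1 : Measurable fun p : (Fin (m + 2 + t) → P m) × P m => (fst' t p.1, p.2) :=
      ((measurable_fst' t).comp measurable_fst).prodMk measurable_snd
    have h2 : Measurable fun p : (Fin (m + 2 + t) → P m) × P m => (lst' t p.1, p.2) :=
      ((measurable_lst' t).comp measurable_fst).prodMk measurable_snd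
    exact (h1 Lim.measurableSet_capset).union (h2 Lim.measurableSet_capset)
  have h : Measurable fun Y : Fin (m + 2 + t) → P m =>
      volume (cap (fst' t Y) ∪ cap (lst' t Y)) := measurable_measure_prodMk_left hs
  exact ((measurable_psi.comp (measurable_fst' t)).mul (measurable_psi.comp (measurable_lst' t))).mul
    (Real.measurable_exp.comp h.ennreal_toReal.neg)

theorem one_ae : ∀ᵐ I : Fin (m + 2) → P m, psi I * Real.exp (-(volume (cap I)).toReal) =
    psi I * Real.exp (-capVol I) := by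
  filter_upwards [ae_generic m] with I hI
  by_cases h : 0 < cf I 0 * cf I 1
  · rw [Closed.capVol_eq h hI]
  · simp only [psi, if_neg h, zero_mul]

theorem one_ae2 : ∀ᵐ I : Fin (m + 2) → P m, psi I * psi I *
      Real.exp (-(volume (cap I)).toReal) = psi I ^ 2 * Real.exp (-capVol I) := by
  filter_upwards [ae_generic m] with I hI
  by_cases h : 0 < cf I 0 * cf I 1
  · rw [Closed.capVol_eq h hI, sq]
  · simp only [psi, if_neg h, zero_mul, sq]

theorem two_ae (t : ℕ) (h1 : 1 ≤ t) (h2 : t ≤ m + 2) :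
    ∀ᵐ Y : Fin (m + 2 + t) → P m, psi (fst' t Y) * psi (lst' t Y) *
      Real.exp (-(volume (cap (fst' t Y) ∪ cap (lst' t Y))).toReal) =
    psi (fst' t Y) * psi (lst' t Y) *
    Real.exp (-(capVol (fst' t Y) + capVol (lst' t Y) - capInt (fst' t Y) (lst' t Y))) := by
  filter_upwards [ae_genericPair m t h1 h2] with Y hY
  obtain ⟨hY1, hY2, hY3⟩ := hY
  by_cases h : 0 < cf (fst' t Y) 0 * cf (fst' t Y) 1
  · by_cases h' : 0 < cf (lst' t Y) 0 * cf (lst' t Y) 1
    · rw [Closed.capUnion_eq h h' hY1 hY2 hY3]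
    · simp only [psi, if_neg h', zero_mul, mul_zero]
  · simp only [psi, if_neg h, zero_mul]

theorem one_eq (h : M1 m univ ≠ ∞) :
    IntegrableOn (fun I : Fin (m + 2) → P m => psi I * Real.exp (-capVol I))
      (Set.univ.pi fun _ : Fin (m + 2) => W m) ∧ m1 m = (M1 m univ).toReal := by
  have hfac : ((m + 2).factorial : ℝ≥0∞) ≠ ∞ := ENNReal.natCast_ne_top _
  have hfin : (∫⁻ I in (Set.univ.pi fun _ : Fin (m + 2) => W m),
      ENNReal.ofReal (psi I * Real.exp (-(volume (cap I)).toReal))) ≠ ∞ := by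
    intro hcon
    apply h
    unfold M1
    rw [inter_univ, hcon, ENNReal.top_div_of_ne_top hfac]
  have hnn : 0 ≤ᵐ[volume.restrict (Set.univ.pi fun _ : Fin (m + 2) => W m)]
      fun I : Fin (m + 2) → P m => psi I * Real.exp (-(volume (cap I)).toReal) :=
    Filter.Eventually.of_forall fun I => mul_nonneg (Lim.psi_nonneg I) (Real.exp_pos _).le
  have hint : IntegrableOn (fun I : Fin (m + 2) → P m =>
      psi I * Real.exp (-(volume (cap I)).toReal)) (Set.univ.pi fun _ : Fin (m + 2) => W m) :=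
    (lintegral_ofReal_ne_top_iff_integrable
      measurable_f1.aestronglyMeasurable hnn).mp hfin
  refine ⟨Integrable.congr hint (ae_restrict_of_ae one_ae), ?_⟩
  unfold m1 M1
  rw [← integral_congr_ae (ae_restrict_of_ae one_ae),
    integral_eq_lintegral_of_nonneg_ae hnn measurable_f1.aestronglyMeasurable, inter_univ,
    ENNReal.toReal_div, ENNReal.toReal_natCast]

theorem dom_eq (t : ℕ) : (Set.univ.pi fun _ : Fin (m + 2 + t) => W m) ∩
      {Y : Fin (m + 2 + t) → P m | fst' t Y ∈ (univ : Set (Fin (m + 2) → P m)) ∧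
        lst' t Y ∈ (univ : Set (Fin (m + 2) → P m)) ∧
        ∀ k, Y k ∉ cap (fst' t Y) ∪ cap (lst' t Y)} = dom2 m t := by
  unfold dom2
  ext Y
  simp only [mem_inter_iff, Set.mem_pi, mem_univ, Set.mem_ofPred_eq, true_and,
    mem_union, not_or, cap, not_and, not_lt]
  constructor
  · rintro ⟨h1, h2⟩
    exact ⟨h1, fun k => ⟨(h2 k).1 (h1 k trivial), (h2 k).2 (h1 k trivial)⟩⟩
  · rintro ⟨h1, h2⟩
    exact ⟨h1, fun k => ⟨fun _ => (h2 k).1, fun _ => (h2 k).2⟩⟩

theorem J2_ne_top (h : M2 m univ ≠ ∞) (t : ℕ) (ht : t ≤ m + 2) : J2 m t univ ≠ ∞ := by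
  have hc : ((m + 2 - t).factorial * (t.factorial) ^ 2 : ℝ≥0∞) ≠ ∞ :=
    ENNReal.mul_ne_top (ENNReal.natCast_ne_top _) (ENNReal.pow_ne_top (ENNReal.natCast_ne_top _))
  intro hcon
  have := ENNReal.sum_ne_top.mp h t (Finset.mem_range.mpr (by omega))
  apply this
  rw [hcon, ENNReal.top_div_of_ne_top hc]

theorem fst_zero (Y : Fin (m + 2 + 0) → P m) : fst' 0 Y = Y := rfl

theorem lst_zero (Y : Fin (m + 2 + 0) → P m) : lst' 0 Y = Y := by
  funext i
  unfold lst'
  congr 1
  ext
  simp

theorem zero_eq (h : J2 m 0 univ ≠ ∞) :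
    IntegrableOn (fun I : Fin (m + 2) → P m => psi I ^ 2 * Real.exp (-capVol I))
      (Set.univ.pi fun _ : Fin (m + 2) => W m) ∧ j0 m = (J2 m 0 univ).toReal := by
  have e1 : J2 m 0 univ = ∫⁻ I in (Set.univ.pi fun _ : Fin (m + 2) => W m),
      ENNReal.ofReal (psi I * psi I * Real.exp (-(volume (cap I)).toReal)) := by
    unfold J2
    rw [dom_eq]
    have e2 : dom2 m 0 = Set.univ.pi fun _ : Fin (m + 2) => W m := by
      ext Y
      unfold dom2
      constructor
      · exact fun h => h.1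
      · refine fun h => ⟨h, fun k => ?_⟩
        rw [lst_zero, fst_zero]
        have : F Y (Y k) = 0 := F_self Y k
        rw [this, zero_mul]
        exact ⟨le_rfl, le_rfl⟩
    rw [e2]
    refine lintegral_congr fun Y => ?_
    rw [lst_zero, fst_zero, union_self]
  have hm : Measurable fun I : Fin (m + 2) → P m => psi I * psi I *
      Real.exp (-(volume (cap I)).toReal) := by
    have h : Measurable fun I : Fin (m + 2) → P m => volume (cap I) :=
      measurable_measure_prodMk_left Lim.measurableSet_capset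
    exact (measurable_psi.mul measurable_psi).mul
      (Real.measurable_exp.comp h.ennreal_toReal.neg)
  have hnn : 0 ≤ᵐ[volume.restrict (Set.univ.pi fun _ : Fin (m + 2) => W m)]
      fun I : Fin (m + 2) → P m => psi I * psi I * Real.exp (-(volume (cap I)).toReal) :=
    Filter.Eventually.of_forall fun I =>
      mul_nonneg (mul_self_nonneg _) (Real.exp_pos _).le
  have hint : IntegrableOn (fun I : Fin (m + 2) → P m => psi I * psi I *
      Real.exp (-(volume (cap I)).toReal)) (Set.univ.pi fun _ : Fin (m + 2) => W m) := by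
    refine (lintegral_ofReal_ne_top_iff_integrable hm.aestronglyMeasurable hnn).mp ?_
    rw [← e1]
    exact h
  refine ⟨Integrable.congr hint (ae_restrict_of_ae one_ae2), ?_⟩
  unfold j0
  rw [← integral_congr_ae (ae_restrict_of_ae one_ae2),
    integral_eq_lintegral_of_nonneg_ae hnn hm.aestronglyMeasurable, ← e1]

theorem pair_eq (t : ℕ) (h1 : 1 ≤ t) (h2 : t ≤ m + 2) (h : J2 m t univ ≠ ∞) :
    IntegrableOn (fun Y : Fin (m + 2 + t) → P m => psi (fst' t Y) * psi (lst' t Y) *
      Real.exp (-(capVol (fst' t Y) + capVol (lst' t Y) - capInt (fst' t Y) (lst' t Y))))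
      (dom2 m t) ∧ j2 m t = (J2 m t univ).toReal := by
  have hnn : 0 ≤ᵐ[volume.restrict (dom2 m t)]
      fun Y : Fin (m + 2 + t) → P m => psi (fst' t Y) * psi (lst' t Y) *
        Real.exp (-(volume (cap (fst' t Y) ∪ cap (lst' t Y))).toReal) :=
    Filter.Eventually.of_forall fun Y => mul_nonneg
      (mul_nonneg (Lim.psi_nonneg _) (Lim.psi_nonneg _)) (Real.exp_pos _).le
  have e1 : J2 m t univ = ∫⁻ Y in dom2 m t,
      ENNReal.ofReal (psi (fst' t Y) * psi (lst' t Y) *
        Real.exp (-(volume (cap (fst' t Y) ∪ cap (lst' t Y))).toReal)) := by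
    unfold J2
    rw [dom_eq]
  have hint : IntegrableOn (fun Y : Fin (m + 2 + t) → P m => psi (fst' t Y) * psi (lst' t Y) *
        Real.exp (-(volume (cap (fst' t Y) ∪ cap (lst' t Y))).toReal)) (dom2 m t) := by
    refine (lintegral_ofReal_ne_top_iff_integrable
      (measurable_f2 t).aestronglyMeasurable hnn).mp ?_
    rw [← e1]
    exact h
  refine ⟨Integrable.congr hint (ae_restrict_of_ae (two_ae t h1 h2)), ?_⟩
  unfold j2
  rw [← integral_congr_ae (ae_restrict_of_ae (two_ae t h1 h2)),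
    integral_eq_lintegral_of_nonneg_ae hnn (measurable_f2 t).aestronglyMeasurable, ← e1]

theorem two_eq (h : M2 m univ ≠ ∞) :
    IntegrableOn (fun I : Fin (m + 2) → P m => psi I ^ 2 * Real.exp (-capVol I))
      (Set.univ.pi fun _ : Fin (m + 2) => W m) ∧
    (∀ t, 1 ≤ t → t ≤ m + 2 → IntegrableOn (fun Y : Fin (m + 2 + t) → P m =>
      psi (fst' t Y) * psi (lst' t Y) *
      Real.exp (-(capVol (fst' t Y) + capVol (lst' t Y) - capInt (fst' t Y) (lst' t Y))))
      (dom2 m t)) ∧ m2 m = (M2 m univ).toReal := by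
  obtain ⟨z1, z2⟩ := zero_eq (J2_ne_top h 0 (by omega))
  refine ⟨z1, fun t h1 h2 => (pair_eq t h1 h2 (J2_ne_top h t h2)).1, ?_⟩
  have hterm : ∀ t ∈ Finset.range (m + 3),
      J2 m t univ / ((m + 2 - t).factorial * (t.factorial) ^ 2) ≠ ∞ := by
    intro t ht
    exact ENNReal.sum_ne_top.mp h t ht
  unfold m2 M2
  rw [ENNReal.toReal_sum hterm]
  have hsplit : Finset.range (m + 3) = insert 0 (Finset.Icc 1 (m + 2)) := by
    ext x
    simp only [Finset.mem_range, Finset.mem_insert, Finset.mem_Icc]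
    omega
  rw [hsplit, Finset.sum_insert (by simp)]
  congr 1
  · rw [z2, ENNReal.toReal_div]
    congr 1
    simp
  · refine Finset.sum_congr rfl fun t ht => ?_
    obtain ⟨h1, h2⟩ := Finset.mem_Icc.1 ht
    rw [ENNReal.toReal_div, (pair_eq t h1 h2 (J2_ne_top h t h2)).2]
    congr 1

/-- The uniform laws correspond. -/
theorem unifE_map (n : ℕ) : (unifE n).map (WithLp.ofLp : EuclideanSpace ℝ (Fin n) → Fin n → ℝ) =
    unif n := by
  have h1 : MeasurePreserving (WithLp.ofLp : EuclideanSpace ℝ (Fin n) → Fin n → ℝ)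
      volume volume := PiLp.volume_preserving_ofLp (Fin n)
  have h2 := h1.restrict_preimage (s := cube n) measurableSet_Icc
  have h3 : (WithLp.ofLp : EuclideanSpace ℝ (Fin n) → Fin n → ℝ) ⁻¹' cube n =
      {x | ∀ i, 0 ≤ x i ∧ x i ≤ 1} := by
    ext x
    constructor
    · intro hx i
      exact ⟨hx.1 i, hx.2 i⟩
    · intro hx
      exact ⟨fun i => (hx i).1, fun i => (hx i).2⟩
  rw [h3] at h2
  exact h2.map_eq

theorem surfE_eq {m N : ℕ} (p : ℕ → EuclideanSpace ℝ (Fin (m + 2))) :
    surfE (convexHull ℝ {x | ∃ i < N, p i = x}) =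
      surf (convexHull ℝ (range fun i : Fin N => (WithLp.ofLp (p i) : P m))) := by
  unfold surfE surf
  have h1 : (WithLp.toLp 2 : P m → EuclideanSpace ℝ (Fin (m + 2))) ''
      (convexHull ℝ (range fun i : Fin N => (WithLp.ofLp (p i) : P m))) =
      convexHull ℝ {x | ∃ i < N, p i = x} := by
    have h2 : (WithLp.toLp 2 : P m → EuclideanSpace ℝ (Fin (m + 2))) =
        ((WithLp.linearEquiv 2 ℝ (P m)).symm : P m →ₗ[ℝ] EuclideanSpace ℝ (Fin (m + 2))) := rfl
    rw [h2, LinearMap.image_convexHull, ← range_comp]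
    congr 1
    ext x
    constructor
    · rintro ⟨i, rfl⟩
      exact ⟨i, i.2, rfl⟩
    · rintro ⟨i, hi, rfl⟩
      exact ⟨⟨i, hi⟩, rfl⟩
  rw [h1]
  rfl

theorem law_map {m : ℕ} {Ω : Type*} [MeasurableSpace Ω] (μ : Measure Ω) [IsProbabilityMeasure μ]
    (p : ℕ → Ω → EuclideanSpace ℝ (Fin (m + 2))) (hp : ∀ i, Measurable (p i))
    (hind : iIndepFun p μ) (hlaw : ∀ i, μ.map (p i) = unifE (m + 2)) (N : ℕ) :
    μ.map (fun ω => fun i : Fin N => (WithLp.ofLp (p i ω) : P m)) = law m N := by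
  have hof : Measurable (WithLp.ofLp : EuclideanSpace ℝ (Fin (m + 2)) → P m) :=
    (PiLp.volume_preserving_ofLp (Fin (m + 2))).measurable
  have h1 : iIndepFun (fun i : Fin N => fun ω => (WithLp.ofLp (p i ω) : P m)) μ :=
    (hind.precomp (g := fun i : Fin N => (i : ℕ)) Fin.val_injective).comp
      (fun _ => (WithLp.ofLp : EuclideanSpace ℝ (Fin (m + 2)) → P m)) (fun _ => hof)
  have h2 : μ.map (fun ω => fun i : Fin N => (WithLp.ofLp (p i ω) : P m)) =
      Measure.pi fun i : Fin N => μ.map (fun ω => (WithLp.ofLp (p i ω) : P m)) :=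
    (iIndepFun_iff_map_fun_eq_pi_map
      (fun i : Fin N => (hof.comp (hp i)).aemeasurable)).mp h1
  rw [h2, law]
  congr 1
  funext i
  have h3 : μ.map (fun ω => (WithLp.ofLp (p i ω) : P m)) =
      (μ.map (p i)).map (WithLp.ofLp : EuclideanSpace ℝ (Fin (m + 2)) → P m) :=
    (Measure.map_map hof (hp i)).symm
  rw [h3, hlaw, unifE_map]

end Fnl

open Fnl in
/-- Main theorem. -/
theorem final (m : ℕ) :
    IntegrableOn (fun I : Fin (m + 2) → P m => psi I * Real.exp (-capVol I))
      (Set.univ.pi fun _ : Fin (m + 2) => W m) ∧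
    IntegrableOn (fun I : Fin (m + 2) → P m => psi I ^ 2 * Real.exp (-capVol I))
      (Set.univ.pi fun _ : Fin (m + 2) => W m) ∧
    (∀ t, 1 ≤ t → t ≤ m + 2 → IntegrableOn (fun Y : Fin (m + 2 + t) → P m =>
      psi (fst' t Y) * psi (lst' t Y) *
      Real.exp (-(capVol (fst' t Y) + capVol (lst' t Y) - capInt (fst' t Y) (lst' t Y))))
      (dom2 m t)) ∧
    0 < cn m ∧
    ∀ (Ω : Type*) [MeasurableSpace Ω] (μ : Measure Ω) [IsProbabilityMeasure μ]
      (p : ℕ → Ω → EuclideanSpace ℝ (Fin (m + 2))), (∀ i, Measurable (p i)) →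
      iIndepFun p μ → (∀ i, μ.map (p i) = unifE (m + 2)) →
      (∀ N : ℕ, m + 3 ≤ N →
        MemLp (fun ω => surfE (convexHull ℝ {x | ∃ i < N, p i ω = x})) 2 μ) ∧
      Tendsto (fun N : ℕ => (N : ℝ) * variance
        (fun ω => surfE (convexHull ℝ {x | ∃ i < N, p i ω = x})) μ) atTop (𝓝 (cn m)) := by
  obtain ⟨h1, h2, h3, h4⟩ := main m
  obtain ⟨i1, e1⟩ := one_eq h1
  obtain ⟨i0, i2, e2⟩ := two_eq h2
  have hc : cn m = cst m := by unfold cn cst; rw [e1, e2]
  refine ⟨i1, i0, i2, hc ▸ h3, ?_⟩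
  intro Ω _ μ _ p hp hind hlaw
  rw [hc]
  have hof : Measurable (WithLp.ofLp : EuclideanSpace ℝ (Fin (m + 2)) → P m) :=
    (PiLp.volume_preserving_ofLp (Fin (m + 2))).measurable
  have hX : ∀ N : ℕ, Measurable (fun ω => fun i : Fin N => (WithLp.ofLp (p i ω) : P m)) :=
    fun N => measurable_pi_lambda _ fun i => hof.comp (hp i)
  have hS : ∀ N : ℕ, (fun ω => surfE (convexHull ℝ {x | ∃ i < N, p i ω = x})) =
      (fun X : Fin N → P m => surf (convexHull ℝ (range X))) ∘
        (fun ω => fun i : Fin N => (WithLp.ofLp (p i ω) : P m)) := by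
    intro N
    funext ω
    exact surfE_eq (N := N) fun i => p i ω
  constructor
  · intro N hN
    rw [hS N]
    have h5 := memLp_surf_hull m N hN 2
    rw [← law_map μ p hp hind hlaw N] at h5
    exact h5.comp_of_map (hX N).aemeasurable
  · refine h4.congr' ?_
    filter_upwards [eventually_ge_atTop (m + 3)] with N hN
    congr 1
    rw [hS N, ← law_map μ p hp hind hlaw N, variance_map]
    · rw [law_map μ p hp hind hlaw N]
      exact aemeasurable_surf_hull m N hN
    · exact (hX N).aemeasurable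

end Pool.Agent.B05
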