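import Pool.Agent.Lib.MP_b05ae9_pr.Area

/-! # MP_b05ae9_pr, task D1, part 1: boundary of the hull of points in general position -/

set_option autoImplicit false

open MeasureTheory Set Filter Topology
open scoped ENNReal MeasureTheory

namespace Pool.Agent.B05

namespace SurfHull

/-- the matrix of `F` -/
def mat {m : ℕ} (I : Fin (m + 2) → P m) (q : P m) : Matrix (Fin (m + 3)) (Fin (m + 3)) ℝ :=
  Matrix.of fun i j : Fin (m + 3) =>
    (Fin.cons (1 : ℝ) ((Fin.cons q I : Fin (m + 3) → P m) i) : Fin (m + 3) → ℝ) j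

theorem F_eq_det {m : ℕ} (I : Fin (m + 2) → P m) (q : P m) : F I q = (mat I q).det := rfl

theorem cf_eq_minor {m : ℕ} (I : Fin (m + 2) → P m) (q : P m) (k : Fin (m + 2)) :
    cf I k = (-1) ^ ((k : ℕ) + 1) *
      ((mat I q).submatrix Fin.succ (k.succ).succAbove).det := by
  rw [cf]
  congr 2
  ext i j
  refine Fin.cases ?_ (fun j => ?_) j
  · simp [mat]
  · simp [mat, pr, Fin.succ_succAbove_succ]

theorem F_aff {m : ℕ} (I : Fin (m + 2) → P m) : ∃ c, ∀ q, F I q = c + ∑ k, cf I k * q k := by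
  refine ⟨Matrix.det (Matrix.of fun i j => I i j), fun q => ?_⟩
  rw [F_eq_det, Matrix.det_succ_row_zero, Fin.sum_univ_succ]
  congr 1
  · have : (mat I q).submatrix Fin.succ (Fin.succAbove 0) = Matrix.of fun i j => I i j := by
      ext i j
      simp [mat]
    rw [this]
    simp [mat]
  · refine Finset.sum_congr rfl fun k _ => ?_
    rw [cf_eq_minor I q k]
    simp only [mat, Matrix.of_apply, Fin.cons_zero, Fin.cons_succ, Fin.val_succ]
    ring

/-- Cramer's rule for the functional vanishing on the points of `I`. -/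
theorem F_mul_eq {m : ℕ} (I : Fin (m + 2) → P m) (v : Fin (m + 2) → ℝ) (c : ℝ)
    (hv : ∀ i, ∑ k, v k * I i k = c) (q : P m) (k : Fin (m + 2)) :
    F I q * v k = (∑ l, v l * q l - c) * cf I k := by
  let w : Fin (m + 3) → ℝ := Fin.cons (-c) v
  have hAw : (mat I q).mulVec w = Pi.single 0 (∑ l, v l * q l - c) := by
    ext i
    refine Fin.cases ?_ (fun i => ?_) i
    · simp only [Matrix.mulVec, dotProduct, Fin.sum_univ_succ (n := m + 2), mat, w, Matrix.of_apply,
        Fin.cons_zero, Fin.cons_succ, Pi.single_eq_same]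
      rw [one_mul, neg_add_eq_sub]
      congr 1
      exact Finset.sum_congr rfl fun l _ => mul_comm _ _
    · simp only [Matrix.mulVec, dotProduct, Fin.sum_univ_succ (n := m + 2), mat, w, Matrix.of_apply,
        Fin.cons_zero, Fin.cons_succ]
      rw [Pi.single_eq_of_ne (Fin.succ_ne_zero i), one_mul, neg_add_eq_sub, sub_eq_zero, ← hv i]
      exact Finset.sum_congr rfl fun l _ => mul_comm _ _
  have h1 : (mat I q).adjugate.mulVec ((mat I q).mulVec w) = (mat I q).det • w := by
    rw [Matrix.mulVec_mulVec, Matrix.adjugate_mul, Matrix.smul_mulVec, Matrix.one_mulVec]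
  have h2 := congrFun h1 k.succ
  rw [hAw, Matrix.mulVec_single, Pi.smul_apply, Matrix.col_apply, op_smul_eq_mul,
    Matrix.adjugate_fin_succ_eq_det_submatrix] at h2
  have h3 : ((mat I q).det • w) k.succ = F I q * v k := by simp [w, F_eq_det]
  rw [h3] at h2
  rw [← h2, cf_eq_minor I q k]
  simp only [Fin.val_zero, Fin.val_succ, zero_add, Fin.succAbove_zero]
  ring

theorem F_self' {m : ℕ} (I : Fin (m + 2) → P m) (i : Fin (m + 2)) : F I (I i) = 0 := by
  rw [F_eq_det]
  refine Matrix.det_zero_of_row_eq (i := 0) (j := i.succ) (Fin.succ_ne_zero i).symm ?_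
  ext j
  simp [mat]

/-- `F` of a combination. -/
theorem F_comb {m N : ℕ} (I : Fin (m + 2) → P m) (X : Fin N → P m) (w : Fin N → ℝ)
    (hw : ∑ i, w i = 1) : F I (∑ i, w i • X i) = ∑ i, w i * F I (X i) := by
  obtain ⟨c, hc⟩ := F_aff I
  simp only [hc, mul_add, Finset.sum_add_distrib, ← Finset.sum_mul, hw, one_mul]
  congr 1
  simp only [Finset.sum_apply, Pi.smul_apply, smul_eq_mul, Finset.mul_sum]
  rw [Finset.sum_comm]
  refine Finset.sum_congr rfl fun i _ => Finset.sum_congr rfl fun k _ => ?_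
  ring

/-- points of the hull of finitely many points -/
theorem mem_hull {m N : ℕ} (X : Fin N → P m) (J : Finset (Fin N)) (x : P m) :
    x ∈ convexHull ℝ (X '' (J : Set (Fin N))) ↔
      ∃ w : Fin N → ℝ, (∀ i, 0 ≤ w i) ∧ (∀ i ∉ J, w i = 0) ∧ ∑ i, w i = 1 ∧
        ∑ i, w i • X i = x := by
  constructor
  · intro hx
    have : convexHull ℝ (X '' (J : Set (Fin N))) ⊆ {x | ∃ w : Fin N → ℝ, (∀ i, 0 ≤ w i) ∧
        (∀ i ∉ J, w i = 0) ∧ ∑ i, w i = 1 ∧ ∑ i, w i • X i = x} := by
      refine convexHull_min ?_ ?_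
      · rintro _ ⟨i, hi, rfl⟩
        refine ⟨Pi.single i 1, fun j => ?_, fun j hj => ?_, ?_, ?_⟩
        · by_cases h : j = i
          · subst h; simp
          · simp [Pi.single_eq_of_ne h]
        · have : j ≠ i := fun h => hj (h ▸ hi)
          simp [Pi.single_eq_of_ne this]
        · simp
        · rw [Finset.sum_eq_single i]
          · simp
          · intro j _ hj
            simp [Pi.single_eq_of_ne hj]
          · simp
      · rintro y ⟨w, h1, h2, h3, rfl⟩ z ⟨w', h1', h2', h3', rfl⟩ a b ha hb hab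
        refine ⟨fun i => a * w i + b * w' i, fun i => ?_, fun i hi => ?_, ?_, ?_⟩
        · exact add_nonneg (mul_nonneg ha (h1 i)) (mul_nonneg hb (h1' i))
        · simp [h2 i hi, h2' i hi]
        · rw [Finset.sum_add_distrib, ← Finset.mul_sum, ← Finset.mul_sum, h3, h3', mul_one,
            mul_one, hab]
        · simp only [add_smul, mul_smul, Finset.sum_add_distrib, ← Finset.smul_sum]
    exact this hx
  · rintro ⟨w, h1, h2, h3, rfl⟩
    have e1 : ∑ i, w i = ∑ i ∈ J, w i := by
      rw [← Finset.sum_subset (Finset.subset_univ J)]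
      intro i _ hi
      exact h2 i hi
    have e2 : ∑ i, w i • X i = ∑ i ∈ J, w i • X i := by
      rw [← Finset.sum_subset (Finset.subset_univ J)]
      intro i _ hi
      simp [h2 i hi]
    rw [e2]
    refine (convex_convexHull ℝ _).sum_mem (fun i _ => h1 i) (by rw [← e1, h3]) fun i hi => ?_
    exact subset_convexHull ℝ _ ⟨i, hi, rfl⟩

/-- faces -/
theorem mem_face {m N : ℕ} (X : Fin N → P m) (J : Finset (Fin N)) (f : P m → ℝ)
    (hf : ∀ w : Fin N → ℝ, ∑ i, w i = 1 → f (∑ i, w i • X i) = ∑ i, w i * f (X i))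
    (hle : ∀ i ∈ J, f (X i) ≤ 0) (x : P m) (hx : x ∈ convexHull ℝ (X '' (J : Set (Fin N))))
    (hfx : 0 ≤ f x) (J' : Finset (Fin N)) (hJ' : ∀ i ∈ J, f (X i) = 0 → i ∈ J') :
    x ∈ convexHull ℝ (X '' (J' : Set (Fin N))) := by
  obtain ⟨w, h1, h2, h3, rfl⟩ := (mem_hull X J x).1 hx
  rw [hf w h3] at hfx
  have hle' : ∀ i ∈ Finset.univ, w i * f (X i) ≤ 0 := by
    intro i _
    by_cases hi : i ∈ J
    · exact mul_nonpos_of_nonneg_of_nonpos (h1 i) (hle i hi)
    · simp [h2 i hi]
  have h0 := (Finset.sum_eq_zero_iff_of_nonpos hle').1 (le_antisymm (Finset.sum_nonpos hle') hfx)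
  refine (mem_hull X J' _).2 ⟨w, h1, fun i hi => ?_, h3, rfl⟩
  by_contra hw
  have hiJ : i ∈ J := by
    by_contra h
    exact hw (h2 i h)
  have := h0 i (Finset.mem_univ i)
  rcases mul_eq_zero.1 this with h | h
  · exact hw h
  · exact hi (hJ' i hiJ h)

/-- the index set of a tuple -/
theorem image_range {m N : ℕ} (X : Fin N → P m) (ι : Fin (m + 2) → Fin N) :
    X '' ((Finset.univ.image ι : Finset (Fin N)) : Set (Fin N)) = range (X ∘ ι) := by
  rw [Finset.coe_image, Finset.coe_univ, image_univ, ← range_comp]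

theorem card_image {m N : ℕ} {ι : Fin (m + 2) → Fin N} (hι : StrictMono ι) :
    (Finset.univ.image ι : Finset (Fin N)).card = m + 2 := by
  rw [Finset.card_image_of_injective _ hι.injective, Finset.card_univ, Fintype.card_fin]

theorem exists_tuple {m N : ℕ} (J : Finset (Fin N)) (hJ : J.card = m + 2) :
    ∃ ι : Fin (m + 2) → Fin N, StrictMono ι ∧ (Finset.univ.image ι : Finset (Fin N)) = J := by
  refine ⟨J.orderEmbOfFin hJ, (J.orderEmbOfFin hJ).strictMono, ?_⟩
  exact Finset.image_orderEmbOfFin_univ J hJ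

theorem F_zero_of_mem {m N : ℕ} (X : Fin N → P m) (ι : Fin (m + 2) → Fin N)
    (J : Finset (Fin N)) (hJ : J ⊆ Finset.univ.image ι) (x : P m)
    (hx : x ∈ convexHull ℝ (X '' (J : Set (Fin N)))) : F (X ∘ ι) x = 0 := by
  obtain ⟨w, h1, h2, h3, rfl⟩ := (mem_hull X J x).1 hx
  rw [F_comb _ _ _ h3]
  refine Finset.sum_eq_zero fun i _ => ?_
  by_cases hi : i ∈ J
  · obtain ⟨l, -, rfl⟩ := Finset.mem_image.1 (hJ hi)
    have : F (X ∘ ι) (X (ι l)) = 0 := F_self' (X ∘ ι) l
    rw [this, mul_zero]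
  · rw [h2 i hi, zero_mul]

/-- volume of a hull of few points in `ℝ^d` -/
theorem volume_hull_few {d : ℕ} {α : Type*} (Y : α → (Fin (d + 1) → ℝ)) (J : Finset α)
    (hJ : J.card ≤ d + 1) : volume (convexHull ℝ (Y '' (J : Set α))) = 0 := by
  classical
  rcases J.eq_empty_or_nonempty with rfl | hne
  · simp
  refine measure_mono_null (convexHull_subset_affineSpan _) ?_
  refine Measure.addHaar_affineSubspace volume _ fun htop => ?_
  have h1 : vectorSpan ℝ (Y '' (J : Set α)) = ⊤ := by
    rw [← direction_affineSpan, htop, AffineSubspace.direction_top]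
  obtain ⟨n, hn⟩ : ∃ n, J.card = n + 1 := ⟨J.card - 1, by have := hne.card_pos; omega⟩
  have h2 := finrank_vectorSpan_image_finset_le ℝ Y J hn
  rw [Finset.coe_image, h1, finrank_top, Module.finrank_fin_fun] at h2
  omega

/-- `pr` as a linear map -/
def prL {m : ℕ} (k : Fin (m + 2)) : P m →ₗ[ℝ] (Fin (m + 1) → ℝ) where
  toFun := pr k
  map_add' _ _ := rfl
  map_smul' _ _ := rfl

theorem area_hull_few {m N : ℕ} (hN : m + 2 ≤ N) (X : Fin N → P m) (hX : GP X)
    (J : Finset (Fin N)) (hJ : J.card ≤ m + 1) :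
    (μHE[m + 1] : Measure (EuclideanSpace ℝ (Fin (m + 2))))
      ((WithLp.toLp 2 : P m → EuclideanSpace ℝ (Fin (m + 2))) ''
        convexHull ℝ (X '' (J : Set (Fin N)))) = 0 := by
  obtain ⟨J', hJJ', hJ'⟩ := Finset.exists_superset_card_eq (s := J) (n := m + 2) (by omega)
    (by simpa using hN)
  obtain ⟨ι, hι, hιJ⟩ := exists_tuple J' hJ'
  rw [area_formula (X ∘ ι) 0 ((hX.2 ι hι.injective).1 0) _
    (fun q hq => F_zero_of_mem X ι J (hιJ ▸ hJJ') q hq)]
  have : pr 0 '' convexHull ℝ (X '' (J : Set (Fin N))) =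
      convexHull ℝ ((pr 0 ∘ X) '' (J : Set (Fin N))) := by
    have := (prL (m := m) 0).image_convexHull (X '' (J : Set (Fin N)))
    rw [image_comp]
    exact this
  rw [this, volume_hull_few _ _ hJ, mul_zero]

theorem interior_nonempty {m N : ℕ} (hN : m + 3 ≤ N) (X : Fin N → P m) (hX : GP X) :
    (interior (convexHull ℝ (range X))).Nonempty := by
  rw [interior_convexHull_nonempty_iff_affineSpan_eq_top]
  let ι : Fin (m + 2) → Fin N := Fin.castLE (by omega)
  let r : Fin N := ⟨m + 2, by omega⟩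
  have hι : StrictMono ι := Fin.strictMono_castLE _
  have hr : r ∉ range ι := by
    rintro ⟨l, hl⟩
    have := congrArg Fin.val hl
    simp only [ι, r, Fin.val_castLE] at this
    have := l.2
    omega
  have hdet : (mat (X ∘ ι) (X r)).det ≠ 0 := hX.1 ι hι.injective r hr
  let p : Fin (m + 3) → P m := Fin.cons (X r) (X ∘ ι)
  have hp : AffineIndependent ℝ p := by
    rw [affineIndependent_iff]
    intro s w hs hw
    have h0 : (fun i => if i ∈ s then w i else 0) = 0 := by
      refine Matrix.eq_zero_of_vecMul_eq_zero hdet ?_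
      ext j
      refine Fin.cases ?_ (fun j => ?_) j
      · simp only [Matrix.vecMul, dotProduct, mat, Matrix.of_apply, Fin.cons_zero, mul_one,
          Pi.zero_apply]
        rw [Finset.sum_ite_mem, Finset.univ_inter]
        exact hs
      · simp only [Matrix.vecMul, dotProduct, mat, Matrix.of_apply, Fin.cons_succ,
          Pi.zero_apply, ite_mul, zero_mul]
        rw [Finset.sum_ite_mem, Finset.univ_inter]
        have := congrFun hw j
        simp only [Finset.sum_apply, Pi.smul_apply, smul_eq_mul, Pi.zero_apply] at this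
        exact this
    intro e he
    have := congrFun h0 e
    simpa [he] using this
  have htop : affineSpan ℝ (range p) = ⊤ := by
    rw [hp.affineSpan_eq_top_iff_card_eq_finrank_add_one]
    simp
  rw [eq_top_iff, ← htop]
  refine affineSpan_mono ℝ ?_
  rintro _ ⟨i, rfl⟩
  refine Fin.cases ?_ (fun i => ?_) i
  · exact ⟨r, rfl⟩
  · exact ⟨ι i, rfl⟩

theorem exists_support {m N : ℕ} (hN : m + 3 ≤ N) (X : Fin N → P m) (hX : GP X) (x : P m)
    (hx : x ∈ frontier (convexHull ℝ (range X))) :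
    ∃ (v : Fin (m + 2) → ℝ) (k : Fin (m + 2)), v k ≠ 0 ∧
      ∀ i, ∑ l, v l * X i l ≤ ∑ l, v l * x l := by
  have hK : Convex ℝ (convexHull ℝ (range X)) := convex_convexHull ℝ _
  obtain ⟨f, u, hf0, hf1, hf2⟩ := geometric_hahn_banach_of_nonempty_interior hK
    (convex_singleton x) (by
      rw [disjoint_singleton_right]
      exact hx.2) (interior_nonempty hN X hX) (singleton_nonempty x)
  have hfs : ∀ q : P m, f q = ∑ l, f (Pi.single l 1) * q l := by
    intro q
    conv_lhs => rw [← Finset.univ_sum_single q]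
    rw [map_sum]
    refine Finset.sum_congr rfl fun l _ => ?_
    have : (Pi.single l (q l) : P m) = q l • Pi.single l (1 : ℝ) := by
      rw [← Pi.single_smul, smul_eq_mul, mul_one]
    rw [this, map_smul, smul_eq_mul, mul_comm]
  have hne : ∃ k, f (Pi.single k 1) ≠ 0 := by
    by_contra h
    push Not at h
    apply hf0
    ext q
    rw [hfs q]
    simp [h]
  obtain ⟨k, hk⟩ := hne
  refine ⟨fun l => f (Pi.single l 1), k, hk, fun i => ?_⟩
  rw [← hfs, ← hfs]
  exact (hf1 _ (subset_convexHull ℝ _ ⟨i, rfl⟩)).trans (hf2 x rfl)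

theorem frontier_sub {m N : ℕ} (hN : m + 3 ≤ N) (X : Fin N → P m) (hX : GP X) (x : P m)
    (hx : x ∈ frontier (convexHull ℝ (range X))) :
    (∃ ι : Fin (m + 2) → Fin N, StrictMono ι ∧ facet X ι ∧ x ∈ convexHull ℝ (range (X ∘ ι))) ∨
    (∃ J : Finset (Fin N), J.card ≤ m + 1 ∧ x ∈ convexHull ℝ (X '' (J : Set (Fin N)))) := by
  classical
  obtain ⟨v, k, hk, hv⟩ := exists_support hN X hX x hx
  set c := ∑ l, v l * x l with hc
  let f : P m → ℝ := fun q => ∑ l, v l * q l - c
  have hf : ∀ w : Fin N → ℝ, ∑ i, w i = 1 → f (∑ i, w i • X i) = ∑ i, w i * f (X i) := by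
    intro w hw
    simp only [f, mul_sub, Finset.sum_sub_distrib, ← Finset.sum_mul, hw, one_mul]
    congr 1
    simp only [Finset.sum_apply, Pi.smul_apply, smul_eq_mul, Finset.mul_sum]
    rw [Finset.sum_comm]
    refine Finset.sum_congr rfl fun i _ => Finset.sum_congr rfl fun k _ => ?_
    ring
  have hcl : IsCompact (convexHull ℝ (range X)) := (finite_range X).isCompact_convexHull ℝ
  have hxK : x ∈ convexHull ℝ (X '' ((Finset.univ : Finset (Fin N)) : Set (Fin N))) := by
    rw [Finset.coe_univ, image_univ]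
    exact hcl.isClosed.frontier_subset hx
  let J : Finset (Fin N) := Finset.univ.filter fun i => f (X i) = 0
  have hxJ : x ∈ convexHull ℝ (X '' (J : Set (Fin N))) := by
    refine mem_face X Finset.univ f hf (fun i _ => ?_) x hxK ?_ J (fun i _ hi => ?_)
    · exact sub_nonpos.2 (hv i)
    · simp [f, hc]
    · simp [J, hi]
  by_cases hJ : J.card ≤ m + 1
  · exact Or.inr ⟨J, hJ, hxJ⟩
  left
  obtain ⟨J', hJJ', hJ'⟩ := Finset.exists_subset_card_eq (s := J) (n := m + 2) (by omega)
  obtain ⟨ι, hι, hιJ⟩ := exists_tuple J' hJ'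
  have hkey : ∀ q, F (X ∘ ι) q * v k = f q * cf (X ∘ ι) k := by
    intro q
    refine F_mul_eq (X ∘ ι) v c (fun i => ?_) q k
    have h1 : ι i ∈ J := hJJ' (hιJ ▸ Finset.mem_image_of_mem ι (Finset.mem_univ i))
    have h2 : f (X (ι i)) = 0 := (Finset.mem_filter.1 h1).2
    exact sub_eq_zero.1 h2
  have hcf := (hX.2 ι hι.injective).1 k
  have hmem : ∀ j, j ∈ range ι ↔ j ∈ J' := by
    intro j
    rw [← hιJ]
    simp
  have hJeq : J ⊆ J' := by
    intro j hj
    by_contra hj'
    have h1 := hX.1 ι hι.injective j (by rw [hmem]; exact hj')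
    have h2 := hkey (X j)
    rw [(Finset.mem_filter.1 hj).2, zero_mul] at h2
    exact (mul_ne_zero h1 hk) h2
  refine ⟨ι, hι, ?_, ?_⟩
  · have hneg : ∀ j ∉ range ι, f (X j) < 0 := by
      intro j hj
      refine lt_of_le_of_ne (sub_nonpos.2 (hv j)) fun h => hj ?_
      rw [hmem]
      exact hJeq (Finset.mem_filter.2 ⟨Finset.mem_univ j, h⟩)
    rcases lt_or_gt_of_ne (mul_ne_zero hcf hk) with h | h
    · left
      intro j hj
      have h1 := hkey (X j)
      have h2 := hneg j hj
      have h3 : 0 < F (X ∘ ι) (X j) * v k ^ 2 := by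
        calc 0 < f (X j) * (cf (X ∘ ι) k * v k) := mul_pos_of_neg_of_neg h2 h
          _ = F (X ∘ ι) (X j) * v k ^ 2 := by rw [← mul_assoc, ← h1]; ring
      exact pos_of_mul_pos_left h3 (sq_nonneg _)
    · right
      intro j hj
      have h1 := hkey (X j)
      have h2 := hneg j hj
      have h3 : F (X ∘ ι) (X j) * v k ^ 2 < 0 := by
        calc F (X ∘ ι) (X j) * v k ^ 2 = f (X j) * (cf (X ∘ ι) k * v k) := by
              rw [← mul_assoc, ← h1]; ring
          _ < 0 := mul_neg_of_neg_of_pos h2 h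
      by_contra h4
      push Not at h4
      exact absurd h3 (not_lt.2 (mul_nonneg h4 (sq_nonneg _)))
  · rw [← image_range, hιJ]
    exact convexHull_mono (image_mono (by exact_mod_cast hJeq)) hxJ

/-- a facet functional, normalised -/
theorem facet_fun {m N : ℕ} (X : Fin N → P m) (ι : Fin (m + 2) → Fin N) (h : facet X ι) :
    ∃ s : ℝ, s ≠ 0 ∧ (∀ j, s * F (X ∘ ι) (X j) ≤ 0) ∧
      ∀ j, F (X ∘ ι) (X j) = 0 → j ∈ range ι := by
  rcases h with h | h
  · refine ⟨-1, by norm_num, fun j => ?_, fun j hj => ?_⟩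
    · by_cases hj : j ∈ range ι
      · obtain ⟨l, rfl⟩ := hj
        have : F (X ∘ ι) (X (ι l)) = 0 := F_self' (X ∘ ι) l
        rw [this, mul_zero]
      · have := h j hj
        linarith
    · by_contra hj'
      exact (h j hj').ne' hj
  · refine ⟨1, one_ne_zero, fun j => ?_, fun j hj => ?_⟩
    · by_cases hj : j ∈ range ι
      · obtain ⟨l, rfl⟩ := hj
        have : F (X ∘ ι) (X (ι l)) = 0 := F_self' (X ∘ ι) l
        rw [this, mul_zero]
      · have := h j hj
        linarith
    · by_contra hj'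
      exact (h j hj').ne hj

theorem facet_sub {m N : ℕ} (X : Fin N → P m) (hX : GP X) (ι : Fin (m + 2) → Fin N)
    (hι : StrictMono ι) (h : facet X ι) :
    convexHull ℝ (range (X ∘ ι)) ⊆ frontier (convexHull ℝ (range X)) := by
  intro x hx
  have hcl : IsCompact (convexHull ℝ (range X)) := (finite_range X).isCompact_convexHull ℝ
  have hxK : x ∈ convexHull ℝ (range X) := convexHull_mono (range_comp_subset_range ι X) hx
  rw [hcl.isClosed.frontier_eq]
  refine ⟨hxK, fun hint => ?_⟩
  obtain ⟨s, hs0, hs1, -⟩ := facet_fun X ι h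
  have hFx : F (X ∘ ι) x = 0 := by
    refine F_zero_of_mem X ι (Finset.univ.image ι) subset_rfl x ?_
    rw [image_range]
    exact hx
  have hFK : ∀ q ∈ convexHull ℝ (range X), s * F (X ∘ ι) q ≤ 0 := by
    intro q hq
    have hq' : q ∈ convexHull ℝ (X '' ((Finset.univ : Finset (Fin N)) : Set (Fin N))) := by
      rwa [Finset.coe_univ, image_univ]
    obtain ⟨w, h1, h2, h3, rfl⟩ := (mem_hull X _ q).1 hq'
    rw [F_comb _ _ _ h3, Finset.mul_sum]
    refine Finset.sum_nonpos fun i _ => ?_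
    have := mul_nonpos_of_nonneg_of_nonpos (h1 i) (hs1 i)
    linarith
  obtain ⟨c, hc⟩ := F_aff (X ∘ ι)
  have hcont : Filter.Tendsto (fun t : ℝ => x + t • (s • cf (X ∘ ι))) (𝓝 0) (𝓝 x) := by
    have : Continuous fun t : ℝ => x + t • (s • cf (X ∘ ι)) := by fun_prop
    have h := this.tendsto 0
    simpa using h
  have hev : ∀ᶠ t in 𝓝 (0 : ℝ), x + t • (s • cf (X ∘ ι)) ∈ convexHull ℝ (range X) :=
    hcont (mem_interior_iff_mem_nhds.1 hint)
  have hev' : ∀ᶠ t in 𝓝[>] (0 : ℝ), x + t • (s • cf (X ∘ ι)) ∈ convexHull ℝ (range X) :=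
    hev.filter_mono nhdsWithin_le_nhds
  obtain ⟨t, ht, ht0⟩ := (hev'.and self_mem_nhdsWithin).exists
  have ht0' : 0 < t := ht0
  have h1 := hFK _ ht
  have h2 : s * F (X ∘ ι) (x + t • (s • cf (X ∘ ι))) = t * (s ^ 2 * ∑ k, cf (X ∘ ι) k ^ 2) := by
    have e : F (X ∘ ι) (x + t • (s • cf (X ∘ ι))) = F (X ∘ ι) x +
        t * (s * ∑ k, cf (X ∘ ι) k ^ 2) := by
      rw [hc, hc]
      simp only [Pi.add_apply, Pi.smul_apply, smul_eq_mul, mul_add, Finset.sum_add_distrib,
        Finset.mul_sum]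
      rw [add_assoc]
      congr 2
      refine Finset.sum_congr rfl fun k _ => ?_
      ring
    rw [e, hFx]
    ring
  have h3 : 0 < ∑ k, cf (X ∘ ι) k ^ 2 := by
    refine Finset.sum_pos (fun k _ => ?_) ⟨0, Finset.mem_univ _⟩
    have := (hX.2 ι hι.injective).1 k
    positivity
  rw [h2] at h1
  have : 0 < t * (s ^ 2 * ∑ k, cf (X ∘ ι) k ^ 2) := by positivity
  linarith

theorem facet_inter {m N : ℕ} (hN : m + 2 ≤ N) (X : Fin N → P m) (hX : GP X)
    (ι κ : Fin (m + 2) → Fin N) (hι : StrictMono ι) (hκ : StrictMono κ) (hne : ι ≠ κ)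
    (h : facet X ι) :
    (μHE[m + 1] : Measure (EuclideanSpace ℝ (Fin (m + 2))))
      ((WithLp.toLp 2 : P m → EuclideanSpace ℝ (Fin (m + 2))) ''
        (convexHull ℝ (range (X ∘ ι)) ∩ convexHull ℝ (range (X ∘ κ)))) = 0 := by
  classical
  obtain ⟨s, hs0, hs1, hs2⟩ := facet_fun X ι h
  let J : Finset (Fin N) := Finset.univ.image ι ∩ Finset.univ.image κ
  have hJ : J.card ≤ m + 1 := by
    by_contra hc
    push Not at hc
    have h1 : J = Finset.univ.image ι := by
      refine Finset.eq_of_subset_of_card_le Finset.inter_subset_left ?_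
      rw [card_image hι]
      omega
    have h2 : J = Finset.univ.image κ := by
      refine Finset.eq_of_subset_of_card_le Finset.inter_subset_right ?_
      rw [card_image hκ]
      omega
    apply hne
    have h3 : range ι = range κ := by
      have := h1.symm.trans h2
      have h4 := congrArg (fun s : Finset (Fin N) => (s : Set (Fin N))) this
      simpa using h4
    exact (StrictMono.range_inj hι hκ).1 h3
  refine measure_mono_null (image_mono ?_) (area_hull_few hN X hX J hJ)
  rintro x ⟨hx1, hx2⟩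
  have hFx : F (X ∘ ι) x = 0 := by
    refine F_zero_of_mem X ι (Finset.univ.image ι) subset_rfl x ?_
    rw [image_range]
    exact hx1
  rw [← image_range] at hx2
  refine mem_face X (Finset.univ.image κ) (fun q => s * F (X ∘ ι) q) (fun w hw => ?_)
    (fun i _ => hs1 i) x hx2 (by rw [hFx, mul_zero]) J (fun i hi hi0 => ?_)
  · rw [F_comb _ _ _ hw, Finset.mul_sum]
    exact Finset.sum_congr rfl fun i _ => by ring
  · have hi1 : F (X ∘ ι) (X i) = 0 := by
      rcases mul_eq_zero.1 hi0 with h | h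
      · exact absurd h hs0
      · exact h
    obtain ⟨l, rfl⟩ := hs2 i hi1
    exact Finset.mem_inter.2 ⟨Finset.mem_image_of_mem ι (Finset.mem_univ l), hi⟩

end SurfHull

end Pool.Agent.B05
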