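import Pool.Agent.Lib.MP_b05ae9_pr.Scaling

/-!
# MP_b05ae9_pr: pointwise facts for the limits (tasks J)
-/

set_option autoImplicit false

open MeasureTheory Set Filter Topology
open scoped ENNReal MeasureTheory

namespace Pool.Agent.B05

namespace Lim

variable {m : ℕ}

theorem F_update (I : Fin (m + 2) → P m) (q : P m) (k : Fin (m + 2)) (x : ℝ) :
    F I (Function.update q k x) = F I q + cf I k * (x - q k) := by
  rw [F_affine, F_affine]
  have h : ∑ l, cf I l * (Function.update q k x) l =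
      (∑ l, cf I l * q l) + cf I k * (x - q k) := by
    rw [← Finset.add_sum_erase _ _ (Finset.mem_univ k),
      ← Finset.add_sum_erase (a := k) (f := fun l => cf I l * q l) _ (Finset.mem_univ k)]
    have : ∑ l ∈ Finset.univ.erase k, cf I l * (Function.update q k x) l =
        ∑ l ∈ Finset.univ.erase k, cf I l * q l := by
      refine Finset.sum_congr rfl fun l hl => ?_
      rw [Function.update_of_ne (Finset.ne_of_mem_erase hl)]
    rw [this, Function.update_self]
    ring
  rw [h]; ring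

theorem zero_ne_one' : (0 : Fin (m + 2)) ≠ 1 := by
  simp [Fin.ext_iff]

theorem ss_ne_zero (l : Fin m) : l.succ.succ ≠ (0 : Fin (m + 2)) := Fin.succ_ne_zero _

theorem ss_ne_one (l : Fin m) : l.succ.succ ≠ (1 : Fin (m + 2)) := by
  simp [Fin.ext_iff]

theorem mem_W {q : P m} : q ∈ W m ↔ 0 ≤ q 0 ∧ 0 ≤ q 1 ∧
    ∀ l : Fin m, 0 ≤ q l.succ.succ ∧ q l.succ.succ ≤ 1 := Iff.rfl

theorem mem_fitR {R : ℝ} {I : Fin (m + 2) → P m} :
    I ∈ fitR R ↔ ∀ q ∈ cap I, q 0 ≤ R ∧ q 1 ≤ R := Iff.rfl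

theorem mem_cap {I : Fin (m + 2) → P m} {q : P m} :
    q ∈ cap I ↔ q ∈ W m ∧ F I q * cf I 0 < 0 := Iff.rfl

theorem fit_iff {N : ℕ} {R : ℝ} (hR : 0 < R) (hN : R < √N) {I : Fin (m + 2) → P m}
    (hI : 0 < cf I 0 * cf I 1) :
    U (e0 m) (fun i => sc N (I i)) ⊆ win (e0 m) (R / √N) ↔ I ∈ fitR R := by
  have hs : (0 : ℝ) < √N := hR.trans hN
  have hN1 : 1 ≤ N := by
    rcases Nat.eq_zero_or_pos N with h | h
    · subst h; simp at hs
    · exact h
  rw [mem_fitR]
  constructor
  · intro h q hq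
    have hq' : (Function.update (Function.update q 0 (min (q 0) √N)) 1 (min (q 1) √N)) ∈ cap I ∧
      (Function.update (Function.update q 0 (min (q 0) √N)) 1 (min (q 1) √N)) ∈ QN m N := by
      have h0 : (Function.update (Function.update q 0 (min (q 0) √N)) 1 (min (q 1) √N)) 0 =
          min (q 0) √N := by
        rw [Function.update_of_ne zero_ne_one', Function.update_self]
      have h1 : (Function.update (Function.update q 0 (min (q 0) √N)) 1 (min (q 1) √N)) 1 =
          min (q 1) √N := Function.update_self _ _ _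
      have h2 : ∀ l : Fin m, (Function.update (Function.update q 0 (min (q 0) √N)) 1
          (min (q 1) √N)) l.succ.succ = q l.succ.succ := by
        intro l
        rw [Function.update_of_ne (ss_ne_one l), Function.update_of_ne (ss_ne_zero l)]
      have hmem : (Function.update (Function.update q 0 (min (q 0) √N)) 1 (min (q 1) √N)) ∈
          QN m N := by
        rw [mem_QN hN1, h0, h1]
        refine ⟨⟨le_min hq.1.1 hs.le, min_le_right _ _⟩, ⟨le_min hq.1.2.1 hs.le, min_le_right _ _⟩,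
          fun l => ?_⟩
        rw [h2 l]
        exact hq.1.2.2 l
      refine ⟨⟨QN_subset_W hN1 hmem, ?_⟩, hmem⟩
      rw [F_update, F_update, Function.update_of_ne zero_ne_one'.symm]
      have e1 : (F I q + cf I 0 * (min (q 0) √N - q 0) + cf I 1 * (min (q 1) √N - q 1)) * cf I 0 =
          F I q * cf I 0 - cf I 0 ^ 2 * (q 0 - min (q 0) √N) -
            (cf I 0 * cf I 1) * (q 1 - min (q 1) √N) := by ring
      rw [e1]
      have e2 : 0 ≤ cf I 0 ^ 2 * (q 0 - min (q 0) √N) :=
        mul_nonneg (sq_nonneg _) (sub_nonneg.2 (min_le_left _ _))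
      have e3 : 0 ≤ (cf I 0 * cf I 1) * (q 1 - min (q 1) √N) :=
        mul_nonneg hI.le (sub_nonneg.2 (min_le_left _ _))
      have := hq.2
      linarith
    have h3 := h ((sc_mem_U hN1).2 hq')
    rw [mem_win_e0] at h3
    obtain ⟨_, h4, h5⟩ := h3
    have h0 : sc N (Function.update (Function.update q 0 (min (q 0) √N)) 1 (min (q 1) √N)) 0 =
        (√N)⁻¹ * min (q 0) √N := by
      simp only [sc, dl_zero]
      rw [Function.update_of_ne zero_ne_one', Function.update_self]
    have h1 : sc N (Function.update (Function.update q 0 (min (q 0) √N)) 1 (min (q 1) √N)) 1 =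
        (√N)⁻¹ * min (q 1) √N := by
      simp only [sc, dl_one]
      rw [Function.update_self]
    rw [h0, inv_mul_eq_div, div_le_div_iff_of_pos_right hs] at h4
    rw [h1, inv_mul_eq_div, div_le_div_iff_of_pos_right hs] at h5
    constructor
    · rcases min_le_iff.1 h4 with h6 | h6
      · exact h6
      · linarith
    · rcases min_le_iff.1 h5 with h6 | h6
      · exact h6
      · linarith
  · intro h p hp
    have hp1 := hp.1
    obtain ⟨q, rfl⟩ : ∃ q, sc N q = p := by
      refine ⟨fun k => (dl m N k)⁻¹ * p k, ?_⟩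
      funext k
      simp only [sc]
      rw [mul_inv_cancel_left₀ (dl_pos hN1 k).ne']
    rw [sc_mem_U hN1] at hp
    have h1 := h q hp.1
    rw [mem_win_e0]
    refine ⟨hp1, ?_, ?_⟩
    · simp only [sc, dl_zero]
      rw [inv_mul_eq_div, div_le_div_iff_of_pos_right hs]; exact h1.1
    · simp only [sc, dl_one]
      rw [inv_mul_eq_div, div_le_div_iff_of_pos_right hs]; exact h1.2

/-- the points of a tuple whose cap is contained in the window of size `R` -/
theorem fitR_points {R : ℝ} (hR : 0 < R) {I : Fin (m + 2) → P m} (hI : 0 < cf I 0 * cf I 1)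
    (hf : I ∈ fitR R) {i : Fin (m + 2)} (hi : I i ∈ W m) : I i 0 ≤ R ∧ I i 1 ≤ R := by
  have hc0 : cf I 0 ≠ 0 := fun h => by rw [h] at hI; simp at hI
  constructor
  · by_contra hlt
    push Not at hlt
    have hmem : Function.update (I i) 0 ((R + I i 0) / 2) ∈ cap I := by
      refine ⟨⟨?_, ?_, fun l => ?_⟩, ?_⟩
      · rw [Function.update_self]; linarith
      · rw [Function.update_of_ne zero_ne_one'.symm]; exact hi.2.1
      · rw [Function.update_of_ne (ss_ne_zero l)]; exact hi.2.2 l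
      · rw [F_update, F_self, zero_add]
        have : cf I 0 * ((R + I i 0) / 2 - I i 0) * cf I 0 = - (cf I 0 ^ 2 * ((I i 0 - R) / 2)) := by
          ring
        rw [this]
        have : 0 < cf I 0 ^ 2 * ((I i 0 - R) / 2) := by
          have := pow_pos (abs_pos.2 hc0) 2
          rw [sq_abs] at this
          exact mul_pos this (by linarith)
        linarith
    have := (mem_fitR.1 hf _ hmem).1
    rw [Function.update_self] at this
    linarith
  · by_contra hlt
    push Not at hlt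
    have hmem : Function.update (I i) 1 ((R + I i 1) / 2) ∈ cap I := by
      refine ⟨⟨?_, ?_, fun l => ?_⟩, ?_⟩
      · rw [Function.update_of_ne zero_ne_one']; exact hi.1
      · rw [Function.update_self]; linarith
      · rw [Function.update_of_ne (ss_ne_one l)]; exact hi.2.2 l
      · rw [F_update, F_self, zero_add]
        have : cf I 1 * ((R + I i 1) / 2 - I i 1) * cf I 0 =
          - ((cf I 0 * cf I 1) * ((I i 1 - R) / 2)) := by ring
        rw [this]
        have : 0 < (cf I 0 * cf I 1) * ((I i 1 - R) / 2) := mul_pos hI (by linarith)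
        linarith
    have := (mem_fitR.1 hf _ hmem).2
    rw [Function.update_self] at this
    linarith

theorem sum_fin2 (f : Fin (m + 2) → ℝ) :
    ∑ k, f k = f 0 + f 1 + ∑ l : Fin m, f l.succ.succ := by
  rw [Fin.sum_univ_succ, Fin.sum_univ_succ, ← add_assoc]
  rfl

theorem sqrt_mul_phi {N : ℕ} (hN : 1 ≤ N) (I : Fin (m + 2) → P m) :
    √N * phi (fun i => sc N (I i)) =
      (|cf I 0| + |cf I 1| + (√N)⁻¹ * ∑ l : Fin m, |cf I l.succ.succ| -
        √(cf I 0 ^ 2 + cf I 1 ^ 2 + (N : ℝ)⁻¹ * ∑ l : Fin m, cf I l.succ.succ ^ 2)) /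
        (m + 1).factorial := by
  have hN0 : (0 : ℝ) < N := by exact_mod_cast hN
  have hs : (0 : ℝ) < √N := Real.sqrt_pos.2 hN0
  have hss : √(N : ℝ) * √N = N := Real.mul_self_sqrt hN0.le
  unfold phi nrm
  rw [sum_fin2, sum_fin2, cf_sc0 hN, cf_sc1 hN]
  simp only [cf_scss hN, abs_mul]
  rw [abs_of_pos (inv_pos.2 hs), abs_of_pos (inv_pos.2 hN0), ← Finset.mul_sum]
  rw [mul_div_assoc', mul_sub]
  congr 1
  congr 1
  · have h1 : √(N : ℝ) * (√N)⁻¹ = 1 := mul_inv_cancel₀ hs.ne'
    have h2 : √(N : ℝ) * (N : ℝ)⁻¹ = (√N)⁻¹ := by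
      rw [← div_eq_mul_inv, Real.sqrt_div_self]
    calc √(N : ℝ) * ((√N)⁻¹ * |cf I 0| + (√N)⁻¹ * |cf I 1| +
          (N : ℝ)⁻¹ * ∑ l : Fin m, |cf I l.succ.succ|) =
        (√(N : ℝ) * (√N)⁻¹) * |cf I 0| + (√(N : ℝ) * (√N)⁻¹) * |cf I 1| +
          (√(N : ℝ) * (N : ℝ)⁻¹) * ∑ l : Fin m, |cf I l.succ.succ| := by ring
      _ = _ := by rw [h1, h2]; ring
  · rw [← Real.sqrt_mul hN0.le]
    congr 1
    simp only [mul_pow]
    rw [← Finset.mul_sum]
    have h3 : ((√(N : ℝ))⁻¹) ^ 2 = (N : ℝ)⁻¹ := by rw [inv_pow, Real.sq_sqrt hN0.le]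
    rw [h3]
    field_simp

theorem sqrt_phi_le {N : ℕ} (I : Fin (m + 2) → P m) :
    √N * phi (fun i => sc N (I i)) ≤ ∑ k, |cf I k| := by
  rcases Nat.eq_zero_or_pos N with h | hN
  · subst h
    simp only [Nat.cast_zero, Real.sqrt_zero, zero_mul]
    exact Finset.sum_nonneg fun k _ => abs_nonneg _
  have hN0 : (0 : ℝ) < N := by exact_mod_cast hN
  have hs : (0 : ℝ) < √N := Real.sqrt_pos.2 hN0
  have h1s : 1 ≤ √(N : ℝ) := by
    rw [Real.one_le_sqrt]; exact_mod_cast hN
  calc √N * phi (fun i => sc N (I i)) ≤ √N * ∑ k, |cf (fun i => sc N (I i)) k| :=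
        mul_le_mul_of_nonneg_left (phi_le _) hs.le
    _ = ∑ k, √N * |cf (fun i => sc N (I i)) k| := Finset.mul_sum _ _ _
    _ ≤ ∑ k, |cf I k| := by
        refine Finset.sum_le_sum fun k _ => ?_
        rw [cf_sc hN, abs_mul, ← mul_assoc]
        refine mul_le_of_le_one_left (abs_nonneg _) ?_
        rw [abs_of_pos (div_pos (inv_pos.2 hN0) (dl_pos hN k))]
        rw [mul_div_assoc', div_le_one (dl_pos hN k)]
        have h2 : √(N : ℝ) * (N : ℝ)⁻¹ = (√N)⁻¹ := by
          rw [← div_eq_mul_inv, Real.sqrt_div_self]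
        rw [h2]
        unfold dl
        split_ifs
        · exact le_rfl
        · exact inv_le_one_of_one_le₀ h1s

theorem Dom_sc {N : ℕ} (hN : 1 ≤ N) (I : Fin (m + 2) → P m) :
    Dom (e0 m) (fun i => sc N (I i)) ↔ 0 < cf I 0 * cf I 1 ∧
      ∀ l : Fin m, |cf I l.succ.succ| < √N * |cf I 0| ∧ |cf I l.succ.succ| < √N * |cf I 1| := by
  have hN0 : (0 : ℝ) < N := by exact_mod_cast hN
  have hs : (0 : ℝ) < √N := Real.sqrt_pos.2 hN0
  have hss : √(N : ℝ) * √N = N := Real.mul_self_sqrt hN0.le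
  have key : ∀ a b : ℝ, (N : ℝ)⁻¹ * a < (√N)⁻¹ * b ↔ a < √N * b := by
    intro a b
    rw [inv_mul_lt_iff₀ hN0]
    have : (N : ℝ) * ((√N)⁻¹ * b) = √N * b := by
      nth_rewrite 1 [← hss]
      field_simp
    rw [this]
  unfold Dom
  simp only [e0, sg, Bool.false_eq_true, if_false]
  rw [forall_fin2]
  constructor
  · rintro ⟨h1, -, -, h2⟩
    constructor
    · rw [cf_sc0 hN, cf_sc1 hN] at h1
      have h3 : (-1 : ℝ) * -1 * ((√N)⁻¹ * cf I 0 * ((√N)⁻¹ * cf I 1)) =
        (√N)⁻¹ ^ 2 * (cf I 0 * cf I 1) := by ring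
      rw [h3] at h1
      exact (pos_iff_pos_of_mul_pos h1).1 (by positivity)
    · intro l
      have := h2 l (ss_ne_zero l) (ss_ne_one l)
      rw [cf_scss hN, cf_sc0 hN, cf_sc1 hN, abs_mul, abs_mul, abs_mul, abs_of_pos (inv_pos.2 hN0),
        abs_of_pos (inv_pos.2 hs), key, key] at this
      exact this
  · rintro ⟨h1, h2⟩
    refine ⟨?_, fun h => absurd rfl h, fun _ h => absurd rfl h, fun l _ _ => ?_⟩
    · rw [cf_sc0 hN, cf_sc1 hN]
      have h3 : (-1 : ℝ) * -1 * ((√N)⁻¹ * cf I 0 * ((√N)⁻¹ * cf I 1)) =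
        (√N)⁻¹ ^ 2 * (cf I 0 * cf I 1) := by ring
      rw [h3]
      positivity
    · rw [cf_scss hN, cf_sc0 hN, cf_sc1 hN, abs_mul, abs_mul, abs_mul, abs_of_pos (inv_pos.2 hN0),
        abs_of_pos (inv_pos.2 hs), key, key]
      exact h2 l

end Lim

end Pool.Agent.B05
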