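import Pool.Agent.Lib.MP_b05ae9_pr.LimB
import Pool.Agent.Lib.MP_b05ae9_pr.Moments

/-!
# MP_b05ae9_pr: limit of the first moment of the good part (task J1)
-/

set_option autoImplicit false

open MeasureTheory Set Filter Topology
open scoped ENNReal MeasureTheory

namespace Pool.Agent.B05

namespace Lim

variable {m : ℕ}

theorem ofReal_Sm {N : ℕ} {g : (Fin (m + 2) → P m) → ℝ} (hg : ∀ I, 0 ≤ g I)
    (V : (Fin (m + 2) → P m) → Set (P m)) (X : Fin N → P m) :
    ENNReal.ofReal (Sm g V X) = SmE (fun I => ENNReal.ofReal (g I)) V X := by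
  unfold Sm SmE
  rw [ENNReal.ofReal_sum_of_nonneg]
  · refine Finset.sum_congr rfl fun ι _ => ?_
    split_ifs
    · rfl
    · exact ENNReal.ofReal_zero
  · intro ι _
    split_ifs
    · exact hg _
    · exact le_rfl

theorem Sm_nonneg {N : ℕ} {g : (Fin (m + 2) → P m) → ℝ} (hg : ∀ I, 0 ≤ g I)
    (V : (Fin (m + 2) → P m) → Set (P m)) (X : Fin N → P m) : 0 ≤ Sm g V X := by
  unfold Sm
  refine Finset.sum_nonneg fun ι _ => ?_
  split_ifs
  · exact hg _
  · exact le_rfl

theorem isClosed_fitR (R : ℝ) : IsClosed (fitR R : Set (Fin (m + 2) → P m)) := by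
  have : (fitR R : Set (Fin (m + 2) → P m)) =
      ⋂ q ∈ {q : P m | q ∈ W m ∧ ¬ (q 0 ≤ R ∧ q 1 ≤ R)}, {I | 0 ≤ F I q * cf I 0} := by
    ext I
    rw [mem_fitR]
    simp only [mem_iInter, Set.mem_ofPred_eq]
    constructor
    · rintro h q ⟨hq1, hq2⟩
      by_contra h3
      push Not at h3
      exact hq2 (h q ⟨hq1, h3⟩)
    · intro h q hq
      by_contra h3
      exact absurd (h q ⟨hq.1, h3⟩) (not_le.2 hq.2)
  rw [this]
  refine isClosed_biInter fun q _ => isClosed_le continuous_const ?_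
  exact (continuous_F.comp (continuous_id.prodMk continuous_const)).mul (continuous_cf _)

theorem measurable_unif_compl {V : (Fin (m + 2) → P m) → Set (P m)}
    (hV : MeasurableSet {p : (Fin (m + 2) → P m) × P m | p.2 ∈ V p.1}) :
    Measurable (fun I : Fin (m + 2) → P m => unif (m + 2) (V I)ᶜ) :=
  measurable_measure_prodMk_left (ν := unif (m + 2)) hV.compl

theorem measurable_scI (N r : ℕ) : Measurable (fun (Y : Fin r → P m) i => sc N (Y i)) :=
  measurable_pi_lambda _ fun i => (measurable_sc N).comp (measurable_pi_apply i)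

theorem lintegral_pi_restrict {r : ℕ} {A B : Set (Fin r → P m)} (hA : MeasurableSet A)
    (hB : MeasurableSet B) (f g : (Fin r → P m) → ℝ≥0∞)
    (h : ∀ Y, A.indicator f Y = B.indicator g Y) :
    ∫⁻ Y in A, f Y = ∫⁻ Y in B, g Y := by
  rw [← lintegral_indicator hA, ← lintegral_indicator hB]
  exact lintegral_congr h

theorem measurableSet_piQN (N r : ℕ) :
    MeasurableSet (Set.pi univ (fun _ : Fin r => QN m N)) :=
  MeasurableSet.univ_pi fun _ => measurableSet_QN N

theorem measurableSet_piWR (R : ℝ) (r : ℕ) :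
    MeasurableSet (Set.pi univ (fun _ : Fin r => WR m R)) :=
  MeasurableSet.univ_pi fun _ => measurableSet_WR R

theorem measurableSet_piW (r : ℕ) :
    MeasurableSet (Set.pi univ (fun _ : Fin r => W m)) :=
  MeasurableSet.univ_pi fun _ => measurableSet_W

theorem isCompact_piWR (R : ℝ) (r : ℕ) :
    IsCompact (Set.pi univ (fun _ : Fin r => WR m R)) :=
  isCompact_univ_pi fun _ => isCompact_WR R

theorem mem_piWR_of_fit {R : ℝ} (hR : 0 < R) {I : Fin (m + 2) → P m}
    (hW : ∀ i, I i ∈ W m) (hc : 0 < cf I 0 * cf I 1) (hf : I ∈ fitR R) (i : Fin (m + 2)) :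
    I i ∈ WR m R := by
  have := fitR_points hR hc hf (hW i)
  rw [mem_WR]
  exact ⟨⟨(hW i).1, this.1⟩, ⟨(hW i).2.1, this.2⟩, (hW i).2.2⟩

theorem exists_bound (R : ℝ) : ∃ B : ℝ, 0 ≤ B ∧
    ∀ I ∈ Set.pi univ (fun _ : Fin (m + 2) => WR m R), ∑ k, |cf I k| ≤ B := by
  have hcont : Continuous (fun I : Fin (m + 2) → P m => ∑ k, |cf I k|) :=
    continuous_finsetSum _ fun k _ => (continuous_cf k).abs
  obtain ⟨B, hB⟩ := (isCompact_piWR (m := m) R (m + 2)).exists_bound_of_continuousOn
    hcont.continuousOn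
  refine ⟨max B 0, le_max_right _ _, fun I hI => ?_⟩
  exact ((le_abs_self _).trans (hB I hI)).trans (le_max_left _ _)

open Classical in
/-- limit of `√N gG` -/
noncomputable def hlim (R : ℝ) (I : Fin (m + 2) → P m) : ℝ := if I ∈ fitR R then psi I else 0

theorem hlim_nonneg (R : ℝ) (I : Fin (m + 2) → P m) : 0 ≤ hlim R I := by
  unfold hlim; split_ifs
  · exact psi_nonneg I
  · exact le_rfl

theorem tendsto_gG' {R : ℝ} (hR : 0 < R) (I : Fin (m + 2) → P m) :
    Tendsto (fun N : ℕ => ENNReal.ofReal (√N * gG (e0 m) (R / √N) (fun i => sc N (I i)))) atTop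
      (𝓝 (ENNReal.ofReal (hlim R I))) :=
  (ENNReal.continuous_ofReal.tendsto _).comp (tendsto_gG hR I)

/-- the integrand of the first moment -/
noncomputable def hN1 (R : ℝ) (N : ℕ) (I : Fin (m + 2) → P m) : ℝ≥0∞ :=
  ENNReal.ofReal (√N * gG (e0 m) (R / √N) (fun i => sc N (I i))) *
    (unif (m + 2) (U (e0 m) (fun i => sc N (I i)))ᶜ) ^ (N - (m + 2))

theorem measurable_hN1 (R : ℝ) (N : ℕ) : Measurable (hN1 R N : (Fin (m + 2) → P m) → ℝ≥0∞) := by
  unfold hN1
  refine Measurable.mul ?_ ?_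
  · exact (((measurable_gG _ _).comp (measurable_scI N (m + 2))).const_mul _).ennreal_ofReal
  · exact ((measurable_unif_compl (measurableSet_U (e0 m))).comp
      (measurable_scI N (m + 2))).pow_const _

theorem hN1_le (R : ℝ) (N : ℕ) (I : Fin (m + 2) → P m) :
    hN1 R N I ≤ ENNReal.ofReal (√N * gG (e0 m) (R / √N) (fun i => sc N (I i))) := by
  unfold hN1
  exact mul_le_of_le_one_right zero_le (pow_le_one₀ zero_le prob_le_one)

theorem tendsto_hN1 {R : ℝ} (hR : 0 < R) (I : Fin (m + 2) → P m) :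
    Tendsto (fun N : ℕ => hN1 R N I) atTop
      (𝓝 (ENNReal.ofReal (hlim R I) * ENNReal.ofReal (Real.exp (-(volume (cap I)).toReal)))) := by
  by_cases hf : I ∈ fitR R
  · refine ENNReal.Tendsto.mul (tendsto_gG' hR I) (Or.inr ENNReal.ofReal_ne_top) ?_
      (Or.inr ENNReal.ofReal_ne_top)
    have hev : ∀ᶠ N : ℕ in atTop,
        unif (m + 2) (U (e0 m) (fun i => sc N (I i))) =
          ENNReal.ofReal (N : ℝ)⁻¹ * volume (cap I) := by
      filter_upwards [eventually_ge_atTop 1, tendsto_sqrt.eventually_gt_atTop R] with N h1 h2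
      have := unif_U_union h1 h2.le hf hf
      rwa [union_self, union_self] at this
    have hfin : volume (cap I) ≠ ∞ := by
      have := volume_cap_union_lt_top hf hf
      rw [union_self] at this
      exact this.ne
    exact tendsto_unif_pow (fun N => measurableSet_U' _ _) hfin hev (m + 2)
  · have h0 : hlim R I = 0 := by unfold hlim; rw [if_neg hf]
    rw [h0, ENNReal.ofReal_zero, zero_mul]
    have h1 := tendsto_gG' hR I
    rw [h0, ENNReal.ofReal_zero] at h1
    exact tendsto_of_tendsto_of_tendsto_of_le_of_le tendsto_const_nhds h1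
      (fun N => zero_le) (fun N => hN1_le R N I)

theorem M1_eq {R : ℝ} (hR : 0 < R) :
    M1 m (fitR R) = (((m + 2).factorial : ℕ) : ℝ≥0∞)⁻¹ *
      ∫⁻ I in Set.pi univ (fun _ : Fin (m + 2) => WR m R),
        ENNReal.ofReal (hlim R I) * ENNReal.ofReal (Real.exp (-(volume (cap I)).toReal)) := by
  unfold M1
  rw [div_eq_mul_inv, mul_comm]
  congr 1
  refine lintegral_pi_restrict ((measurableSet_piW _).inter (isClosed_fitR R).measurableSet)
    (measurableSet_piWR R _) _ _ fun I => ?_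
  by_cases h1 : I ∈ (Set.pi univ (fun _ : Fin (m + 2) => W m)) ∩ fitR R
  · rw [indicator_of_mem h1]
    by_cases h2 : 0 < cf I 0 * cf I 1
    · have h3 : I ∈ Set.pi univ (fun _ : Fin (m + 2) => WR m R) := fun i _ =>
        mem_piWR_of_fit hR (fun i => h1.1 i (mem_univ i)) h2 h1.2 i
      rw [indicator_of_mem h3, hlim, if_pos h1.2, ENNReal.ofReal_mul (psi_nonneg I)]
    · have h4 : psi I = 0 := by unfold psi; rw [if_neg h2]
      have h5 : hlim R I = 0 := by unfold hlim; rw [if_pos h1.2, h4]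
      rw [h4, zero_mul, ENNReal.ofReal_zero]
      by_cases h3 : I ∈ Set.pi univ (fun _ : Fin (m + 2) => WR m R)
      · rw [indicator_of_mem h3, h5, ENNReal.ofReal_zero, zero_mul]
      · rw [indicator_of_notMem h3]
  · rw [indicator_of_notMem h1]
    by_cases h3 : I ∈ Set.pi univ (fun _ : Fin (m + 2) => WR m R)
    · rw [indicator_of_mem h3]
      have h4 : I ∉ fitR R := fun h => h1 ⟨fun i hi => WR_subset_W R (h3 i hi), h⟩
      rw [hlim, if_neg h4, ENNReal.ofReal_zero, zero_mul]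
    · rw [indicator_of_notMem h3]

theorem first_eq {R : ℝ} (hR : 0 < R) {N : ℕ} (hN : m + 2 ≤ N) (hRN : R < √N) :
    ENNReal.ofReal √N * ∫⁻ X, ENNReal.ofReal (DG (e0 m) (R / √N) X) ∂(law m N) =
      ((N.choose (m + 2) : ℕ) * (ENNReal.ofReal (N : ℝ)⁻¹) ^ (m + 2)) *
      ∫⁻ I in Set.pi univ (fun _ : Fin (m + 2) => WR m R), hN1 R N I := by
  have hN1' : 1 ≤ N := by omega
  have h1 : ∀ X : Fin N → P m, ENNReal.ofReal (DG (e0 m) (R / √N) X) =
      SmE (fun I => ENNReal.ofReal (gG (e0 m) (R / √N) I)) (U (e0 m)) X :=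
    fun X => ofReal_Sm (gG_nonneg _ _) _ X
  simp only [h1]
  rw [first_moment hN _ _ (measurable_gG _ _).ennreal_ofReal (measurableSet_U _)]
  have hmeas : Measurable (fun I : Fin (m + 2) → P m => ENNReal.ofReal (gG (e0 m) (R / √N) I) *
      (unif (m + 2) (U (e0 m) I)ᶜ) ^ (N - (m + 2))) :=
    ((measurable_gG _ _).ennreal_ofReal).mul
      ((measurable_unif_compl (measurableSet_U (e0 m))).pow_const _)
  rw [lintegral_law hN1' hmeas]
  have h2 : ∫⁻ I in Set.pi univ (fun _ : Fin (m + 2) => WR m R), hN1 R N I =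
      ENNReal.ofReal √N * ∫⁻ I in Set.pi univ (fun _ : Fin (m + 2) => QN m N),
        ENNReal.ofReal (gG (e0 m) (R / √N) (fun i => sc N (I i))) *
          (unif (m + 2) (U (e0 m) (fun i => sc N (I i)))ᶜ) ^ (N - (m + 2)) := by
    rw [← lintegral_const_mul' _ _ ENNReal.ofReal_ne_top]
    refine (lintegral_pi_restrict (measurableSet_piQN N _) (measurableSet_piWR R _) _ _
      fun I => ?_).symm
    have h3 : ENNReal.ofReal √N * (ENNReal.ofReal (gG (e0 m) (R / √N) (fun i => sc N (I i))) *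
          (unif (m + 2) (U (e0 m) (fun i => sc N (I i)))ᶜ) ^ (N - (m + 2))) = hN1 R N I := by
      unfold hN1
      rw [← mul_assoc, ← ENNReal.ofReal_mul (Real.sqrt_nonneg _)]
    by_cases h4 : I ∈ Set.pi univ (fun _ : Fin (m + 2) => WR m R)
    · have h5 : I ∈ Set.pi univ (fun _ : Fin (m + 2) => QN m N) :=
        fun i hi => WR_subset_QN hN1' hRN.le (h4 i hi)
      rw [indicator_of_mem h4, indicator_of_mem h5, h3]
    · rw [indicator_of_notMem h4]
      by_cases h5 : I ∈ Set.pi univ (fun _ : Fin (m + 2) => QN m N)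
      · rw [indicator_of_mem h5, gG_sc hR hRN, if_neg, ENNReal.ofReal_zero, zero_mul, mul_zero]
        rintro ⟨h6, h7⟩
        have h8 := ((Dom_sc hN1' I).1 h6).1
        exact h4 fun i _ => mem_piWR_of_fit hR
          (fun i => QN_subset_W hN1' (h5 i (mem_univ i))) h8 h7 i
      · rw [indicator_of_notMem h5]
  rw [h2]
  ring

theorem lim_one0 {R : ℝ} (hR : 0 < R) : M1 m (fitR R) ≠ ∞ ∧
    Tendsto (fun N : ℕ => ENNReal.ofReal √N *
      ∫⁻ X, ENNReal.ofReal (DG (e0 m) (R / √N) X) ∂(law m N)) atTop (𝓝 (M1 m (fitR R))) := by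
  obtain ⟨B, hB0, hB⟩ := exists_bound (m := m) R
  have hvol : volume (Set.pi univ (fun _ : Fin (m + 2) => WR m R)) < ∞ :=
    (isCompact_piWR R _).measure_lt_top
  have hbfin : ∫⁻ _ in Set.pi univ (fun _ : Fin (m + 2) => WR m R), ENNReal.ofReal B ≠ ∞ := by
    rw [lintegral_const, Measure.restrict_apply_univ]
    exact (ENNReal.mul_lt_top ENNReal.ofReal_lt_top hvol).ne
  have hlim_int : Tendsto (fun N : ℕ => ∫⁻ I in Set.pi univ (fun _ : Fin (m + 2) => WR m R),
      hN1 R N I) atTop (𝓝 (∫⁻ I in Set.pi univ (fun _ : Fin (m + 2) => WR m R),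
        ENNReal.ofReal (hlim R I) * ENNReal.ofReal (Real.exp (-(volume (cap I)).toReal)))) := by
    refine tendsto_lintegral_of_dominated_convergence (fun _ => ENNReal.ofReal B)
      (fun N => measurable_hN1 R N) (fun N => ?_) hbfin (Eventually.of_forall fun I =>
        tendsto_hN1 hR I)
    rw [EventuallyLE, ae_restrict_iff' (measurableSet_piWR R _)]
    refine Eventually.of_forall fun I hI => ?_
    exact (hN1_le R N I).trans (ENNReal.ofReal_le_ofReal ((sqrt_gG_le _ I).trans (hB I hI)))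
  have hfin2 : ∫⁻ I in Set.pi univ (fun _ : Fin (m + 2) => WR m R),
        ENNReal.ofReal (hlim R I) * ENNReal.ofReal (Real.exp (-(volume (cap I)).toReal)) ≠ ∞ := by
    refine ne_top_of_le_ne_top hbfin (le_of_tendsto hlim_int (Eventually.of_forall fun N => ?_))
    refine lintegral_mono_ae ?_
    rw [ae_restrict_iff' (measurableSet_piWR R _)]
    refine Eventually.of_forall fun I hI => ?_
    exact (hN1_le R N I).trans (ENNReal.ofReal_le_ofReal ((sqrt_gG_le _ I).trans (hB I hI)))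
  have hfac : (((m + 2).factorial : ℕ) : ℝ≥0∞)⁻¹ ≠ ∞ := by
    rw [ENNReal.inv_ne_top]
    exact_mod_cast (Nat.factorial_pos _).ne'
  rw [M1_eq hR]
  refine ⟨ENNReal.mul_ne_top hfac hfin2, ?_⟩
  have h1 := ENNReal.Tendsto.mul (tendsto_choose (m + 2)) (Or.inr hfin2) hlim_int (Or.inr hfac)
  refine h1.congr' ?_
  filter_upwards [eventually_ge_atTop (m + 2), tendsto_sqrt.eventually_gt_atTop R] with N h2 h3
  rw [first_eq hR h2 h3]

end Lim

end Pool.Agent.B05
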