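import Pool.Agent.Lib.MP_b05ae9_pr.GenPos
import Pool.Agent.Lib.MP_b05ae9_pr.Alg
import Pool.Agent.Lib.MP_b05ae9_pr.Scaling

/-!
# MP_b05ae9_pr, task K1: measurability of the parts of the deficit, the limit `R → ∞` of the
truncated constants, the number of edges
-/

set_option autoImplicit false

open MeasureTheory Set Filter Topology
open scoped ENNReal MeasureTheory

namespace Pool.Agent.B05

namespace LimR

theorem tendsto_setLIntegral {α : Type*} [MeasurableSpace α] (μ : Measure α) [SFinite μ]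
    (G : α → ℝ≥0∞) (A : ℝ → Set α) (hA : Monotone A) (B Z : Set α) (hAB : ∀ R, A R ⊆ B)
    (hZ : MeasurableSet Z) (hGZ : ∀ x ∈ Z, G x = 0) (hB : B ⊆ (⋃ R, A R) ∪ Z) :
    Tendsto (fun R => ∫⁻ x in A R, G x ∂μ) atTop (𝓝 (∫⁻ x in B, G x ∂μ)) := by
  have h1 := tendsto_measure_iUnion_atTop (μ := μ.withDensity G) hA
  have h2 : (μ.withDensity G) (⋃ R, A R) = (μ.withDensity G) B := by
    apply le_antisymm
    · exact measure_mono (iUnion_subset hAB)
    · refine (measure_mono hB).trans ((measure_union_le _ _).trans ?_)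
      have h3 : (μ.withDensity G) Z = 0 := by
        rw [withDensity_apply G hZ, setLIntegral_congr_fun hZ (g := fun _ => 0) hGZ]
        simp
      rw [h3, add_zero]
  rw [h2] at h1
  simp only [Function.comp_def, withDensity_apply'] at h1
  exact h1

variable {m : ℕ}

theorem continuous_cf (k : Fin (m + 2)) : Continuous fun I : Fin (m + 2) → P m => cf I k :=
  (GenPos.good_cf (N := m + 2) id k).1

/-- If `cf I 0 * cf I 1 > 0` the cap is bounded. -/
theorem cap_bdd (I : Fin (m + 2) → P m) (h : 0 < cf I 0 * cf I 1) : ∃ R : ℝ, I ∈ fitR R := by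
  have h0 : 0 < cf I 0 * cf I 0 := by
    apply mul_self_pos.2
    intro h0
    rw [h0, zero_mul] at h
    exact lt_irrefl _ h
  set c := Matrix.det (Matrix.of I) with hc
  set K := |c * cf I 0| + ∑ l : Fin m, |cf I 0 * cf I l.succ.succ| with hK
  refine ⟨max (K / (cf I 0 * cf I 0)) (K / (cf I 0 * cf I 1)), ?_⟩
  rintro q ⟨⟨hq0, hq1, hq⟩, hF⟩
  rw [F_affine, Fin.sum_univ_succ, Fin.sum_univ_succ] at hF
  have e1 : (Fin.succ 0 : Fin (m + 2)) = 1 := rfl
  rw [e1] at hF
  have h2 : |∑ l : Fin m, cf I 0 * cf I l.succ.succ * q l.succ.succ| ≤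
      ∑ l : Fin m, |cf I 0 * cf I l.succ.succ| := by
    refine (Finset.abs_sum_le_sum_abs _ _).trans (Finset.sum_le_sum fun l _ => ?_)
    rw [abs_mul, abs_of_nonneg (hq l).1]
    exact mul_le_of_le_one_right (abs_nonneg _) (hq l).2
  have h3 : (c + (cf I 0 * q 0 + (cf I 1 * q 1 + ∑ l : Fin m, cf I l.succ.succ * q l.succ.succ))) *
      cf I 0 = c * cf I 0 + cf I 0 * cf I 0 * q 0 + cf I 0 * cf I 1 * q 1 +
        ∑ l : Fin m, cf I 0 * cf I l.succ.succ * q l.succ.succ := by
    have : ∑ l : Fin m, cf I 0 * cf I l.succ.succ * q l.succ.succ =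
        cf I 0 * ∑ l : Fin m, cf I l.succ.succ * q l.succ.succ := by
      rw [Finset.mul_sum]
      exact Finset.sum_congr rfl fun l _ => by ring
    rw [this]; ring
  rw [h3] at hF
  have h4 : cf I 0 * cf I 0 * q 0 + cf I 0 * cf I 1 * q 1 ≤ K := by
    have a1 := neg_abs_le (c * cf I 0)
    have a2 := neg_abs_le (∑ l : Fin m, cf I 0 * cf I l.succ.succ * q l.succ.succ)
    rw [hK]; linarith
  have h5 : 0 ≤ cf I 0 * cf I 0 * q 0 := mul_nonneg h0.le hq0
  have h6 : 0 ≤ cf I 0 * cf I 1 * q 1 := mul_nonneg h.le hq1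
  constructor
  · refine le_trans ?_ (le_max_left _ _)
    rw [le_div_iff₀ h0]; linarith
  · refine le_trans ?_ (le_max_right _ _)
    rw [le_div_iff₀ h]; linarith

theorem fitR_mono : Monotone (fitR (m := m)) := by
  intro R R' h I hI q hq
  obtain ⟨h1, h2⟩ := hI hq
  exact ⟨h1.trans h, h2.trans h⟩

theorem psi_eq_zero {I : Fin (m + 2) → P m} (h : ¬ 0 < cf I 0 * cf I 1) : psi I = 0 := if_neg h

end LimR

open LimR

theorem measurable_DG {m N : ℕ} (e : Edge m) (ρ : ℝ) :
    Measurable (fun X : Fin N → P m => DG e ρ X) :=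
  Lim.measurable_Sm (Lim.measurable_gG e ρ) (Lim.measurableSet_U e)

theorem measurable_DB {m N : ℕ} (e : Edge m) (ρ : ℝ) :
    Measurable (fun X : Fin N → P m => DB e ρ X) :=
  Lim.measurable_Sm (Lim.measurable_gB e ρ) (Lim.measurableSet_U e)

theorem M1_tendsto (m : ℕ) :
    Tendsto (fun R : ℝ => M1 m (fitR R)) atTop (𝓝 (M1 m univ)) := by
  unfold M1
  refine ENNReal.Tendsto.div_const ?_ (Or.inr (by exact_mod_cast Nat.factorial_ne_zero _))
  refine tendsto_setLIntegral volume _ _ ?_ _ {I | ¬ 0 < cf I 0 * cf I 1} ?_ ?_ ?_ ?_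
  · intro R R' h
    exact inter_subset_inter_right _ (fitR_mono h)
  · intro R
    exact inter_subset_inter_right _ (subset_univ _)
  · exact (measurableSet_lt measurable_const
      ((continuous_cf 0).mul (continuous_cf 1)).measurable).compl
  · intro I hI
    rw [psi_eq_zero hI]; simp
  · rintro I ⟨hI, -⟩
    by_cases h : 0 < cf I 0 * cf I 1
    · obtain ⟨R, hR⟩ := cap_bdd I h
      exact Or.inl (mem_iUnion.2 ⟨R, hI, hR⟩)
    · exact Or.inr h

theorem M2_tendsto (m : ℕ) :
    Tendsto (fun R : ℝ => M2 m (fitR R)) atTop (𝓝 (M2 m univ)) := by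
  unfold M2
  refine tendsto_finsetSum _ fun t _ => ?_
  refine ENNReal.Tendsto.div_const ?_ (Or.inr ?_)
  swap
  · refine mul_ne_zero ?_ (pow_ne_zero _ ?_) <;> exact_mod_cast Nat.factorial_ne_zero _
  have hf : Continuous (fst' (m := m) t) :=
    continuous_pi fun i => continuous_apply _
  have hl : Continuous (lst' (m := m) t) :=
    continuous_pi fun i => continuous_apply _
  unfold J2
  refine tendsto_setLIntegral volume _ _ ?_ _
    ({Y | ¬ 0 < cf (fst' t Y) 0 * cf (fst' t Y) 1} ∪ {Y | ¬ 0 < cf (lst' t Y) 0 * cf (lst' t Y) 1})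
    ?_ ?_ ?_ ?_
  · rintro R R' h Y ⟨hY, h1, h2, h3⟩
    exact ⟨hY, fitR_mono h h1, fitR_mono h h2, h3⟩
  · rintro R Y ⟨hY, h1, h2, h3⟩
    exact ⟨hY, mem_univ _, mem_univ _, h3⟩
  · refine MeasurableSet.union ?_ ?_
    · exact (measurableSet_lt measurable_const
        ((((continuous_cf 0).comp hf).mul ((continuous_cf 1).comp hf))).measurable).compl
    · exact (measurableSet_lt measurable_const
        ((((continuous_cf 0).comp hl).mul ((continuous_cf 1).comp hl))).measurable).compl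
  · rintro Y (hY | hY)
    · rw [psi_eq_zero hY]; simp
    · rw [psi_eq_zero hY]; simp
  · rintro Y ⟨hY, -, -, h3⟩
    by_cases h : 0 < cf (fst' t Y) 0 * cf (fst' t Y) 1
    · by_cases h' : 0 < cf (lst' t Y) 0 * cf (lst' t Y) 1
      · obtain ⟨R, hR⟩ := cap_bdd _ h
        obtain ⟨R', hR'⟩ := cap_bdd _ h'
        refine Or.inl (mem_iUnion.2 ⟨max R R', hY, fitR_mono (le_max_left _ _) hR,
          fitR_mono (le_max_right _ _) hR', h3⟩)
      · exact Or.inr (Or.inr h')
    · exact Or.inr (Or.inl h)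

theorem card_edge (m : ℕ) : Fintype.card (Edge m) = 2 * (m + 2) * (m + 1) := by
  have h1 : Fintype.card (Edge m) =
      ∑ j : Fin (m + 2), ∑ i : Fin (m + 2), if i < j then 4 else 0 := by
    rw [Fintype.card_subtype, Finset.card_filter]
    rw [Fintype.sum_prod_type, Fintype.sum_prod_type, Finset.sum_comm]
    refine Finset.sum_congr rfl fun j _ => Finset.sum_congr rfl fun i _ => ?_
    by_cases h : i < j <;> simp [h]
  have h2 : ∀ j : Fin (m + 2), ∑ i : Fin (m + 2), (if i < j then 4 else 0) = 4 * (j : ℕ) := by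
    intro j
    rw [← Finset.sum_filter, Finset.sum_const, smul_eq_mul, mul_comm]
    congr 1
    have : Finset.univ.filter (fun i : Fin (m + 2) => i < j) = Finset.Iio j := by ext; simp
    rw [this, Fin.card_Iio]
  rw [h1, Finset.sum_congr rfl fun j _ => h2 j, ← Finset.mul_sum,
    Fin.sum_univ_eq_sum_range (fun i => i) (m + 2)]
  have h3 := Finset.sum_range_id_mul_two (m + 2)
  have h4 : m + 2 - 1 = m + 1 := rfl
  rw [h4] at h3
  nlinarith [h3]

end Pool.Agent.B05
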