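import Pool.Agent.Lib.MP_b05ae9_pr.G

/-!
# MP_b05ae9_pr, task K3: lower bound for the variance
-/

set_option autoImplicit false

open MeasureTheory Set Filter Topology
open scoped ENNReal MeasureTheory

namespace Pool.Agent.B05

namespace K3

theorem exp_le_one_sub {x : ℝ} (h0 : 0 ≤ x) (h1 : x ≤ 1 / 2) : Real.exp (-(2 * x)) ≤ 1 - x := by
  rw [Real.exp_neg]
  have h2 := Real.add_one_le_exp (2 * x)
  have h3 : 0 < Real.exp (2 * x) := Real.exp_pos _
  rw [inv_le_iff_one_le_mul₀ h3]
  nlinarith

/-- the region away from the edge -/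
def Gd (m : ℕ) (δ : ℝ) : Set (P m) := {q | δ ≤ q 0 + q 1}

theorem measurableSet_Gd (m : ℕ) (δ : ℝ) : MeasurableSet (Gd m δ) := by
  apply (isClosed_le continuous_const _).measurableSet
  exact (continuous_apply 0).add (continuous_apply 1)

theorem unif_Gd_compl (m : ℕ) {δ : ℝ} (hδ : 0 ≤ δ) :
    unif (m + 2) (Gd m δ)ᶜ ≤ ENNReal.ofReal (δ ^ 2) := by
  unfold unif
  rw [Measure.restrict_apply (measurableSet_Gd m δ).compl]
  have hsub : (Gd m δ)ᶜ ∩ cube (m + 2) ⊆
      Icc (0 : P m) (Fin.cons δ (Fin.cons δ (fun _ => 1))) := by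
    rintro q ⟨h1, h2⟩
    simp only [Gd, mem_compl_iff, mem_ofPred_eq, not_le] at h1
    have h0 : 0 ≤ q 0 := h2.1 0
    have h0' : 0 ≤ q 1 := h2.1 1
    refine ⟨h2.1, ?_⟩
    intro i
    refine Fin.cases ?_ (fun i => ?_) i
    · simp only [Fin.cons_zero]
      linarith
    · refine Fin.cases ?_ (fun i => ?_) i
      · simp only [Fin.cons_succ, Fin.cons_zero]
        have : q (Fin.succ 0) = q 1 := rfl
        rw [this]
        linarith
      · simp only [Fin.cons_succ]
        exact h2.2 _
  refine (measure_mono hsub).trans ?_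
  rw [Real.volume_Icc_pi, Fin.prod_univ_succ, Fin.prod_univ_succ]
  simp only [Fin.cons_zero, Fin.cons_succ, Pi.zero_apply, sub_zero, ENNReal.ofReal_one,
    Finset.prod_const_one, mul_one]
  rw [← ENNReal.ofReal_mul hδ, sq]

theorem law_away (m N : ℕ) {δ M : ℝ} (hδ : δ ^ 2 = M ^ 2 / N) (hδ0 : 0 ≤ δ) (hN : 0 < N)
    (hM : M ^ 2 / N ≤ 1 / 2) :
    ENNReal.ofReal (Real.exp (-(2 * M ^ 2))) ≤ law m N {X | ∀ k, X k ∈ Gd m δ} := by
  have e : {X : Fin N → P m | ∀ k, X k ∈ Gd m δ} = Set.pi univ (fun _ => Gd m δ) := by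
    ext X
    simp
  have hN0 : (0 : ℝ) < N := Nat.cast_pos.2 hN
  rw [e]
  unfold law
  rw [Measure.pi_pi, Finset.prod_const, Finset.card_univ, Fintype.card_fin]
  have h1 : ENNReal.ofReal (Real.exp (-(2 * (M ^ 2 / N)))) ≤ unif (m + 2) (Gd m δ) := by
    have h2 := exp_le_one_sub (x := M ^ 2 / N) (by positivity) hM
    refine (ENNReal.ofReal_le_ofReal h2).trans ?_
    have h3 := unif_Gd_compl m hδ0
    have h4 := prob_compl_eq_one_sub (μ := unif (m + 2)) (measurableSet_Gd m δ).compl
    rw [compl_compl] at h4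
    rw [h4, ENNReal.ofReal_sub _ (by positivity), ENNReal.ofReal_one, ← hδ]
    exact tsub_le_tsub_left h3 _
  calc ENNReal.ofReal (Real.exp (-(2 * M ^ 2)))
      = ENNReal.ofReal (Real.exp (-(2 * (M ^ 2 / N)))) ^ N := by
        rw [← ENNReal.ofReal_pow (Real.exp_pos _).le, ← Real.exp_nat_mul]
        congr 2
        field_simp
    _ ≤ unif (m + 2) (Gd m δ) ^ N := by gcongr

end K3

open K3 in
/-- lower bound for the variance -/
theorem var_lower (m : ℕ) (C : ℝ) : ∃ c > 0, ∃ N₀ : ℕ, ∀ N ≥ N₀,
    (∫⁻ X, ENNReal.ofReal ((2 * (m + 2) - surf (convexHull ℝ (range X))) ^ 2) ∂(law m N) ≤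
      ENNReal.ofReal (C / N)) →
    c / N ≤ ProbabilityTheory.variance
      (fun X : Fin N → P m => surf (convexHull ℝ (range X))) (law m N) := by
  set C' : ℝ := |C| + 1 with hC'
  have hC'0 : 0 < C' := by positivity
  have hCC' : C ≤ C' := by rw [hC']; linarith [le_abs_self C]
  have h2 : 0 < 2 - √2 := by
    have : √2 < 2 := by
      rw [Real.sqrt_lt' (by norm_num)]
      norm_num
    linarith
  set M : ℝ := (2 * √C' + 1) / (2 - √2) with hMdef
  have hM0 : 0 < M := by positivity
  have hM1 : (2 - √2) * M = 2 * √C' + 1 := by rw [hMdef]; field_simp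
  set p : ℝ := min (3 / 4) (Real.exp (-(2 * M ^ 2))) with hp
  have hp0 : 0 < p := lt_min (by norm_num) (Real.exp_pos _)
  obtain ⟨N₁, hN₁⟩ := exists_nat_ge (4 * M ^ 2)
  refine ⟨p / 4, by positivity, max (m + 3) (N₁ + 1), ?_⟩
  intro N hN hint
  have hN3 : m + 3 ≤ N := (le_max_left _ _).trans hN
  have hNpos : 0 < N := by omega
  have hN0 : (0 : ℝ) < N := Nat.cast_pos.2 hNpos
  have hN4 : 4 * M ^ 2 ≤ N := by
    have : N₁ ≤ N := by
      have := (le_max_right (m + 3) (N₁ + 1)).trans hN
      omega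
    have : (N₁ : ℝ) ≤ N := by exact_mod_cast this
    linarith
  set r : ℝ := √N with hr
  have hr0 : 0 < r := Real.sqrt_pos.2 hN0
  have hr2 : r ^ 2 = N := Real.sq_sqrt hN0.le
  set δ : ℝ := M / r with hδ
  have hδ0 : 0 < δ := by positivity
  have hδ2 : δ ^ 2 = M ^ 2 / N := by rw [hδ, div_pow, hr2]
  have hMN : M ^ 2 / N ≤ 1 / 4 := by
    rw [div_le_iff₀ hN0]
    linarith
  have hδhalf : δ ≤ 1 / 2 := by
    apply le_of_sq_le_sq _ (by norm_num)
    rw [hδ2]
    linarith
  set S : (Fin N → P m) → ℝ := fun X => surf (convexHull ℝ (range X)) with hS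
  have hSm : AEMeasurable S (law m N) := aemeasurable_surf_hull m N hN3
  set a : ℝ := 2 * (m + 2) with ha
  set μ₀ : ℝ := ∫ X, S X ∂(law m N) with hμ₀
  have hev : ProbabilityTheory.evariance S (law m N) =
      ∫⁻ X, ENNReal.ofReal ((S X - μ₀) ^ 2) ∂(law m N) := by
    unfold ProbabilityTheory.evariance
    apply lintegral_congr
    intro X
    rw [Real.enorm_eq_ofReal_abs, ← ENNReal.ofReal_pow (abs_nonneg _), sq_abs]
  -- finiteness
  have hfin : ∫⁻ X, ENNReal.ofReal ((S X - μ₀) ^ 2) ∂(law m N) ≠ ∞ := by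
    apply ne_of_lt
    calc ∫⁻ X, ENNReal.ofReal ((S X - μ₀) ^ 2) ∂(law m N)
        ≤ ∫⁻ X, (2 * ENNReal.ofReal ((a - S X) ^ 2) + ENNReal.ofReal (2 * (a - μ₀) ^ 2))
            ∂(law m N) := by
          apply lintegral_mono
          intro X
          have : (S X - μ₀) ^ 2 ≤ 2 * (a - S X) ^ 2 + 2 * (a - μ₀) ^ 2 := by
            nlinarith [sq_nonneg ((a - S X) + (a - μ₀))]
          refine (ENNReal.ofReal_le_ofReal this).trans ?_
          rw [ENNReal.ofReal_add (by positivity) (by positivity),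
            ENNReal.ofReal_mul (by norm_num : (0 : ℝ) ≤ 2)]
          simp
      _ = 2 * ∫⁻ X, ENNReal.ofReal ((a - S X) ^ 2) ∂(law m N) +
            ENNReal.ofReal (2 * (a - μ₀) ^ 2) := by
          rw [lintegral_add_right _ measurable_const, lintegral_const_mul' _ _ (by simp),
            lintegral_const, measure_univ, mul_one]
      _ < ∞ := by
          apply ENNReal.add_lt_top.2
          refine ⟨?_, ENNReal.ofReal_lt_top⟩
          apply ENNReal.mul_lt_top (by simp)
          exact lt_of_le_of_lt hint ENNReal.ofReal_lt_top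
  -- Markov for the deficit
  have hB : law m N {X | 4 * C' / N ≤ (a - S X) ^ 2} ≤ ENNReal.ofReal (1 / 4) := by
    have h3 := mul_meas_ge_le_lintegral₀ (μ := law m N)
      (f := fun X => ENNReal.ofReal ((a - S X) ^ 2))
      (((hSm.const_sub a).pow_const 2).ennreal_ofReal) (ENNReal.ofReal (4 * C' / N))
    have h4 : {X | ENNReal.ofReal (4 * C' / N) ≤ ENNReal.ofReal ((a - S X) ^ 2)} =
        {X | 4 * C' / N ≤ (a - S X) ^ 2} := by
      ext X
      simp only [mem_ofPred_eq]
      exact ENNReal.ofReal_le_ofReal_iff (by positivity)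
    rw [h4] at h3
    have h5 : ENNReal.ofReal (4 * C' / N) * law m N {X | 4 * C' / N ≤ (a - S X) ^ 2} ≤
        ENNReal.ofReal (4 * C' / N) * ENNReal.ofReal (1 / 4) := by
      refine h3.trans (hint.trans ?_)
      rw [← ENNReal.ofReal_mul (by positivity)]
      apply ENNReal.ofReal_le_ofReal
      rw [div_mul_eq_mul_div]
      gcongr
      linarith
    exact (ENNReal.mul_le_mul_iff_right (by
      rw [Ne, ENNReal.ofReal_eq_zero, not_le]; positivity) ENNReal.ofReal_ne_top).1 h5
  -- the probability that the deviation is large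
  set Z : Set (Fin N → P m) := {X | ENNReal.ofReal (1 / (4 * N)) ≤ ENNReal.ofReal ((S X - μ₀) ^ 2)}
    with hZ
  have hsq : ∀ X, 1 / (2 * r) ≤ |S X - μ₀| → X ∈ Z := by
    intro X hX
    rw [hZ, mem_ofPred_eq]
    apply ENNReal.ofReal_le_ofReal
    rw [← sq_abs (S X - μ₀)]
    calc 1 / (4 * (N : ℝ)) = (1 / (2 * r)) ^ 2 := by rw [← hr2]; field_simp; norm_num
      _ ≤ |S X - μ₀| ^ 2 := by gcongr
  have hprob : ENNReal.ofReal p ≤ law m N Z := by
    by_cases hcase : μ₀ ≤ a - (2 * √C' + 1 / 2) / r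
    · -- typical samples
      have h6 : {X | 4 * C' / N ≤ (a - S X) ^ 2}ᶜ ⊆ Z := by
        intro X hX
        simp only [mem_compl_iff, mem_ofPred_eq, not_le] at hX
        apply hsq
        have h7 : a - S X < 2 * √C' / r := by
          apply lt_of_pow_lt_pow_left₀ 2 (by positivity)
          calc (a - S X) ^ 2 < 4 * C' / N := hX
            _ = (2 * √C' / r) ^ 2 := by
              rw [div_pow, mul_pow, Real.sq_sqrt hC'0.le, hr2]
              ring
        have h8 : 1 / (2 * r) = (2 * √C' + 1 / 2) / r - 2 * √C' / r := by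
          field_simp
          ring
        rw [h8]
        refine le_trans ?_ (le_abs_self _)
        linarith
      have h9 : (1 : ℝ≥0∞) ≤ law m N {X | 4 * C' / N ≤ (a - S X) ^ 2} + law m N Z := by
        calc (1 : ℝ≥0∞) = law m N univ := measure_univ.symm
          _ ≤ law m N ({X | 4 * C' / N ≤ (a - S X) ^ 2} ∪ Z) := by
              apply measure_mono
              intro X _
              by_cases hX : X ∈ {X | 4 * C' / N ≤ (a - S X) ^ 2}
              · exact Or.inl hX
              · exact Or.inr (h6 hX)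
          _ ≤ _ := measure_union_le _ _
      have h10 : ENNReal.ofReal (3 / 4) ≤ law m N Z := by
        have h11 : ENNReal.ofReal (3 / 4) + ENNReal.ofReal (1 / 4) ≤
            law m N Z + ENNReal.ofReal (1 / 4) := by
          rw [← ENNReal.ofReal_add (by norm_num) (by norm_num)]
          have : (3 / 4 + 1 / 4 : ℝ) = 1 := by norm_num
          rw [this, ENNReal.ofReal_one, add_comm]
          exact h9.trans (by gcongr)
        exact (ENNReal.add_le_add_iff_right ENNReal.ofReal_ne_top).1 h11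
      exact (ENNReal.ofReal_le_ofReal (min_le_left _ _)).trans h10
    · -- samples away from the edge
      push Not at hcase
      have h6 := law_away m N hδ2 hδ0.le hNpos (by linarith)
      refine (ENNReal.ofReal_le_ofReal (min_le_right _ _)).trans (h6.trans ?_)
      apply measure_mono_ae
      filter_upwards [ae_law_mem m N] with X hXc hXG
      have hfinr : (range X).Finite := finite_range X
      have hK : convexHull ℝ (range X) ⊆ {q | q ∈ cube (m + 2) ∧ δ ≤ q 0 + q 1} := by
        apply convexHull_min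
        · rintro _ ⟨k, rfl⟩
          exact ⟨hXc k, hXG k⟩
        · have h7 : Convex ℝ (cube (m + 2)) := convex_Icc (𝕜 := ℝ) (0 : P m) 1
          have h8 : Convex ℝ {q : P m | δ ≤ q 0 + q 1} := by
            intro x hx y hy s t hs ht hst
            simp only [mem_ofPred_eq, Pi.add_apply, Pi.smul_apply, smul_eq_mul] at hx hy ⊢
            have : δ = s * δ + t * δ := by rw [← add_mul, hst, one_mul]
            nlinarith
          exact h7.inter h8
      have h9 := surf_prism (convex_convexHull ℝ _) (hfinr.isCompact_convexHull (𝕜 := ℝ)) hδ0 hδhalf hK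
      apply hsq
      have h10 : S X ≤ a - (2 * √C' + 1) / r := by
        have : (2 - √2) * δ = (2 * √C' + 1) / r := by rw [hδ, ← hM1]; ring
        rw [← this]
        exact h9
      have h8 : 1 / (2 * r) = (2 * √C' + 1) / r - (2 * √C' + 1 / 2) / r := by
        field_simp
        ring
      rw [h8]
      refine le_trans ?_ (neg_le_abs _)
      linarith
  -- conclusion
  have hmark := mul_meas_ge_le_lintegral₀ (μ := law m N)
    (f := fun X => ENNReal.ofReal ((S X - μ₀) ^ 2))
    (((hSm.sub_const μ₀).pow_const 2).ennreal_ofReal) (ENNReal.ofReal (1 / (4 * N)))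
  have hlow : ENNReal.ofReal (p / 4 / N) ≤ ProbabilityTheory.evariance S (law m N) := by
    rw [hev]
    refine le_trans ?_ hmark
    calc ENNReal.ofReal (p / 4 / N) = ENNReal.ofReal (1 / (4 * N)) * ENNReal.ofReal p := by
          rw [← ENNReal.ofReal_mul (by positivity)]
          congr 1
          field_simp
      _ ≤ _ := by gcongr
  unfold ProbabilityTheory.variance
  rw [← hev] at hfin
  exact (ENNReal.ofReal_le_iff_le_toReal hfin).1 hlow

end Pool.Agent.B05
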