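import Pool.Agent.Lib.MP_b05ae9_pr.LimR
import Pool.Agent.Lib.MP_b05ae9_pr.VarLower
import Pool.Agent.Lib.MP_b05ae9_pr.Deficit
import Pool.Agent.Lib.MP_b05ae9_pr.Bad4
import Pool.Agent.Lib.MP_b05ae9_pr.LimTwo
import Pool.Agent.Lib.MP_b05ae9_pr.CrossC

/-!
# MP_b05ae9_pr, task K2: the main theorem
-/

set_option autoImplicit false

open MeasureTheory Set Filter Topology ProbabilityTheory
open scoped ENNReal MeasureTheory

namespace Pool.Agent.B05

namespace K2

theorem mem_hull_iff {d N : ℕ} (X : Fin N → Fin d → ℝ) (q : Fin d → ℝ) :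
    q ∈ convexHull ℝ (range X) ↔ ∃ w ∈ stdSimplex ℝ (Fin N), ∑ i, w i • X i = q := by
  let L : (Fin N → ℝ) →ₗ[ℝ] (Fin d → ℝ) := Fintype.linearCombination ℝ X
  have h : range X = L '' range (fun i : Fin N => (Pi.single i (1 : ℝ) : Fin N → ℝ)) := by
    rw [← range_comp]; congr 1; funext i; simp [L]
  rw [h, ← L.image_convexHull, convexHull_rangle_single_eq_stdSimplex]
  simp [L, Fintype.linearCombination_apply]

theorem isClosed_hull (d N : ℕ) :
    IsClosed {p : (Fin N → Fin d → ℝ) × (Fin d → ℝ) | p.2 ∈ convexHull ℝ (range p.1)} := by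
  have h : {p : (Fin N → Fin d → ℝ) × (Fin d → ℝ) | p.2 ∈ convexHull ℝ (range p.1)} =
      Prod.fst '' {z : ((Fin N → Fin d → ℝ) × (Fin d → ℝ)) × stdSimplex ℝ (Fin N) |
        ∑ i, (z.2 : Fin N → ℝ) i • z.1.1 i = z.1.2} := by
    ext p
    rw [Set.mem_ofPred_eq, mem_hull_iff]
    constructor
    · rintro ⟨w, hw, h⟩
      exact ⟨(p, ⟨w, hw⟩), h, rfl⟩
    · rintro ⟨⟨p', w⟩, h, rfl⟩
      exact ⟨w, w.2, h⟩
  rw [h]
  refine isClosedMap_fst_of_compactSpace _ (isClosed_eq ?_ ?_)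
  · refine continuous_finsetSum _ fun i _ => ?_
    have h1 : Continuous fun z : ((Fin N → Fin d → ℝ) × (Fin d → ℝ)) × stdSimplex ℝ (Fin N) =>
        (z.2 : Fin N → ℝ) i :=
      (continuous_apply i).comp (continuous_subtype_val.comp continuous_snd)
    have h2 : Continuous fun z : ((Fin N → Fin d → ℝ) × (Fin d → ℝ)) × stdSimplex ℝ (Fin N) =>
        z.1.1 i :=
      (continuous_apply i).comp (continuous_fst.comp continuous_fst)
    exact h1.smul h2
  · exact continuous_snd.comp continuous_fst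

theorem measurable_vol_hull (d N : ℕ) :
    Measurable fun X : Fin N → Fin d → ℝ => volume (convexHull ℝ (range X)) :=
  measurable_measure_prodMk_left (isClosed_hull d N).measurableSet

variable {m N : ℕ}

/-- missing volume of the projection -/
noncomputable def av (k : Fin (m + 2)) (X : Fin N → P m) : ℝ :=
  1 - (volume (pr k '' convexHull ℝ (range X))).toReal

theorem measurable_av (k : Fin (m + 2)) : Measurable (av (m := m) (N := N) k) := by
  unfold av
  simp only [pr_image_convexHull]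
  have h : Measurable fun X : Fin N → P m => (fun j => pr k (X j) : Fin N → Fin (m + 1) → ℝ) :=
    measurable_pi_lambda _ fun j => measurable_pi_lambda _ fun l =>
      (measurable_pi_apply _).comp (measurable_pi_apply j)
  exact (((measurable_vol_hull (m + 1) N).comp h).ennreal_toReal).const_sub 1

theorem av_nonneg (k : Fin (m + 2)) (X : Fin N → P m) (hX : ∀ j, X j ∈ cube (m + 2)) :
    0 ≤ av k X := by
  unfold av
  rw [pr_image_convexHull]
  have h : convexHull ℝ (range fun j => pr k (X j)) ⊆ Icc 0 1 := by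
    refine convexHull_min ?_ (convex_Icc 0 1)
    rintro _ ⟨j, rfl⟩
    exact ⟨fun i => (hX j).1 _, fun i => (hX j).2 _⟩
  have h2 : volume (convexHull ℝ (range fun j => pr k (X j))) ≤ 1 := by
    refine (measure_mono h).trans ?_
    rw [Real.volume_Icc_pi]; simp
  have h3 := ENNReal.toReal_mono ENNReal.one_ne_top h2
  rw [ENNReal.toReal_one] at h3
  linarith


theorem Sm_nonneg {g : (Fin (m + 2) → P m) → ℝ} (hg : ∀ I, 0 ≤ g I)
    (V : (Fin (m + 2) → P m) → Set (P m)) (X : Fin N → P m) : 0 ≤ Sm g V X := by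
  unfold Sm
  refine Finset.sum_nonneg fun ι _ => ?_
  split_ifs
  · exact hg _
  · exact le_rfl

theorem gG_nn (e : Edge m) (ρ : ℝ) (I : Fin (m + 2) → P m) : 0 ≤ gG e ρ I := by
  unfold gG; split_ifs
  · exact Lim.phi_nonneg I
  · exact le_rfl

theorem gB_nn (e : Edge m) (ρ : ℝ) (I : Fin (m + 2) → P m) : 0 ≤ gB e ρ I := by
  unfold gB; split_ifs
  · exact Lim.phi_nonneg I
  · exact le_rfl

theorem DG_nn (e : Edge m) (ρ : ℝ) (X : Fin N → P m) : 0 ≤ DG e ρ X := Sm_nonneg (gG_nn e ρ) _ X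

theorem DB_nn (e : Edge m) (ρ : ℝ) (X : Fin N → P m) : 0 ≤ DB e ρ X := Sm_nonneg (gB_nn e ρ) _ X

theorem gG_add_gB (e : Edge m) (ρ ρ' : ℝ) (I : Fin (m + 2) → P m) :
    gG e ρ I + gB e ρ I = gG e ρ' I + gB e ρ' I := by
  unfold gG gB
  by_cases hD : Dom e I
  · by_cases h : U e I ⊆ win e ρ <;> by_cases h' : U e I ⊆ win e ρ' <;> simp [hD, h, h']
  · simp [hD]

theorem DG_add_DB (e : Edge m) (ρ ρ' : ℝ) (X : Fin N → P m) :
    DG e ρ X + DB e ρ X = DG e ρ' X + DB e ρ' X := by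
  unfold DG DB Sm
  rw [← Finset.sum_add_distrib, ← Finset.sum_add_distrib]
  refine Finset.sum_congr rfl fun ι _ => ?_
  split_ifs
  · exact gG_add_gB e ρ ρ' _
  · rfl

/-- the surface area of the hull -/
noncomputable def sf (X : Fin N → P m) : ℝ := surf (convexHull ℝ (range X))

/-- the deficit -/
noncomputable def df (X : Fin N → P m) : ℝ := 2 * (m + 2) - surf (convexHull ℝ (range X))

theorem ae_deficit (hN : m + 3 ≤ N) : ∀ᵐ X ∂(law m N), (∀ j, X j ∈ cube (m + 2)) ∧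
    ∀ ρ, df X = (∑ k, 2 * av k X) + ∑ e : Edge m, (DG e ρ X + DB e ρ X) := by
  filter_upwards [ae_GP m N, ae_law_mem m N] with X h1 h2
  exact ⟨h2, fun ρ => deficit m N hN X h1 h2 ρ⟩

theorem ae_DG_le (hN : m + 3 ≤ N) (e : Edge m) (ρ : ℝ) :
    ∀ᵐ X ∂(law m N), DG e ρ X + DB e ρ X ≤ 2 * (m + 2) := by
  filter_upwards [ae_deficit hN] with X hX
  have h1 := hX.2 ρ
  have h2 : df X ≤ 2 * (m + 2) := by
    unfold df
    have := surf_nonneg (convexHull ℝ (range X))
    linarith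
  have h3 : 0 ≤ ∑ k, 2 * av k X := Finset.sum_nonneg fun k _ => by
    have := av_nonneg k X hX.1; linarith
  have h4 : DG e ρ X + DB e ρ X ≤ ∑ e : Edge m, (DG e ρ X + DB e ρ X) :=
    Finset.single_le_sum (f := fun e => DG e ρ X + DB e ρ X)
      (fun e _ => add_nonneg (DG_nn e ρ X) (DB_nn e ρ X)) (Finset.mem_univ e)
  linarith

theorem memLp_DG (hN : m + 3 ≤ N) (e : Edge m) (ρ : ℝ) : MemLp (DG e ρ) 2 (law m N) := by
  refine MemLp.of_bound (measurable_DG e ρ).aestronglyMeasurable (2 * (m + 2)) ?_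
  filter_upwards [ae_DG_le hN e ρ] with X hX
  rw [Real.norm_of_nonneg (DG_nn e ρ X)]
  have := DB_nn e ρ X
  linarith

theorem memLp_DB (hN : m + 3 ≤ N) (e : Edge m) (ρ : ℝ) : MemLp (DB e ρ) 2 (law m N) := by
  refine MemLp.of_bound (measurable_DB e ρ).aestronglyMeasurable (2 * (m + 2)) ?_
  filter_upwards [ae_DG_le hN e ρ] with X hX
  rw [Real.norm_of_nonneg (DB_nn e ρ X)]
  have := DG_nn e ρ X
  linarith

theorem memLp_df (hN : m + 3 ≤ N) : MemLp (df (m := m) (N := N)) 2 (law m N) :=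
  (memLp_const (2 * ((m : ℝ) + 2))).sub (memLp_surf_hull m N hN 2)

/-- sum of the good parts -/
noncomputable def uu (ρ : ℝ) (X : Fin N → P m) : ℝ := ∑ e : Edge m, DG e ρ X

/-- the rest -/
noncomputable def vv (ρ : ℝ) (X : Fin N → P m) : ℝ := df X - uu ρ X

theorem memLp_uu (hN : m + 3 ≤ N) (ρ : ℝ) : MemLp (uu (m := m) (N := N) ρ) 2 (law m N) :=
  memLp_finsetSum _ fun e _ => memLp_DG hN e ρ

theorem memLp_vv (hN : m + 3 ≤ N) (ρ : ℝ) : MemLp (vv (m := m) (N := N) ρ) 2 (law m N) :=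
  (memLp_df hN).sub (memLp_uu hN ρ)

theorem int_sq_le {Ω : Type*} [MeasurableSpace Ω] {μ : Measure Ω} {f : Ω → ℝ}
    (hf : AEMeasurable f μ) {c : ℝ} (hc : 0 ≤ c)
    (h : ∫⁻ x, ENNReal.ofReal (f x ^ 2) ∂μ ≤ ENNReal.ofReal c) : ∫ x, f x ^ 2 ∂μ ≤ c := by
  rw [integral_eq_lintegral_of_nonneg_ae (Eventually.of_forall fun x => sq_nonneg _)
    (hf.pow_const 2).aestronglyMeasurable]
  exact ENNReal.toReal_le_of_le_ofReal hc h

theorem int_vv_sq (hN : m + 3 ≤ N) (ρ : ℝ) {α β : ℝ} (hα : 0 ≤ α) (hβ : 0 ≤ β)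
    (h1 : ∀ k : Fin (m + 2), ∫⁻ X, ENNReal.ofReal (av k X ^ 2) ∂(law m N) ≤ ENNReal.ofReal α)
    (h2 : ∀ e : Edge m, ∫⁻ X, ENNReal.ofReal (DB e ρ X ^ 2) ∂(law m N) ≤ ENNReal.ofReal β) :
    ∫ X, vv ρ X ^ 2 ∂(law m N) ≤
      8 * (m + 2) ^ 2 * α + 2 * (Fintype.card (Edge m)) ^ 2 * β := by
  have hav : ∀ k : Fin (m + 2), MemLp (av (m := m) (N := N) k) 2 (law m N) := by
    intro k
    refine MemLp.of_bound (measurable_av k).aestronglyMeasurable 1 ?_
    filter_upwards [ae_law_mem m N] with X hX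
    rw [Real.norm_of_nonneg (av_nonneg k X hX)]
    unfold av
    have : 0 ≤ (volume (pr k '' convexHull ℝ (range X))).toReal := ENNReal.toReal_nonneg
    linarith
  have hi1 : ∀ k : Fin (m + 2), Integrable (fun X => av (m := m) (N := N) k X ^ 2) (law m N) :=
    fun k => (hav k).integrable_sq
  have hi2 : ∀ e : Edge m, Integrable (fun X => DB (m := m) (N := N) e ρ X ^ 2) (law m N) :=
    fun e => (memLp_DB hN e ρ).integrable_sq
  have hle : ∀ᵐ X ∂(law m N), vv ρ X ^ 2 ≤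
      8 * (m + 2) * ∑ k, av k X ^ 2 + 2 * (Fintype.card (Edge m)) * ∑ e : Edge m, DB e ρ X ^ 2 := by
    filter_upwards [ae_deficit hN] with X hX
    have e1 : vv ρ X = (∑ k, 2 * av k X) + ∑ e : Edge m, DB e ρ X := by
      unfold vv uu
      rw [hX.2 ρ, Finset.sum_add_distrib]; ring
    have e2 : (∑ k, 2 * av k X) ^ 2 ≤ 4 * (m + 2) * ∑ k, av k X ^ 2 := by
      have := sq_sum_le_card_mul_sum_sq (s := Finset.univ) (f := fun k => 2 * av k X)
      rw [Finset.card_univ, Fintype.card_fin] at this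
      push_cast at this
      refine this.trans (le_of_eq ?_)
      have e4 : ∑ k, (2 * av k X) ^ 2 = 4 * ∑ k, av k X ^ 2 := by
        rw [Finset.mul_sum]
        exact Finset.sum_congr rfl fun k _ => by ring
      rw [e4]; ring
    have e3 : (∑ e : Edge m, DB e ρ X) ^ 2 ≤ (Fintype.card (Edge m)) * ∑ e : Edge m, DB e ρ X ^ 2 := by
      have := sq_sum_le_card_mul_sum_sq (s := Finset.univ) (f := fun e : Edge m => DB e ρ X)
      rwa [Finset.card_univ] at this
    rw [e1]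
    have e5 := sq_nonneg ((∑ k, 2 * av k X) - ∑ e : Edge m, DB e ρ X)
    have e6 : ((∑ k, 2 * av k X) + ∑ e : Edge m, DB e ρ X) ^ 2 ≤
        2 * (∑ k, 2 * av k X) ^ 2 + 2 * (∑ e : Edge m, DB e ρ X) ^ 2 := by linarith
    refine e6.trans ?_
    linarith
  have hI1 : Integrable (fun X => ∑ k, av (m := m) (N := N) k X ^ 2) (law m N) :=
    integrable_finsetSum _ fun k _ => hi1 k
  have hI2 : Integrable (fun X => ∑ e : Edge m, DB (m := m) (N := N) e ρ X ^ 2) (law m N) :=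
    integrable_finsetSum _ fun e _ => hi2 e
  have hm := integral_mono_ae (memLp_vv hN ρ).integrable_sq
    ((hI1.const_mul (8 * (m + 2))).add (hI2.const_mul (2 * (Fintype.card (Edge m))))) hle
  refine hm.trans ?_
  simp only [Pi.add_apply]
  rw [integral_add (hI1.const_mul _) (hI2.const_mul _), integral_const_mul, integral_const_mul,
    integral_finsetSum _ fun k _ => hi1 k, integral_finsetSum _ fun e _ => hi2 e]
  have f1 : ∑ k : Fin (m + 2), ∫ X, av k X ^ 2 ∂(law m N) ≤ (m + 2) * α := by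
    have := Finset.sum_le_sum (s := Finset.univ) fun (k : Fin (m + 2)) _ =>
      int_sq_le (measurable_av k).aemeasurable hα (h1 k)
    simpa using this
  have f2 : ∑ e : Edge m, ∫ X, DB e ρ X ^ 2 ∂(law m N) ≤ (Fintype.card (Edge m)) * β := by
    have := Finset.sum_le_sum (s := Finset.univ) fun (e : Edge m) _ =>
      int_sq_le (measurable_DB e ρ).aemeasurable hβ (h2 e)
    simpa using this
  have g1 := mul_le_mul_of_nonneg_left f1 (show (0 : ℝ) ≤ 8 * (m + 2) by positivity)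
  have g2 := mul_le_mul_of_nonneg_left f2
    (show (0 : ℝ) ≤ 2 * (Fintype.card (Edge m)) by positivity)
  nlinarith

theorem var_approx {Ω : Type*} [MeasurableSpace Ω] {μ : Measure Ω} [IsProbabilityMeasure μ]
    {u v : Ω → ℝ} (hu : MemLp u 2 μ) (hv : MemLp v 2 μ) {η : ℝ} (hη : 0 < η) :
    |Var[fun x => u x + v x; μ] - Var[u; μ]| ≤ η * Var[u; μ] + (1 + 1 / η) * Var[v; μ] := by
  have h1 := variance_fun_add hu hv
  have h2 := variance_fun_add (hu.const_mul η) hv
  have h3 := variance_fun_sub (hu.const_mul η) hv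
  rw [variance_const_mul, covariance_const_mul_left] at h2 h3
  have h4 := variance_nonneg (fun x => η * u x + v x) μ
  have h5 := variance_nonneg (fun x => η * u x - v x) μ
  rw [h2] at h4
  rw [h3] at h5
  have h6 : 0 ≤ Var[v; μ] := variance_nonneg _ _
  rw [h1, abs_le]
  have e : 1 / η * η = 1 := by field_simp
  constructor
  · have : 0 ≤ (1 / η) * (η ^ 2 * Var[u; μ] + 2 * (η * cov[u, v; μ]) + Var[v; μ]) :=
      mul_nonneg (by positivity) h4
    have e2 : (1 / η) * (η ^ 2 * Var[u; μ] + 2 * (η * cov[u, v; μ]) + Var[v; μ]) =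
        η * Var[u; μ] + 2 * cov[u, v; μ] + 1 / η * Var[v; μ] := by
      field_simp
    rw [e2] at this
    linarith
  · have : 0 ≤ (1 / η) * (η ^ 2 * Var[u; μ] - 2 * (η * cov[u, v; μ]) + Var[v; μ]) :=
      mul_nonneg (by positivity) h5
    have e2 : (1 / η) * (η ^ 2 * Var[u; μ] - 2 * (η * cov[u, v; μ]) + Var[v; μ]) =
        η * Var[u; μ] - 2 * cov[u, v; μ] + 1 / η * Var[v; μ] := by
      field_simp
    rw [e2] at this
    linarith

theorem tendsto_of_approx {x : ℕ → ℝ} {y z : ℝ → ℕ → ℝ} {cR δ : ℝ → ℝ} {c : ℝ}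
    (h : ∀ R > 0, ∀ᶠ N in atTop, ∀ η > 0, |x N - y R N| ≤ η * y R N + (1 + 1 / η) * z R N)
    (hy : ∀ R > 0, Tendsto (y R) atTop (𝓝 (cR R)))
    (hz : ∀ R > 0, ∀ᶠ N in atTop, z R N ≤ δ R)
    (hc : Tendsto cR atTop (𝓝 c)) (hδ : Tendsto δ atTop (𝓝 0)) : Tendsto x atTop (𝓝 c) := by
  rw [Metric.tendsto_atTop']
  intro τ hτ
  set η : ℝ := τ / (4 * (|c| + 2)) with hη
  have hc0 : 0 < |c| + 2 := by positivity
  have hη0 : 0 < η := by positivity
  have hη1 : η * (|c| + 2) = τ / 4 := by rw [hη]; field_simp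
  have a1 : ∀ᶠ R in atTop, |cR R - c| < min 1 (τ / 8) := by
    have := (Metric.tendsto_nhds.1 hc) (min 1 (τ / 8)) (by positivity)
    simpa [Real.dist_eq] using this
  have a2 : ∀ᶠ R in atTop, (1 + 1 / η) * δ R < τ / 4 := by
    have h0 := hδ.const_mul (1 + 1 / η)
    rw [mul_zero] at h0
    exact h0.eventually_lt_const (by positivity)
  obtain ⟨R, hR1, hR2, hR⟩ := (a1.and (a2.and (eventually_gt_atTop 0))).exists
  have b1 : ∀ᶠ N in atTop, |y R N - cR R| < min 1 (τ / 8) := by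
    have := (Metric.tendsto_nhds.1 (hy R hR)) (min 1 (τ / 8)) (by positivity)
    simpa [Real.dist_eq] using this
  have key : ∀ᶠ N in atTop, |x N - c| < τ := by
    filter_upwards [b1, h R hR, hz R hR] with N h1 h2 h3
    have h4 := h2 η hη0
    have m1 := lt_of_lt_of_le h1 (min_le_left _ _)
    have m2 := lt_of_lt_of_le h1 (min_le_right _ _)
    have m3 := lt_of_lt_of_le hR1 (min_le_left _ _)
    have m4 := lt_of_lt_of_le hR1 (min_le_right _ _)
    have hyc : y R N ≤ |c| + 2 := by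
      have := abs_lt.1 m1
      have := abs_lt.1 m3
      have := le_abs_self c
      linarith
    have h5 : η * y R N ≤ τ / 4 := by
      rw [← hη1]; exact mul_le_mul_of_nonneg_left hyc hη0.le
    have h6 : (1 + 1 / η) * z R N ≤ (1 + 1 / η) * δ R :=
      mul_le_mul_of_nonneg_left h3 (by positivity)
    have h7 : |x N - c| ≤ |x N - y R N| + |y R N - cR R| + |cR R - c| := by
      have : x N - c = (x N - y R N) + (y R N - cR R) + (cR R - c) := by ring
      rw [this]
      exact (abs_add_le _ _).trans (add_le_add_left (abs_add_le _ _) _)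
    linarith
  obtain ⟨N₀, hN₀⟩ := eventually_atTop.1 key
  exact ⟨N₀, fun N hN => by rw [Real.dist_eq]; exact hN₀ N hN.le⟩

/-- the truncated constant -/
noncomputable def cR (m : ℕ) (R : ℝ) : ℝ :=
  (Fintype.card (Edge m)) * ((M2 m (fitR R)).toReal - (M1 m (fitR R)).toReal ^ 2)

theorem integral_uu_sq (hN : m + 3 ≤ N) (ρ : ℝ) : ∫ X, uu ρ X ^ 2 ∂(law m N) =
    ∑ e : Edge m, ∑ e' : Edge m, ∫ X, DG e ρ X * DG e' ρ X ∂(law m N) := by
  have h : ∀ X : Fin N → P m, uu ρ X ^ 2 = ∑ e : Edge m, ∑ e' : Edge m, DG e ρ X * DG e' ρ X := by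
    intro X
    unfold uu
    rw [sq, Finset.sum_mul_sum]
  have hi : ∀ e e' : Edge m, Integrable (fun X => DG (N := N) e ρ X * DG e' ρ X) (law m N) :=
    fun e e' => (memLp_DG hN e ρ).integrable_mul (memLp_DG hN e' ρ)
  simp only [h]
  rw [integral_finsetSum _ fun e _ => integrable_finsetSum _ fun e' _ => hi e e']
  exact Finset.sum_congr rfl fun e _ => integral_finsetSum _ fun e' _ => hi e e'

theorem integral_uu (hN : m + 3 ≤ N) (ρ : ℝ) : ∫ X, uu ρ X ∂(law m N) =
    ∑ e : Edge m, ∫ X, DG e ρ X ∂(law m N) := by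
  unfold uu
  exact integral_finsetSum _ fun e _ => (memLp_DG hN e ρ).integrable (by norm_num)

theorem tendsto_uu_sq (m : ℕ) {R : ℝ} (hR : 0 < R) :
    Tendsto (fun N : ℕ => N * ∫ X, uu (R / √N) X ^ 2 ∂(law m N)) atTop
      (𝓝 ((Fintype.card (Edge m)) * ((M2 m (fitR R)).toReal - (M1 m (fitR R)).toReal ^ 2) +
        (Fintype.card (Edge m)) ^ 2 * (M1 m (fitR R)).toReal ^ 2)) := by
  have h1 : Tendsto (fun N : ℕ => ∑ e : Edge m, ∑ e' : Edge m,
      (N : ℝ) * ∫ X, DG e (R / √N) X * DG e' (R / √N) X ∂(law m N)) atTop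
      (𝓝 (∑ e : Edge m, ∑ e' : Edge m,
        if e = e' then (M2 m (fitR R)).toReal else (M1 m (fitR R)).toReal ^ 2)) := by
    refine tendsto_finsetSum _ fun e _ => tendsto_finsetSum _ fun e' _ => ?_
    by_cases h : e = e'
    · subst h
      rw [if_pos rfl]
      have := (lim_two e R hR).2
      simpa only [sq] using this
    · rw [if_neg h]
      exact lim_cross e e' h R hR
  have h2 : (∑ e : Edge m, ∑ e' : Edge m,
        if e = e' then (M2 m (fitR R)).toReal else (M1 m (fitR R)).toReal ^ 2) =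
      (Fintype.card (Edge m)) * ((M2 m (fitR R)).toReal - (M1 m (fitR R)).toReal ^ 2) +
        (Fintype.card (Edge m)) ^ 2 * (M1 m (fitR R)).toReal ^ 2 := by
    have h3 : ∀ e e' : Edge m,
        (if e = e' then (M2 m (fitR R)).toReal else (M1 m (fitR R)).toReal ^ 2) =
        (if e = e' then (M2 m (fitR R)).toReal - (M1 m (fitR R)).toReal ^ 2 else 0) +
          (M1 m (fitR R)).toReal ^ 2 := by
      intro e e'; split_ifs <;> ring
    simp only [h3, Finset.sum_add_distrib, Finset.sum_ite_eq, Finset.mem_univ, if_true,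
      Finset.sum_const, Finset.card_univ, nsmul_eq_mul]
    ring
  rw [h2] at h1
  refine h1.congr' ?_
  filter_upwards [eventually_ge_atTop (m + 3)] with N hN
  rw [integral_uu_sq hN, Finset.mul_sum]
  exact Finset.sum_congr rfl fun e _ => by rw [Finset.mul_sum]

theorem tendsto_var_uu (m : ℕ) {R : ℝ} (hR : 0 < R) :
    Tendsto (fun N : ℕ => N * Var[uu (m := m) (N := N) (R / √N); law m N]) atTop
      (𝓝 (cR m R)) := by
  have h1 : Tendsto (fun N : ℕ => ∑ e : Edge m, √N * ∫ X, DG e (R / √N) X ∂(law m N)) atTop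
      (𝓝 (∑ _e : Edge m, (M1 m (fitR R)).toReal)) :=
    tendsto_finsetSum _ fun e _ => (lim_one e R hR).2
  have h2 := (tendsto_uu_sq m hR).sub (h1.pow 2)
  have h3 : (Fintype.card (Edge m)) * ((M2 m (fitR R)).toReal - (M1 m (fitR R)).toReal ^ 2) +
        (Fintype.card (Edge m)) ^ 2 * (M1 m (fitR R)).toReal ^ 2 -
        (∑ _e : Edge m, (M1 m (fitR R)).toReal) ^ 2 = cR m R := by
    rw [Finset.sum_const, Finset.card_univ, nsmul_eq_mul, cR]; ring
  rw [h3] at h2
  refine h2.congr' ?_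
  filter_upwards [eventually_ge_atTop (m + 3)] with N hN
  rw [variance_eq_sub (memLp_uu hN _), integral_uu hN, ← Finset.mul_sum, mul_pow,
    Real.sq_sqrt (Nat.cast_nonneg N), mul_sub]
  rfl

theorem N_vv (m : ℕ) : ∃ δ : ℝ → ℝ, Tendsto δ atTop (𝓝 0) ∧
    ∀ R > 0, ∀ᶠ N : ℕ in atTop, N * ∫ X, vv (R / √N) X ^ 2 ∂(law m N) ≤ δ R := by
  obtain ⟨C, hC, hC2⟩ := proj_small m
  obtain ⟨ε, hε, hε0, hε2⟩ := bad_small m
  set K : ℝ := (Fintype.card (Edge m) : ℝ) with hK
  refine ⟨fun R => 1 / R + 2 * K ^ 2 * ε R, ?_, fun R hR => ?_⟩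
  · have := (tendsto_inv_atTop_zero (𝕜 := ℝ)).add (hε.const_mul (2 * K ^ 2))
    simpa using this
  · have h1 : Tendsto (fun N : ℕ => 8 * ((m : ℝ) + 2) ^ 2 * C * (√N)⁻¹) atTop (𝓝 0) := by
      have h0 : Tendsto (fun N : ℕ => (√(N : ℝ))⁻¹) atTop (𝓝 0) :=
        tendsto_inv_atTop_zero.comp (Real.tendsto_sqrt_atTop.comp tendsto_natCast_atTop_atTop)
      simpa using h0.const_mul (8 * ((m : ℝ) + 2) ^ 2 * C)
    have h2 : ∀ᶠ N : ℕ in atTop, 8 * ((m : ℝ) + 2) ^ 2 * C * (√N)⁻¹ < 1 / R :=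
      h1.eventually_lt_const (by positivity)
    filter_upwards [h2, eventually_ge_atTop (m + 3)] with N h3 hN
    have hN1 : 1 ≤ N := by omega
    have hN0 : (0 : ℝ) < N := by exact_mod_cast hN1
    have hNp : (N : ℝ) ^ ((3 : ℝ) / 2) = N * √N := by
      rw [Real.sqrt_eq_rpow, ← Real.rpow_one_add' hN0.le (by norm_num)]
      norm_num
    have h4 := int_vv_sq hN (R / √N) (α := C / (N : ℝ) ^ ((3 : ℝ) / 2)) (β := ε R / N)
      (by positivity) (div_nonneg (hε0 R) hN0.le) (fun k => hC2 N hN1 k)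
      (fun e => hε2 e R hR N hN)
    have h5 := mul_le_mul_of_nonneg_left h4 hN0.le
    refine h5.trans ?_
    rw [hNp]
    have hs : 0 < √(N : ℝ) := Real.sqrt_pos.2 hN0
    have e1 : (N : ℝ) * (8 * ((m : ℝ) + 2) ^ 2 * (C / (N * √N)) +
        2 * (Fintype.card (Edge m) : ℝ) ^ 2 * (ε R / N)) =
        8 * ((m : ℝ) + 2) ^ 2 * C * (√N)⁻¹ + 2 * K ^ 2 * ε R := by
      rw [← hK]
      field_simp
    rw [e1]
    linarith

theorem M2R_bdd (m : ℕ) : ∃ B : ℝ, 0 ≤ B ∧ ∀ R > 0, (M2 m (fitR R)).toReal ≤ B := by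
  obtain ⟨ε, hε, hε0, hε2⟩ := bad_small m
  refine ⟨2 * (M2 m (fitR 1)).toReal + 2 * ε 1, by
    have := hε0 1; positivity, fun R hR => ?_⟩
  have e : Edge m := e0 m
  have h1 := (lim_two e R hR).2
  have h2 := (((lim_two e 1 one_pos).2).const_mul 2).add_const (2 * ε 1)
  refine le_of_tendsto_of_tendsto h1 h2 ?_
  filter_upwards [eventually_ge_atTop (m + 3)] with N hN
  have hN0 : (0 : ℝ) < N := by
    have : 0 < N := by omega
    exact_mod_cast this
  have i1 := (memLp_DG hN e (R / √N)).integrable_sq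
  have i2 := (memLp_DG hN e (1 / √N)).integrable_sq
  have i3 := (memLp_DB hN e (1 / √N)).integrable_sq
  have h3 : ∫ X, DG e (R / √N) X ^ 2 ∂(law m N) ≤
      ∫ X, (2 * DG e (1 / √N) X ^ 2 + 2 * DB e (1 / √N) X ^ 2) ∂(law m N) := by
    refine integral_mono i1 ((i2.const_mul 2).add (i3.const_mul 2)) fun X => ?_
    have a1 := DG_add_DB e (R / √N) (1 / √N) X
    have a2 := DB_nn e (R / √N) X
    have a3 := DG_nn e (R / √N) X
    have a4 := DG_nn e (1 / √N) X
    have a5 := DB_nn e (1 / √N) X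
    show DG e (R / √N) X ^ 2 ≤ 2 * DG e (1 / √N) X ^ 2 + 2 * DB e (1 / √N) X ^ 2
    nlinarith [sq_nonneg (DG e (1 / √N) X - DB e (1 / √N) X)]
  rw [integral_add (i2.const_mul 2) (i3.const_mul 2), integral_const_mul, integral_const_mul] at h3
  have h4 := int_sq_le (measurable_DB e (1 / √N)).aemeasurable (div_nonneg (hε0 1) hN0.le)
    (hε2 e 1 one_pos N hN)
  have h5 := mul_le_mul_of_nonneg_left h4 hN0.le
  have h6 : (N : ℝ) * (ε 1 / N) = ε 1 := by field_simp
  rw [h6] at h5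
  have h7 := mul_le_mul_of_nonneg_left h3 hN0.le
  linarith

theorem M1R_sq_le (m : ℕ) {R : ℝ} (hR : 0 < R) :
    (M1 m (fitR R)).toReal ^ 2 ≤ (M2 m (fitR R)).toReal := by
  have e : Edge m := e0 m
  have h1 := ((lim_one e R hR).2).pow 2
  have h2 := (lim_two e R hR).2
  refine le_of_tendsto_of_tendsto h1 h2 ?_
  filter_upwards [eventually_ge_atTop (m + 3)] with N hN
  have h3 := variance_eq_sub (memLp_DG hN e (R / √N))
  have h4 := variance_nonneg (DG (N := N) e (R / √N)) (law m N)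
  rw [h3] at h4
  rw [mul_pow, Real.sq_sqrt (Nat.cast_nonneg N)]
  refine mul_le_mul_of_nonneg_left ?_ (Nat.cast_nonneg N)
  have h5 : ∫ X, (DG (N := N) e (R / √N) ^ 2) X ∂(law m N) =
    ∫ X, DG (N := N) e (R / √N) X ^ 2 ∂(law m N) := rfl
  rw [h5] at h4
  linarith

theorem M2_ne_top (m : ℕ) : M2 m univ ≠ ∞ := by
  obtain ⟨B, hB, hB2⟩ := M2R_bdd m
  have h : M2 m univ ≤ ENNReal.ofReal B := by
    refine le_of_tendsto (M2_tendsto m) ?_
    filter_upwards [eventually_gt_atTop (0 : ℝ)] with R hR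
    rw [← ENNReal.ofReal_toReal (lim_two (e0 m) R hR).1]
    exact ENNReal.ofReal_le_ofReal (hB2 R hR)
  exact ne_top_of_le_ne_top ENNReal.ofReal_ne_top h

theorem M1_ne_top (m : ℕ) : M1 m univ ≠ ∞ := by
  obtain ⟨B, hB, hB2⟩ := M2R_bdd m
  have h : M1 m univ ≤ ENNReal.ofReal (√B) := by
    refine le_of_tendsto (M1_tendsto m) ?_
    filter_upwards [eventually_gt_atTop (0 : ℝ)] with R hR
    rw [← ENNReal.ofReal_toReal (lim_one (e0 m) R hR).1]
    refine ENNReal.ofReal_le_ofReal (Real.le_sqrt_of_sq_le ?_)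
    exact (M1R_sq_le m hR).trans (hB2 R hR)
  exact ne_top_of_le_ne_top ENNReal.ofReal_ne_top h

end K2

open K2

/-- the constant, `n = m + 2` -/
noncomputable def cst (m : ℕ) : ℝ :=
  2 * (m + 2) * (m + 1) * ((M2 m univ).toReal - (M1 m univ).toReal ^ 2)

theorem K2.cR_tendsto (m : ℕ) : Tendsto (cR m) atTop (𝓝 (cst m)) := by
  have h1 := (ENNReal.tendsto_toReal (M1_ne_top m)).comp (M1_tendsto m)
  have h2 := (ENNReal.tendsto_toReal (M2_ne_top m)).comp (M2_tendsto m)
  have h3 := (h2.sub (h1.pow 2)).const_mul ((Fintype.card (Edge m)) : ℝ)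
  have h4 : cst m = ((Fintype.card (Edge m)) : ℝ) *
      ((M2 m univ).toReal - (M1 m univ).toReal ^ 2) := by
    rw [card_edge, cst]; push_cast; ring
  rw [h4]
  exact h3

theorem main (m : ℕ) : M1 m univ ≠ ∞ ∧ M2 m univ ≠ ∞ ∧ 0 < cst m ∧
    Tendsto (fun N : ℕ => N * ProbabilityTheory.variance
      (fun X : Fin N → P m => surf (convexHull ℝ (range X))) (law m N)) atTop (𝓝 (cst m)) := by
  obtain ⟨δ, hδ, hδ2⟩ := N_vv m
  have hvar : ∀ N : ℕ, m + 3 ≤ N → variance (fun X : Fin N → P m => surf (convexHull ℝ (range X)))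
      (law m N) = Var[df (m := m) (N := N); law m N] := by
    intro N hN
    have := variance_const_sub (memLp_surf_hull m N hN 2).aestronglyMeasurable (2 * ((m : ℝ) + 2))
    exact this.symm
  have hlim : Tendsto (fun N : ℕ => N * variance
      (fun X : Fin N → P m => surf (convexHull ℝ (range X))) (law m N)) atTop (𝓝 (cst m)) := by
    refine tendsto_of_approx (y := fun R N => N * Var[uu (m := m) (N := N) (R / √N); law m N])
      (z := fun R N => N * Var[vv (m := m) (N := N) (R / √N); law m N]) (cR := cR m) (δ := δ)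
      ?_ ?_ ?_ (cR_tendsto m) hδ
    · intro R hR
      filter_upwards [eventually_ge_atTop (m + 3)] with N hN η hη
      have h := var_approx (memLp_uu hN (R / √N)) (memLp_vv hN (R / √N)) hη
      have e1 : (fun X : Fin N → P m => uu (R / √N) X + vv (R / √N) X) = df := by
        funext X; unfold vv; ring
      rw [e1] at h
      rw [hvar N hN, ← mul_sub, abs_mul, abs_of_nonneg (Nat.cast_nonneg N)]
      calc (N : ℝ) * |Var[df; law m N] - Var[uu (R / √N); law m N]| ≤ N * _ :=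
            mul_le_mul_of_nonneg_left h (Nat.cast_nonneg N)
        _ = _ := by ring
    · intro R hR
      exact tendsto_var_uu m hR
    · intro R hR
      filter_upwards [hδ2 R hR, eventually_ge_atTop (m + 3)] with N h1 hN
      refine le_trans (mul_le_mul_of_nonneg_left ?_ (Nat.cast_nonneg N)) h1
      have := variance_le_expectation_sq (memLp_vv (m := m) hN (R / √N)).aestronglyMeasurable
      simpa using this
  refine ⟨M1_ne_top m, M2_ne_top m, ?_, hlim⟩
  -- positivity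
  have h1 := tendsto_uu_sq m one_pos
  obtain ⟨L, hL⟩ : ∃ L : ℝ, ∀ᶠ N : ℕ in atTop, N * ∫ X, uu (1 / √N) X ^ 2 ∂(law m N) ≤ L :=
    ⟨_, (h1.eventually_lt_const (lt_add_one _)).mono fun N h => h.le⟩
  obtain ⟨c, hc, N₀, hN₀⟩ := var_lower m (2 * L + 2 * δ 1)
  refine lt_of_lt_of_le hc (ge_of_tendsto hlim ?_)
  filter_upwards [hL, hδ2 1 one_pos, eventually_ge_atTop N₀, eventually_ge_atTop (m + 3)] with
    N h2 h3 h4 hN
  have hN0 : (0 : ℝ) < N := by
    have : 0 < N := by omega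
    exact_mod_cast this
  have h5 : ∫⁻ X, ENNReal.ofReal ((2 * (m + 2) - surf (convexHull ℝ (range X))) ^ 2) ∂(law m N) ≤
      ENNReal.ofReal ((2 * L + 2 * δ 1) / N) := by
    have i0 := (memLp_df (m := m) hN).integrable_sq
    have i1 := (memLp_uu (m := m) hN (1 / √N)).integrable_sq
    have i2 := (memLp_vv (m := m) hN (1 / √N)).integrable_sq
    have h6 := ofReal_integral_eq_lintegral_ofReal i0 (Eventually.of_forall fun X => sq_nonneg _)
    rw [show (∫⁻ X : Fin N → P m, ENNReal.ofReal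
      ((2 * (m + 2) - surf (convexHull ℝ (range X))) ^ 2) ∂(law m N)) =
      ∫⁻ X, ENNReal.ofReal (df X ^ 2) ∂(law m N) from rfl, ← h6]
    refine ENNReal.ofReal_le_ofReal ?_
    rw [le_div_iff₀ hN0]
    have h7 : ∫ X, df X ^ 2 ∂(law m N) ≤
        ∫ X, (2 * uu (1 / √N) X ^ 2 + 2 * vv (1 / √N) X ^ 2) ∂(law m N) := by
      refine integral_mono i0 ((i1.const_mul 2).add (i2.const_mul 2)) fun X => ?_
      show df X ^ 2 ≤ 2 * uu (1 / √N) X ^ 2 + 2 * vv (1 / √N) X ^ 2
      have : df X = uu (1 / √N) X + vv (1 / √N) X := by unfold vv; ring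
      rw [this]
      nlinarith [sq_nonneg (uu (1 / √N) X - vv (1 / √N) X)]
    rw [integral_add (i1.const_mul 2) (i2.const_mul 2), integral_const_mul,
      integral_const_mul] at h7
    have h8 := mul_le_mul_of_nonneg_right h7 hN0.le
    linarith
  have h6 := hN₀ N h4 h5
  rw [div_le_iff₀ hN0] at h6
  linarith

end Pool.Agent.B05
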